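import Pool.Agent.MP_a187e6.CellLemmas

/-! The predicate `SmallSpec` and growth lemmas. -/

namespace Pool.Agent.MP_a187e6

open Finset

/-- every divisor of `n` composed of special primes is `≤ 2^(k/16)` -/
def SmallSpec {β : ℝ} {k₀ : ℕ} (𝒟 : Dead β k₀) (k n : ℕ) : Prop :=
  ∀ d, d ∣ n → (∀ p : ℕ, p.Prime → p ∣ d → 𝒟.Spec p) → (d : ℝ) ≤ (2 : ℝ) ^ ((k : ℝ) / 16)

/-- `k^m * 2^(-a k) ≤ b` for large `k` -/
lemma exists_pow_mul_two_rpow_le (m : ℕ) {a b : ℝ} (ha : 0 < a) (hb : 0 < b) :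
    ∃ k₁ : ℕ, ∀ k : ℕ, k₁ ≤ k → (k : ℝ) ^ m * (2 : ℝ) ^ (-a * (k : ℝ)) ≤ b := by
  have h1 : Filter.Tendsto (fun x : ℝ => x ^ (m : ℝ) * Real.exp (-(a * Real.log 2) * x))
      Filter.atTop (nhds 0) := by
    apply tendsto_rpow_mul_exp_neg_mul_atTop_nhds_zero
    have := Real.log_pos (show (1 : ℝ) < 2 by norm_num)
    positivity
  have h2 := h1.comp tendsto_natCast_atTop_atTop
  have h3 := (h2.eventually (gt_mem_nhds hb)).exists_forall_of_atTop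
  obtain ⟨k₁, hk₁⟩ := h3
  refine ⟨k₁, fun k hk => ?_⟩
  have h4 := hk₁ k hk
  simp only [Function.comp, Real.rpow_natCast] at h4
  have h5 : (2 : ℝ) ^ (-a * (k : ℝ)) = Real.exp (-(a * Real.log 2) * k) := by
    rw [Real.rpow_def_of_pos (by norm_num)]
    congr 1
    ring
  rw [h5]
  exact h4.le

/-- the same with `k + 1` -/
lemma exists_succ_pow_mul_two_rpow_le (m : ℕ) {a b : ℝ} (ha : 0 < a) (hb : 0 < b) :
    ∃ k₁ : ℕ, ∀ k : ℕ, k₁ ≤ k → ((k : ℝ) + 1) ^ m * (2 : ℝ) ^ (-a * (k : ℝ)) ≤ b := by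
  obtain ⟨k₁, hk₁⟩ := exists_pow_mul_two_rpow_le m (a := a) (b := b * (2 : ℝ) ^ (-a)) ha
    (by positivity)
  refine ⟨k₁, fun k hk => ?_⟩
  have h := hk₁ (k + 1) (by omega)
  have e : (2 : ℝ) ^ (-a * ((k + 1 : ℕ) : ℝ)) = (2 : ℝ) ^ (-a * (k : ℝ)) * (2 : ℝ) ^ (-a) := by
    rw [← Real.rpow_add (by norm_num)]
    congr 1
    push_cast
    ring
  rw [e] at h
  push_cast at h
  have h2 : (0 : ℝ) < (2 : ℝ) ^ (-a) := by positivity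
  have h3 : ((k : ℝ) + 1) ^ m * (2 : ℝ) ^ (-a * (k : ℝ)) * (2 : ℝ) ^ (-a) ≤ b * (2 : ℝ) ^ (-a) := by
    linarith
  exact le_of_mul_le_mul_right h3 h2

end Pool.Agent.MP_a187e6
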