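import Pool.Agent.MP_a187e6.CellLemmas

/-!
# Module C2 : eligible primes and primes in dead cells are sparse
-/

namespace Pool.Agent.MP_a187e6

open Finset

/-- two distinct primes eligible for the same cell do not share the same number -/
lemma elig_unique {β : ℝ} (hβ : 0 < β) (hβ' : β ≤ 1 / 1000) {k j m m' q q' : ℕ}
    (hj : j < ncell β k) (hk : 1 ≤ 40 * β * (k : ℝ))
    (h : Elig β k j m q) (h' : Elig β k j m' q') (he : m * q = m' * q') : q = q' := by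
  by_contra hne
  have hd : q ∣ m * q := dvd_mul_left _ _
  have hd' : q' ∣ m * q := by rw [he]; exact dvd_mul_left _ _
  have hco : Nat.Coprime q q' := (Nat.coprime_primes h.1 h'.1).2 hne
  have hdd : q * q' ∣ m * q := hco.mul_dvd_of_dvd_of_dvd hd hd'
  have hmem := h.2.2.2.2
  have hpos := pos_of_mem_cell hmem
  have hle : q * q' ≤ m * q := Nat.le_of_dvd hpos hdd
  have hlt := lt_two_pow_of_mem_cell hβ hβ' hj hmem
  have hlt2 : ((q * q' : ℕ) : ℝ) < (2 : ℝ) ^ ((k : ℝ) + 1) := by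
    have : q * q' < 2 ^ (k + 1) := lt_of_le_of_lt hle hlt
    have h3 : ((q * q' : ℕ) : ℝ) < ((2 ^ (k + 1) : ℕ) : ℝ) := by exact_mod_cast this
    rw [show ((k : ℝ) + 1) = ((k + 1 : ℕ) : ℝ) by push_cast; ring, Real.rpow_natCast]
    push_cast at h3 ⊢
    exact h3
  have hge : (2 : ℝ) ^ ((k : ℝ) + 1) ≤ ((q * q' : ℕ) : ℝ) := by
    calc (2 : ℝ) ^ ((k : ℝ) + 1)
        ≤ (2 : ℝ) ^ ((1 / 2 + 20 * β) * (k : ℝ) + (1 / 2 + 20 * β) * (k : ℝ)) := by
          apply Real.rpow_le_rpow_of_exponent_le (by norm_num)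
          linarith
      _ = (2 : ℝ) ^ ((1 / 2 + 20 * β) * (k : ℝ)) * (2 : ℝ) ^ ((1 / 2 + 20 * β) * (k : ℝ)) :=
          Real.rpow_add (by norm_num) _ _
      _ ≤ (q : ℝ) * q' := mul_le_mul h.2.1.le h'.2.1.le (by positivity) (by positivity)
      _ = _ := by push_cast; ring
  linarith

open Classical in
/-- at most `len` primes are eligible for a given cell -/
lemma card_elig_le {β : ℝ} (hβ : 0 < β) (hβ' : β ≤ 1 / 1000) {k j : ℕ}
    (hj : j < ncell β k) (hk : 1 ≤ 40 * β * (k : ℝ)) (s : Finset ℕ) :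
    (s.filter (fun q => ∃ m, Elig β k j m q)).card ≤ len β k := by
  rw [← card_cell β k j]
  let g : ℕ → ℕ := fun q => if h : ∃ m, Elig β k j m q then h.choose * q else 0
  apply Finset.card_le_card_of_injOn g
  · intro q hq
    have hq' : q ∈ s.filter (fun q => ∃ m, Elig β k j m q) := hq
    rw [Finset.mem_filter] at hq'
    have hg : g q = hq'.2.choose * q := dif_pos hq'.2
    rw [hg]
    exact hq'.2.choose_spec.2.2.2.2
  · intro q hq q' hq' hqq
    have h1 : q ∈ s.filter (fun q => ∃ m, Elig β k j m q) := hq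
    have h2 : q' ∈ s.filter (fun q => ∃ m, Elig β k j m q) := hq'
    rw [Finset.mem_filter] at h1 h2
    have hg1 : g q = h1.2.choose * q := dif_pos h1.2
    have hg2 : g q' = h2.2.choose * q' := dif_pos h2.2
    rw [hg1, hg2] at hqq
    exact elig_unique hβ hβ' hj hk h1.2.choose_spec h2.2.choose_spec hqq

lemma two_rpow_mul_ge {c : ℝ} (hc : 0 < c) (i : ℕ) (hi : 1 ≤ i)
    (hi2 : 20 / (c * Real.log 2) ^ 2 ≤ i) : (2 * (i : ℝ) + 3) * 2 ≤ (2 : ℝ) ^ (c * (i : ℝ)) := by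
  have hlog : 0 < Real.log 2 := Real.log_pos (by norm_num)
  have hi' : (1 : ℝ) ≤ i := by exact_mod_cast hi
  have h1 : (2 : ℝ) ^ (c * (i : ℝ)) = Real.exp (Real.log 2 * (c * i)) := by
    rw [Real.rpow_def_of_pos (by norm_num)]
  have h2 := Real.quadratic_le_exp_of_nonneg (by positivity : 0 ≤ Real.log 2 * (c * (i : ℝ)))
  rw [h1]
  have h3 : 20 ≤ (c * Real.log 2) ^ 2 * i := by
    rw [div_le_iff₀ (by positivity)] at hi2
    linarith
  have h4 : (Real.log 2 * (c * (i : ℝ))) ^ 2 = ((c * Real.log 2) ^ 2 * i) * i := by ring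
  have h5 : 20 * (i : ℝ) ≤ ((c * Real.log 2) ^ 2 * i) * i := by
    apply mul_le_mul_of_nonneg_right h3 (by linarith)
  have h6 : 0 ≤ Real.log 2 * (c * (i : ℝ)) := by positivity
  rw [h4] at h2
  linarith

theorem sparse {β : ℝ} (hβ : 0 < β) (hβ' : β ≤ 1 / 1000) : ∃ k₁ : ℕ, ∀ k₀ : ℕ, k₁ ≤ k₀ →
    ∀ 𝒟 : Dead β k₀, ∀ i : ℕ, ∀ s : Finset ℕ, s ⊆ Finset.Ico (2 ^ i) (2 ^ (i + 1)) →
      (∀ p ∈ s, p.Prime ∧ (𝒟.SStar p ∨ 𝒟.InDead p)) →
      (s.card : ℝ) ≤ (2 : ℝ) ^ ((1 - 30 * β) * (i : ℝ)) ∧ (s.Nonempty → k₀ ≤ 2 * i + 2) := by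
  classical
  set N1 : ℕ := ⌈20 / ((5 * β) * Real.log 2) ^ 2⌉₊ with hN1
  set N2 : ℕ := ⌈1 / (40 * β)⌉₊ with hN2
  refine ⟨2 * N1 + N2 + 4, ?_⟩
  intro k₀ hk₀ 𝒟 i s hs hp
  -- basic facts on an element
  have hEl : ∀ p ∈ s, ∀ k j m, j ∈ 𝒟.D k → Elig β k j m p →
      (1 / 2 + 20 * β) * (k : ℝ) < i + 1 ∧ k₀ < k := by
    intro p hps k j m hj he
    have h1 := Finset.mem_Ico.1 (hs hps)
    refine ⟨?_, pos_of_mem_D 𝒟 hj⟩
    by_contra hcon
    push Not at hcon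
    have h2 : (2 : ℝ) ^ ((i : ℝ) + 1) ≤ (2 : ℝ) ^ ((1 / 2 + 20 * β) * (k : ℝ)) :=
      Real.rpow_le_rpow_of_exponent_le (by norm_num) hcon
    have h3 : (p : ℝ) < (2 : ℝ) ^ ((i : ℝ) + 1) := by
      have h4 : (p : ℝ) < ((2 ^ (i + 1) : ℕ) : ℝ) := by exact_mod_cast h1.2
      rw [show ((i : ℝ) + 1) = ((i + 1 : ℕ) : ℝ) by push_cast; ring, Real.rpow_natCast]
      push_cast at h4 ⊢
      exact h4
    linarith [he.2.1]
  have hDe : ∀ p ∈ s, ∀ k j, j ∈ 𝒟.D k → p ∈ cell β k j → k = i := by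
    intro p hps k j hj hc
    have h1 := Finset.mem_Ico.1 (hs hps)
    have h2 := two_pow_le_of_mem_cell hc
    have h3 := lt_two_pow_of_mem_cell hβ hβ' (lt_ncell_of_mem_D 𝒟 hj) hc
    have a1 : k < i + 1 := by
      by_contra hcon
      push Not at hcon
      have := Nat.pow_le_pow_right (show 0 < 2 by norm_num) hcon
      omega
    have a2 : i < k + 1 := by
      by_contra hcon
      push Not at hcon
      have := Nat.pow_le_pow_right (show 0 < 2 by norm_num) hcon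
      omega
    omega
  have hk2i : ∀ k : ℕ, (1 / 2 + 20 * β) * (k : ℝ) < i + 1 → k < 2 * i + 2 := by
    intro k hk
    have hk0 : (0 : ℝ) ≤ k := Nat.cast_nonneg k
    have : (k : ℝ) < 2 * i + 2 := by nlinarith
    exact_mod_cast this
  have hne : s.Nonempty → k₀ ≤ 2 * i + 2 := by
    rintro ⟨p, hps⟩
    rcases (hp p hps).2 with ⟨k, j, m, hj, he⟩ | ⟨k, j, hj, hc⟩
    · obtain ⟨h1, h2⟩ := hEl p hps k j m hj he
      have := hk2i k h1
      omega
    · have h1 := hDe p hps k j hj hc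
      have h2 := pos_of_mem_D 𝒟 hj
      omega
  refine ⟨?_, hne⟩
  rcases s.eq_empty_or_nonempty with h0 | h0
  · rw [h0]
    simp only [card_empty, CharP.cast_eq_zero]
    positivity
  have hk0i := hne h0
  have hiN1 : N1 + 1 ≤ i := by omega
  have hi1 : 1 ≤ i := by omega
  have hi0 : (0 : ℝ) ≤ i := Nat.cast_nonneg i
  set G : ℝ := (2 : ℝ) ^ ((1 - 35 * β) * ((i : ℝ) + 1)) with hG
  have hGpos : 0 < G := by positivity
  -- covering
  have hcover : s ⊆ (range (2 * i + 2)).biUnion (fun k => (𝒟.D k).biUnion (fun j =>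
      s.filter (fun q => ∃ m, Elig β k j m q))) ∪ (𝒟.D i).biUnion (fun j => cell β i j) := by
    intro p hps
    rw [Finset.mem_union]
    rcases (hp p hps).2 with ⟨k, j, m, hj, he⟩ | ⟨k, j, hj, hc⟩
    · left
      obtain ⟨h1, h2⟩ := hEl p hps k j m hj he
      rw [Finset.mem_biUnion]
      refine ⟨k, Finset.mem_range.2 (hk2i k h1), ?_⟩
      rw [Finset.mem_biUnion]
      exact ⟨j, hj, Finset.mem_filter.2 ⟨hps, m, he⟩⟩
    · right
      have h1 := hDe p hps k j hj hc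
      subst h1
      rw [Finset.mem_biUnion]
      exact ⟨j, hj, hc⟩
  have hcard := Finset.card_le_card hcover
  have hcard2 := hcard.trans (Finset.card_union_le _ _)
  have hDL : ∀ k : ℕ, ((𝒟.D k).card : ℝ) * (len β k : ℝ) ≤ (2 : ℝ) ^ ((1 / 2 + 2 * β / 3) * (k : ℝ)) := by
    intro k
    calc ((𝒟.D k).card : ℝ) * (len β k : ℝ)
        ≤ (2 : ℝ) ^ (β * (k : ℝ)) * (2 : ℝ) ^ ((1 / 2 - β / 3) * (k : ℝ)) :=
          mul_le_mul (𝒟.card k) (len_le hβ' k) (by positivity) (by positivity)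
      _ = _ := by rw [← Real.rpow_add (by norm_num)]; congr 1; ring
  have hB1 : (((range (2 * i + 2)).biUnion (fun k => (𝒟.D k).biUnion (fun j =>
      s.filter (fun q => ∃ m, Elig β k j m q)))).card : ℝ) ≤ (2 * i + 2) * G := by
    have h1 : (((range (2 * i + 2)).biUnion (fun k => (𝒟.D k).biUnion (fun j =>
      s.filter (fun q => ∃ m, Elig β k j m q)))).card : ℝ)
      ≤ ∑ k ∈ range (2 * i + 2), (((𝒟.D k).biUnion (fun j =>
      s.filter (fun q => ∃ m, Elig β k j m q))).card : ℝ) := by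
      exact_mod_cast Finset.card_biUnion_le
    refine h1.trans ?_
    have h2 : ∑ k ∈ range (2 * i + 2), (((𝒟.D k).biUnion (fun j =>
      s.filter (fun q => ∃ m, Elig β k j m q))).card : ℝ) ≤ ∑ k ∈ range (2 * i + 2), G := by
      apply Finset.sum_le_sum
      intro k _
      rcases ((𝒟.D k).biUnion (fun j =>
        s.filter (fun q => ∃ m, Elig β k j m q))).eq_empty_or_nonempty with h3 | h3
      · rw [h3]; simp only [card_empty, CharP.cast_eq_zero]; exact hGpos.le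
      · obtain ⟨p, hpm⟩ := h3
        rw [Finset.mem_biUnion] at hpm
        obtain ⟨j, hj, hpj⟩ := hpm
        rw [Finset.mem_filter] at hpj
        obtain ⟨hps, m, he⟩ := hpj
        obtain ⟨hki, hk0⟩ := hEl p hps k j m hj he
        have hkβ : 1 ≤ 40 * β * (k : ℝ) := by
          have e1 : (1 / (40 * β) : ℝ) ≤ N2 := Nat.le_ceil _
          have e2 : (N2 : ℝ) ≤ k := by exact_mod_cast (by omega : N2 ≤ k)
          have e3 : 1 / (40 * β) ≤ (k : ℝ) := e1.trans e2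
          rw [div_le_iff₀ (by positivity)] at e3
          linarith
        have h4 : (((𝒟.D k).biUnion (fun j =>
            s.filter (fun q => ∃ m, Elig β k j m q))).card : ℝ)
            ≤ ∑ j ∈ 𝒟.D k, ((s.filter (fun q => ∃ m, Elig β k j m q)).card : ℝ) := by
          exact_mod_cast Finset.card_biUnion_le
        have h5 : ∑ j ∈ 𝒟.D k, ((s.filter (fun q => ∃ m, Elig β k j m q)).card : ℝ)
            ≤ ∑ j ∈ 𝒟.D k, (len β k : ℝ) := by
          apply Finset.sum_le_sum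
          intro j' hj'
          exact_mod_cast card_elig_le hβ hβ' (lt_ncell_of_mem_D 𝒟 hj') hkβ s
        rw [Finset.sum_const, nsmul_eq_mul] at h5
        refine h4.trans (h5.trans ((hDL k).trans ?_))
        apply Real.rpow_le_rpow_of_exponent_le (by norm_num)
        have hk0' : (0 : ℝ) ≤ k := Nat.cast_nonneg k
        have e4 : (1 / 2 + 2 * β / 3) ≤ (1 - 35 * β) * (1 / 2 + 20 * β) := by nlinarith
        calc (1 / 2 + 2 * β / 3) * (k : ℝ) ≤ ((1 - 35 * β) * (1 / 2 + 20 * β)) * k :=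
              mul_le_mul_of_nonneg_right e4 hk0'
          _ = (1 - 35 * β) * ((1 / 2 + 20 * β) * k) := by ring
          _ ≤ (1 - 35 * β) * ((i : ℝ) + 1) :=
              mul_le_mul_of_nonneg_left hki.le (by linarith)
    refine h2.trans ?_
    rw [Finset.sum_const, Finset.card_range, nsmul_eq_mul]
    push_cast
    exact le_rfl
  have hB2 : (((𝒟.D i).biUnion (fun j => cell β i j)).card : ℝ) ≤ G := by
    have h4 : (((𝒟.D i).biUnion (fun j => cell β i j)).card : ℝ)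
        ≤ ∑ j ∈ 𝒟.D i, ((cell β i j).card : ℝ) := by
      exact_mod_cast Finset.card_biUnion_le
    have h5 : ∑ j ∈ 𝒟.D i, ((cell β i j).card : ℝ) = ∑ j ∈ 𝒟.D i, (len β i : ℝ) := by
      apply Finset.sum_congr rfl
      intro j _
      rw [card_cell]
    rw [h5, Finset.sum_const, nsmul_eq_mul] at h4
    refine h4.trans ((hDL i).trans ?_)
    apply Real.rpow_le_rpow_of_exponent_le (by norm_num)
    have e4 : (1 / 2 + 2 * β / 3) ≤ (1 - 35 * β) := by linarith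
    calc (1 / 2 + 2 * β / 3) * (i : ℝ) ≤ (1 - 35 * β) * i :=
          mul_le_mul_of_nonneg_right e4 hi0
      _ ≤ (1 - 35 * β) * ((i : ℝ) + 1) := by
          apply mul_le_mul_of_nonneg_left (by linarith) (by linarith)
  have hfin : (s.card : ℝ) ≤ (2 * i + 3) * G := by
    have : (s.card : ℝ) ≤ (((range (2 * i + 2)).biUnion (fun k => (𝒟.D k).biUnion (fun j =>
      s.filter (fun q => ∃ m, Elig β k j m q)))).card : ℝ) +
      (((𝒟.D i).biUnion (fun j => cell β i j)).card : ℝ) := by exact_mod_cast hcard2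
    linarith
  refine hfin.trans ?_
  have hG2 : G ≤ 2 * (2 : ℝ) ^ ((1 - 35 * β) * (i : ℝ)) := by
    rw [hG]
    calc (2 : ℝ) ^ ((1 - 35 * β) * ((i : ℝ) + 1)) ≤ (2 : ℝ) ^ (1 + (1 - 35 * β) * (i : ℝ)) := by
          apply Real.rpow_le_rpow_of_exponent_le (by norm_num)
          nlinarith
      _ = 2 * (2 : ℝ) ^ ((1 - 35 * β) * (i : ℝ)) := by
          rw [Real.rpow_add (by norm_num), Real.rpow_one]
  have hth := two_rpow_mul_ge (by positivity : (0 : ℝ) < 5 * β) i hi1 (by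
    have e1 : 20 / (5 * β * Real.log 2) ^ 2 ≤ (N1 : ℝ) := Nat.le_ceil _
    have e2 : (N1 : ℝ) ≤ i := by exact_mod_cast (by omega : N1 ≤ i)
    linarith)
  calc (2 * (i : ℝ) + 3) * G ≤ (2 * (i : ℝ) + 3) * (2 * (2 : ℝ) ^ ((1 - 35 * β) * (i : ℝ))) :=
        mul_le_mul_of_nonneg_left hG2 (by positivity)
    _ = ((2 * (i : ℝ) + 3) * 2) * (2 : ℝ) ^ ((1 - 35 * β) * (i : ℝ)) := by ring
    _ ≤ (2 : ℝ) ^ (5 * β * (i : ℝ)) * (2 : ℝ) ^ ((1 - 35 * β) * (i : ℝ)) :=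
        mul_le_mul_of_nonneg_right hth (by positivity)
    _ = (2 : ℝ) ^ ((1 - 30 * β) * (i : ℝ)) := by
        rw [← Real.rpow_add (by norm_num)]; congr 1; ring

/-- consequence of `sparse` : reciprocal sums -/
theorem sparse_sum {β : ℝ} (hβ : 0 < β) (hβ' : β ≤ 1 / 1000) : ∃ k₁ : ℕ, ∀ k₀ : ℕ, k₁ ≤ k₀ →
    ∀ 𝒟 : Dead β k₀, ∀ s : Finset ℕ, (∀ p ∈ s, p.Prime ∧ (𝒟.SStar p ∨ 𝒟.InDead p)) →
      ∑ p ∈ s, (p : ℝ) ^ (-1 + 20 * β) ≤ (2 : ℝ) ^ (-4 * β * (k₀ : ℝ)) := by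
  classical
  obtain ⟨k₂, hk₂⟩ := sparse hβ hβ'
  have hr1 : (2 : ℝ) ^ (-β) < 1 := by
    apply Real.rpow_lt_one_of_one_lt_of_neg (by norm_num) (by linarith)
  have hr0 : (0 : ℝ) < (2 : ℝ) ^ (-β) := by positivity
  set C : ℝ := (2 : ℝ) ^ (9 * β) * (1 - (2 : ℝ) ^ (-β))⁻¹ with hC
  have hCpos : 0 < C := by
    have : 0 < 1 - (2 : ℝ) ^ (-β) := by linarith
    positivity
  -- threshold: `C ≤ 2^{β k₀ / 2}`
  obtain ⟨N3, hN3⟩ : ∃ N3 : ℕ, ∀ k₀ : ℕ, N3 ≤ k₀ → C ≤ (2 : ℝ) ^ (β / 2 * (k₀ : ℝ)) := by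
    refine ⟨⌈(Real.logb 2 C) / (β / 2)⌉₊, ?_⟩
    intro k₀ hk
    have h1 : (Real.logb 2 C) / (β / 2) ≤ k₀ := (Nat.le_ceil _).trans (by exact_mod_cast hk)
    rw [div_le_iff₀ (by positivity)] at h1
    calc C = (2 : ℝ) ^ (Real.logb 2 C) := (Real.rpow_logb (by norm_num) (by norm_num) hCpos).symm
      _ ≤ _ := Real.rpow_le_rpow_of_exponent_le (by norm_num) (by linarith)
  refine ⟨max k₂ N3, ?_⟩
  intro k₀ hk₀ 𝒟 s hp
  have hkk2 : k₂ ≤ k₀ := le_trans (le_max_left _ _) hk₀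
  have hkN3 : N3 ≤ k₀ := le_trans (le_max_right _ _) hk₀
  set N := s.sup (Nat.log 2) + 1 with hN
  have hmaps : ∀ p ∈ s, Nat.log 2 p ∈ range N := by
    intro p hps
    rw [Finset.mem_range]
    have := Finset.le_sup (f := Nat.log 2) hps
    omega
  rw [← Finset.sum_fiberwise_of_maps_to hmaps]
  have hblock : ∀ i ∈ range N, ∑ p ∈ s.filter (fun p => Nat.log 2 p = i), (p : ℝ) ^ (-1 + 20 * β)
      ≤ (2 : ℝ) ^ (-(9 / 2) * β * (k₀ : ℝ) + 9 * β) * ((2 : ℝ) ^ (-β)) ^ i := by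
    intro i _
    set t := s.filter (fun p => Nat.log 2 p = i) with ht
    have hts : t ⊆ Finset.Ico (2 ^ i) (2 ^ (i + 1)) := by
      intro p hpt
      rw [ht, Finset.mem_filter] at hpt
      have hp0 : p ≠ 0 := (hp p hpt.1).1.ne_zero
      rw [Finset.mem_Ico, ← hpt.2]
      exact ⟨Nat.pow_log_le_self 2 hp0, Nat.lt_pow_succ_log_self (by norm_num) p⟩
    obtain ⟨h1, h2⟩ := hk₂ k₀ hkk2 𝒟 i t hts (fun p hpt => hp p (Finset.mem_filter.1 hpt).1)
    rcases t.eq_empty_or_nonempty with h0 | h0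
    · rw [h0, Finset.sum_empty]; positivity
    have h3 := h2 h0
    have h4 : ∑ p ∈ t, (p : ℝ) ^ (-1 + 20 * β) ≤ ∑ p ∈ t, (2 : ℝ) ^ ((-1 + 20 * β) * (i : ℝ)) := by
      apply Finset.sum_le_sum
      intro p hpt
      have h5 := (Finset.mem_Ico.1 (hts hpt)).1
      have h6 : (2 : ℝ) ^ (i : ℝ) ≤ p := by
        rw [Real.rpow_natCast]
        exact_mod_cast h5
      calc (p : ℝ) ^ (-1 + 20 * β) ≤ ((2 : ℝ) ^ (i : ℝ)) ^ (-1 + 20 * β) := by
            apply Real.rpow_le_rpow_of_nonpos (by positivity) h6 (by linarith)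
        _ = _ := by rw [← Real.rpow_mul (by norm_num)]; congr 1; ring
    rw [Finset.sum_const, nsmul_eq_mul] at h4
    have hi0 : (0 : ℝ) ≤ i := Nat.cast_nonneg i
    have h7 : (k₀ : ℝ) ≤ 2 * i + 2 := by exact_mod_cast h3
    calc _ ≤ _ := h4
      _ ≤ (2 : ℝ) ^ ((1 - 30 * β) * (i : ℝ)) * (2 : ℝ) ^ ((-1 + 20 * β) * (i : ℝ)) :=
          mul_le_mul_of_nonneg_right h1 (by positivity)
      _ = (2 : ℝ) ^ (-9 * β * (i : ℝ) + (-β) * i) := by
          rw [← Real.rpow_add (by norm_num)]; congr 1; ring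
      _ ≤ (2 : ℝ) ^ ((-(9 / 2) * β * (k₀ : ℝ) + 9 * β) + (-β) * i) := by
          apply Real.rpow_le_rpow_of_exponent_le (by norm_num)
          nlinarith
      _ = _ := by
          rw [Real.rpow_add (by norm_num), Real.rpow_mul (by norm_num) (-β), Real.rpow_natCast]
  calc _ ≤ ∑ i ∈ range N, (2 : ℝ) ^ (-(9 / 2) * β * (k₀ : ℝ) + 9 * β) * ((2 : ℝ) ^ (-β)) ^ i :=
        Finset.sum_le_sum hblock
    _ = (2 : ℝ) ^ (-(9 / 2) * β * (k₀ : ℝ) + 9 * β) * ∑ i ∈ range N, ((2 : ℝ) ^ (-β)) ^ i := by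
        rw [Finset.mul_sum]
    _ ≤ (2 : ℝ) ^ (-(9 / 2) * β * (k₀ : ℝ) + 9 * β) * (1 - (2 : ℝ) ^ (-β))⁻¹ := by
        apply mul_le_mul_of_nonneg_left _ (by positivity)
        have hs := hasSum_geometric_of_lt_one hr0.le hr1
        rw [← hs.tsum_eq]
        exact hs.summable.sum_le_tsum _ (fun i _ => by positivity)
    _ = (2 : ℝ) ^ (-(9 / 2) * β * (k₀ : ℝ)) * C := by
        rw [hC, Real.rpow_add (by norm_num)]; ring
    _ ≤ (2 : ℝ) ^ (-(9 / 2) * β * (k₀ : ℝ)) * (2 : ℝ) ^ (β / 2 * (k₀ : ℝ)) :=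
        mul_le_mul_of_nonneg_left (hN3 k₀ hkN3) (by positivity)
    _ = (2 : ℝ) ^ (-4 * β * (k₀ : ℝ)) := by
        rw [← Real.rpow_add (by norm_num)]; congr 1; ring

end Pool.Agent.MP_a187e6
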