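import Pool.Agent.MP_a187e6.EulerUpper
import Pool.Agent.MP_a187e6.SmallSpec
import Pool.Agent.MP_a187e6.Sparse

/-!
# Module E1 : basic estimates for the majorant `α`
-/

namespace Pool.Agent.MP_a187e6

open Finset

lemma spec_sstar {β : ℝ} {k₀ : ℕ} {𝒟 : Dead β k₀} {q : ℕ} (h : 𝒟.Spec q) : 𝒟.SStar q := by
  obtain ⟨k, j, m, hj, hK⟩ := h
  exact ⟨k, j, m, hj, hK.1⟩

/-- `α q ≤ q^(c)` at special primes -/
lemma alpha_spec_le {β : ℝ} (hβ : 0 < β) (K₀ : ℕ) (Cs : ℝ) {c : ℝ} (hc : 0 < c) :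
    ∃ k₁ : ℕ, ∀ k₀ : ℕ, k₁ ≤ k₀ → ∀ P : ℕ, ∀ 𝒟 : Dead β k₀, ∀ α : ℕ → ℝ,
      AlphaData 𝒟 P K₀ Cs α → ∀ q : ℕ, 𝒟.Spec q → α q ≤ (q : ℝ) ^ c := by
  obtain ⟨k₁, hk₁⟩ := exists_succ_pow_mul_two_rpow_le (2 * K₀) (a := c / 2) (b := 1 / (|Cs| + 1))
    (by positivity) (by positivity)
  refine ⟨k₁, ?_⟩
  intro k₀ hk₀ P 𝒟 α hα q hq
  obtain ⟨k, j, m, hj, hK⟩ := hq
  have hkk := pos_of_mem_D 𝒟 hj
  have h1 := (hα.spec k j m q hj hK).2
  have h2 := hk₁ k (by omega)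
  have hE := hK.1.2.1
  have h3 : (2 : ℝ) ^ (c / 2 * (k : ℝ)) ≤ (q : ℝ) ^ c := by
    calc (2 : ℝ) ^ (c / 2 * (k : ℝ)) = ((2 : ℝ) ^ (1 / 2 * (k : ℝ))) ^ c := by
          rw [← Real.rpow_mul (by norm_num)]; congr 1; ring
      _ ≤ (q : ℝ) ^ c := by
          apply Real.rpow_le_rpow (by positivity) _ hc.le
          refine le_trans ?_ hE.le
          apply Real.rpow_le_rpow_of_exponent_le (by norm_num)
          have : (0 : ℝ) ≤ k := Nat.cast_nonneg k
          nlinarith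
  refine le_trans ?_ h3
  have h4 : (2 : ℝ) ^ (-(c / 2) * (k : ℝ)) * (2 : ℝ) ^ (c / 2 * (k : ℝ)) = 1 := by
    rw [← Real.rpow_add (by norm_num)]
    ring_nf
    exact Real.rpow_zero 2
  have h5 : ((k : ℝ) + 1) ^ (2 * K₀) ≤ 1 / (|Cs| + 1) * (2 : ℝ) ^ (c / 2 * (k : ℝ)) := by
    calc ((k : ℝ) + 1) ^ (2 * K₀)
        = (((k : ℝ) + 1) ^ (2 * K₀) * (2 : ℝ) ^ (-(c / 2) * (k : ℝ))) * (2 : ℝ) ^ (c / 2 * (k : ℝ)) := by
          rw [mul_assoc, h4, mul_one]
      _ ≤ _ := mul_le_mul_of_nonneg_right h2 (by positivity)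
  have h6 : Cs ≤ |Cs| + 1 := by have := le_abs_self Cs; linarith
  have h7 : (0 : ℝ) < |Cs| + 1 := by positivity
  calc α q ≤ Cs * ((k : ℝ) + 1) ^ (2 * K₀) := h1
    _ ≤ (|Cs| + 1) * ((k : ℝ) + 1) ^ (2 * K₀) := mul_le_mul_of_nonneg_right h6 (by positivity)
    _ ≤ (|Cs| + 1) * (1 / (|Cs| + 1) * (2 : ℝ) ^ (c / 2 * (k : ℝ))) :=
        mul_le_mul_of_nonneg_left h5 h7.le
    _ = _ := by field_simp

/-- special primes alone -/
theorem sigma_spec_small {β : ℝ} (hβ : 0 < β) (hβ' : β ≤ 1 / 1000) (K₀ : ℕ) (Cs : ℝ) :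
    ∃ k₁ : ℕ, ∀ k₀ : ℕ, k₁ ≤ k₀ → ∀ P : ℕ, ∀ 𝒟 : Dead β k₀, ∀ α : ℕ → ℝ,
      AlphaData 𝒟 P K₀ Cs α → ∀ s : Finset ℕ, (∀ q ∈ s, q.Prime ∧ 𝒟.Spec q) →
        ∑ q ∈ s, α q / q ≤ (2 : ℝ) ^ (-β * (k₀ : ℝ)) := by
  obtain ⟨ka, hka⟩ := alpha_spec_le hβ K₀ Cs (c := 20 * β) (by positivity)
  obtain ⟨ks, hks⟩ := sparse_sum hβ hβ'
  refine ⟨ka + ks, ?_⟩
  intro k₀ hk₀ P 𝒟 α hα s hs
  have h1 := hks k₀ (by omega) 𝒟 s (fun p hp => ⟨(hs p hp).1, Or.inl (spec_sstar (hs p hp).2)⟩)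
  calc ∑ q ∈ s, α q / q ≤ ∑ q ∈ s, (q : ℝ) ^ (-1 + 20 * β) := by
        apply Finset.sum_le_sum
        intro q hq
        have hqpos : (0 : ℝ) < q := by exact_mod_cast (hs q hq).1.pos
        rw [show (-1 + 20 * β) = 20 * β - 1 by ring, Real.rpow_sub hqpos, Real.rpow_one]
        exact div_le_div_of_nonneg_right (hka k₀ (by omega) P 𝒟 α hα q (hs q hq).2) hqpos.le
    _ ≤ (2 : ℝ) ^ (-4 * β * (k₀ : ℝ)) := h1
    _ ≤ (2 : ℝ) ^ (-β * (k₀ : ℝ)) := by
        apply Real.rpow_le_rpow_of_exponent_le (by norm_num)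
        have : (0 : ℝ) ≤ k₀ := Nat.cast_nonneg k₀
        nlinarith

lemma log_seven_sq : (3 : ℝ) ≤ (Real.log 7) ^ 2 := by
  have h1 : (7 : ℝ) / 4 ≤ Real.log 7 := by
    have h2 : Real.exp 7 ≤ (7 : ℝ) ^ 4 := by
      have h3 : Real.exp 7 = (Real.exp 1) ^ 7 := by
        rw [← Real.exp_nat_mul]; norm_num
      rw [h3]
      calc (Real.exp 1) ^ 7 ≤ (2.7182818286 : ℝ) ^ 7 :=
            pow_le_pow_left₀ (Real.exp_pos 1).le Real.exp_one_lt_d9.le 7
        _ ≤ _ := by norm_num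
    have h4 : (7 : ℝ) ≤ Real.log ((7 : ℝ) ^ 4) := by
      rw [Real.le_log_iff_exp_le (by positivity)]
      exact h2
    rw [Real.log_pow] at h4
    push_cast at h4
    linarith
  nlinarith

/-- pointwise bound -/
theorem alpha_le {β : ℝ} (hβ : 0 < β) (hβ' : β ≤ 1 / 1000) (K₀ : ℕ) (Cs : ℝ) :
    ∃ k₁ : ℕ, ∀ k₀ : ℕ, k₁ ≤ k₀ → ∀ P : ℕ, 7 ≤ P →
      ∀ 𝒟 : Dead β k₀, ∀ α : ℕ → ℝ, AlphaData 𝒟 P K₀ Cs α →
        ∀ n : ℕ, 1 ≤ n → α n ≤ (n : ℝ) ^ (β / 4) := by
  classical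
  obtain ⟨ka, hka⟩ := alpha_spec_le hβ K₀ Cs (c := β / 4) (by positivity)
  refine ⟨ka, ?_⟩
  intro k₀ hk₀ P hP 𝒟 α hα
  have hprime : ∀ p : ℕ, p.Prime → α p ≤ (p : ℝ) ^ (β / 4) := by
    intro p hp
    by_cases hsp : 𝒟.Spec p
    · exact hka k₀ hk₀ P 𝒟 α hα p hsp
    · have hp1 : (1 : ℝ) ≤ p := by exact_mod_cast hp.one_lt.le
      have h1 : (1 : ℝ) ≤ (p : ℝ) ^ (β / 4) := Real.one_le_rpow hp1 (by positivity)
      rcases Nat.lt_or_ge p P with h2 | h2
      · rw [hα.small p hp h2]; linarith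
      · have h3 := hα.ord p hp hsp
        have hp7 : (7 : ℝ) ≤ p := by exact_mod_cast (by omega : 7 ≤ p)
        have h4 : Real.log 7 ≤ Real.log p := Real.log_le_log (by norm_num) hp7
        have h5 : 0 < Real.log 7 := Real.log_pos (by norm_num)
        have h6 : (3 : ℝ) ≤ (Real.log p) ^ 2 :=
          log_seven_sq.trans (pow_le_pow_left₀ h5.le h4 2)
        have h7 : 3 / (Real.log p) ^ 2 ≤ 1 := by
          rw [div_le_one (by linarith)]; exact h6
        linarith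
  intro n
  induction n using Nat.strong_induction_on with
  | _ n ih =>
    intro hn
    rcases Nat.eq_or_lt_of_le hn with h1 | h1
    · rw [← h1, hα.one]
      simp
    · have hp : n.minFac.Prime := Nat.minFac_prime (by omega)
      have hle : n.minFac ≤ n := Nat.minFac_le (by omega)
      have h3 : 1 ≤ n / n.minFac := Nat.div_pos hle hp.pos
      have h4 : n / n.minFac < n := Nat.div_lt_self (by omega) hp.one_lt
      have h5 : α n = α n.minFac * α (n / n.minFac) := by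
        conv_lhs => rw [← Nat.mul_div_cancel' (Nat.minFac_dvd n)]
        exact hα.mul _ _ hp.ne_zero (by omega)
      have h6 : (n : ℝ) = (n.minFac : ℝ) * ((n / n.minFac : ℕ) : ℝ) := by
        have : ((n : ℕ) : ℝ) = ((n.minFac * (n / n.minFac) : ℕ) : ℝ) := by
          rw [Nat.mul_div_cancel' (Nat.minFac_dvd n)]
        rw [this]; push_cast; ring
      have h7 : (n : ℝ) ^ (β / 4) = (n.minFac : ℝ) ^ (β / 4) * (((n / n.minFac : ℕ)) : ℝ) ^ (β / 4) := by
        conv_lhs => rw [h6]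
        exact Real.mul_rpow (Nat.cast_nonneg _) (Nat.cast_nonneg _)
      rw [h5, h7]
      exact mul_le_mul (hprime _ hp) (ih _ h4 h3) (hα.nonneg _) (by positivity)

/-- tail of `∑ 1/(n log² n)` -/
lemma sum_inv_log_sq_le (P N : ℕ) (hP : 3 ≤ P) :
    ∑ n ∈ Finset.Ico P N, 1 / ((n : ℝ) * (Real.log n) ^ 2) ≤ 1 / Real.log (P - 1) := by
  have hlog : ∀ n : ℕ, 3 ≤ n → 0 < Real.log ((n : ℝ) - 1) := by
    intro n hn
    apply Real.log_pos
    have : (3 : ℝ) ≤ n := by exact_mod_cast hn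
    linarith
  rcases le_or_gt N P with h | h
  · rw [Finset.Ico_eq_empty (by omega), Finset.sum_empty]
    have := hlog P hP
    positivity
  · have hgen : ∀ M : ℕ, P ≤ M → ∑ n ∈ Finset.Ico P M, 1 / ((n : ℝ) * (Real.log n) ^ 2)
        ≤ 1 / Real.log ((P : ℝ) - 1) - 1 / Real.log ((M : ℝ) - 1) := by
      intro M hM
      induction M, hM using Nat.le_induction with
      | base => simp
      | succ M hM ih =>
        rw [Finset.sum_Ico_succ_top hM]
        have hM3 : (3 : ℝ) ≤ M := by exact_mod_cast (by omega : 3 ≤ M)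
        have h1 : 0 < Real.log ((M : ℝ) - 1) := hlog M (by omega)
        have h2 : 0 < Real.log (M : ℝ) := Real.log_pos (by linarith)
        have h3 : Real.log ((M : ℝ) - 1) ≤ Real.log M := Real.log_le_log (by linarith) (by linarith)
        have h4 : 1 / (M : ℝ) ≤ Real.log M - Real.log ((M : ℝ) - 1) := by
          have h5 : Real.log (((M : ℝ) - 1) / M) ≤ ((M : ℝ) - 1) / M - 1 :=
            Real.log_le_sub_one_of_pos (by apply div_pos <;> linarith)
          rw [Real.log_div (by linarith) (by linarith)] at h5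
          have h6 : ((M : ℝ) - 1) / M - 1 = -(1 / M) := by
            have : (M : ℝ) ≠ 0 := by linarith
            field_simp
            ring
          linarith
        have h7 : 1 / ((M : ℝ) * (Real.log M) ^ 2)
            ≤ 1 / Real.log ((M : ℝ) - 1) - 1 / Real.log M := by
          rw [div_sub_div _ _ h1.ne' h2.ne', div_le_div_iff₀ (by positivity) (by positivity)]
          have h8 : Real.log ((M : ℝ) - 1) * Real.log M ≤ (Real.log M) ^ 2 := by nlinarith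
          have h9 : (1 : ℝ) ≤ (Real.log M - Real.log ((M : ℝ) - 1)) * M := by
            rw [div_le_iff₀ (by linarith)] at h4
            exact h4
          calc 1 * (Real.log ((M : ℝ) - 1) * Real.log M) ≤ 1 * (Real.log M) ^ 2 := by linarith
            _ ≤ ((Real.log M - Real.log ((M : ℝ) - 1)) * M) * (Real.log M) ^ 2 :=
                mul_le_mul_of_nonneg_right h9 (by positivity)
            _ = _ := by ring
        push_cast
        rw [add_sub_cancel_right]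
        linarith
    have h1 := hgen N h.le
    have h2 : 0 < Real.log ((N : ℝ) - 1) := hlog N (by omega)
    have h3 : 0 < 1 / Real.log ((N : ℝ) - 1) := by positivity
    linarith

theorem sigma_small {β : ℝ} (hβ : 0 < β) (hβ' : β ≤ 1 / 1000) (K₀ : ℕ) (Cs : ℝ) :
    ∀ ε : ℝ, 0 < ε → ∃ P₀ : ℕ, ∀ P : ℕ, P₀ ≤ P → ∃ k₁ : ℕ, ∀ k₀ : ℕ, k₁ ≤ k₀ →
      ∀ 𝒟 : Dead β k₀, ∀ α : ℕ → ℝ, AlphaData 𝒟 P K₀ Cs α →
        ∀ N : ℕ, ∑ n ∈ Finset.Ico 2 N, α n / n ≤ ε := by
  classical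
  intro ε hε
  set σ : ℝ := min (ε / 4) (1 / 2) with hσ
  have hσ0 : 0 < σ := by rw [hσ]; positivity
  obtain ⟨kb, hkb⟩ := sigma_spec_small hβ hβ' K₀ Cs
  refine ⟨⌈Real.exp (6 / σ)⌉₊ + 4, fun P hP => ?_⟩
  set N1 : ℕ := ⌈(Real.logb 2 (2 / σ)) / β⌉₊ with hN1
  refine ⟨kb + N1, ?_⟩
  intro k₀ hk₀ 𝒟 α hα N
  have hmain := sum_cm_le (fun n => α n / n) (by simp [hα.one]) (by
    intro m n hm hn
    rw [hα.mul m n hm hn]
    have : (m : ℝ) ≠ 0 := by exact_mod_cast hm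
    have : (n : ℝ) ≠ 0 := by exact_mod_cast hn
    push_cast
    field_simp) (fun n => div_nonneg (hα.nonneg n) (Nat.cast_nonneg n)) N σ (min_le_right _ _) (by
    rw [← Finset.sum_filter_add_sum_filter_not _ (fun p => 𝒟.Spec p)]
    have hs1 : ∑ p ∈ ((Finset.range N).filter Nat.Prime).filter (fun p => 𝒟.Spec p), α p / p
        ≤ σ / 2 := by
      have h1 := hkb k₀ (by omega) P 𝒟 α hα (((Finset.range N).filter Nat.Prime).filter
        (fun p => 𝒟.Spec p)) (fun p hp => by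
          rw [Finset.mem_filter, Finset.mem_filter] at hp
          exact ⟨hp.1.2, hp.2⟩)
      refine h1.trans ?_
      have e1 : (Real.logb 2 (2 / σ)) / β ≤ k₀ :=
        (Nat.le_ceil _).trans (by exact_mod_cast (by omega : N1 ≤ k₀))
      rw [div_le_iff₀ hβ] at e1
      calc (2 : ℝ) ^ (-β * (k₀ : ℝ)) ≤ (2 : ℝ) ^ (-(Real.logb 2 (2 / σ))) :=
            Real.rpow_le_rpow_of_exponent_le (by norm_num) (by linarith)
        _ = σ / 2 := by
            rw [Real.rpow_neg (by norm_num), Real.rpow_logb (by norm_num) (by norm_num)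
              (by positivity)]
            rw [inv_div]
    have hs2 : ∑ p ∈ ((Finset.range N).filter Nat.Prime).filter (fun p => ¬ 𝒟.Spec p), α p / p
        ≤ σ / 2 := by
      have h1 : ∑ p ∈ ((Finset.range N).filter Nat.Prime).filter (fun p => ¬ 𝒟.Spec p), α p / p
          ≤ ∑ p ∈ ((Finset.range N).filter Nat.Prime).filter (fun p => ¬ 𝒟.Spec p),
            (if p ∈ Finset.Ico P N then 3 * (1 / ((p : ℝ) * (Real.log p) ^ 2)) else 0) := by
        apply Finset.sum_le_sum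
        intro p hp
        rw [Finset.mem_filter, Finset.mem_filter, Finset.mem_range] at hp
        have hp0 : (0 : ℝ) < p := by exact_mod_cast hp.1.2.pos
        split_ifs with h2
        · have h3 := hα.ord p hp.1.2 hp.2
          calc α p / p ≤ (3 / (Real.log p) ^ 2) / p := div_le_div_of_nonneg_right h3 hp0.le
            _ = _ := by ring
        · have h3 : p < P := by
            by_contra hcon
            push Not at hcon
            exact h2 (Finset.mem_Ico.2 ⟨hcon, hp.1.1⟩)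
          rw [hα.small p hp.1.2 h3, zero_div]
      refine h1.trans ?_
      rw [← Finset.sum_filter]
      have h4 : ∑ p ∈ (((Finset.range N).filter Nat.Prime).filter (fun p => ¬ 𝒟.Spec p)).filter
          (fun p => p ∈ Finset.Ico P N), 3 * (1 / ((p : ℝ) * (Real.log p) ^ 2))
          ≤ ∑ p ∈ Finset.Ico P N, 3 * (1 / ((p : ℝ) * (Real.log p) ^ 2)) := by
        apply Finset.sum_le_sum_of_subset_of_nonneg
        · intro p hp
          exact (Finset.mem_filter.1 hp).2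
        · intro p _ _
          positivity
      refine h4.trans ?_
      rw [← Finset.mul_sum]
      have h5 := sum_inv_log_sq_le P N (by omega)
      have h6 : 6 / σ ≤ Real.log ((P : ℝ) - 1) := by
        rw [Real.le_log_iff_exp_le (by
          have : (4 : ℝ) ≤ P := by exact_mod_cast (by omega : 4 ≤ P)
          linarith)]
        have h7 : Real.exp (6 / σ) ≤ (⌈Real.exp (6 / σ)⌉₊ : ℝ) := Nat.le_ceil _
        have h8 : ((⌈Real.exp (6 / σ)⌉₊ : ℝ)) + 4 ≤ P := by exact_mod_cast hP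
        linarith
      have h7 : 0 < 6 / σ := by positivity
      have h8 : 1 / Real.log ((P : ℝ) - 1) ≤ σ / 6 := by
        rw [div_le_div_iff₀ (by linarith) (by norm_num)]
        rw [div_le_iff₀ hσ0] at h6
        linarith
      linarith
    linarith)
  refine hmain.trans ?_
  have : σ ≤ ε / 4 := min_le_left _ _
  linarith

end Pool.Agent.MP_a187e6
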