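import Pool.Agent.MOFunctions.Defs

open Filter Topology Finset

namespace Pool.Agent.MP_a187e6.RHFalse

open Pool.Agent.MOFunctions

/-- A zero of zeta in the right half of the critical strip, if RH fails. -/
lemma exists_zero_of_not_RH (h : ¬ RiemannHypothesis) :
    ∃ α : ℂ, riemannZeta α = 0 ∧ 1 / 2 < α.re ∧ α.re < 1 := by
  unfold RiemannHypothesis at h
  push Not at h
  obtain ⟨s, hs, htriv, hs1, hre⟩ := h
  have hlt1 : s.re < 1 := by
    by_contra hcon
    push Not at hcon
    exact riemannZeta_ne_zero_of_one_le_re hcon hs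
  rcases lt_or_gt_of_ne hre with hlt | hgt
  · -- use the functional equation
    have hs0 : s ≠ 0 := by
      rintro rfl
      rw [riemannZeta_zero] at hs
      norm_num at hs
    have hw : ∀ n : ℕ, (1 - s) ≠ -(n : ℂ) := by
      intro n hn
      have := congrArg Complex.re hn
      simp only [Complex.sub_re, Complex.one_re, Complex.neg_re, Complex.natCast_re] at this
      have hn0 : (0 : ℝ) ≤ n := Nat.cast_nonneg n
      linarith
    have hw1 : (1 - s) ≠ 1 := by
      intro h1
      apply hs0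
      linear_combination -h1
    have hfe := riemannZeta_one_sub hw hw1
    rw [sub_sub_cancel, hs] at hfe
    have hG : Complex.Gamma (1 - s) ≠ 0 := Complex.Gamma_ne_zero hw
    have hpi : (2 * (Real.pi : ℂ)) ^ (-(1 - s)) ≠ 0 := by
      rw [Ne, Complex.cpow_eq_zero_iff]
      rintro ⟨h0, -⟩
      have : (2 * (Real.pi : ℂ)) ≠ 0 := by
        simp [Real.pi_ne_zero]
      exact this h0
    have hz : Complex.cos (Real.pi * (1 - s) / 2) = 0 ∨ riemannZeta (1 - s) = 0 := by
      by_contra hcon
      push Not at hcon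
      exact absurd hfe.symm (by
        apply mul_ne_zero
        apply mul_ne_zero
        apply mul_ne_zero
        apply mul_ne_zero
        · norm_num
        · exact hpi
        · exact hG
        · exact hcon.1
        · exact hcon.2)
    rcases hz with hcos | hzeta
    · exfalso
      rw [Complex.cos_eq_zero_iff] at hcos
      obtain ⟨k, hk⟩ := hcos
      have hpi0 : (Real.pi : ℂ) ≠ 0 := by exact_mod_cast Real.pi_ne_zero
      have hk2 : 1 - s = 2 * (k : ℂ) + 1 := by
        field_simp at hk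
        linear_combination hk
      have hsk : s = -2 * (k : ℂ) := by linear_combination -hk2
      have hkre : s.re = -2 * (k : ℝ) := by
        rw [hsk]; simp
      have hk0 : 0 ≤ k := by
        by_contra hneg
        push Not at hneg
        have : (k : ℝ) ≤ -1 := by exact_mod_cast (by omega : k ≤ -1)
        linarith
      have hkne : k ≠ 0 := by
        rintro rfl
        apply hs0
        rw [hsk]; simp
      obtain ⟨n, rfl⟩ : ∃ n : ℕ, k = n + 1 := ⟨(k - 1).toNat, by omega⟩
      apply htriv n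
      rw [hsk]
      push_cast
      ring
    · refine ⟨1 - s, hzeta, ?_, ?_⟩
      · simp only [Complex.sub_re, Complex.one_re]; linarith
      · by_contra hcon
        push Not at hcon
        exact riemannZeta_ne_zero_of_one_le_re hcon hzeta
  · exact ⟨s, hs, hgt, hlt1⟩

/-- paired term of the eta series -/
noncomputable def F (k : ℕ) (s : ℂ) : ℂ :=
  ((2 * k + 1 : ℕ) : ℂ) ^ (-s) - ((2 * k + 2 : ℕ) : ℂ) ^ (-s)

lemma F_bound (k : ℕ) (s : ℂ) (hs : 0 < s.re) :
    ‖F k s‖ ≤ ‖s‖ * ((2 * k + 1 : ℕ) : ℝ) ^ (-s.re - 1) := by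
  unfold F
  set a : ℝ := ((2 * k + 1 : ℕ) : ℝ) with ha
  have ha1 : 1 ≤ a := by rw [ha]; exact_mod_cast (by omega : 1 ≤ 2 * k + 1)
  have hb : (((2 * k + 2 : ℕ) : ℝ)) = a + 1 := by rw [ha]; push_cast; ring
  have hder : ∀ t ∈ Set.Icc a (a + 1), HasDerivWithinAt (fun t : ℝ => (t : ℂ) ^ (-s))
      (-s * (t : ℂ) ^ (-s - 1)) (Set.Icc a (a + 1)) t := by
    intro t ht
    have ht0 : t ≠ 0 := by
      have := ht.1
      intro h0; rw [h0] at this; linarith
    by_cases hs0 : -s = 0
    · rw [hs0]; simp only [Complex.cpow_zero, zero_mul]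
      exact (hasDerivAt_const t (1:ℂ)).hasDerivWithinAt
    · exact (hasDerivAt_ofReal_cpow_const ht0 hs0).hasDerivWithinAt
  have hbound : ∀ t ∈ Set.Icc a (a + 1), ‖-s * (t : ℂ) ^ (-s - 1)‖ ≤ ‖s‖ * a ^ (-s.re - 1) := by
    intro t ht
    have ht0 : 0 < t := by linarith [ht.1]
    rw [norm_mul, norm_neg, Complex.norm_cpow_eq_rpow_re_of_pos ht0]
    apply mul_le_mul_of_nonneg_left _ (norm_nonneg _)
    simp only [Complex.sub_re, Complex.neg_re, Complex.one_re]
    exact Real.rpow_le_rpow_of_nonpos (by linarith) ht.1 (by linarith)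
  have h := (convex_Icc a (a + 1)).norm_image_sub_le_of_norm_hasDerivWithin_le hder hbound
    (Set.left_mem_Icc.mpr (by linarith)) (Set.right_mem_Icc.mpr (by linarith))
  have e1 : (((2 * k + 1 : ℕ) : ℂ)) = ((a : ℝ) : ℂ) := by rw [ha]; push_cast; ring
  have e2 : (((2 * k + 2 : ℕ) : ℂ)) = ((a + 1 : ℝ) : ℂ) := by rw [ha]; push_cast; ring
  rw [e1, e2, ← norm_neg, neg_sub]
  refine h.trans ?_
  rw [add_sub_cancel_left, norm_one, mul_one]

lemma tail_term (σ : ℝ) (hσ : 0 < σ) (k : ℕ) (hk : 1 ≤ k) :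
    ((2 * k + 1 : ℕ) : ℝ) ^ (-σ - 1) ≤ (1 / σ) * ((k : ℝ) ^ (-σ) - ((k + 1 : ℕ) : ℝ) ^ (-σ)) := by
  have hk0 : (1 : ℝ) ≤ k := by exact_mod_cast hk
  obtain ⟨c, hc, hceq⟩ := exists_hasDerivAt_eq_slope (fun t : ℝ => t ^ (-σ))
    (fun t : ℝ => (-σ) * t ^ (-σ - 1)) (show (k : ℝ) < ((k + 1 : ℕ) : ℝ) by push_cast; linarith)
    (by
      apply ContinuousOn.rpow_const continuousOn_id
      intro x hx
      left
      have := hx.1
      simp only [id]
      linarith)
    (by
      intro x hx
      exact Real.hasDerivAt_rpow_const (Or.inl (by linarith [hx.1] : x ≠ 0)))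
  have hc1 := hc.1
  have hc2 := hc.2
  have hden : ((k + 1 : ℕ) : ℝ) - k = 1 := by push_cast; ring
  rw [hden, div_one] at hceq
  have h1 : (k : ℝ) ^ (-σ) - ((k + 1 : ℕ) : ℝ) ^ (-σ) = σ * c ^ (-σ - 1) := by
    linarith
  rw [h1, ← mul_assoc, one_div, inv_mul_cancel₀ hσ.ne', one_mul]
  apply Real.rpow_le_rpow_of_nonpos (by linarith) _ (by linarith)
  push_cast at hc2 ⊢
  linarith

lemma summable_bound (σ : ℝ) (hσ : 0 < σ) :
    Summable (fun k : ℕ => ((2 * k + 1 : ℕ) : ℝ) ^ (-σ - 1)) := by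
  have h : Summable (fun n : ℕ => (n : ℝ) ^ (-σ - 1)) := by
    rw [Real.summable_nat_rpow]; linarith
  exact h.comp_injective (i := fun k : ℕ => 2 * k + 1) (fun a b hab => by simpa using hab)

lemma summable_F (s : ℂ) (hs : 0 < s.re) : Summable (fun k => F k s) :=
  Summable.of_norm_bounded ((summable_bound s.re hs).mul_left ‖s‖) (fun k => F_bound k s hs)

noncomputable def eta (s : ℂ) : ℂ := ∑' k, F k s

lemma differentiableAt_eta (s : ℂ) (hs : 0 < s.re) : DifferentiableAt ℂ eta s := by
  set U : Set ℂ := {w | s.re / 2 < w.re} ∩ Metric.ball 0 (‖s‖ + 1) with hU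
  have hUo : IsOpen U := (isOpen_lt continuous_const Complex.continuous_re).inter Metric.isOpen_ball
  have hsU : s ∈ U := ⟨by simp only [Set.mem_ofPred_eq]; linarith, by simp⟩
  have hσ : 0 < s.re / 2 := by linarith
  have hdiff : DifferentiableOn ℂ (fun w => ∑' k, F k w) U := by
    apply Complex.differentiableOn_tsum_of_summable_norm
      (u := fun k : ℕ => (‖s‖ + 1) * ((2 * k + 1 : ℕ) : ℝ) ^ (-(s.re / 2) - 1))
    · exact (summable_bound _ hσ).mul_left _
    · intro k
      unfold F
      apply DifferentiableOn.sub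
      · apply DifferentiableOn.const_cpow differentiableOn_id.neg
        left
        exact_mod_cast (by omega : 2 * k + 1 ≠ 0)
      · apply DifferentiableOn.const_cpow differentiableOn_id.neg
        left
        exact_mod_cast (by omega : 2 * k + 2 ≠ 0)
    · exact hUo
    · intro k w hw
      have hw1 : s.re / 2 < w.re := hw.1
      have hw2 : ‖w‖ < ‖s‖ + 1 := by simpa using hw.2
      refine (F_bound k w (by linarith)).trans ?_
      apply mul_le_mul hw2.le _ (by positivity) (by positivity)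
      apply Real.rpow_le_rpow_of_exponent_le
      · exact_mod_cast (by omega : 1 ≤ 2 * k + 1)
      · linarith
  exact (hdiff s hsU).differentiableAt (hUo.mem_nhds hsU)

lemma eta_eq_of_one_lt_re (s : ℂ) (hs : 1 < s.re) :
    eta s = (1 - 2 * 2 ^ (-s)) * riemannZeta s := by
  have hsum : Summable (fun n : ℕ => 1 / (n : ℂ) ^ s) := Complex.summable_one_div_nat_cpow.mpr hs
  have hz := zeta_eq_tsum_one_div_nat_cpow hs
  have hs0 : s ≠ 0 := by rintro rfl; simp at hs; linarith
  have hz2 : riemannZeta s = ∑' n : ℕ, 1 / ((n + 1 : ℕ) : ℂ) ^ s := by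
    have := zeta_eq_tsum_one_div_nat_add_one_cpow hs
    rw [this]
    push_cast
    rfl
  have hsum2 : Summable (fun n : ℕ => 1 / ((n + 1 : ℕ) : ℂ) ^ s) :=
    (summable_nat_add_iff (f := fun n : ℕ => 1 / (n : ℂ) ^ s) 1).mpr hsum
  have hodd : Summable (fun k : ℕ => ((2 * k + 1 : ℕ) : ℂ) ^ (-s)) := by
    have := hsum.comp_injective (i := fun k : ℕ => 2 * k + 1) (fun a b hab => by simpa using hab)
    refine this.congr (fun k => ?_)
    simp only [Function.comp, Complex.cpow_neg, one_div]
  have heven : Summable (fun k : ℕ => ((2 * k + 2 : ℕ) : ℂ) ^ (-s)) := by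
    have := hsum.comp_injective (i := fun k : ℕ => 2 * k + 2) (fun a b hab => by simpa using hab)
    refine this.congr (fun k => ?_)
    simp only [Function.comp, Complex.cpow_neg, one_div]
  have heven2 : ∑' k : ℕ, ((2 * k + 2 : ℕ) : ℂ) ^ (-s) = 2 ^ (-s) * riemannZeta s := by
    rw [hz2, ← tsum_mul_left]
    apply tsum_congr
    intro k
    rw [show 2 * k + 2 = 2 * (k + 1) by ring, Nat.cast_mul, Complex.natCast_mul_natCast_cpow,
      Complex.cpow_neg ((k + 1 : ℕ) : ℂ), one_div]
    norm_num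
  have hz3 : riemannZeta s = ∑' k : ℕ, ((2 * k + 1 : ℕ) : ℂ) ^ (-s) +
      ∑' k : ℕ, ((2 * k + 2 : ℕ) : ℂ) ^ (-s) := by
    rw [hz2]
    have := tsum_even_add_odd (f := fun n : ℕ => 1 / ((n + 1 : ℕ) : ℂ) ^ s)
      (hsum2.comp_injective (i := fun k : ℕ => 2 * k) (fun a b hab => by simpa using hab))
      (hsum2.comp_injective (i := fun k : ℕ => 2 * k + 1) (fun a b hab => by simpa using hab))
    rw [← this]
    congr 1
    · apply tsum_congr; intro k; simp only [Complex.cpow_neg, one_div]
    · apply tsum_congr; intro k; simp only [Complex.cpow_neg, one_div]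
  unfold eta F
  rw [hodd.tsum_sub heven]
  rw [heven2] at hz3 ⊢
  linear_combination -hz3

lemma eta_eq_zero (α : ℂ) (hz : riemannZeta α = 0) (h0 : 0 < α.re) (h1 : α.re < 1) :
    eta α = 0 := by
  -- the domain
  set A : Set ℂ := {w | 1 < w.re} with hA
  set B : Set ℂ := {w | 0 < w.re ∧ 0 < w.im} with hB
  set D : Set ℂ := {w | 0 < w.re ∧ w.re < 1} with hD
  have hAo : IsOpen A := isOpen_lt continuous_const Complex.continuous_re
  have hBo : IsOpen B := (isOpen_lt continuous_const Complex.continuous_re).inter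
    (isOpen_lt continuous_const Complex.continuous_im)
  have hDo : IsOpen D := (isOpen_lt continuous_const Complex.continuous_re).inter
    (isOpen_lt Complex.continuous_re continuous_const)
  have hAc : IsPreconnected A := (convex_halfSpace_re_gt 1).isPreconnected
  have hBc : IsPreconnected B :=
    ((convex_halfSpace_re_gt 0).inter (convex_halfSpace_im_gt 0)).isPreconnected
  have hDc : IsPreconnected D :=
    ((convex_halfSpace_re_gt 0).inter (convex_halfSpace_re_lt 1)).isPreconnected
  have hAB : IsPreconnected (A ∪ B) := by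
    apply hAc.union (⟨2, 1⟩ : ℂ) _ _ hBc
    · simp [hA]
    · simp [hB]
  have hABD : IsPreconnected ((A ∪ B) ∪ D) := by
    apply hAB.union (⟨1/2, 1⟩ : ℂ) _ _ hDc
    · right; simp [hB]
    · simp only [hD, Set.mem_ofPred_eq]; norm_num
  have hopen : IsOpen ((A ∪ B) ∪ D) := (hAo.union hBo).union hDo
  have hpos : ∀ w ∈ (A ∪ B) ∪ D, 0 < w.re := by
    rintro w ((hw | hw) | hw)
    · simp only [hA, Set.mem_ofPred_eq] at hw; linarith
    · exact hw.1
    · exact hw.1
  have hne1 : ∀ w ∈ (A ∪ B) ∪ D, w ≠ 1 := by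
    rintro w ((hw | hw) | hw) rfl
    · simp [hA] at hw
    · simp [hB] at hw
    · simp [hD] at hw
  have han1 : AnalyticOnNhd ℂ eta ((A ∪ B) ∪ D) :=
    DifferentiableOn.analyticOnNhd
      (fun w hw => (differentiableAt_eta w (hpos w hw)).differentiableWithinAt) hopen
  have han2 : AnalyticOnNhd ℂ (fun s => (1 - 2 * 2 ^ (-s)) * riemannZeta s) ((A ∪ B) ∪ D) := by
    apply DifferentiableOn.analyticOnNhd _ hopen
    intro w hw
    apply DifferentiableAt.differentiableWithinAt
    apply DifferentiableAt.mul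
    · apply DifferentiableAt.sub (differentiableAt_const _)
      apply DifferentiableAt.const_mul
      apply DifferentiableAt.const_cpow differentiableAt_id.neg
      left; norm_num
    · exact differentiableAt_riemannZeta (hne1 w hw)
  have hEq : Set.EqOn eta (fun s => (1 - 2 * 2 ^ (-s)) * riemannZeta s) ((A ∪ B) ∪ D) := by
    apply han1.eqOn_of_preconnected_of_eventuallyEq han2 hABD (z₀ := 2)
    · left; left; simp [hA]
    · have : A ∈ 𝓝 (2 : ℂ) := hAo.mem_nhds (by simp [hA])
      filter_upwards [this] with w hw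
      exact eta_eq_of_one_lt_re w hw
  have := hEq (show α ∈ (A ∪ B) ∪ D from Or.inr ⟨h0, h1⟩)
  rw [this]
  simp only [hz, mul_zero]

/-- the function `(-1)^(n-1) n^(-α)` -/
noncomputable def fα (α : ℂ) (n : ℕ) : ℂ := if Even n then -(n : ℂ) ^ (-α) else (n : ℂ) ^ (-α)

lemma sum_even (α : ℂ) (K : ℕ) :
    ∑ n ∈ Icc 1 (2 * K), fα α n = ∑ k ∈ range K, F k α := by
  induction K with
  | zero => simp
  | succ K ih =>
    rw [show 2 * (K + 1) = (2 * K + 1) + 1 by ring, Finset.sum_Icc_succ_top (by omega),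
      Finset.sum_Icc_succ_top (by omega), ih, Finset.sum_range_succ]
    have h1 : ¬ Even (2 * K + 1) := by simp
    have h2 : Even (2 * K + 1 + 1) := by
      rw [show 2 * K + 1 + 1 = 2 * (K + 1) by ring]; simp
    unfold fα F
    rw [if_neg h1, if_pos h2]
    ring

lemma tail_bound (α : ℂ) (h0 : 0 < α.re) (hη : eta α = 0) (K : ℕ) (hK : 1 ≤ K) :
    ‖∑ k ∈ range K, F k α‖ ≤ ‖α‖ / α.re * (K : ℝ) ^ (-α.re) := by
  have hs := summable_F α h0
  have h1 := hs.sum_add_tsum_nat_add K
  have h2 : ∑ k ∈ range K, F k α = - ∑' k, F (k + K) α := by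
    have : ∑' k, F k α = 0 := hη
    rw [this] at h1
    exact eq_neg_of_add_eq_zero_left h1
  rw [h2, norm_neg]
  -- the tail by telescoping
  have hbound : ∀ N : ℕ, ‖∑ k ∈ range N, F (k + K) α‖ ≤ ‖α‖ / α.re * (K : ℝ) ^ (-α.re) := by
    intro N
    calc ‖∑ k ∈ range N, F (k + K) α‖ ≤ ∑ k ∈ range N, ‖F (k + K) α‖ := norm_sum_le _ _
      _ ≤ ∑ k ∈ range N, ‖α‖ * ((1 / α.re) *
            (((k + K : ℕ) : ℝ) ^ (-α.re) - ((k + K + 1 : ℕ) : ℝ) ^ (-α.re))) := by
          apply Finset.sum_le_sum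
          intro k _
          refine (F_bound (k + K) α h0).trans ?_
          apply mul_le_mul_of_nonneg_left _ (norm_nonneg _)
          exact tail_term α.re h0 (k + K) (by omega)
      _ = ‖α‖ / α.re * ∑ k ∈ range N,
            (((k + K : ℕ) : ℝ) ^ (-α.re) - ((k + K + 1 : ℕ) : ℝ) ^ (-α.re)) := by
          rw [Finset.mul_sum]
          apply Finset.sum_congr rfl
          intro k _
          ring
      _ = ‖α‖ / α.re * ((K : ℝ) ^ (-α.re) - ((N + K : ℕ) : ℝ) ^ (-α.re)) := by
          congr 1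
          have := Finset.sum_range_sub' (fun k : ℕ => ((k + K : ℕ) : ℝ) ^ (-α.re)) N
          simp only [zero_add] at this
          rw [← this]
          apply Finset.sum_congr rfl
          intro k _
          rw [show k + 1 + K = k + K + 1 by ring]
      _ ≤ ‖α‖ / α.re * (K : ℝ) ^ (-α.re) := by
          apply mul_le_mul_of_nonneg_left _ (by positivity)
          have : 0 ≤ ((N + K : ℕ) : ℝ) ^ (-α.re) := by positivity
          linarith
  have hs' : Summable (fun k => F (k + K) α) := (summable_nat_add_iff K).mpr hs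
  have hlim := (hs'.hasSum.tendsto_sum_nat).norm
  exact le_of_tendsto hlim (Eventually.of_forall hbound)

lemma norm_fα (α : ℂ) (n : ℕ) (hn : 0 < n) : ‖fα α n‖ = (n : ℝ) ^ (-α.re) := by
  unfold fα
  split_ifs
  · rw [norm_neg, Complex.norm_natCast_cpow_of_pos hn]; simp
  · rw [Complex.norm_natCast_cpow_of_pos hn]; simp

lemma S_nat_bound (α : ℂ) (h0 : 0 < α.re) (h1 : α.re < 1) (hη : eta α = 0) (N : ℕ) (hN : 1 ≤ N) :
    ‖∑ n ∈ Icc 1 N, fα α n‖ ≤ (3 * (‖α‖ / α.re) + 1) * (N : ℝ) ^ (-α.re) := by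
  have hC : 0 ≤ ‖α‖ / α.re := by positivity
  obtain ⟨K, hK | hK⟩ := Nat.even_or_odd' N
  · subst hK
    have hK1 : 1 ≤ K := by omega
    rw [sum_even]
    refine (tail_bound α h0 hη K hK1).trans ?_
    have hcmp : (K : ℝ) ^ (-α.re) ≤ 3 * ((2 * K : ℕ) : ℝ) ^ (-α.re) := by
      rw [Nat.cast_mul, Real.mul_rpow (by positivity) (by positivity), ← mul_assoc]
      have : (1 : ℝ) ≤ 3 * ((2 : ℕ) : ℝ) ^ (-α.re) := by
        have h2 : ((2 : ℕ) : ℝ) ^ (-(1 : ℝ)) ≤ ((2 : ℕ) : ℝ) ^ (-α.re) :=
          Real.rpow_le_rpow_of_exponent_le (by norm_num) (by linarith)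
        rw [Real.rpow_neg_one] at h2
        norm_num at h2 ⊢
        linarith
      exact le_mul_of_one_le_left (by positivity) this
    have hpos : 0 ≤ ((2 * K : ℕ) : ℝ) ^ (-α.re) := by positivity
    nlinarith [mul_le_mul_of_nonneg_left hcmp hC]
  · subst hK
    rcases Nat.eq_zero_or_pos K with rfl | hK1
    · simp only [mul_zero, zero_add, Icc_self, sum_singleton, Nat.cast_one, Real.one_rpow, mul_one]
      rw [norm_fα α 1 one_pos]
      simp only [Nat.cast_one, Real.one_rpow]
      linarith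
    · rw [Finset.sum_Icc_succ_top (by omega), sum_even]
      refine (norm_add_le _ _).trans ?_
      rw [norm_fα α _ (by omega)]
      have hcmp : (K : ℝ) ^ (-α.re) ≤ 3 * ((2 * K + 1 : ℕ) : ℝ) ^ (-α.re) := by
        have h3K : ((2 * K + 1 : ℕ) : ℝ) ≤ 3 * K := by
          have : (1 : ℝ) ≤ K := by exact_mod_cast hK1
          push_cast; linarith
        have h4 : ((3 : ℝ) * K) ^ (-α.re) ≤ ((2 * K + 1 : ℕ) : ℝ) ^ (-α.re) :=
          Real.rpow_le_rpow_of_nonpos (by positivity) h3K (by linarith)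
        rw [Real.mul_rpow (by positivity) (by positivity)] at h4
        have h5 : (1 : ℝ) ≤ 3 * (3 : ℝ) ^ (-α.re) := by
          have h2 : (3 : ℝ) ^ (-(1 : ℝ)) ≤ (3 : ℝ) ^ (-α.re) :=
            Real.rpow_le_rpow_of_exponent_le (by norm_num) (by linarith)
          rw [Real.rpow_neg_one] at h2
          norm_num at h2 ⊢
          linarith
        have h6 : 0 ≤ (K : ℝ) ^ (-α.re) := by positivity
        nlinarith [mul_le_mul_of_nonneg_right h5 h6]
      have := tail_bound α h0 hη K hK1
      have hpos : 0 ≤ ((2 * K + 1 : ℕ) : ℝ) ^ (-α.re) := by positivity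
      nlinarith [mul_le_mul_of_nonneg_left hcmp hC]

lemma isMO_fα (α : ℂ) (h0 : 0 < α.re) (h1 : α.re < 1) (hη : eta α = 0) : IsMO (fα α) where
  map_one := by simp [fα]
  map_mul := by
    intro m n hm hn hmn
    have hmul : (((m * n : ℕ) : ℂ)) ^ (-α) = (m : ℂ) ^ (-α) * (n : ℂ) ^ (-α) := by
      rw [Nat.cast_mul, Complex.natCast_mul_natCast_cpow]
    unfold fα
    rw [hmul]
    by_cases hme : Even m
    · have hno : ¬ Even n := by
        intro hne
        have := Nat.dvd_gcd hme.two_dvd hne.two_dvd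
        rw [hmn] at this
        omega
      rw [if_pos (hme.mul_right n), if_pos hme, if_neg hno]
      ring
    · by_cases hne : Even n
      · rw [if_pos (hne.mul_left m), if_neg hme, if_pos hne]; ring
      · have : ¬ Even (m * n) := by
          rw [Nat.even_mul]; tauto
        rw [if_neg this, if_neg hme, if_neg hne]
  sum_eq_zero := by
    rw [tendsto_zero_iff_norm_tendsto_zero]
    have hlim : Tendsto (fun N : ℕ => (3 * (‖α‖ / α.re) + 1) * (N : ℝ) ^ (-α.re)) atTop (𝓝 0) := by
      have := (tendsto_rpow_neg_atTop h0).comp tendsto_natCast_atTop_atTop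
      simpa using this.const_mul (3 * (‖α‖ / α.re) + 1)
    refine squeeze_zero' (Eventually.of_forall fun N => norm_nonneg _) ?_ hlim
    filter_upwards [eventually_ge_atTop 1] with N hN
    exact S_nat_bound α h0 h1 hη N hN
  euler_factor := by
    intro p hp
    set r : ℂ := (p : ℂ) ^ (-α) with hr
    have hrn : ‖r‖ < 1 := by
      rw [hr, Complex.norm_natCast_cpow_of_pos hp.pos]
      apply Real.rpow_lt_one_of_one_lt_of_neg
      · exact_mod_cast hp.one_lt
      · simp only [Complex.neg_re]; linarith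
    have hpow : ∀ k : ℕ, ((p ^ k : ℕ) : ℂ) ^ (-α) = r ^ k := by
      intro k
      induction k with
      | zero => simp
      | succ k ih =>
        rw [pow_succ, Nat.cast_mul, Complex.natCast_mul_natCast_cpow, ih, pow_succ]
    have hgeo : Tendsto (fun N : ℕ => ∑ k ∈ range N, r ^ k) atTop (𝓝 (1 - r)⁻¹) :=
      (hasSum_geometric_of_norm_lt_one hrn).tendsto_sum_nat
    have h1r : 1 - r ≠ 0 := by
      intro h
      have : r = 1 := by linear_combination -h
      rw [this] at hrn
      simp at hrn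
    by_cases hp2 : p = 2
    · subst hp2
      refine ⟨2 - (1 - r)⁻¹, ?_, ?_⟩
      · -- 2 - 1/(1-r) = (1-2r)/(1-r)
        intro h
        have h2 : 2 * r = 1 := by
          have := congrArg (fun z => z * (1 - r)) h
          simp only [sub_mul, inv_mul_cancel₀ h1r, zero_mul] at this
          linear_combination -this
        have h3 : ‖r‖ = 1 / 2 := by
          have : r = 1 / 2 := by linear_combination h2 / 2
          rw [this]; norm_num
        rw [hr, Complex.norm_natCast_cpow_of_pos (by norm_num)] at h3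
        have h4 : ((2 : ℕ) : ℝ) ^ (-(1 : ℝ)) < ((2 : ℕ) : ℝ) ^ ((-α).re) :=
          Real.rpow_lt_rpow_of_exponent_lt (by norm_num) (by simp only [Complex.neg_re]; linarith)
        rw [h3, Real.rpow_neg_one] at h4
        norm_num at h4
      · have : ∀ N : ℕ, 1 ≤ N → ∑ k ∈ range N, fα α (2 ^ k) = 2 - ∑ k ∈ range N, r ^ k := by
          intro N hN
          induction N, hN using Nat.le_induction with
          | base => simp [fα]; norm_num
          | succ N hN ih =>
            rw [Finset.sum_range_succ, ih, Finset.sum_range_succ]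
            have he : Even (2 ^ N) := by
              rw [Nat.even_pow]; exact ⟨even_two, by omega⟩
            unfold fα
            rw [if_pos he, hpow]
            ring
        refine (hgeo.const_sub 2).congr' ?_
        filter_upwards [eventually_ge_atTop 1] with N hN
        exact (this N hN).symm
    · refine ⟨(1 - r)⁻¹, inv_ne_zero h1r, ?_⟩
      refine hgeo.congr (fun N => ?_)
      apply Finset.sum_congr rfl
      intro k _
      have hodd : ¬ Even (p ^ k) := by
        intro he
        rw [Nat.even_pow] at he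
        exact hp2 ((Nat.Prime.even_iff hp).mp he.1)
      unfold fα
      rw [if_neg hodd, hpow]

/-- **RH-false case.** If the Riemann hypothesis fails, there is an MO function whose partial sums
are `O(x^(-β))` with `β > 1/2`. -/
theorem exists_MO_of_not_RH (h : ¬ RiemannHypothesis) :
    ∃ (f : ℕ → ℂ) (β C : ℝ), 1 / 2 < β ∧ IsMO f ∧ ∀ x : ℝ, 1 ≤ x → ‖S f x‖ ≤ C * x ^ (-β) := by
  obtain ⟨α, hz, hα, hα1⟩ := exists_zero_of_not_RH h
  have h0 : 0 < α.re := by linarith
  have hη := eta_eq_zero α hz h0 hα1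
  refine ⟨fα α, α.re, (3 * (‖α‖ / α.re) + 1) * 2, hα, isMO_fα α h0 hα1 hη, ?_⟩
  intro x hx
  have hN : 1 ≤ ⌊x⌋₊ := Nat.one_le_iff_ne_zero.mpr (by
    rw [Ne, Nat.floor_eq_zero]; linarith)
  have hC : 0 ≤ ‖α‖ / α.re := by positivity
  refine (S_nat_bound α h0 hα1 hη ⌊x⌋₊ hN).trans ?_
  rw [mul_assoc]
  apply mul_le_mul_of_nonneg_left _ (by positivity)
  have hx2 : x / 2 ≤ (⌊x⌋₊ : ℝ) := by
    have h1 := Nat.lt_floor_add_one x
    have h2 : (1 : ℝ) ≤ (⌊x⌋₊ : ℝ) := by exact_mod_cast hN
    linarith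
  have h3 : (⌊x⌋₊ : ℝ) ^ (-α.re) ≤ (x / 2) ^ (-α.re) :=
    Real.rpow_le_rpow_of_nonpos (by linarith) hx2 (by linarith)
  refine h3.trans ?_
  rw [Real.div_rpow (by linarith) (by norm_num), div_eq_mul_inv, mul_comm]
  apply mul_le_mul_of_nonneg_right _ (by positivity)
  rw [Real.rpow_neg (by norm_num), inv_inv]
  calc (2 : ℝ) ^ α.re ≤ 2 ^ (1 : ℝ) := Real.rpow_le_rpow_of_exponent_le (by norm_num) (by linarith)
    _ = 2 := by norm_num

end Pool.Agent.MP_a187e6.RHFalse
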