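import Pool.Agent.MP_a187e6.MainRH
import Pool.Agent.MP_a187e6.RHFalse

/-! From vanishing cell sums to an MO function with small partial sums. -/

namespace Pool.Agent.MP_a187e6

open Finset Filter Topology

open Pool.Agent.MOFunctions (IsMO S)

/-- the sums up to the start of a cell vanish -/
lemma sum_start_zero {β : ℝ} (hβ : 0 < β) (hβ' : β ≤ 1 / 1000) {k₀ : ℕ} {g : ℕ → ℝ}
    (h0 : ∑ n ∈ Finset.Ico 1 (2 ^ (k₀ + 1)), g n = 0)
    (h : ∀ k : ℕ, k₀ < k → ∀ j < ncell β k, ∑ n ∈ cell β k j, g n = 0) :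
    ∀ k : ℕ, k₀ < k → ∀ j ≤ ncell β k, ∑ n ∈ Finset.Ico 1 (2 ^ k + j * len β k), g n = 0 := by
  intro k hk
  induction k with
  | zero => omega
  | succ k ih =>
    have hstart : ∑ n ∈ Finset.Ico 1 (2 ^ (k + 1)), g n = 0 := by
      rcases Nat.eq_or_lt_of_le (Nat.lt_succ_iff.mp hk) with h1 | h1
      · rw [← h1]
        exact h0
      · have h2 := ih h1 (ncell β k) le_rfl
        rw [ncell_mul_len hβ hβ'] at h2
        have h3 : 2 ^ (k + 1) = 2 ^ k + 2 ^ k := by ring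
        rw [h3]
        exact h2
    intro j
    induction j with
    | zero =>
      intro _
      simpa using hstart
    | succ j ihj =>
      intro hj
      have h1 := ihj (by omega)
      have h2 := h (k + 1) hk j (by omega)
      unfold cell at h2
      have h3 : 1 ≤ 2 ^ (k + 1) + j * len β (k + 1) := by
        have : 0 < 2 ^ (k + 1) := by positivity
        omega
      have h4 : 2 ^ (k + 1) + j * len β (k + 1) ≤ 2 ^ (k + 1) + (j + 1) * len β (k + 1) := by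
        have : (j + 1) * len β (k + 1) = j * len β (k + 1) + len β (k + 1) := by ring
        omega
      rw [← Finset.sum_Ico_consecutive _ h3 h4, h1, h2, add_zero]

/-- bound of the partial sums -/
lemma abs_sum_le {β : ℝ} (hβ : 0 < β) (hβ' : β ≤ 1 / 1000) {k₀ : ℕ} {g : ℕ → ℝ} {B : ℝ} (hB : 0 ≤ B)
    (h0 : ∑ n ∈ Finset.Ico 1 (2 ^ (k₀ + 1)), g n = 0)
    (h : ∀ k : ℕ, k₀ < k → ∀ j < ncell β k, ∑ n ∈ cell β k j, g n = 0 ∧
        ∑ n ∈ cell β k j, |g n| ≤ B * (len β k * (2 : ℝ) ^ (-(1 - β / 6) * (k : ℝ)))) :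
    ∃ C : ℝ, 0 ≤ C ∧ ∀ x : ℝ, 1 ≤ x →
      |∑ n ∈ Finset.Icc 1 ⌊x⌋₊, g n| ≤ C * x ^ (-(1 / 2 + β / 6)) := by
  set B0 : ℝ := ∑ n ∈ Finset.range (2 ^ (k₀ + 1)), |g n| with hB0
  have hB0n : 0 ≤ B0 := Finset.sum_nonneg (fun _ _ => abs_nonneg _)
  refine ⟨2 * B + B0 * 2 ^ (k₀ + 1), by positivity, fun x hx => ?_⟩
  have hx0 : 0 < x := by linarith
  have hxp : 0 < x ^ (-(1 / 2 + β / 6)) := by positivity
  set N := ⌊x⌋₊ with hN
  have hN1 : 1 ≤ N := Nat.le_floor (by simpa using hx)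
  have hNx : (N : ℝ) ≤ x := Nat.floor_le hx0.le
  have hxN : x < N + 1 := Nat.lt_floor_add_one x
  by_cases hsmall : N < 2 ^ (k₀ + 1)
  · have h1 : |∑ n ∈ Finset.Icc 1 N, g n| ≤ B0 := by
      refine (Finset.abs_sum_le_sum_abs _ _).trans ?_
      apply Finset.sum_le_sum_of_subset_of_nonneg
      · intro n hn
        rw [Finset.mem_Icc] at hn
        rw [Finset.mem_range]
        omega
      · intro n _ _
        exact abs_nonneg _
    have h2 : (1 : ℝ) ≤ 2 ^ (k₀ + 1) * x ^ (-(1 / 2 + β / 6)) := by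
      have h3 : x ≤ 2 ^ (k₀ + 1) := by
        have : (N : ℝ) + 1 ≤ 2 ^ (k₀ + 1) := by exact_mod_cast hsmall
        linarith
      have h4 : x ^ (1 / 2 + β / 6) ≤ 2 ^ (k₀ + 1) := by
        calc x ^ (1 / 2 + β / 6) ≤ x ^ (1 : ℝ) := Real.rpow_le_rpow_of_exponent_le hx (by linarith)
          _ = x := Real.rpow_one x
          _ ≤ _ := h3
      rw [Real.rpow_neg hx0.le, ← div_eq_mul_inv, le_div_iff₀ (by positivity), one_mul]
      exact h4
    calc |∑ n ∈ Finset.Icc 1 N, g n| ≤ B0 * 1 := by rw [mul_one]; exact h1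
      _ ≤ B0 * (2 ^ (k₀ + 1) * x ^ (-(1 / 2 + β / 6))) := mul_le_mul_of_nonneg_left h2 hB0n
      _ = B0 * 2 ^ (k₀ + 1) * x ^ (-(1 / 2 + β / 6)) := by ring
      _ ≤ (2 * B + B0 * 2 ^ (k₀ + 1)) * x ^ (-(1 / 2 + β / 6)) := by
          apply mul_le_mul_of_nonneg_right _ hxp.le
          linarith
  · push Not at hsmall
    set k := Nat.log 2 N with hk
    have h2k : 2 ^ k ≤ N := Nat.pow_log_le_self 2 (by omega)
    have h2k1 : N < 2 ^ (k + 1) := Nat.lt_pow_succ_log_self (by norm_num) N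
    have hkk : k₀ < k := by
      have h1 : 2 ^ (k₀ + 1) < 2 ^ (k + 1) := lt_of_le_of_lt hsmall h2k1
      have h2 := (Nat.pow_lt_pow_iff_right (by norm_num : 1 < 2)).mp h1
      omega
    obtain ⟨j, hj, hmem⟩ := exists_cell hβ hβ' h2k h2k1
    have hz := sum_start_zero hβ hβ' h0 (fun k hk j hj => (h k hk j hj).1) k hkk j hj.le
    have hmem' := hmem
    rw [mem_cell] at hmem'
    have hpos : 0 < 2 ^ k := by positivity
    have hsplit : ∑ n ∈ Finset.Icc 1 N, g n =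
        ∑ n ∈ Finset.Ico (2 ^ k + j * len β k) (N + 1), g n := by
      have e1 : Finset.Icc 1 N = Finset.Ico 1 (N + 1) := by
        ext n
        rw [Finset.mem_Icc, Finset.mem_Ico]
        omega
      rw [e1, ← Finset.sum_Ico_consecutive g (show 1 ≤ 2 ^ k + j * len β k by omega)
        (show 2 ^ k + j * len β k ≤ N + 1 by omega), hz, zero_add]
    rw [hsplit]
    have h1 : |∑ n ∈ Finset.Ico (2 ^ k + j * len β k) (N + 1), g n| ≤
        ∑ n ∈ cell β k j, |g n| := by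
      refine (Finset.abs_sum_le_sum_abs _ _).trans ?_
      apply Finset.sum_le_sum_of_subset_of_nonneg
      · intro n hn
        rw [Finset.mem_Ico] at hn
        rw [mem_cell]
        omega
      · intro n _ _
        exact abs_nonneg _
    refine h1.trans ((h k hkk j hj).2.trans ?_)
    have h2 : (len β k : ℝ) * (2 : ℝ) ^ (-(1 - β / 6) * (k : ℝ)) ≤
        (2 : ℝ) ^ (-(1 / 2 + β / 6) * (k : ℝ)) := by
      calc (len β k : ℝ) * (2 : ℝ) ^ (-(1 - β / 6) * (k : ℝ))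
          ≤ (2 : ℝ) ^ ((1 / 2 - β / 3) * (k : ℝ)) * (2 : ℝ) ^ (-(1 - β / 6) * (k : ℝ)) :=
            mul_le_mul_of_nonneg_right (len_le hβ' k) (by positivity)
        _ = (2 : ℝ) ^ (-(1 / 2 + β / 6) * (k : ℝ)) := by
            rw [← Real.rpow_add (by norm_num)]
            congr 1
            ring
    have h3 : (2 : ℝ) ^ (-(1 / 2 + β / 6) * (k : ℝ)) ≤ 2 * x ^ (-(1 / 2 + β / 6)) := by
      have h4 : x ≤ (2 : ℝ) ^ ((k : ℝ) + 1) := by
        have e4 : (2 : ℝ) ^ ((k : ℝ) + 1) = (2 : ℝ) ^ (k + 1) := by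
          rw [← Real.rpow_natCast]
          push_cast
          rfl
        rw [e4]
        have : (N : ℝ) + 1 ≤ 2 ^ (k + 1) := by exact_mod_cast h2k1
        linarith
      have h5 : ((2 : ℝ) ^ ((k : ℝ) + 1)) ^ (-(1 / 2 + β / 6)) ≤ x ^ (-(1 / 2 + β / 6)) := by
        apply Real.rpow_le_rpow_of_nonpos hx0 h4
        linarith
      have h6 : (2 : ℝ) ^ (-(1 / 2 + β / 6) * (k : ℝ)) ≤
          2 * ((2 : ℝ) ^ ((k : ℝ) + 1)) ^ (-(1 / 2 + β / 6)) := by
        rw [← Real.rpow_mul (by norm_num)]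
        have h7 : (2 : ℝ) * (2 : ℝ) ^ (((k : ℝ) + 1) * (-(1 / 2 + β / 6))) =
            (2 : ℝ) ^ (1 + ((k : ℝ) + 1) * (-(1 / 2 + β / 6))) := by
          rw [Real.rpow_add (by norm_num) 1, Real.rpow_one]
        rw [h7]
        apply Real.rpow_le_rpow_of_exponent_le (by norm_num)
        nlinarith
      linarith
    calc B * (len β k * (2 : ℝ) ^ (-(1 - β / 6) * (k : ℝ)))
        ≤ B * (2 * x ^ (-(1 / 2 + β / 6))) := mul_le_mul_of_nonneg_left (h2.trans h3) hB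
      _ = 2 * B * x ^ (-(1 / 2 + β / 6)) := by ring
      _ ≤ (2 * B + B0 * 2 ^ (k₀ + 1)) * x ^ (-(1 / 2 + β / 6)) := by
          apply mul_le_mul_of_nonneg_right _ hxp.le
          have : 0 ≤ B0 * 2 ^ (k₀ + 1) := by positivity
          linarith

lemma cm_pow (f : ℕ → ℝ) {p : ℕ} (hp : p.Prime) (k : ℕ) : cm f (p ^ k) = f p ^ k := by
  induction k with
  | zero => simp [Cm.one]
  | succ k ih => rw [pow_succ, Cm.mul _ (pow_ne_zero _ hp.ne_zero) hp.ne_zero, ih, Cm.prime _ hp,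
      pow_succ]

/-- the RH case -/
theorem exists_MO_of_RH (hRH : RiemannHypothesis) :
    ∃ (f : ℕ → ℂ) (b C : ℝ), 1 / 2 < b ∧ IsMO f ∧ ∀ x : ℝ, 1 ≤ x → ‖S f x‖ ≤ C * x ^ (-b) := by
  obtain ⟨β, hβ, hβ', k₀, f, B, hB, hf, h0, h⟩ := main_real hRH
  obtain ⟨C, hC, hbound⟩ := abs_sum_le hβ hβ' hB h0 h
  have hnorm : ∀ x : ℝ, 1 ≤ x → ‖S (fun n => ((cm f n : ℝ) : ℂ)) x‖ ≤ C * x ^ (-(1 / 2 + β / 6)) := by
    intro x hx
    have h1 := hbound x hx
    unfold S
    rw [← Complex.ofReal_sum, Complex.norm_real, Real.norm_eq_abs]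
    exact h1
  refine ⟨fun n => ((cm f n : ℝ) : ℂ), 1 / 2 + β / 6, C, by linarith, ?_, hnorm⟩
  refine ⟨?_, ?_, ?_, ?_⟩
  · simp [Cm.one]
  · intro m n hm hn _
    rw [Cm.mul f hm.ne' hn.ne']
    push_cast
    rfl
  · rw [tendsto_zero_iff_norm_tendsto_zero]
    have h1 : Tendsto (fun N : ℕ => C * (N : ℝ) ^ (-(1 / 2 + β / 6))) atTop (𝓝 0) := by
      have h2 : Tendsto (fun x : ℝ => x ^ (-(1 / 2 + β / 6))) atTop (𝓝 0) :=
        tendsto_rpow_neg_atTop (by linarith)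
      have h3 := (h2.comp tendsto_natCast_atTop_atTop).const_mul C
      simpa using h3
    apply squeeze_zero' (Eventually.of_forall (fun N => norm_nonneg _)) _ h1
    filter_upwards [eventually_ge_atTop 1] with N hN
    have h2 := hnorm (N : ℝ) (by exact_mod_cast hN)
    unfold S at h2
    rw [Nat.floor_natCast] at h2
    exact h2
  · intro p hp
    have h1 : ‖((f p : ℝ) : ℂ)‖ < 1 := by
      rw [Complex.norm_real, Real.norm_eq_abs]
      have := hf p hp
      linarith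
    refine ⟨(1 - ((f p : ℝ) : ℂ))⁻¹, ?_, ?_⟩
    · apply inv_ne_zero
      intro h2
      have h3 : ((f p : ℝ) : ℂ) = 1 := by linear_combination -h2
      rw [h3, norm_one] at h1
      exact lt_irrefl _ h1
    · have h2 := (hasSum_geometric_of_norm_lt_one h1).tendsto_sum_nat
      refine h2.congr (fun N => ?_)
      apply Finset.sum_congr rfl
      intro k _
      rw [cm_pow f hp]
      push_cast
      rfl

/-- unconditional -/
theorem exists_MO_small :
    ∃ (f : ℕ → ℂ) (b C : ℝ), 1 / 2 < b ∧ IsMO f ∧ ∀ x : ℝ, 1 ≤ x → ‖S f x‖ ≤ C * x ^ (-b) := by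
  by_cases hRH : RiemannHypothesis
  · exact exists_MO_of_RH hRH
  · obtain ⟨f, b, C, hb, hMO, h⟩ := RHFalse.exists_MO_of_not_RH hRH
    exact ⟨f, b, C, hb, hMO, h⟩

end Pool.Agent.MP_a187e6
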