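import Pool.Agent.MP_a187e6.Majorant
import Pool.Agent.MP_a187e6.Sparse

/-! Cells, control sets, and the ball of admissible functions. -/

namespace Pool.Agent.MP_a187e6

open Finset

/-- indices: `none` is the initial cell `[1, 2^(k₀+1))` -/
abbrev Idx (β : ℝ) (k₀ : ℕ) : Type := Option {kj : ℕ × ℕ // k₀ < kj.1 ∧ kj.2 < ncell β kj.1}

/-- the cell of an index -/
noncomputable def cellOf (β : ℝ) (k₀ : ℕ) : Idx β k₀ → Finset ℕ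
  | none => Finset.Ico 1 (2 ^ (k₀ + 1))
  | some kj => cell β kj.1.1 kj.1.2

namespace Dead

variable {β : ℝ} {k₀ : ℕ} (𝒟 : Dead β k₀)

open Classical in
/-- the control primes -/
noncomputable def ctrlOf (P : ℕ) : Idx β k₀ → Finset ℕ
  | none => (Finset.Ico (2 ^ k₀) (2 ^ (k₀ + 1))).filter (fun p => 𝒟.Ord P p)
  | some kj => if kj.1.2 ∈ 𝒟.D kj.1.1 then 𝒟.K kj.1.1 kj.1.2 else
      (cell β kj.1.1 kj.1.2).filter (fun n => n.Prime ∧ ¬ 𝒟.Spec n)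

lemma mem_ctrl_dead {P : ℕ} {kj : {kj : ℕ × ℕ // k₀ < kj.1 ∧ kj.2 < ncell β kj.1}}
    (hd : kj.1.2 ∈ 𝒟.D kj.1.1) {q : ℕ} (hq : q ∈ 𝒟.ctrlOf P (some kj)) :
    ∃ m, 𝒟.InK kj.1.1 kj.1.2 m q := by
  simp only [ctrlOf, if_pos hd, K, Finset.mem_filter] at hq
  exact hq.2

lemma mem_ctrl_dead_of {P : ℕ} (hβ : 0 < β) (hβ' : β ≤ 1 / 1000)
    {kj : {kj : ℕ × ℕ // k₀ < kj.1 ∧ kj.2 < ncell β kj.1}}
    (hd : kj.1.2 ∈ 𝒟.D kj.1.1) {m q : ℕ} (h : 𝒟.InK kj.1.1 kj.1.2 m q) :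
    q ∈ 𝒟.ctrlOf P (some kj) := by
  simp only [ctrlOf, if_pos hd, K, Finset.mem_filter, Finset.mem_range]
  refine ⟨?_, m, h⟩
  have hlt := lt_two_pow_of_mem_cell hβ hβ' kj.2.2 h.1.2.2.2.2
  calc q = 1 * q := (one_mul _).symm
    _ ≤ m * q := Nat.mul_le_mul_right _ h.1.2.2.1.le
    _ < _ := hlt

lemma mem_ctrl_alive {P : ℕ} {kj : {kj : ℕ × ℕ // k₀ < kj.1 ∧ kj.2 < ncell β kj.1}}
    (hd : kj.1.2 ∉ 𝒟.D kj.1.1) {q : ℕ} :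
    q ∈ 𝒟.ctrlOf P (some kj) ↔ q ∈ cell β kj.1.1 kj.1.2 ∧ q.Prime ∧ ¬ 𝒟.Spec q := by
  simp only [ctrlOf, if_neg hd, Finset.mem_filter]

lemma mem_ctrl_none {P : ℕ} {q : ℕ} :
    q ∈ 𝒟.ctrlOf P none ↔ (2 ^ k₀ ≤ q ∧ q < 2 ^ (k₀ + 1)) ∧ 𝒟.Ord P q := by
  simp only [ctrlOf, Finset.mem_filter, Finset.mem_Ico]

/-- alive control primes are ordinary -/
lemma ord_of_alive {P : ℕ} (hβ : 0 < β) (hβ' : β ≤ 1 / 1000) (hP : P ≤ 2 ^ k₀)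
    {kj : {kj : ℕ × ℕ // k₀ < kj.1 ∧ kj.2 < ncell β kj.1}}
    (hd : kj.1.2 ∉ 𝒟.D kj.1.1) {q : ℕ} (hq : q ∈ 𝒟.ctrlOf P (some kj)) :
    𝒟.Ord P q ∧ 2 ^ k₀ ≤ q := by
  rw [𝒟.mem_ctrl_alive hd] at hq
  obtain ⟨h1, h2, h3⟩ := hq
  have h4 := two_pow_le_of_mem_cell h1
  have h5 : 2 ^ k₀ ≤ 2 ^ kj.1.1 := Nat.pow_le_pow_right (by norm_num) kj.2.1.le
  refine ⟨⟨h2, by omega, h3, ?_⟩, by omega⟩
  rintro ⟨k', j', hj', hmem⟩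
  obtain ⟨e1, e2⟩ := cell_unique hβ hβ' kj.2.2 (lt_ncell_of_mem_D 𝒟 hj') h1 hmem
  subst e1
  subst e2
  exact hd hj'

/-- control primes of the cell `i` -/
lemma ctrl_cases {P : ℕ} (hβ : 0 < β) (hβ' : β ≤ 1 / 1000) (hP : P ≤ 2 ^ k₀) {i : Idx β k₀} {q : ℕ}
    (hq : q ∈ 𝒟.ctrlOf P i) :
    (𝒟.Ord P q ∧ 2 ^ k₀ ≤ q ∧ q ∈ cellOf β k₀ i ∧ 𝒟.sm q = 1 ∧ ¬ 𝒟.Spec q) ∨
    (∃ kj : {kj : ℕ × ℕ // k₀ < kj.1 ∧ kj.2 < ncell β kj.1}, i = some kj ∧ kj.1.2 ∈ 𝒟.D kj.1.1 ∧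
      𝒟.InK kj.1.1 kj.1.2 (𝒟.sm q) q ∧ 𝒟.sk q = kj.1.1 ∧ 𝒟.Spec q) := by
  match i with
  | none =>
    left
    rw [𝒟.mem_ctrl_none] at hq
    have hpos : 1 ≤ q := hq.2.1.pos
    refine ⟨hq.2, hq.1.1, ?_, 𝒟.sm_of_not_spec hq.2.2.2.1, hq.2.2.2.1⟩
    unfold cellOf
    rw [Finset.mem_Ico]
    exact ⟨hpos, hq.1.2⟩
  | some kj =>
    by_cases hd : kj.1.2 ∈ 𝒟.D kj.1.1
    · right
      obtain ⟨m, hm⟩ := 𝒟.mem_ctrl_dead hd hq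
      obtain ⟨e1, e2, e3⟩ := 𝒟.data_eq hβ hβ' hd hm
      exact ⟨kj, rfl, hd, e3 ▸ hm, e1, ⟨_, _, m, hd, hm⟩⟩
    · left
      have h := 𝒟.ord_of_alive hβ hβ' hP hd hq
      refine ⟨h.1, h.2, ((𝒟.mem_ctrl_alive hd).mp hq).1, 𝒟.sm_of_not_spec h.1.2.2.1, h.1.2.2.1⟩

lemma ctrl_disj {P : ℕ} (hβ : 0 < β) (hβ' : β ≤ 1 / 1000) (hP : P ≤ 2 ^ k₀) (i i' : Idx β k₀)
    (q : ℕ) (hq : q ∈ 𝒟.ctrlOf P i) (hq' : q ∈ 𝒟.ctrlOf P i') : i = i' := by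
  rcases 𝒟.ctrl_cases hβ hβ' hP hq with ⟨h1, h2, h3, h4, h5⟩ | ⟨kj, h1, h2, h3, h4, h5⟩
  · rcases 𝒟.ctrl_cases hβ hβ' hP hq' with ⟨g1, g2, g3, g4, g5⟩ | ⟨kj, g1, g2, g3, g4, g5⟩
    · match i, i' with
      | none, none => rfl
      | none, some kj =>
        exfalso
        unfold cellOf at h3 g3
        rw [Finset.mem_Ico] at h3
        have h6 := two_pow_le_of_mem_cell g3
        have h7 : 2 ^ (k₀ + 1) ≤ 2 ^ kj.1.1 := Nat.pow_le_pow_right (by norm_num) kj.2.1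
        omega
      | some kj, none =>
        exfalso
        unfold cellOf at h3 g3
        rw [Finset.mem_Ico] at g3
        have h6 := two_pow_le_of_mem_cell h3
        have h7 : 2 ^ (k₀ + 1) ≤ 2 ^ kj.1.1 := Nat.pow_le_pow_right (by norm_num) kj.2.1
        omega
      | some kj, some kj' =>
        unfold cellOf at h3 g3
        obtain ⟨e1, e2⟩ := cell_unique hβ hβ' kj.2.2 kj'.2.2 h3 g3
        congr 1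
        apply Subtype.ext
        exact Prod.ext e1.symm e2.symm
    · exact absurd g5 h5
  · rcases 𝒟.ctrl_cases hβ hβ' hP hq' with ⟨g1, g2, g3, g4, g5⟩ | ⟨kj', g1, g2, g3, g4, g5⟩
    · exact absurd h5 g5
    · rw [h1, g1]
      obtain ⟨e1, e2, e3⟩ := 𝒟.inK_unique hβ hβ' h2 h3 g2 g3
      congr 1
      apply Subtype.ext
      exact Prod.ext e1.symm e2.symm

lemma ctrl_prime {P : ℕ} (hβ : 0 < β) (hβ' : β ≤ 1 / 1000) (hP : P ≤ 2 ^ k₀) {i : Idx β k₀} {q : ℕ}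
    (hq : q ∈ 𝒟.ctrlOf P i) : q.Prime ∧ 1 ≤ 𝒟.sm q ∧ 𝒟.sm q * q ∈ cellOf β k₀ i := by
  rcases 𝒟.ctrl_cases hβ hβ' hP hq with ⟨h1, h2, h3, h4, h5⟩ | ⟨kj, h1, h2, h3, h4, h5⟩
  · refine ⟨h1.1, by omega, ?_⟩
    rw [h4, one_mul]
    exact h3
  · refine ⟨h3.1.1, h3.1.2.2.1.le, ?_⟩
    rw [h1]
    exact h3.1.2.2.2.2

lemma ctrl_inj {P : ℕ} (hβ : 0 < β) (hβ' : β ≤ 1 / 1000) (hP : P ≤ 2 ^ k₀)
    (hk : 1 ≤ 40 * β * (k₀ : ℝ)) (i : Idx β k₀) :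
    Set.InjOn (fun q => 𝒟.sm q * q) (𝒟.ctrlOf P i : Set ℕ) := by
  intro q hq q' hq' he
  have hq1 : q ∈ 𝒟.ctrlOf P i := hq
  have hq2 : q' ∈ 𝒟.ctrlOf P i := hq'
  have he' : 𝒟.sm q * q = 𝒟.sm q' * q' := he
  rcases 𝒟.ctrl_cases hβ hβ' hP hq1 with ⟨h1, h2, h3, h4, h5⟩ | ⟨kj, h1, h2, h3, h4, h5⟩
  · rcases 𝒟.ctrl_cases hβ hβ' hP hq2 with ⟨g1, g2, g3, g4, g5⟩ | ⟨kj, g1, g2, g3, g4, g5⟩
    · rw [h4, g4, one_mul, one_mul] at he'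
      exact he'
    · rw [g1] at hq1
      obtain ⟨m, hm⟩ := 𝒟.mem_ctrl_dead g2 hq1
      exact absurd ⟨_, _, m, g2, hm⟩ h5
  · rcases 𝒟.ctrl_cases hβ hβ' hP hq2 with ⟨g1, g2, g3, g4, g5⟩ | ⟨kj', g1, g2, g3, g4, g5⟩
    · rw [h1] at hq2
      obtain ⟨m, hm⟩ := 𝒟.mem_ctrl_dead h2 hq2
      exact absurd ⟨_, _, m, h2, hm⟩ g5
    · have hkk : kj' = kj := by
        rw [h1] at g1
        exact (Option.some.inj g1).symm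
      subst hkk
      apply elig_unique hβ hβ' kj'.2.2 ?_ h3.1 g3.1 he'
      have : (k₀ : ℝ) ≤ (kj'.1.1 : ℝ) := by exact_mod_cast kj'.2.1.le
      nlinarith

/-- admissible functions -/
def Ball (P : ℕ) (sg : ℕ → ℝ) (f : ℕ → ℝ) : Prop :=
  ∀ p : ℕ, p.Prime → |f p - 𝒟.bas P sg p| ≤ 𝒟.rad P p

lemma Ball.abs_le {𝒟 : Dead β k₀} {P : ℕ} {sg : ℕ → ℝ} {f : ℕ → ℝ} (h : 𝒟.Ball P sg f) {p : ℕ}
    (hp : p.Prime) : |f p| ≤ 𝒟.Ab P sg p := by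
  have h1 := h p hp
  unfold Ab
  have h2 : |f p| ≤ |f p - 𝒟.bas P sg p| + |𝒟.bas P sg p| := by
    have := abs_add_le (f p - 𝒟.bas P sg p) (𝒟.bas P sg p)
    rwa [sub_add_cancel] at this
  linarith

lemma Ball.ge {𝒟 : Dead β k₀} {P : ℕ} {sg : ℕ → ℝ} (hsg : ∀ p, |sg p| = 1) {f : ℕ → ℝ}
    (h : 𝒟.Ball P sg f) {p : ℕ} (hp : 𝒟.Ord P p) : 1 / 2 * rho β p ≤ |f p| := by
  have h1 := h p hp.1
  have hr := rho_pos (β := β) hp.1.two_le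
  have h2 : |𝒟.bas P sg p| = rho β p := by
    unfold bas
    rw [if_pos hp, abs_mul, hsg, one_mul, abs_of_pos hr]
  have h3 : 𝒟.rad P p ≤ rho β p / 2 := by
    unfold rad
    rw [if_neg hp.2.2.1]
    split_ifs <;> linarith
  have h4 : |𝒟.bas P sg p| ≤ |f p| + |f p - 𝒟.bas P sg p| := by
    have := abs_sub_abs_le_abs_sub (𝒟.bas P sg p) (f p)
    rw [abs_sub_comm] at this
    linarith
  linarith

lemma sm_length {K₀ : ℕ} (hβ : 0 < β) (hβ' : β ≤ 1 / 1000) (hK : 1 / (20 * β) ≤ K₀) (hk2 : 2 ≤ k₀)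
    {q : ℕ} (h : 𝒟.Spec q) : (𝒟.sm q).primeFactorsList.length ≤ K₀ := by
  obtain ⟨h1, h2⟩ := 𝒟.spec_data h
  have := pos_of_mem_D 𝒟 h1
  exact Dead.length_le hβ hβ' hK (lt_ncell_of_mem_D 𝒟 h1) h2.1 (by omega)

lemma sm_prime_ord {P : ℕ} (hβ : 0 < β) (hk₀ : (P : ℝ) ≤ (2 : ℝ) ^ (20 * β * (k₀ : ℝ)))
    {q : ℕ} (h : 𝒟.Spec q) {p : ℕ} (hp : p.Prime) (hpm : p ∣ 𝒟.sm q) : 𝒟.Ord P p := by
  obtain ⟨h1, h2⟩ := 𝒟.spec_data h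
  apply 𝒟.inK_prime_ord h2 _ hp hpm
  refine hk₀.trans ?_
  apply Real.rpow_le_rpow_of_exponent_le (by norm_num)
  have := pos_of_mem_D 𝒟 h1
  have : (k₀ : ℝ) ≤ (𝒟.sk q : ℝ) := by exact_mod_cast this.le
  nlinarith

/-- lower bound for `|f(m)|` -/
lemma Ball.cm_ge {𝒟 : Dead β k₀} {P K₀ : ℕ} {sg : ℕ → ℝ} (hsg : ∀ p, |sg p| = 1)
    (hβ : 0 < β) (hβ' : β ≤ 1 / 1000) (hK : 1 / (20 * β) ≤ K₀) (hk2 : 2 ≤ k₀)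
    (hk₀ : (P : ℝ) ≤ (2 : ℝ) ^ (20 * β * (k₀ : ℝ))) {f : ℕ → ℝ} (hf : 𝒟.Ball P sg f)
    {q : ℕ} (h : 𝒟.Spec q) :
    (1 / 2) ^ K₀ * cm (rho β) (𝒟.sm q) ≤ |cm f (𝒟.sm q)| := by
  have h1 : cm (fun p => 1 / 2 * rho β p) (𝒟.sm q) ≤ |cm f (𝒟.sm q)| := by
    apply Cm.le_abs
    · intro p hp hpm
      have := rho_pos (β := β) hp.two_le
      positivity
    · intro p hp hpm
      exact hf.ge hsg (𝒟.sm_prime_ord hβ hk₀ h hp hpm)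
  rw [Cm.smul (1 / 2) (rho β)] at h1
  refine le_trans ?_ h1
  apply mul_le_mul_of_nonneg_right _ (𝒟.cm_rho_pos (𝒟.spec_data h).2).le
  exact pow_le_pow_of_le_one (by norm_num) (by norm_num) (𝒟.sm_length hβ hβ' hK hk2 h)

lemma cm_two_Ab_le {P K₀ : ℕ} {sg : ℕ → ℝ} (hsg : ∀ p, |sg p| = 1)
    (hβ : 0 < β) (hβ' : β ≤ 1 / 1000) (hK : 1 / (20 * β) ≤ K₀) (hk2 : 2 ≤ k₀)
    (hk₀ : (P : ℝ) ≤ (2 : ℝ) ^ (20 * β * (k₀ : ℝ))) {q : ℕ} (h : 𝒟.Spec q) :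
    cm (fun p => 2 * 𝒟.Ab P sg p) (𝒟.sm q) ≤ 3 ^ K₀ * cm (rho β) (𝒟.sm q) := by
  have h1 : cm (fun p => 2 * 𝒟.Ab P sg p) (𝒟.sm q) ≤ cm (fun p => 3 * rho β p) (𝒟.sm q) := by
    apply Cm.mono
    · intro p hp hpm
      have := 𝒟.Ab_nonneg P sg p
      linarith
    · intro p hp hpm
      have ho := 𝒟.sm_prime_ord hβ hk₀ h hp hpm
      have := 𝒟.Ab_of_ord hsg ho
      linarith
  rw [Cm.smul 3 (rho β)] at h1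
  refine h1.trans ?_
  apply mul_le_mul_of_nonneg_right _ (𝒟.cm_rho_pos (𝒟.spec_data h).2).le
  exact pow_le_pow_right₀ (by norm_num) (𝒟.sm_length hβ hβ' hK hk2 h)

end Dead

end Pool.Agent.MP_a187e6
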