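import Mathlib

/-!
Selberg's weights for the sieve of dimension one with level `D`:
real `lam d` with `lam 1 = 1`, `|lam d| ≤ 1`, support on squarefree `d ≤ D`, and
`∑ lam d₁ lam d₂ / [d₁, d₂] ≤ 1 / ∑_{n ≤ D} 1/n ≤ 1 / log D`.
-/

namespace Pool.Agent.MP_a187e6

open Finset

/-- squarefree numbers in `[1, D]` -/
def sqf (D : ℕ) : Finset ℕ := (Icc 1 D).filter Squarefree

/-- the Selberg sum `∑_{l ≤ D} μ²(l)/φ(l)` -/
noncomputable def selG (D : ℕ) : ℝ := ∑ l ∈ sqf D, (1 : ℝ) / (Nat.totient l)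

/-- the Selberg weights -/
noncomputable def selLam (D d : ℕ) : ℝ :=
  (ArithmeticFunction.moebius d : ℝ) * d *
    (∑ l ∈ (sqf D).filter (fun l => d ∣ l), (1 : ℝ) / (Nat.totient l)) / selG D

lemma mem_sqf {D l : ℕ} : l ∈ sqf D ↔ (1 ≤ l ∧ l ≤ D) ∧ Squarefree l := by
  simp [sqf]

lemma one_mem_sqf {D : ℕ} (hD : 1 ≤ D) : 1 ∈ sqf D := by
  simp [mem_sqf, hD]

lemma totient_pos' {l : ℕ} (hl : 1 ≤ l) : (0 : ℝ) < Nat.totient l := by
  exact_mod_cast Nat.totient_pos.mpr hl

lemma selG_pos {D : ℕ} (hD : 1 ≤ D) : 0 < selG D := by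
  apply Finset.sum_pos
  · intro l hl
    have := totient_pos' (mem_sqf.mp hl).1.1
    positivity
  · exact ⟨1, one_mem_sqf hD⟩

/-- reciprocal as a monoid hom -/
noncomputable def recip : ℕ →* ℝ where
  toFun n := ((n : ℝ))⁻¹
  map_one' := by simp
  map_mul' m n := by simp [mul_comm]

lemma recip_apply (n : ℕ) : recip n = (n : ℝ)⁻¹ := rfl

/-- for squarefree `l`, `∑_{n ≤ D, rad n = l} 1/n ≤ 1/φ(l)` -/
lemma sum_rad_le {l : ℕ} (hl : Squarefree l) (D : ℕ) :
    ∑ n ∈ (Icc 1 D).filter (fun n => n.primeFactors = l.primeFactors), (1 : ℝ) / n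
      ≤ 1 / (Nat.totient l) := by
  have hl0 : l ≠ 0 := hl.ne_zero
  have hl1 : (0 : ℝ) < l := by exact_mod_cast Nat.pos_of_ne_zero hl0
  have hprod : ∏ p ∈ l.primeFactors, p = l := Nat.prod_primeFactors_of_squarefree hl
  obtain ⟨hsum, hhas⟩ :=
    EulerProduct.summable_and_hasSum_factoredNumbers_prod_filter_prime_geometric (f := recip)
      (fun {p} hp => by
        rw [recip_apply, norm_inv, Real.norm_natCast]
        exact inv_lt_one_of_one_lt₀ (by exact_mod_cast hp.one_lt)) l.primeFactors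
  have hfilt : (l.primeFactors.filter Nat.Prime) = l.primeFactors := by
    apply Finset.filter_true_of_mem
    intro p hp
    exact Nat.prime_of_mem_primeFactors hp
  rw [hfilt] at hhas
  -- the totient
  have htot : (1 : ℝ) / Nat.totient l = (1 / l) * ∏ p ∈ l.primeFactors, (1 - recip p)⁻¹ := by
    have h := Nat.totient_eq_mul_prod_factors l
    have h2 : (Nat.totient l : ℝ) = l * ∏ p ∈ l.primeFactors, (1 - (p : ℝ)⁻¹) := by
      have := congrArg (fun q : ℚ => (q : ℝ)) h
      push_cast at this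
      exact this
    rw [h2, Finset.prod_inv_distrib]
    simp only [recip_apply]
    rw [one_div, mul_inv, one_div]
  rw [htot]
  -- every n with rad n = l is l * m
  have hdvd : ∀ n ∈ (Icc 1 D).filter (fun n => n.primeFactors = l.primeFactors), l ∣ n := by
    intro n hn
    rw [mem_filter] at hn
    have h1 : ∏ p ∈ n.primeFactors, p ∣ n := Nat.prod_primeFactors_dvd n
    rw [hn.2, hprod] at h1
    exact h1
  have hmem : ∀ n ∈ (Icc 1 D).filter (fun n => n.primeFactors = l.primeFactors),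
      n / l ∈ Nat.factoredNumbers l.primeFactors := by
    intro n hn
    have hd := hdvd n hn
    rw [mem_filter, mem_Icc] at hn
    apply Nat.mem_factoredNumbers_of_primeFactors_subset
    · exact (Nat.div_pos (Nat.le_of_dvd (by omega) hd) (Nat.pos_of_ne_zero hl0)).ne'
    · rw [← hn.2]
      exact Nat.primeFactors_mono (Nat.div_dvd_of_dvd hd) (by omega)
  -- transfer to a finite sum over the subtype
  set T := (Icc 1 D).filter (fun n => n.primeFactors = l.primeFactors) with hT
  let g : T → Nat.factoredNumbers l.primeFactors := fun n => ⟨n.1 / l, hmem n.1 n.2⟩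
  have hg : Function.Injective g := by
    intro a b hab
    have h1 : a.1 / l = b.1 / l := by
      have := congrArg Subtype.val hab
      exact this
    have ha := Nat.div_mul_cancel (hdvd a.1 a.2)
    have hb := Nat.div_mul_cancel (hdvd b.1 b.2)
    apply Subtype.ext
    rw [← ha, ← hb, h1]
  have hle : ∑ n : T, recip (g n) ≤ ∏ p ∈ l.primeFactors, (1 - recip p)⁻¹ := by
    have h1 : ∑ n : T, recip (g n) = ∑ m ∈ (Finset.univ.map ⟨g, hg⟩), recip m := by
      rw [Finset.sum_map]
      rfl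
    rw [h1]
    exact sum_le_hasSum _ (fun m _ => by rw [recip_apply]; positivity) hhas
  calc ∑ n ∈ T, (1 : ℝ) / n = ∑ n : T, (1 : ℝ) / (n : ℕ) := by
        rw [← Finset.sum_coe_sort T (fun n => (1 : ℝ) / n)]
    _ = ∑ n : T, (1 / (l : ℝ)) * recip (g n) := by
        apply Finset.sum_congr rfl
        intro n _
        have hn := Nat.div_mul_cancel (hdvd n.1 n.2)
        have hn' : ((n.1 : ℕ) : ℝ) = ((n.1 / l : ℕ) : ℝ) * l := by
          exact_mod_cast hn.symm
        rw [recip_apply, hn']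
        change 1 / (((n.1 / l : ℕ) : ℝ) * l) = 1 / (l : ℝ) * (((n.1 / l : ℕ) : ℝ))⁻¹
        rw [one_div, mul_inv, one_div, mul_comm]
    _ = (1 / (l : ℝ)) * ∑ n : T, recip (g n) := by rw [Finset.mul_sum]
    _ ≤ _ := by
        apply mul_le_mul_of_nonneg_left hle (by positivity)

/-- `∑_{n ≤ D} 1/n ≤ ∑_{l ≤ D} μ²(l)/φ(l)` -/
lemma harmonic_le_selG (D : ℕ) : ∑ n ∈ Icc 1 D, (1 : ℝ) / n ≤ selG D := by
  classical
  have hmaps : ∀ n ∈ Icc 1 D, (∏ p ∈ n.primeFactors, p) ∈ sqf D := by
    intro n hn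
    rw [mem_Icc] at hn
    have hdvd := Nat.prod_primeFactors_dvd n
    have hpos : 0 < ∏ p ∈ n.primeFactors, p := Nat.pos_of_dvd_of_pos hdvd (by omega)
    rw [mem_sqf]
    refine ⟨⟨hpos, (Nat.le_of_dvd (by omega) hdvd).trans hn.2⟩, ?_⟩
    have : (∏ p ∈ n.primeFactors, p) = UniqueFactorizationMonoid.radical n := by
      rw [Nat.radical_eq_prod_primeFactors]
    rw [this]
    exact UniqueFactorizationMonoid.squarefree_radical
  rw [← Finset.sum_fiberwise_of_maps_to hmaps]
  unfold selG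
  apply Finset.sum_le_sum
  intro l hl
  have hlsq := (mem_sqf.mp hl).2
  refine le_trans ?_ (sum_rad_le hlsq D)
  apply Finset.sum_le_sum_of_subset_of_nonneg
  · intro n hn
    rw [mem_filter] at hn ⊢
    refine ⟨hn.1, ?_⟩
    rw [← hn.2]
    rw [Nat.primeFactors_prod]
    intro p hp
    exact Nat.prime_of_mem_primeFactors hp
  · intro n _ _
    positivity

lemma selG_ge_log {D : ℕ} (hD : 1 ≤ D) : Real.log D ≤ selG D := by
  refine le_trans ?_ (harmonic_le_selG D)
  have h := log_add_one_le_harmonic D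
  have h2 : ((harmonic D : ℚ) : ℝ) = ∑ n ∈ Icc 1 D, (1 : ℝ) / n := by
    rw [harmonic_eq_sum_Icc]
    push_cast
    simp [one_div]
  rw [h2] at h
  refine le_trans (Real.log_le_log (by exact_mod_cast hD) ?_) h
  push_cast
  linarith

/-- multiplicativity of the totient on complementary divisors of a squarefree number -/
lemma totient_mul_div {d k : ℕ} (hd : Squarefree d) (hk : k ∣ d) :
    Nat.totient k * Nat.totient (d / k) = Nat.totient d := by
  obtain ⟨e, rfl⟩ := hk
  have hk0 : 0 < k := Nat.pos_of_ne_zero (fun h => hd.ne_zero (by simp [h]))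
  rw [Nat.mul_div_cancel_left e hk0]
  rw [Nat.totient_mul (Nat.coprime_of_squarefree_mul hd)]

lemma sum_inv_totient {d : ℕ} (hd : Squarefree d) :
    ∑ k ∈ d.divisors, (1 : ℝ) / Nat.totient k = d / Nat.totient d := by
  rw [← Nat.sum_div_divisors d (fun k => (1 : ℝ) / Nat.totient k)]
  have h : ∀ k ∈ d.divisors, (1 : ℝ) / Nat.totient (d / k) = Nat.totient k / Nat.totient d := by
    intro k hk
    rw [Nat.mem_divisors] at hk
    have h1 := totient_mul_div hd hk.1
    have hk1 : 0 < k := Nat.pos_of_dvd_of_pos hk.1 (Nat.pos_of_ne_zero hk.2)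
    have hdk : 0 < d / k := Nat.div_pos (Nat.le_of_dvd (Nat.pos_of_ne_zero hk.2) hk.1) hk1
    have h2 := totient_pos' hk1
    have h3 := totient_pos' (l := d / k) hdk
    rw [← h1]
    push_cast
    field_simp
  rw [Finset.sum_congr rfl h, ← Finset.sum_div]
  congr 1
  exact_mod_cast Nat.sum_totient d

lemma mul_sum_le_selG {D d : ℕ} (hd : Squarefree d) :
    (d : ℝ) * (∑ l ∈ (sqf D).filter (fun l => d ∣ l), (1 : ℝ) / (Nat.totient l)) ≤ selG D := by
  classical
  have hd0 : 0 < d := Nat.pos_of_ne_zero hd.ne_zero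
  have hcop : ∀ l ∈ (sqf D).filter (fun l => d ∣ l), Nat.Coprime d (l / d) := by
    intro l hl
    rw [mem_filter, mem_sqf] at hl
    obtain ⟨⟨_, hsq⟩, e, rfl⟩ := hl
    rw [Nat.mul_div_cancel_left e hd0]
    exact Nat.coprime_of_squarefree_mul hsq
  set P := ((sqf D).filter (fun l => d ∣ l)) ×ˢ d.divisors with hP
  let φ : ℕ × ℕ → ℕ := fun x => x.2 * (x.1 / d)
  have hinj : Set.InjOn φ (P : Set (ℕ × ℕ)) := by
    rintro ⟨l, k⟩ h1 ⟨l', k'⟩ h2 heq
    simp only [hP, Finset.coe_product, Set.mem_prod, Finset.mem_coe] at h1 h2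
    simp only [φ] at heq
    have c1 := hcop l h1.1
    have c2 := hcop l' h2.1
    have hk1 : k ∣ d := (Nat.mem_divisors.mp h1.2).1
    have hk2 : k' ∣ d := (Nat.mem_divisors.mp h2.2).1
    have g1 : Nat.gcd d (k * (l / d)) = k := by
      rw [Nat.Coprime.gcd_mul_right_cancel_right k c1.symm]
      exact Nat.gcd_eq_right hk1
    have g2 : Nat.gcd d (k' * (l' / d)) = k' := by
      rw [Nat.Coprime.gcd_mul_right_cancel_right k' c2.symm]
      exact Nat.gcd_eq_right hk2
    have hkk : k = k' := by rw [← g1, ← g2, heq]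
    subst hkk
    have hk0 : 0 < k := Nat.pos_of_dvd_of_pos hk1 hd0
    have h3 : l / d = l' / d := Nat.eq_of_mul_eq_mul_left hk0 heq
    have e1 : l / d * d = l := Nat.div_mul_cancel (mem_filter.mp h1.1).2
    have e2 : l' / d * d = l' := Nat.div_mul_cancel (mem_filter.mp h2.1).2
    have : l = l' := by rw [← e1, ← e2, h3]
    rw [this]
  have hmaps : ∀ x ∈ P, φ x ∈ sqf D := by
    rintro ⟨l, k⟩ hx
    rw [hP, mem_product] at hx
    have hl := hx.1
    rw [mem_filter, mem_sqf] at hl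
    have hk1 : k ∣ d := (Nat.mem_divisors.mp hx.2).1
    have hdvd : k * (l / d) ∣ l := by
      have : d * (l / d) = l := Nat.mul_div_cancel' hl.2
      conv_rhs => rw [← this]
      exact Nat.mul_dvd_mul_right hk1 _
    have hpos : 0 < k * (l / d) := Nat.pos_of_dvd_of_pos hdvd (by omega)
    rw [mem_sqf]
    exact ⟨⟨hpos, (Nat.le_of_dvd (by omega) hdvd).trans hl.1.1.2⟩,
      hl.1.2.squarefree_of_dvd hdvd⟩
  have hmain : ∑ x ∈ P, (1 : ℝ) / Nat.totient (φ x) ≤ selG D := by
    rw [← Finset.sum_image (f := fun m => (1 : ℝ) / Nat.totient m) hinj]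
    unfold selG
    apply Finset.sum_le_sum_of_subset_of_nonneg
    · intro m hm
      rw [mem_image] at hm
      obtain ⟨x, hx, rfl⟩ := hm
      exact hmaps x hx
    · intro m _ _
      positivity
  refine le_trans (le_of_eq ?_) hmain
  rw [hP, Finset.sum_product, Finset.mul_sum]
  apply Finset.sum_congr rfl
  intro l hl
  have hl' := hl
  rw [mem_filter, mem_sqf] at hl
  have hcl := hcop l hl'
  have hld : 0 < l / d := Nat.div_pos (Nat.le_of_dvd (by omega) hl.2) hd0
  have e1 : d * (l / d) = l := Nat.mul_div_cancel' hl.2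
  have htl : Nat.totient l = Nat.totient d * Nat.totient (l / d) := by
    conv_lhs => rw [← e1]
    exact Nat.totient_mul hcl
  have h4 : ∀ k ∈ d.divisors, (1 : ℝ) / Nat.totient (φ (l, k)) =
      (1 / Nat.totient (l / d)) * (1 / Nat.totient k) := by
    intro k hk
    have hk1 : k ∣ d := (Nat.mem_divisors.mp hk).1
    have : Nat.totient (k * (l / d)) = Nat.totient k * Nat.totient (l / d) :=
      Nat.totient_mul (Nat.Coprime.coprime_dvd_left hk1 hcl)
    change (1 : ℝ) / Nat.totient (k * (l / d)) = _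
    rw [this]
    push_cast
    rw [one_div, mul_inv, one_div, one_div, mul_comm]
  rw [Finset.sum_congr rfl h4, ← Finset.mul_sum, sum_inv_totient hd, htl]
  push_cast
  have h2 := totient_pos' hd0
  have h3 := totient_pos' (l := l / d) hld
  field_simp

lemma selLam_one {D : ℕ} (hD : 1 ≤ D) : selLam D 1 = 1 := by
  unfold selLam
  have : (sqf D).filter (fun l => 1 ∣ l) = sqf D := by
    apply Finset.filter_true_of_mem
    intro l _
    exact one_dvd l
  rw [this]
  change _ * selG D / selG D = 1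
  simp [(selG_pos hD).ne']

lemma abs_selLam_le {D : ℕ} (hD : 1 ≤ D) (d : ℕ) : |selLam D d| ≤ 1 := by
  have hG := selG_pos hD
  by_cases hd : Squarefree d
  · unfold selLam
    have hS : 0 ≤ ∑ l ∈ (sqf D).filter (fun l => d ∣ l), (1 : ℝ) / (Nat.totient l) :=
      Finset.sum_nonneg (fun l _ => by positivity)
    rw [abs_div, abs_mul, abs_mul, abs_of_pos hG, abs_of_nonneg hS, div_le_one hG]
    have hmu : |(ArithmeticFunction.moebius d : ℝ)| = 1 := by
      have := ArithmeticFunction.abs_moebius_eq_one_of_squarefree hd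
      exact_mod_cast this
    rw [hmu, one_mul, abs_of_nonneg (by positivity : (0 : ℝ) ≤ d)]
    exact mul_sum_le_selG hd
  · unfold selLam
    rw [ArithmeticFunction.moebius_eq_zero_of_not_squarefree hd]
    simp

lemma selLam_eq_zero_of_lt {D d : ℕ} (h : D < d) : selLam D d = 0 := by
  unfold selLam
  have : (sqf D).filter (fun l => d ∣ l) = ∅ := by
    apply Finset.filter_false_of_mem
    intro l hl hdl
    rw [mem_sqf] at hl
    have := Nat.le_of_dvd (by omega) hdl
    omega
  rw [this]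
  simp

lemma selLam_eq_zero_of_not_squarefree {D d : ℕ} (h : ¬ Squarefree d) : selLam D d = 0 := by
  unfold selLam
  rw [ArithmeticFunction.moebius_eq_zero_of_not_squarefree h]
  simp

/-- `∑_{l ∣ d ∣ m} μ(d) = μ(l)` if `m = l` and `0` otherwise, for squarefree `m` -/
lemma sum_moebius_between {m l D : ℕ} (hm : Squarefree m) (hmD : m ≤ D) :
    ∑ d ∈ (Icc 1 D).filter (fun d => l ∣ d), (if d ∣ m then (ArithmeticFunction.moebius d : ℝ) else 0)
      = if m = l then (ArithmeticFunction.moebius l : ℝ) else 0 := by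
  classical
  have hm0 : 0 < m := Nat.pos_of_ne_zero hm.ne_zero
  rw [← Finset.sum_filter, Finset.filter_filter]
  by_cases hlm : l ∣ m
  · obtain ⟨e, rfl⟩ := hlm
    have hl0 : 0 < l := Nat.pos_of_ne_zero (fun h => by simp [h] at hm0)
    have he0 : 0 < e := Nat.pos_of_ne_zero (fun h => by simp [h] at hm0)
    have hcop := Nat.coprime_of_squarefree_mul hm
    have hset : (Icc 1 D).filter (fun d => l ∣ d ∧ d ∣ l * e) = e.divisors.image (fun k => l * k) := by
      ext d
      simp only [mem_filter, mem_Icc, mem_image, Nat.mem_divisors]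
      constructor
      · rintro ⟨_, ⟨k, rfl⟩, h2⟩
        exact ⟨k, ⟨Nat.dvd_of_mul_dvd_mul_left hl0 h2, he0.ne'⟩, rfl⟩
      · rintro ⟨k, ⟨hk, _⟩, rfl⟩
        have hk0 : 0 < k := Nat.pos_of_dvd_of_pos hk he0
        have hkd : l * k ∣ l * e := Nat.mul_dvd_mul_left l hk
        refine ⟨⟨Nat.mul_pos hl0 hk0, (Nat.le_of_dvd hm0 hkd).trans hmD⟩, Dvd.intro k rfl, hkd⟩
    rw [hset, Finset.sum_image (fun a _ b _ h => Nat.eq_of_mul_eq_mul_left hl0 h)]
    have h1 : ∀ k ∈ e.divisors, (ArithmeticFunction.moebius (l * k) : ℝ) =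
        (ArithmeticFunction.moebius l : ℝ) * (ArithmeticFunction.moebius k : ℝ) := by
      intro k hk
      have hk1 : k ∣ e := (Nat.mem_divisors.mp hk).1
      have := ArithmeticFunction.isMultiplicative_moebius.map_mul_of_coprime
        (Nat.Coprime.coprime_dvd_right hk1 hcop)
      rw [this]
      push_cast
      ring
    rw [Finset.sum_congr rfl h1, ← Finset.mul_sum]
    have h2 : ∑ k ∈ e.divisors, (ArithmeticFunction.moebius k : ℝ) = if e = 1 then 1 else 0 := by
      have h := ArithmeticFunction.coe_mul_zeta_apply (f := (ArithmeticFunction.moebius : ArithmeticFunction ℝ)) (x := e)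
      rw [ArithmeticFunction.coe_moebius_mul_coe_zeta, ArithmeticFunction.one_apply] at h
      simpa [ArithmeticFunction.intCoe_apply] using h.symm
    rw [h2]
    by_cases he : e = 1
    · subst he
      simp
    · have : l * e ≠ l := by
        intro h
        apply he
        have : l * e = l * 1 := by rw [h, mul_one]
        exact Nat.eq_of_mul_eq_mul_left hl0 this
      simp [he, this]
  · have hne : m ≠ l := fun h => hlm (h ▸ dvd_refl _)
    rw [if_neg hne]
    apply Finset.sum_eq_zero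
    intro d hd
    rw [mem_filter] at hd
    exact absurd (hd.2.1.trans hd.2.2) hlm

/-- the diagonal coordinates of the Selberg weights -/
lemma sum_selLam_div {D : ℕ} (l : ℕ) :
    ∑ d ∈ (Icc 1 D).filter (fun d => l ∣ d), selLam D d / d =
      if l ∈ sqf D then (ArithmeticFunction.moebius l : ℝ) / (Nat.totient l * selG D) else 0 := by
  classical
  have h1 : ∀ d ∈ (Icc 1 D).filter (fun d => l ∣ d), selLam D d / d =
      ∑ m ∈ sqf D, (if d ∣ m then (ArithmeticFunction.moebius d : ℝ) else 0) *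
        ((1 : ℝ) / Nat.totient m / selG D) := by
    intro d hd
    rw [mem_filter, mem_Icc] at hd
    have hd0 : (d : ℝ) ≠ 0 := by
      have : d ≠ 0 := by omega
      exact_mod_cast this
    unfold selLam
    have h2 : ∑ m ∈ sqf D, (if d ∣ m then (ArithmeticFunction.moebius d : ℝ) else 0) *
        ((1 : ℝ) / Nat.totient m / selG D) =
        ∑ m ∈ (sqf D).filter (fun m => d ∣ m), (ArithmeticFunction.moebius d : ℝ) *
          ((1 : ℝ) / Nat.totient m / selG D) := by
      rw [Finset.sum_filter]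
      apply Finset.sum_congr rfl
      intro m _
      split_ifs <;> simp
    rw [h2, ← Finset.mul_sum, ← Finset.sum_div]
    field_simp
  rw [Finset.sum_congr rfl h1, Finset.sum_comm]
  simp_rw [← Finset.sum_mul]
  have h3 : ∀ m ∈ sqf D,
      (∑ d ∈ (Icc 1 D).filter (fun d => l ∣ d),
        (if d ∣ m then (ArithmeticFunction.moebius d : ℝ) else 0)) *
          ((1 : ℝ) / Nat.totient m / selG D) =
      if m = l then (ArithmeticFunction.moebius l : ℝ) / (Nat.totient l * selG D) else 0 := by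
    intro m hm
    rw [mem_sqf] at hm
    rw [sum_moebius_between hm.2 hm.1.2]
    split_ifs with h
    · subst h
      rw [one_div, div_eq_mul_inv, div_eq_mul_inv, mul_inv]
    · simp
  rw [Finset.sum_congr rfl h3, Finset.sum_ite_eq']

/-- the main quadratic form inequality for the Selberg weights -/
theorem selLam_quadForm {D : ℕ} (hD : 1 ≤ D) :
    ∑ d₁ ∈ Icc 1 D, ∑ d₂ ∈ Icc 1 D, selLam D d₁ * selLam D d₂ / (Nat.lcm d₁ d₂ : ℝ)
      = 1 / selG D := by
  classical
  have hG := selG_pos hD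
  have h1 : ∀ d₁ ∈ Icc 1 D, ∀ d₂ ∈ Icc 1 D, selLam D d₁ * selLam D d₂ / (Nat.lcm d₁ d₂ : ℝ) =
      ∑ l ∈ Icc 1 D, (Nat.totient l : ℝ) * ((if l ∣ d₁ then selLam D d₁ / d₁ else 0) *
        (if l ∣ d₂ then selLam D d₂ / d₂ else 0)) := by
    intro d₁ hd₁ d₂ hd₂
    rw [mem_Icc] at hd₁ hd₂
    have hg : (Nat.gcd d₁ d₂ : ℝ) = ∑ l ∈ (Icc 1 D).filter (fun l => l ∣ d₁ ∧ l ∣ d₂),
        (Nat.totient l : ℝ) := by
      have hset : (Nat.gcd d₁ d₂).divisors = (Icc 1 D).filter (fun l => l ∣ d₁ ∧ l ∣ d₂) := by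
        ext l
        simp only [Nat.mem_divisors, mem_filter, mem_Icc, Nat.dvd_gcd_iff]
        constructor
        · rintro ⟨⟨h1, h2⟩, _⟩
          have hl0 : 0 < l := Nat.pos_of_dvd_of_pos h1 (by omega)
          exact ⟨⟨hl0, (Nat.le_of_dvd (by omega) h1).trans hd₁.2⟩, h1, h2⟩
        · rintro ⟨_, h1, h2⟩
          refine ⟨⟨h1, h2⟩, ?_⟩
          exact Nat.gcd_ne_zero_left (by omega)
      rw [← hset]
      exact_mod_cast (Nat.sum_totient (Nat.gcd d₁ d₂)).symm
    have hd10 : (d₁ : ℝ) ≠ 0 := by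
      have : d₁ ≠ 0 := by omega
      exact_mod_cast this
    have hd20 : (d₂ : ℝ) ≠ 0 := by
      have : d₂ ≠ 0 := by omega
      exact_mod_cast this
    have hlcm : (Nat.gcd d₁ d₂ : ℝ) * (Nat.lcm d₁ d₂ : ℝ) = d₁ * d₂ := by
      exact_mod_cast Nat.gcd_mul_lcm d₁ d₂
    have hl0 : (Nat.lcm d₁ d₂ : ℝ) ≠ 0 := by
      intro h
      rw [h, mul_zero] at hlcm
      exact mul_ne_zero hd10 hd20 hlcm.symm
    have e1 : selLam D d₁ * selLam D d₂ / (Nat.lcm d₁ d₂ : ℝ) =
        (selLam D d₁ / d₁) * (selLam D d₂ / d₂) * (Nat.gcd d₁ d₂ : ℝ) := by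
      have e2 : (Nat.gcd d₁ d₂ : ℝ) = d₁ * d₂ / (Nat.lcm d₁ d₂ : ℝ) := by
        rw [← hlcm, mul_div_assoc, div_self hl0, mul_one]
      rw [e2]
      field_simp
    rw [e1, hg, Finset.mul_sum, Finset.sum_filter]
    apply Finset.sum_congr rfl
    intro l _
    by_cases a : l ∣ d₁ <;> by_cases b : l ∣ d₂ <;> simp [a, b] <;> ring
  rw [Finset.sum_congr rfl (fun d₁ h => Finset.sum_congr rfl (h1 d₁ h))]
  have h2 : ∑ d₁ ∈ Icc 1 D, ∑ d₂ ∈ Icc 1 D, ∑ l ∈ Icc 1 D, (Nat.totient l : ℝ) *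
      ((if l ∣ d₁ then selLam D d₁ / d₁ else 0) * (if l ∣ d₂ then selLam D d₂ / d₂ else 0)) =
      ∑ l ∈ Icc 1 D, (Nat.totient l : ℝ) *
        (∑ d ∈ (Icc 1 D).filter (fun d => l ∣ d), selLam D d / d) ^ 2 := by
    have hA : ∀ l, ∑ d ∈ (Icc 1 D).filter (fun d => l ∣ d), selLam D d / d =
        ∑ d ∈ Icc 1 D, (if l ∣ d then selLam D d / d else 0) := fun l => Finset.sum_filter _ _
    simp_rw [hA]
    calc ∑ d₁ ∈ Icc 1 D, ∑ d₂ ∈ Icc 1 D, ∑ l ∈ Icc 1 D, (Nat.totient l : ℝ) *
          ((if l ∣ d₁ then selLam D d₁ / d₁ else 0) * (if l ∣ d₂ then selLam D d₂ / d₂ else 0))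
        = ∑ d₁ ∈ Icc 1 D, ∑ l ∈ Icc 1 D, ∑ d₂ ∈ Icc 1 D, (Nat.totient l : ℝ) *
          ((if l ∣ d₁ then selLam D d₁ / d₁ else 0) *
            (if l ∣ d₂ then selLam D d₂ / d₂ else 0)) := by
          apply Finset.sum_congr rfl
          intro d₁ _
          exact Finset.sum_comm
      _ = ∑ l ∈ Icc 1 D, ∑ d₁ ∈ Icc 1 D, ∑ d₂ ∈ Icc 1 D, (Nat.totient l : ℝ) *
          ((if l ∣ d₁ then selLam D d₁ / d₁ else 0) *
            (if l ∣ d₂ then selLam D d₂ / d₂ else 0)) := Finset.sum_comm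
      _ = _ := by
          apply Finset.sum_congr rfl
          intro l _
          rw [sq, Finset.sum_mul_sum, Finset.mul_sum]
          apply Finset.sum_congr rfl
          intro d₁ _
          rw [Finset.mul_sum]
  rw [h2]
  simp_rw [sum_selLam_div]
  have h3 : ∀ l ∈ Icc 1 D, (Nat.totient l : ℝ) *
      (if l ∈ sqf D then (ArithmeticFunction.moebius l : ℝ) / (Nat.totient l * selG D) else 0) ^ 2 =
      if Squarefree l then (1 : ℝ) / Nat.totient l / (selG D) ^ 2 else 0 := by
    intro l hl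
    rw [mem_Icc] at hl
    by_cases hs : Squarefree l
    · have hm : l ∈ sqf D := mem_sqf.mpr ⟨hl, hs⟩
      rw [if_pos hm, if_pos hs]
      have hmu : (ArithmeticFunction.moebius l : ℝ) ^ 2 = 1 := by
        have := ArithmeticFunction.moebius_sq_eq_one_of_squarefree hs
        exact_mod_cast this
      have ht := totient_pos' hl.1
      rw [div_pow, hmu, mul_pow]
      field_simp
    · have hm : l ∉ sqf D := fun h => hs (mem_sqf.mp h).2
      rw [if_neg hm, if_neg hs]
      simp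
  rw [Finset.sum_congr rfl h3, ← Finset.sum_filter, ← Finset.sum_div]
  change selG D / selG D ^ 2 = _
  field_simp

/-- **Selberg weights** of level `D` (interface theorem). -/
theorem exists_selberg_weights (D : ℕ) (hD : 2 ≤ D) :
    ∃ lam : ℕ → ℝ, lam 1 = 1 ∧ (∀ d, |lam d| ≤ 1) ∧ (∀ d, D < d → lam d = 0) ∧
      (∀ d, ¬ Squarefree d → lam d = 0) ∧
      ∑ d₁ ∈ Icc 1 D, ∑ d₂ ∈ Icc 1 D, lam d₁ * lam d₂ / (Nat.lcm d₁ d₂ : ℝ)
        ≤ 1 / Real.log D := by
  have hlog : 0 < Real.log D := Real.log_pos (by exact_mod_cast (by omega : 1 < D))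
  refine ⟨selLam D, selLam_one (by omega), abs_selLam_le (by omega),
    fun d hd => selLam_eq_zero_of_lt hd, fun d hd => selLam_eq_zero_of_not_squarefree hd, ?_⟩
  rw [selLam_quadForm (by omega)]
  exact one_div_le_one_div_of_le hlog (selG_ge_log (by omega))

end Pool.Agent.MP_a187e6
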