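import Mathlib
import Pool.Agent.MP_a187e6.SelbergWeights

/-!
Consequences of the Selberg weights: sums of the nonnegative weight `(∑_{d ∣ n} λ_d)²` over
intervals, over multiples of a prime in intervals, and the upper bound sieve.
-/

namespace Pool.Agent.MP_a187e6

open Finset Real

/-- the nonnegative weight `(∑_{d ∣ n} λ_d)²` -/
noncomputable def selW (R n : ℕ) : ℝ := (∑ d ∈ n.divisors, selLam R d) ^ 2

lemma selW_nonneg (R n : ℕ) : 0 ≤ selW R n := sq_nonneg _

lemma sum_divisors_selLam (R : ℕ) {n : ℕ} (hn : n ≠ 0) :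
    ∑ d ∈ n.divisors, selLam R d = ∑ d ∈ Icc 1 R, if d ∣ n then selLam R d else 0 := by
  rw [← Finset.sum_filter]
  symm
  apply Finset.sum_subset
  · intro d hd
    rw [mem_filter] at hd
    rw [Nat.mem_divisors]
    exact ⟨hd.2, hn⟩
  · intro d hd hd'
    rw [Nat.mem_divisors] at hd
    apply selLam_eq_zero_of_lt
    by_contra hlt
    apply hd'
    rw [mem_filter, mem_Icc]
    exact ⟨⟨Nat.pos_of_dvd_of_pos hd.1 (Nat.pos_of_ne_zero hn), by omega⟩, hd.1⟩

lemma selW_eq (R : ℕ) {n : ℕ} (hn : n ≠ 0) :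
    selW R n = ∑ d₁ ∈ Icc 1 R, ∑ d₂ ∈ Icc 1 R,
      selLam R d₁ * selLam R d₂ * (if Nat.lcm d₁ d₂ ∣ n then 1 else 0) := by
  unfold selW
  rw [sum_divisors_selLam R hn, sq, Finset.sum_mul_sum]
  apply Finset.sum_congr rfl
  intro d₁ _
  apply Finset.sum_congr rfl
  intro d₂ _
  by_cases h₁ : d₁ ∣ n <;> by_cases h₂ : d₂ ∣ n
  · rw [if_pos h₁, if_pos h₂, if_pos (Nat.lcm_dvd h₁ h₂), mul_one]
  · have : ¬ Nat.lcm d₁ d₂ ∣ n := fun h => h₂ ((Nat.dvd_lcm_right _ _).trans h)
    rw [if_neg h₂, if_neg this, mul_zero, mul_zero]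
  · have : ¬ Nat.lcm d₁ d₂ ∣ n := fun h => h₁ ((Nat.dvd_lcm_left _ _).trans h)
    rw [if_neg h₁, if_neg this, mul_zero, zero_mul]
  · have : ¬ Nat.lcm d₁ d₂ ∣ n := fun h => h₁ ((Nat.dvd_lcm_left _ _).trans h)
    rw [if_neg h₁, if_neg this, mul_zero, zero_mul]

/-- number of multiples of `D` in an interval of length `N` -/
lemma abs_count_dvd_sub_le {D : ℕ} (hD : 0 < D) (a N : ℕ) :
    |(((Ico a (a + N)).filter (fun n => D ∣ n)).card : ℝ) - N / D| ≤ 1 := by
  have h := Nat.Ico_filter_modEq_card a (a + N) hD 0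
  have hset : (Ico a (a + N)).filter (fun x => x ≡ 0 [MOD D]) =
      (Ico a (a + N)).filter (fun n => D ∣ n) := by
    apply Finset.filter_congr
    intro x _
    exact Nat.modEq_zero_iff_dvd
  rw [hset] at h
  have hDq : (0 : ℚ) < D := by exact_mod_cast hD
  have hmono : ⌈((a : ℚ) - (0 : ℕ)) / (D : ℚ)⌉ ≤ ⌈(((a + N : ℕ) : ℚ) - (0 : ℕ)) / (D : ℚ)⌉ := by
    apply Int.ceil_le_ceil
    push_cast
    gcongr
    simp
  rw [max_eq_left (sub_nonneg.mpr hmono)] at h
  set A := ⌈((a : ℚ) - (0 : ℕ)) / (D : ℚ)⌉ with hA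
  set B := ⌈(((a + N : ℕ) : ℚ) - (0 : ℕ)) / (D : ℚ)⌉ with hB
  have a1 := Int.le_ceil (((a : ℚ) - (0 : ℕ)) / (D : ℚ))
  have a2 := Int.ceil_lt_add_one (((a : ℚ) - (0 : ℕ)) / (D : ℚ))
  have b1 := Int.le_ceil ((((a + N : ℕ) : ℚ) - (0 : ℕ)) / (D : ℚ))
  have b2 := Int.ceil_lt_add_one ((((a + N : ℕ) : ℚ) - (0 : ℕ)) / (D : ℚ))
  rw [← hA] at a1 a2
  rw [← hB] at b1 b2
  have hq : |((((Ico a (a + N)).filter (fun n => D ∣ n)).card : ℚ)) - N / D| ≤ 1 := by
    have h' : ((((Ico a (a + N)).filter (fun n => D ∣ n)).card : ℚ)) = (B : ℚ) - A := by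
      exact_mod_cast congrArg (fun z : ℤ => (z : ℚ)) h
    rw [h', abs_le]
    push_cast at a1 a2 b1 b2
    have e : ((a : ℚ) + N - 0) / D = (a - 0) / D + N / D := by ring
    rw [e] at b1 b2
    constructor <;> linarith
  have := (Rat.cast_le (K := ℝ)).mpr hq
  push_cast at this
  simpa using this

lemma sum_abs_selLam_mul_le {R : ℕ} (hR : 1 ≤ R) :
    ∑ d₁ ∈ Icc 1 R, ∑ d₂ ∈ Icc 1 R, |selLam R d₁ * selLam R d₂| ≤ (R : ℝ) ^ 2 := by
  have h : ∀ d₁ ∈ Icc 1 R, ∑ d₂ ∈ Icc 1 R, |selLam R d₁ * selLam R d₂| ≤ (R : ℝ) := by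
    intro d₁ _
    calc ∑ d₂ ∈ Icc 1 R, |selLam R d₁ * selLam R d₂| ≤ ∑ d₂ ∈ Icc 1 R, (1 : ℝ) := by
          apply Finset.sum_le_sum
          intro d₂ _
          rw [abs_mul]
          exact mul_le_one₀ (abs_selLam_le hR d₁) (abs_nonneg _) (abs_selLam_le hR d₂)
      _ = R := by simp
  calc ∑ d₁ ∈ Icc 1 R, ∑ d₂ ∈ Icc 1 R, |selLam R d₁ * selLam R d₂| ≤ ∑ d₁ ∈ Icc 1 R, (R : ℝ) :=
        Finset.sum_le_sum h
    _ = (R : ℝ) ^ 2 := by simp [sq]

theorem abs_sum_selW_sub_le {R : ℕ} (hR : 1 ≤ R) (a N : ℕ) (ha : 1 ≤ a) :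
    |∑ n ∈ Finset.Ico a (a + N), selW R n - N / selG R| ≤ (R : ℝ) ^ 2 := by
  have h1 : ∑ n ∈ Finset.Ico a (a + N), selW R n = ∑ d₁ ∈ Icc 1 R, ∑ d₂ ∈ Icc 1 R,
      selLam R d₁ * selLam R d₂ *
        (((Ico a (a + N)).filter (fun n => Nat.lcm d₁ d₂ ∣ n)).card : ℝ) := by
    have : ∀ n ∈ Finset.Ico a (a + N), selW R n = ∑ d₁ ∈ Icc 1 R, ∑ d₂ ∈ Icc 1 R,
        selLam R d₁ * selLam R d₂ * (if Nat.lcm d₁ d₂ ∣ n then 1 else 0) := by
      intro n hn
      rw [mem_Ico] at hn
      exact selW_eq R (by omega)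
    rw [Finset.sum_congr rfl this, Finset.sum_comm]
    apply Finset.sum_congr rfl
    intro d₁ _
    rw [Finset.sum_comm]
    apply Finset.sum_congr rfl
    intro d₂ _
    rw [← Finset.mul_sum, Finset.sum_boole]
  have h2 : (N : ℝ) / selG R = ∑ d₁ ∈ Icc 1 R, ∑ d₂ ∈ Icc 1 R,
      selLam R d₁ * selLam R d₂ * (N / (Nat.lcm d₁ d₂ : ℝ)) := by
    rw [div_eq_mul_one_div, ← selLam_quadForm hR, Finset.mul_sum]
    apply Finset.sum_congr rfl
    intro d₁ _
    rw [Finset.mul_sum]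
    apply Finset.sum_congr rfl
    intro d₂ _
    ring
  rw [h1, h2, ← Finset.sum_sub_distrib]
  refine le_trans (Finset.abs_sum_le_sum_abs _ _) (le_trans ?_ (sum_abs_selLam_mul_le hR))
  apply Finset.sum_le_sum
  intro d₁ hd₁
  rw [← Finset.sum_sub_distrib]
  refine le_trans (Finset.abs_sum_le_sum_abs _ _) ?_
  apply Finset.sum_le_sum
  intro d₂ hd₂
  rw [mem_Icc] at hd₁ hd₂
  rw [← mul_sub, abs_mul]
  have hl : 0 < Nat.lcm d₁ d₂ := Nat.lcm_pos (by omega) (by omega)
  have := abs_count_dvd_sub_le hl a N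
  calc |selLam R d₁ * selLam R d₂| * _ ≤ |selLam R d₁ * selLam R d₂| * 1 :=
        mul_le_mul_of_nonneg_left this (abs_nonneg _)
    _ = _ := mul_one _

/-- upper bound sieve -/
theorem sieve_bound {R : ℕ} (hR : 2 ≤ R) (a N : ℕ) (ha : 1 ≤ a) (s : Finset ℕ)
    (hs : s ⊆ Finset.Ico a (a + N)) (h : ∀ n ∈ s, ∀ p : ℕ, p.Prime → p ≤ R → ¬ p ∣ n) :
    (s.card : ℝ) ≤ N / Real.log R + (R : ℝ) ^ 2 := by
  have hlog : 0 < Real.log R := Real.log_pos (by exact_mod_cast (by omega : 1 < R))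
  have hW : ∀ n ∈ s, selW R n = 1 := by
    intro n hn
    have hn1 : n ≠ 0 := by
      have := hs hn
      rw [mem_Ico] at this
      omega
    unfold selW
    rw [Finset.sum_eq_single_of_mem 1 (Nat.one_mem_divisors.mpr hn1)]
    · rw [selLam_one (by omega), one_pow]
    · intro d hd hd1
      rw [Nat.mem_divisors] at hd
      by_cases hle : R < d
      · exact selLam_eq_zero_of_lt hle
      · exfalso
        obtain ⟨p, hp, hpd⟩ := Nat.exists_prime_and_dvd hd1
        have hd0 : 0 < d := Nat.pos_of_dvd_of_pos hd.1 (Nat.pos_of_ne_zero hn1)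
        exact h n hn p hp ((Nat.le_of_dvd hd0 hpd).trans (by omega)) (hpd.trans hd.1)
  have h1 : (s.card : ℝ) = ∑ n ∈ s, selW R n := by
    rw [Finset.sum_congr rfl hW]
    simp
  rw [h1]
  have h2 : ∑ n ∈ s, selW R n ≤ ∑ n ∈ Finset.Ico a (a + N), selW R n :=
    Finset.sum_le_sum_of_subset_of_nonneg hs (fun n _ _ => selW_nonneg R n)
  have h3 := (abs_le.mp (abs_sum_selW_sub_le (by omega : 1 ≤ R) a N ha)).2
  have h4 : (N : ℝ) / selG R ≤ N / Real.log R :=
    div_le_div_of_nonneg_left (by positivity) hlog (selG_ge_log (by omega))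
  linarith

/-! ### Sums of `1/φ` -/

lemma sum_Icc_inv_le {a b : ℕ} (ha : 1 ≤ a) (hab : a ≤ b) :
    ∑ k ∈ Icc a b, (1 : ℝ) / k ≤ 1 + Real.log b - Real.log a := by
  induction b, hab using Nat.le_induction with
  | base =>
    rw [Finset.Icc_self, Finset.sum_singleton]
    have : (1 : ℝ) / a ≤ 1 := by
      rw [div_le_one (by exact_mod_cast ha)]
      exact_mod_cast ha
    linarith
  | succ b hab ih =>
    rw [← Finset.insert_Icc_right_eq_Icc_add_one (by omega : a ≤ b + 1)]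
    rw [Finset.sum_insert (by simp)]
    have hb : (0 : ℝ) < b := by exact_mod_cast (by omega : 0 < b)
    have hb1 : (0 : ℝ) < (b : ℝ) + 1 := by positivity
    have h1 : (1 : ℝ) / ((b + 1 : ℕ) : ℝ) ≤ Real.log ((b + 1 : ℕ) : ℝ) - Real.log b := by
      have h2 := Real.log_le_sub_one_of_pos (x := (b : ℝ) / (b + 1)) (by positivity)
      rw [Real.log_div hb.ne' hb1.ne'] at h2
      have h3 : (b : ℝ) / (b + 1) - 1 = - (1 / (b + 1)) := by
        field_simp
        ring
      rw [h3] at h2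
      push_cast
      linarith
    linarith

lemma sum_inv_le_of_ratio (s : Finset ℕ) (x p : ℝ) (hp : 1 ≤ p) (_hx : 0 < x)
    (hs : ∀ k ∈ s, 1 ≤ k ∧ (k : ℝ) ≤ x ∧ x < p * k) :
    ∑ k ∈ s, (1 : ℝ) / k ≤ 1 + Real.log p := by
  rcases s.eq_empty_or_nonempty with rfl | hne
  · simp
    have := Real.log_nonneg hp
    linarith
  · set a := s.min' hne
    set b := s.max' hne
    have ha := hs a (Finset.min'_mem s hne)
    have hb := hs b (Finset.max'_mem s hne)
    have hab : a ≤ b := Finset.min'_le_max' s hne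
    have hsub : s ⊆ Icc a b := by
      intro k hk
      rw [mem_Icc]
      exact ⟨Finset.min'_le s k hk, Finset.le_max' s k hk⟩
    refine le_trans (Finset.sum_le_sum_of_subset_of_nonneg hsub
      (fun k _ _ => by positivity)) (le_trans (sum_Icc_inv_le ha.1 hab) ?_)
    have ha0 : (0 : ℝ) < a := by exact_mod_cast ha.1
    have hb0 : (0 : ℝ) < b := by exact_mod_cast hb.1
    have : Real.log b ≤ Real.log (p * a) := by
      apply Real.log_le_log hb0
      linarith [hb.2.1, ha.2.2]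
    rw [Real.log_mul (by linarith) ha0.ne'] at this
    linarith

lemma inv_mul_totient_eq {e : ℕ} (he : Squarefree e) :
    (1 : ℝ) / (e * Nat.totient e) = ∏ p ∈ e.primeFactors, (1 : ℝ) / (p * (p - 1)) := by
  have h := Nat.totient_eq_mul_prod_factors e
  have h2 : (Nat.totient e : ℝ) = e * ∏ p ∈ e.primeFactors, (1 - (p : ℝ)⁻¹) := by
    have := congrArg (fun q : ℚ => (q : ℝ)) h
    push_cast at this
    exact this
  have h3 : (e : ℝ) = ∏ p ∈ e.primeFactors, (p : ℝ) := by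
    have := Nat.prod_primeFactors_of_squarefree he
    calc (e : ℝ) = ((∏ p ∈ e.primeFactors, p : ℕ) : ℝ) := by rw [this]
      _ = ∏ p ∈ e.primeFactors, (p : ℝ) := by push_cast; rfl
  have h4 : (e : ℝ) * Nat.totient e = ∏ p ∈ e.primeFactors, ((p : ℝ) * (p - 1)) := by
    rw [h2]
    conv_lhs => rw [h3]
    rw [← Finset.prod_mul_distrib, ← Finset.prod_mul_distrib]
    apply Finset.prod_congr rfl
    intro p hp
    have hp0 : (p : ℝ) ≠ 0 := by
      exact_mod_cast (Nat.prime_of_mem_primeFactors hp).ne_zero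
    field_simp
  rw [h4]
  rw [one_div, ← Finset.prod_inv_distrib]
  apply Finset.prod_congr rfl
  intro p _
  rw [one_div]

lemma sum_inv_mul_sub_one_le (R : ℕ) :
    ∑ n ∈ Icc 2 R, (1 : ℝ) / (n * (n - 1)) ≤ 1 := by
  have key : ∀ R : ℕ, 1 ≤ R → ∑ n ∈ Icc 2 R, (1 : ℝ) / (n * (n - 1)) = 1 - 1 / R := by
    intro R hR
    induction R, hR using Nat.le_induction with
    | base => simp
    | succ R hR ih =>
      rw [← Finset.insert_Icc_right_eq_Icc_add_one (by omega : 2 ≤ R + 1)]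
      rw [Finset.sum_insert (by simp), ih]
      have : (0 : ℝ) < R := by exact_mod_cast hR
      have hR0 : (R : ℝ) ≠ 0 := this.ne'
      push_cast
      rw [show (R : ℝ) + 1 - 1 = R by ring]
      field_simp
      ring
  rcases Nat.eq_zero_or_pos R with rfl | hR
  · simp
  · rw [key R hR]
    have : (0 : ℝ) ≤ 1 / R := by positivity
    linarith

lemma sum_inv_mul_totient_le (R : ℕ) :
    ∑ e ∈ sqf R, (1 : ℝ) / (e * Nat.totient e) ≤ Real.exp 1 := by
  classical
  set P := (Icc 1 R).filter Nat.Prime with hP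
  have hnn : ∀ p ∈ P, (0 : ℝ) ≤ 1 / ((p : ℝ) * (p - 1)) := by
    intro p hp
    rw [hP, mem_filter] at hp
    have : (1 : ℝ) ≤ p := by exact_mod_cast hp.2.one_lt.le
    have h2 : (0 : ℝ) ≤ (p : ℝ) - 1 := by linarith
    positivity
  have h1 : ∑ e ∈ sqf R, (1 : ℝ) / (e * Nat.totient e) ≤
      ∏ p ∈ P, (1 + (1 : ℝ) / (p * (p - 1))) := by
    rw [Finset.prod_one_add]
    have hinj : Set.InjOn Nat.primeFactors (sqf R : Set ℕ) := by
      intro a ha b hb hab
      have ha' := (mem_sqf.mp (Finset.mem_coe.mp ha)).2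
      have hb' := (mem_sqf.mp (Finset.mem_coe.mp hb)).2
      rw [← Nat.prod_primeFactors_of_squarefree ha', ← Nat.prod_primeFactors_of_squarefree hb',
        hab]
    have h2 : ∑ e ∈ sqf R, (1 : ℝ) / (e * Nat.totient e) =
        ∑ T ∈ (sqf R).image Nat.primeFactors, ∏ p ∈ T, (1 : ℝ) / (p * (p - 1)) := by
      rw [Finset.sum_image hinj]
      apply Finset.sum_congr rfl
      intro e he
      exact inv_mul_totient_eq (mem_sqf.mp he).2
    rw [h2]
    apply Finset.sum_le_sum_of_subset_of_nonneg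
    · intro T hT
      rw [mem_image] at hT
      obtain ⟨e, he, rfl⟩ := hT
      rw [mem_sqf] at he
      rw [mem_powerset]
      intro p hp
      have hpp := Nat.prime_of_mem_primeFactors hp
      rw [hP, mem_filter, mem_Icc]
      exact ⟨⟨hpp.one_lt.le, (Nat.le_of_dvd (by omega) (Nat.dvd_of_mem_primeFactors hp)).trans
        he.1.2⟩, hpp⟩
    · intro T hT _
      rw [mem_powerset] at hT
      exact Finset.prod_nonneg (fun p hp => hnn p (hT hp))
  refine le_trans h1 ?_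
  have h3 : ∏ p ∈ P, (1 + (1 : ℝ) / (p * (p - 1))) ≤
      ∏ p ∈ P, Real.exp ((1 : ℝ) / (p * (p - 1))) := by
    apply Finset.prod_le_prod
    · intro p hp
      have := hnn p hp
      linarith
    · intro p hp
      have := Real.add_one_le_exp ((1 : ℝ) / (p * (p - 1)))
      linarith
  refine le_trans h3 ?_
  rw [← Real.exp_sum]
  apply Real.exp_le_exp.mpr
  refine le_trans ?_ (sum_inv_mul_sub_one_le R)
  apply Finset.sum_le_sum_of_subset_of_nonneg
  · intro p hp
    rw [hP, mem_filter, mem_Icc] at hp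
    rw [mem_Icc]
    exact ⟨hp.2.two_le, hp.1.2⟩
  · intro n hn _
    rw [mem_Icc] at hn
    have : (2 : ℝ) ≤ n := by exact_mod_cast hn.1
    have h2 : (0 : ℝ) ≤ (n : ℝ) - 1 := by linarith
    positivity

/-- `∑_{R/p < r ≤ R} μ²(r)/φ(r) ≤ e (1 + log p)` -/
theorem sum_totient_le (R p : ℕ) (hp : 1 ≤ p) :
    ∑ r ∈ (sqf R).filter (fun r => R < p * r), (1 : ℝ) / (Nat.totient r)
      ≤ Real.exp 1 * (1 + Real.log p) := by
  classical
  have hlogp : 0 ≤ Real.log p := Real.log_nonneg (by exact_mod_cast hp)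
  have h1 : ∀ r ∈ (sqf R).filter (fun r => R < p * r), (1 : ℝ) / (Nat.totient r) =
      ∑ e ∈ sqf R, (if e ∣ r then (1 : ℝ) / Nat.totient e * (1 / r) else 0) := by
    intro r hr
    rw [mem_filter, mem_sqf] at hr
    have hr0 : (0 : ℝ) < r := by exact_mod_cast hr.1.1.1
    have ht := totient_pos' hr.1.1.1
    have h2 := sum_inv_totient hr.1.2
    have hset : (sqf R).filter (fun e => e ∣ r) = r.divisors := by
      ext e
      rw [mem_filter, mem_sqf, Nat.mem_divisors]
      constructor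
      · rintro ⟨_, h⟩
        exact ⟨h, by omega⟩
      · rintro ⟨h, _⟩
        exact ⟨⟨⟨Nat.pos_of_dvd_of_pos h (by omega), (Nat.le_of_dvd (by omega) h).trans
          hr.1.1.2⟩, hr.1.2.squarefree_of_dvd h⟩, h⟩
    rw [← Finset.sum_filter, hset, ← Finset.sum_mul, h2]
    field_simp
  rw [Finset.sum_congr rfl h1, Finset.sum_comm]
  have h2 : ∀ e ∈ sqf R, ∑ r ∈ (sqf R).filter (fun r => R < p * r),
      (if e ∣ r then (1 : ℝ) / Nat.totient e * (1 / r) else 0) ≤
      (1 : ℝ) / (e * Nat.totient e) * (1 + Real.log p) := by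
    intro e he
    rw [mem_sqf] at he
    have he0 : (0 : ℝ) < e := by exact_mod_cast he.1.1
    have hte := totient_pos' he.1.1
    rw [← Finset.sum_filter, Finset.filter_filter, ← Finset.mul_sum]
    set T := (sqf R).filter (fun r => R < p * r ∧ e ∣ r) with hT
    have hinj : Set.InjOn (fun r => r / e) (T : Set ℕ) := by
      intro a ha b hb hab
      rw [Finset.mem_coe, hT, mem_filter] at ha hb
      have h3 : a / e = b / e := hab
      rw [← Nat.div_mul_cancel ha.2.2, ← Nat.div_mul_cancel hb.2.2, h3]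
    have h3 : ∑ r ∈ T, (1 : ℝ) / r = (1 / e) * ∑ k ∈ T.image (fun r => r / e), (1 : ℝ) / k := by
      rw [Finset.sum_image hinj, Finset.mul_sum]
      apply Finset.sum_congr rfl
      intro r hr
      rw [hT, mem_filter] at hr
      have h4 : (r : ℝ) = ((r / e : ℕ) : ℝ) * e := by
        exact_mod_cast (Nat.div_mul_cancel hr.2.2).symm
      rw [h4]
      have h5 : ((r / e : ℕ) : ℝ) * e / e = ((r / e : ℕ) : ℝ) := by field_simp
      rw [one_div, mul_inv, one_div, one_div]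
      have h6 : ((r / e * e / e : ℕ)) = r / e := by
        rw [Nat.mul_div_cancel _ he.1.1]
      ring_nf
    have h4 : ∑ k ∈ T.image (fun r => r / e), (1 : ℝ) / k ≤ 1 + Real.log p := by
      apply sum_inv_le_of_ratio _ ((R : ℝ) / e) p (by exact_mod_cast hp)
      · have : (0 : ℝ) < R := by exact_mod_cast (by omega : 0 < R)
        positivity
      · intro k hk
        rw [mem_image] at hk
        obtain ⟨r, hr, rfl⟩ := hk
        rw [hT, mem_filter, mem_sqf] at hr
        have h5 : r / e * e = r := Nat.div_mul_cancel hr.2.2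
        have hk1 : 1 ≤ r / e := Nat.div_pos (Nat.le_of_dvd (by omega) hr.2.2) he.1.1
        have h5' : ((r / e : ℕ) : ℝ) * e = r := by exact_mod_cast h5
        refine ⟨hk1, ?_, ?_⟩
        · rw [le_div_iff₀ he0, h5']
          exact_mod_cast hr.1.1.2
        · rw [div_lt_iff₀ he0, mul_assoc, h5']
          exact_mod_cast hr.2.1
    rw [h3]
    calc (1 : ℝ) / Nat.totient e * (1 / e * ∑ k ∈ T.image (fun r => r / e), (1 : ℝ) / k)
        ≤ (1 : ℝ) / Nat.totient e * (1 / e * (1 + Real.log p)) := by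
          apply mul_le_mul_of_nonneg_left _ (by positivity)
          apply mul_le_mul_of_nonneg_left h4 (by positivity)
      _ = (1 : ℝ) / (e * Nat.totient e) * (1 + Real.log p) := by
          field_simp
  refine le_trans (Finset.sum_le_sum h2) ?_
  rw [← Finset.sum_mul]
  apply mul_le_mul_of_nonneg_right (sum_inv_mul_totient_le R) (by linarith)

/-- `∑_{A < r ≤ pA, r ≤ R} μ²(r)/φ(r) ≤ C (1 + log p)` (any absolute `C`) -/
theorem exists_const_sum_totient : ∃ C : ℝ, 0 < C ∧ ∀ R p : ℕ, 1 ≤ p →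
    ∑ r ∈ (sqf R).filter (fun r => R < p * r), (1 : ℝ) / (Nat.totient r) ≤ C * (1 + Real.log p) :=
  ⟨Real.exp 1, Real.exp_pos 1, sum_totient_le⟩

theorem exists_const_selG_le : ∃ C : ℝ, 0 < C ∧ ∀ R : ℕ, 1 ≤ R → selG R ≤ C * (1 + Real.log R) := by
  refine ⟨2 * Real.exp 1, by positivity, fun R hR => ?_⟩
  have h1 := sum_totient_le R (R + 1) (by omega)
  have h2 : (sqf R).filter (fun r => R < (R + 1) * r) = sqf R := by
    apply Finset.filter_true_of_mem
    intro r hr
    rw [mem_sqf] at hr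
    nlinarith [hr.1.1]
  rw [h2] at h1
  have hR0 : (0 : ℝ) < R := by exact_mod_cast hR
  have h3 : Real.log ((R + 1 : ℕ) : ℝ) ≤ 1 + Real.log R := by
    have : Real.log ((R + 1 : ℕ) : ℝ) ≤ Real.log (2 * R) := by
      apply Real.log_le_log (by positivity)
      push_cast
      have : (1 : ℝ) ≤ R := by exact_mod_cast hR
      linarith
    rw [Real.log_mul (by norm_num) hR0.ne'] at this
    have h4 : Real.log 2 ≤ 1 := by
      have := Real.log_two_lt_d9
      linarith
    linarith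
  have hlog : 0 ≤ Real.log R := Real.log_nonneg (by exact_mod_cast hR)
  calc selG R ≤ Real.exp 1 * (1 + Real.log ((R + 1 : ℕ) : ℝ)) := h1
    _ ≤ Real.exp 1 * (1 + (1 + Real.log R)) := by
        apply mul_le_mul_of_nonneg_left _ (Real.exp_pos 1).le
        linarith
    _ ≤ 2 * Real.exp 1 * (1 + Real.log R) := by
        nlinarith [Real.exp_pos 1]

/-! ### Weight of the multiples of a prime -/

/-- `d` without the prime `p` -/
def star (p d : ℕ) : ℕ := d / Nat.gcd d p

lemma star_pos {p d : ℕ} (hd : 0 < d) : 0 < star p d :=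
  Nat.div_pos (Nat.gcd_le_left p hd) (Nat.gcd_pos_of_pos_left p hd)

lemma star_mul (p d : ℕ) : star p d * p = Nat.lcm d p := by
  unfold star Nat.lcm
  exact Nat.div_mul_right_comm (Nat.gcd_dvd_left d p) p

lemma lcm_star (p d₁ d₂ : ℕ) :
    Nat.lcm (Nat.lcm d₁ d₂) p = p * Nat.lcm (star p d₁) (star p d₂) := by
  have h1 : Nat.lcm (Nat.lcm d₁ d₂) p = Nat.lcm (Nat.lcm d₁ p) (Nat.lcm d₂ p) := by
    apply Nat.dvd_antisymm
    · apply Nat.lcm_dvd
      · apply Nat.lcm_dvd
        · exact (Nat.dvd_lcm_left d₁ p).trans (Nat.dvd_lcm_left _ _)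
        · exact (Nat.dvd_lcm_left d₂ p).trans (Nat.dvd_lcm_right _ _)
      · exact (Nat.dvd_lcm_right d₁ p).trans (Nat.dvd_lcm_left _ _)
    · apply Nat.lcm_dvd
      · apply Nat.lcm_dvd
        · exact (Nat.dvd_lcm_left d₁ d₂).trans (Nat.dvd_lcm_left _ _)
        · exact Nat.dvd_lcm_right _ _
      · apply Nat.lcm_dvd
        · exact (Nat.dvd_lcm_right d₁ d₂).trans (Nat.dvd_lcm_left _ _)
        · exact Nat.dvd_lcm_right _ _
  rw [h1, ← star_mul p d₁, ← star_mul p d₂, Nat.lcm_mul_right, mul_comm]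

lemma star_eq_of_not_dvd {p d : ℕ} (hp : p.Prime) (h : ¬ p ∣ d) : star p d = d := by
  unfold star
  have : Nat.gcd d p = 1 := by
    rw [Nat.gcd_comm]
    exact (Nat.Prime.coprime_iff_not_dvd hp).mpr h
  rw [this, Nat.div_one]

lemma star_mul_of_dvd {p d : ℕ} (h : p ∣ d) : star p d * p = d := by
  unfold star
  rw [Nat.gcd_eq_right h]
  exact Nat.div_mul_cancel h

/-- the diagonal coordinates for the multiples of `p` -/
lemma sum_selLam_star {R p r : ℕ} (hp : p.Prime) (hr : 1 ≤ r) (hrR : r ≤ R) (hR : 1 ≤ R) :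
    ∑ d ∈ Icc 1 R, (if r ∣ star p d then selLam R d / (star p d : ℝ) else 0) =
      if r ∈ sqf R ∧ ¬ p ∣ r ∧ R < p * r
        then (ArithmeticFunction.moebius r : ℝ) / (Nat.totient r * selG R) else 0 := by
  classical
  have hG := selG_pos hR
  have hp1 : (1 : ℝ) < p := by exact_mod_cast hp.one_lt
  by_cases hpr : p ∣ r
  · rw [if_neg (by tauto)]
    apply Finset.sum_eq_zero
    intro d hd
    rw [mem_Icc] at hd
    split_ifs with h
    · by_cases hsq : Squarefree d
      · exfalso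
        have h1 : p ∣ star p d := hpr.trans h
        have h2 : p ∣ d := h1.trans (by
          unfold star
          exact Nat.div_dvd_of_dvd (Nat.gcd_dvd_left d p))
        have h3 := star_mul_of_dvd h2
        obtain ⟨c, hc⟩ := h1
        rw [hc] at h3
        have h4 : p * p ∣ d := ⟨c, by rw [← h3]; ring⟩
        have := hsq p h4
        exact hp.one_lt.ne' (Nat.isUnit_iff.mp this)
      · rw [selLam_eq_zero_of_not_squarefree hsq, zero_div]
    · rfl
  · have hcop : Nat.Coprime r p := ((Nat.Prime.coprime_iff_not_dvd hp).mpr hpr).symm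
    have h1 : ∀ d ∈ Icc 1 R, (if r ∣ star p d then selLam R d / (star p d : ℝ) else 0) =
        (if r ∣ d then selLam R d / (d : ℝ) else 0) +
          (p - 1) * (if r * p ∣ d then selLam R d / (d : ℝ) else 0) := by
      intro d hd
      rw [mem_Icc] at hd
      by_cases hpd : p ∣ d
      · have h2 := star_mul_of_dvd hpd
        have h2' : ((star p d : ℕ) : ℝ) * p = d := by exact_mod_cast h2
        have hs0 : ((star p d : ℕ) : ℝ) ≠ 0 := by
          have := star_pos (p := p) (by omega : 0 < d)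
          exact_mod_cast this.ne'
        have e1 : (r ∣ star p d) ↔ r ∣ d := by
          conv_rhs => rw [← h2]
          exact (Nat.Coprime.dvd_mul_right hcop).symm
        have e2 : (r * p ∣ d) ↔ r ∣ star p d := by
          conv_lhs => rw [← h2]
          exact Nat.mul_dvd_mul_iff_right hp.pos
        by_cases h3 : r ∣ star p d
        · rw [if_pos h3, if_pos (e1.mp h3), if_pos (e2.mpr h3), ← h2']
          have hp0 : (p : ℝ) ≠ 0 := by positivity
          field_simp
          ring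
        · rw [if_neg h3, if_neg (fun h => h3 (e1.mpr h)), if_neg (fun h => h3 (e2.mp h))]
          ring
      · rw [star_eq_of_not_dvd hp hpd]
        have : ¬ r * p ∣ d := fun h => hpd ((Dvd.intro_left r rfl).trans h)
        rw [if_neg this]
        ring
    rw [Finset.sum_congr rfl h1, Finset.sum_add_distrib, ← Finset.mul_sum, ← Finset.sum_filter,
      ← Finset.sum_filter, sum_selLam_div, sum_selLam_div]
    by_cases hsq : Squarefree r
    · have hmem : r ∈ sqf R := mem_sqf.mpr ⟨⟨hr, hrR⟩, hsq⟩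
      rw [if_pos hmem]
      by_cases hlt : R < p * r
      · have : r * p ∉ sqf R := by
          intro h
          have := (mem_sqf.mp h).1.2
          rw [mul_comm] at this
          omega
        rw [if_neg this, if_pos ⟨hmem, hpr, hlt⟩]
        ring
      · have hmem2 : r * p ∈ sqf R := by
          rw [mem_sqf]
          refine ⟨⟨Nat.mul_pos hr hp.pos, by rw [mul_comm]; omega⟩, ?_⟩
          exact (Nat.squarefree_mul hcop).mpr ⟨hsq, hp.squarefree⟩
        rw [if_pos hmem2, if_neg (by tauto)]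
        have hmu : (ArithmeticFunction.moebius (r * p) : ℝ) =
            - (ArithmeticFunction.moebius r : ℝ) := by
          rw [ArithmeticFunction.isMultiplicative_moebius.map_mul_of_coprime hcop,
            ArithmeticFunction.moebius_apply_prime hp]
          push_cast
          ring
        have hphi : (Nat.totient (r * p) : ℝ) = Nat.totient r * (p - 1) := by
          rw [Nat.totient_mul hcop, Nat.totient_prime hp]
          push_cast [Nat.cast_sub hp.one_lt.le]
          ring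
        rw [hmu, hphi]
        have h5 : (p : ℝ) - 1 ≠ 0 := by linarith
        have h6 := (totient_pos' hr).ne'
        field_simp
        ring
    · have h2 : r ∉ sqf R := fun h => hsq (mem_sqf.mp h).2
      have h3 : r * p ∉ sqf R := fun h =>
        hsq ((mem_sqf.mp h).2.squarefree_of_dvd (Dvd.intro p rfl))
      rw [if_neg h2, if_neg h3, if_neg (by tauto)]
      ring

/-- the quadratic form over the multiples of `p` -/
lemma quadForm_dvd_le {R p : ℕ} (hR : 1 ≤ R) (hp : p.Prime) :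
    ∑ d₁ ∈ Icc 1 R, ∑ d₂ ∈ Icc 1 R,
      selLam R d₁ * selLam R d₂ / (Nat.lcm (Nat.lcm d₁ d₂) p : ℝ)
      ≤ 1 / (p * (selG R) ^ 2) *
          (∑ r ∈ (sqf R).filter (fun r => R < p * r), (1 : ℝ) / (Nat.totient r)) := by
  classical
  have hG := selG_pos hR
  have hp0 : (0 : ℝ) < p := by exact_mod_cast hp.pos
  have h1 : ∀ d₁ ∈ Icc 1 R, ∀ d₂ ∈ Icc 1 R,
      selLam R d₁ * selLam R d₂ / (Nat.lcm (Nat.lcm d₁ d₂) p : ℝ) =
      (1 / p) * ∑ r ∈ Icc 1 R, (Nat.totient r : ℝ) *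
        ((if r ∣ star p d₁ then selLam R d₁ / (star p d₁ : ℝ) else 0) *
        (if r ∣ star p d₂ then selLam R d₂ / (star p d₂ : ℝ) else 0)) := by
    intro d₁ hd₁ d₂ hd₂
    rw [mem_Icc] at hd₁ hd₂
    have s1 := star_pos (p := p) (by omega : 0 < d₁)
    have s2 := star_pos (p := p) (by omega : 0 < d₂)
    have l1 : star p d₁ ≤ R := (Nat.div_le_self _ _).trans hd₁.2
    set a := star p d₁ with ha
    set b := star p d₂ with hb
    have hg : (Nat.gcd a b : ℝ) = ∑ r ∈ (Icc 1 R).filter (fun r => r ∣ a ∧ r ∣ b),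
        (Nat.totient r : ℝ) := by
      have hset : (Nat.gcd a b).divisors = (Icc 1 R).filter (fun r => r ∣ a ∧ r ∣ b) := by
        ext r
        simp only [Nat.mem_divisors, mem_filter, mem_Icc, Nat.dvd_gcd_iff]
        constructor
        · rintro ⟨⟨h1, h2⟩, _⟩
          have hl0 : 0 < r := Nat.pos_of_dvd_of_pos h1 s1
          exact ⟨⟨hl0, (Nat.le_of_dvd s1 h1).trans l1⟩, h1, h2⟩
        · rintro ⟨_, h1, h2⟩
          exact ⟨⟨h1, h2⟩, Nat.gcd_ne_zero_left s1.ne'⟩
      rw [← hset]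
      exact_mod_cast (Nat.sum_totient (Nat.gcd a b)).symm
    have ha0 : (a : ℝ) ≠ 0 := by exact_mod_cast s1.ne'
    have hb0 : (b : ℝ) ≠ 0 := by exact_mod_cast s2.ne'
    have hlcm : (Nat.gcd a b : ℝ) * (Nat.lcm a b : ℝ) = a * b := by
      exact_mod_cast Nat.gcd_mul_lcm a b
    have hl0 : (Nat.lcm a b : ℝ) ≠ 0 := by
      intro h
      rw [h, mul_zero] at hlcm
      exact mul_ne_zero ha0 hb0 hlcm.symm
    have e0 : (Nat.lcm (Nat.lcm d₁ d₂) p : ℝ) = p * (Nat.lcm a b : ℝ) := by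
      rw [lcm_star]
      push_cast
      rfl
    have e1 : selLam R d₁ * selLam R d₂ / (Nat.lcm (Nat.lcm d₁ d₂) p : ℝ) =
        (1 / p) * ((selLam R d₁ / a) * (selLam R d₂ / b) * (Nat.gcd a b : ℝ)) := by
      have e2 : (Nat.gcd a b : ℝ) = a * b / (Nat.lcm a b : ℝ) := by
        rw [← hlcm, mul_div_assoc, div_self hl0, mul_one]
      rw [e0, e2]
      field_simp
    rw [e1, hg, Finset.mul_sum, Finset.sum_filter]
    congr 1
    apply Finset.sum_congr rfl
    intro l _
    by_cases x : l ∣ a <;> by_cases y : l ∣ b <;> simp [x, y]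
    ring
  rw [Finset.sum_congr rfl (fun d₁ h => Finset.sum_congr rfl (h1 d₁ h))]
  have h2 : ∑ d₁ ∈ Icc 1 R, ∑ d₂ ∈ Icc 1 R, (1 / (p : ℝ)) * ∑ r ∈ Icc 1 R, (Nat.totient r : ℝ) *
      ((if r ∣ star p d₁ then selLam R d₁ / (star p d₁ : ℝ) else 0) *
        (if r ∣ star p d₂ then selLam R d₂ / (star p d₂ : ℝ) else 0)) =
      (1 / (p : ℝ)) * ∑ r ∈ Icc 1 R, (Nat.totient r : ℝ) *
        (∑ d ∈ Icc 1 R, (if r ∣ star p d then selLam R d / (star p d : ℝ) else 0)) ^ 2 := by
    simp_rw [← Finset.mul_sum]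
    congr 1
    calc ∑ d₁ ∈ Icc 1 R, ∑ d₂ ∈ Icc 1 R, ∑ r ∈ Icc 1 R, (Nat.totient r : ℝ) *
          ((if r ∣ star p d₁ then selLam R d₁ / (star p d₁ : ℝ) else 0) *
            (if r ∣ star p d₂ then selLam R d₂ / (star p d₂ : ℝ) else 0))
        = ∑ d₁ ∈ Icc 1 R, ∑ r ∈ Icc 1 R, ∑ d₂ ∈ Icc 1 R, (Nat.totient r : ℝ) *
          ((if r ∣ star p d₁ then selLam R d₁ / (star p d₁ : ℝ) else 0) *
            (if r ∣ star p d₂ then selLam R d₂ / (star p d₂ : ℝ) else 0)) := by
          apply Finset.sum_congr rfl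
          intro d₁ _
          exact Finset.sum_comm
      _ = ∑ r ∈ Icc 1 R, ∑ d₁ ∈ Icc 1 R, ∑ d₂ ∈ Icc 1 R, (Nat.totient r : ℝ) *
          ((if r ∣ star p d₁ then selLam R d₁ / (star p d₁ : ℝ) else 0) *
            (if r ∣ star p d₂ then selLam R d₂ / (star p d₂ : ℝ) else 0)) := Finset.sum_comm
      _ = _ := by
          apply Finset.sum_congr rfl
          intro r _
          rw [sq, Finset.sum_mul_sum, Finset.mul_sum]
          apply Finset.sum_congr rfl
          intro d₁ _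
          rw [Finset.mul_sum]
  rw [h2]
  have h3 : ∀ r ∈ Icc 1 R, (Nat.totient r : ℝ) *
      (∑ d ∈ Icc 1 R, (if r ∣ star p d then selLam R d / (star p d : ℝ) else 0)) ^ 2 =
      if r ∈ sqf R ∧ ¬ p ∣ r ∧ R < p * r then (1 : ℝ) / Nat.totient r / (selG R) ^ 2 else 0 := by
    intro r hr
    rw [mem_Icc] at hr
    rw [sum_selLam_star hp hr.1 hr.2 hR]
    split_ifs with h
    · have hs := (mem_sqf.mp h.1).2
      have hmu : (ArithmeticFunction.moebius r : ℝ) ^ 2 = 1 := by
        have := ArithmeticFunction.moebius_sq_eq_one_of_squarefree hs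
        exact_mod_cast this
      have ht := totient_pos' hr.1
      rw [div_pow, hmu, mul_pow]
      field_simp
    · simp
  rw [Finset.sum_congr rfl h3, ← Finset.sum_filter]
  have h4 : ∑ r ∈ (Icc 1 R).filter (fun r => r ∈ sqf R ∧ ¬ p ∣ r ∧ R < p * r),
      (1 : ℝ) / Nat.totient r / (selG R) ^ 2 ≤
      ∑ r ∈ (sqf R).filter (fun r => R < p * r), (1 : ℝ) / Nat.totient r / (selG R) ^ 2 := by
    apply Finset.sum_le_sum_of_subset_of_nonneg
    · intro r hr
      rw [mem_filter] at hr ⊢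
      exact ⟨hr.2.1, hr.2.2.2⟩
    · intro r _ _
      positivity
  calc (1 / (p : ℝ)) * _ ≤ (1 / (p : ℝ)) *
        ∑ r ∈ (sqf R).filter (fun r => R < p * r), (1 : ℝ) / Nat.totient r / (selG R) ^ 2 :=
        mul_le_mul_of_nonneg_left h4 (by positivity)
    _ = _ := by
        rw [← Finset.sum_div]
        field_simp

/-- for a prime `p`: weight of the multiples of `p` -/
theorem sum_selW_dvd_le {R : ℕ} (hR : 1 ≤ R) (a N p : ℕ) (ha : 1 ≤ a) (hp : p.Prime) :
    ∑ n ∈ (Finset.Ico a (a + N)).filter (fun n => p ∣ n), selW R n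
      ≤ N / (p * (selG R) ^ 2) *
          (∑ r ∈ (sqf R).filter (fun r => R < p * r), (1 : ℝ) / (Nat.totient r)) + (R : ℝ) ^ 2 := by
  classical
  have h1 : ∑ n ∈ (Finset.Ico a (a + N)).filter (fun n => p ∣ n), selW R n =
      ∑ d₁ ∈ Icc 1 R, ∑ d₂ ∈ Icc 1 R, selLam R d₁ * selLam R d₂ *
        (((Ico a (a + N)).filter (fun n => Nat.lcm (Nat.lcm d₁ d₂) p ∣ n)).card : ℝ) := by
    have : ∀ n ∈ (Finset.Ico a (a + N)).filter (fun n => p ∣ n), selW R n =
        ∑ d₁ ∈ Icc 1 R, ∑ d₂ ∈ Icc 1 R,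
        selLam R d₁ * selLam R d₂ * (if Nat.lcm d₁ d₂ ∣ n then 1 else 0) := by
      intro n hn
      rw [mem_filter, mem_Ico] at hn
      exact selW_eq R (by omega)
    rw [Finset.sum_congr rfl this, Finset.sum_comm]
    apply Finset.sum_congr rfl
    intro d₁ _
    rw [Finset.sum_comm]
    apply Finset.sum_congr rfl
    intro d₂ _
    rw [← Finset.mul_sum, Finset.sum_boole, Finset.filter_filter]
    congr 3
    apply Finset.filter_congr
    intro n _
    simp only [Nat.lcm_dvd_iff]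
    tauto
  have h2 := quadForm_dvd_le hR hp
  have h3 : |∑ n ∈ (Finset.Ico a (a + N)).filter (fun n => p ∣ n), selW R n -
      N * ∑ d₁ ∈ Icc 1 R, ∑ d₂ ∈ Icc 1 R,
        selLam R d₁ * selLam R d₂ / (Nat.lcm (Nat.lcm d₁ d₂) p : ℝ)| ≤ (R : ℝ) ^ 2 := by
    rw [h1, Finset.mul_sum, ← Finset.sum_sub_distrib]
    refine le_trans (Finset.abs_sum_le_sum_abs _ _) (le_trans ?_ (sum_abs_selLam_mul_le hR))
    apply Finset.sum_le_sum
    intro d₁ hd₁
    rw [Finset.mul_sum, ← Finset.sum_sub_distrib]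
    refine le_trans (Finset.abs_sum_le_sum_abs _ _) ?_
    apply Finset.sum_le_sum
    intro d₂ hd₂
    rw [mem_Icc] at hd₁ hd₂
    have hl : 0 < Nat.lcm (Nat.lcm d₁ d₂) p :=
      Nat.lcm_pos (Nat.lcm_pos (by omega) (by omega)) hp.pos
    have h4 := abs_count_dvd_sub_le hl a N
    have h5 : selLam R d₁ * selLam R d₂ *
        (((Ico a (a + N)).filter (fun n => Nat.lcm (Nat.lcm d₁ d₂) p ∣ n)).card : ℝ) -
        N * (selLam R d₁ * selLam R d₂ / (Nat.lcm (Nat.lcm d₁ d₂) p : ℝ)) =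
        (selLam R d₁ * selLam R d₂) *
        ((((Ico a (a + N)).filter (fun n => Nat.lcm (Nat.lcm d₁ d₂) p ∣ n)).card : ℝ) -
          N / (Nat.lcm (Nat.lcm d₁ d₂) p : ℝ)) := by
      ring
    rw [h5, abs_mul]
    calc |selLam R d₁ * selLam R d₂| * _ ≤ |selLam R d₁ * selLam R d₂| * 1 :=
          mul_le_mul_of_nonneg_left h4 (abs_nonneg _)
      _ = _ := mul_one _
  have h4 := (abs_le.mp h3).2
  have h5 : (N : ℝ) * ∑ d₁ ∈ Icc 1 R, ∑ d₂ ∈ Icc 1 R,
        selLam R d₁ * selLam R d₂ / (Nat.lcm (Nat.lcm d₁ d₂) p : ℝ) ≤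
      N * (1 / (p * (selG R) ^ 2) *
          (∑ r ∈ (sqf R).filter (fun r => R < p * r), (1 : ℝ) / (Nat.totient r))) :=
    mul_le_mul_of_nonneg_left h2 (by positivity)
  have h6 : (N : ℝ) * (1 / (p * (selG R) ^ 2) *
          (∑ r ∈ (sqf R).filter (fun r => R < p * r), (1 : ℝ) / (Nat.totient r))) =
      N / (p * (selG R) ^ 2) *
          (∑ r ∈ (sqf R).filter (fun r => R < p * r), (1 : ℝ) / (Nat.totient r)) := by
    ring
  linarith

end Pool.Agent.MP_a187e6
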