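import Pool.Agent.MP_a187e6.SmallSpec
import Pool.Agent.MP_a187e6.SelbergSums

/-!
Module E2b: the numbers of a short interval with an ordinary prime factor `> 2^(7k/8)`.
-/

namespace Pool.Agent.MP_a187e6

open Finset

/-- number of `n = m p` in a short interval, `p` prime without factors `≤ R` -/
lemma card_mul_prime_le {R : ℕ} (hR : 2 ≤ R) {a N m : ℕ} (ha : 1 ≤ a) (hm : 1 ≤ m)
    (T : Finset ℕ) (hT : T ⊆ Ico a (a + N))
    (h : ∀ n ∈ T, ∃ p : ℕ, n = m * p ∧ p.Prime ∧ R < p) :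
    (T.card : ℝ) ≤ ((N : ℝ) / m + 1) / Real.log R + (R : ℝ) ^ 2 := by
  classical
  set a' : ℕ := (a + m - 1) / m with ha'
  have ha'1 : a ≤ m * a' := by
    have h1 := Nat.div_add_mod (a + m - 1) m
    have h2 := Nat.mod_lt (a + m - 1) (show 0 < m by omega)
    rw [← ha'] at h1
    omega
  have ha'2 : 1 ≤ a' := by
    rw [ha', Nat.le_div_iff_mul_le (by omega)]
    omega
  have ha'3 : ∀ p : ℕ, a ≤ m * p → a' ≤ p := by
    intro p hp
    rw [ha', Nat.div_le_iff_le_mul_add_pred (by omega)]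
    omega
  set U := (Ico a' (a' + (N / m + 1))).filter (fun p => p.Prime ∧ R < p) with hU
  have h1 : T ⊆ U.image (fun p => m * p) := by
    intro n hn
    obtain ⟨p, hnp, hp, hRp⟩ := h n hn
    have h2 := mem_Ico.mp (hT hn)
    rw [mem_image]
    refine ⟨p, ?_, hnp.symm⟩
    rw [hU, mem_filter, mem_Ico]
    have h3 := ha'3 p (by omega)
    refine ⟨⟨h3, ?_⟩, hp, hRp⟩
    have h4 : (p - a') * m ≤ N := by
      have h5 : (p - a') * m = m * p - m * a' := by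
        rw [Nat.sub_mul, mul_comm p m, mul_comm a' m]
      omega
    have h5 : p - a' ≤ N / m := by
      rwa [Nat.le_div_iff_mul_le (by omega)]
    omega
  have h2 : T.card ≤ U.card := (Finset.card_le_card h1).trans Finset.card_image_le
  have h3 := sieve_bound hR a' (N / m + 1) ha'2 U (Finset.filter_subset _ _) (by
    intro n hn p hp hpR hpn
    rw [hU, mem_filter] at hn
    have h4 : p = n := (Nat.prime_dvd_prime_iff_eq hp hn.2.1).mp hpn
    omega)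
  have hlog : 0 < Real.log R := Real.log_pos (by exact_mod_cast (by omega : 1 < R))
  have h4 : (((N / m + 1 : ℕ) : ℝ)) / Real.log R ≤ ((N : ℝ) / m + 1) / Real.log R := by
    apply div_le_div_of_nonneg_right _ hlog.le
    push_cast
    linarith [@Nat.cast_div_le ℝ _ _ _ N m]
  have h5 : (T.card : ℝ) ≤ U.card := by exact_mod_cast h2
  linarith

/-- E2b (T4) -/
theorem big_prime_sum : ∃ C : ℝ, 0 < C ∧ ∃ k₁ : ℕ, ∀ (β : ℝ) (k₀ : ℕ) (𝒟 : Dead β k₀) (P K₀ : ℕ)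
    (Cs : ℝ) (α : ℕ → ℝ), AlphaData 𝒟 P K₀ Cs α → ∀ k : ℕ, k₁ ≤ k → ∀ a N : ℕ, 2 ^ k ≤ a →
    a + N ≤ 2 ^ (k + 1) → (2 : ℝ) ^ ((k : ℝ) / 3) ≤ N → ∀ σ : ℝ,
    (∀ M : ℕ, ∑ m ∈ Finset.Ico 2 M, α m / m ≤ σ) → ∀ s : Finset ℕ, s ⊆ Finset.Ico a (a + N) →
    (∀ n ∈ s, ∃ m p : ℕ, n = m * p ∧ 2 ≤ m ∧ p.Prime ∧ ¬ 𝒟.Spec p ∧
      (2 : ℝ) ^ (7 / 8 * (k : ℝ)) < p) →
    ∑ n ∈ s, α n ≤ C * σ * N / (k : ℝ) ^ 3 := by
  classical
  obtain ⟨ka, hka⟩ := exists_pow_mul_two_rpow_le 1 (a := 1 / 10) (b := 1) (by norm_num)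
    (by norm_num)
  refine ⟨6000, by norm_num, max ka 1000, ?_⟩
  intro β k₀ 𝒟 P K₀ Cs α hα k hk a N ha haN hN σ hσ s hs hns
  have hk1 : ka ≤ k := le_trans (le_max_left _ _) hk
  have hk2 : 1000 ≤ k := le_trans (le_max_right _ _) hk
  have hk3 : (1000 : ℝ) ≤ k := by exact_mod_cast hk2
  have hk0 : (0 : ℝ) < k := by linarith
  have hpos : ∀ t : ℝ, (0 : ℝ) < (2 : ℝ) ^ t := fun t => Real.rpow_pos_of_pos (by norm_num) t
  have hmono : ∀ {x y : ℝ}, x ≤ y → (2 : ℝ) ^ x ≤ (2 : ℝ) ^ y := fun h =>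
    Real.rpow_le_rpow_of_exponent_le (by norm_num) h
  have hadd : ∀ x y : ℝ, (2 : ℝ) ^ x * (2 : ℝ) ^ y = (2 : ℝ) ^ (x + y) := fun x y =>
    (Real.rpow_add (by norm_num) x y).symm
  have hN0 : (0 : ℝ) < N := lt_of_lt_of_le (hpos _) hN
  -- `k ≤ 2^(k/10)`
  have hkk : (k : ℝ) ≤ (2 : ℝ) ^ ((k : ℝ) / 10) := by
    have h1 := hka k hk1
    rw [pow_one] at h1
    have h2 : (2 : ℝ) ^ (-(1 / 10) * (k : ℝ)) * (2 : ℝ) ^ ((k : ℝ) / 10) = 1 := by
      rw [hadd, show -(1 / 10) * (k : ℝ) + (k : ℝ) / 10 = 0 by ring, Real.rpow_zero]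
    calc (k : ℝ) = k * ((2 : ℝ) ^ (-(1 / 10) * (k : ℝ)) * (2 : ℝ) ^ ((k : ℝ) / 10)) := by
          rw [h2, mul_one]
      _ = (k * (2 : ℝ) ^ (-(1 / 10) * (k : ℝ))) * (2 : ℝ) ^ ((k : ℝ) / 10) := by ring
      _ ≤ 1 * (2 : ℝ) ^ ((k : ℝ) / 10) := mul_le_mul_of_nonneg_right h1 (hpos _).le
      _ = _ := one_mul _
  -- sieve level
  set R : ℕ := ⌊(2 : ℝ) ^ ((k : ℝ) / 100)⌋₊ with hR
  have hRle : (R : ℝ) ≤ (2 : ℝ) ^ ((k : ℝ) / 100) := Nat.floor_le (hpos _).le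
  have hRge : (2 : ℝ) ^ ((k : ℝ) / 100 - 1) ≤ R := by
    have h1 : (2 : ℝ) ^ ((k : ℝ) / 100) < R + 1 := Nat.lt_floor_add_one _
    have h2 : (2 : ℝ) ^ ((k : ℝ) / 100) = 2 * (2 : ℝ) ^ ((k : ℝ) / 100 - 1) := by
      rw [Real.rpow_sub (by norm_num), Real.rpow_one]; ring
    have h3 : (1 : ℝ) ≤ (2 : ℝ) ^ ((k : ℝ) / 100 - 1) :=
      Real.one_le_rpow (by norm_num) (by linarith)
    linarith
  have hR2 : 2 ≤ R := by
    have h1 : (2 : ℝ) ^ (1 : ℝ) ≤ (2 : ℝ) ^ ((k : ℝ) / 100 - 1) := hmono (by linarith)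
    rw [Real.rpow_one] at h1
    exact_mod_cast h1.trans hRge
  have hlog2 : (0.69 : ℝ) < Real.log 2 := by
    have := Real.log_two_gt_d9
    linarith
  have hlogR : (k : ℝ) / 300 ≤ Real.log R := by
    have h1 : Real.log ((2 : ℝ) ^ ((k : ℝ) / 100 - 1)) ≤ Real.log R :=
      Real.log_le_log (hpos _) hRge
    rw [Real.log_rpow (by norm_num)] at h1
    nlinarith
  have hlogR0 : 0 < Real.log R := by
    have : 0 < (k : ℝ) / 300 := by positivity
    linarith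
  -- range of the cofactor
  set M : ℕ := ⌊(2 : ℝ) ^ ((k : ℝ) / 8 + 1)⌋₊ + 1 with hM
  have hMle : ∀ m ∈ Ico 2 M, (m : ℝ) ≤ (2 : ℝ) ^ ((k : ℝ) / 8 + 1) := by
    intro m hm
    rw [mem_Ico] at hm
    have h1 : m ≤ ⌊(2 : ℝ) ^ ((k : ℝ) / 8 + 1)⌋₊ := by omega
    exact (Nat.le_floor_iff (hpos _).le).mp h1
  set T : ℕ → Finset ℕ := fun m => (Ico a (a + N)).filter
    (fun n => ∃ p : ℕ, n = m * p ∧ p.Prime ∧ ¬ 𝒟.Spec p ∧ (2 : ℝ) ^ (7 / 8 * (k : ℝ)) < p) with hT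
  have hcard : ∀ m ∈ Ico 2 M, ((T m).card : ℝ) ≤ 601 * N / (m * k) := by
    intro m hm
    have hm1 := hMle m hm
    have hm2 : 2 ≤ m := (mem_Ico.mp hm).1
    have hm0 : (0 : ℝ) < m := by exact_mod_cast (by omega : 0 < m)
    have h1 := card_mul_prime_le (R := R) hR2 (a := a) (N := N) (m := m)
      (le_trans Nat.one_le_two_pow ha) (by omega) (T m) (Finset.filter_subset _ _) (by
        intro n hn
        rw [hT, mem_filter] at hn
        obtain ⟨p, hnp, hp, _, hpk⟩ := hn.2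
        refine ⟨p, hnp, hp, ?_⟩
        have h2 : (R : ℝ) < p := by
          refine lt_of_le_of_lt (hRle.trans (hmono ?_)) hpk
          linarith
        exact_mod_cast h2)
    have h2 : (m : ℝ) ≤ N := by
      refine hm1.trans (le_trans (hmono ?_) hN)
      linarith
    have h3 : (N : ℝ) / m + 1 ≤ 2 * N / m := by
      have : 1 ≤ (N : ℝ) / m := by
        rw [le_div_iff₀ hm0]; linarith
      have e : 2 * (N : ℝ) / m = N / m + N / m := by ring
      linarith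
    have h4 : ((N : ℝ) / m + 1) / Real.log R ≤ 600 * N / (m * k) := by
      calc ((N : ℝ) / m + 1) / Real.log R ≤ (2 * N / m) / (k / 300) := by
            apply div_le_div₀ (by positivity) h3 (by positivity) hlogR
        _ = 600 * N / (m * k) := by field_simp; norm_num
    have h5 : (R : ℝ) ^ 2 ≤ N / (m * k) := by
      rw [le_div_iff₀ (by positivity)]
      calc (R : ℝ) ^ 2 * (m * k) ≤ ((2 : ℝ) ^ ((k : ℝ) / 100)) ^ 2 *
            ((2 : ℝ) ^ ((k : ℝ) / 8 + 1) * (2 : ℝ) ^ ((k : ℝ) / 10)) := by gcongr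
        _ = (2 : ℝ) ^ ((k : ℝ) / 100 + (k : ℝ) / 100 + ((k : ℝ) / 8 + 1 + (k : ℝ) / 10)) := by
            rw [pow_two, hadd, hadd, hadd]
        _ ≤ (2 : ℝ) ^ ((k : ℝ) / 3) := hmono (by linarith)
        _ ≤ N := hN
    have h6 : 601 * (N : ℝ) / (m * k) = 600 * N / (m * k) + N / (m * k) := by ring
    linarith
  have hval : ∀ m ∈ Ico 2 M, ∀ n ∈ T m, α n ≤ α m * (9 / (k : ℝ) ^ 2) := by
    intro m hm n hn
    have hm2 : 2 ≤ m := (mem_Ico.mp hm).1
    rw [hT, mem_filter] at hn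
    obtain ⟨p, rfl, hp, hps, hpk⟩ := hn.2
    rw [hα.mul m p (by omega) hp.ne_zero]
    apply mul_le_mul_of_nonneg_left _ (hα.nonneg m)
    refine (hα.ord p hp hps).trans ?_
    have h1 : 7 / 8 * (k : ℝ) * Real.log 2 ≤ Real.log p := by
      have h2 : Real.log ((2 : ℝ) ^ (7 / 8 * (k : ℝ))) ≤ Real.log p :=
        Real.log_le_log (hpos _) hpk.le
      rwa [Real.log_rpow (by norm_num)] at h2
    have h2 : 0.6 * (k : ℝ) ≤ Real.log p := by nlinarith
    have h3 : 0 < Real.log p := by linarith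
    rw [div_le_div_iff₀ (by positivity) (by positivity)]
    have h4 : (0.6 * (k : ℝ)) ^ 2 ≤ (Real.log p) ^ 2 := pow_le_pow_left₀ (by positivity) h2 2
    nlinarith
  have hsub : ∀ n ∈ s, α n ≤ ∑ m ∈ Ico 2 M, (if n ∈ T m then α n else 0) := by
    intro n hn
    obtain ⟨m, p, hnp, hm2, hp, hps, hpk⟩ := hns n hn
    have hn1 := mem_Ico.mp (hs hn)
    have hmM : m ∈ Ico 2 M := by
      rw [mem_Ico]
      refine ⟨hm2, ?_⟩
      have h1 : m ≤ ⌊(2 : ℝ) ^ ((k : ℝ) / 8 + 1)⌋₊ := by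
        apply Nat.le_floor
        by_contra hcon
        push Not at hcon
        have h2 : (2 : ℝ) ^ ((k : ℝ) / 8 + 1) * (2 : ℝ) ^ (7 / 8 * (k : ℝ)) < m * p :=
          mul_lt_mul'' hcon hpk (hpos _).le (hpos _).le
        rw [hadd, show (k : ℝ) / 8 + 1 + 7 / 8 * (k : ℝ) = ((k + 1 : ℕ) : ℝ) by push_cast; ring,
          Real.rpow_natCast] at h2
        have h3 : ((2 ^ (k + 1) : ℕ) : ℝ) < ((m * p : ℕ) : ℝ) := by push_cast; exact h2
        have h4 : 2 ^ (k + 1) < m * p := by exact_mod_cast h3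
        omega
      omega
    have hnT : n ∈ T m := by
      rw [hT, mem_filter]
      exact ⟨hs hn, p, hnp, hp, hps, hpk⟩
    have h1 : (if n ∈ T m then α n else 0) ≤ ∑ m ∈ Ico 2 M, (if n ∈ T m then α n else 0) := by
      apply Finset.single_le_sum (f := fun m => if n ∈ T m then α n else 0) _ hmM
      intro m' _
      split_ifs
      · exact hα.nonneg n
      · exact le_rfl
    rwa [if_pos hnT] at h1
  calc ∑ n ∈ s, α n ≤ ∑ n ∈ s, ∑ m ∈ Ico 2 M, (if n ∈ T m then α n else 0) :=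
        Finset.sum_le_sum hsub
    _ = ∑ m ∈ Ico 2 M, ∑ n ∈ s, (if n ∈ T m then α n else 0) := Finset.sum_comm
    _ ≤ ∑ m ∈ Ico 2 M, 6000 * N / (k : ℝ) ^ 3 * (α m / m) := by
        apply Finset.sum_le_sum
        intro m hm
        have hm2 : 2 ≤ m := (mem_Ico.mp hm).1
        have hm0 : (0 : ℝ) < m := by exact_mod_cast (by omega : 0 < m)
        have hαm := hα.nonneg m
        calc ∑ n ∈ s, (if n ∈ T m then α n else 0) = ∑ n ∈ s.filter (fun n => n ∈ T m), α n := by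
              rw [Finset.sum_filter]
          _ ≤ ∑ n ∈ T m, α n := by
              apply Finset.sum_le_sum_of_subset_of_nonneg
              · intro n hn
                exact (mem_filter.mp hn).2
              · intro n _ _
                exact hα.nonneg n
          _ ≤ (T m).card • (α m * (9 / (k : ℝ) ^ 2)) := Finset.sum_le_card_nsmul _ _ _ (hval m hm)
          _ = (T m).card * (α m * (9 / (k : ℝ) ^ 2)) := by rw [nsmul_eq_mul]
          _ ≤ (601 * N / (m * k)) * (α m * (9 / (k : ℝ) ^ 2)) :=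
              mul_le_mul_of_nonneg_right (hcard m hm) (by positivity)
          _ = 5409 * N / (k : ℝ) ^ 3 * (α m / m) := by field_simp; ring
          _ ≤ 6000 * N / (k : ℝ) ^ 3 * (α m / m) := by gcongr; norm_num
    _ = 6000 * N / (k : ℝ) ^ 3 * ∑ m ∈ Ico 2 M, α m / m := by rw [Finset.mul_sum]
    _ ≤ 6000 * N / (k : ℝ) ^ 3 * σ := mul_le_mul_of_nonneg_left (hσ M) (by positivity)
    _ = 6000 * σ * N / (k : ℝ) ^ 3 := by ring

end Pool.Agent.MP_a187e6
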