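import Pool.Agent.MP_a187e6.Conf
import Pool.Agent.MP_a187e6.SelbergSums
import Pool.Agent.MP_a187e6.AlphaBasic

/-!
# Module E4 : non-control numbers with a large special prime factor
-/

namespace Pool.Agent.MP_a187e6

open Finset

/-- numbers `n` of a cell divisible by `a` with `n / a` rough -/
lemma fibre_card {β : ℝ} (k j a R : ℕ) (ha : 1 ≤ a) (hR : 2 ≤ R) (haL : a ≤ len β k)
    (t : Finset ℕ)
    (ht : ∀ n ∈ t, n ∈ cell β k j ∧ a ∣ n ∧ ∀ p : ℕ, p.Prime → p ≤ R → ¬ p ∣ n / a) :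
    (t.card : ℝ) ≤ 2 * (len β k / a) / Real.log R + (R : ℝ) ^ 2 := by
  set c := 2 ^ k + j * len β k with hc
  have hc1 : 1 ≤ c := by
    have : 1 ≤ 2 ^ k := Nat.one_le_two_pow
    omega
  set L := len β k with hL
  set a0 := (c + a - 1) / a with ha0
  have hinj : Set.InjOn (fun n => n / a) (t : Set ℕ) := by
    intro x hx y hy hxy
    have h1 := (ht x hx).2.1
    have h2 := (ht y hy).2.1
    simp only at hxy
    rw [← Nat.div_mul_cancel h1, ← Nat.div_mul_cancel h2, hxy]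
  have hcard : t.card = (t.image (fun n => n / a)).card := (Finset.card_image_of_injOn hinj).symm
  have hlow : c ≤ a0 * a := by
    have h1 : a * a0 + (c + a - 1) % a = c + a - 1 := Nat.div_add_mod (c + a - 1) a
    have h2 := Nat.mod_lt (c + a - 1) ha
    have h3 : a0 * a = a * a0 := mul_comm _ _
    rw [h3]
    generalize a * a0 = u at h1 ⊢
    generalize (c + a - 1) % a = v at h1 h2
    omega
  have ha01 : 1 ≤ a0 := by
    by_contra hcon
    have h0 : a0 = 0 := Nat.eq_zero_of_not_pos hcon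
    rw [h0, zero_mul] at hlow
    omega
  have hsub : t.image (fun n => n / a) ⊆ Finset.Ico a0 (a0 + (L / a + 1)) := by
    intro x hx
    rw [Finset.mem_image] at hx
    obtain ⟨n, hn, rfl⟩ := hx
    obtain ⟨h1, ⟨b, rfl⟩, _⟩ := ht n hn
    rw [cell_eq, Finset.mem_Ico] at h1
    rw [Nat.mul_div_cancel_left _ ha, Finset.mem_Ico]
    constructor
    · apply Nat.le_of_lt_succ
      rw [Nat.div_lt_iff_lt_mul ha]
      have : (b + 1) * a = a * b + a := by ring
      rw [Nat.succ_eq_add_one, this]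
      omega
    · have hN : L < (L / a + 1) * a := by
        have h3 := Nat.div_add_mod L a
        have h4 := Nat.mod_lt L ha
        have h5 : (L / a + 1) * a = a * (L / a) + a := by ring
        omega
      have h6 : b * a < (a0 + (L / a + 1)) * a := by
        calc b * a = a * b := by ring
          _ < c + L := h1.2
          _ < a0 * a + (L / a + 1) * a := by omega
          _ = _ := by ring
      exact lt_of_mul_lt_mul_right h6 (Nat.zero_le _)
  have hsv := sieve_bound hR a0 (L / a + 1) ha01 (t.image (fun n => n / a)) hsub (by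
    intro x hx p hp hpR
    rw [Finset.mem_image] at hx
    obtain ⟨n, hn, rfl⟩ := hx
    exact (ht n hn).2.2 p hp hpR)
  rw [← hcard] at hsv
  refine hsv.trans ?_
  have hlogR : 0 < Real.log R := Real.log_pos (by exact_mod_cast (by omega : 1 < R))
  have ha' : (1 : ℝ) ≤ a := by exact_mod_cast ha
  have h7 : ((L / a + 1 : ℕ) : ℝ) ≤ 2 * ((L : ℝ) / a) := by
    push_cast
    have h8 : ((L / a : ℕ) : ℝ) ≤ (L : ℝ) / a := Nat.cast_div_le
    have h9 : (1 : ℝ) ≤ (L : ℝ) / a := by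
      rw [le_div_iff₀ (by linarith only [ha'])]
      have : (a : ℝ) ≤ L := by exact_mod_cast haL
      linarith only [this]
    linarith only [h8, h9]
  have h10 : ((L / a + 1 : ℕ) : ℝ) / Real.log R ≤ 2 * ((L : ℝ) / a) / Real.log R :=
    div_le_div_of_nonneg_right h7 hlogR.le
  linarith only [h10]

/-- T1 -/
theorem big_spec_sum {β : ℝ} (hβ : 0 < β) (hβ' : β ≤ 1 / 1000) (K₀ : ℕ) (Cs : ℝ) :
    ∀ ε : ℝ, 0 < ε → ∃ P₀ : ℕ, ∀ P : ℕ, P₀ ≤ P → ∃ k₁ : ℕ, ∀ k₀ : ℕ, k₁ ≤ k₀ →
      ∀ 𝒟 : Dead β k₀, ∀ α : ℕ → ℝ, AlphaData 𝒟 P K₀ Cs α →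
        ∀ k : ℕ, k₀ < k → ∀ j < ncell β k, ∀ s : Finset ℕ, s ⊆ cell β k j →
          (∀ n ∈ s, ¬ 𝒟.Ctrl k j n ∧ ∃ q : ℕ, q.Prime ∧ q ∣ n ∧ 𝒟.Spec q ∧ len β k < q) →
          ∑ n ∈ s, α n ≤ ε * len β k / (k : ℝ) ^ 3 := by
  classical
  intro ε hε
  have hlog2 : 0 < Real.log 2 := Real.log_pos (by norm_num)
  set Cβ : ℝ := 4 / (β * Real.log 2) + 1 with hCβ
  set Cs' : ℝ := |Cs| + 1 with hCs'
  have hCβpos : 0 < Cβ := by positivity
  have hCs'pos : 0 < Cs' := by positivity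
  obtain ⟨P₀, hP₀⟩ := sigma_small hβ hβ' K₀ Cs (ε / (8 * Cs' * Cβ)) (by positivity)
  obtain ⟨kc, hkc⟩ := conf hβ hβ'
  obtain ⟨ka, hka⟩ := alpha_le hβ hβ' K₀ Cs
  obtain ⟨kt1, hkt1⟩ := exists_pow_mul_two_rpow_le 3 (a := β / 2) (b := ε / 2) (by positivity)
    (by positivity)
  obtain ⟨kt2, hkt2⟩ := exists_pow_mul_two_rpow_le 1 (a := 0.49) (b := 1 / 4) (by norm_num)
    (by norm_num)
  set N2 : ℕ := ⌈2 / β⌉₊ with hN2
  refine ⟨max P₀ 7, fun P hP => ?_⟩
  obtain ⟨ks, hks⟩ := hP₀ P (le_trans (le_max_left _ _) hP)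
  refine ⟨ks + kc + ka + kt1 + kt2 + N2 + 5, ?_⟩
  intro k₀ hk₀ 𝒟 α hα k hk j hj s hs hsn
  have hkN2 : 2 ≤ β * (k : ℝ) := by
    have e1 : (2 / β : ℝ) ≤ N2 := Nat.le_ceil _
    have e2 : (N2 : ℝ) ≤ k := by exact_mod_cast (by omega : N2 ≤ k)
    have e3 := e1.trans e2
    rw [div_le_iff₀ hβ] at e3
    linarith only [e3]
  have hk5 : (5 : ℝ) ≤ k := by exact_mod_cast (by omega : 5 ≤ k)
  have hkpos : (0 : ℝ) < k := by linarith only [hβ, hβ', hk5]
  set L : ℝ := (len β k : ℝ) with hLdef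
  have hLpos : 0 < L := by
    rw [hLdef]; exact_mod_cast len_pos β k
  set bad : ℕ → Prop := fun n => ∃ q : ℕ, q.Prime ∧ q ∣ n ∧ len β k < q ∧ ∃ k' j' m',
    j' ∈ 𝒟.D k' ∧ Elig β k' j' m' q ∧ ((k' : ℝ) ≤ (1 - 5 * β) * k ∨ ¬ m' ∣ n / q) with hbad
  rw [← Finset.sum_filter_add_sum_filter_not s bad]
  -- part 1
  have hpart1 : ∑ n ∈ s.filter bad, α n ≤ ε / 2 * L / (k : ℝ) ^ 3 := by
    have hc := hkc k₀ (by omega) 𝒟 k hk j hj (s.filter bad)
      ((Finset.filter_subset _ _).trans hs) (fun n hn => (Finset.mem_filter.1 hn).2)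
    have hαn : ∀ n ∈ s.filter bad, α n ≤ (2 : ℝ) ^ (β / 2 * (k : ℝ)) := by
      intro n hn
      have hns := hs (Finset.mem_filter.1 hn).1
      have h1 := hka k₀ (by omega) P (le_trans (le_max_right _ _) hP) 𝒟 α hα n
        (pos_of_mem_cell hns)
      have h2 := lt_two_pow_of_mem_cell hβ hβ' hj hns
      have h3 : (n : ℝ) ≤ (2 : ℝ) ^ ((k : ℝ) + 1) := by
        have h4 : (n : ℝ) ≤ ((2 ^ (k + 1) : ℕ) : ℝ) := by exact_mod_cast h2.le
        rw [show ((k : ℝ) + 1) = ((k + 1 : ℕ) : ℝ) by push_cast; ring, Real.rpow_natCast]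
        push_cast at h4 ⊢
        exact h4
      calc α n ≤ (n : ℝ) ^ (β / 4) := h1
        _ ≤ ((2 : ℝ) ^ ((k : ℝ) + 1)) ^ (β / 4) :=
            Real.rpow_le_rpow (Nat.cast_nonneg _) h3 (by positivity)
        _ = (2 : ℝ) ^ (((k : ℝ) + 1) * (β / 4)) := by rw [← Real.rpow_mul (by norm_num)]
        _ ≤ _ := Real.rpow_le_rpow_of_exponent_le (by norm_num) (by nlinarith only [hβ, hβ', hkN2])
    calc ∑ n ∈ s.filter bad, α n ≤ ∑ n ∈ s.filter bad, (2 : ℝ) ^ (β / 2 * (k : ℝ)) :=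
          Finset.sum_le_sum hαn
      _ = ((s.filter bad).card : ℝ) * (2 : ℝ) ^ (β / 2 * (k : ℝ)) := by
          rw [Finset.sum_const, nsmul_eq_mul]
      _ ≤ (L * (2 : ℝ) ^ (-β * (k : ℝ))) * (2 : ℝ) ^ (β / 2 * (k : ℝ)) :=
          mul_le_mul_of_nonneg_right hc (by positivity)
      _ = L * (2 : ℝ) ^ (-(β / 2) * (k : ℝ)) := by
          rw [mul_assoc, ← Real.rpow_add (by norm_num)]; congr 2; ring
      _ ≤ L * (ε / 2 / (k : ℝ) ^ 3) := by
          apply mul_le_mul_of_nonneg_left _ hLpos.le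
          rw [le_div_iff₀ (by positivity)]
          have := hkt1 k (by omega)
          linarith only [this]
      _ = _ := by ring
  -- part 2
  set R : ℕ := ⌊(2 : ℝ) ^ (β * (k : ℝ))⌋₊ with hRdef
  have hRle : (R : ℝ) ≤ (2 : ℝ) ^ (β * (k : ℝ)) := Nat.floor_le (by positivity)
  have h2βk : (4 : ℝ) ≤ (2 : ℝ) ^ (β * (k : ℝ)) := by
    calc (4 : ℝ) = (2 : ℝ) ^ (2 : ℝ) := by norm_num
      _ ≤ _ := Real.rpow_le_rpow_of_exponent_le (by norm_num) hkN2
  have hRge : (2 : ℝ) ^ (β * (k : ℝ) - 1) ≤ R := by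
    have h1 := Nat.lt_floor_add_one ((2 : ℝ) ^ (β * (k : ℝ)))
    rw [← hRdef] at h1
    rw [Real.rpow_sub (by norm_num), Real.rpow_one]
    linarith only [hβ, hβ', h2βk, h1]
  have hR2 : 2 ≤ R := by
    have : (2 : ℝ) ≤ R := by
      refine le_trans ?_ hRge
      rw [Real.rpow_sub (by norm_num), Real.rpow_one]
      linarith only [h2βk]
    exact_mod_cast this
  have hlogR : β * k * Real.log 2 / 2 ≤ Real.log R := by
    have h1 : Real.log ((2 : ℝ) ^ (β * (k : ℝ) - 1)) ≤ Real.log R :=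
      Real.log_le_log (by positivity) hRge
    rw [Real.log_rpow (by norm_num)] at h1
    nlinarith only [h1, hβ, hβ', hlog2, hkN2]
  have hlogRpos : 0 < Real.log R := lt_of_lt_of_le (by positivity) hlogR
  have hex : ∀ n ∈ s.filter (fun n => ¬ bad n), ∃ a : ℕ, 2 ≤ a ∧ a ∣ n ∧
      (a : ℝ) ≤ (2 : ℝ) ^ (5 * β * (k : ℝ) + 1) ∧ α n ≤ α a * (4 * Cs' / (k : ℝ) ^ 2) ∧
      ∀ p : ℕ, p.Prime → p ≤ R → ¬ p ∣ n / a := by
    intro n hn
    rw [Finset.mem_filter] at hn
    obtain ⟨hns, hnb⟩ := hn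
    obtain ⟨hnc, q, hqp, hqn, hSpec, hqL⟩ := hsn n hns
    obtain ⟨k', j', m', hj', hK⟩ := hSpec
    have hE := hK.1
    have hncell := hs hns
    have hn0 := pos_of_mem_cell hncell
    have hnb1 : (1 - 5 * β) * (k : ℝ) < k' := by
      by_contra hcon
      push Not at hcon
      exact hnb ⟨q, hqp, hqn, hqL, k', j', m', hj', hE, Or.inl hcon⟩
    have hnb2 : m' ∣ n / q := by
      by_contra hcon
      exact hnb ⟨q, hqp, hqn, hqL, k', j', m', hj', hE, Or.inr hcon⟩
    obtain ⟨a, ha⟩ := hnb2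
    have hneq : n = a * (m' * q) := by
      have := Nat.div_mul_cancel hqn
      rw [ha] at this
      rw [← this]; ring
    have ha0 : a ≠ 0 := by
      rintro rfl
      rw [hneq] at hn0
      simp at hn0
    have hmq0 : m' * q ≠ 0 := by
      intro h0
      rw [hneq, h0] at hn0
      simp at hn0
    have hmem' := hE.2.2.2.2
    have ha1 : a ≠ 1 := by
      rintro rfl
      rw [one_mul] at hneq
      rw [hneq] at hncell
      obtain ⟨e1, e2⟩ := cell_unique hβ hβ' hj (lt_ncell_of_mem_D 𝒟 hj') hncell hmem'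
      subst e1
      subst e2
      exact hnc (Or.inl ⟨hj', m', q, hneq, hK⟩)
    have ha2 : 2 ≤ a := by omega
    refine ⟨a, ha2, ⟨m' * q, hneq⟩, ?_, ?_, ?_⟩
    · -- size of a
      have h1 := two_pow_le_of_mem_cell hmem'
      have h2 := lt_two_pow_of_mem_cell hβ hβ' hj hncell
      have h3 : (a : ℝ) * (2 : ℝ) ^ (k' : ℝ) ≤ (2 : ℝ) ^ ((k : ℝ) + 1) := by
        have h4 : a * 2 ^ k' ≤ 2 ^ (k + 1) := by
          calc a * 2 ^ k' ≤ a * (m' * q) := Nat.mul_le_mul_left _ h1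
            _ = n := hneq.symm
            _ ≤ _ := h2.le
        have h5 : ((a * 2 ^ k' : ℕ) : ℝ) ≤ ((2 ^ (k + 1) : ℕ) : ℝ) := by exact_mod_cast h4
        rw [show ((k : ℝ) + 1) = ((k + 1 : ℕ) : ℝ) by push_cast; ring, Real.rpow_natCast,
          Real.rpow_natCast]
        push_cast at h5 ⊢
        exact h5
      have h6 : (2 : ℝ) ^ ((k : ℝ) + 1) ≤ (2 : ℝ) ^ (5 * β * (k : ℝ) + 1) * (2 : ℝ) ^ (k' : ℝ) := by
        rw [← Real.rpow_add (by norm_num)]
        apply Real.rpow_le_rpow_of_exponent_le (by norm_num)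
        linarith only [hnb1]
      have h7 : (0 : ℝ) < (2 : ℝ) ^ (k' : ℝ) := by positivity
      exact le_of_mul_le_mul_right (h3.trans h6) h7
    · -- alpha
      rw [hneq, hα.mul a (m' * q) ha0 hmq0]
      apply mul_le_mul_of_nonneg_left _ (hα.nonneg a)
      have h1 := (hα.spec k' j' m' q hj' hK).1
      have hk'half : (k : ℝ) / 2 ≤ k' := by nlinarith only [hβ, hβ', hkN2, hnb1]
      have hk'pos : (0 : ℝ) < k' := by linarith only [hβ, hβ', hk5, hk'half]
      calc α (m' * q) ≤ Cs / (k' : ℝ) ^ 2 := h1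
        _ ≤ Cs' / (k' : ℝ) ^ 2 := by
            apply div_le_div_of_nonneg_right _ (by positivity)
            have := le_abs_self Cs
            linarith only [hβ, hβ', this]
        _ ≤ Cs' / ((k : ℝ) / 2) ^ 2 := by
            apply div_le_div_of_nonneg_left hCs'pos.le (by positivity)
            exact pow_le_pow_left₀ (by positivity) hk'half 2
        _ = 4 * Cs' / (k : ℝ) ^ 2 := by field_simp; ring
    · intro p hp hpR hpd
      rw [hneq, Nat.mul_div_cancel_left _ (by omega : 0 < a)] at hpd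
      have hpR' : (p : ℝ) ≤ (2 : ℝ) ^ (β * (k : ℝ)) := le_trans (by exact_mod_cast hpR) hRle
      rcases (Nat.Prime.dvd_mul hp).1 hpd with h1 | h1
      · have h2 := hE.2.2.2.1 p hp h1
        have h3 : (2 : ℝ) ^ (β * (k : ℝ)) < (2 : ℝ) ^ (20 * β * (k' : ℝ)) := by
          apply Real.rpow_lt_rpow_of_exponent_lt (by norm_num)
          have : (k : ℝ) / 2 ≤ k' := by nlinarith only [hβ, hβ', hkN2, hnb1]
          nlinarith only [hβ', hkN2, hβ, this]
        linarith only [hpR', h2, h3]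
      · have h2 : p = q := (Nat.prime_dvd_prime_iff_eq hp hqp).1 h1
        have h3 := hE.2.1
        rw [← h2] at h3
        have h4 : (2 : ℝ) ^ (β * (k : ℝ)) < (2 : ℝ) ^ ((1 / 2 + 20 * β) * (k' : ℝ)) := by
          apply Real.rpow_lt_rpow_of_exponent_lt (by norm_num)
          have : (k : ℝ) / 2 ≤ k' := by nlinarith only [hβ, hβ', hkN2, hnb1]
          nlinarith only [hβ, hβ', hkN2, hnb1]
        linarith only [hpR', h3, h4]
  choose! a ha2 hadvd hasz haα harough using hex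
  set t := s.filter (fun n => ¬ bad n) with ht
  have hts : ∀ n ∈ t, n ∈ cell β k j := fun n hn => hs (Finset.mem_filter.1 hn).1
  set N : ℕ := 2 ^ (k + 1) with hN
  have hmaps : ∀ n ∈ t, a n ∈ Finset.Ico 2 N := by
    intro n hn
    rw [Finset.mem_Ico]
    refine ⟨ha2 n hn, ?_⟩
    exact lt_of_le_of_lt (Nat.le_of_dvd (pos_of_mem_cell (hts n hn)) (hadvd n hn))
      (lt_two_pow_of_mem_cell hβ hβ' hj (hts n hn))
  have hfib : ∀ b ∈ Finset.Ico 2 N, ((t.filter (fun n => a n = b)).card : ℝ)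
      ≤ Cβ * (L / (k * b)) := by
    intro b hb
    rw [Finset.mem_Ico] at hb
    have hb1 : (2 : ℝ) ≤ b := by exact_mod_cast hb.1
    rcases (t.filter (fun n => a n = b)).eq_empty_or_nonempty with h0 | ⟨n0, hn0⟩
    · rw [h0]
      simp only [card_empty, CharP.cast_eq_zero]
      positivity
    · rw [Finset.mem_filter] at hn0
      have hbsz : (b : ℝ) ≤ (2 : ℝ) ^ (5 * β * (k : ℝ) + 1) := by
        rw [← hn0.2]; exact hasz n0 hn0.1
      have hLlow := le_len (β := β) k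
      have hbL : (b : ℝ) ≤ L := by
        refine hbsz.trans (le_trans ?_ hLlow)
        apply Real.rpow_le_rpow_of_exponent_le (by norm_num)
        nlinarith only [hβ, hβ', hkN2]
      have hbL' : b ≤ len β k := by
        rw [hLdef] at hbL
        exact_mod_cast hbL
      have h1 := fibre_card k j b R (by omega) hR2 hbL' (t.filter (fun n => a n = b)) (by
        intro n hn
        rw [Finset.mem_filter] at hn
        refine ⟨hts n hn.1, ?_, ?_⟩
        · rw [← hn.2]; exact hadvd n hn.1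
        · rw [← hn.2]; exact harough n hn.1)
      refine h1.trans ?_
      rw [← hLdef]
      have h2 : 2 * (L / b) / Real.log R ≤ 4 / (β * Real.log 2) * (L / (k * b)) := by
        rw [div_le_iff₀ hlogRpos]
        calc 2 * (L / b) = 4 / (β * Real.log 2) * (L / (k * b)) * (β * k * Real.log 2 / 2) := by
              field_simp
              try ring
          _ ≤ _ := by
              apply mul_le_mul_of_nonneg_left hlogR (by positivity)
      have h3 : (R : ℝ) ^ 2 ≤ L / (k * b) := by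
        rw [le_div_iff₀ (by positivity)]
        have e1 : (R : ℝ) ^ 2 ≤ (2 : ℝ) ^ (2 * β * (k : ℝ)) := by
          calc (R : ℝ) ^ 2 ≤ ((2 : ℝ) ^ (β * (k : ℝ))) ^ 2 :=
                pow_le_pow_left₀ (Nat.cast_nonneg _) hRle 2
            _ = _ := by
                rw [← Real.rpow_natCast, ← Real.rpow_mul (by norm_num)]
                congr 1
                push_cast
                ring
        have e2 := hkt2 k (by omega)
        rw [pow_one] at e2
        have e3 : (k : ℝ) ≤ 1 / 4 * (2 : ℝ) ^ (0.49 * (k : ℝ)) := by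
          have e4 : (2 : ℝ) ^ (-0.49 * (k : ℝ)) * (2 : ℝ) ^ (0.49 * (k : ℝ)) = 1 := by
            rw [← Real.rpow_add (by norm_num)]
            ring_nf
            exact Real.rpow_zero 2
          calc (k : ℝ) = (k * (2 : ℝ) ^ (-0.49 * (k : ℝ))) * (2 : ℝ) ^ (0.49 * (k : ℝ)) := by
                rw [mul_assoc, e4, mul_one]
            _ ≤ _ := mul_le_mul_of_nonneg_right e2 (by positivity)
        calc (R : ℝ) ^ 2 * (k * b) ≤ (2 : ℝ) ^ (2 * β * (k : ℝ)) *
              ((1 / 4 * (2 : ℝ) ^ (0.49 * (k : ℝ))) * (2 : ℝ) ^ (5 * β * (k : ℝ) + 1)) := by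
              apply mul_le_mul e1 _ (by positivity) (by positivity)
              apply mul_le_mul e3 hbsz (by positivity) (by positivity)
          _ = 1 / 4 * ((2 : ℝ) ^ (2 * β * (k : ℝ)) * (2 : ℝ) ^ (0.49 * (k : ℝ)) *
                (2 : ℝ) ^ (5 * β * (k : ℝ) + 1)) := by ring
          _ = (2 : ℝ) ^ (-2 : ℝ) * (2 : ℝ) ^ (2 * β * (k : ℝ) + 0.49 * (k : ℝ) +
                (5 * β * (k : ℝ) + 1)) := by
              rw [← Real.rpow_add (by norm_num), ← Real.rpow_add (by norm_num)]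
              congr 1
              norm_num
          _ = (2 : ℝ) ^ (-2 + (2 * β * (k : ℝ) + 0.49 * (k : ℝ) + (5 * β * (k : ℝ) + 1))) := by
              rw [← Real.rpow_add (by norm_num)]
          _ ≤ (2 : ℝ) ^ ((1 / 2 - β / 3) * (k : ℝ) - 1) := by
              apply Real.rpow_le_rpow_of_exponent_le (by norm_num)
              nlinarith only [hβ, hβ', hkN2]
          _ ≤ L := hLlow
      rw [hCβ, add_mul, one_mul]
      exact add_le_add h2 h3
  have hsig := hks k₀ (by omega) 𝒟 α hα N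
  have hpart2 : ∑ n ∈ t, α n ≤ ε / 2 * L / (k : ℝ) ^ 3 := by
    calc ∑ n ∈ t, α n ≤ ∑ n ∈ t, α (a n) * (4 * Cs' / (k : ℝ) ^ 2) :=
          Finset.sum_le_sum haα
      _ = ∑ b ∈ Finset.Ico 2 N, ∑ n ∈ t.filter (fun n => a n = b),
            α (a n) * (4 * Cs' / (k : ℝ) ^ 2) :=
          (Finset.sum_fiberwise_of_maps_to hmaps _).symm
      _ = ∑ b ∈ Finset.Ico 2 N, ((t.filter (fun n => a n = b)).card : ℝ) *
            (α b * (4 * Cs' / (k : ℝ) ^ 2)) := by
          apply Finset.sum_congr rfl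
          intro b _
          rw [← nsmul_eq_mul, ← Finset.sum_const]
          apply Finset.sum_congr rfl
          intro n hn
          rw [(Finset.mem_filter.1 hn).2]
      _ ≤ ∑ b ∈ Finset.Ico 2 N, (Cβ * (L / (k * b))) * (α b * (4 * Cs' / (k : ℝ) ^ 2)) := by
          apply Finset.sum_le_sum
          intro b hb
          apply mul_le_mul_of_nonneg_right (hfib b hb)
          have := hα.nonneg b
          positivity
      _ = (4 * Cs' * Cβ * L / (k : ℝ) ^ 3) * ∑ b ∈ Finset.Ico 2 N, α b / b := by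
          rw [Finset.mul_sum]
          apply Finset.sum_congr rfl
          intro b hb
          have hb1 : (b : ℝ) ≠ 0 := by
            have := (Finset.mem_Ico.1 hb).1
            have : b ≠ 0 := by omega
            exact_mod_cast this
          field_simp
          try ring
      _ ≤ (4 * Cs' * Cβ * L / (k : ℝ) ^ 3) * (ε / (8 * Cs' * Cβ)) :=
          mul_le_mul_of_nonneg_left hsig (by positivity)
      _ = _ := by field_simp; ring
  calc _ ≤ ε / 2 * L / (k : ℝ) ^ 3 + ε / 2 * L / (k : ℝ) ^ 3 := add_le_add hpart1 hpart2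
    _ = _ := by ring

end Pool.Agent.MP_a187e6
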