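import Pool.Agent.MP_a187e6.Cells

/-! Basic lemmas on cells. -/

namespace Pool.Agent.MP_a187e6

open Finset

lemma ex_le_real {β : ℝ} (hβ' : β ≤ 1 / 1000) (k : ℕ) :
    (ex β k : ℝ) ≤ (1 / 2 - β / 3) * k := by
  unfold ex
  apply Nat.floor_le
  have : (0 : ℝ) ≤ k := Nat.cast_nonneg k
  apply mul_nonneg _ this
  linarith

lemma lt_ex_add_one {β : ℝ} (k : ℕ) :
    (1 / 2 - β / 3) * k < (ex β k : ℝ) + 1 := by
  unfold ex
  exact Nat.lt_floor_add_one _

lemma ex_le {β : ℝ} (hβ : 0 < β) (hβ' : β ≤ 1 / 1000) (k : ℕ) : ex β k ≤ k := by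
  have h := ex_le_real hβ' k
  have h0 : (0 : ℝ) ≤ k := Nat.cast_nonneg k
  have : (ex β k : ℝ) ≤ (k : ℝ) := by
    refine h.trans ?_
    nlinarith
  exact_mod_cast this

lemma len_pos (β : ℝ) (k : ℕ) : 0 < len β k := by
  unfold len; positivity

lemma len_cast (β : ℝ) (k : ℕ) : (len β k : ℝ) = (2 : ℝ) ^ (ex β k : ℝ) := by
  unfold len
  rw [Real.rpow_natCast]
  push_cast
  rfl

/-- upper bound for the length -/
lemma len_le {β : ℝ} (hβ' : β ≤ 1 / 1000) (k : ℕ) :
    (len β k : ℝ) ≤ (2 : ℝ) ^ ((1 / 2 - β / 3) * (k : ℝ)) := by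
  rw [len_cast]
  exact Real.rpow_le_rpow_of_exponent_le (by norm_num) (ex_le_real hβ' k)

/-- lower bound for the length -/
lemma le_len {β : ℝ} (k : ℕ) :
    (2 : ℝ) ^ ((1 / 2 - β / 3) * (k : ℝ) - 1) ≤ (len β k : ℝ) := by
  rw [len_cast]
  apply Real.rpow_le_rpow_of_exponent_le (by norm_num)
  linarith [lt_ex_add_one (β := β) k]

lemma ncell_mul_len {β : ℝ} (hβ : 0 < β) (hβ' : β ≤ 1 / 1000) (k : ℕ) :
    ncell β k * len β k = 2 ^ k := by
  unfold ncell len
  rw [← pow_add, Nat.sub_add_cancel (ex_le hβ hβ' k)]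

lemma mem_cell {β : ℝ} {k j n : ℕ} :
    n ∈ cell β k j ↔ 2 ^ k + j * len β k ≤ n ∧ n < 2 ^ k + (j + 1) * len β k := by
  unfold cell
  rw [Finset.mem_Ico]

lemma cell_eq (β : ℝ) (k j : ℕ) :
    cell β k j = Finset.Ico (2 ^ k + j * len β k) ((2 ^ k + j * len β k) + len β k) := by
  unfold cell
  congr 1
  ring

lemma card_cell (β : ℝ) (k j : ℕ) : (cell β k j).card = len β k := by
  rw [cell_eq, Nat.card_Ico]
  omega

lemma two_pow_le_of_mem_cell {β : ℝ} {k j n : ℕ} (h : n ∈ cell β k j) : 2 ^ k ≤ n := by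
  rw [mem_cell] at h
  exact le_trans (Nat.le_add_right _ _) h.1

lemma pos_of_mem_cell {β : ℝ} {k j n : ℕ} (h : n ∈ cell β k j) : 0 < n :=
  lt_of_lt_of_le (by positivity) (two_pow_le_of_mem_cell h)

lemma cell_end_le {β : ℝ} (hβ : 0 < β) (hβ' : β ≤ 1 / 1000) {k j : ℕ} (hj : j < ncell β k) :
    2 ^ k + (j + 1) * len β k ≤ 2 ^ (k + 1) := by
  have h1 : (j + 1) * len β k ≤ ncell β k * len β k := Nat.mul_le_mul_right _ hj
  rw [ncell_mul_len hβ hβ'] at h1
  rw [pow_succ]
  omega

lemma lt_two_pow_of_mem_cell {β : ℝ} (hβ : 0 < β) (hβ' : β ≤ 1 / 1000) {k j n : ℕ}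
    (hj : j < ncell β k) (h : n ∈ cell β k j) : n < 2 ^ (k + 1) := by
  rw [mem_cell] at h
  exact lt_of_lt_of_le h.2 (cell_end_le hβ hβ' hj)

/-- cells are disjoint -/
lemma cell_unique {β : ℝ} (hβ : 0 < β) (hβ' : β ≤ 1 / 1000) {k j k' j' n : ℕ}
    (hj : j < ncell β k) (hj' : j' < ncell β k') (h : n ∈ cell β k j) (h' : n ∈ cell β k' j') :
    k' = k ∧ j' = j := by
  have h1 := two_pow_le_of_mem_cell h
  have h2 := lt_two_pow_of_mem_cell hβ hβ' hj h
  have h3 := two_pow_le_of_mem_cell h'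
  have h4 := lt_two_pow_of_mem_cell hβ hβ' hj' h'
  have hk : k' = k := by
    have a1 : k < k' + 1 := by
      by_contra hcon
      push Not at hcon
      have := Nat.pow_le_pow_right (show 0 < 2 by norm_num) hcon
      omega
    have a2 : k' < k + 1 := by
      by_contra hcon
      push Not at hcon
      have := Nat.pow_le_pow_right (show 0 < 2 by norm_num) hcon
      omega
    omega
  subst hk
  refine ⟨rfl, ?_⟩
  rw [mem_cell] at h h'
  have hL := len_pos β k'
  have b1 : j < j' + 1 := by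
    have : j * len β k' < (j' + 1) * len β k' := by omega
    exact lt_of_mul_lt_mul_right this (Nat.zero_le _)
  have b2 : j' < j + 1 := by
    have : j' * len β k' < (j + 1) * len β k' := by omega
    exact lt_of_mul_lt_mul_right this (Nat.zero_le _)
  omega

/-- at most one multiple of `q ≥ len` in a cell -/
lemma multiple_unique {β : ℝ} {k j n n' q : ℕ} (hq : len β k ≤ q)
    (h : n ∈ cell β k j) (h' : n' ∈ cell β k j) (hn : q ∣ n) (hn' : q ∣ n') : n = n' := by
  rw [mem_cell] at h h'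
  obtain ⟨a, rfl⟩ := hn
  obtain ⟨b, rfl⟩ := hn'
  have hL := len_pos β k
  have e1 : (j + 1) * len β k = j * len β k + len β k := by ring
  rw [e1] at h h'
  rcases lt_trichotomy a b with hab | hab | hab
  · exfalso
    have : q * a + q ≤ q * b := by
      calc q * a + q = q * (a + 1) := by ring
        _ ≤ q * b := Nat.mul_le_mul_left q hab
    omega
  · rw [hab]
  · exfalso
    have : q * b + q ≤ q * a := by
      calc q * b + q = q * (b + 1) := by ring
        _ ≤ q * a := Nat.mul_le_mul_left q hab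
    omega

/-- number of multiples of `d` in an interval of length `N` -/
lemma card_multiples_le (a N d : ℕ) (hd : 0 < d) :
    ((((Finset.Ico a (a + N)).filter (fun n => d ∣ n)).card : ℕ) : ℝ) ≤ (N : ℝ) / d + 1 := by
  have hmap : ((Finset.Ico a (a + N)).filter (fun n => d ∣ n)).card ≤ N / d + 1 := by
    have hinj : ((Finset.Ico a (a + N)).filter (fun n => d ∣ n)).card ≤
        (Finset.Icc ((a + d - 1) / d) ((a + d - 1) / d + N / d)).card := by
      apply Finset.card_le_card_of_injOn (fun n => n / d)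
      · intro n hn
        simp only [Finset.coe_filter, Finset.mem_Ico, Set.mem_ofPred_eq] at hn
        obtain ⟨⟨h1, h2⟩, ⟨t, rfl⟩⟩ := hn
        simp only [Finset.coe_Icc, Set.mem_Icc]
        rw [Nat.mul_div_cancel_left _ hd]
        constructor
        · apply Nat.le_of_lt_succ
          rw [Nat.div_lt_iff_lt_mul hd]
          have : (t + 1) * d = d * t + d := by ring
          rw [Nat.succ_eq_add_one, this]
          omega
        · -- t ≤ ceil(a/d) + N/d
          have ha : a ≤ ((a + d - 1) / d) * d := by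
            have := Nat.div_add_mod (a + d - 1) d
            have h3 := Nat.mod_lt (a + d - 1) hd
            rw [mul_comm] at this
            omega
          have hN : N < (N / d + 1) * d := by
            have := Nat.div_add_mod N d
            have h3 := Nat.mod_lt N hd
            have h4 : (N / d + 1) * d = d * (N / d) + d := by ring
            omega
          have : d * t < ((a + d - 1) / d + (N / d + 1)) * d := by
            calc d * t < a + N := h2
              _ < ((a + d - 1) / d) * d + (N / d + 1) * d := by omega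
              _ = _ := by ring
          have h5 : t < (a + d - 1) / d + (N / d + 1) := by
            rw [mul_comm] at this
            exact lt_of_mul_lt_mul_right this (Nat.zero_le _)
          omega
      · intro n hn n' hn' hnn'
        simp only [Finset.coe_filter, Finset.mem_Ico, Set.mem_ofPred_eq] at hn hn'
        obtain ⟨_, ⟨t, rfl⟩⟩ := hn
        obtain ⟨_, ⟨t', rfl⟩⟩ := hn'
        simp only [Nat.mul_div_cancel_left _ hd] at hnn'
        rw [hnn']
    refine hinj.trans ?_
    rw [Nat.card_Icc]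
    generalize (a + d - 1) / d = t
    generalize N / d = u
    omega
  calc ((((Finset.Ico a (a + N)).filter (fun n => d ∣ n)).card : ℕ) : ℝ)
      ≤ ((N / d + 1 : ℕ) : ℝ) := by exact_mod_cast hmap
    _ ≤ (N : ℝ) / d + 1 := by
        push_cast
        have := @Nat.cast_div_le ℝ _ _ _ N d
        linarith

lemma pos_of_mem_D {β : ℝ} {k₀ : ℕ} (𝒟 : Dead β k₀) {k j : ℕ} (h : j ∈ 𝒟.D k) : k₀ < k := by
  by_contra hcon
  push Not at hcon
  rw [𝒟.small k hcon] at h
  simp at h

lemma lt_ncell_of_mem_D {β : ℝ} {k₀ : ℕ} (𝒟 : Dead β k₀) {k j : ℕ} (h : j ∈ 𝒟.D k) :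
    j < ncell β k := Finset.mem_range.mp (𝒟.sub k h)

/-- the prime `q` of an eligible pair is larger than the cell length -/
lemma Elig.len_lt {β : ℝ} (hβ : 0 < β) (hβ' : β ≤ 1 / 1000) {k j m q : ℕ} (h : Elig β k j m q) :
    len β k < q := by
  have h1 := len_le hβ' k
  have h2 := h.2.1
  have h3 : (2 : ℝ) ^ ((1 / 2 - β / 3) * (k : ℝ)) ≤ (2 : ℝ) ^ ((1 / 2 + 20 * β) * (k : ℝ)) := by
    apply Real.rpow_le_rpow_of_exponent_le (by norm_num)
    have : (0 : ℝ) ≤ k := Nat.cast_nonneg k
    nlinarith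
  have : (len β k : ℝ) < q := by linarith
  exact_mod_cast this

end Pool.Agent.MP_a187e6
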