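import Mathlib

/-!
# Common definitions for the disproof of MP_a187e6_nt (RH case)

Dyadic block `k` is `[2^k, 2^(k+1))`, divided into `ncell β k` cells of length
`len β k = 2^⌊(1/2-β/3)k⌋`.  `Dead β k₀` records a set of dead cells (in the application: the cells
with few primes), at most `2^(βk)` in block `k`, none in the blocks `k ≤ k₀`.
-/

namespace Pool.Agent.MP_a187e6

open Finset

/-- exponent of the cell length in block `k` -/
noncomputable def ex (β : ℝ) (k : ℕ) : ℕ := ⌊(1 / 2 - β / 3) * (k : ℝ)⌋₊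

/-- length of the cells of block `k` -/
noncomputable def len (β : ℝ) (k : ℕ) : ℕ := 2 ^ ex β k

/-- number of cells of block `k` -/
noncomputable def ncell (β : ℝ) (k : ℕ) : ℕ := 2 ^ (k - ex β k)

/-- the `j`-th cell of block `k` -/
noncomputable def cell (β : ℝ) (k j : ℕ) : Finset ℕ :=
  Finset.Ico (2 ^ k + j * len β k) (2 ^ k + (j + 1) * len β k)

/-- `(m, q)` is eligible for the cell `(k, j)`: `m q` lies in the cell, `q` is a prime
`> 2^((1/2+20β)k)`, `m > 1` has no prime factor `< 2^(20βk)`. -/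
def Elig (β : ℝ) (k j m q : ℕ) : Prop :=
  q.Prime ∧ (2 : ℝ) ^ ((1 / 2 + 20 * β) * (k : ℝ)) < q ∧ 1 < m ∧
    (∀ p : ℕ, p.Prime → p ∣ m → (2 : ℝ) ^ (20 * β * (k : ℝ)) ≤ p) ∧ m * q ∈ cell β k j

/-- a set of dead cells -/
structure Dead (β : ℝ) (k₀ : ℕ) where
  D : ℕ → Finset ℕ
  sub : ∀ k, D k ⊆ Finset.range (ncell β k)
  card : ∀ k, ((D k).card : ℝ) ≤ (2 : ℝ) ^ (β * (k : ℝ))
  small : ∀ k ≤ k₀, D k = ∅

namespace Dead

variable {β : ℝ} {k₀ : ℕ} (𝒟 : Dead β k₀)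

/-- `q` is eligible for some dead cell -/
def SStar (q : ℕ) : Prop := ∃ k j m, j ∈ 𝒟.D k ∧ Elig β k j m q

/-- `p` lies in a dead cell -/
def InDead (p : ℕ) : Prop := ∃ k j, j ∈ 𝒟.D k ∧ p ∈ cell β k j

/-- `(m, q)` is a control pair of the (dead) cell `(k, j)`: eligible, `q` is not eligible for any
other dead cell, and no prime factor of `m` is in `SStar` or in a dead cell. -/
def InK (k j m q : ℕ) : Prop :=
  Elig β k j m q ∧
    (∀ k' j' m', j' ∈ 𝒟.D k' → Elig β k' j' m' q → k' = k ∧ j' = j) ∧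
    ∀ p : ℕ, p.Prime → p ∣ m → ¬ 𝒟.SStar p ∧ ¬ 𝒟.InDead p

/-- `q` is a special prime: control prime of some dead cell -/
def Spec (q : ℕ) : Prop := ∃ k j m, j ∈ 𝒟.D k ∧ 𝒟.InK k j m q

open Classical in
/-- the control primes of the dead cell `(k, j)` -/
noncomputable def K (k j : ℕ) : Finset ℕ :=
  (Finset.range (2 ^ (k + 1))).filter (fun q => ∃ m, 𝒟.InK k j m q)

/-- `n` is a control number of the cell `(k, j)`: `n = m q` with `(m, q)` a control pair if the cell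
is dead, `n` a non-special prime if the cell is alive. -/
def Ctrl (k j n : ℕ) : Prop :=
  (j ∈ 𝒟.D k ∧ ∃ m q, n = m * q ∧ 𝒟.InK k j m q) ∨ (j ∉ 𝒟.D k ∧ n.Prime ∧ ¬ 𝒟.Spec n)

end Dead

/-- The majorant `α`: completely multiplicative, nonnegative, `0` at primes `< P` and at non-special
primes in dead cells, `≤ 3/log²p` at non-special primes, and not too large at special primes. -/
structure AlphaData {β : ℝ} {k₀ : ℕ} (𝒟 : Dead β k₀) (P K₀ : ℕ) (Cs : ℝ) (α : ℕ → ℝ) : Prop where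
  one : α 1 = 1
  mul : ∀ m n, m ≠ 0 → n ≠ 0 → α (m * n) = α m * α n
  nonneg : ∀ n, 0 ≤ α n
  small : ∀ p : ℕ, p.Prime → p < P → α p = 0
  ord : ∀ p : ℕ, p.Prime → ¬ 𝒟.Spec p → α p ≤ 3 / (Real.log p) ^ 2
  zero : ∀ p : ℕ, p.Prime → ¬ 𝒟.Spec p → 𝒟.InDead p → α p = 0
  spec : ∀ k j m q, j ∈ 𝒟.D k → 𝒟.InK k j m q →
    α (m * q) ≤ Cs / (k : ℝ) ^ 2 ∧ α q ≤ Cs * ((k : ℝ) + 1) ^ (2 * K₀)

end Pool.Agent.MP_a187e6
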