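import Pool.Agent.MP_a187e6.EulerUpper
import Pool.Agent.MP_a187e6.AlphaBasic
import Pool.Agent.MP_a187e6.Sparse

/-!
# Module E3 : numbers with a large special part
-/

namespace Pool.Agent.MP_a187e6

open Finset

lemma Dead.Spec.sstar {β : ℝ} {k₀ : ℕ} {𝒟 : Dead β k₀} {q : ℕ} (h : 𝒟.Spec q) : 𝒟.SStar q := by
  obtain ⟨k, j, m, hj, hK⟩ := h
  exact ⟨k, j, m, hj, hK.1⟩

/-- a number with a large special part has a divisor composed of special primes in `(x, L]` -/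
lemma exists_spec_divisor {β : ℝ} {k₀ : ℕ} (𝒟 : Dead β k₀) (n L : ℕ) (x : ℝ)
    (hL : 1 ≤ L) (hx : 0 ≤ x) (hxL : x * x ≤ L) (hn : 0 < n)
    (h : ¬ ∀ d, d ∣ n → (∀ p : ℕ, p.Prime → p ∣ d → 𝒟.Spec p) → (d : ℝ) ≤ x)
    (hq : ∀ q : ℕ, q.Prime → q ∣ n → 𝒟.Spec q → q ≤ L) :
    ∃ d, d ∣ n ∧ (∀ p : ℕ, p.Prime → p ∣ d → 𝒟.Spec p) ∧ x < d ∧ d ≤ L := by
  classical
  push Not at h
  have hex : ∃ d, d ∣ n ∧ (∀ p : ℕ, p.Prime → p ∣ d → 𝒟.Spec p) ∧ x < d := h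
  set d := Nat.find hex with hd
  obtain ⟨h1, h2, h3⟩ := Nat.find_spec hex
  have hmin : ∀ e : ℕ, e < d → e ∣ n → (∀ p : ℕ, p.Prime → p ∣ e → 𝒟.Spec p) → (e : ℝ) ≤ x := by
    intro e he hen hes
    by_contra hcon
    push Not at hcon
    exact Nat.find_min hex he ⟨hen, hes, hcon⟩
  rw [← hd] at h1 h2 h3
  refine ⟨d, h1, h2, h3, ?_⟩
  by_cases hdp : d.Prime
  · exact hq d hdp h1 (h2 d hdp dvd_rfl)
  by_cases hd1 : d = 1
  · rw [hd1]; exact hL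
  have hd0 : d ≠ 0 := by
    intro h0
    rw [h0] at h1
    have := Nat.eq_zero_of_zero_dvd h1
    omega
  set p := d.minFac with hp
  have hpp : p.Prime := Nat.minFac_prime hd1
  have hpd : p ∣ d := Nat.minFac_dvd d
  obtain ⟨e, he⟩ := hpd
  have hp2 := hpp.two_le
  have he0 : e ≠ 0 := by
    rintro rfl
    rw [mul_zero] at he
    exact hd0 he
  have he1 : e ≠ 1 := by
    intro h0
    rw [h0, mul_one] at he
    exact hdp (he ▸ hpp)
  have hpd' : p ∣ d := ⟨e, he⟩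
  have hed : e ∣ d := ⟨p, by rw [he]; ring⟩
  have hplt : p < d := by
    rw [he]
    have : 2 ≤ e := by omega
    calc p < p * 2 := by omega
      _ ≤ p * e := Nat.mul_le_mul_left _ this
  have helt : e < d := by
    rw [he]
    calc e < 2 * e := by omega
      _ ≤ p * e := Nat.mul_le_mul_right _ hp2
  have hpx := hmin p hplt (hpd'.trans h1) (fun r hr hrp => h2 r hr (hrp.trans hpd'))
  have hex' := hmin e helt (hed.trans h1) (fun r hr hrp => h2 r hr (hrp.trans hed))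
  have : (d : ℝ) ≤ L := by
    calc (d : ℝ) = p * e := by exact_mod_cast he
      _ ≤ x * x := mul_le_mul hpx hex' (Nat.cast_nonneg _) hx
      _ ≤ L := hxL
  exact_mod_cast this

/-- T2 -/
theorem spec_part_sum {β : ℝ} (hβ : 0 < β) (hβ' : β ≤ 1 / 1000) (K₀ : ℕ) (Cs : ℝ) :
    ∃ k₁ : ℕ, ∀ k₀ : ℕ, k₁ ≤ k₀ → ∀ P : ℕ, 7 ≤ P →
      ∀ 𝒟 : Dead β k₀, ∀ α : ℕ → ℝ, AlphaData 𝒟 P K₀ Cs α →
        ∀ k : ℕ, k₀ < k → ∀ j < ncell β k, ∀ s : Finset ℕ, s ⊆ cell β k j →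
          (∀ n ∈ s, ¬ SmallSpec 𝒟 k n ∧ ∀ q : ℕ, q.Prime → q ∣ n → 𝒟.Spec q → q ≤ len β k) →
          ∑ n ∈ s, α n ≤ len β k * (2 : ℝ) ^ (-(β / 2) * (k : ℝ)) := by
  classical
  obtain ⟨ka, hka⟩ := alpha_le hβ hβ' K₀ Cs
  obtain ⟨ksp, hksp⟩ := sparse_sum hβ hβ'
  set N1 : ℕ := ⌈1 / (4 * β)⌉₊ with hN1
  set N2 : ℕ := ⌈7 / β⌉₊ with hN2
  refine ⟨ka + ksp + N1 + N2 + 3, ?_⟩
  intro k₀ hk₀ P hP 𝒟 α hα k hk j hj s hs hsn
  have hk0pos : (0 : ℝ) < k₀ := by exact_mod_cast (by omega : 0 < k₀)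
  have hkpos : (3 : ℝ) ≤ k := by exact_mod_cast (by omega : 3 ≤ k)
  have hkN1 : 1 ≤ 4 * β * (k₀ : ℝ) := by
    have e1 : (1 / (4 * β) : ℝ) ≤ N1 := Nat.le_ceil _
    have e2 : (N1 : ℝ) ≤ k₀ := by exact_mod_cast (by omega : N1 ≤ k₀)
    have e3 := e1.trans e2
    rw [div_le_iff₀ (by positivity)] at e3
    linarith
  have hkN2 : 7 ≤ β * (k : ℝ) := by
    have e1 : (7 / β : ℝ) ≤ N2 := Nat.le_ceil _
    have e2 : (N2 : ℝ) ≤ k := by exact_mod_cast (by omega : N2 ≤ k)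
    have e3 := e1.trans e2
    rw [div_le_iff₀ hβ] at e3
    linarith
  set L : ℕ := len β k with hLdef
  have hL1 : 1 ≤ L := len_pos β k
  have hLpos : (0 : ℝ) < L := by exact_mod_cast hL1
  set x : ℝ := (2 : ℝ) ^ ((k : ℝ) / 16) with hx
  have hx1 : 1 ≤ x := Real.one_le_rpow (by norm_num) (by positivity)
  have hxL : x * x ≤ L := by
    refine le_trans ?_ (le_len (β := β) k)
    rw [hx, ← Real.rpow_add (by norm_num)]
    apply Real.rpow_le_rpow_of_exponent_le (by norm_num)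
    nlinarith
  -- the completely multiplicative function
  let h : ℕ → ℝ := fun n => if n ≠ 0 ∧ ∀ p : ℕ, p.Prime → p ∣ n → 𝒟.Spec p then
    (n : ℝ) ^ (-1 + 20 * β) else 0
  have hh1 : h 1 = 1 := by
    simp only [h]
    rw [if_pos]
    · simp
    · refine ⟨one_ne_zero, fun p hp hp1 => ?_⟩
      exact absurd (Nat.dvd_one.1 hp1) hp.ne_one
  have hhmul : ∀ m n, m ≠ 0 → n ≠ 0 → h (m * n) = h m * h n := by
    intro m n hm hn
    simp only [h]
    by_cases h1 : ∀ p : ℕ, p.Prime → p ∣ m → 𝒟.Spec p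
    · by_cases h2 : ∀ p : ℕ, p.Prime → p ∣ n → 𝒟.Spec p
      · rw [if_pos ⟨mul_ne_zero hm hn, fun p hp hpd => by
          rcases (Nat.Prime.dvd_mul hp).1 hpd with h3 | h3
          · exact h1 p hp h3
          · exact h2 p hp h3⟩, if_pos ⟨hm, h1⟩, if_pos ⟨hn, h2⟩]
        push_cast
        exact Real.mul_rpow (Nat.cast_nonneg _) (Nat.cast_nonneg _)
      · rw [if_neg (fun h3 : m * n ≠ 0 ∧ ∀ p : ℕ, p.Prime → p ∣ m * n → 𝒟.Spec p =>
            h2 (fun p hp hpd => h3.2 p hp (hpd.mul_left m))),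
          if_neg (fun h3 : n ≠ 0 ∧ ∀ p : ℕ, p.Prime → p ∣ n → 𝒟.Spec p => h2 h3.2), mul_zero]
    · rw [if_neg (fun h3 : m * n ≠ 0 ∧ ∀ p : ℕ, p.Prime → p ∣ m * n → 𝒟.Spec p =>
          h1 (fun p hp hpd => h3.2 p hp (hpd.mul_right n))),
        if_neg (fun h3 : m ≠ 0 ∧ ∀ p : ℕ, p.Prime → p ∣ m → 𝒟.Spec p => h1 h3.2), zero_mul]
  have hhnn : ∀ n, 0 ≤ h n := by
    intro n
    simp only [h]
    split_ifs
    · positivity
    · exact le_rfl
  have hhsum : ∑ p ∈ (Finset.range (L + 1)).filter Nat.Prime, h p ≤ 1 / 2 := by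
    have h1 : ∑ p ∈ (Finset.range (L + 1)).filter Nat.Prime, h p
        = ∑ p ∈ ((Finset.range (L + 1)).filter Nat.Prime).filter (fun p => 𝒟.Spec p),
            (p : ℝ) ^ (-1 + 20 * β) := by
      rw [Finset.sum_filter (fun p => 𝒟.Spec p)]
      apply Finset.sum_congr rfl
      intro p hp
      have hpp := (Finset.mem_filter.1 hp).2
      simp only [h]
      by_cases hsp : 𝒟.Spec p
      · rw [if_pos hsp, if_pos ⟨hpp.ne_zero, fun r hr hrp => by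
          rw [(Nat.prime_dvd_prime_iff_eq hr hpp).1 hrp]; exact hsp⟩]
      · rw [if_neg hsp, if_neg (fun h3 => hsp (h3.2 p hpp dvd_rfl))]
    rw [h1]
    have h2 := hksp k₀ (by omega) 𝒟 (((Finset.range (L + 1)).filter Nat.Prime).filter
      (fun p => 𝒟.Spec p)) (fun p hp => by
        rw [Finset.mem_filter, Finset.mem_filter] at hp
        exact ⟨hp.1.2, Or.inl hp.2.sstar⟩)
    refine h2.trans ?_
    calc (2 : ℝ) ^ (-4 * β * (k₀ : ℝ)) ≤ (2 : ℝ) ^ (-1 : ℝ) :=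
          Real.rpow_le_rpow_of_exponent_le (by norm_num) (by linarith)
      _ = 1 / 2 := by rw [Real.rpow_neg_one]; norm_num
  have hhtot := sum_cm_le h hh1 hhmul hhnn (L + 1) (1 / 2) le_rfl hhsum
  -- the divisors
  set Ds := (Finset.Ico 2 (L + 1)).filter
    (fun d : ℕ => x < d ∧ ∀ p : ℕ, p.Prime → p ∣ d → 𝒟.Spec p) with hDs
  have hcover : s ⊆ Ds.biUnion (fun d => (cell β k j).filter (fun n => d ∣ n)) := by
    intro n hn
    obtain ⟨h1, h2⟩ := hsn n hn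
    have hnc := hs hn
    obtain ⟨d, hd1, hd2, hd3, hd4⟩ := exists_spec_divisor 𝒟 n L x hL1 (by linarith) hxL
      (pos_of_mem_cell hnc) h1 h2
    rw [Finset.mem_biUnion]
    refine ⟨d, ?_, Finset.mem_filter.2 ⟨hnc, hd1⟩⟩
    rw [hDs, Finset.mem_filter, Finset.mem_Ico]
    have : (1 : ℝ) < d := by linarith
    have : 1 < d := by exact_mod_cast this
    exact ⟨⟨by omega, by omega⟩, hd3, hd2⟩
  have hcard : (s.card : ℝ) ≤ 4 * L * (2 : ℝ) ^ (-(5 / 4) * β * (k : ℝ)) := by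
    have h1 : (s.card : ℝ) ≤ ∑ d ∈ Ds, (((cell β k j).filter (fun n => d ∣ n)).card : ℝ) := by
      exact_mod_cast (Finset.card_le_card hcover).trans Finset.card_biUnion_le
    have h2 : ∑ d ∈ Ds, (((cell β k j).filter (fun n => d ∣ n)).card : ℝ)
        ≤ ∑ d ∈ Ds, 2 * L * (2 : ℝ) ^ (-(5 / 4) * β * (k : ℝ)) * h d := by
      apply Finset.sum_le_sum
      intro d hd
      rw [hDs, Finset.mem_filter, Finset.mem_Ico] at hd
      obtain ⟨⟨hd2, hdL⟩, hxd, hdsp⟩ := hd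
      have hdpos : (0 : ℝ) < d := by exact_mod_cast (by omega : 0 < d)
      have h3 := card_multiples_le (2 ^ k + j * len β k) (len β k) d (by omega)
      rw [← cell_eq] at h3
      refine h3.trans ?_
      rw [← hLdef]
      have hdL' : (d : ℝ) ≤ L := by exact_mod_cast (by omega : d ≤ L)
      have h4 : (L : ℝ) / d + 1 ≤ 2 * (L / d) := by
        have : 1 ≤ (L : ℝ) / d := by
          rw [le_div_iff₀ hdpos]; linarith
        linarith
      refine h4.trans ?_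
      have h5 : h d = (d : ℝ) ^ (-1 + 20 * β) := by
        simp only [h]
        rw [if_pos ⟨by omega, hdsp⟩]
      rw [h5]
      have h6 : (d : ℝ) ^ (-1 + 20 * β) = (d : ℝ) ^ (20 * β) / d := by
        rw [show (-1 + 20 * β) = 20 * β - 1 by ring, Real.rpow_sub hdpos, Real.rpow_one]
      rw [h6]
      have h7 : (2 : ℝ) ^ ((5 / 4) * β * (k : ℝ)) ≤ (d : ℝ) ^ (20 * β) := by
        calc (2 : ℝ) ^ ((5 / 4) * β * (k : ℝ)) = x ^ (20 * β) := by
              rw [hx, ← Real.rpow_mul (by norm_num)]; congr 1; ring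
          _ ≤ _ := Real.rpow_le_rpow (by linarith) hxd.le (by positivity)
      have h8 : (2 : ℝ) ^ (-(5 / 4) * β * (k : ℝ)) * (2 : ℝ) ^ ((5 / 4) * β * (k : ℝ)) = 1 := by
        rw [← Real.rpow_add (by norm_num)]
        ring_nf
        exact Real.rpow_zero 2
      have h9 : 1 ≤ (2 : ℝ) ^ (-(5 / 4) * β * (k : ℝ)) * (d : ℝ) ^ (20 * β) := by
        rw [← h8]
        exact mul_le_mul_of_nonneg_left h7 (by positivity)
      calc 2 * ((L : ℝ) / d) = 2 * (L / d) * 1 := by ring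
        _ ≤ 2 * (L / d) * ((2 : ℝ) ^ (-(5 / 4) * β * (k : ℝ)) * (d : ℝ) ^ (20 * β)) :=
            mul_le_mul_of_nonneg_left h9 (by positivity)
        _ = _ := by ring
    have h3 : ∑ d ∈ Ds, h d ≤ 2 := by
      calc ∑ d ∈ Ds, h d ≤ ∑ d ∈ Finset.Ico 2 (L + 1), h d :=
            Finset.sum_le_sum_of_subset_of_nonneg (Finset.filter_subset _ _) (fun d _ _ => hhnn d)
        _ ≤ _ := by linarith
    rw [← Finset.mul_sum] at h2
    calc (s.card : ℝ) ≤ _ := h1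
      _ ≤ _ := h2
      _ ≤ 2 * L * (2 : ℝ) ^ (-(5 / 4) * β * (k : ℝ)) * 2 :=
          mul_le_mul_of_nonneg_left h3 (by positivity)
      _ = _ := by ring
  have hαn : ∀ n ∈ s, α n ≤ 2 * (2 : ℝ) ^ (β / 4 * (k : ℝ)) := by
    intro n hn
    have hns := hs hn
    have h1 := hka k₀ (by omega) P hP 𝒟 α hα n (pos_of_mem_cell hns)
    have h2 := lt_two_pow_of_mem_cell hβ hβ' hj hns
    have h3 : (n : ℝ) ≤ (2 : ℝ) ^ ((k : ℝ) + 1) := by
      have h4 : (n : ℝ) ≤ ((2 ^ (k + 1) : ℕ) : ℝ) := by exact_mod_cast h2.le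
      rw [show ((k : ℝ) + 1) = ((k + 1 : ℕ) : ℝ) by push_cast; ring, Real.rpow_natCast]
      push_cast at h4 ⊢
      exact h4
    calc α n ≤ (n : ℝ) ^ (β / 4) := h1
      _ ≤ ((2 : ℝ) ^ ((k : ℝ) + 1)) ^ (β / 4) :=
          Real.rpow_le_rpow (Nat.cast_nonneg _) h3 (by positivity)
      _ = (2 : ℝ) ^ (((k : ℝ) + 1) * (β / 4)) := by rw [← Real.rpow_mul (by norm_num)]
      _ ≤ (2 : ℝ) ^ (1 + β / 4 * (k : ℝ)) :=
          Real.rpow_le_rpow_of_exponent_le (by norm_num) (by nlinarith)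
      _ = _ := by rw [Real.rpow_add (by norm_num), Real.rpow_one]
  calc ∑ n ∈ s, α n ≤ ∑ n ∈ s, 2 * (2 : ℝ) ^ (β / 4 * (k : ℝ)) := Finset.sum_le_sum hαn
    _ = (s.card : ℝ) * (2 * (2 : ℝ) ^ (β / 4 * (k : ℝ))) := by
        rw [Finset.sum_const, nsmul_eq_mul]
    _ ≤ (4 * L * (2 : ℝ) ^ (-(5 / 4) * β * (k : ℝ))) * (2 * (2 : ℝ) ^ (β / 4 * (k : ℝ))) :=
        mul_le_mul_of_nonneg_right hcard (by positivity)
    _ = L * (8 * ((2 : ℝ) ^ (-(5 / 4) * β * (k : ℝ)) * (2 : ℝ) ^ (β / 4 * (k : ℝ)))) := by ring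
    _ = L * ((2 : ℝ) ^ (3 : ℝ) * (2 : ℝ) ^ (-β * (k : ℝ))) := by
        rw [← Real.rpow_add (by norm_num)]
        congr 2
        · norm_num
        · congr 1; ring
    _ = L * (2 : ℝ) ^ (3 + -β * (k : ℝ)) := by rw [← Real.rpow_add (by norm_num)]
    _ ≤ L * (2 : ℝ) ^ (-(β / 2) * (k : ℝ)) := by
        apply mul_le_mul_of_nonneg_left _ hLpos.le
        apply Real.rpow_le_rpow_of_exponent_le (by norm_num)
        linarith

end Pool.Agent.MP_a187e6
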