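import Pool.Agent.MP_a187e6.OrdinarySum
import Pool.Agent.MP_a187e6.SpecPart
import Pool.Agent.MP_a187e6.BigSpec

/-! Closure: the non-control numbers of a cell contribute little. -/

namespace Pool.Agent.MP_a187e6

open Finset

theorem closure {β : ℝ} (hβ : 0 < β) (hβ' : β ≤ 1 / 1000) (K₀ : ℕ) (Cs : ℝ) :
    ∀ ε : ℝ, 0 < ε → ∃ P₀ : ℕ, ∀ P : ℕ, P₀ ≤ P → ∃ k₁ : ℕ, ∀ k₀ : ℕ, k₁ ≤ k₀ →
      ∀ 𝒟 : Dead β k₀, ∀ α : ℕ → ℝ, AlphaData 𝒟 P K₀ Cs α →
        ∀ k : ℕ, k₀ < k → ∀ j < ncell β k, ∀ s : Finset ℕ, s ⊆ cell β k j →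
          (∀ n ∈ s, ¬ 𝒟.Ctrl k j n) →
          ∑ n ∈ s, α n ≤ ε * len β k / (k : ℝ) ^ 3 := by
  classical
  intro ε hε
  obtain ⟨P₁, hP₁⟩ := ordinary_sum hβ hβ' K₀ Cs (ε / 3) (by positivity)
  obtain ⟨P₂, hP₂⟩ := big_spec_sum hβ hβ' K₀ Cs (ε / 3) (by positivity)
  obtain ⟨ka, hka⟩ := spec_part_sum hβ hβ' K₀ Cs
  obtain ⟨kb, hkb⟩ := exists_pow_mul_two_rpow_le 3 (a := β / 2) (b := ε / 3) (by positivity)
    (by positivity)
  refine ⟨max (max P₁ P₂) 7, fun P hP => ?_⟩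
  simp only [max_le_iff] at hP
  obtain ⟨⟨hPP1, hPP2⟩, hP7⟩ := hP
  obtain ⟨k1, hk1⟩ := hP₁ P hPP1
  obtain ⟨k2, hk2⟩ := hP₂ P hPP2
  refine ⟨max (max k1 k2) (max (max ka kb) 20), fun k₀ hk₀ 𝒟 α hα k hk j hj s hs hctrl => ?_⟩
  simp only [max_le_iff] at hk₀
  obtain ⟨⟨h1, h2⟩, ⟨h3, h4⟩, h5⟩ := hk₀
  have hkpos : (0 : ℝ) < k := by
    have : 0 < k := by omega
    exact_mod_cast this
  have hk20 : (20 : ℝ) ≤ k := by
    have : 20 ≤ k := by omega
    exact_mod_cast this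
  have hLpos : (0 : ℝ) < len β k := by exact_mod_cast len_pos β k
  -- three parts
  set s1 := s.filter (fun n => ∃ q : ℕ, q.Prime ∧ q ∣ n ∧ 𝒟.Spec q ∧ len β k < q) with hs1
  set s' := s.filter (fun n => ¬ ∃ q : ℕ, q.Prime ∧ q ∣ n ∧ 𝒟.Spec q ∧ len β k < q) with hs'
  set s2 := s'.filter (fun n => ¬ SmallSpec 𝒟 k n) with hs2
  set s3 := s'.filter (fun n => ¬ ¬ SmallSpec 𝒟 k n) with hs3
  set s4 := s3.filter (fun n => ¬ n.Prime) with hs4
  set s5 := s3.filter (fun n => ¬ ¬ n.Prime) with hs5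
  have hsum : ∑ n ∈ s, α n = ∑ n ∈ s1, α n + (∑ n ∈ s2, α n + (∑ n ∈ s4, α n + ∑ n ∈ s5, α n)) := by
    rw [hs4, hs5, Finset.sum_filter_add_sum_filter_not, hs2, hs3, Finset.sum_filter_add_sum_filter_not,
      hs1, hs', Finset.sum_filter_add_sum_filter_not]
  have b1 : ∑ n ∈ s1, α n ≤ ε / 3 * len β k / (k : ℝ) ^ 3 := by
    apply hk2 k₀ h2 𝒟 α hα k hk j hj s1 ((Finset.filter_subset _ _).trans hs)
    intro n hn
    rw [hs1, Finset.mem_filter] at hn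
    exact ⟨hctrl n hn.1, hn.2⟩
  have b2 : ∑ n ∈ s2, α n ≤ ε / 3 * len β k / (k : ℝ) ^ 3 := by
    have h6 : ∑ n ∈ s2, α n ≤ len β k * (2 : ℝ) ^ (-(β / 2) * (k : ℝ)) := by
      apply hka k₀ h3 P hP7 𝒟 α hα k hk j hj s2
      · exact (Finset.filter_subset _ _).trans ((Finset.filter_subset _ _).trans hs)
      · intro n hn
        rw [hs2, Finset.mem_filter, hs', Finset.mem_filter] at hn
        refine ⟨hn.2, fun q hq hqn hqS => ?_⟩
        by_contra hcon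
        push Not at hcon
        exact hn.1.2 ⟨q, hq, hqn, hqS, hcon⟩
    refine h6.trans ?_
    rw [le_div_iff₀ (by positivity)]
    have h7 := hkb k (by omega)
    calc len β k * (2 : ℝ) ^ (-(β / 2) * (k : ℝ)) * (k : ℝ) ^ 3
        = len β k * ((k : ℝ) ^ 3 * (2 : ℝ) ^ (-(β / 2) * (k : ℝ))) := by ring
      _ ≤ len β k * (ε / 3) := mul_le_mul_of_nonneg_left h7 hLpos.le
      _ = _ := by ring
  have b4 : ∑ n ∈ s4, α n ≤ ε / 3 * len β k / (k : ℝ) ^ 3 := by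
    have hend := cell_end_le hβ hβ' hj
    apply hk1 k₀ h1 𝒟 α hα k (by omega) (2 ^ k + j * len β k) (len β k) (Nat.le_add_right _ _)
    · calc 2 ^ k + j * len β k + len β k = 2 ^ k + (j + 1) * len β k := by ring
        _ ≤ _ := hend
    · refine le_trans ?_ (le_len k)
      apply Real.rpow_le_rpow_of_exponent_le (by norm_num)
      nlinarith
    · rw [← cell_eq]
      exact (Finset.filter_subset _ _).trans ((Finset.filter_subset _ _).trans
        ((Finset.filter_subset _ _).trans hs))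
    · intro n hn
      rw [hs4, Finset.mem_filter, hs3, Finset.mem_filter, not_not] at hn
      exact ⟨hn.2, hn.1.2⟩
  have b5 : ∑ n ∈ s5, α n = 0 := by
    apply Finset.sum_eq_zero
    intro n hn
    rw [hs5, Finset.mem_filter, hs3, Finset.mem_filter, not_not, not_not, hs',
      Finset.mem_filter] at hn
    obtain ⟨⟨⟨hns, hnq⟩, hsm⟩, hpr⟩ := hn
    have hmem := hs hns
    have hnspec : ¬ 𝒟.Spec n := by
      intro hsp
      have h6 := hsm n dvd_rfl (by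
        intro p hp hpn
        rw [(Nat.prime_dvd_prime_iff_eq hp hpr).mp hpn]
        exact hsp)
      have h7 : (2 : ℝ) ^ (k : ℝ) ≤ n := by
        rw [Real.rpow_natCast]
        exact_mod_cast two_pow_le_of_mem_cell hmem
      have h8 : (2 : ℝ) ^ ((k : ℝ) / 16) < (2 : ℝ) ^ (k : ℝ) := by
        apply Real.rpow_lt_rpow_of_exponent_lt (by norm_num)
        linarith
      linarith
    have hnc := hctrl n hns
    unfold Dead.Ctrl at hnc
    push Not at hnc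
    by_cases hjD : j ∈ 𝒟.D k
    · exact hα.zero n hpr hnspec ⟨k, j, hjD, hmem⟩
    · exact absurd (hnc.2 hjD hpr) hnspec
  rw [hsum, b5]
  have : ε * len β k / (k : ℝ) ^ 3 = ε / 3 * len β k / (k : ℝ) ^ 3 +
    (ε / 3 * len β k / (k : ℝ) ^ 3 + (ε / 3 * len β k / (k : ℝ) ^ 3 + 0)) := by ring
  rw [this]
  linarith

end Pool.Agent.MP_a187e6
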