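import Pool.Agent.MP_a187e6.FixedPoint
import Pool.Agent.MP_a187e6.SmallSpec

/-! Basic lemmas on the completely multiplicative extension `cm`. -/

namespace Pool.Agent.MP_a187e6

open Finset

namespace Cm

lemma one (f : ℕ → ℝ) : cm f 1 = 1 := by simp [cm]

lemma mul (f : ℕ → ℝ) {m n : ℕ} (hm : m ≠ 0) (hn : n ≠ 0) : cm f (m * n) = cm f m * cm f n := by
  unfold cm
  have := Nat.perm_primeFactorsList_mul hm hn
  rw [(this.map f).prod_eq, List.map_append, List.prod_append]

lemma prime (f : ℕ → ℝ) {p : ℕ} (hp : p.Prime) : cm f p = f p := by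
  simp [cm, Nat.primeFactorsList_prime hp]

lemma list_nonneg {l : List ℕ} {f : ℕ → ℝ} (h : ∀ p ∈ l, 0 ≤ f p) : 0 ≤ (l.map f).prod := by
  apply List.prod_nonneg
  intro a ha
  rw [List.mem_map] at ha
  obtain ⟨p, hp, rfl⟩ := ha
  exact h p hp

lemma list_abs_le {l : List ℕ} {f A : ℕ → ℝ} (h : ∀ p ∈ l, |f p| ≤ A p) :
    |(l.map f).prod| ≤ (l.map A).prod := by
  induction l with
  | nil => simp
  | cons a l ih =>
    simp only [List.map_cons, List.prod_cons]
    rw [abs_mul]
    have h1 := h a (by simp)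
    have h2 := ih (fun p hp => h p (by simp [hp]))
    exact mul_le_mul h1 h2 (abs_nonneg _) (le_trans (abs_nonneg _) h1)

lemma list_le_abs {l : List ℕ} {f A : ℕ → ℝ} (h0 : ∀ p ∈ l, 0 ≤ A p) (h : ∀ p ∈ l, A p ≤ |f p|) :
    (l.map A).prod ≤ |(l.map f).prod| := by
  induction l with
  | nil => simp
  | cons a l ih =>
    simp only [List.map_cons, List.prod_cons]
    rw [abs_mul]
    have h1 := h a (by simp)
    have h2 := ih (fun p hp => h0 p (by simp [hp])) (fun p hp => h p (by simp [hp]))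
    have h3 : 0 ≤ (l.map A).prod := list_nonneg (fun p hp => h0 p (by simp [hp]))
    exact mul_le_mul h1 h2 h3 (abs_nonneg _)

lemma nonneg {f : ℕ → ℝ} {n : ℕ} (h : ∀ p : ℕ, p.Prime → p ∣ n → 0 ≤ f p) : 0 ≤ cm f n :=
  list_nonneg (fun p hp => h p (Nat.prime_of_mem_primeFactorsList hp)
    (Nat.dvd_of_mem_primeFactorsList hp))

lemma abs_le {f A : ℕ → ℝ} {n : ℕ} (h : ∀ p : ℕ, p.Prime → p ∣ n → |f p| ≤ A p) :
    |cm f n| ≤ cm A n :=
  list_abs_le (fun p hp => h p (Nat.prime_of_mem_primeFactorsList hp)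
    (Nat.dvd_of_mem_primeFactorsList hp))

lemma le_abs {f A : ℕ → ℝ} {n : ℕ} (h0 : ∀ p : ℕ, p.Prime → p ∣ n → 0 ≤ A p)
    (h : ∀ p : ℕ, p.Prime → p ∣ n → A p ≤ |f p|) : cm A n ≤ |cm f n| :=
  list_le_abs (fun p hp => h0 p (Nat.prime_of_mem_primeFactorsList hp)
    (Nat.dvd_of_mem_primeFactorsList hp)) (fun p hp => h p (Nat.prime_of_mem_primeFactorsList hp)
    (Nat.dvd_of_mem_primeFactorsList hp))

lemma mono {f A : ℕ → ℝ} {n : ℕ} (h0 : ∀ p : ℕ, p.Prime → p ∣ n → 0 ≤ f p)
    (h : ∀ p : ℕ, p.Prime → p ∣ n → f p ≤ A p) : cm f n ≤ cm A n := by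
  have h1 : |cm f n| ≤ cm A n := abs_le (fun p hp hpn => by
    rw [abs_of_nonneg (h0 p hp hpn)]
    exact h p hp hpn)
  exact (le_abs_self _).trans h1

lemma list_smul (c : ℝ) (f : ℕ → ℝ) (l : List ℕ) :
    (l.map (fun p => c * f p)).prod = c ^ l.length * (l.map f).prod := by
  induction l with
  | nil => simp
  | cons a l ih =>
    simp only [List.map_cons, List.prod_cons, List.length_cons, ih]
    ring

lemma smul (c : ℝ) (f : ℕ → ℝ) (n : ℕ) :
    cm (fun p => c * f p) n = c ^ n.primeFactorsList.length * cm f n := list_smul c f _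

lemma pos {f : ℕ → ℝ} {n : ℕ} (h : ∀ p : ℕ, p.Prime → p ∣ n → 0 < f p) : 0 < cm f n := by
  unfold cm
  apply List.prod_pos
  intro a ha
  rw [List.mem_map] at ha
  obtain ⟨p, hp, rfl⟩ := ha
  exact h p (Nat.prime_of_mem_primeFactorsList hp) (Nat.dvd_of_mem_primeFactorsList hp)

lemma congr {f g : ℕ → ℝ} {n : ℕ} (h : ∀ p : ℕ, p.Prime → p ∣ n → f p = g p) : cm f n = cm g n := by
  unfold cm
  congr 1
  apply List.map_congr_left
  intro p hp
  exact h p (Nat.prime_of_mem_primeFactorsList hp) (Nat.dvd_of_mem_primeFactorsList hp)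

/-- powers -/
lemma rpow (c : ℝ) {n : ℕ} (hn : n ≠ 0) : cm (fun p => (p : ℝ) ^ c) n = (n : ℝ) ^ c := by
  induction n using Nat.recOnMul with
  | zero => exact absurd rfl hn
  | one => simp [one]
  | prime p hp => rw [prime _ hp]
  | mul a b ha hb =>
    have ha0 : a ≠ 0 := fun h => hn (by simp [h])
    have hb0 : b ≠ 0 := fun h => hn (by simp [h])
    rw [mul _ ha0 hb0, ha ha0, hb hb0, Nat.cast_mul, Real.mul_rpow (by positivity) (by positivity)]

lemma fmul (f g : ℕ → ℝ) (n : ℕ) : cm (fun p => f p * g p) n = cm f n * cm g n := by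
  unfold cm
  induction n.primeFactorsList with
  | nil => simp
  | cons a l ih =>
    simp only [List.map_cons, List.prod_cons, ih]
    ring

lemma le_pow {f : ℕ → ℝ} {B : ℝ} {n : ℕ} (h0 : ∀ p : ℕ, p.Prime → p ∣ n → 0 ≤ f p)
    (h : ∀ p : ℕ, p.Prime → p ∣ n → f p ≤ B) : cm f n ≤ B ^ n.primeFactorsList.length := by
  have h1 : cm f n ≤ cm (fun _ => B) n := mono h0 h
  have h2 : cm (fun _ => B) n = B ^ n.primeFactorsList.length := by
    unfold cm
    simp
  rw [← h2]
  exact h1

end Cm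

/-- the number of prime factors of a rough number -/
lemma length_le_of_rough {z : ℝ} (hz : 1 ≤ z) {n : ℕ} (hn : n ≠ 0)
    (h : ∀ p : ℕ, p.Prime → p ∣ n → z ≤ p) : z ^ n.primeFactorsList.length ≤ n := by
  have h1 : cm (fun _ => z) n ≤ cm (fun p => (p : ℝ)) n :=
    Cm.mono (fun p hp hpn => by linarith) (fun p hp hpn => h p hp hpn)
  have h2 : cm (fun _ => z) n = z ^ n.primeFactorsList.length := by
    unfold cm
    simp
  have h3 : cm (fun p => (p : ℝ)) n = n := by
    have := Cm.rpow 1 hn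
    simpa using this
  rw [h2, h3] at h1
  exact h1

/-- signs making a finite signed sum small -/
lemma exists_signs (w : ℕ → ℝ) (M : ℝ) (hM : 0 ≤ M) (s : Finset ℕ) (hw : ∀ p ∈ s, 0 ≤ w p ∧ w p ≤ M) :
    ∃ sg : ℕ → ℝ, (∀ p, |sg p| = 1) ∧ |∑ p ∈ s, sg p * w p| ≤ M := by
  classical
  induction s using Finset.induction_on with
  | empty => exact ⟨fun _ => 1, fun _ => by simp, by simpa using hM⟩
  | insert a s ha ih =>
    obtain ⟨sg, h1, h2⟩ := ih (fun p hp => hw p (Finset.mem_insert_of_mem hp))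
    obtain ⟨h3, h4⟩ := hw a (Finset.mem_insert_self a s)
    by_cases hpos : 0 ≤ ∑ p ∈ s, sg p * w p
    · refine ⟨fun p => if p = a then -1 else sg p, fun p => ?_, ?_⟩
      · by_cases h : p = a <;> simp [h, h1]
      · rw [Finset.sum_insert ha]
        have h5 : ∑ p ∈ s, (if p = a then -1 else sg p) * w p = ∑ p ∈ s, sg p * w p := by
          apply Finset.sum_congr rfl
          intro p hp
          have : p ≠ a := fun h => ha (h ▸ hp)
          simp [this]
        rw [h5]
        simp only [if_true]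
        rw [abs_le] at h2 ⊢
        constructor <;> linarith [h2.1, h2.2]
    · push Not at hpos
      refine ⟨fun p => if p = a then 1 else sg p, fun p => ?_, ?_⟩
      · by_cases h : p = a <;> simp [h, h1]
      · rw [Finset.sum_insert ha]
        have h5 : ∑ p ∈ s, (if p = a then 1 else sg p) * w p = ∑ p ∈ s, sg p * w p := by
          apply Finset.sum_congr rfl
          intro p hp
          have : p ≠ a := fun h => ha (h ▸ hp)
          simp [this]
        rw [h5]
        simp only [if_true]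
        rw [abs_le] at h2 ⊢
        constructor <;> linarith [h2.1, h2.2]

end Pool.Agent.MP_a187e6
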