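import Pool.Agent.MP_a187e6.Sparse

/-!
# Module C: conflicts (Farey counts)
-/

namespace Pool.Agent.MP_a187e6

open Finset

namespace ConfAux

/-- polynomials are eventually below exponentials -/
lemma poly_le_exp (A : ℝ) (d : ℕ) {c : ℝ} (hc : 0 < c) :
    ∃ N : ℕ, ∀ n : ℕ, N ≤ n → A * ((n : ℝ) + 3) ^ d ≤ (2 : ℝ) ^ (c * (n : ℝ)) := by
  have hr : (1 : ℝ) < (2 : ℝ) ^ c := Real.one_lt_rpow (by norm_num) hc
  have h := isLittleO_pow_const_const_pow_of_one_lt (R := ℝ) d hr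
  have hA : (0 : ℝ) < |A| * 4 ^ d + 1 := by positivity
  have h2 := h.bound (inv_pos.mpr hA)
  rw [Filter.eventually_atTop] at h2
  obtain ⟨N, hN⟩ := h2
  refine ⟨max N 1, fun n hn => ?_⟩
  have hn1 : 1 ≤ n := le_trans (le_max_right _ _) hn
  have hn2 : N ≤ n := le_trans (le_max_left _ _) hn
  have h3 := hN n hn2
  rw [Real.norm_of_nonneg (by positivity), Real.norm_of_nonneg (by positivity)] at h3
  rw [Real.rpow_mul (by norm_num), Real.rpow_natCast]
  have hn1' : (1 : ℝ) ≤ n := by exact_mod_cast hn1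
  have h4 : ((n : ℝ) + 3) ^ d ≤ 4 ^ d * (n : ℝ) ^ d := by
    rw [← mul_pow]
    apply pow_le_pow_left₀ (by positivity)
    linarith
  have h5 : A * ((n : ℝ) + 3) ^ d ≤ |A| * (4 ^ d * (n : ℝ) ^ d) :=
    mul_le_mul (le_abs_self A) h4 (by positivity) (abs_nonneg A)
  have h6 : (|A| * 4 ^ d + 1) * (n : ℝ) ^ d ≤ ((2 : ℝ) ^ c) ^ n := by
    rw [← div_eq_inv_mul, le_div_iff₀ hA] at h3
    linarith
  have h7 : (0 : ℝ) ≤ (n : ℝ) ^ d := by positivity
  nlinarith

/-- number of Farey fractions with denominators in `[B, 2B)` in an interval of length `R` -/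
lemma card_pairs_le (T : Finset (ℕ × ℕ)) (B : ℕ) (hB : 1 ≤ B) (r R : ℝ) (hR : 0 ≤ R)
    (hT : ∀ x ∈ T, Nat.Coprime x.1 x.2 ∧ B ≤ x.2 ∧ x.2 < 2 * B ∧ r ≤ (x.1 : ℝ) / x.2 ∧
      (x.1 : ℝ) / x.2 ≤ r + R) :
    (T.card : ℝ) ≤ 4 * (B : ℝ) ^ 2 * R + 1 := by
  have hB' : (1 : ℝ) ≤ B := by exact_mod_cast hB
  have hX : (0 : ℝ) ≤ 4 * (B : ℝ) ^ 2 * R := by positivity
  have h1 : T.card ≤ (Finset.Icc (0 : ℤ) ⌊4 * (B : ℝ) ^ 2 * R⌋).card := by
    apply Finset.card_le_card_of_injOn (fun x => ⌊4 * (B : ℝ) ^ 2 * ((x.1 : ℝ) / x.2 - r)⌋)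
    · intro x hx
      obtain ⟨_, _, _, h4, h5⟩ := hT x hx
      rw [Finset.mem_coe, Finset.mem_Icc]
      constructor
      · apply Int.floor_nonneg.mpr
        apply mul_nonneg (by positivity)
        linarith
      · apply Int.floor_le_floor
        apply mul_le_mul_of_nonneg_left _ (by positivity)
        linarith
    · intro x hx y hy hxy
      obtain ⟨hx1, hx2, hx3, _, _⟩ := hT x hx
      obtain ⟨hy1, hy2, hy3, _, _⟩ := hT y hy
      have h2 := Int.abs_sub_lt_one_of_floor_eq_floor hxy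
      have hxpos : (0 : ℝ) < x.2 := by
        have : 0 < x.2 := by omega
        exact_mod_cast this
      have hypos : (0 : ℝ) < y.2 := by
        have : 0 < y.2 := by omega
        exact_mod_cast this
      have hxB : (x.2 : ℝ) < 2 * B := by exact_mod_cast hx3
      have hyB : (y.2 : ℝ) < 2 * B := by exact_mod_cast hy3
      have h3 : 4 * (B : ℝ) ^ 2 * ((x.1 : ℝ) / x.2 - r) - 4 * (B : ℝ) ^ 2 * ((y.1 : ℝ) / y.2 - r)
          = 4 * (B : ℝ) ^ 2 * ((x.1 : ℝ) * y.2 - y.1 * x.2) / (x.2 * y.2) := by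
        field_simp
        ring
      rw [h3, abs_div, abs_mul, abs_of_pos (show (0 : ℝ) < 4 * (B : ℝ) ^ 2 by positivity),
        abs_of_pos (mul_pos hxpos hypos), div_lt_one (mul_pos hxpos hypos)] at h2
      have h4 : (x.2 : ℝ) * y.2 < 4 * (B : ℝ) ^ 2 := by nlinarith
      have h5 : |(x.1 : ℝ) * y.2 - y.1 * x.2| < 1 := by
        by_contra hcon
        push Not at hcon
        have : 4 * (B : ℝ) ^ 2 * 1 ≤ 4 * (B : ℝ) ^ 2 * |(x.1 : ℝ) * y.2 - y.1 * x.2| :=
          mul_le_mul_of_nonneg_left hcon (by positivity)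
        linarith
      have h6 : |((x.1 : ℤ) * y.2 - y.1 * x.2)| < 1 := by
        have : ((|((x.1 : ℤ) * y.2 - y.1 * x.2)| : ℤ) : ℝ) < ((1 : ℤ) : ℝ) := by
          push_cast
          exact h5
        exact_mod_cast this
      have h7 : (x.1 : ℤ) * y.2 - y.1 * x.2 = 0 := Int.abs_lt_one_iff.mp h6
      have h8 : x.1 * y.2 = y.1 * x.2 := by
        have : (x.1 : ℤ) * y.2 = y.1 * x.2 := by linarith
        exact_mod_cast this
      have h9 : x.2 ∣ y.2 := by
        have : x.2 ∣ x.1 * y.2 := by rw [h8]; exact dvd_mul_left _ _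
        exact (Nat.Coprime.dvd_of_dvd_mul_left hx1.symm this)
      have h10 : y.2 ∣ x.2 := by
        have : y.2 ∣ y.1 * x.2 := by rw [← h8]; exact dvd_mul_left _ _
        exact (Nat.Coprime.dvd_of_dvd_mul_left hy1.symm this)
      have h11 : x.2 = y.2 := Nat.dvd_antisymm h9 h10
      have h12 : x.1 = y.1 := by
        rw [h11] at h8
        exact Nat.eq_of_mul_eq_mul_right (by omega) h8
      exact Prod.ext h12 h11
  have h2 : (T.card : ℝ) ≤ ((Finset.Icc (0 : ℤ) ⌊4 * (B : ℝ) ^ 2 * R⌋).card : ℝ) := by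
    exact_mod_cast h1
  refine h2.trans ?_
  rw [Int.card_Icc]
  have h3 : (0 : ℤ) ≤ ⌊4 * (B : ℝ) ^ 2 * R⌋ := Int.floor_nonneg.mpr hX
  have h4 : (((⌊4 * (B : ℝ) ^ 2 * R⌋ + 1 - 0).toNat : ℕ) : ℝ) = (⌊4 * (B : ℝ) ^ 2 * R⌋ : ℝ) + 1 := by
    have : (((⌊4 * (B : ℝ) ^ 2 * R⌋ + 1 - 0).toNat : ℕ) : ℤ) = ⌊4 * (B : ℝ) ^ 2 * R⌋ + 1 := by
      rw [Int.toNat_of_nonneg (by omega)]
      ring
    have h5 : ((((⌊4 * (B : ℝ) ^ 2 * R⌋ + 1 - 0).toNat : ℕ) : ℤ) : ℝ) =
        ((⌊4 * (B : ℝ) ^ 2 * R⌋ + 1 : ℤ) : ℝ) := by rw [this]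
    push_cast at h5
    simpa using h5
  rw [h4]
  have := Int.floor_le (4 * (B : ℝ) ^ 2 * R)
  linarith

/-- the basic count -/
lemma farey_count (c L c' L' B : ℕ) (hc' : 1 ≤ c') (hB : 1 ≤ B) (s : Finset ℕ)
    (hs : ∀ n ∈ s, c ≤ n ∧ n < c + L ∧ ∃ a b u : ℕ, n = a * u ∧ Nat.Coprime a b ∧ B ≤ b ∧
      b < 2 * B ∧ c' ≤ b * u ∧ b * u < c' + L') :
    (s.card : ℝ) ≤ (4 * (B : ℝ) ^ 2 * ((L : ℝ) / c' + (c : ℝ) * L' / (c' : ℝ) ^ 2) + 1) *
      ((L' : ℝ) / B + 1) := by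
  classical
  have hs1 : ∀ n ∈ s, c ≤ n := fun n hn => (hs n hn).1
  have hs2 : ∀ n ∈ s, n < c + L := fun n hn => (hs n hn).2.1
  have hs3 := fun n hn => (hs n hn).2.2
  choose! a b u hab using hs3
  set T := s.image (fun n => (a n, b n)) with hT
  have hc'r : (1 : ℝ) ≤ c' := by exact_mod_cast hc'
  have hBr : (1 : ℝ) ≤ B := by exact_mod_cast hB
  have hTcard : (T.card : ℝ) ≤ 4 * (B : ℝ) ^ 2 * ((L : ℝ) / c' + (c : ℝ) * L' / (c' : ℝ) ^ 2) + 1 := by
    apply card_pairs_le T B hB ((c : ℝ) / (c' + L'))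
    · positivity
    · intro x hx
      rw [hT, Finset.mem_image] at hx
      obtain ⟨n, hn, rfl⟩ := hx
      obtain ⟨h1, h2, h3, h4, h5, h6⟩ := hab n hn
      refine ⟨h2, h3, h4, ?_, ?_⟩
      · -- lower bound
        show (c : ℝ) / (c' + L') ≤ (a n : ℝ) / (b n : ℝ)
        have hbpos : (0 : ℝ) < b n := by
          have : 0 < b n := by omega
          exact_mod_cast this
        have hupos : 0 < u n := by
          rcases Nat.eq_zero_or_pos (u n) with h | h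
          · rw [h] at h5; omega
          · exact h
        have hupos' : (0 : ℝ) < u n := by exact_mod_cast hupos
        rw [div_le_div_iff₀ (by positivity) hbpos]
        have h7 : (c : ℝ) ≤ a n * u n := by
          have := hs1 n hn
          rw [h1] at this
          exact_mod_cast this
        have h8 : (b n : ℝ) * u n ≤ c' + L' := by
          have := h6.le
          exact_mod_cast this
        have h9 : (c : ℝ) * (b n * u n) ≤ (a n * u n) * (c' + L') :=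
          mul_le_mul h7 h8 (by positivity) (by positivity)
        have h10 : (c : ℝ) * b n * u n ≤ a n * (c' + L') * u n := by
          calc (c : ℝ) * b n * u n = (c : ℝ) * (b n * u n) := by ring
            _ ≤ _ := h9
            _ = _ := by ring
        exact le_of_mul_le_mul_right h10 hupos'
      · show (a n : ℝ) / (b n : ℝ) ≤ (c : ℝ) / (c' + L') + ((L : ℝ) / c' + (c : ℝ) * L' / (c' : ℝ) ^ 2)
        have hbpos : (0 : ℝ) < b n := by
          have : 0 < b n := by omega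
          exact_mod_cast this
        have hupos : 0 < u n := by
          rcases Nat.eq_zero_or_pos (u n) with h | h
          · rw [h] at h5; omega
          · exact h
        have hupos' : (0 : ℝ) < u n := by exact_mod_cast hupos
        have h7 : (a n : ℝ) * u n ≤ c + L := by
          have := (hs2 n hn).le
          rw [h1] at this
          exact_mod_cast this
        have h8 : (c' : ℝ) ≤ b n * u n := by exact_mod_cast h5
        have h9 : (a n : ℝ) / (b n : ℝ) ≤ ((c : ℝ) + L) / c' := by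
          rw [div_le_div_iff₀ hbpos (by positivity)]
          have h10 : (a n * u n : ℝ) * c' ≤ (c + L) * (b n * u n) :=
            mul_le_mul h7 h8 (by positivity) (by positivity)
          have h11 : (a n : ℝ) * c' * u n ≤ (c + L) * b n * u n := by
            calc (a n : ℝ) * c' * u n = (a n * u n : ℝ) * c' := by ring
              _ ≤ _ := h10
              _ = _ := by ring
          exact le_of_mul_le_mul_right h11 hupos'
        refine h9.trans ?_
        have h12 : ((c : ℝ) + L) / c' = L / c' + c / c' := by ring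
        have h13 : (c : ℝ) / c' - c / (c' + L') = c * L' / (c' * (c' + L')) := by
          field_simp
          ring
        have h14 : (c : ℝ) * L' / (c' * (c' + L')) ≤ (c : ℝ) * L' / (c' : ℝ) ^ 2 := by
          apply div_le_div_of_nonneg_left (by positivity) (by positivity)
          rw [pow_two]
          apply mul_le_mul_of_nonneg_left _ (by positivity)
          have : (0 : ℝ) ≤ L' := Nat.cast_nonneg L'
          linarith
        rw [h12]
        linarith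
  have hfib : s.card = ∑ x ∈ T, (s.filter (fun n => (a n, b n) = x)).card := by
    apply Finset.card_eq_sum_card_fiberwise
    intro n hn
    exact Finset.mem_coe.mpr (Finset.mem_image_of_mem _ hn)
  have hfib' : (s.card : ℝ) = ∑ x ∈ T, ((s.filter (fun n => (a n, b n) = x)).card : ℝ) := by
    rw [hfib]
    push_cast
    rfl
  rw [hfib']
  have hbound : ∀ x ∈ T, ((s.filter (fun n => (a n, b n) = x)).card : ℝ) ≤ (L' : ℝ) / B + 1 := by
    intro x hx
    rw [hT, Finset.mem_image] at hx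
    obtain ⟨n₀, hn₀, rfl⟩ := hx
    obtain ⟨_, _, hb3, _, _, _⟩ := hab n₀ hn₀
    have hbp : 0 < b n₀ := by omega
    have h1 : (s.filter (fun n => (a n, b n) = (a n₀, b n₀))).card ≤
        ((Finset.Ico c' (c' + L')).filter (fun n => b n₀ ∣ n)).card := by
      apply Finset.card_le_card_of_injOn (fun n => b n₀ * u n)
      · intro n hn
        have hn' := Finset.mem_filter.mp (Finset.mem_coe.mp hn)
        obtain ⟨h1, h2, h3, h4, h5, h6⟩ := hab n hn'.1
        have hb : b n = b n₀ := (Prod.ext_iff.mp hn'.2).2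
        rw [Finset.mem_coe, Finset.mem_filter, Finset.mem_Ico]
        rw [hb] at h5 h6
        exact ⟨⟨h5, h6⟩, dvd_mul_right _ _⟩
      · intro n hn n' hn'' he
        have hn1 := Finset.mem_filter.mp (Finset.mem_coe.mp hn)
        have hn2 := Finset.mem_filter.mp (Finset.mem_coe.mp hn'')
        have ha1 : a n = a n₀ := (Prod.ext_iff.mp hn1.2).1
        have ha2 : a n' = a n₀ := (Prod.ext_iff.mp hn2.2).1
        have hu : u n = u n' := Nat.eq_of_mul_eq_mul_left hbp he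
        rw [(hab n hn1.1).1, (hab n' hn2.1).1, ha1, ha2, hu]
    have h2 : ((s.filter (fun n => (a n, b n) = (a n₀, b n₀))).card : ℝ) ≤
        (((Finset.Ico c' (c' + L')).filter (fun n => b n₀ ∣ n)).card : ℝ) := by exact_mod_cast h1
    refine h2.trans ((card_multiples_le c' L' (b n₀) hbp).trans ?_)
    have h3 : (L' : ℝ) / (b n₀ : ℝ) ≤ (L' : ℝ) / B := by
      apply div_le_div_of_nonneg_left (by positivity) (by positivity)
      exact_mod_cast hb3
    linarith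
  calc ∑ x ∈ T, ((s.filter (fun n => (a n, b n) = x)).card : ℝ)
      ≤ ∑ x ∈ T, ((L' : ℝ) / B + 1) := Finset.sum_le_sum hbound
    _ = T.card * ((L' : ℝ) / B + 1) := by rw [Finset.sum_const, nsmul_eq_mul]
    _ ≤ _ := mul_le_mul_of_nonneg_right hTcard (by positivity)

lemma cast_lt_rpow_succ {n k : ℕ} (h : n < 2 ^ (k + 1)) : (n : ℝ) < (2 : ℝ) ^ ((k : ℝ) + 1) := by
  have h1 : (n : ℝ) < ((2 ^ (k + 1) : ℕ) : ℝ) := by exact_mod_cast h
  rw [show ((k : ℝ) + 1) = ((k + 1 : ℕ) : ℝ) by push_cast; ring, Real.rpow_natCast]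
  push_cast at h1 ⊢
  exact h1

lemma rpow_le_cast {n k : ℕ} (h : 2 ^ k ≤ n) : (2 : ℝ) ^ (k : ℝ) ≤ (n : ℝ) := by
  rw [Real.rpow_natCast]
  exact_mod_cast h

/-- first kind of conflicts -/
lemma conf_one {β : ℝ} (hβ : 0 < β) (hβ' : β ≤ 1 / 1000) {k j k' j' : ℕ}
    (hk' : 1 ≤ 40 * β * (k' : ℝ)) (hj' : j' < ncell β k')
    (s : Finset ℕ) (hs : s ⊆ cell β k j)
    (h : ∀ n ∈ s, ∃ q m', q ∣ n ∧ len β k < q ∧ Elig β k' j' m' q) : s.card ≤ len β k' := by
  classical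
  choose! q m' hq using h
  rw [← card_cell β k' j']
  apply Finset.card_le_card_of_injOn (fun n => m' n * q n)
  · intro n hn
    exact (hq n hn).2.2.2.2.2.2
  · intro n hn n' hn' he
    have h1 := elig_unique hβ hβ' hj' hk' (hq n hn).2.2 (hq n' hn').2.2 he
    have h2 := (hq n' hn').1
    rw [← h1] at h2
    exact multiple_unique (hq n hn).2.1.le (hs hn) (hs hn') (hq n hn).1 h2

/-- extraction of the Farey data -/
lemma extract {β : ℝ} {k' j' n q m' : ℕ} (hn : 0 < n) (hqn : q ∣ n)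
    (hE : Elig β k' j' m' q) (hnd : ¬ m' ∣ n / q) :
    ∃ a u : ℕ, n = a * u ∧ Nat.Coprime a (m' / Nat.gcd (n / q) m') ∧
      (m' / Nat.gcd (n / q) m') * u = m' * q ∧ 1 < m' / Nat.gcd (n / q) m' ∧
      m' / Nat.gcd (n / q) m' ∣ m' := by
  obtain ⟨m, rfl⟩ := hqn
  have hq : 0 < q := hE.1.pos
  rw [Nat.mul_div_cancel_left _ hq] at hnd ⊢
  have hm' : 1 < m' := hE.2.2.1
  have hm : 0 < m := Nat.pos_of_mul_pos_left hn
  set g := Nat.gcd m m' with hg
  have hgpos : 0 < g := Nat.gcd_pos_of_pos_left _ hm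
  have hgm : g ∣ m := Nat.gcd_dvd_left m m'
  have hgm' : g ∣ m' := Nat.gcd_dvd_right m m'
  refine ⟨m / g, g * q, ?_, ?_, ?_, ?_, ?_⟩
  · rw [← mul_assoc, Nat.div_mul_cancel hgm, mul_comm]
  · exact Nat.coprime_div_gcd_div_gcd hgpos
  · rw [← mul_assoc, Nat.div_mul_cancel hgm']
  · by_contra hle
    push Not at hle
    have h1 : 0 < m' / g := Nat.div_pos (Nat.le_of_dvd (by omega) hgm') hgpos
    have h2 : m' / g = 1 := by omega
    have h3 : m' = g := by
      have := Nat.div_mul_cancel hgm'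
      rw [h2, one_mul] at this
      exact this.symm
    exact hnd (h3 ▸ hgm)
  · exact Nat.div_dvd_of_dvd hgm'

/-- the numerical part of the second kind of conflicts -/
lemma numeric {β x y L L' B c c' : ℝ} (hβ : 0 < β) (hβ' : β ≤ 1 / 1000) (hx : 0 ≤ x)
    (hy1 : (1 - 5 * β) * x < y) (hy2 : y ≤ 2 * x + 2)
    (hL0 : 0 ≤ L) (hL'0 : 0 ≤ L') (hc0 : 0 ≤ c)
    (hL : L ≤ (2 : ℝ) ^ ((1 / 2 - β / 3) * x)) (hL' : L' ≤ (2 : ℝ) ^ ((1 / 2 - β / 3) * y))
    (hB0 : 0 < B) (hB : B ≤ (2 : ℝ) ^ ((1 / 2 - 20 * β) * y + 1))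
    (hB2 : (2 : ℝ) ^ (20 * β * y + y - x - 1) ≤ (2 * B) ^ 2)
    (hc : c ≤ (2 : ℝ) ^ (x + 1)) (hc' : (2 : ℝ) ^ y ≤ c') :
    (4 * B ^ 2 * (L / c' + c * L' / c' ^ 2) + 1) * (L' / B + 1) ≤
      256 * (2 : ℝ) ^ ((1 / 2 - β / 3 - 8 * β) * x) * (2 : ℝ) ^ (-β * y) := by
  have two_pos : (0 : ℝ) < 2 := by norm_num
  have hy0 : 0 ≤ y := by
    have : 0 ≤ (1 - 5 * β) * x := mul_nonneg (by linarith) hx
    linarith
  have hc'0 : 0 < c' := lt_of_lt_of_le (by positivity) hc'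
  have hβx : 0 ≤ β * x := mul_nonneg hβ.le hx
  have hββx : β * (β * x) ≤ (1 / 1000) * (β * x) := mul_le_mul_of_nonneg_right hβ' hβx
  have hd : 0 ≤ y - (1 - 5 * β) * x := by linarith
  have hβd : 0 ≤ β * (y - (1 - 5 * β) * x) := mul_nonneg hβ.le hd
  -- `L / c'`
  have q1 : L / c' ≤ (2 : ℝ) ^ ((1 / 2 - β / 3) * x - y) := by
    rw [Real.rpow_sub two_pos]
    exact div_le_div₀ (by positivity) hL (by positivity) hc'
  have q2 : c * L' / c' ^ 2 ≤ (2 : ℝ) ^ (x + 1 + (1 / 2 - β / 3) * y - 2 * y) := by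
    rw [Real.rpow_sub two_pos, Real.rpow_add two_pos (x + 1)]
    apply div_le_div₀ (by positivity) _ (by positivity) _
    · exact mul_le_mul hc hL' hL'0 (by positivity)
    · rw [mul_comm 2 y, Real.rpow_mul (by norm_num)]
      rw [Real.rpow_two]
      exact pow_le_pow_left₀ (by positivity) hc' 2
  have q3 : B ^ 2 ≤ (2 : ℝ) ^ (2 * ((1 / 2 - 20 * β) * y + 1)) := by
    rw [mul_comm 2 _, Real.rpow_mul (by norm_num), Real.rpow_two]
    exact pow_le_pow_left₀ (by positivity) hB 2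
  have q5 : L' / B ≤ (2 : ℝ) ^ (1 + (x + 1) / 2 - (β / 3 + 10 * β) * y) := by
    have h1 : (2 : ℝ) ^ ((20 * β * y + y - x - 1) / 2) ≤ 2 * B := by
      have h2 : ((2 : ℝ) ^ ((20 * β * y + y - x - 1) / 2)) ^ 2 ≤ (2 * B) ^ 2 := by
        rw [← Real.rpow_two, ← Real.rpow_mul (by norm_num)]
        refine le_trans (le_of_eq ?_) hB2
        congr 1
        ring
      exact le_of_sq_le_sq h2 (by positivity)
    rw [div_le_iff₀ hB0]
    have h3 : (2 : ℝ) ^ ((1 / 2 - β / 3) * y) =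
        (2 : ℝ) ^ ((1 + (x + 1) / 2 - (β / 3 + 10 * β) * y) - 1) *
          (2 : ℝ) ^ ((20 * β * y + y - x - 1) / 2) := by
      rw [← Real.rpow_add two_pos]
      congr 1
      ring
    have h4 : (2 : ℝ) ^ ((1 + (x + 1) / 2 - (β / 3 + 10 * β) * y) - 1) =
        (2 : ℝ) ^ (1 + (x + 1) / 2 - (β / 3 + 10 * β) * y) / 2 := by
      rw [Real.rpow_sub two_pos, Real.rpow_one]
    calc L' ≤ (2 : ℝ) ^ ((1 / 2 - β / 3) * y) := hL'
      _ = _ := h3
      _ ≤ (2 : ℝ) ^ ((1 + (x + 1) / 2 - (β / 3 + 10 * β) * y) - 1) * (2 * B) :=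
          mul_le_mul_of_nonneg_left h1 (by positivity)
      _ = _ := by rw [h4]; ring
  -- the target
  set Z : ℝ := (2 : ℝ) ^ ((1 / 2 - β / 3 - 8 * β) * x + 5) * (2 : ℝ) ^ (-β * y) with hZ
  have hZ' : ∀ e : ℝ, e + β * y ≤ (1 / 2 - β / 3 - 8 * β) * x + 5 → (2 : ℝ) ^ e ≤ Z := by
    intro e he
    rw [hZ, ← Real.rpow_add two_pos]
    apply Real.rpow_le_rpow_of_exponent_le (by norm_num)
    linarith
  have hfour : (4 : ℝ) = (2 : ℝ) ^ (2 : ℝ) := by norm_num
  have t1 : 4 * B * L' * (L / c') ≤ Z := by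
    have h1 : 4 * B * L' * (L / c') ≤ (2 : ℝ) ^ (2 : ℝ) * (2 : ℝ) ^ ((1 / 2 - 20 * β) * y + 1) *
        (2 : ℝ) ^ ((1 / 2 - β / 3) * y) * (2 : ℝ) ^ ((1 / 2 - β / 3) * x - y) := by
      rw [← hfour]
      gcongr
    rw [← Real.rpow_add two_pos, ← Real.rpow_add two_pos, ← Real.rpow_add two_pos] at h1
    refine h1.trans (hZ' _ ?_)
    linarith
  have t2 : 4 * B * L' * (c * L' / c' ^ 2) ≤ Z := by
    have h1 : 4 * B * L' * (c * L' / c' ^ 2) ≤ (2 : ℝ) ^ (2 : ℝ) *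
        (2 : ℝ) ^ ((1 / 2 - 20 * β) * y + 1) *
        (2 : ℝ) ^ ((1 / 2 - β / 3) * y) * (2 : ℝ) ^ (x + 1 + (1 / 2 - β / 3) * y - 2 * y) := by
      rw [← hfour]
      gcongr
    rw [← Real.rpow_add two_pos, ← Real.rpow_add two_pos, ← Real.rpow_add two_pos] at h1
    refine h1.trans (hZ' _ ?_)
    linarith
  have t3 : 4 * B ^ 2 * (L / c') ≤ Z := by
    have h1 : 4 * B ^ 2 * (L / c') ≤ (2 : ℝ) ^ (2 : ℝ) *
        (2 : ℝ) ^ (2 * ((1 / 2 - 20 * β) * y + 1)) * (2 : ℝ) ^ ((1 / 2 - β / 3) * x - y) := by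
      rw [← hfour]
      gcongr
    rw [← Real.rpow_add two_pos, ← Real.rpow_add two_pos] at h1
    refine h1.trans (hZ' _ ?_)
    linarith
  have t4 : 4 * B ^ 2 * (c * L' / c' ^ 2) ≤ Z := by
    have h1 : 4 * B ^ 2 * (c * L' / c' ^ 2) ≤ (2 : ℝ) ^ (2 : ℝ) *
        (2 : ℝ) ^ (2 * ((1 / 2 - 20 * β) * y + 1)) *
        (2 : ℝ) ^ (x + 1 + (1 / 2 - β / 3) * y - 2 * y) := by
      rw [← hfour]
      gcongr
    rw [← Real.rpow_add two_pos, ← Real.rpow_add two_pos] at h1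
    refine h1.trans (hZ' _ ?_)
    linarith
  have t5 : L' / B ≤ Z := by
    refine q5.trans (hZ' _ ?_)
    linarith
  have t6 : (1 : ℝ) ≤ Z := by
    have : (1 : ℝ) = (2 : ℝ) ^ (0 : ℝ) := by simp
    rw [this]
    apply hZ'
    have h1 : β * y ≤ β * (2 * x + 2) := mul_le_mul_of_nonneg_left hy2 hβ.le
    have h2 : β * x ≤ (1 / 1000) * x := mul_le_mul_of_nonneg_right hβ' hx
    have h3 : β * (2 * x + 2) = 2 * (β * x) + 2 * β := by ring
    have h4 : (1 / 2 - β / 3 - 8 * β) * x = x / 2 - (25 / 3) * (β * x) := by ring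
    rw [h4]
    rw [h3] at h1
    linarith
  have hfin : (4 * B ^ 2 * (L / c' + c * L' / c' ^ 2) + 1) * (L' / B + 1) =
      4 * B * L' * (L / c') + 4 * B * L' * (c * L' / c' ^ 2) + 4 * B ^ 2 * (L / c') +
      4 * B ^ 2 * (c * L' / c' ^ 2) + L' / B + 1 := by
    have hBL : L' = B * (L' / B) := by field_simp
    generalize L / c' = U
    generalize c * L' / c' ^ 2 = V
    generalize L' / B = W at hBL ⊢
    rw [hBL]
    ring
  rw [hfin]
  have hZ2 : Z = 32 * (2 : ℝ) ^ ((1 / 2 - β / 3 - 8 * β) * x) * (2 : ℝ) ^ (-β * y) := by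
    have h32 : (2 : ℝ) ^ (5 : ℝ) = 32 := by norm_num
    rw [hZ, Real.rpow_add two_pos, h32]
    ring
  have hpos : (0 : ℝ) ≤ (2 : ℝ) ^ ((1 / 2 - β / 3 - 8 * β) * x) * (2 : ℝ) ^ (-β * y) := by positivity
  linarith

lemma card_D_mul_len_le {β : ℝ} (hβ' : β ≤ 1 / 1000) {k₀ : ℕ} (𝒟 : Dead β k₀) (k : ℕ) :
    ((𝒟.D k).card : ℝ) * len β k ≤ (2 : ℝ) ^ ((1 / 2 + 2 * β / 3) * (k : ℝ)) := by
  have h1 := 𝒟.card k
  have h2 := len_le hβ' k
  have h3 : ((𝒟.D k).card : ℝ) * len β k ≤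
      (2 : ℝ) ^ (β * (k : ℝ)) * (2 : ℝ) ^ ((1 / 2 - β / 3) * (k : ℝ)) :=
    mul_le_mul h1 h2 (by positivity) (by positivity)
  rw [← Real.rpow_add (by norm_num)] at h3
  refine h3.trans (le_of_eq ?_)
  congr 1
  ring

/-- the predicate describing the second kind of conflict, with the dyadic size `2^i` of `b` -/
def W2 (β : ℝ) (k k' j' i n : ℕ) : Prop :=
  ∃ q m', q ∣ n ∧ Elig β k' j' m' q ∧ (1 - 5 * β) * (k : ℝ) < k' ∧ ¬ m' ∣ n / q ∧
    Nat.log 2 (m' / Nat.gcd (n / q) m') = i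

/-- constraints from one witness -/
lemma W2_constraints {β : ℝ} (hβ : 0 < β) (hβ' : β ≤ 1 / 1000) {k j k' j' i n : ℕ}
    (hj : j < ncell β k) (hj' : j' < ncell β k') (hn : n ∈ cell β k j) (hW : W2 β k k' j' i n) :
    (1 - 5 * β) * (k : ℝ) < k' ∧ (k' : ℝ) ≤ 2 * k + 2 ∧ i < k' + 1 ∧
    ((2 ^ i : ℕ) : ℝ) ≤ (2 : ℝ) ^ ((1 / 2 - 20 * β) * (k' : ℝ) + 1) ∧
    (2 : ℝ) ^ (20 * β * (k' : ℝ) + k' - k - 1) ≤ (2 * ((2 ^ i : ℕ) : ℝ)) ^ 2 ∧
    (∃ a b u : ℕ, n = a * u ∧ Nat.Coprime a b ∧ 2 ^ i ≤ b ∧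
      b < 2 * 2 ^ i ∧ 2 ^ k' + j' * len β k' ≤ b * u ∧
      b * u < (2 ^ k' + j' * len β k') + len β k') := by
  obtain ⟨q, m', hqn, hE, hk', hnd, hi⟩ := hW
  have hn0 := pos_of_mem_cell hn
  have hnlt := lt_two_pow_of_mem_cell hβ hβ' hj hn
  obtain ⟨a, u, hau, hcop, hbu, hb1, hbm⟩ := extract hn0 hqn hE hnd
  set b := m' / Nat.gcd (n / q) m' with hb
  have hb0 : b ≠ 0 := by omega
  have hbi : 2 ^ i ≤ b := by rw [← hi]; exact Nat.pow_log_le_self 2 hb0
  have hbi2 : b < 2 * 2 ^ i := by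
    have := Nat.lt_pow_succ_log_self (b := 2) (by norm_num) b
    rw [hi, pow_succ] at this
    omega
  have hcell := hE.2.2.2.2
  have hcell2 := lt_two_pow_of_mem_cell hβ hβ' hj' hcell
  have hcell3 := two_pow_le_of_mem_cell hcell
  have hq0 : 0 < q := hE.1.pos
  have hqle : q ≤ n := Nat.le_of_dvd hn0 hqn
  have hm0 : 0 < m' := by have := hE.2.2.1; omega
  have hble : b ≤ m' := Nat.le_of_dvd hm0 hbm
  -- real versions
  have hqR : (2 : ℝ) ^ ((1 / 2 + 20 * β) * (k' : ℝ)) < q := hE.2.1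
  have hnR : (n : ℝ) < (2 : ℝ) ^ ((k : ℝ) + 1) := cast_lt_rpow_succ hnlt
  have hmqR : ((m' * q : ℕ) : ℝ) < (2 : ℝ) ^ ((k' : ℝ) + 1) := cast_lt_rpow_succ hcell2
  have hmqR2 : (2 : ℝ) ^ (k' : ℝ) ≤ ((m' * q : ℕ) : ℝ) := rpow_le_cast hcell3
  have hk'0 : (0 : ℝ) ≤ k' := Nat.cast_nonneg k'
  have hk0 : (0 : ℝ) ≤ k := Nat.cast_nonneg k
  refine ⟨hk', ?_, ?_, ?_, ?_, ?_⟩
  · have h1 : (q : ℝ) ≤ n := by exact_mod_cast hqle
    have h2 : (2 : ℝ) ^ ((1 / 2 + 20 * β) * (k' : ℝ)) < (2 : ℝ) ^ ((k : ℝ) + 1) := by linarith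
    have h3 := (Real.rpow_lt_rpow_left_iff (by norm_num)).mp h2
    have h4 : 0 ≤ β * (k' : ℝ) := mul_nonneg hβ.le hk'0
    linarith
  · have h1 : 2 ^ i < 2 ^ (k' + 1) := by
      calc 2 ^ i ≤ b := hbi
        _ ≤ m' := hble
        _ ≤ m' * q := Nat.le_mul_of_pos_right m' hq0
        _ < _ := hcell2
    exact (Nat.pow_lt_pow_iff_right (by norm_num : 1 < 2)).mp h1
  · -- b q ≤ m' q < 2^(k'+1)
    have h1 : ((2 ^ i : ℕ) : ℝ) ≤ b := by exact_mod_cast hbi
    have h2 : (b : ℝ) ≤ m' := by exact_mod_cast hble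
    have h3 : (m' : ℝ) * (2 : ℝ) ^ ((1 / 2 + 20 * β) * (k' : ℝ)) ≤
        (2 : ℝ) ^ ((1 / 2 - 20 * β) * (k' : ℝ) + 1) * (2 : ℝ) ^ ((1 / 2 + 20 * β) * (k' : ℝ)) := by
      rw [← Real.rpow_add (by norm_num)]
      have h4 : (1 / 2 - 20 * β) * (k' : ℝ) + 1 + (1 / 2 + 20 * β) * (k' : ℝ) = (k' : ℝ) + 1 := by ring
      rw [h4]
      refine le_trans ?_ hmqR.le
      push_cast
      exact mul_le_mul_of_nonneg_left hqR.le (by positivity)
    have h5 := le_of_mul_le_mul_right h3 (by positivity)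
    linarith
  · -- lower bounds for b
    have hbR : (b : ℝ) < 2 * ((2 ^ i : ℕ) : ℝ) := by exact_mod_cast hbi2
    have l1 : (2 : ℝ) ^ (20 * β * (k' : ℝ)) ≤ b := by
      have hp := Nat.minFac_prime (show b ≠ 1 by omega)
      have hpm : b.minFac ∣ m' := (Nat.minFac_dvd b).trans hbm
      have h1 := hE.2.2.2.1 _ hp hpm
      have h2 : b.minFac ≤ b := Nat.minFac_le (by omega)
      have h3 : (b.minFac : ℝ) ≤ b := by exact_mod_cast h2
      linarith
    have l2 : (2 : ℝ) ^ ((k' : ℝ) - k - 1) ≤ b := by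
      have ha0 : 0 < a := by
        rcases Nat.eq_zero_or_pos a with h | h
        · rw [h] at hau; omega
        · exact h
      have hun : u ≤ n := by rw [hau]; exact Nat.le_mul_of_pos_left u ha0
      have huR : (u : ℝ) ≤ (2 : ℝ) ^ ((k : ℝ) + 1) := by
        have : (u : ℝ) ≤ n := by exact_mod_cast hun
        linarith
      have h1 : (2 : ℝ) ^ (k' : ℝ) ≤ b * u := by
        rw [← hbu] at hmqR2
        push_cast at hmqR2
        exact hmqR2
      have h2 : (2 : ℝ) ^ ((k' : ℝ) - k - 1) * (2 : ℝ) ^ ((k : ℝ) + 1) ≤ b * (2 : ℝ) ^ ((k : ℝ) + 1) := by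
        rw [← Real.rpow_add (by norm_num)]
        have h4 : (k' : ℝ) - k - 1 + ((k : ℝ) + 1) = k' := by ring
        rw [h4]
        refine h1.trans ?_
        exact mul_le_mul_of_nonneg_left huR (by positivity)
      exact le_of_mul_le_mul_right h2 (by positivity)
    calc (2 : ℝ) ^ (20 * β * (k' : ℝ) + k' - k - 1)
        = (2 : ℝ) ^ (20 * β * (k' : ℝ)) * (2 : ℝ) ^ ((k' : ℝ) - k - 1) := by
          rw [← Real.rpow_add (by norm_num)]
          congr 1
          ring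
      _ ≤ (b : ℝ) * b := mul_le_mul l1 l2 (by positivity) (by positivity)
      _ ≤ (2 * ((2 ^ i : ℕ) : ℝ)) * (2 * ((2 ^ i : ℕ) : ℝ)) :=
          mul_le_mul hbR.le hbR.le (by positivity) (by positivity)
      _ = _ := by ring
  · refine ⟨a, b, u, hau, hcop, hbi, hbi2, ?_, ?_⟩
    · rw [hbu]
      rw [mem_cell] at hcell
      exact hcell.1
    · rw [hbu]
      rw [mem_cell] at hcell
      have : (j' + 1) * len β k' = j' * len β k' + len β k' := by ring
      omega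

/-- second kind of conflicts -/
lemma conf_two {β : ℝ} (hβ : 0 < β) (hβ' : β ≤ 1 / 1000) {k j k' j' i : ℕ}
    (hj : j < ncell β k) (hj' : j' < ncell β k')
    (s : Finset ℕ) (hs : s ⊆ cell β k j) (h : ∀ n ∈ s, W2 β k k' j' i n) :
    (s.card : ℝ) ≤ 256 * (2 : ℝ) ^ ((1 / 2 - β / 3 - 8 * β) * (k : ℝ)) *
      (2 : ℝ) ^ (-β * (k' : ℝ)) := by
  rcases s.eq_empty_or_nonempty with he | ⟨n₀, hn₀⟩
  · rw [he]
    simp only [Finset.card_empty, Nat.cast_zero]
    positivity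
  obtain ⟨c1, c2, c3, c4, c5, _⟩ := W2_constraints hβ hβ' hj hj' (hs hn₀) (h n₀ hn₀)
  have hcount := farey_count (2 ^ k + j * len β k) (len β k) (2 ^ k' + j' * len β k') (len β k')
    (2 ^ i) (by have := Nat.one_le_two_pow (n := k'); omega) (Nat.one_le_two_pow) s (by
      intro n hn
      have hc := hs hn
      obtain ⟨_, _, _, _, _, hw⟩ := W2_constraints hβ hβ' hj hj' hc (h n hn)
      rw [mem_cell] at hc
      have : (j + 1) * len β k = j * len β k + len β k := by ring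
      refine ⟨by omega, by omega, ?_⟩
      obtain ⟨a, b, u, h1, h2, h3, h4, h5, h6⟩ := hw
      exact ⟨a, b, u, h1, h2, h3, h4, h5, h6⟩)
  refine hcount.trans ?_
  apply numeric hβ hβ' (Nat.cast_nonneg k) c1 c2 (Nat.cast_nonneg _) (Nat.cast_nonneg _)
    (Nat.cast_nonneg _) (len_le hβ' k) (len_le hβ' k') (by positivity) c4 c5
  · -- c ≤ 2^(k+1)
    have h1 : 2 ^ k + j * len β k ≤ 2 ^ (k + 1) := by
      have h2 := cell_end_le hβ hβ' hj
      have : (j + 1) * len β k = j * len β k + len β k := by ring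
      omega
    have h2 : ((2 ^ k + j * len β k : ℕ) : ℝ) ≤ ((2 ^ (k + 1) : ℕ) : ℝ) := by exact_mod_cast h1
    refine h2.trans (le_of_eq ?_)
    rw [show ((k : ℝ) + 1) = ((k + 1 : ℕ) : ℝ) by push_cast; ring, Real.rpow_natCast]
    push_cast
    rfl
  · exact rpow_le_cast (Nat.le_add_right _ _)

end ConfAux

open ConfAux

/-- few `n` of a cell have a prime factor `q > len` eligible for a dead cell `(k', j')` with cofactor
`m'`, unless `k'` is nearly `≥ k` and `m' ∣ n / q` -/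
theorem conf {β : ℝ} (hβ : 0 < β) (hβ' : β ≤ 1 / 1000) : ∃ k₁ : ℕ, ∀ k₀ : ℕ, k₁ ≤ k₀ →
    ∀ 𝒟 : Dead β k₀, ∀ k : ℕ, k₀ < k → ∀ j < ncell β k, ∀ s : Finset ℕ, s ⊆ cell β k j →
      (∀ n ∈ s, ∃ q : ℕ, q.Prime ∧ q ∣ n ∧ len β k < q ∧ ∃ k' j' m', j' ∈ 𝒟.D k' ∧
        Elig β k' j' m' q ∧ ((k' : ℝ) ≤ (1 - 5 * β) * k ∨ ¬ m' ∣ n / q)) →
      (s.card : ℝ) ≤ len β k * (2 : ℝ) ^ (-β * (k : ℝ)) := by
  classical
  obtain ⟨N1, hN1⟩ := poly_le_exp 4 1 (show (0:ℝ) < β / 2 by positivity)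
  obtain ⟨N2, hN2⟩ := poly_le_exp (4096) 2 (show (0:ℝ) < 7 * β by positivity)
  obtain ⟨N3, hN3⟩ := exists_nat_ge (1 / (40 * β))
  refine ⟨max N1 (max N2 N3), fun k₀ hk₀ 𝒟 k hk j hj s hs h => ?_⟩
  have hk1 : N1 ≤ k := by
    have := le_max_left N1 (max N2 N3)
    omega
  have hk2 : N2 ≤ k := by
    have := (le_max_left N2 N3).trans (le_max_right N1 (max N2 N3))
    omega
  have hk3 : N3 ≤ k₀ := by
    have := (le_max_right N2 N3).trans (le_max_right N1 (max N2 N3))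
    omega
  have hbig : ∀ k : ℕ, k₀ < k → 1 ≤ 40 * β * (k : ℝ) := by
    intro k hk
    have h1 : (1 / (40 * β)) ≤ (k : ℝ) := by
      refine hN3.trans ?_
      exact_mod_cast (by omega : N3 ≤ k)
    rw [div_le_iff₀ (by positivity)] at h1
    linarith
  -- the two parts
  let W1 : ℕ → ℕ → ℕ → Prop := fun k' j' n => (k' : ℝ) ≤ (1 - 5 * β) * k ∧
    ∃ q m', q ∣ n ∧ len β k < q ∧ Elig β k' j' m' q
  set S1 := (Finset.range (k + 1)).biUnion (fun k' => (𝒟.D k').biUnion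
    (fun j' => s.filter (fun n => W1 k' j' n))) with hS1
  set S2 := (Finset.range (2 * k + 3)).biUnion (fun k' => (𝒟.D k').biUnion
    (fun j' => (Finset.range (2 * k + 3)).biUnion
      (fun i => s.filter (fun n => W2 β k k' j' i n)))) with hS2
  have hunion : s ⊆ S1 ∪ S2 := by
    intro n hn
    obtain ⟨q, hq, hqn, hlen, k', j', m', hj', hE, hor⟩ := h n hn
    rw [Finset.mem_union]
    rcases le_or_gt ((k' : ℝ)) ((1 - 5 * β) * k) with hle | hgt
    · left
      rw [hS1, Finset.mem_biUnion]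
      refine ⟨k', ?_, ?_⟩
      · rw [Finset.mem_range]
        have h1 : (k' : ℝ) ≤ k := by
          have : (0 : ℝ) ≤ β * k := mul_nonneg hβ.le (Nat.cast_nonneg k)
          linarith
        have h2 : k' ≤ k := by exact_mod_cast h1
        omega
      · rw [Finset.mem_biUnion]
        refine ⟨j', hj', ?_⟩
        rw [Finset.mem_filter]
        exact ⟨hn, hle, q, m', hqn, hlen, hE⟩
    · right
      have hnd : ¬ m' ∣ n / q := by
        rcases hor with h1 | h1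
        · exact absurd h1 (not_le.mpr hgt)
        · exact h1
      have hW : W2 β k k' j' (Nat.log 2 (m' / Nat.gcd (n / q) m')) n :=
        ⟨q, m', hqn, hE, hgt, hnd, rfl⟩
      obtain ⟨c1, c2, c3, _⟩ := W2_constraints hβ hβ' hj (lt_ncell_of_mem_D 𝒟 hj') (hs hn) hW
      have c2' : k' ≤ 2 * k + 2 := by exact_mod_cast c2
      rw [hS2, Finset.mem_biUnion]
      refine ⟨k', by rw [Finset.mem_range]; omega, ?_⟩
      rw [Finset.mem_biUnion]
      refine ⟨j', hj', ?_⟩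
      rw [Finset.mem_biUnion]
      refine ⟨Nat.log 2 (m' / Nat.gcd (n / q) m'), Finset.mem_range.mpr (by omega), ?_⟩
      rw [Finset.mem_filter]
      exact ⟨hn, hW⟩
  have hcard : (s.card : ℝ) ≤ S1.card + S2.card := by
    have := (Finset.card_le_card hunion).trans (Finset.card_union_le S1 S2)
    exact_mod_cast this
  have hk0 : (0 : ℝ) ≤ k := Nat.cast_nonneg k
  have hβk : (0 : ℝ) ≤ β * k := mul_nonneg hβ.le hk0
  -- bound for S1
  have hb1 : (S1.card : ℝ) ≤ (k + 1) * (2 : ℝ) ^ ((1 / 2 - 11 * β / 6) * (k : ℝ)) := by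
    have h1 : (S1.card : ℝ) ≤ ∑ k' ∈ Finset.range (k + 1), ∑ j' ∈ 𝒟.D k',
        ((s.filter (fun n => W1 k' j' n)).card : ℝ) := by
      have : S1.card ≤ ∑ k' ∈ Finset.range (k + 1), ∑ j' ∈ 𝒟.D k',
          (s.filter (fun n => W1 k' j' n)).card := by
        refine Finset.card_biUnion_le.trans ?_
        apply Finset.sum_le_sum
        intro k' _
        exact Finset.card_biUnion_le
      exact_mod_cast this
    have h2 : ∀ k' ∈ Finset.range (k + 1), ∑ j' ∈ 𝒟.D k',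
        ((s.filter (fun n => W1 k' j' n)).card : ℝ) ≤
        (2 : ℝ) ^ ((1 / 2 - 11 * β / 6) * (k : ℝ)) := by
      intro k' _
      by_cases hle : (k' : ℝ) ≤ (1 - 5 * β) * k
      · calc ∑ j' ∈ 𝒟.D k', ((s.filter (fun n => W1 k' j' n)).card : ℝ)
            ≤ ∑ j' ∈ 𝒟.D k', (len β k' : ℝ) := by
              apply Finset.sum_le_sum
              intro j' hj'
              have := conf_one hβ hβ' (k := k) (j := j) (hbig k' (pos_of_mem_D 𝒟 hj'))
                (lt_ncell_of_mem_D 𝒟 hj')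
                (s.filter (fun n => W1 k' j' n))
                ((Finset.filter_subset _ _).trans hs)
                (fun n hn => (Finset.mem_filter.mp hn).2.2)
              exact_mod_cast this
          _ = (𝒟.D k').card * len β k' := by
              rw [Finset.sum_const, nsmul_eq_mul]
          _ ≤ (2 : ℝ) ^ ((1 / 2 + 2 * β / 3) * (k' : ℝ)) := card_D_mul_len_le hβ' 𝒟 k'
          _ ≤ _ := by
              apply Real.rpow_le_rpow_of_exponent_le (by norm_num)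
              have h3 : (1 / 2 + 2 * β / 3) * (k' : ℝ) ≤ (1 / 2 + 2 * β / 3) * ((1 - 5 * β) * k) :=
                mul_le_mul_of_nonneg_left hle (by positivity)
              have h4 : 0 ≤ β * (β * k) := mul_nonneg hβ.le hβk
              linarith
      · rw [Finset.sum_eq_zero]
        · positivity
        · intro j' _
          have : s.filter (fun n => W1 k' j' n) = ∅ := by
            apply Finset.filter_eq_empty_iff.mpr
            intro n _ hW
            exact hle hW.1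
          rw [this]
          simp
    calc (S1.card : ℝ) ≤ _ := h1
      _ ≤ ∑ k' ∈ Finset.range (k + 1), (2 : ℝ) ^ ((1 / 2 - 11 * β / 6) * (k : ℝ)) :=
          Finset.sum_le_sum h2
      _ = _ := by
          rw [Finset.sum_const, Finset.card_range, nsmul_eq_mul]
          push_cast
          ring
  -- bound for S2
  have hb2 : (S2.card : ℝ) ≤ (2 * k + 3) ^ 2 * (256 * (2 : ℝ) ^ ((1 / 2 - β / 3 - 8 * β) * (k : ℝ))) := by
    have h1 : (S2.card : ℝ) ≤ ∑ k' ∈ Finset.range (2 * k + 3), ∑ j' ∈ 𝒟.D k',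
        ∑ i ∈ Finset.range (2 * k + 3), ((s.filter (fun n => W2 β k k' j' i n)).card : ℝ) := by
      have : S2.card ≤ ∑ k' ∈ Finset.range (2 * k + 3), ∑ j' ∈ 𝒟.D k',
          ∑ i ∈ Finset.range (2 * k + 3), (s.filter (fun n => W2 β k k' j' i n)).card := by
        refine Finset.card_biUnion_le.trans ?_
        apply Finset.sum_le_sum
        intro k' _
        refine Finset.card_biUnion_le.trans ?_
        apply Finset.sum_le_sum
        intro j' _
        exact Finset.card_biUnion_le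
      exact_mod_cast this
    set V : ℝ := 256 * (2 : ℝ) ^ ((1 / 2 - β / 3 - 8 * β) * (k : ℝ)) with hV
    have hV0 : 0 ≤ V := by positivity
    have h2 : ∀ k' ∈ Finset.range (2 * k + 3), ∑ j' ∈ 𝒟.D k',
        ∑ i ∈ Finset.range (2 * k + 3), ((s.filter (fun n => W2 β k k' j' i n)).card : ℝ) ≤
        (2 * k + 3) * V := by
      intro k' _
      calc ∑ j' ∈ 𝒟.D k', ∑ i ∈ Finset.range (2 * k + 3),
            ((s.filter (fun n => W2 β k k' j' i n)).card : ℝ)
          ≤ ∑ j' ∈ 𝒟.D k', ∑ i ∈ Finset.range (2 * k + 3), V * (2 : ℝ) ^ (-β * (k' : ℝ)) := by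
            apply Finset.sum_le_sum
            intro j' hj'
            apply Finset.sum_le_sum
            intro i _
            exact conf_two hβ hβ' hj (lt_ncell_of_mem_D 𝒟 hj') _
              ((Finset.filter_subset _ _).trans hs) (fun n hn => (Finset.mem_filter.mp hn).2)
        _ = (𝒟.D k').card * ((2 * k + 3) * (V * (2 : ℝ) ^ (-β * (k' : ℝ)))) := by
            simp only [Finset.sum_const, Finset.card_range, nsmul_eq_mul]
            push_cast
            ring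
        _ ≤ (2 : ℝ) ^ (β * (k' : ℝ)) * ((2 * k + 3) * (V * (2 : ℝ) ^ (-β * (k' : ℝ)))) :=
            mul_le_mul_of_nonneg_right (𝒟.card k') (by positivity)
        _ = (2 * k + 3) * V * ((2 : ℝ) ^ (β * (k' : ℝ)) * (2 : ℝ) ^ (-β * (k' : ℝ))) := by ring
        _ = (2 * k + 3) * V := by
            rw [← Real.rpow_add (by norm_num)]
            have : β * (k' : ℝ) + -β * (k' : ℝ) = 0 := by ring
            rw [this, Real.rpow_zero, mul_one]
    calc (S2.card : ℝ) ≤ _ := h1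
      _ ≤ ∑ k' ∈ Finset.range (2 * k + 3), (2 * k + 3) * V := Finset.sum_le_sum h2
      _ = (2 * k + 3) ^ 2 * V := by
          rw [Finset.sum_const, Finset.card_range, nsmul_eq_mul]
          push_cast
          ring
  -- conclusion
  have hlen := le_len (β := β) k
  have hN1k := hN1 k hk1
  have hN2k := hN2 k hk2
  set Y : ℝ := (2 : ℝ) ^ ((1 / 2 - β / 3) * (k : ℝ) - 1) * (2 : ℝ) ^ (-β * (k : ℝ)) with hY
  have hYle : Y ≤ len β k * (2 : ℝ) ^ (-β * (k : ℝ)) :=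
    mul_le_mul_of_nonneg_right hlen (by positivity)
  have hY0 : 0 < Y := by positivity
  have e1 : (2 : ℝ) ^ ((1 / 2 - 11 * β / 6) * (k : ℝ)) * (2 : ℝ) ^ (β / 2 * (k : ℝ)) = 2 * Y := by
    have : (2 : ℝ) * Y = (2 : ℝ) ^ (1 : ℝ) * Y := by rw [Real.rpow_one]
    rw [this, hY, ← Real.rpow_add (by norm_num), ← Real.rpow_add (by norm_num),
      ← Real.rpow_add (by norm_num)]
    congr 1
    ring
  have e2 : (2 : ℝ) ^ ((1 / 2 - β / 3 - 8 * β) * (k : ℝ)) * (2 : ℝ) ^ (7 * β * (k : ℝ)) = 2 * Y := by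
    have : (2 : ℝ) * Y = (2 : ℝ) ^ (1 : ℝ) * Y := by rw [Real.rpow_one]
    rw [this, hY, ← Real.rpow_add (by norm_num), ← Real.rpow_add (by norm_num),
      ← Real.rpow_add (by norm_num)]
    congr 1
    ring
  have f1 : (S1.card : ℝ) ≤ Y / 2 := by
    have hX : (0 : ℝ) ≤ (2 : ℝ) ^ ((1 / 2 - 11 * β / 6) * (k : ℝ)) := by positivity
    have h1 : (2 : ℝ) ^ ((1 / 2 - 11 * β / 6) * (k : ℝ)) * (4 * ((k : ℝ) + 3) ^ 1) ≤ 2 * Y := by
      rw [← e1]
      exact mul_le_mul_of_nonneg_left hN1k hX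
    rw [pow_one] at h1
    linarith
  have f2 : (S2.card : ℝ) ≤ Y / 2 := by
    have hX : (0 : ℝ) ≤ (2 : ℝ) ^ ((1 / 2 - β / 3 - 8 * β) * (k : ℝ)) := by positivity
    have h1 : (2 : ℝ) ^ ((1 / 2 - β / 3 - 8 * β) * (k : ℝ)) * (4096 * ((k : ℝ) + 3) ^ 2) ≤ 2 * Y := by
      rw [← e2]
      exact mul_le_mul_of_nonneg_left hN2k hX
    have h2 : (2 * (k : ℝ) + 3) ^ 2 ≤ 4 * ((k : ℝ) + 3) ^ 2 := by nlinarith
    have h3 : (2 * (k : ℝ) + 3) ^ 2 * (256 * (2 : ℝ) ^ ((1 / 2 - β / 3 - 8 * β) * (k : ℝ))) ≤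
        4 * ((k : ℝ) + 3) ^ 2 * (256 * (2 : ℝ) ^ ((1 / 2 - β / 3 - 8 * β) * (k : ℝ))) :=
      mul_le_mul_of_nonneg_right h2 (by positivity)
    linarith
  linarith

end Pool.Agent.MP_a187e6
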