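import Pool.Agent.MP_a187e6.Conf
import Pool.Agent.MP_a187e6.Sparse
import Pool.Agent.MP_a187e6.SmallSpec

/-! Every dead cell has many control primes. -/

namespace Pool.Agent.MP_a187e6

open Finset

theorem card_K_ge {β : ℝ} (hβ : 0 < β) (hβ' : β ≤ 1 / 1000) {c : ℝ} (hc : 0 < c) {k₂ : ℕ}
    (hD : ∀ k : ℕ, k₂ ≤ k → ∀ j < ncell β k, ∃ s : Finset ℕ, s ⊆ cell β k j ∧
      (∀ n ∈ s, ∃ m q, n = m * q ∧ Elig β k j m q) ∧ c * len β k / k ≤ (s.card : ℝ)) :
    ∃ k₁ : ℕ, ∀ k₀ : ℕ, k₁ ≤ k₀ → ∀ 𝒟 : Dead β k₀, ∀ k j, j ∈ 𝒟.D k →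
      c / 2 * len β k / k ≤ ((𝒟.K k j).card : ℝ) := by
  classical
  obtain ⟨kc, hconf⟩ := conf hβ hβ'
  obtain ⟨ks, hsp⟩ := sparse_sum hβ hβ'
  obtain ⟨ka, hka⟩ := exists_pow_mul_two_rpow_le 1 (a := β) (b := c / 4) hβ (by positivity)
  obtain ⟨kb, hkb⟩ := exists_pow_mul_two_rpow_le 1 (a := 400 * β ^ 2) (b := c / 8) (by positivity)
    (by positivity)
  obtain ⟨kd, hkd⟩ := exists_nat_gt (1 / (5 * β))
  refine ⟨max (max (max kc ks) (max ka kb)) (max kd k₂), ?_⟩
  intro k₀ hk₀ 𝒟 k j hj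
  simp only [max_le_iff] at hk₀
  obtain ⟨⟨⟨hkc0, hks0⟩, hka0, hkb0⟩, hkd0, hk20⟩ := hk₀
  have hk0k := pos_of_mem_D 𝒟 hj
  have hjn := lt_ncell_of_mem_D 𝒟 hj
  have hkpos : (0 : ℝ) < k := by
    have : 0 < k := by omega
    exact_mod_cast this
  have hLpos : (0 : ℝ) < len β k := by exact_mod_cast len_pos β k
  obtain ⟨s, hs, hsE, hscard⟩ := hD k (by omega) j hjn
  have h15 : 1 < 5 * β * (k : ℝ) := by
    have h1 : (1 : ℝ) / (5 * β) < k := by
      have : (kd : ℝ) ≤ k := by
        have : kd ≤ k := by omega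
        exact_mod_cast this
      linarith
    rw [div_lt_iff₀ (by positivity)] at h1
    linarith
  -- the two bad sets
  set bad1 := s.filter (fun n => ∃ m q, n = m * q ∧ Elig β k j m q ∧
    ∃ k' j' m', j' ∈ 𝒟.D k' ∧ Elig β k' j' m' q ∧ ¬ (k' = k ∧ j' = j)) with hbad1
  set bad2 := s.filter (fun n => ∃ m q, n = m * q ∧ Elig β k j m q ∧
    ∃ p : ℕ, p.Prime ∧ p ∣ m ∧ (𝒟.SStar p ∨ 𝒟.InDead p)) with hbad2
  -- bad1 is small
  have hb1 : (bad1.card : ℝ) ≤ len β k * (2 : ℝ) ^ (-β * (k : ℝ)) := by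
    apply hconf k₀ hkc0 𝒟 k hk0k j hjn bad1 ((Finset.filter_subset _ _).trans hs)
    intro n hn
    rw [hbad1, Finset.mem_filter] at hn
    obtain ⟨hns, m, q, rfl, hE, k', j', m', hj', hE', hne⟩ := hn
    refine ⟨q, hE.1, dvd_mul_left q m, hE.len_lt hβ hβ', k', j', m', hj', hE', ?_⟩
    rw [Nat.mul_div_cancel _ hE.1.pos]
    by_contra hcon
    push Not at hcon
    obtain ⟨hk', hdvd⟩ := hcon
    obtain ⟨a, rfl⟩ := hdvd
    have hm'pos : 0 < m' := by
      have := hE'.2.2.1
      omega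
    have hqpos := hE.1.pos
    have hapos : 0 < a := by
      rcases Nat.eq_zero_or_pos a with h0 | h0
      · have := hE.2.2.1
        rw [h0] at this
        omega
      · exact h0
    have hjn' := lt_ncell_of_mem_D 𝒟 hj'
    rcases Nat.eq_or_lt_of_le (Nat.succ_le_of_lt hapos) with h1 | h1
    · -- a = 1
      have ha1 : a = 1 := h1.symm
      subst ha1
      have hmem := hE.2.2.2.2
      rw [mul_one] at hmem
      exact hne (cell_unique hβ hβ' hjn hjn' hmem hE'.2.2.2.2)
    · -- a ≥ 2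
      have ha2 : a ≠ 1 := by
        intro h
        rw [h] at h1
        exact lt_irrefl _ h1
      obtain ⟨p, hp, hpa⟩ := Nat.exists_prime_and_dvd ha2
      have hpz := hE.2.2.2.1 p hp (dvd_mul_of_dvd_right hpa m')
      have hpa' : p ≤ a := Nat.le_of_dvd hapos hpa
      have hn1 := lt_two_pow_of_mem_cell hβ hβ' hjn hE.2.2.2.2
      have hn2 := two_pow_le_of_mem_cell hE'.2.2.2.2
      have hn3 : (a : ℝ) * (2 : ℝ) ^ (k' : ℝ) < (2 : ℝ) ^ ((k : ℝ) + 1) := by
        have e1 : a * 2 ^ k' ≤ m' * a * q := by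
          calc a * 2 ^ k' ≤ a * (m' * q) := Nat.mul_le_mul_left a hn2
            _ = m' * a * q := by ring
        have e2 : a * 2 ^ k' < 2 ^ (k + 1) := lt_of_le_of_lt e1 hn1
        have e3 : ((a * 2 ^ k' : ℕ) : ℝ) < ((2 ^ (k + 1) : ℕ) : ℝ) := by exact_mod_cast e2
        push_cast at e3
        rw [Real.rpow_natCast]
        have e4 : (2 : ℝ) ^ ((k : ℝ) + 1) = (2 : ℝ) ^ (k + 1) := by
          rw [← Real.rpow_natCast]
          push_cast
          rfl
        rw [e4]
        exact e3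
      have hn4 : (2 : ℝ) ^ (20 * β * (k : ℝ) + k') < (2 : ℝ) ^ ((k : ℝ) + 1) := by
        rw [Real.rpow_add (by norm_num)]
        refine lt_of_le_of_lt ?_ hn3
        apply mul_le_mul_of_nonneg_right _ (by positivity)
        have : (p : ℝ) ≤ a := by exact_mod_cast hpa'
        linarith
      rw [Real.rpow_lt_rpow_left_iff (by norm_num)] at hn4
      nlinarith
  -- bad2 is small
  have hb2 : (bad2.card : ℝ) ≤ 2 * len β k * (2 : ℝ) ^ (-(400 * β ^ 2) * (k : ℝ)) := by
    set T := (Finset.range (len β k + 1)).filter (fun p => p.Prime ∧ (𝒟.SStar p ∨ 𝒟.InDead p) ∧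
      (2 : ℝ) ^ (20 * β * (k : ℝ)) ≤ p) with hT
    have hsub : bad2 ⊆ T.biUnion (fun p => (cell β k j).filter (fun n => p ∣ n)) := by
      intro n hn
      rw [hbad2, Finset.mem_filter] at hn
      obtain ⟨hns, m, q, rfl, hE, p, hp, hpm, hpS⟩ := hn
      rw [Finset.mem_biUnion]
      refine ⟨p, ?_, ?_⟩
      · rw [hT, Finset.mem_filter, Finset.mem_range]
        refine ⟨?_, hp, hpS, hE.2.2.2.1 p hp hpm⟩
        -- p ≤ m ≤ len
        have hmpos : 0 < m := by
          have := hE.2.2.1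
          omega
        have hpm' : p ≤ m := Nat.le_of_dvd hmpos hpm
        have hn1 := lt_two_pow_of_mem_cell hβ hβ' hjn hE.2.2.2.2
        have hm2 : (m : ℝ) * (2 : ℝ) ^ ((1 / 2 + 20 * β) * (k : ℝ)) < (2 : ℝ) ^ ((k : ℝ) + 1) := by
          have e3 : ((m * q : ℕ) : ℝ) < ((2 ^ (k + 1) : ℕ) : ℝ) := by exact_mod_cast hn1
          push_cast at e3
          have e4 : (2 : ℝ) ^ ((k : ℝ) + 1) = (2 : ℝ) ^ (k + 1) := by
            rw [← Real.rpow_natCast]
            push_cast
            rfl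
          rw [e4]
          refine lt_of_le_of_lt ?_ e3
          exact mul_le_mul_of_nonneg_left hE.2.1.le (by positivity)
        have hm3 : (m : ℝ) < (2 : ℝ) ^ ((1 / 2 - β / 3) * (k : ℝ) - 1) := by
          have e5 : (m : ℝ) < (2 : ℝ) ^ ((k : ℝ) + 1 - (1 / 2 + 20 * β) * (k : ℝ)) := by
            rw [Real.rpow_sub (by norm_num), lt_div_iff₀ (by positivity)]
            exact hm2
          refine lt_of_lt_of_le e5 ?_
          apply Real.rpow_le_rpow_of_exponent_le (by norm_num)
          nlinarith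
        have hm4 : (m : ℝ) < len β k := lt_of_lt_of_le hm3 (le_len k)
        have hm5 : m < len β k := by exact_mod_cast hm4
        omega
      · rw [Finset.mem_filter]
        exact ⟨hE.2.2.2.2, dvd_mul_of_dvd_left hpm q⟩
    have h1 : (bad2.card : ℝ) ≤ ∑ p ∈ T, (2 * len β k / p : ℝ) := by
      calc (bad2.card : ℝ) ≤ ((T.biUnion (fun p => (cell β k j).filter (fun n => p ∣ n))).card : ℝ) := by
            exact_mod_cast Finset.card_le_card hsub
        _ ≤ ((∑ p ∈ T, ((cell β k j).filter (fun n => p ∣ n)).card : ℕ) : ℝ) := by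
            exact_mod_cast Finset.card_biUnion_le
        _ = ∑ p ∈ T, (((cell β k j).filter (fun n => p ∣ n)).card : ℝ) := by push_cast; rfl
        _ ≤ ∑ p ∈ T, (2 * len β k / p : ℝ) := by
            apply Finset.sum_le_sum
            intro p hp
            rw [hT, Finset.mem_filter, Finset.mem_range] at hp
            have hppos : 0 < p := hp.2.1.pos
            have h2 := card_multiples_le (2 ^ k + j * len β k) (len β k) p hppos
            rw [← cell_eq] at h2
            refine h2.trans ?_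
            have h3 : (p : ℝ) ≤ len β k := by
              have : p ≤ len β k := by omega
              exact_mod_cast this
            have h4 : (0 : ℝ) < p := by exact_mod_cast hppos
            have h5 : 1 ≤ (len β k : ℝ) / p := by
              rw [le_div_iff₀ h4]
              linarith
            have h6 : (2 * len β k / p : ℝ) = (len β k : ℝ) / p + (len β k : ℝ) / p := by ring
            rw [h6]
            linarith
    have h2 : ∀ p ∈ T, (2 * len β k / p : ℝ) ≤
        2 * len β k * (2 : ℝ) ^ (-(400 * β ^ 2) * (k : ℝ)) * (p : ℝ) ^ (-1 + 20 * β) := by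
      intro p hp
      rw [hT, Finset.mem_filter, Finset.mem_range] at hp
      have h4 : (0 : ℝ) < p := by exact_mod_cast hp.2.1.pos
      have h5 : (1 : ℝ) / p = (p : ℝ) ^ (-(20 * β)) * (p : ℝ) ^ (-1 + 20 * β) := by
        rw [← Real.rpow_add h4]
        have : -(20 * β) + (-1 + 20 * β) = -1 := by ring
        rw [this, Real.rpow_neg_one, one_div]
      have h6 : (p : ℝ) ^ (-(20 * β)) ≤ (2 : ℝ) ^ (-(400 * β ^ 2) * (k : ℝ)) := by
        have h7 : (2 : ℝ) ^ (-(400 * β ^ 2) * (k : ℝ)) =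
            ((2 : ℝ) ^ (20 * β * (k : ℝ))) ^ (-(20 * β)) := by
          rw [← Real.rpow_mul (by norm_num)]
          congr 1
          ring
        rw [h7]
        apply Real.rpow_le_rpow_of_nonpos (by positivity) hp.2.2.2
        nlinarith
      calc (2 * len β k / p : ℝ) = 2 * len β k * (1 / p) := by ring
        _ = 2 * len β k * ((p : ℝ) ^ (-(20 * β)) * (p : ℝ) ^ (-1 + 20 * β)) := by rw [h5]
        _ ≤ 2 * len β k * ((2 : ℝ) ^ (-(400 * β ^ 2) * (k : ℝ)) * (p : ℝ) ^ (-1 + 20 * β)) := by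
            apply mul_le_mul_of_nonneg_left _ (by positivity)
            exact mul_le_mul_of_nonneg_right h6 (by positivity)
        _ = _ := by ring
    have h3 := hsp k₀ hks0 𝒟 T (by
      intro p hp
      rw [hT, Finset.mem_filter] at hp
      exact ⟨hp.2.1, hp.2.2.1⟩)
    have h4 : (2 : ℝ) ^ (-4 * β * (k₀ : ℝ)) ≤ 1 := by
      apply Real.rpow_le_one_of_one_le_of_nonpos (by norm_num)
      have : (0 : ℝ) ≤ k₀ := Nat.cast_nonneg _
      nlinarith
    calc (bad2.card : ℝ) ≤ ∑ p ∈ T, (2 * len β k / p : ℝ) := h1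
      _ ≤ ∑ p ∈ T, 2 * len β k * (2 : ℝ) ^ (-(400 * β ^ 2) * (k : ℝ)) * (p : ℝ) ^ (-1 + 20 * β) :=
          Finset.sum_le_sum h2
      _ = 2 * len β k * (2 : ℝ) ^ (-(400 * β ^ 2) * (k : ℝ)) * ∑ p ∈ T, (p : ℝ) ^ (-1 + 20 * β) := by
          rw [Finset.mul_sum]
      _ ≤ 2 * len β k * (2 : ℝ) ^ (-(400 * β ^ 2) * (k : ℝ)) * 1 := by
          apply mul_le_mul_of_nonneg_left _ (by positivity)
          linarith
      _ = _ := by ring
  -- the good part
  set good := s \ (bad1 ∪ bad2) with hgood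
  have hcardgood : (s.card : ℝ) - bad1.card - bad2.card ≤ good.card := by
    have h1 : s.card ≤ good.card + (bad1.card + bad2.card) := by
      calc s.card ≤ (good ∪ (bad1 ∪ bad2)).card := by
            apply Finset.card_le_card
            intro n hn
            rw [Finset.mem_union, hgood, Finset.mem_sdiff]
            by_cases h : n ∈ bad1 ∪ bad2
            · exact Or.inr h
            · exact Or.inl ⟨hn, h⟩
        _ ≤ good.card + (bad1 ∪ bad2).card := Finset.card_union_le _ _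
        _ ≤ good.card + (bad1.card + bad2.card) := by
            have := Finset.card_union_le bad1 bad2
            omega
    have h2 : (s.card : ℝ) ≤ good.card + (bad1.card + bad2.card) := by exact_mod_cast h1
    linarith
  have hgoodK : good.card ≤ (𝒟.K k j).card := by
    have hch : ∀ n ∈ good, ∃ m q, n = m * q ∧ 𝒟.InK k j m q := by
      intro n hn
      rw [hgood, Finset.mem_sdiff, Finset.mem_union, not_or] at hn
      obtain ⟨hns, hnb1, hnb2⟩ := hn
      obtain ⟨m, q, hmq, hE⟩ := hsE n hns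
      refine ⟨m, q, hmq, hE, ?_, ?_⟩
      · intro k' j' m' hj' hE'
        by_contra hne
        exact hnb1 (Finset.mem_filter.mpr ⟨hns, m, q, hmq, hE, k', j', m', hj', hE', hne⟩)
      · intro p hp hpm
        rw [← not_or]
        intro hS
        exact hnb2 (Finset.mem_filter.mpr ⟨hns, m, q, hmq, hE, p, hp, hpm, hS⟩)
    choose! fm fq hfmq hfK using hch
    apply Finset.card_le_card_of_injOn fq
    · intro n hn
      have hn' : n ∈ good := hn
      have hK := hfK n hn'
      have hmem := hK.1.2.2.2.2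
      have hlt := lt_two_pow_of_mem_cell hβ hβ' hjn hmem
      have hm1 := hK.1.2.2.1
      show fq n ∈ 𝒟.K k j
      unfold Dead.K
      rw [Finset.mem_filter, Finset.mem_range]
      refine ⟨?_, fm n, hK⟩
      calc fq n = 1 * fq n := (one_mul _).symm
        _ ≤ fm n * fq n := Nat.mul_le_mul_right _ hm1.le
        _ < 2 ^ (k + 1) := hlt
    · intro n hn n' hn' heq
      have hn1 : n ∈ good := hn
      have hn2 : n' ∈ good := hn'
      have hK := hfK n hn1
      have hc1 : n ∈ cell β k j := hs (Finset.mem_sdiff.mp hn1).1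
      have hc2 : n' ∈ cell β k j := hs (Finset.mem_sdiff.mp hn2).1
      have hq := hK.1.len_lt hβ hβ'
      apply multiple_unique hq.le hc1 hc2
      · conv_rhs => rw [hfmq n hn1]
        exact dvd_mul_left _ _
      · have heq' : fq n = fq n' := heq
        rw [heq']
        conv_rhs => rw [hfmq n' hn2]
        exact dvd_mul_left _ _
  have hK' : (good.card : ℝ) ≤ (𝒟.K k j).card := by exact_mod_cast hgoodK
  have e1 : len β k * (2 : ℝ) ^ (-β * (k : ℝ)) ≤ c / 4 * len β k / k := by
    have := hka k (by omega)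
    rw [pow_one] at this
    rw [le_div_iff₀ hkpos]
    calc len β k * (2 : ℝ) ^ (-β * (k : ℝ)) * k = len β k * (k * (2 : ℝ) ^ (-β * (k : ℝ))) := by ring
      _ ≤ len β k * (c / 4) := mul_le_mul_of_nonneg_left this hLpos.le
      _ = _ := by ring
  have e2 : 2 * len β k * (2 : ℝ) ^ (-(400 * β ^ 2) * (k : ℝ)) ≤ c / 4 * len β k / k := by
    have := hkb k (by omega)
    rw [pow_one] at this
    rw [le_div_iff₀ hkpos]
    calc 2 * len β k * (2 : ℝ) ^ (-(400 * β ^ 2) * (k : ℝ)) * k
        = 2 * len β k * (k * (2 : ℝ) ^ (-(400 * β ^ 2) * (k : ℝ))) := by ring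
      _ ≤ 2 * len β k * (c / 8) := mul_le_mul_of_nonneg_left this (by positivity)
      _ = _ := by ring
  have e3 : c * len β k / k - c / 4 * len β k / k - c / 4 * len β k / k = c / 2 * len β k / k := by
    ring
  linarith

end Pool.Agent.MP_a187e6
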