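import Mathlib

/-!
# Module E0 : upper bound for sums of completely multiplicative functions
-/

namespace Pool.Agent.MP_a187e6

open Finset

/-- Euler product upper bound for completely multiplicative `h ≥ 0` -/
theorem sum_cm_le (h : ℕ → ℝ) (h1 : h 1 = 1) (hmul : ∀ m n, m ≠ 0 → n ≠ 0 → h (m * n) = h m * h n)
    (hnn : ∀ n, 0 ≤ h n) (N : ℕ) (σ : ℝ) (hσ : σ ≤ 1 / 2)
    (hs : ∑ p ∈ (Finset.range N).filter Nat.Prime, h p ≤ σ) :
    ∑ n ∈ Finset.Ico 2 N, h n ≤ 4 * σ := by
  have hσ0 : 0 ≤ σ := le_trans (Finset.sum_nonneg (fun p _ => hnn p)) hs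
  set T := ∑ n ∈ Finset.Ico 2 N, h n with hT
  have hT0 : 0 ≤ T := Finset.sum_nonneg (fun n _ => hnn n)
  have hIco : ∑ m ∈ Finset.Ico 1 N, h m ≤ 1 + T := by
    rcases le_or_gt N 1 with hN | hN
    · rw [Finset.Ico_eq_empty (by omega), Finset.sum_empty]
      linarith
    · rw [Finset.sum_eq_sum_Ico_succ_bot hN, h1]
  have hinj : Set.InjOn (fun n : ℕ => (n.minFac, n / n.minFac)) (Finset.Ico 2 N : Set ℕ) := by
    intro x _ y _ hxy
    simp only [Prod.mk.injEq] at hxy
    have e1 := Nat.mul_div_cancel' (Nat.minFac_dvd x)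
    have e2 := Nat.mul_div_cancel' (Nat.minFac_dvd y)
    rw [← e1, ← e2, hxy.2, hxy.1]
  have hmaps : (Finset.Ico 2 N).image (fun n : ℕ => (n.minFac, n / n.minFac))
      ⊆ ((Finset.range N).filter Nat.Prime) ×ˢ Finset.Ico 1 N := by
    intro x hx
    rw [Finset.mem_image] at hx
    obtain ⟨n, hn, rfl⟩ := hx
    rw [Finset.mem_Ico] at hn
    have hp : n.minFac.Prime := Nat.minFac_prime (by omega)
    have hle : n.minFac ≤ n := Nat.minFac_le (by omega)
    have h3 : 1 ≤ n / n.minFac := Nat.div_pos hle hp.pos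
    have h4 : n / n.minFac ≤ n := Nat.div_le_self _ _
    rw [Finset.mem_product, Finset.mem_filter, Finset.mem_range, Finset.mem_Ico]
    exact ⟨⟨by simp only; omega, hp⟩, h3, by simp only; omega⟩
  have key : T ≤ σ * (1 + T) := by
    calc T = ∑ n ∈ Finset.Ico 2 N, h n.minFac * h (n / n.minFac) := by
          rw [hT]
          apply Finset.sum_congr rfl
          intro n hn
          rw [Finset.mem_Ico] at hn
          have hp : n.minFac.Prime := Nat.minFac_prime (by omega)
          have hle : n.minFac ≤ n := Nat.minFac_le (by omega)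
          have h3 : 1 ≤ n / n.minFac := Nat.div_pos hle hp.pos
          conv_lhs => rw [← Nat.mul_div_cancel' (Nat.minFac_dvd n)]
          exact hmul _ _ hp.ne_zero (by omega)
      _ = ∑ x ∈ (Finset.Ico 2 N).image (fun n : ℕ => (n.minFac, n / n.minFac)), h x.1 * h x.2 := by
          rw [Finset.sum_image hinj]
      _ ≤ ∑ x ∈ ((Finset.range N).filter Nat.Prime) ×ˢ Finset.Ico 1 N, h x.1 * h x.2 :=
          Finset.sum_le_sum_of_subset_of_nonneg hmaps
            (fun x _ _ => mul_nonneg (hnn _) (hnn _))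
      _ = (∑ p ∈ (Finset.range N).filter Nat.Prime, h p) * ∑ m ∈ Finset.Ico 1 N, h m := by
          rw [Finset.sum_product, Finset.sum_mul_sum]
      _ ≤ σ * (1 + T) := mul_le_mul hs hIco (Finset.sum_nonneg (fun m _ => hnn m)) hσ0
  nlinarith

end Pool.Agent.MP_a187e6
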