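import Pool.Agent.MP_a187e6.FewDeadArith

open Filter Topology MeasureTheory
open scoped ArithmeticFunction.vonMangoldt

namespace Pool.Agent.MP_a187e6.FewDead

open MSRepr MSMean

/-- lower bound for `|D|` near the left end of a prime-poor interval -/
lemma D_lower {c L K : ℕ} {X h u : ℝ} (hX : 0 < X) (hXc : X ≤ c) (hcX : (c : ℝ) + L ≤ 2 * X)
    (hL0 : 0 < L) (hL : L ^ 2 ≤ c) (hK : c + L ≤ 2 ^ K) (hh : h = L / (32 * X))
    (hpoor : h * (K * ((((Finset.Ico c (c + L)).filter Nat.Prime).card : ℝ) + K)) ≤ h * (L / 64))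
    (hu : Real.log c ≤ u) (hu2 : Real.exp u ≤ c + L / 4) :
    h * L / 64 ≤ -D h u := by
  have hL0' : (0 : ℝ) < L := by exact_mod_cast hL0
  have hh0 : 0 < h := by rw [hh]; positivity
  have hhX : h * (32 * X) = L := by rw [hh]; field_simp
  have hc1 : 1 ≤ c := by
    rcases Nat.eq_zero_or_pos c with rfl | h0
    · simp at hXc; linarith only [hX, hXc]
    · exact h0
  have hLX : (L : ℝ) ≤ 2 * X := by
    have : (0 : ℝ) ≤ c := Nat.cast_nonneg c
    linarith only [hX, hXc, hcX]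
  have hh1 : h ≤ 1 / 16 := by
    rw [hh, div_le_iff₀ (by positivity)]
    linarith only [hX, hXc, hcX]
  have hexp : Real.exp (2 * h) ≤ 1 + 4 * h := by
    have h1 := Real.abs_exp_sub_one_le (x := 2 * h) (by rw [abs_of_pos (by linarith only [hh0])]; linarith only [hh0, hh1])
    rw [abs_of_pos (by linarith only [hh0] : (0 : ℝ) < 2 * h)] at h1
    have := (abs_le.mp h1).2
    linarith only [this]
  have hsupp : Real.exp (u + 2 * h) ≤ c + L := by
    rw [Real.exp_add]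
    calc Real.exp u * Real.exp (2 * h) ≤ (c + L / 4) * (1 + 4 * h) :=
          mul_le_mul hu2 hexp (Real.exp_pos _).le (by positivity)
      _ = c + L / 4 + 4 * h * (c + L / 4) := by ring
      _ ≤ c + L / 4 + 4 * h * (2 * X) := by
          have : (c : ℝ) + L / 4 ≤ 2 * X := by linarith only [hcX, hL0']
          have := mul_le_mul_of_nonneg_left this (by linarith only [hh0] : (0 : ℝ) ≤ 4 * h)
          linarith only [this]
      _ = c + L / 4 + (h * (32 * X)) / 4 := by ring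
      _ = c + L / 2 := by rw [hhX]; ring
      _ ≤ c + L := by linarith only [hL0']
  have h1 := D_upper hh0 hc1 hu hsupp
  have h2 := mul_le_mul_of_nonneg_left (sum_vonMangoldt_le hL hK) hh0.le
  have h3 : h * L / 32 ≤ c * h ^ 2 := by
    calc h * L / 32 = h * (h * (32 * X)) / 32 := by rw [hhX]
      _ = X * h ^ 2 := by ring
      _ ≤ c * h ^ 2 := mul_le_mul_of_nonneg_right hXc (by positivity)
  linarith only [hpoor, h1, h2, h3]

/-- counting: the mean square bounds the number of prime-poor intervals -/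
lemma count_dead {L K : ℕ} {X h σ B : ℝ} (hX : 1 ≤ X) (hL0 : 0 < L) (hL : (L : ℝ) ^ 2 ≤ X)
    (hσ : 0 < σ) (hK : 2 * X ≤ (2 : ℝ) ^ K) (hh : h = L / (32 * X)) (hB : 0 ≤ B)
    (hmean : ∫⁻ u : ℝ, ENNReal.ofReal ((D h u * Real.exp (-σ * u)) ^ 2) ≤ ENNReal.ofReal B)
    (c : ℕ → ℕ) (s : Finset ℕ) (hc : ∀ j ∈ s, X ≤ c j ∧ (c j : ℝ) + L ≤ 2 * X)
    (hsep : ∀ i ∈ s, ∀ j ∈ s, i < j → c i + L ≤ c j)
    (hpoor : ∀ j ∈ s, K * ((((Finset.Ico (c j) (c j + L)).filter Nat.Prime).card : ℝ) + K) ≤ L / 64) :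
    (s.card : ℝ) * ((h * L / 64) ^ 2 * (2 * X) ^ (-(2 * σ)) * (4 * h)) ≤ B := by
  have hL0' : (0 : ℝ) < L := by exact_mod_cast hL0
  have hX0 : 0 < X := by linarith only [hX]
  have hh0 : 0 < h := by rw [hh]; positivity
  have hhX : h * (32 * X) = L := by rw [hh]; field_simp
  set I : ℕ → Set ℝ := fun j => Set.Ico (Real.log (c j)) (Real.log (c j + L / 4)) with hI
  set m : ℝ := (h * L / 64) ^ 2 * (2 * X) ^ (-(2 * σ)) with hm
  have hm0 : 0 ≤ m := by positivity
  have hdisj : Set.Pairwise (↑s) (Function.onFun Disjoint I) := by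
    have key : ∀ i ∈ s, ∀ j ∈ s, i < j → Disjoint (I i) (I j) := by
      intro i hi j hj hij
      rw [Set.disjoint_left]
      intro u hu1 hu2
      have h1 : Real.log (c i + L / 4) ≤ Real.log (c j) := by
        apply Real.log_le_log
        · have := (hc i hi).1; linarith only [hX, hL0', this]
        · have : ((c i + L : ℕ) : ℝ) ≤ c j := by exact_mod_cast hsep i hi j hj hij
          push_cast at this
          linarith only [hL0', this]
      have := hu1.2
      have := hu2.1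
      linarith
    intro i hi j hj hij
    rcases lt_or_gt_of_ne hij with h1 | h1
    · exact key i hi j hj h1
    · exact (key j hj i hi h1).symm
  have hlow : ∀ j ∈ s, ENNReal.ofReal (m * (4 * h)) ≤
      ∫⁻ u in I j, ENNReal.ofReal ((D h u * Real.exp (-σ * u)) ^ 2) := by
    intro j hj
    obtain ⟨hc1, hc2⟩ := hc j hj
    have hcpos : (0 : ℝ) < c j := by linarith only [hX, hc1]
    have hLc : L ^ 2 ≤ c j := by
      have : ((L ^ 2 : ℕ) : ℝ) ≤ (c j : ℕ) := by push_cast; linarith only [hL, hc1]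
      exact_mod_cast this
    have hcK : c j + L ≤ 2 ^ K := by
      have : ((c j + L : ℕ) : ℝ) ≤ ((2 ^ K : ℕ) : ℝ) := by push_cast; linarith only [hK, hc2]
      exact_mod_cast this
    have hvol : ENNReal.ofReal (4 * h) ≤ volume (I j) := by
      rw [hI]
      simp only [Real.volume_Ico]
      apply ENNReal.ofReal_le_ofReal
      rw [← Real.log_div (by positivity) (by positivity)]
      have h1 := Real.one_sub_inv_le_log_of_pos (show 0 < (c j + L / 4 : ℝ) / c j by positivity)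
      refine le_trans ?_ h1
      rw [inv_div]
      have h2 : 1 - (c j : ℝ) / (c j + L / 4) = (L / 4) / (c j + L / 4) := by
        field_simp; ring
      rw [h2, le_div_iff₀ (by positivity)]
      calc 4 * h * (c j + L / 4) ≤ 4 * h * (2 * X) := by
            apply mul_le_mul_of_nonneg_left _ (by positivity)
            linarith only [hc2]
        _ = (h * (32 * X)) / 4 := by ring
        _ = L / 4 := by rw [hhX]
    have hpt : ∀ u ∈ I j, ENNReal.ofReal m ≤ ENNReal.ofReal ((D h u * Real.exp (-σ * u)) ^ 2) := by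
      intro u hu
      apply ENNReal.ofReal_le_ofReal
      have hu2 : Real.exp u ≤ c j + L / 4 := by
        have := hu.2
        rw [← Real.le_log_iff_exp_le (by positivity)]
        exact this.le
      have h1 := D_lower (c := c j) (L := L) (K := K) (X := X) (h := h) (u := u) hX0 hc1 hc2 hL0 hLc
        hcK hh (mul_le_mul_of_nonneg_left (hpoor j hj) hh0.le) hu.1 hu2
      rw [mul_pow, hm]
      have h2 : (h * L / 64) ^ 2 ≤ (D h u) ^ 2 := by
        rw [← neg_sq (D h u)]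
        exact pow_le_pow_left₀ (by positivity) h1 2
      have h3 : (2 * X) ^ (-(2 * σ)) ≤ Real.exp (-σ * u) ^ 2 := by
        have h4 : Real.exp u ≤ 2 * X := by linarith only [hc2, hu2]
        have h5 : (2 * X) ^ (-(2 * σ)) ≤ (Real.exp u) ^ (-(2 * σ)) :=
          Real.rpow_le_rpow_of_nonpos (Real.exp_pos _) h4 (by linarith only [hσ])
        refine h5.trans (le_of_eq ?_)
        rw [← Real.exp_mul, ← Real.exp_nat_mul]
        congr 1
        push_cast
        ring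
      exact mul_le_mul h2 h3 (by positivity) (by positivity)
    calc ENNReal.ofReal (m * (4 * h)) = ENNReal.ofReal m * ENNReal.ofReal (4 * h) :=
          ENNReal.ofReal_mul hm0
      _ ≤ ENNReal.ofReal m * volume (I j) := by gcongr
      _ = ∫⁻ _ in I j, ENNReal.ofReal m := by rw [setLIntegral_const]
      _ ≤ _ := setLIntegral_mono' measurableSet_Ico hpt
  have hsum : ∑ j ∈ s, ENNReal.ofReal (m * (4 * h)) ≤ ENNReal.ofReal B := by
    calc ∑ j ∈ s, ENNReal.ofReal (m * (4 * h))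
        ≤ ∑ j ∈ s, ∫⁻ u in I j, ENNReal.ofReal ((D h u * Real.exp (-σ * u)) ^ 2) :=
          Finset.sum_le_sum hlow
      _ = ∫⁻ u in ⋃ j ∈ s, I j, ENNReal.ofReal ((D h u * Real.exp (-σ * u)) ^ 2) :=
          (lintegral_biUnion_finset hdisj (fun j _ => measurableSet_Ico) _).symm
      _ ≤ ∫⁻ u : ℝ, ENNReal.ofReal ((D h u * Real.exp (-σ * u)) ^ 2) := setLIntegral_le_lintegral _ _
      _ ≤ _ := hmean
  rw [Finset.sum_const, nsmul_eq_mul, ← ENNReal.ofReal_natCast, ← ENNReal.ofReal_mul (by positivity),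
    ENNReal.ofReal_le_ofReal_iff hB] at hsum
  exact hsum

end Pool.Agent.MP_a187e6.FewDead

namespace Pool.Agent.MP_a187e6

open FewDead MSRepr MSMean

/-- **Module B.** Under RH, block `k` contains at most `2^(βk)` prime-poor cells. -/
theorem few_prime_poor_cells (hRH : RiemannHypothesis) {β : ℝ} (hβ : 0 < β) (hβ' : β ≤ 1 / 1000) :
    ∃ c : ℝ, 0 < c ∧ ∃ k₁ : ℕ, ∀ k : ℕ, k₁ ≤ k →
      (((Finset.range (ncell β k)).filter (fun j =>
        (((cell β k j).filter Nat.Prime).card : ℝ) < c * len β k / k)).card : ℝ)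
        ≤ (2 : ℝ) ^ (β * (k : ℝ)) := by
  set σ : ℝ := 1 / 2 + β / 24 with hσ
  set η : ℝ := β / 96 with hη
  obtain ⟨C, hC, hmean⟩ := mean_square hRH σ (by rw [hσ]; linarith only [hβ]) (by rw [hσ]; linarith only [hβ, hβ']) η
    (by rw [hη]; positivity) (by rw [hη]; linarith only [hβ, hβ'])
  -- growth conditions on `k`
  have hgrow1 : ∀ᶠ k : ℕ in atTop, 16384 * C ≤ (2 : ℝ) ^ (5 * β / 24 * (k : ℝ)) := by
    have h1 : Tendsto (fun k : ℕ => (2 : ℝ) ^ (5 * β / 24 * (k : ℝ))) atTop atTop := by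
      have h2 : Tendsto (fun k : ℕ => 5 * β / 24 * (k : ℝ)) atTop atTop :=
        tendsto_natCast_atTop_atTop.const_mul_atTop (by positivity)
      exact (tendsto_rpow_atTop_of_base_gt_one 2 (by norm_num)).comp h2
    exact h1.eventually_ge_atTop _
  have hgrow2 : ∀ᶠ k : ℕ in atTop, ((k : ℝ) + 1) ^ 2 ≤ (2 : ℝ) ^ ((1 / 4 : ℝ) * (k : ℝ)) / 256 := by
    have hr : (1 : ℝ) < (2 : ℝ) ^ (1 / 4 : ℝ) := Real.one_lt_rpow (by norm_num) (by norm_num)
    have h1 := tendsto_pow_const_div_const_pow_of_one_lt 2 hr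
    have h2 := h1.eventually_lt_const (show (0 : ℝ) < 1 / 1024 by norm_num)
    filter_upwards [h2, eventually_ge_atTop 1] with k hk hk1
    have hk1' : (1 : ℝ) ≤ k := by exact_mod_cast hk1
    rw [Real.rpow_mul (by norm_num), Real.rpow_natCast]
    rw [div_lt_iff₀ (by positivity)] at hk
    nlinarith only [hk, hk1']
  obtain ⟨k₁, hk₁⟩ := (hgrow1.and (hgrow2.and (eventually_ge_atTop 1))).exists_forall_of_atTop
  refine ⟨1 / 512, by norm_num, k₁, fun k hk => ?_⟩
  obtain ⟨hg1, hg2, hk1⟩ := hk₁ k hk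
  set L : ℕ := len β k with hLdef
  set X : ℝ := (2 : ℝ) ^ k with hXdef
  have hX1 : 1 ≤ X := one_le_pow₀ (by norm_num)
  have hX0 : 0 < X := by linarith only [hβ, hβ', hX1]
  have hL0 : 0 < L := len_pos β k
  have hL1 : (1 : ℝ) ≤ L := by exact_mod_cast hL0
  have hL0' : (0 : ℝ) < L := by exact_mod_cast hL0
  have hLlow : (2 : ℝ) ^ ((1 / 2 - β / 3) * (k : ℝ) - 1) ≤ (L : ℝ) := le_len k
  have hLup : (L : ℝ) ≤ (2 : ℝ) ^ ((1 / 2 - β / 3) * (k : ℝ)) := len_le hβ' k
  have hk0 : (0 : ℝ) < k := by exact_mod_cast hk1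
  have hk1' : (1 : ℝ) ≤ k := by exact_mod_cast hk1
  have hXr : X = (2 : ℝ) ^ (k : ℝ) := by rw [Real.rpow_natCast]
  have hLsq : (L : ℝ) ^ 2 ≤ X := by
    calc (L : ℝ) ^ 2 ≤ ((2 : ℝ) ^ ((1 / 2 - β / 3) * (k : ℝ))) ^ 2 :=
          pow_le_pow_left₀ hL0'.le hLup 2
      _ = (2 : ℝ) ^ ((1 / 2 - β / 3) * (k : ℝ) * 2) := by
          rw [← Real.rpow_mul_natCast (by norm_num)]; norm_num
      _ ≤ (2 : ℝ) ^ (k : ℝ) := by
          apply Real.rpow_le_rpow_of_exponent_le (by norm_num)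
          nlinarith only [hβ]
      _ = X := hXr.symm
  have hLk : ((k : ℝ) + 1) ^ 2 ≤ L / 128 := by
    refine hg2.trans ?_
    have h1 : (2 : ℝ) ^ ((1 / 4 : ℝ) * (k : ℝ)) / 2 ≤ L := by
      refine le_trans ?_ hLlow
      have : (2 : ℝ) ^ ((1 / 4 : ℝ) * (k : ℝ)) / 2 = (2 : ℝ) ^ ((1 / 4 : ℝ) * (k : ℝ) - 1) := by
        rw [Real.rpow_sub (by norm_num), Real.rpow_one]
      rw [this]
      apply Real.rpow_le_rpow_of_exponent_le (by norm_num)
      nlinarith only [hβ, hβ', hk1']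
    linarith only [h1]
  set h : ℝ := L / (32 * X) with hh
  have hh0 : 0 < h := by positivity
  have hLX : (L : ℝ) ≤ X := by nlinarith only [hLsq, hL1]
  have hh1 : h ≤ 1 := by
    rw [hh, div_le_iff₀ (by positivity)]
    linarith only [hβ, hβ', hX1, hLX]
  set s := (Finset.range (ncell β k)).filter (fun j =>
        (((cell β k j).filter Nat.Prime).card : ℝ) < 1 / 512 * L / k) with hs
  have hcount := count_dead (L := L) (K := k + 1) (X := X) (h := h) (σ := σ)
    (B := C * h ^ (3 - 4 * η)) hX1 hL0 hLsq (by rw [hσ]; positivity)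
    (by rw [hXdef, pow_succ]; linarith only []) hh (by positivity) (hmean h hh0 hh1)
    (fun j => 2 ^ k + j * L) s (by
      intro j hj
      rw [hs, Finset.mem_filter, Finset.mem_range] at hj
      have h1 := cell_end_le hβ hβ' hj.1
      rw [← hLdef] at h1
      have h2 : ((2 ^ k + (j + 1) * L : ℕ) : ℝ) ≤ ((2 ^ (k + 1) : ℕ) : ℝ) := by exact_mod_cast h1
      push_cast at h2 ⊢
      rw [pow_succ] at h2
      constructor
      · have : (0 : ℝ) ≤ (j : ℝ) * L := by positivity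
        rw [hXdef]; linarith only [this]
      · rw [hXdef]; linarith only [h2]) (by
      intro i _ j _ hij
      have : (i + 1) * L ≤ j * L := Nat.mul_le_mul_right L hij
      have e : (i + 1) * L = i * L + L := by ring
      omega) (by
      intro j hj
      rw [hs, Finset.mem_filter, Finset.mem_range] at hj
      have h1 := hj.2
      rw [cell_eq, ← hLdef] at h1
      set N : ℝ := ((((Finset.Ico (2 ^ k + j * L) (2 ^ k + j * L + L)).filter Nat.Prime).card : ℕ) : ℝ)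
        with hN
      push_cast
      have h2 : N * k ≤ L / 512 := by
        rw [lt_div_iff₀ hk0] at h1
        linarith only [h1]
      have hN0 : 0 ≤ N := Nat.cast_nonneg _
      have h3 : N ≤ N * k := le_mul_of_one_le_right hN0 hk1'
      nlinarith only [hβ, hβ', hL1, hLk, h2, h3])
  -- final computation
  have e1 : (h * L / 64) ^ 2 * (2 * X) ^ (-(2 * σ)) * (4 * h) =
      h ^ (3 : ℝ) * (L ^ 2 * (2 * X) ^ (-(2 * σ)) / 1024) := by
    rw [show ((3 : ℝ)) = ((3 : ℕ) : ℝ) by norm_num, Real.rpow_natCast]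
    ring
  have e2 : h ^ (3 - 4 * η) = h ^ (3 : ℝ) * h ^ (-(4 * η)) := by
    rw [← Real.rpow_add hh0]; congr 1
  rw [e1, e2] at hcount
  have hh3 : 0 < h ^ (3 : ℝ) := by positivity
  have hc2 : (s.card : ℝ) * (L ^ 2 * (2 * X) ^ (-(2 * σ)) / 1024) ≤ C * h ^ (-(4 * η)) := by
    have h1 : h ^ (3 : ℝ) * ((s.card : ℝ) * (L ^ 2 * (2 * X) ^ (-(2 * σ)) / 1024)) ≤
        h ^ (3 : ℝ) * (C * h ^ (-(4 * η))) := by
      calc _ = (s.card : ℝ) * (h ^ (3 : ℝ) * (L ^ 2 * (2 * X) ^ (-(2 * σ)) / 1024)) := by ring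
        _ ≤ C * (h ^ (3 : ℝ) * h ^ (-(4 * η))) := hcount
        _ = _ := by ring
    exact le_of_mul_le_mul_left h1 hh3
  -- bounds in terms of powers of two
  have b1 : h ^ (-(4 * η)) ≤ (2 : ℝ) ^ (4 * η * ((k : ℝ) + 5)) := by
    have h1 : (2 : ℝ) ^ (-((k : ℝ) + 5)) ≤ h := by
      rw [hh, Real.rpow_neg (by norm_num), Real.rpow_add (by norm_num), ← hXr, inv_eq_one_div,
        div_le_div_iff₀ (by positivity) (by positivity)]
      norm_num
      nlinarith only [hβ', hk1', hLk, hβ, hX1, hL1]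
    have h2 : h ^ (-(4 * η)) ≤ ((2 : ℝ) ^ (-((k : ℝ) + 5))) ^ (-(4 * η)) :=
      Real.rpow_le_rpow_of_nonpos (by positivity) h1 (by rw [hη]; linarith only [hβ])
    refine h2.trans (le_of_eq ?_)
    rw [← Real.rpow_mul (by norm_num)]
    congr 1
    ring
  have b2 : (2 * X) ^ (-(2 * σ)) = (2 : ℝ) ^ (-(2 * σ) * ((k : ℝ) + 1)) := by
    have : 2 * X = (2 : ℝ) ^ ((k : ℝ) + 1) := by
      rw [Real.rpow_add (by norm_num), Real.rpow_one, ← hXr]; ring
    rw [this, ← Real.rpow_mul (by norm_num)]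
    congr 1
    ring
  have b3 : (2 : ℝ) ^ ((1 - 2 * β / 3) * (k : ℝ) - 2) ≤ (L : ℝ) ^ 2 := by
    calc (2 : ℝ) ^ ((1 - 2 * β / 3) * (k : ℝ) - 2) =
          ((2 : ℝ) ^ ((1 / 2 - β / 3) * (k : ℝ) - 1)) ^ 2 := by
          rw [← Real.rpow_mul_natCast (by norm_num)]
          congr 1
          push_cast
          ring
      _ ≤ (L : ℝ) ^ 2 := pow_le_pow_left₀ (by positivity) hLlow 2
  rw [b2] at hc2
  have hcard0 : (0 : ℝ) ≤ s.card := Nat.cast_nonneg _
  have hc3 : (s.card : ℝ) * ((2 : ℝ) ^ ((1 - 2 * β / 3) * (k : ℝ) - 2) *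
      (2 : ℝ) ^ (-(2 * σ) * ((k : ℝ) + 1)) / 1024) ≤ C * (2 : ℝ) ^ (4 * η * ((k : ℝ) + 5)) := by
    refine le_trans ?_ (hc2.trans (mul_le_mul_of_nonneg_left b1 hC.le))
    apply mul_le_mul_of_nonneg_left _ hcard0
    apply div_le_div_of_nonneg_right _ (by norm_num)
    exact mul_le_mul_of_nonneg_right b3 (by positivity)
  rw [← Real.rpow_add (by norm_num)] at hc3
  set E1 : ℝ := (1 - 2 * β / 3) * (k : ℝ) - 2 + -(2 * σ) * ((k : ℝ) + 1) with hE1
  have hc4 : (s.card : ℝ) ≤ 1024 * C * ((2 : ℝ) ^ (4 * η * ((k : ℝ) + 5)) * (2 : ℝ) ^ (-E1)) := by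
    have hp : (2 : ℝ) ^ E1 * (2 : ℝ) ^ (-E1) = 1 := by
      rw [← Real.rpow_add (by norm_num)]; simp
    have hpos : 0 < (2 : ℝ) ^ (-E1) := by positivity
    have := mul_le_mul_of_nonneg_right hc3 hpos.le
    calc (s.card : ℝ) = 1024 * ((s.card : ℝ) * ((2 : ℝ) ^ E1 / 1024) * (2 : ℝ) ^ (-E1)) := by
          rw [show 1024 * ((s.card : ℝ) * ((2 : ℝ) ^ E1 / 1024) * (2 : ℝ) ^ (-E1)) =
            (s.card : ℝ) * ((2 : ℝ) ^ E1 * (2 : ℝ) ^ (-E1)) by ring, hp, mul_one]
      _ ≤ 1024 * (C * (2 : ℝ) ^ (4 * η * ((k : ℝ) + 5)) * (2 : ℝ) ^ (-E1)) :=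
          mul_le_mul_of_nonneg_left this (by norm_num)
      _ = _ := by ring
  rw [← Real.rpow_add (by norm_num)] at hc4
  have hexp : 4 * η * ((k : ℝ) + 5) + -E1 ≤ 19 * β / 24 * (k : ℝ) + 4 := by
    rw [hE1, hη, hσ]
    nlinarith only [hβ, hβ']
  have hc5 : (s.card : ℝ) ≤ 16384 * C * (2 : ℝ) ^ (19 * β / 24 * (k : ℝ)) := by
    refine hc4.trans ?_
    have h1 : (2 : ℝ) ^ (4 * η * ((k : ℝ) + 5) + -E1) ≤ (2 : ℝ) ^ (19 * β / 24 * (k : ℝ) + 4) :=
      Real.rpow_le_rpow_of_exponent_le (by norm_num) hexp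
    have h2 : (2 : ℝ) ^ (19 * β / 24 * (k : ℝ) + 4) = (2 : ℝ) ^ (19 * β / 24 * (k : ℝ)) * 16 := by
      rw [Real.rpow_add (by norm_num)]
      norm_num
    rw [h2] at h1
    calc 1024 * C * (2 : ℝ) ^ (4 * η * ((k : ℝ) + 5) + -E1) ≤
          1024 * C * ((2 : ℝ) ^ (19 * β / 24 * (k : ℝ)) * 16) :=
          mul_le_mul_of_nonneg_left h1 (by positivity)
      _ = _ := by ring
  refine hc5.trans ?_
  calc 16384 * C * (2 : ℝ) ^ (19 * β / 24 * (k : ℝ)) ≤
        (2 : ℝ) ^ (5 * β / 24 * (k : ℝ)) * (2 : ℝ) ^ (19 * β / 24 * (k : ℝ)) :=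
        mul_le_mul_of_nonneg_right hg1 (by positivity)
    _ = (2 : ℝ) ^ (β * (k : ℝ)) := by
        rw [← Real.rpow_add (by norm_num)]
        congr 1
        ring

end Pool.Agent.MP_a187e6
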