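import Pool.Agent.MP_a187e6.MSMean
import Pool.Agent.MP_a187e6.CellLemmas

open Filter Topology MeasureTheory
open scoped ArithmeticFunction.vonMangoldt

namespace Pool.Agent.MP_a187e6.FewDead

open MSRepr MSMean

/-- the tent function -/
noncomputable def tent (h v : ℝ) : ℝ := max (2 * h - v) 0 - 2 * max (h - v) 0 + max (-v) 0

lemma tent_le {h : ℝ} (hh : 0 < h) (v : ℝ) : tent h v ≤ h := by
  unfold tent
  rcases le_total v 0 with h1 | h1
  · rw [max_eq_left (by linarith), max_eq_left (by linarith), max_eq_left (by linarith)]; linarith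
  · rcases le_total v h with h2 | h2
    · rw [max_eq_left (by linarith), max_eq_left (by linarith), max_eq_right (by linarith)]; linarith
    · rcases le_total v (2 * h) with h3 | h3
      · rw [max_eq_left (by linarith), max_eq_right (by linarith), max_eq_right (by linarith)]
        linarith
      · rw [max_eq_right (by linarith), max_eq_right (by linarith), max_eq_right (by linarith)]
        linarith

lemma tent_left {h : ℝ} (hh : 0 < h) {v : ℝ} (hv : v ≤ 0) : tent h v = 0 := by
  unfold tent
  rw [max_eq_left (by linarith), max_eq_left (by linarith), max_eq_left (by linarith)]; ring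

lemma tent_right {h : ℝ} (hh : 0 < h) {v : ℝ} (hv : 2 * h ≤ v) : tent h v = 0 := by
  unfold tent
  rw [max_eq_right (by linarith), max_eq_right (by linarith), max_eq_right (by linarith)]; ring

lemma D_eq {h u : ℝ} (hh : 0 < h) (hu : 0 ≤ u) :
    D h u = ∑' n : ℕ, Λ n * tent h (Real.log n - u) - Real.exp u * (Real.exp h - 1) ^ 2 := by
  unfold D P
  have e0 : max (Real.exp u - 1) 0 = Real.exp u - 1 :=
    max_eq_left (by have := Real.one_le_exp hu; linarith)
  have e1 : max (Real.exp (u + h) - 1) 0 = Real.exp u * Real.exp h - 1 := by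
    rw [max_eq_left (by have := Real.one_le_exp (show 0 ≤ u + h by linarith); linarith),
      Real.exp_add]
  have e2 : max (Real.exp (u + 2 * h) - 1) 0 = Real.exp u * Real.exp h ^ 2 - 1 := by
    rw [max_eq_left (by have := Real.one_le_exp (show 0 ≤ u + 2 * h by linarith); linarith),
      Real.exp_add, two_mul, Real.exp_add, sq]
  rw [e0, e1, e2]
  have hs : ∑' n : ℕ, Λ n * tent h (Real.log n - u) =
      ∑' n : ℕ, Λ n * max (u + 2 * h - Real.log n) 0 -
        2 * ∑' n : ℕ, Λ n * max (u + h - Real.log n) 0 + ∑' n : ℕ, Λ n * max (u - Real.log n) 0 := by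
    rw [← tsum_mul_left, ← (summable_P (u + 2 * h)).tsum_sub ((summable_P (u + h)).mul_left 2),
      ← ((summable_P (u + 2 * h)).sub ((summable_P (u + h)).mul_left 2)).tsum_add (summable_P u)]
    apply tsum_congr
    intro n
    unfold tent
    rw [show 2 * h - (Real.log n - u) = u + 2 * h - Real.log n by ring,
      show h - (Real.log n - u) = u + h - Real.log n by ring,
      show -(Real.log n - u) = u - Real.log n by ring]
    ring
  rw [hs]
  ring

lemma D_upper {h u : ℝ} (hh : 0 < h) {c L : ℕ} (hc : 1 ≤ c) (hu : Real.log c ≤ u)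
    (hu2 : Real.exp (u + 2 * h) ≤ c + L) :
    D h u ≤ h * ∑ n ∈ Finset.Ico c (c + L), Λ n - c * h ^ 2 := by
  have hc0 : (0 : ℝ) < c := by exact_mod_cast hc
  have hlogc : 0 ≤ Real.log c := Real.log_nonneg (by exact_mod_cast hc)
  have hu0 : 0 ≤ u := hlogc.trans hu
  rw [D_eq hh hu0]
  have h1 : ∑' n : ℕ, Λ n * tent h (Real.log n - u) ≤ h * ∑ n ∈ Finset.Ico c (c + L), Λ n := by
    rw [tsum_eq_sum (s := Finset.Ico c (c + L))]
    · rw [Finset.mul_sum]
      apply Finset.sum_le_sum
      intro n _
      rw [mul_comm h]
      exact mul_le_mul_of_nonneg_left (tent_le hh _) ArithmeticFunction.vonMangoldt_nonneg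
    · intro n hn
      rw [Finset.mem_Ico, not_and_or, not_le, not_lt] at hn
      rcases hn with hn | hn
      · have : Real.log n ≤ Real.log c := by
          rcases Nat.eq_zero_or_pos n with rfl | hn0
          · simpa using hlogc
          · exact Real.log_le_log (by exact_mod_cast hn0) (by exact_mod_cast hn.le)
        rw [tent_left hh (by linarith), mul_zero]
      · have h2 : Real.exp (u + 2 * h) ≤ n := hu2.trans (by exact_mod_cast hn)
        have h3 : u + 2 * h ≤ Real.log n := by
          rw [Real.le_log_iff_exp_le (lt_of_lt_of_le (Real.exp_pos _) h2)]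
          exact h2
        rw [tent_right hh (by linarith), mul_zero]
  have h2 : (c : ℝ) * h ^ 2 ≤ Real.exp u * (Real.exp h - 1) ^ 2 := by
    have h3 : (c : ℝ) ≤ Real.exp u := by
      rw [← Real.log_le_iff_le_exp hc0]; exact hu
    have h4 : h ≤ Real.exp h - 1 := by linarith [Real.add_one_le_exp h]
    have h5 : h ^ 2 ≤ (Real.exp h - 1) ^ 2 := pow_le_pow_left₀ hh.le h4 2
    exact mul_le_mul h3 h5 (by positivity) (Real.exp_pos _).le
  linarith

/-- at most one proper `j`-th prime power for each `j` in a short interval -/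
lemma card_primePow_le {c L K : ℕ} (hL : L ^ 2 ≤ c) (hK : c + L ≤ 2 ^ K) :
    ((Finset.Ico c (c + L)).filter (fun n => IsPrimePow n ∧ ¬ n.Prime)).card ≤ K := by
  classical
  have hcard : ((Finset.Ico c (c + L)).filter (fun n => IsPrimePow n ∧ ¬ n.Prime)).card ≤
      (Finset.range K).card := by
    apply Finset.card_le_card_of_injOn (fun n => n.factorization n.minFac)
    · intro n hn
      rw [Finset.mem_coe, Finset.mem_filter, Finset.mem_Ico] at hn
      obtain ⟨⟨h1, h2⟩, h3, h4⟩ := hn
      have h5 := h3.minFac_pow_factorization_eq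
      have h6 : 2 ≤ n.minFac := (Nat.minFac_prime h3.ne_one).two_le
      rw [Finset.coe_range, Set.mem_Iio]
      by_contra hcon
      push Not at hcon
      have h7 : 2 ^ K ≤ n := by
        calc 2 ^ K ≤ 2 ^ n.factorization n.minFac := Nat.pow_le_pow_right (by norm_num) hcon
          _ ≤ n.minFac ^ n.factorization n.minFac := Nat.pow_le_pow_left h6 _
          _ = n := h5
      omega
    · -- injectivity
      have key : ∀ n n' : ℕ, c ≤ n → n' < c + L → IsPrimePow n → ¬ n.Prime → IsPrimePow n' →
          n.factorization n.minFac = n'.factorization n'.minFac → ¬ n.minFac < n'.minFac := by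
        intro n n' h1 h2 h3 h4 h3' heq hlt
        have h5 := h3.minFac_pow_factorization_eq
        have h5' := h3'.minFac_pow_factorization_eq
        rw [← heq] at h5'
        set j := n.factorization n.minFac with hj
        set p := n.minFac with hp
        set q := n'.minFac with hq
        have hpp : p.Prime := Nat.minFac_prime h3.ne_one
        have hj2 : 2 ≤ j := by
          by_contra hcon
          push Not at hcon
          interval_cases j
          · rw [pow_zero] at h5
            exact h3.ne_one h5.symm
          · rw [pow_one] at h5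
            rw [← h5] at h4
            exact h4 hpp
        obtain ⟨i, hi⟩ : ∃ i, j = i + 1 := ⟨j - 1, by omega⟩
        rw [hi] at h5 h5'
        have h6 : p ^ (i + 1) + p ^ i ≤ q ^ (i + 1) := by
          calc p ^ (i + 1) + p ^ i = p ^ i * (p + 1) := by ring
            _ ≤ q ^ i * q := Nat.mul_le_mul (Nat.pow_le_pow_left hlt.le i) hlt
            _ = q ^ (i + 1) := by ring
        have h7 : L ≤ p ^ i := by
          by_contra hcon
          push Not at hcon
          have h8 : (p ^ i) ^ 2 < L ^ 2 := Nat.pow_lt_pow_left hcon (by norm_num)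
          have h9 : p ^ (i + 1) ≤ (p ^ i) ^ 2 := by
            rw [← pow_mul]
            exact Nat.pow_le_pow_right hpp.pos (by omega)
          omega
        omega
      intro n hn n' hn' heq
      rw [Finset.mem_coe, Finset.mem_filter, Finset.mem_Ico] at hn hn'
      obtain ⟨⟨h1, h2⟩, h3, h4⟩ := hn
      obtain ⟨⟨h1', h2'⟩, h3', h4'⟩ := hn'
      simp only at heq
      have k1 := key n n' h1 h2' h3 h4 h3' heq
      have k2 := key n' n h1' h2 h3' h4' h3 heq.symm
      have hmin : n.minFac = n'.minFac := by omega
      rw [← h3.minFac_pow_factorization_eq, ← h3'.minFac_pow_factorization_eq, heq, hmin]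
  rwa [Finset.card_range] at hcard

lemma sum_vonMangoldt_le {c L K : ℕ} (hL : L ^ 2 ≤ c) (hK : c + L ≤ 2 ^ K) :
    ∑ n ∈ Finset.Ico c (c + L), Λ n ≤
      K * ((((Finset.Ico c (c + L)).filter Nat.Prime).card : ℝ) + K) := by
  classical
  have hterm : ∀ n ∈ Finset.Ico c (c + L), Λ n ≤
      (if n.Prime then (K : ℝ) else 0) + (if IsPrimePow n ∧ ¬ n.Prime then (K : ℝ) else 0) := by
    intro n hn
    rw [Finset.mem_Ico] at hn
    by_cases hpp : IsPrimePow n
    · have hn0 : 0 < n := hpp.pos
      have h1 : Λ n ≤ Real.log n := ArithmeticFunction.vonMangoldt_le_log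
      have h2 : Real.log n ≤ K := by
        have h3 : (n : ℝ) ≤ (2 : ℝ) ^ K := by
          have : n ≤ 2 ^ K := by omega
          exact_mod_cast this
        calc Real.log n ≤ Real.log ((2 : ℝ) ^ K) := Real.log_le_log (by exact_mod_cast hn0) h3
          _ = K * Real.log 2 := Real.log_pow _ _
          _ ≤ K * 1 := by
            apply mul_le_mul_of_nonneg_left _ (Nat.cast_nonneg K)
            have := Real.log_two_lt_d9
            linarith
          _ = K := mul_one _
      by_cases hp : n.Prime
      · simp only [hp, if_true, not_true_eq_false, and_false, if_false, add_zero]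
        linarith
      · simp only [hp, if_false, hpp, not_false_eq_true, and_true, if_true, zero_add]
        linarith
    · rw [ArithmeticFunction.vonMangoldt_eq_zero_iff.mpr hpp]
      positivity
  refine (Finset.sum_le_sum hterm).trans ?_
  rw [Finset.sum_add_distrib, ← Finset.sum_filter, ← Finset.sum_filter, Finset.sum_const,
    Finset.sum_const, nsmul_eq_mul, nsmul_eq_mul]
  have h1 : ((((Finset.Ico c (c + L)).filter (fun n => IsPrimePow n ∧ ¬ n.Prime)).card : ℕ) : ℝ) ≤ K := by
    exact_mod_cast card_primePow_le hL hK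
  have hK0 : (0 : ℝ) ≤ K := Nat.cast_nonneg K
  nlinarith [mul_le_mul_of_nonneg_right h1 hK0]

end Pool.Agent.MP_a187e6.FewDead
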