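import Mathlib

/-! Completely multiplicative extension and the abstract fixed point theorem. -/

namespace Pool.Agent.MP_a187e6

open Finset Filter Topology

/-- completely multiplicative extension of `f` (values at primes) -/
noncomputable def cm (f : ℕ → ℝ) (n : ℕ) : ℝ := (n.primeFactorsList.map f).prod

namespace FP

lemma list_bound (f A : ℕ → ℝ) (l : List ℕ) (hf : ∀ p ∈ l, |f p| ≤ A p) :
    |(l.map f).prod| ≤ (l.map (fun p => 2 * A p)).prod := by
  induction l with
  | nil => simp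
  | cons a l ih =>
    simp only [List.map_cons, List.prod_cons]
    rw [abs_mul]
    have h1 := hf a (by simp)
    have h2 := ih (fun p hp => hf p (by simp [hp]))
    have h3 := abs_nonneg (f a)
    exact mul_le_mul (by linarith) h2 (abs_nonneg _) (by linarith)

lemma list_lip (f g A : ℕ → ℝ) (D : ℝ) (hD : 0 ≤ D) (l : List ℕ) (hf : ∀ p ∈ l, |f p| ≤ A p)
    (hg : ∀ p ∈ l, |g p| ≤ A p) (hfg : ∀ p ∈ l, |f p - g p| ≤ D * A p) :
    |(l.map f).prod - (l.map g).prod| ≤ D * (l.map (fun p => 2 * A p)).prod := by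
  induction l with
  | nil => simpa using hD
  | cons a l ih =>
    simp only [List.map_cons, List.prod_cons]
    have h1 := hf a (by simp)
    have h2 := hg a (by simp)
    have h3 := hfg a (by simp)
    have hf' : ∀ p ∈ l, |f p| ≤ A p := fun p hp => hf p (by simp [hp])
    have hg' : ∀ p ∈ l, |g p| ≤ A p := fun p hp => hg p (by simp [hp])
    have h4 := ih hf' hg' (fun p hp => hfg p (by simp [hp]))
    have h5 := list_bound f A l hf'
    have hA : 0 ≤ A a := le_trans (abs_nonneg _) h1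
    have e : f a * (l.map f).prod - g a * (l.map g).prod =
        (f a - g a) * (l.map f).prod + g a * ((l.map f).prod - (l.map g).prod) := by ring
    rw [e]
    refine (abs_add_le _ _).trans ?_
    rw [abs_mul, abs_mul]
    have h6 : |f a - g a| * |(l.map f).prod| ≤ (D * A a) * (l.map (fun p => 2 * A p)).prod :=
      mul_le_mul h3 h5 (abs_nonneg _) (mul_nonneg hD hA)
    have h7 : |g a| * |(l.map f).prod - (l.map g).prod| ≤
        A a * (D * (l.map (fun p => 2 * A p)).prod) :=
      mul_le_mul h2 h4 (abs_nonneg _) hA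
    calc _ ≤ (D * A a) * (l.map (fun p => 2 * A p)).prod +
          A a * (D * (l.map (fun p => 2 * A p)).prod) := add_le_add h6 h7
      _ = _ := by ring

/-- `cm` is continuous in `f` for pointwise convergence on primes -/
lemma tendsto_cm (F : ℕ → ℕ → ℝ) (f : ℕ → ℝ)
    (h : ∀ p : ℕ, p.Prime → Tendsto (fun k => F k p) atTop (𝓝 (f p))) (n : ℕ) :
    Tendsto (fun k => cm (F k) n) atTop (𝓝 (cm f n)) := by
  unfold cm
  have hl : ∀ l : List ℕ, (∀ p ∈ l, Tendsto (fun k => F k p) atTop (𝓝 (f p))) →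
      Tendsto (fun k => (l.map (F k)).prod) atTop (𝓝 (l.map f).prod) := by
    intro l
    induction l with
    | nil => intro _; simp
    | cons a l ih =>
      intro h
      simp only [List.map_cons, List.prod_cons]
      exact (h a (by simp)).mul (ih (fun p hp => h p (by simp [hp])))
  exact hl _ (fun p hp => h p (Nat.prime_of_mem_primeFactorsList hp))

end FP

/-- Lipschitz bound for `cm` -/
theorem abs_cm_sub_cm_le (f g A : ℕ → ℝ) (D : ℝ) (hD : 0 ≤ D) (n : ℕ) (_hn : n ≠ 0)
    (hf : ∀ p : ℕ, p.Prime → |f p| ≤ A p) (hg : ∀ p : ℕ, p.Prime → |g p| ≤ A p)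
    (hfg : ∀ p : ℕ, p.Prime → |f p - g p| ≤ D * A p) :
    |cm f n - cm g n| ≤ D * cm (fun p => 2 * A p) n :=
  FP.list_lip f g A D hD _ (fun p hp => hf p (Nat.prime_of_mem_primeFactorsList hp))
    (fun p hp => hg p (Nat.prime_of_mem_primeFactorsList hp))
    (fun p hp => hfg p (Nat.prime_of_mem_primeFactorsList hp))

theorem exists_fixed_point {ι : Type*} (C Q : ι → Finset ℕ) (b rad A w : ℕ → ℝ) (m : ℕ → ℕ)
    (E : ι → ℝ) (lam M : ℕ → ℝ)
    (hC : ∀ i, ∀ n ∈ C i, 1 ≤ n)
    (hrad : ∀ p, 0 ≤ rad p) (hA : ∀ p : ℕ, p.Prime → |b p| + rad p ≤ A p)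
    (hdisj : ∀ i i' q, q ∈ Q i → q ∈ Q i' → i = i')
    (hQ : ∀ i, ∀ q ∈ Q i, q.Prime ∧ 1 ≤ m q ∧ m q * q ∈ C i)
    (hinj : ∀ i, Set.InjOn (fun q => m q * q) (Q i : Set ℕ))
    (hw : ∀ i, ∑ q ∈ Q i, w q = 1) (hw0 : ∀ q, 0 ≤ w q)
    (hb : ∀ i, (∀ q ∈ Q i, m q = 1) ∨ (∀ q ∈ Q i, b q = 0))
    (hlam : ∀ i, ∀ q ∈ Q i, 0 < lam q ∧ ∀ f : ℕ → ℝ, (∀ p : ℕ, p.Prime → |f p - b p| ≤ rad p) →
      lam q ≤ |cm f (m q)|)
    (hM : ∀ i, ∀ q ∈ Q i, 0 ≤ M q ∧ ∀ (f g : ℕ → ℝ) (D : ℝ), 0 ≤ D →
      (∀ p : ℕ, p.Prime → |f p - b p| ≤ rad p) → (∀ p : ℕ, p.Prime → |g p - b p| ≤ rad p) →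
      (∀ p : ℕ, p.Prime → |f p - g p| ≤ D * rad p) → |cm f (m q) - cm g (m q)| ≤ D * M q)
    -- the remainder `R_i(f) + ∑_{q ∈ Q i} b q`
    (hE : ∀ i, ∀ f : ℕ → ℝ, (∀ p : ℕ, p.Prime → |f p - b p| ≤ rad p) →
      |∑ n ∈ C i \ (Q i).image (fun q => m q * q), cm f n + ∑ q ∈ Q i, b q| ≤ E i)
    (hE' : ∀ i, ∀ (f g : ℕ → ℝ) (D : ℝ), 0 ≤ D →
      (∀ p : ℕ, p.Prime → |f p - b p| ≤ rad p) → (∀ p : ℕ, p.Prime → |g p - b p| ≤ rad p) →
      (∀ p : ℕ, p.Prime → |f p - g p| ≤ D * rad p) →
      |∑ n ∈ C i \ (Q i).image (fun q => m q * q), cm f n -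
        ∑ n ∈ C i \ (Q i).image (fun q => m q * q), cm g n| ≤ D * E i)
    (h1 : ∀ i, ∀ q ∈ Q i, w q * E i ≤ rad q * lam q)
    (h2 : ∀ i, ∀ q ∈ Q i, w q * E i * (1 / lam q + M q / (lam q) ^ 2) ≤ rad q / 2) :
    ∃ f : ℕ → ℝ, (∀ p : ℕ, p.Prime → |f p - b p| ≤ rad p) ∧ ∀ i, ∑ n ∈ C i, cm f n = 0 := by
  classical
  -- the remainder
  set R : ι → (ℕ → ℝ) → ℝ := fun i f =>
    ∑ n ∈ C i \ (Q i).image (fun q => m q * q), cm f n + ∑ q ∈ Q i, b q with hR
  -- the map
  set T : (ℕ → ℝ) → ℕ → ℝ := fun f p =>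
    if h : ∃ i, p ∈ Q i then b p - w p * R h.choose f / cm f (m p) else b p with hT
  have hTQ : ∀ f i q, q ∈ Q i → T f q = b q - w q * R i f / cm f (m q) := by
    intro f i q hq
    have h : ∃ i, q ∈ Q i := ⟨i, hq⟩
    have he : h.choose = i := hdisj _ _ q h.choose_spec hq
    simp only [hT, dif_pos h]
    rw [he]
  have hTn : ∀ f q, (¬ ∃ i, q ∈ Q i) → T f q = b q := by
    intro f q h
    simp only [hT, dif_neg h]
  set Ball : (ℕ → ℝ) → Prop := fun f => ∀ p : ℕ, p.Prime → |f p - b p| ≤ rad p with hBall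
  have hE0 : ∀ i f, Ball f → |R i f| ≤ E i := fun i f hf => hE i f hf
  have hEn : ∀ i f, Ball f → 0 ≤ E i := fun i f hf => (abs_nonneg _).trans (hE0 i f hf)
  -- T maps the ball into itself
  have hTB : ∀ f, Ball f → Ball (T f) := by
    intro f hf p hp
    by_cases h : ∃ i, p ∈ Q i
    · obtain ⟨i, hi⟩ := h
      rw [hTQ f i p hi]
      obtain ⟨hl0, hl⟩ := hlam i p hi
      have hl1 := hl f hf
      have hcm : 0 < |cm f (m p)| := lt_of_lt_of_le hl0 hl1
      have e : b p - w p * R i f / cm f (m p) - b p = -(w p * R i f / cm f (m p)) := by ring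
      rw [e, abs_neg, abs_div, abs_mul, abs_of_nonneg (hw0 p), div_le_iff₀ hcm]
      have a1 : w p * |R i f| ≤ w p * E i := mul_le_mul_of_nonneg_left (hE0 i f hf) (hw0 p)
      have a2 : rad p * lam p ≤ rad p * |cm f (m p)| := mul_le_mul_of_nonneg_left hl1 (hrad p)
      exact a1.trans ((h1 i p hi).trans a2)
    · rw [hTn f p h, sub_self, abs_zero]
      exact hrad p
  -- T is a contraction
  have hTC : ∀ f g D, 0 ≤ D → Ball f → Ball g → (∀ p : ℕ, p.Prime → |f p - g p| ≤ D * rad p) →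
      ∀ p : ℕ, p.Prime → |T f p - T g p| ≤ D / 2 * rad p := by
    intro f g D hD hf hg hfg p hp
    by_cases h : ∃ i, p ∈ Q i
    · obtain ⟨i, hi⟩ := h
      rw [hTQ f i p hi, hTQ g i p hi]
      obtain ⟨hl0, hl⟩ := hlam i p hi
      have hlf := hl f hf
      have hlg := hl g hg
      obtain ⟨hM0, hMl⟩ := hM i p hi
      have hMfg := hMl f g D hD hf hg hfg
      set u := cm f (m p) with hu
      set v := cm g (m p) with hv
      have hu0 : 0 < |u| := lt_of_lt_of_le hl0 hlf
      have hv0 : 0 < |v| := lt_of_lt_of_le hl0 hlg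
      have hune : u ≠ 0 := abs_pos.mp hu0
      have hvne : v ≠ 0 := abs_pos.mp hv0
      have hdiff : |R i f - R i g| ≤ D * E i := by
        have := hE' i f g D hD hf hg hfg
        have e : R i f - R i g = ∑ n ∈ C i \ (Q i).image (fun q => m q * q), cm f n -
            ∑ n ∈ C i \ (Q i).image (fun q => m q * q), cm g n := by
          simp only [hR]
          ring
        rw [e]
        exact this
      have hEi := hEn i f hf
      have e : b p - w p * R i f / u - (b p - w p * R i g / v) =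
          -(w p * ((R i f - R i g) / u + R i g * (v - u) / (u * v))) := by
        field_simp
        ring
      rw [e, abs_neg, abs_mul, abs_of_nonneg (hw0 p)]
      have b1 : |(R i f - R i g) / u| ≤ D * E i * (1 / lam p) := by
        rw [abs_div, div_eq_mul_one_div]
        apply mul_le_mul hdiff _ (by positivity) (mul_nonneg hD hEi)
        exact one_div_le_one_div_of_le hl0 hlf
      have b2 : |R i g * (v - u) / (u * v)| ≤ D * E i * (M p / (lam p) ^ 2) := by
        rw [abs_div, abs_mul, abs_mul, abs_sub_comm]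
        have c1 : |R i g| * |u - v| ≤ E i * (D * M p) :=
          mul_le_mul (hE0 i g hg) hMfg (abs_nonneg _) hEi
        have c2 : (lam p) ^ 2 ≤ |u| * |v| := by
          rw [sq]
          exact mul_le_mul hlf hlg hl0.le (abs_nonneg _)
        have c3 : 0 < (lam p) ^ 2 := by positivity
        calc |R i g| * |u - v| / (|u| * |v|) ≤ E i * (D * M p) / (lam p) ^ 2 :=
              div_le_div₀ (mul_nonneg hEi (mul_nonneg hD hM0)) c1 c3 c2
          _ = _ := by ring
      have b3 : |(R i f - R i g) / u + R i g * (v - u) / (u * v)| ≤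
          D * E i * (1 / lam p + M p / (lam p) ^ 2) := by
        refine (abs_add_le _ _).trans ?_
        calc _ ≤ D * E i * (1 / lam p) + D * E i * (M p / (lam p) ^ 2) := add_le_add b1 b2
          _ = _ := by ring
      calc w p * |(R i f - R i g) / u + R i g * (v - u) / (u * v)|
          ≤ w p * (D * E i * (1 / lam p + M p / (lam p) ^ 2)) :=
            mul_le_mul_of_nonneg_left b3 (hw0 p)
        _ = D * (w p * E i * (1 / lam p + M p / (lam p) ^ 2)) := by ring
        _ ≤ D * (rad p / 2) := mul_le_mul_of_nonneg_left (h2 i p hi) hD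
        _ = D / 2 * rad p := by ring
    · rw [hTn f p h, hTn g p h, sub_self, abs_zero]
      exact mul_nonneg (by linarith) (hrad p)
  -- iteration
  set F : ℕ → ℕ → ℝ := fun k => T^[k] b with hF
  have hFs : ∀ k, F (k + 1) = T (F k) := by
    intro k
    simp only [hF, Function.iterate_succ_apply']
  have hF0 : F 0 = b := rfl
  have hFB : ∀ k, Ball (F k) := by
    intro k
    induction k with
    | zero =>
      intro p _
      rw [hF0, sub_self, abs_zero]
      exact hrad p
    | succ k ih =>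
      rw [hFs]
      exact hTB _ ih
  have hstep : ∀ k, ∀ p : ℕ, p.Prime → |F (k + 1) p - F k p| ≤ (1 / 2) ^ k * rad p := by
    intro k
    induction k with
    | zero =>
      intro p hp
      have := hFB 1 p hp
      rw [pow_zero, one_mul]
      exact this
    | succ k ih =>
      intro p hp
      have h3 := hTC (F (k + 1)) (F k) ((1 / 2) ^ k) (by positivity) (hFB _) (hFB _) ih p hp
      rw [← hFs, ← hFs] at h3
      refine h3.trans (le_of_eq ?_)
      rw [pow_succ]
      ring
  have hcau : ∀ p : ℕ, p.Prime → ∃ l, Tendsto (fun k => F k p) atTop (𝓝 l) := by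
    intro p hp
    have hc : CauchySeq (fun k => F k p) := by
      apply cauchySeq_of_le_geometric (1 / 2) (rad p) (by norm_num)
      intro k
      rw [Real.dist_eq, abs_sub_comm]
      have := hstep k p hp
      linarith [mul_comm ((1 / 2 : ℝ) ^ k) (rad p)]
    exact cauchySeq_tendsto_of_complete hc
  choose! f hf using hcau
  have hfB : Ball f := by
    intro p hp
    have h3 : Tendsto (fun k => |F k p - b p|) atTop (𝓝 |f p - b p|) :=
      ((hf p hp).sub_const (b p)).abs
    exact le_of_tendsto' h3 (fun k => hFB k p hp)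
  have hcm := FP.tendsto_cm F f hf
  have hRt : ∀ i, Tendsto (fun k => R i (F k)) atTop (𝓝 (R i f)) := by
    intro i
    simp only [hR]
    apply Tendsto.add_const
    exact tendsto_finsetSum _ (fun n _ => hcm n)
  have hfix : ∀ i, ∀ q ∈ Q i, f q = b q - w q * R i f / cm f (m q) := by
    intro i q hq
    have hqp := (hQ i q hq).1
    have hne : cm f (m q) ≠ 0 := by
      have := (hlam i q hq).2 f hfB
      have h3 := (hlam i q hq).1
      exact abs_pos.mp (lt_of_lt_of_le h3 this)
    have h4 : Tendsto (fun k => F (k + 1) q) atTop (𝓝 (f q)) :=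
      (hf q hqp).comp (tendsto_add_atTop_nat 1)
    have h5 : Tendsto (fun k => b q - w q * R i (F k) / cm (F k) (m q)) atTop
        (𝓝 (b q - w q * R i f / cm f (m q))) :=
      tendsto_const_nhds.sub (((hRt i).const_mul (w q)).div (hcm (m q)) hne)
    have h6 : ∀ k, F (k + 1) q = b q - w q * R i (F k) / cm (F k) (m q) := by
      intro k
      rw [hFs, hTQ _ i q hq]
    simp_rw [h6] at h4
    exact tendsto_nhds_unique h4 h5
  refine ⟨f, hfB, fun i => ?_⟩
  have hsub : (Q i).image (fun q => m q * q) ⊆ C i := by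
    intro n hn
    rw [Finset.mem_image] at hn
    obtain ⟨q, hq, rfl⟩ := hn
    exact (hQ i q hq).2.2
  rw [← Finset.sum_sdiff hsub]
  have h3 : ∑ n ∈ (Q i).image (fun q => m q * q), cm f n = ∑ q ∈ Q i, cm f (m q) * f q := by
    rw [Finset.sum_image (fun x hx y hy hxy => hinj i hx hy hxy)]
    apply Finset.sum_congr rfl
    intro q hq
    obtain ⟨hqp, hm1, _⟩ := hQ i q hq
    unfold cm
    have hperm := Nat.perm_primeFactorsList_mul (show m q ≠ 0 by omega) hqp.ne_zero
    rw [(hperm.map f).prod_eq, List.map_append, List.prod_append, Nat.primeFactorsList_prime hqp]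
    simp
  have h4 : ∑ q ∈ Q i, cm f (m q) * f q = ∑ q ∈ Q i, cm f (m q) * b q - R i f := by
    have h5 : ∀ q ∈ Q i, cm f (m q) * f q = cm f (m q) * b q - w q * R i f := by
      intro q hq
      have hne : cm f (m q) ≠ 0 := by
        have := (hlam i q hq).2 f hfB
        have h3 := (hlam i q hq).1
        exact abs_pos.mp (lt_of_lt_of_le h3 this)
      conv_lhs => rw [hfix i q hq]
      field_simp
    rw [Finset.sum_congr rfl h5, Finset.sum_sub_distrib, ← Finset.sum_mul, hw i, one_mul]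
  have h5 : ∑ q ∈ Q i, cm f (m q) * b q = ∑ q ∈ Q i, b q := by
    apply Finset.sum_congr rfl
    intro q hq
    rcases hb i with h | h
    · rw [h q hq]
      simp [cm]
    · rw [h q hq, mul_zero]
  rw [h3, h4, h5]
  simp only [hR]
  ring

end Pool.Agent.MP_a187e6
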