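import Pool.Agent.MP_a187e6.OrdinarySum

/-! Module E6: the initial cell. -/

namespace Pool.Agent.MP_a187e6

open Finset

/-- `∑_{k₁ ≤ k ≤ k₀} 2^(ak)/k³` is dominated by its last terms -/
lemma sum_pow_div_cube_le {a : ℝ} (ha : 0 < a) (k₁ k₀ : ℕ) (hk₁ : 1 ≤ k₁) (hk₀ : 1 ≤ k₀) :
    ∑ k ∈ Finset.Ico k₁ (k₀ + 1), (2 : ℝ) ^ (a * (k : ℝ)) / (k : ℝ) ^ 3 ≤
      k₀ * (2 : ℝ) ^ (a / 2 * (k₀ : ℝ)) +
        8 / (1 - (2 : ℝ) ^ (-a)) * (2 : ℝ) ^ (a * (k₀ : ℝ)) / (k₀ : ℝ) ^ 3 := by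
  have hk0pos : (0 : ℝ) < k₀ := by exact_mod_cast hk₀
  set r : ℝ := (2 : ℝ) ^ (-a) with hr
  have hr0 : 0 < r := by positivity
  have hr1 : r < 1 := by
    rw [hr]
    apply Real.rpow_lt_one_of_one_lt_of_neg (by norm_num)
    linarith
  set S := Finset.Ico k₁ (k₀ + 1) with hS
  have h1 : ∀ k ∈ S, (2 : ℝ) ^ (a * (k : ℝ)) / (k : ℝ) ^ 3 ≤
      (2 : ℝ) ^ (a / 2 * (k₀ : ℝ)) +
        8 / (k₀ : ℝ) ^ 3 * ((2 : ℝ) ^ (a * (k₀ : ℝ)) * r ^ (k₀ - k)) := by
    intro k hk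
    rw [hS, Finset.mem_Ico] at hk
    have hkk : k ≤ k₀ := by omega
    have hk1 : (1 : ℝ) ≤ k := by
      have : 1 ≤ k := by omega
      exact_mod_cast this
    have e1 : (2 : ℝ) ^ (a * (k₀ : ℝ)) * r ^ (k₀ - k) = (2 : ℝ) ^ (a * (k : ℝ)) := by
      rw [hr, ← Real.rpow_natCast, ← Real.rpow_mul (by norm_num), ← Real.rpow_add (by norm_num)]
      congr 1
      push_cast [Nat.cast_sub hkk]
      ring
    rw [e1]
    by_cases h2 : (2 * k : ℝ) ≤ k₀
    · have h3 : (2 : ℝ) ^ (a * (k : ℝ)) / (k : ℝ) ^ 3 ≤ (2 : ℝ) ^ (a * (k : ℝ)) :=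
        div_le_self (by positivity) (one_le_pow₀ hk1)
      have h4 : (2 : ℝ) ^ (a * (k : ℝ)) ≤ (2 : ℝ) ^ (a / 2 * (k₀ : ℝ)) := by
        apply Real.rpow_le_rpow_of_exponent_le (by norm_num)
        nlinarith
      have h5 : 0 ≤ 8 / (k₀ : ℝ) ^ 3 * (2 : ℝ) ^ (a * (k : ℝ)) := by positivity
      linarith
    · push Not at h2
      have h3 : (2 : ℝ) ^ (a * (k : ℝ)) / (k : ℝ) ^ 3 ≤ 8 / (k₀ : ℝ) ^ 3 * (2 : ℝ) ^ (a * (k : ℝ)) := by
        rw [div_le_iff₀ (by positivity)]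
        have h4 : (k₀ : ℝ) ^ 3 ≤ 8 * (k : ℝ) ^ 3 := by
          have h5 : (k₀ : ℝ) ^ 3 ≤ (2 * (k : ℝ)) ^ 3 :=
            pow_le_pow_left₀ hk0pos.le h2.le 3
          calc (k₀ : ℝ) ^ 3 ≤ (2 * (k : ℝ)) ^ 3 := h5
            _ = 8 * (k : ℝ) ^ 3 := by ring
        have h6 : 1 ≤ 8 / (k₀ : ℝ) ^ 3 * (k : ℝ) ^ 3 := by
          rw [div_mul_eq_mul_div, le_div_iff₀ (by positivity)]
          linarith
        have h7 : (0 : ℝ) < (2 : ℝ) ^ (a * (k : ℝ)) := by positivity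
        calc (2 : ℝ) ^ (a * (k : ℝ)) = 1 * (2 : ℝ) ^ (a * (k : ℝ)) := (one_mul _).symm
          _ ≤ (8 / (k₀ : ℝ) ^ 3 * (k : ℝ) ^ 3) * (2 : ℝ) ^ (a * (k : ℝ)) :=
              mul_le_mul_of_nonneg_right h6 h7.le
          _ = _ := by ring
      have h8 : (0 : ℝ) < (2 : ℝ) ^ (a / 2 * (k₀ : ℝ)) := by positivity
      linarith
  refine (Finset.sum_le_sum h1).trans ?_
  rw [Finset.sum_add_distrib, Finset.sum_const, nsmul_eq_mul, ← Finset.mul_sum, ← Finset.mul_sum]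
  have hcard : ((S.card : ℕ) : ℝ) ≤ k₀ := by
    rw [hS, Nat.card_Ico]
    have : k₀ + 1 - k₁ ≤ k₀ := by omega
    exact_mod_cast this
  have hgeo : ∑ k ∈ S, r ^ (k₀ - k) ≤ 1 / (1 - r) := by
    have h2 : ∑ k ∈ S, r ^ (k₀ - k) ≤ ∑ i ∈ Finset.range (k₀ + 1), r ^ i := by
      have h3 : ∑ k ∈ S, r ^ (k₀ - k) ≤ ∑ k ∈ Finset.range (k₀ + 1), r ^ (k₀ - k) := by
        apply Finset.sum_le_sum_of_subset_of_nonneg
        · intro k hk
          rw [hS, Finset.mem_Ico] at hk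
          rw [Finset.mem_range]
          exact hk.2
        · intro k _ _
          positivity
      refine h3.trans (le_of_eq ?_)
      have h4 := Finset.sum_range_reflect (fun i => r ^ i) (k₀ + 1)
      rw [← h4]
      apply Finset.sum_congr rfl
      intro k _
      congr 1
    refine h2.trans ?_
    have h5 : Summable (fun i : ℕ => r ^ i) := summable_geometric_of_lt_one hr0.le hr1
    have h6 := h5.sum_le_tsum (Finset.range (k₀ + 1)) (fun i _ => by positivity)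
    rw [tsum_geometric_of_lt_one hr0.le hr1] at h6
    rw [one_div]
    exact h6
  have h9 : (0 : ℝ) < (2 : ℝ) ^ (a / 2 * (k₀ : ℝ)) := by positivity
  apply add_le_add
  · exact mul_le_mul_of_nonneg_right hcard h9.le
  · calc 8 / (k₀ : ℝ) ^ 3 * ((2 : ℝ) ^ (a * (k₀ : ℝ)) * ∑ k ∈ S, r ^ (k₀ - k))
        ≤ 8 / (k₀ : ℝ) ^ 3 * ((2 : ℝ) ^ (a * (k₀ : ℝ)) * (1 / (1 - r))) := by
          apply mul_le_mul_of_nonneg_left _ (by positivity)
          exact mul_le_mul_of_nonneg_left hgeo (by positivity)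
      _ = _ := by ring

theorem initial_sum {β : ℝ} (hβ : 0 < β) (hβ' : β ≤ 1 / 1000) (K₀ : ℕ) (Cs : ℝ) :
    ∀ ε : ℝ, 0 < ε → ∃ P₀ : ℕ, ∀ P : ℕ, P₀ ≤ P → ∃ k₁ : ℕ, ∀ k₀ : ℕ, k₁ ≤ k₀ →
      ∀ 𝒟 : Dead β k₀, ∀ α : ℕ → ℝ, AlphaData 𝒟 P K₀ Cs α →
        ∀ s : Finset ℕ, s ⊆ Finset.Ico 2 (2 ^ (k₀ + 1)) → (∀ n ∈ s, ¬ n.Prime ∨ 𝒟.Spec n) →
          ∑ n ∈ s, α n * (n : ℝ) ^ (-(1 - β / 6)) ≤ ε * (2 : ℝ) ^ (β / 6 * (k₀ : ℝ)) / (k₀ : ℝ) ^ 3 := by
  classical
  intro ε hε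
  set a : ℝ := β / 6 with ha
  have hapos : 0 < a := by positivity
  have hr1 : (2 : ℝ) ^ (-a) < 1 := by
    apply Real.rpow_lt_one_of_one_lt_of_neg (by norm_num)
    linarith
  have h1r : 0 < 1 - (2 : ℝ) ^ (-a) := by linarith
  set ε' : ℝ := min 1 (ε * (1 - (2 : ℝ) ^ (-a)) / 32) with hε'
  have hε'pos : 0 < ε' := lt_min one_pos (by positivity)
  have hε'1 : ε' ≤ 1 := min_le_left _ _
  have hε'2 : ε' ≤ ε * (1 - (2 : ℝ) ^ (-a)) / 32 := min_le_right _ _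
  obtain ⟨P₁, hP₁⟩ := ordinary_sum hβ hβ' K₀ Cs ε' hε'pos
  obtain ⟨P₂, hP₂⟩ := sigma_small hβ hβ' K₀ Cs 1 one_pos
  refine ⟨max (max P₁ P₂) 7, fun P hP => ?_⟩
  simp only [max_le_iff] at hP
  obtain ⟨⟨hPP1, hPP2⟩, hP7⟩ := hP
  obtain ⟨ka, hka⟩ := hP₁ P hPP1
  obtain ⟨kb, hkb⟩ := hP₂ P hPP2
  obtain ⟨kc, hkc⟩ := sigma_spec_small hβ hβ' K₀ Cs
  obtain ⟨kd, hkd⟩ := alpha_le hβ hβ' K₀ Cs
  set kk : ℕ := max ka 1 with hkk
  obtain ⟨ke, hke⟩ := exists_pow_mul_two_rpow_le 3 (a := a) (b := ε / 4 / 2 ^ kk) hapos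
    (by positivity)
  obtain ⟨kf, hkf⟩ := exists_pow_mul_two_rpow_le 4 (a := a / 2) (b := ε / 4) (by positivity)
    (by positivity)
  obtain ⟨kg, hkg⟩ := exists_pow_mul_two_rpow_le 3 (a := β) (b := ε / 16) hβ (by positivity)
  obtain ⟨k₁, h1, h2, h3, h4, h5, h6, h7, h8⟩ : ∃ k₁ : ℕ, ka ≤ k₁ ∧ kb ≤ k₁ ∧ kc ≤ k₁ ∧ kd ≤ k₁ ∧
      ke ≤ k₁ ∧ kf ≤ k₁ ∧ kg ≤ k₁ ∧ 1 ≤ k₁ :=
    ⟨ka + kb + kc + kd + ke + kf + kg + 1, by omega, by omega, by omega, by omega, by omega,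
      by omega, by omega, by omega⟩
  refine ⟨k₁, fun k₀ hk₀ 𝒟 α hα s hs hprop => ?_⟩
  have hk01 : 1 ≤ k₀ := by omega
  have hk0pos : (0 : ℝ) < k₀ := by exact_mod_cast hk01
  have hordsum := hka k₀ (by omega) 𝒟 α hα
  have hsig := hkb k₀ (by omega) 𝒟 α hα
  have hspec := hkc k₀ (by omega) P 𝒟 α hα
  have hale := hkd k₀ (by omega) P hP7 𝒟 α hα
  set T : ℝ := (2 : ℝ) ^ (a * (k₀ : ℝ)) / (k₀ : ℝ) ^ 3 with hT
  have hTpos : 0 < T := by positivity
  set s1 := s.filter (fun n => ∃ q : ℕ, q.Prime ∧ q ∣ n ∧ 𝒟.Spec q) with hs1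
  set s2 := s.filter (fun n => ¬ ∃ q : ℕ, q.Prime ∧ q ∣ n ∧ 𝒟.Spec q) with hs2
  have hsum : ∑ n ∈ s, α n * (n : ℝ) ^ (-(1 - a)) =
      ∑ n ∈ s1, α n * (n : ℝ) ^ (-(1 - a)) + ∑ n ∈ s2, α n * (n : ℝ) ^ (-(1 - a)) := by
    rw [hs1, hs2, Finset.sum_filter_add_sum_filter_not]
  have hmem : ∀ n ∈ s, 2 ≤ n ∧ n < 2 ^ (k₀ + 1) := fun n hn => Finset.mem_Ico.mp (hs hn)
  have hpw : (2 : ℝ) ^ ((k₀ : ℝ) + 1) = (2 : ℝ) ^ (k₀ + 1) := by
    rw [← Real.rpow_natCast]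
    push_cast
    rfl
  -- numbers with a special prime factor
  have hA : ∑ n ∈ s1, α n * (n : ℝ) ^ (-(1 - a)) ≤ ε / 4 * T := by
    have hA1 : ∀ n ∈ s1, α n * (n : ℝ) ^ (-(1 - a)) ≤ 2 * (2 : ℝ) ^ (a * (k₀ : ℝ)) * (α n / n) := by
      intro n hn
      obtain ⟨hn2, hn3⟩ := hmem n (Finset.mem_filter.mp hn).1
      have hn0 : (0 : ℝ) < n := by
        have : 0 < n := by omega
        exact_mod_cast this
      have e1 : (n : ℝ) ^ (-(1 - a)) = (n : ℝ) ^ a / n := by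
        have : -(1 - a) = a - 1 := by ring
        rw [this, Real.rpow_sub hn0, Real.rpow_one]
      have e2 : (n : ℝ) ^ a ≤ 2 * (2 : ℝ) ^ (a * (k₀ : ℝ)) := by
        have e3 : (n : ℝ) ≤ (2 : ℝ) ^ ((k₀ : ℝ) + 1) := by
          rw [hpw]
          exact_mod_cast hn3.le
        have e4 : (n : ℝ) ^ a ≤ ((2 : ℝ) ^ ((k₀ : ℝ) + 1)) ^ a :=
          Real.rpow_le_rpow hn0.le e3 hapos.le
        refine e4.trans ?_
        rw [← Real.rpow_mul (by norm_num)]
        have e5 : 2 * (2 : ℝ) ^ (a * (k₀ : ℝ)) = (2 : ℝ) ^ (1 + a * (k₀ : ℝ)) := by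
          rw [Real.rpow_add (by norm_num), Real.rpow_one]
        rw [e5]
        apply Real.rpow_le_rpow_of_exponent_le (by norm_num)
        have : a ≤ 1 := by linarith
        nlinarith
      rw [e1]
      have hαn := hα.nonneg n
      calc α n * ((n : ℝ) ^ a / n) = (n : ℝ) ^ a * (α n / n) := by ring
        _ ≤ 2 * (2 : ℝ) ^ (a * (k₀ : ℝ)) * (α n / n) :=
            mul_le_mul_of_nonneg_right e2 (by positivity)
    have hA2 : ∑ n ∈ s1, α n / n ≤ 2 * (2 : ℝ) ^ (-β * (k₀ : ℝ)) := by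
      set Qs := (Finset.range (2 ^ (k₀ + 1))).filter (fun q => q.Prime ∧ 𝒟.Spec q) with hQs
      have hch : ∀ n ∈ s1, ∃ q m : ℕ, n = q * m ∧ q.Prime ∧ 𝒟.Spec q := by
        intro n hn
        rw [hs1, Finset.mem_filter] at hn
        obtain ⟨_, q, hq, ⟨m, rfl⟩, hqs⟩ := hn
        exact ⟨q, m, rfl, hq, hqs⟩
      choose! fq fm hfn hfp hfs using hch
      have hmaps : ∀ n ∈ s1, (fq n, fm n) ∈ Qs ×ˢ Finset.Ico 1 (2 ^ (k₀ + 1)) := by
        intro n hn
        obtain ⟨hn2, hn3⟩ := hmem n (Finset.mem_filter.mp hn).1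
        have hm0 : 0 < fm n := by
          apply Nat.pos_of_ne_zero
          intro h
          have h9 := hfn n hn
          rw [h, mul_zero] at h9
          omega
        have hq0 : 0 < fq n := (hfp n hn).pos
        have e1 : fq n ≤ n := by
          conv_rhs => rw [hfn n hn]
          exact Nat.le_mul_of_pos_right _ hm0
        have e2 : fm n ≤ n := by
          conv_rhs => rw [hfn n hn]
          exact Nat.le_mul_of_pos_left _ hq0
        rw [Finset.mem_product, hQs, Finset.mem_filter, Finset.mem_range, Finset.mem_Ico]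
        exact ⟨⟨by dsimp only; omega, hfp n hn, hfs n hn⟩, by dsimp only; omega, by dsimp only; omega⟩
      have hinj : Set.InjOn (fun n => (fq n, fm n)) (s1 : Set ℕ) := by
        intro n hn n' hn' h
        have h9 : (fq n, fm n) = (fq n', fm n') := h
        rw [Prod.mk.injEq] at h9
        rw [hfn n hn, hfn n' hn', h9.1, h9.2]
      have hA3 : ∑ n ∈ s1, α n / n ≤
          ∑ x ∈ Qs ×ˢ Finset.Ico 1 (2 ^ (k₀ + 1)), (α x.1 / x.1) * (α x.2 / x.2) := by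
        calc ∑ n ∈ s1, α n / n = ∑ n ∈ s1, (α (fq n) / (fq n : ℝ)) * (α (fm n) / (fm n : ℝ)) := by
              apply Finset.sum_congr rfl
              intro n hn
              have h9 := Finset.mem_product.mp (hmaps n hn)
              have hm0 : fm n ≠ 0 := by
                have := (Finset.mem_Ico.mp h9.2).1
                dsimp only at this
                omega
              conv_lhs => rw [hfn n hn]
              rw [hα.mul _ _ (hfp n hn).ne_zero hm0]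
              push_cast
              have a1 : ((fq n : ℕ) : ℝ) ≠ 0 := by exact_mod_cast (hfp n hn).ne_zero
              have a2 : ((fm n : ℕ) : ℝ) ≠ 0 := by exact_mod_cast hm0
              field_simp
          _ = ∑ x ∈ s1.image (fun n => (fq n, fm n)), (α x.1 / x.1) * (α x.2 / x.2) := by
              rw [Finset.sum_image hinj]
          _ ≤ _ := by
              apply Finset.sum_le_sum_of_subset_of_nonneg
              · intro x hx
                rw [Finset.mem_image] at hx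
                obtain ⟨n, hn, rfl⟩ := hx
                exact hmaps n hn
              · intro x _ _
                have := hα.nonneg x.1
                have := hα.nonneg x.2
                positivity
      refine hA3.trans ?_
      have hps : ∑ x ∈ Qs ×ˢ Finset.Ico 1 (2 ^ (k₀ + 1)), (α x.1 / x.1) * (α x.2 / x.2) =
          (∑ q ∈ Qs, α q / q) * ∑ m ∈ Finset.Ico 1 (2 ^ (k₀ + 1)), α m / m := by
        rw [Finset.sum_mul_sum, Finset.sum_product]
      rw [hps]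
      have hA4 : ∑ q ∈ Qs, α q / q ≤ (2 : ℝ) ^ (-β * (k₀ : ℝ)) := by
        apply hspec
        intro q hq
        rw [hQs, Finset.mem_filter] at hq
        exact hq.2
      have hA5 : ∑ m ∈ Finset.Ico 1 (2 ^ (k₀ + 1)), α m / m ≤ 2 := by
        have h9 : 1 < 2 ^ (k₀ + 1) := Nat.one_lt_pow (by omega) (by norm_num)
        rw [Finset.sum_eq_sum_Ico_succ_bot h9, hα.one]
        have h10 := hsig (2 ^ (k₀ + 1))
        push_cast
        push_cast at h10
        norm_num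
        norm_num at h10
        linarith
      have hA6 : 0 ≤ ∑ m ∈ Finset.Ico 1 (2 ^ (k₀ + 1)), α m / m :=
        Finset.sum_nonneg (fun m _ => by have := hα.nonneg m; positivity)
      calc (∑ q ∈ Qs, α q / q) * ∑ m ∈ Finset.Ico 1 (2 ^ (k₀ + 1)), α m / m
          ≤ (2 : ℝ) ^ (-β * (k₀ : ℝ)) * 2 := mul_le_mul hA4 hA5 hA6 (by positivity)
        _ = _ := by ring
    calc ∑ n ∈ s1, α n * (n : ℝ) ^ (-(1 - a))
        ≤ ∑ n ∈ s1, 2 * (2 : ℝ) ^ (a * (k₀ : ℝ)) * (α n / n) := Finset.sum_le_sum hA1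
      _ = 2 * (2 : ℝ) ^ (a * (k₀ : ℝ)) * ∑ n ∈ s1, α n / n := by rw [Finset.mul_sum]
      _ ≤ 2 * (2 : ℝ) ^ (a * (k₀ : ℝ)) * (2 * (2 : ℝ) ^ (-β * (k₀ : ℝ))) :=
          mul_le_mul_of_nonneg_left hA2 (by positivity)
      _ = 4 * ((k₀ : ℝ) ^ 3 * (2 : ℝ) ^ (-β * (k₀ : ℝ))) * T := by
          rw [hT]
          field_simp
          ring
      _ ≤ 4 * (ε / 16) * T := by
          apply mul_le_mul_of_nonneg_right _ hTpos.le
          have := hkg k₀ (by omega)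
          linarith
      _ = _ := by ring
  -- numbers without special prime factor
  have hB : ∑ n ∈ s2, α n * (n : ℝ) ^ (-(1 - a)) ≤ 3 / 4 * ε * T := by
    have hprop2 : ∀ n ∈ s2, ¬ n.Prime ∧ ∀ k : ℕ, SmallSpec 𝒟 k n := by
      intro n hn
      rw [hs2, Finset.mem_filter] at hn
      refine ⟨fun hp => ?_, fun k d hd hdS => ?_⟩
      · rcases hprop n hn.1 with h | h
        · exact h hp
        · exact hn.2 ⟨n, hp, dvd_rfl, h⟩
      · have hd1 : d = 1 := by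
          by_contra hne
          obtain ⟨p, hp, hpd⟩ := Nat.exists_prime_and_dvd hne
          exact hn.2 ⟨p, hp, hpd.trans hd, hdS p hp hpd⟩
        rw [hd1]
        push_cast
        apply Real.one_le_rpow (by norm_num)
        positivity
    set s3 := s2.filter (fun n => n < 2 ^ kk) with hs3
    set s4 := s2.filter (fun n => ¬ n < 2 ^ kk) with hs4
    have hsum2 : ∑ n ∈ s2, α n * (n : ℝ) ^ (-(1 - a)) =
        ∑ n ∈ s3, α n * (n : ℝ) ^ (-(1 - a)) + ∑ n ∈ s4, α n * (n : ℝ) ^ (-(1 - a)) := by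
      rw [hs3, hs4, Finset.sum_filter_add_sum_filter_not]
    have hB3 : ∑ n ∈ s3, α n * (n : ℝ) ^ (-(1 - a)) ≤ ε / 4 * T := by
      have h9 : ∀ n ∈ s3, α n * (n : ℝ) ^ (-(1 - a)) ≤ 1 := by
        intro n hn
        have hn' := (Finset.mem_filter.mp (Finset.mem_filter.mp hn).1).1
        obtain ⟨hn2, hn3⟩ := hmem n hn'
        have hn1 : (1 : ℝ) ≤ n := by
          have : 1 ≤ n := by omega
          exact_mod_cast this
        have hn0 : (0 : ℝ) < n := by linarith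
        have h10 := hale n (by omega)
        calc α n * (n : ℝ) ^ (-(1 - a)) ≤ (n : ℝ) ^ (β / 4) * (n : ℝ) ^ (-(1 - a)) :=
              mul_le_mul_of_nonneg_right h10 (by positivity)
          _ = (n : ℝ) ^ (β / 4 + -(1 - a)) := by rw [← Real.rpow_add hn0]
          _ ≤ 1 := by
              apply Real.rpow_le_one_of_one_le_of_nonpos hn1
              rw [ha]
              linarith
      have h10 : ∑ n ∈ s3, α n * (n : ℝ) ^ (-(1 - a)) ≤ (2 : ℝ) ^ kk := by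
        refine (Finset.sum_le_sum h9).trans ?_
        rw [Finset.sum_const, nsmul_eq_mul, mul_one]
        have h11 : s3 ⊆ Finset.range (2 ^ kk) := by
          intro n hn
          rw [hs3, Finset.mem_filter] at hn
          rw [Finset.mem_range]
          exact hn.2
        have h12 := Finset.card_le_card h11
        rw [Finset.card_range] at h12
        exact_mod_cast h12
      refine h10.trans ?_
      have h11 := hke k₀ (by omega)
      have h12 : (2 : ℝ) ^ kk * ((k₀ : ℝ) ^ 3 * (2 : ℝ) ^ (-a * (k₀ : ℝ))) ≤ ε / 4 := by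
        calc (2 : ℝ) ^ kk * ((k₀ : ℝ) ^ 3 * (2 : ℝ) ^ (-a * (k₀ : ℝ)))
            ≤ (2 : ℝ) ^ kk * (ε / 4 / 2 ^ kk) := mul_le_mul_of_nonneg_left h11 (by positivity)
          _ = ε / 4 := by field_simp
      have h13 : (k₀ : ℝ) ^ 3 * (2 : ℝ) ^ (-a * (k₀ : ℝ)) * T = 1 := by
        rw [hT]
        have h14 : (2 : ℝ) ^ (-a * (k₀ : ℝ)) * (2 : ℝ) ^ (a * (k₀ : ℝ)) = 1 := by
          rw [← Real.rpow_add (by norm_num)]
          have : -a * (k₀ : ℝ) + a * (k₀ : ℝ) = 0 := by ring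
          rw [this, Real.rpow_zero]
        calc (k₀ : ℝ) ^ 3 * (2 : ℝ) ^ (-a * (k₀ : ℝ)) * ((2 : ℝ) ^ (a * (k₀ : ℝ)) / (k₀ : ℝ) ^ 3)
            = (2 : ℝ) ^ (-a * (k₀ : ℝ)) * (2 : ℝ) ^ (a * (k₀ : ℝ)) := by field_simp
          _ = 1 := h14
      calc (2 : ℝ) ^ kk = (2 : ℝ) ^ kk * ((k₀ : ℝ) ^ 3 * (2 : ℝ) ^ (-a * (k₀ : ℝ))) * T := by
            rw [mul_assoc, h13, mul_one]
        _ ≤ ε / 4 * T := mul_le_mul_of_nonneg_right h12 hTpos.le
    have hB4 : ∑ n ∈ s4, α n * (n : ℝ) ^ (-(1 - a)) ≤ ε / 2 * T := by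
      have hmaps : ∀ n ∈ s4, Nat.log 2 n ∈ Finset.Ico kk (k₀ + 1) := by
        intro n hn
        rw [hs4, Finset.mem_filter] at hn
        obtain ⟨hn2, hn3⟩ := hmem n (Finset.mem_filter.mp hn.1).1
        rw [Finset.mem_Ico]
        constructor
        · exact Nat.le_log_of_pow_le (by norm_num) (by omega)
        · exact Nat.log_lt_of_lt_pow (by omega) hn3
      rw [← Finset.sum_fiberwise_of_maps_to hmaps]
      have h9 : ∀ k ∈ Finset.Ico kk (k₀ + 1),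
          ∑ n ∈ s4 with Nat.log 2 n = k, α n * (n : ℝ) ^ (-(1 - a)) ≤
            ε' * ((2 : ℝ) ^ (a * (k : ℝ)) / (k : ℝ) ^ 3) := by
        intro k hk
        rw [Finset.mem_Ico] at hk
        have hk1 : 1 ≤ k := by
          have : 1 ≤ kk := le_max_right _ _
          omega
        have hkpos : (0 : ℝ) < k := by exact_mod_cast hk1
        have hkka : ka ≤ k := by
          have : ka ≤ kk := le_max_left _ _
          omega
        set u := s4.filter (fun n => Nat.log 2 n = k) with hu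
        have hubound : ∀ n ∈ u, 2 ^ k ≤ n ∧ n < 2 ^ (k + 1) := by
          intro n hn
          rw [hu, Finset.mem_filter] at hn
          obtain ⟨hn2, hn3⟩ := hmem n (Finset.mem_filter.mp (Finset.mem_filter.mp hn.1).1).1
          rw [← hn.2]
          exact ⟨Nat.pow_log_le_self 2 (by omega), Nat.lt_pow_succ_log_self (by norm_num) n⟩
        have h10 : ∑ n ∈ u, α n ≤ ε' * ((2 ^ k : ℕ) : ℝ) / (k : ℝ) ^ 3 := by
          apply hordsum k hkka (2 ^ k) (2 ^ k) le_rfl (by rw [pow_succ]; omega)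
          · push_cast
            rw [← Real.rpow_natCast]
            apply Real.rpow_le_rpow_of_exponent_le (by norm_num)
            linarith
          · intro n hn
            have := hubound n hn
            rw [Finset.mem_Ico]
            rw [pow_succ] at this
            omega
          · intro n hn
            rw [hu, Finset.mem_filter] at hn
            have h11 := hprop2 n (Finset.mem_filter.mp hn.1).1
            exact ⟨h11.1, h11.2 k⟩
        have h11 : ∀ n ∈ u, α n * (n : ℝ) ^ (-(1 - a)) ≤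
            (2 : ℝ) ^ (-(1 - a) * (k : ℝ)) * α n := by
          intro n hn
          have hn1 := (hubound n hn).1
          have h12 : (2 : ℝ) ^ (k : ℝ) ≤ n := by
            rw [Real.rpow_natCast]
            exact_mod_cast hn1
          have h13 : (n : ℝ) ^ (-(1 - a)) ≤ (2 : ℝ) ^ (-(1 - a) * (k : ℝ)) := by
            have h14 : (n : ℝ) ^ (-(1 - a)) ≤ ((2 : ℝ) ^ (k : ℝ)) ^ (-(1 - a)) := by
              apply Real.rpow_le_rpow_of_nonpos (by positivity) h12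
              linarith
            refine h14.trans (le_of_eq ?_)
            rw [← Real.rpow_mul (by norm_num)]
            congr 1
            ring
          rw [mul_comm]
          exact mul_le_mul_of_nonneg_right h13 (hα.nonneg n)
        calc ∑ n ∈ u, α n * (n : ℝ) ^ (-(1 - a)) ≤ ∑ n ∈ u, (2 : ℝ) ^ (-(1 - a) * (k : ℝ)) * α n :=
              Finset.sum_le_sum h11
          _ = (2 : ℝ) ^ (-(1 - a) * (k : ℝ)) * ∑ n ∈ u, α n := by rw [Finset.mul_sum]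
          _ ≤ (2 : ℝ) ^ (-(1 - a) * (k : ℝ)) * (ε' * ((2 ^ k : ℕ) : ℝ) / (k : ℝ) ^ 3) :=
              mul_le_mul_of_nonneg_left h10 (by positivity)
          _ = ε' * ((2 : ℝ) ^ (a * (k : ℝ)) / (k : ℝ) ^ 3) := by
              have h15 : (2 : ℝ) ^ (-(1 - a) * (k : ℝ)) * ((2 ^ k : ℕ) : ℝ) =
                  (2 : ℝ) ^ (a * (k : ℝ)) := by
                push_cast
                rw [← Real.rpow_natCast, ← Real.rpow_add (by norm_num)]
                congr 1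
                ring
              rw [← h15]
              ring
      refine (Finset.sum_le_sum h9).trans ?_
      rw [← Finset.mul_sum]
      have h10 := sum_pow_div_cube_le hapos kk k₀ (le_max_right _ _) hk01
      have h11 := hkf k₀ (by omega)
      have h12 : (k₀ : ℝ) * (2 : ℝ) ^ (a / 2 * (k₀ : ℝ)) ≤ ε / 4 * T := by
        have h13 : (2 : ℝ) ^ (a / 2 * (k₀ : ℝ)) =
            (2 : ℝ) ^ (-(a / 2) * (k₀ : ℝ)) * (2 : ℝ) ^ (a * (k₀ : ℝ)) := by
          rw [← Real.rpow_add (by norm_num)]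
          congr 1
          ring
        rw [h13]
        calc (k₀ : ℝ) * ((2 : ℝ) ^ (-(a / 2) * (k₀ : ℝ)) * (2 : ℝ) ^ (a * (k₀ : ℝ)))
            = ((k₀ : ℝ) ^ 4 * (2 : ℝ) ^ (-(a / 2) * (k₀ : ℝ))) * T := by
              rw [hT]
              field_simp
          _ ≤ ε / 4 * T := mul_le_mul_of_nonneg_right h11 hTpos.le
      have h14 : ε' * (8 / (1 - (2 : ℝ) ^ (-a)) * (2 : ℝ) ^ (a * (k₀ : ℝ)) / (k₀ : ℝ) ^ 3) ≤
          ε / 4 * T := by
        calc ε' * (8 / (1 - (2 : ℝ) ^ (-a)) * (2 : ℝ) ^ (a * (k₀ : ℝ)) / (k₀ : ℝ) ^ 3)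
            ≤ (ε * (1 - (2 : ℝ) ^ (-a)) / 32) *
              (8 / (1 - (2 : ℝ) ^ (-a)) * (2 : ℝ) ^ (a * (k₀ : ℝ)) / (k₀ : ℝ) ^ 3) :=
              mul_le_mul_of_nonneg_right hε'2 (by positivity)
          _ = ε / 4 * T := by
              rw [hT]
              have : 1 - (2 : ℝ) ^ (-a) ≠ 0 := h1r.ne'
              field_simp
              ring
      have h16 : 0 ≤ (k₀ : ℝ) * (2 : ℝ) ^ (a / 2 * (k₀ : ℝ)) := by positivity
      calc ε' * ∑ k ∈ Finset.Ico kk (k₀ + 1), (2 : ℝ) ^ (a * (k : ℝ)) / (k : ℝ) ^ 3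
          ≤ ε' * (k₀ * (2 : ℝ) ^ (a / 2 * (k₀ : ℝ)) +
            8 / (1 - (2 : ℝ) ^ (-a)) * (2 : ℝ) ^ (a * (k₀ : ℝ)) / (k₀ : ℝ) ^ 3) :=
            mul_le_mul_of_nonneg_left h10 hε'pos.le
        _ = ε' * (k₀ * (2 : ℝ) ^ (a / 2 * (k₀ : ℝ))) +
            ε' * (8 / (1 - (2 : ℝ) ^ (-a)) * (2 : ℝ) ^ (a * (k₀ : ℝ)) / (k₀ : ℝ) ^ 3) := by ring
        _ ≤ 1 * (k₀ * (2 : ℝ) ^ (a / 2 * (k₀ : ℝ))) + ε / 4 * T :=
            add_le_add (mul_le_mul_of_nonneg_right hε'1 h16) h14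
        _ ≤ ε / 4 * T + ε / 4 * T := by linarith
        _ = _ := by ring
    rw [hsum2]
    linarith
  rw [hsum]
  have : ε * (2 : ℝ) ^ (a * (k₀ : ℝ)) / (k₀ : ℝ) ^ 3 = ε / 4 * T + 3 / 4 * ε * T := by
    rw [hT]
    ring
  rw [this]
  exact add_le_add hA hB

end Pool.Agent.MP_a187e6
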