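import Mathlib

/-!
# Module L : sawtooth sums `∑_{A < k ≤ B} ({Y/k} - 1/2)`

Elementary second derivative test: local approximation by arithmetic progressions
with rational slope, Dirichlet approximation, greedy decomposition.
-/

namespace Pool.Agent.MP_a187e6

open Finset

lemma sum_range_real (q : ℕ) : ∑ r ∈ range q, (r : ℝ) = q * (q - 1) / 2 := by
  induction q with
  | zero => simp
  | succ n ih => rw [Finset.sum_range_succ, ih]; push_cast; ring

/-- sum of `{α + a h / q}` over a complete residue system -/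
lemma sum_fract_complete (q : ℕ) (hq : 0 < q) (a : ℤ) (ha : IsCoprime a (q : ℤ)) (α : ℝ) :
    ∑ h ∈ range q, Int.fract (α + a * h / q) = Int.fract (q * α) + (q - 1) / 2 := by
  have hq' : (0 : ℝ) < q := by exact_mod_cast hq
  have hqz : (0 : ℤ) < q := by exact_mod_cast hq
  set b : ℤ := ⌊(q : ℝ) * α⌋ with hb
  set θ : ℝ := Int.fract ((q : ℝ) * α) with hθ
  have hθ0 : 0 ≤ θ := Int.fract_nonneg _
  have hθ1 : θ < 1 := Int.fract_lt_one _
  have hα : (q : ℝ) * α = b + θ := by rw [hb, hθ]; exact (Int.floor_add_fract _).symm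
  have key : ∀ h ∈ range q, Int.fract (α + a * h / q)
      = ((((a * h + b) % q).toNat : ℕ) : ℝ) / q + θ / q := by
    intro h _
    have h0 : 0 ≤ (a * h + b) % (q : ℤ) := Int.emod_nonneg _ hqz.ne'
    have h1 : (a * h + b) % (q : ℤ) < q := Int.emod_lt_of_pos _ hqz
    have h2 : (((((a * h + b) % q).toNat : ℕ) : ℤ)) = (a * h + b) % q := Int.toNat_of_nonneg h0
    have h3 : (((((a * h + b) % q).toNat : ℕ) : ℝ)) = (((a * h + b) % q : ℤ) : ℝ) := by
      exact_mod_cast h2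
    rw [h3]
    have h4 : (((a * h + b) % q : ℤ) : ℝ) ≤ q - 1 := by
      have : (a * h + b) % (q : ℤ) ≤ q - 1 := by omega
      exact_mod_cast this
    have h5 : (0 : ℝ) ≤ (((a * h + b) % q : ℤ) : ℝ) := by exact_mod_cast h0
    rw [Int.fract_eq_iff]
    refine ⟨by positivity, ?_, (a * h + b) / q, ?_⟩
    · rw [← add_div, div_lt_one hq']; linarith only [hθ1, h4]
    · have h6 : (q : ℤ) * ((a * h + b) / q) + (a * h + b) % q = a * h + b :=
        Int.mul_ediv_add_emod _ _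
      have h7 : (q : ℝ) * (((a * h + b) / q : ℤ) : ℝ) + (((a * h + b) % q : ℤ) : ℝ)
          = a * h + b := by exact_mod_cast h6
      have h8 : α = (b + θ) / q := by field_simp; linarith only [hα]
      rw [h8]
      field_simp
      linarith only [h7]
  rw [Finset.sum_congr rfl key, Finset.sum_add_distrib, ← Finset.sum_div]
  have hinj : Set.InjOn (fun h : ℕ => ((a * h + b) % (q : ℤ)).toNat) (range q : Set ℕ) := by
    intro x hx y hy hxy
    simp only [coe_range, Set.mem_Iio] at hx hy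
    have h0x : 0 ≤ (a * x + b) % (q : ℤ) := Int.emod_nonneg _ hqz.ne'
    have h0y : 0 ≤ (a * y + b) % (q : ℤ) := Int.emod_nonneg _ hqz.ne'
    have hxy' : (a * x + b) % (q : ℤ) = (a * y + b) % (q : ℤ) := by
      simp only at hxy
      omega
    have h1 : (q : ℤ) ∣ (a * x + b) - (a * y + b) :=
      Int.ModEq.dvd (Int.ModEq.symm hxy')
    have h2 : (q : ℤ) ∣ a * ((x : ℤ) - y) := by
      have : (a * x + b) - (a * y + b) = a * ((x : ℤ) - y) := by ring
      rwa [this] at h1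
    have h3 : (q : ℤ) ∣ (x : ℤ) - y := (IsCoprime.symm ha).dvd_of_dvd_mul_left h2
    have h4 : |(x : ℤ) - y| < q := by
      rw [abs_lt]; constructor <;> omega
    have h5 := Int.eq_zero_of_abs_lt_dvd h3 h4
    omega
  have himg : (range q).image (fun h : ℕ => ((a * h + b) % (q : ℤ)).toNat) = range q := by
    apply Finset.eq_of_subset_of_card_le
    · intro x hx
      rw [Finset.mem_image] at hx
      obtain ⟨h, _, rfl⟩ := hx
      have h0 : 0 ≤ (a * h + b) % (q : ℤ) := Int.emod_nonneg _ hqz.ne'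
      have h1 : (a * h + b) % (q : ℤ) < q := Int.emod_lt_of_pos _ hqz
      rw [Finset.mem_range]
      omega
    · rw [Finset.card_image_of_injOn hinj]
  have hsum : ∑ h ∈ range q, ((((a * h + b) % (q : ℤ)).toNat : ℕ) : ℝ)
      = ∑ r ∈ range q, (r : ℝ) := by
    conv_rhs => rw [← himg]
    rw [Finset.sum_image hinj]
  rw [hsum, sum_range_real, Finset.sum_const, Finset.card_range, nsmul_eq_mul]
  field_simp
  ring

/-- sum over a block close to an arithmetic progression with slope `a/q` -/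
lemma block_bound (q : ℕ) (hq : 0 < q) (a : ℤ) (ha : IsCoprime a (q : ℤ)) (α ε : ℝ) (g : ℕ → ℝ)
    (hg : ∀ h < q, |g h - (α + a * h / q)| ≤ ε) :
    |∑ h ∈ range q, (Int.fract (g h) - 1 / 2)| ≤ 1 / 2 + 2 * ε * q := by
  have hlow : ∑ h ∈ range q, (Int.fract ((α + ε) + a * h / q) - 2 * ε)
      ≤ ∑ h ∈ range q, Int.fract (g h) := by
    apply Finset.sum_le_sum
    intro h hh
    rw [Finset.mem_range] at hh
    have h1 := abs_le.1 (hg h hh)
    have h2 : (⌊g h⌋ : ℝ) ≤ ⌊(α + ε) + a * h / q⌋ := by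
      have h20 : ⌊g h⌋ ≤ ⌊(α + ε) + a * h / q⌋ := Int.floor_le_floor (by linarith only [h1.2, h1])
      exact Int.cast_le.2 h20
    have h3 := Int.floor_add_fract (g h)
    have h4 := Int.floor_add_fract ((α + ε) + a * h / q : ℝ)
    linarith only [h1.1, h1, h2, h3, h4]
  have hup : ∑ h ∈ range q, Int.fract (g h)
      ≤ ∑ h ∈ range q, (Int.fract ((α - ε) + a * h / q) + 2 * ε) := by
    apply Finset.sum_le_sum
    intro h hh
    rw [Finset.mem_range] at hh
    have h1 := abs_le.1 (hg h hh)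
    have h2 : (⌊(α - ε) + a * h / q⌋ : ℝ) ≤ ⌊g h⌋ := by
      have h20 : ⌊(α - ε) + a * h / q⌋ ≤ ⌊g h⌋ := Int.floor_le_floor (by linarith only [h1.1, h1])
      exact Int.cast_le.2 h20
    have h3 := Int.floor_add_fract (g h)
    have h4 := Int.floor_add_fract ((α - ε) + a * h / q : ℝ)
    linarith only [h1.2, h1, h2, h3, h4]
  rw [Finset.sum_sub_distrib, sum_fract_complete q hq a ha, Finset.sum_const, Finset.card_range,
    nsmul_eq_mul] at hlow
  rw [Finset.sum_add_distrib, sum_fract_complete q hq a ha, Finset.sum_const, Finset.card_range,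
    nsmul_eq_mul] at hup
  have f1 := Int.fract_nonneg ((q : ℝ) * (α + ε))
  have f2 := Int.fract_lt_one ((q : ℝ) * (α - ε))
  rw [Finset.sum_sub_distrib, Finset.sum_const, Finset.card_range, nsmul_eq_mul, abs_le]
  constructor <;> linarith

/-- greedy decomposition into blocks -/
lemma greedy_bound (F w : ℕ → ℝ) (A B : ℕ) (T : ℝ) (hT : 0 ≤ T) (hw : ∀ k, 0 ≤ w k)
    (hF : ∀ k, |F k| ≤ 1 / 2)
    (hblock : ∀ k, A ≤ k → k < B → ∃ q : ℕ, 0 < q ∧ (q : ℝ) ≤ T ∧
      |∑ h ∈ range q, F (k + h)| ≤ ∑ h ∈ range q, w (k + h)) :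
    ∀ m : ℕ, ∀ A', A ≤ A' → A' ≤ B → B - A' ≤ m →
      |∑ k ∈ Ico A' B, F k| ≤ T + ∑ k ∈ Ico A' B, w k := by
  intro m
  induction m with
  | zero =>
    intro A' h1 h2 h3
    have : A' = B := by omega
    subst this
    simpa using hT
  | succ m ih =>
    intro A' h1 h2 h3
    rcases Nat.eq_or_lt_of_le h2 with h4 | h4
    · subst h4
      simpa using hT
    obtain ⟨q, hq0, hqT, hq⟩ := hblock A' h1 h4
    rcases le_or_gt (A' + q) B with h5 | h5
    · rw [← Finset.sum_Ico_consecutive F (by omega : A' ≤ A' + q) h5,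
        ← Finset.sum_Ico_consecutive w (by omega : A' ≤ A' + q) h5]
      have h6 := ih (A' + q) (by omega) h5 (by omega)
      have h7 : ∑ k ∈ Ico A' (A' + q), F k = ∑ h ∈ range q, F (A' + h) := by
        rw [Finset.sum_Ico_eq_sum_range]
        simp
      have h8 : ∑ k ∈ Ico A' (A' + q), w k = ∑ h ∈ range q, w (A' + h) := by
        rw [Finset.sum_Ico_eq_sum_range]
        simp
      rw [h7, h8]
      calc _ ≤ |∑ h ∈ range q, F (A' + h)| + |∑ k ∈ Ico (A' + q) B, F k| := abs_add_le _ _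
        _ ≤ _ := by linarith only [hq, h6]
    · have h6 : |∑ k ∈ Ico A' B, F k| ≤ ∑ k ∈ Ico A' B, (1 / 2 : ℝ) :=
        (Finset.abs_sum_le_sum_abs _ _).trans (Finset.sum_le_sum fun k _ => hF k)
      have h7 : 0 ≤ ∑ k ∈ Ico A' B, w k := Finset.sum_nonneg fun k _ => hw k
      rw [Finset.sum_const, Nat.card_Ico, nsmul_eq_mul] at h6
      have h8 : ((B - A' : ℕ) : ℝ) ≤ q := by
        exact_mod_cast (by omega : B - A' ≤ q)
      have h9 : (0 : ℝ) ≤ ((B - A' : ℕ) : ℝ) := Nat.cast_nonneg _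
      linarith only [hT, hqT, h6, h7, h8]

/-- number of `k` with `q Y / k²` close to `a` -/
lemma count_near (Y : ℝ) (hY : 0 < Y) (A B q : ℕ) (hA : 1 ≤ A) (hq : 1 ≤ q) (a δ : ℝ) 
    (hδ : 0 ≤ δ) :
    (((Ico A (B + 1)).filter (fun k : ℕ => |q * (Y / k ^ 2) - a| ≤ δ)).card : ℝ)
      ≤ 2 * δ * B ^ 3 / Y + 1 := by
  set S := (Ico A (B + 1)).filter (fun k : ℕ => |q * (Y / k ^ 2) - a| ≤ δ) with hS
  rcases S.eq_empty_or_nonempty with h0 | h0
  · rw [h0]
    simp only [card_empty, CharP.cast_eq_zero]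
    positivity
  set k1 := S.min' h0
  set k2 := S.max' h0
  have hk1 : k1 ∈ S := Finset.min'_mem _ _
  have hk2 : k2 ∈ S := Finset.max'_mem _ _
  have h12 : k1 ≤ k2 := Finset.min'_le _ _ hk2
  have hsub : S ⊆ Icc k1 k2 := by
    intro k hk
    rw [Finset.mem_Icc]
    exact ⟨Finset.min'_le _ _ hk, Finset.le_max' _ _ hk⟩
  have hcard : S.card ≤ k2 + 1 - k1 := by
    have := Finset.card_le_card hsub
    rwa [Nat.card_Icc] at this
  have hcard' : (S.card : ℝ) ≤ (k2 : ℝ) - k1 + 1 := by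
    have : (S.card : ℝ) ≤ ((k2 + 1 - k1 : ℕ) : ℝ) := by exact_mod_cast hcard
    rw [Nat.cast_sub (by omega)] at this
    push_cast at this
    linarith only [this]
  rw [hS, Finset.mem_filter, Finset.mem_Ico] at hk1 hk2
  obtain ⟨⟨a1, b1⟩, c1⟩ := hk1
  obtain ⟨⟨a2, b2⟩, c2⟩ := hk2
  rw [abs_le] at c1 c2
  have hk1' : (1 : ℝ) ≤ k1 := by exact_mod_cast (by omega : 1 ≤ k1)
  have hk2' : (1 : ℝ) ≤ k2 := by exact_mod_cast (by omega : 1 ≤ k2)
  have hkB : (k2 : ℝ) ≤ B := by exact_mod_cast (by omega : k2 ≤ B)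
  have hk12 : (k1 : ℝ) ≤ k2 := by exact_mod_cast h12
  have hq' : (1 : ℝ) ≤ q := by exact_mod_cast hq
  have hdiff : (q : ℝ) * (Y / k1 ^ 2) - q * (Y / k2 ^ 2) ≤ 2 * δ := by linarith only [c1.2, c2.1, c1, c2]
  have hident : Y / (k1 : ℝ) ^ 2 - Y / k2 ^ 2 = Y * (k2 - k1) * (k2 + k1) / (k1 ^ 2 * k2 ^ 2) := by
    field_simp
    ring
  have hk0 : (0 : ℝ) ≤ k2 - k1 := by linarith only [hk12]
  have hlow : Y * (k2 - k1) / B ^ 3 ≤ Y / (k1 : ℝ) ^ 2 - Y / k2 ^ 2 := by
    rw [hident]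
    have hB0 : (0 : ℝ) < B := by linarith only [hk2', hkB]
    rw [div_le_div_iff₀ (by positivity) (by positivity)]
    have e1 : (k1 : ℝ) ^ 2 * k2 ^ 2 ≤ (k2 + k1) * B ^ 3 := by
      have e2 : (k1 : ℝ) ^ 2 * k2 ^ 2 ≤ k2 ^ 2 * k2 ^ 2 := by
        apply mul_le_mul_of_nonneg_right _ (by positivity)
        exact pow_le_pow_left₀ (by linarith only [hk1']) hk12 2
      have e3 : (k2 : ℝ) ^ 3 ≤ B ^ 3 := pow_le_pow_left₀ (by linarith only [hk2']) hkB 3
      have e4 : (k2 : ℝ) * k2 ^ 3 ≤ (k2 + k1) * B ^ 3 := by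
        apply mul_le_mul (by linarith only [hk1']) e3 (by positivity) (by linarith only [hk1', hk2'])
      nlinarith only [e2, e4]
    have e5 : 0 ≤ Y * (k2 - k1) := mul_nonneg hY.le hk0
    calc Y * (↑k2 - ↑k1) * ((k1 : ℝ) ^ 2 * ↑k2 ^ 2)
        ≤ Y * (↑k2 - ↑k1) * ((k2 + k1) * B ^ 3) := mul_le_mul_of_nonneg_left e1 e5
      _ = _ := by ring
  have hlow2 : Y * (k2 - k1) / B ^ 3 ≤ 2 * δ := by
    have e6 : Y / (k1 : ℝ) ^ 2 - Y / k2 ^ 2 ≤ q * (Y / (k1 : ℝ) ^ 2 - Y / k2 ^ 2) := by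
      have e7 : 0 ≤ Y / (k1 : ℝ) ^ 2 - Y / k2 ^ 2 := le_trans (by positivity) hlow
      nlinarith only [hq', e7]
    linarith only [c1, c2, hlow, e6]
  have hB0 : (0 : ℝ) < B := by linarith only [hk2', hkB]
  have hfin : (k2 : ℝ) - k1 ≤ 2 * δ * B ^ 3 / Y := by
    rw [div_le_iff₀ (by positivity)] at hlow2
    rw [le_div_iff₀ hY]
    linarith only [hlow2]
  linarith only [hcard', hfin]

/-- number of `k` such that `Y/k²` has a good approximation with denominator `≤ Q` -/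
lemma count_bad (Y : ℝ) (hY : 0 < Y) (A B : ℕ) (hA : 1 ≤ A) (Q δ : ℝ) (hQ : 1 ≤ Q) (hδ : 0 ≤ δ)
    (hδ1 : δ < 1) (p : ℕ → Prop) [DecidablePred p]
    (hp : ∀ k, p k → ∃ q : ℕ, 0 < q ∧ (q : ℝ) ≤ Q ∧ ∃ a : ℤ, |q * (Y / (k : ℝ) ^ 2) - a| ≤ δ) :
    (((Ico A (B + 1)).filter p).card : ℝ)
      ≤ Q * (Q * Y / A ^ 2 + 2) * (2 * δ * B ^ 3 / Y + 1) := by
  have hA' : (1 : ℝ) ≤ A := by exact_mod_cast hA
  set M := ⌊Q * Y / A ^ 2 + 1⌋₊ with hM
  set I : Finset (ℕ × ℕ) := (Icc 1 ⌊Q⌋₊) ×ˢ (range (M + 1)) with hI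
  have hsub : (Ico A (B + 1)).filter p ⊆ I.biUnion (fun x =>
      (Ico A (B + 1)).filter (fun k : ℕ => |x.1 * (Y / (k : ℝ) ^ 2) - x.2| ≤ δ)) := by
    intro k hk
    rw [Finset.mem_filter] at hk
    obtain ⟨q, hq0, hqQ, a, ha⟩ := hp k hk.2
    have hkA : A ≤ k := (Finset.mem_Ico.1 hk.1).1
    have hkA' : (A : ℝ) ≤ k := by exact_mod_cast hkA
    have ha' := abs_le.1 ha
    have hq1 : (1 : ℝ) ≤ q := by exact_mod_cast hq0
    have hpos : 0 ≤ (q : ℝ) * (Y / (k : ℝ) ^ 2) := by positivity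
    have ha0 : (0 : ℤ) ≤ a := by
      have : (-1 : ℝ) < a := by linarith only [ha'.2, hδ1, ha', hpos]
      have : (-1 : ℤ) < a := by exact_mod_cast this
      omega
    have haM : a.toNat ≤ M := by
      rw [hM]
      apply Nat.le_floor
      have e1 : ((a.toNat : ℕ) : ℝ) = (a : ℝ) := by
        have : ((a.toNat : ℕ) : ℤ) = a := Int.toNat_of_nonneg ha0
        exact_mod_cast this
      rw [e1]
      have e2 : (q : ℝ) * (Y / (k : ℝ) ^ 2) ≤ Q * Y / A ^ 2 := by
        rw [mul_div_assoc]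
        apply mul_le_mul hqQ _ (by positivity) (by linarith only [hQ])
        apply div_le_div_of_nonneg_left hY.le (by positivity)
        exact pow_le_pow_left₀ (by linarith only [hA']) hkA' 2
      linarith only [ha'.1, hδ1, ha', e2]
    rw [Finset.mem_biUnion]
    refine ⟨(q, a.toNat), ?_, ?_⟩
    · rw [hI, Finset.mem_product, Finset.mem_Icc, Finset.mem_range]
      exact ⟨⟨hq0, Nat.le_floor hqQ⟩, by simp only; omega⟩
    · rw [Finset.mem_filter]
      refine ⟨hk.1, ?_⟩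
      have e1 : ((a.toNat : ℕ) : ℝ) = (a : ℝ) := by
        have : ((a.toNat : ℕ) : ℤ) = a := Int.toNat_of_nonneg ha0
        exact_mod_cast this
      simp only [e1]
      exact ha
  have h1 : (((Ico A (B + 1)).filter p).card : ℝ) ≤ ∑ x ∈ I,
      (((Ico A (B + 1)).filter (fun k : ℕ => |x.1 * (Y / (k : ℝ) ^ 2) - x.2| ≤ δ)).card : ℝ) := by
    have := (Finset.card_le_card hsub).trans Finset.card_biUnion_le
    exact_mod_cast this
  have h2 : ∑ x ∈ I,
      (((Ico A (B + 1)).filter (fun k : ℕ => |x.1 * (Y / (k : ℝ) ^ 2) - x.2| ≤ δ)).card : ℝ)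
      ≤ ∑ x ∈ I, (2 * δ * B ^ 3 / Y + 1) := by
    apply Finset.sum_le_sum
    intro x hx
    rw [hI, Finset.mem_product, Finset.mem_Icc] at hx
    exact count_near Y hY A B x.1 hA hx.1.1 x.2 δ hδ
  have h3 : (I.card : ℝ) ≤ Q * (Q * Y / A ^ 2 + 2) := by
    rw [hI, Finset.card_product, Nat.card_Icc, Finset.card_range]
    push_cast
    have e1 : (⌊Q⌋₊ : ℝ) ≤ Q := Nat.floor_le (by linarith only [hQ])
    have e2 : (M : ℝ) ≤ Q * Y / A ^ 2 + 1 := Nat.floor_le (by positivity)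
    have e3 : (((⌊Q⌋₊ + 1 - 1 : ℕ)) : ℝ) = (⌊Q⌋₊ : ℝ) := by simp
    try rw [e3]
    apply mul_le_mul e1 (by linarith only [e2]) (by positivity) (by linarith only [hQ])
  rw [Finset.sum_const, nsmul_eq_mul] at h2
  have h4 : (0 : ℝ) ≤ 2 * δ * B ^ 3 / Y + 1 := by positivity
  calc _ ≤ _ := h1
    _ ≤ _ := h2
    _ ≤ _ := mul_le_mul_of_nonneg_right h3 h4

/-- general bound -/
theorem sawtooth_general (Y : ℝ) (hY : 0 < Y) (A B n : ℕ) (hA : 1 ≤ A) (hAB : A ≤ B) (hn : 1 ≤ n)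
    (Q : ℝ) (hQ : 1 ≤ Q) :
    |∑ k ∈ Ioc A B, (Int.fract (Y / k) - 1 / 2)| ≤
      n + (B - A) * (2 * (1 / (n + 1) + Y * n ^ 2 / A ^ 3) + 1 / (2 * Q)) +
        1 / 2 * (Q * (Q * Y / A ^ 2 + 2) * (2 * (1 / (n + 1)) * B ^ 3 / Y + 1)) := by
  classical
  have hA' : (1 : ℝ) ≤ A := by exact_mod_cast hA
  have hn' : (1 : ℝ) ≤ n := by exact_mod_cast hn
  set δ : ℝ := 1 / (n + 1) with hδdef
  have hδ : 0 ≤ δ := by positivity
  have hδ1 : δ < 1 := by
    rw [hδdef, div_lt_one (by positivity)]; linarith only [hn']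
  set ε : ℝ := δ + Y * n ^ 2 / A ^ 3 with hε
  have hε0 : 0 ≤ ε := by positivity
  let bad : ℕ → Prop := fun k => ∃ q : ℕ, 0 < q ∧ (q : ℝ) ≤ Q ∧
    ∃ a : ℤ, |q * (Y / (k : ℝ) ^ 2) - a| ≤ δ
  let w : ℕ → ℝ := fun k => (2 * ε + 1 / (2 * Q)) + (if bad k then 1 / 2 else 0)
  have hw : ∀ k, 0 ≤ w k := by
    intro k
    have : (0 : ℝ) ≤ (if bad k then 1 / 2 else 0) := by split_ifs <;> norm_num
    have : 0 ≤ 2 * ε + 1 / (2 * Q) := by positivity
    simp only [w]
    linarith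
  have hIoc : Ioc A B = Ico (A + 1) (B + 1) := by
    ext x
    simp only [Finset.mem_Ioc, Finset.mem_Ico]
    omega
  rw [hIoc]
  have hmain := greedy_bound (fun k : ℕ => Int.fract (Y / k) - 1 / 2) w (A + 1) (B + 1) n
    (by positivity) hw (by
      intro k
      have h0 := Int.fract_nonneg (Y / (k : ℝ))
      have h1 := Int.fract_lt_one (Y / (k : ℝ))
      rw [abs_le]
      constructor <;> linarith) (by
      intro k hk1 hk2
      obtain ⟨r, hr1, hr2⟩ := Real.exists_rat_abs_sub_le_and_den_le (-(Y / (k : ℝ) ^ 2)) hn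
      have hk0 : (A : ℝ) ≤ k := by exact_mod_cast (by omega : A ≤ k)
      have hkpos : (0 : ℝ) < k := by linarith only [hA', hk0]
      have hden : (1 : ℝ) ≤ r.den := by exact_mod_cast r.pos
      refine ⟨r.den, r.pos, by exact_mod_cast hr2, ?_⟩
      have hblk := block_bound r.den r.pos r.num
        (Int.isCoprime_iff_gcd_eq_one.2 (by
          have := r.reduced
          rw [Int.gcd_eq_natAbs]
          simpa using this)) (Y / k) ε (fun h => Y / ((k + h : ℕ) : ℝ)) (by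
          intro h hh
          have hh' : (h : ℝ) ≤ r.den := by exact_mod_cast hh.le
          have hh0 : (0 : ℝ) ≤ h := Nat.cast_nonneg _
          have hhn : (h : ℝ) ≤ n := hh'.trans (by exact_mod_cast hr2)
          have hid : Y / ((k + h : ℕ) : ℝ) - (Y / k + r.num * h / r.den)
              = h * (-(Y / (k : ℝ) ^ 2) - r) + Y * h ^ 2 / (k ^ 2 * (k + h)) := by
            have hr : (r : ℝ) = r.num / r.den := by
              exact_mod_cast (Rat.num_div_den r).symm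
            rw [hr]
            have : (r.den : ℝ) ≠ 0 := by positivity
            push_cast
            field_simp
            ring
          rw [hid]
          have e1 : |(h : ℝ) * (-(Y / (k : ℝ) ^ 2) - r)| ≤ δ := by
            rw [abs_mul, abs_of_nonneg hh0]
            calc (h : ℝ) * |-(Y / (k : ℝ) ^ 2) - r| ≤ r.den * (1 / ((n + 1) * r.den)) :=
                  mul_le_mul hh' hr1 (abs_nonneg _) (by positivity)
              _ = δ := by
                  rw [hδdef]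
                  field_simp
          have e2 : |Y * (h : ℝ) ^ 2 / (k ^ 2 * (k + h))| ≤ Y * n ^ 2 / A ^ 3 := by
            rw [abs_of_nonneg (by positivity)]
            apply div_le_div₀ (by positivity) _ (by positivity) _
            · apply mul_le_mul_of_nonneg_left _ hY.le
              exact pow_le_pow_left₀ hh0 hhn 2
            · have e5 : (A : ℝ) ^ 3 = (A : ℝ) ^ 2 * (A : ℝ) := by ring
              rw [e5]
              apply mul_le_mul (pow_le_pow_left₀ (by linarith only [hA']) hk0 2) (by linarith only [hk0])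
                (by linarith only [hA']) (by positivity)
          exact (abs_add_le _ _).trans (by rw [hε]; linarith only [e1, e2]))
      refine hblk.trans ?_
      have hsplit : ∑ h ∈ range r.den, w (k + h)
          = r.den * (2 * ε + 1 / (2 * Q)) + ∑ h ∈ range r.den, (if bad (k + h) then (1 / 2 : ℝ) else 0) := by
        simp only [w]
        rw [Finset.sum_add_distrib, Finset.sum_const, Finset.card_range, nsmul_eq_mul]
      rw [hsplit]
      have hnn : ∀ h ∈ range r.den, (0 : ℝ) ≤ (if bad (k + h) then (1 / 2 : ℝ) else 0) := by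
        intro h _
        split_ifs <;> norm_num
      rcases le_or_gt ((r.den : ℕ) : ℝ) Q with hc | hc
      · have hbad : bad (k + 0) := by
          refine ⟨r.den, r.pos, hc, -r.num, ?_⟩
          have hr : (r : ℝ) = r.num / r.den := by
            exact_mod_cast (Rat.num_div_den r).symm
          have e3 : (r.den : ℝ) * (Y / (((k + 0 : ℕ)) : ℝ) ^ 2) - ((-r.num : ℤ) : ℝ)
              = -(r.den * (-(Y / (k : ℝ) ^ 2) - r)) := by
            rw [hr]
            have : (r.den : ℝ) ≠ 0 := by positivity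
            push_cast
            field_simp
            ring
          rw [e3, abs_neg, abs_mul, abs_of_nonneg (by positivity : (0 : ℝ) ≤ (r.den : ℝ))]
          calc (r.den : ℝ) * |-(Y / (k : ℝ) ^ 2) - r| ≤ r.den * (1 / ((n + 1) * r.den)) :=
                mul_le_mul_of_nonneg_left hr1 (by positivity)
            _ = δ := by
                rw [hδdef]
                field_simp
        have hone := Finset.single_le_sum hnn (Finset.mem_range.2 r.pos)
        rw [if_pos hbad] at hone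
        have : (0 : ℝ) ≤ r.den * (1 / (2 * Q)) := by positivity
        linarith only [hone, this]
      · have h1 : (1 / 2 : ℝ) ≤ r.den * (1 / (2 * Q)) := by
          rw [mul_one_div, div_le_div_iff₀ (by norm_num) (by positivity)]
          linarith only [hc]
        have h2 := Finset.sum_nonneg hnn
        linarith only [h1, h2])
    (B + 1) (A + 1) le_rfl (by omega) (by omega)
  refine hmain.trans ?_
  have hws : ∑ k ∈ Ico (A + 1) (B + 1), w k = (B - A) * (2 * ε + 1 / (2 * Q)) +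
      1 / 2 * (((Ico (A + 1) (B + 1)).filter bad).card : ℝ) := by
    simp only [w]
    rw [Finset.sum_add_distrib, Finset.sum_const, Nat.card_Ico, nsmul_eq_mul]
    have : ((B + 1 - (A + 1) : ℕ) : ℝ) = B - A := by
      rw [Nat.cast_sub (by omega)]; push_cast; ring
    rw [this, ← Finset.sum_filter, Finset.sum_const, nsmul_eq_mul]
    ring
  rw [hws]
  have hcb := count_bad Y hY (A + 1) B (by omega) Q δ hQ hδ hδ1 bad (fun k hk => hk)
  have hcb2 : Q * (Q * Y / ((A + 1 : ℕ) : ℝ) ^ 2 + 2) * (2 * δ * B ^ 3 / Y + 1)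
      ≤ Q * (Q * Y / A ^ 2 + 2) * (2 * δ * B ^ 3 / Y + 1) := by
    apply mul_le_mul_of_nonneg_right _ (by positivity)
    apply mul_le_mul_of_nonneg_left _ (by linarith only [hQ])
    have : Q * Y / ((A + 1 : ℕ) : ℝ) ^ 2 ≤ Q * Y / A ^ 2 := by
      apply div_le_div_of_nonneg_left (by positivity) (by positivity)
      push_cast
      apply pow_le_pow_left₀ (by linarith only [hA'])
      linarith only []
    linarith only [this]
  linarith only [hcb, hcb2]

theorem sawtooth_sum_bound : ∃ X₀ : ℝ, ∀ X : ℝ, X₀ ≤ X → ∀ Y : ℝ,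
    X ^ (0.999 : ℝ) ≤ Y → Y ≤ X ^ (1.001 : ℝ) →
    ∀ A B : ℕ, X ^ (0.499 : ℝ) ≤ A → A ≤ B → (B : ℝ) ≤ X ^ (0.501 : ℝ) →
      |∑ k ∈ Finset.Ioc A B, (Int.fract (Y / k) - 1 / 2)| ≤ X ^ (0.45 : ℝ) := by
  refine ⟨(17 : ℝ) ^ (112 : ℝ), ?_⟩
  intro X hX Y hY1 hY2 A B hA hAB hB
  have hX1 : (1 : ℝ) ≤ X := le_trans (Real.one_le_rpow (by norm_num) (by norm_num)) hX
  have hX0 : (0 : ℝ) < X := by linarith only [hX]
  have hbig : (17 : ℝ) ≤ X ^ (0.009 : ℝ) := by
    calc (17 : ℝ) = (17 : ℝ) ^ (1 : ℝ) := (Real.rpow_one _).symm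
      _ ≤ (17 : ℝ) ^ ((112 : ℝ) * 0.009) :=
          Real.rpow_le_rpow_of_exponent_le (by norm_num) (by norm_num)
      _ = ((17 : ℝ) ^ (112 : ℝ)) ^ (0.009 : ℝ) := by rw [Real.rpow_mul (by norm_num)]
      _ ≤ X ^ (0.009 : ℝ) := Real.rpow_le_rpow (by positivity) hX (by norm_num)
  have hYpos : 0 < Y := lt_of_lt_of_le (Real.rpow_pos_of_pos hX0 _) hY1
  have hApos : (1 : ℝ) ≤ A := le_trans (Real.one_le_rpow hX1 (by norm_num)) hA
  have hA1 : 1 ≤ A := by exact_mod_cast hApos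
  set n := ⌈X ^ (0.2 : ℝ)⌉₊ with hn
  have hX02 : (1 : ℝ) ≤ X ^ (0.2 : ℝ) := Real.one_le_rpow hX1 (by norm_num)
  have hn1 : X ^ (0.2 : ℝ) ≤ n := Nat.le_ceil _
  have hn2 : (n : ℝ) ≤ 2 * X ^ (0.2 : ℝ) := by
    have := Nat.ceil_lt_add_one (by positivity : (0 : ℝ) ≤ X ^ (0.2 : ℝ))
    rw [← hn] at this
    linarith only [hX02, this]
  have hnn : 1 ≤ n := by
    have : (1 : ℝ) ≤ n := hX02.trans hn1
    exact_mod_cast this
  have hQ : (1 : ℝ) ≤ X ^ (0.06 : ℝ) := Real.one_le_rpow hX1 (by norm_num)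
  have hgen := sawtooth_general Y hYpos A B n hA1 hAB hnn (X ^ (0.06 : ℝ)) hQ
  refine hgen.trans ?_
  have hB0 : (0 : ℝ) ≤ B := Nat.cast_nonneg _
  have hA0 : (0 : ℝ) ≤ A := Nat.cast_nonneg _
  have hnpos : (0 : ℝ) < n := by positivity
  have hmono : ∀ {a b : ℝ}, a ≤ b → X ^ a ≤ X ^ b := fun h => Real.rpow_le_rpow_of_exponent_le hX1 h
  -- the terms
  have t1 : (n : ℝ) ≤ 2 * X ^ (0.441 : ℝ) := hn2.trans (by
    have := hmono (by norm_num : (0.2 : ℝ) ≤ 0.441); linarith only [this])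
  have hA3 : X ^ (1.497 : ℝ) ≤ (A : ℝ) ^ 3 := by
    calc X ^ (1.497 : ℝ) = (X ^ (0.499 : ℝ)) ^ 3 := by
          rw [← Real.rpow_natCast, ← Real.rpow_mul hX0.le]; norm_num
      _ ≤ (A : ℝ) ^ 3 := pow_le_pow_left₀ (by positivity) hA 3
  have hA2 : X ^ (0.998 : ℝ) ≤ (A : ℝ) ^ 2 := by
    calc X ^ (0.998 : ℝ) = (X ^ (0.499 : ℝ)) ^ 2 := by
          rw [← Real.rpow_natCast, ← Real.rpow_mul hX0.le]; norm_num
      _ ≤ (A : ℝ) ^ 2 := pow_le_pow_left₀ (by positivity) hA 2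
  have hB3 : (B : ℝ) ^ 3 ≤ X ^ (1.503 : ℝ) := by
    calc (B : ℝ) ^ 3 ≤ (X ^ (0.501 : ℝ)) ^ 3 := pow_le_pow_left₀ hB0 hB 3
      _ = X ^ (1.503 : ℝ) := by
          rw [← Real.rpow_natCast, ← Real.rpow_mul hX0.le]; norm_num
  have hdelta : 1 / ((n : ℝ) + 1) ≤ X ^ (-0.2 : ℝ) := by
    rw [Real.rpow_neg hX0.le, one_div]
    apply inv_anti₀ (by positivity)
    linarith only [hn1]
  have t2a : Y * (n : ℝ) ^ 2 / A ^ 3 ≤ 4 * X ^ (-0.096 : ℝ) := by
    rw [div_le_iff₀ (by positivity)]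
    calc Y * (n : ℝ) ^ 2 ≤ X ^ (1.001 : ℝ) * (2 * X ^ (0.2 : ℝ)) ^ 2 := by
          apply mul_le_mul hY2 (pow_le_pow_left₀ (by positivity) hn2 2) (by positivity) (by positivity)
      _ = 4 * (X ^ (-0.096 : ℝ) * X ^ (1.497 : ℝ)) := by
          rw [mul_pow, ← Real.rpow_natCast (X ^ (0.2 : ℝ)), ← Real.rpow_mul hX0.le,
            ← Real.rpow_add hX0]
          have : X ^ (1.001 : ℝ) * (2 ^ 2 * X ^ ((0.2 : ℝ) * ((2 : ℕ) : ℝ)))
            = 4 * (X ^ (1.001 : ℝ) * X ^ ((0.2 : ℝ) * ((2 : ℕ) : ℝ))) := by ring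
          rw [this, ← Real.rpow_add hX0]
          norm_num
      _ ≤ 4 * (X ^ (-0.096 : ℝ) * A ^ 3) := by
          apply mul_le_mul_of_nonneg_left _ (by norm_num)
          apply mul_le_mul_of_nonneg_left hA3 (by positivity)
      _ = _ := by ring
  have hBA : (B : ℝ) - A ≤ X ^ (0.501 : ℝ) := by linarith only [hB, hApos]
  have hBA0 : (0 : ℝ) ≤ (B : ℝ) - A := by
    have : (A : ℝ) ≤ B := by exact_mod_cast hAB
    linarith only [this]
  have t2 : ((B : ℝ) - A) * (2 * (1 / ((n : ℝ) + 1) + Y * n ^ 2 / A ^ 3) + 1 / (2 * X ^ (0.06 : ℝ)))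
      ≤ (10 + 1 / 2) * X ^ (0.441 : ℝ) := by
    have e1 : 1 / (2 * X ^ (0.06 : ℝ)) = 1 / 2 * X ^ (-0.06 : ℝ) := by
      rw [Real.rpow_neg hX0.le]; field_simp
    have e2 : 2 * (1 / ((n : ℝ) + 1) + Y * n ^ 2 / A ^ 3) + 1 / (2 * X ^ (0.06 : ℝ))
        ≤ (10 + 1 / 2) * X ^ (-0.06 : ℝ) := by
      rw [e1]
      have := hmono (by norm_num : (-0.2 : ℝ) ≤ -0.06)
      have := hmono (by norm_num : (-0.096 : ℝ) ≤ -0.06)
      linarith
    calc _ ≤ X ^ (0.501 : ℝ) * ((10 + 1 / 2) * X ^ (-0.06 : ℝ)) :=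
          mul_le_mul hBA e2 (by positivity) (by positivity)
      _ = (10 + 1 / 2) * (X ^ (0.501 : ℝ) * X ^ (-0.06 : ℝ)) := by ring
      _ = _ := by rw [← Real.rpow_add hX0]; norm_num
  have t3 : 1 / 2 * (X ^ (0.06 : ℝ) * (X ^ (0.06 : ℝ) * Y / A ^ 2 + 2) *
      (2 * (1 / ((n : ℝ) + 1)) * B ^ 3 / Y + 1)) ≤ (4 + 1 / 2) * X ^ (0.441 : ℝ) := by
    have e1 : X ^ (0.06 : ℝ) * Y / A ^ 2 ≤ X ^ (0.063 : ℝ) := by
      rw [div_le_iff₀ (by positivity)]
      calc X ^ (0.06 : ℝ) * Y ≤ X ^ (0.06 : ℝ) * X ^ (1.001 : ℝ) :=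
            mul_le_mul_of_nonneg_left hY2 (by positivity)
        _ = X ^ (0.063 : ℝ) * X ^ (0.998 : ℝ) := by
            rw [← Real.rpow_add hX0, ← Real.rpow_add hX0]; norm_num
        _ ≤ _ := mul_le_mul_of_nonneg_left hA2 (by positivity)
    have e1' : X ^ (0.06 : ℝ) * Y / A ^ 2 + 2 ≤ 3 * X ^ (0.063 : ℝ) := by
      have : (1 : ℝ) ≤ X ^ (0.063 : ℝ) := Real.one_le_rpow hX1 (by norm_num)
      linarith only [e1, this]
    have e2 : 2 * (1 / ((n : ℝ) + 1)) * B ^ 3 / Y ≤ 2 * X ^ (0.304 : ℝ) := by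
      rw [div_le_iff₀ hYpos]
      calc 2 * (1 / ((n : ℝ) + 1)) * B ^ 3 ≤ 2 * X ^ (-0.2 : ℝ) * X ^ (1.503 : ℝ) := by
            apply mul_le_mul _ hB3 (by positivity) (by positivity)
            apply mul_le_mul_of_nonneg_left hdelta (by norm_num)
        _ = 2 * X ^ (0.304 : ℝ) * X ^ (0.999 : ℝ) := by
            rw [mul_assoc, mul_assoc, ← Real.rpow_add hX0, ← Real.rpow_add hX0]; norm_num
        _ ≤ _ := mul_le_mul_of_nonneg_left hY1 (by positivity)
    have e2' : 2 * (1 / ((n : ℝ) + 1)) * B ^ 3 / Y + 1 ≤ 3 * X ^ (0.304 : ℝ) := by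
      have : (1 : ℝ) ≤ X ^ (0.304 : ℝ) := Real.one_le_rpow hX1 (by norm_num)
      linarith only [e2, this]
    calc _ ≤ 1 / 2 * (X ^ (0.06 : ℝ) * (3 * X ^ (0.063 : ℝ)) * (3 * X ^ (0.304 : ℝ))) := by
          apply mul_le_mul_of_nonneg_left _ (by norm_num)
          apply mul_le_mul _ e2' (by positivity) (by positivity)
          exact mul_le_mul_of_nonneg_left e1' (by positivity)
      _ = (4 + 1 / 2) * (X ^ (0.06 : ℝ) * X ^ (0.063 : ℝ) * X ^ (0.304 : ℝ)) := by ring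
      _ = (4 + 1 / 2) * X ^ (0.427 : ℝ) := by
          rw [← Real.rpow_add hX0, ← Real.rpow_add hX0]; norm_num
      _ ≤ _ := by
          apply mul_le_mul_of_nonneg_left (hmono (by norm_num)) (by norm_num)
  have hfinal : 17 * X ^ (0.441 : ℝ) ≤ X ^ (0.45 : ℝ) := by
    calc 17 * X ^ (0.441 : ℝ) ≤ X ^ (0.009 : ℝ) * X ^ (0.441 : ℝ) :=
          mul_le_mul_of_nonneg_right hbig (by positivity)
      _ = X ^ (0.45 : ℝ) := by rw [← Real.rpow_add hX0]; norm_num
  linarith only [t1, t2, t3, hfinal]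

end Pool.Agent.MP_a187e6
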