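import Mathlib
import Pool.Agent.MP_a187e6.SelbergSums
import Pool.Agent.MP_a187e6.Sawtooth

/-!
Module LP: double Selberg weight over the products `k m` in a short interval, `k` near `√X`.
-/

namespace Pool.Agent.MP_a187e6

open Finset Real

lemma card_multiples_eq {x : ℕ} (hx : 1 ≤ x) (l D : ℕ) :
    (((Ico x (x + l)).filter (fun n => D ∣ n)).card : ℝ) =
      (((x + l - 1) / D : ℕ) : ℝ) - (((x - 1) / D : ℕ) : ℝ) := by
  have h1 : (Ioc 0 (x + l - 1)).filter (fun n => D ∣ n) =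
      (Ioc 0 (x - 1)).filter (fun n => D ∣ n) ∪ (Ico x (x + l)).filter (fun n => D ∣ n) := by
    rw [← Finset.filter_union]
    congr 1
    ext n
    simp only [mem_Ioc, mem_union, mem_Ico]
    omega
  have h2 : Disjoint ((Ioc 0 (x - 1)).filter (fun n => D ∣ n))
      ((Ico x (x + l)).filter (fun n => D ∣ n)) := by
    apply Finset.disjoint_filter_filter
    rw [Finset.disjoint_left]
    intro n hn hn'
    rw [mem_Ioc] at hn
    rw [mem_Ico] at hn'
    omega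
  have h3 := congrArg Finset.card h1
  rw [Finset.card_union_of_disjoint h2, Nat.Ioc_filter_dvd_card_eq_div,
    Nat.Ioc_filter_dvd_card_eq_div] at h3
  rw [h3]
  push_cast
  ring

lemma sum_Ioc_inv_le {a b : ℕ} (ha : 1 ≤ a) (hab : a ≤ b) :
    ∑ k ∈ Ioc a b, (1 : ℝ) / k ≤ Real.log b - Real.log a := by
  induction b, hab using Nat.le_induction with
  | base => simp
  | succ b hab ih =>
    rw [← Finset.insert_Ioc_right_eq_Ioc_add_one (by omega : a ≤ b)]
    rw [Finset.sum_insert (by simp)]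
    have hb : (0 : ℝ) < b := by exact_mod_cast (by omega : 0 < b)
    have hb1 : (0 : ℝ) < (b : ℝ) + 1 := by positivity
    have h1 : (1 : ℝ) / ((b + 1 : ℕ) : ℝ) ≤ Real.log ((b + 1 : ℕ) : ℝ) - Real.log b := by
      have h2 := Real.log_le_sub_one_of_pos (x := (b : ℝ) / (b + 1)) (by positivity)
      rw [Real.log_div hb.ne' hb1.ne'] at h2
      have h3 : (b : ℝ) / (b + 1) - 1 = - (1 / (b + 1)) := by
        field_simp
        ring
      rw [h3] at h2
      push_cast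
      linarith only [h2]
    linarith only [ih, h1]

lemma le_sum_Ioc_inv {a b : ℕ} (hab : a ≤ b) :
    Real.log ((b : ℝ) + 1) - Real.log ((a : ℝ) + 1) ≤ ∑ k ∈ Ioc a b, (1 : ℝ) / k := by
  induction b, hab using Nat.le_induction with
  | base => simp
  | succ b hab ih =>
    rw [← Finset.insert_Ioc_right_eq_Ioc_add_one (by omega : a ≤ b)]
    rw [Finset.sum_insert (by simp)]
    have hb1 : (0 : ℝ) < (b : ℝ) + 1 := by positivity
    have hb2 : (0 : ℝ) < (b : ℝ) + 1 + 1 := by positivity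
    have h1 : Real.log (((b + 1 : ℕ) : ℝ) + 1) - Real.log ((b : ℝ) + 1) ≤
        (1 : ℝ) / ((b + 1 : ℕ) : ℝ) := by
      have h2 := Real.log_le_sub_one_of_pos (x := ((b : ℝ) + 1 + 1) / (b + 1)) (by positivity)
      rw [Real.log_div hb2.ne' hb1.ne'] at h2
      have h3 : ((b : ℝ) + 1 + 1) / (b + 1) - 1 = (1 / (b + 1)) := by
        field_simp
        ring
      rw [h3] at h2
      push_cast
      linarith only [h2]
    linarith only [ih, h1]

/-- harmonic sum over `(⌊A/e⌋, ⌊B/e⌋]` -/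
lemma abs_sum_inv_sub_log_le {A B e : ℕ} (he : 1 ≤ e) (hA : 2 * e ≤ A) (hAB : A ≤ B) :
    |∑ k ∈ Ioc (A / e) (B / e), (1 : ℝ) / k - Real.log ((B : ℝ) / A)| ≤ 2 * e / A := by
  have he0 : (0 : ℝ) < e := by exact_mod_cast he
  have hA0 : (0 : ℝ) < A := by exact_mod_cast (by omega : 0 < A)
  have hB0 : (0 : ℝ) < B := by exact_mod_cast (by omega : 0 < B)
  have hA2 : 2 * (e : ℝ) ≤ A := by exact_mod_cast hA
  have ha1 : 1 ≤ A / e := by
    rw [Nat.le_div_iff_mul_le he]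
    omega
  have hab : A / e ≤ B / e := Nat.div_le_div_right hAB
  have hfa : (A : ℝ) / e - 1 < ((A / e : ℕ) : ℝ) := by
    have := Nat.lt_div_mul_add (a := A) he
    have h2 : (A : ℝ) < ((A / e : ℕ) : ℝ) * e + e := by exact_mod_cast this
    rw [sub_lt_iff_lt_add, div_lt_iff₀ he0]
    linarith only [h2]
  have hfa' : ((A / e : ℕ) : ℝ) ≤ (A : ℝ) / e := Nat.cast_div_le
  have hfb' : ((B / e : ℕ) : ℝ) ≤ (B : ℝ) / e := Nat.cast_div_le
  have hfb : (B : ℝ) / e - 1 < ((B / e : ℕ) : ℝ) := by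
    have := Nat.lt_div_mul_add (a := B) he
    have h2 : (B : ℝ) < ((B / e : ℕ) : ℝ) * e + e := by exact_mod_cast this
    rw [sub_lt_iff_lt_add, div_lt_iff₀ he0]
    linarith only [h2]
  have hup := sum_Ioc_inv_le ha1 hab
  have hlo := le_sum_Ioc_inv hab
  have ha0 : (0 : ℝ) < ((A / e : ℕ) : ℝ) := by exact_mod_cast ha1
  have hb0 : (0 : ℝ) < ((B / e : ℕ) : ℝ) := by exact_mod_cast (by omega : 0 < B / e)
  set t : ℝ := (e : ℝ) / A with ht
  have ht0 : 0 < t := by positivity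
  have ht2 : t ≤ 1 / 2 := by
    rw [ht, div_le_div_iff₀ hA0 (by norm_num)]
    linarith only [hA2]
  have hAe : (A : ℝ) / e = 1 / t := by rw [ht]; field_simp
  have e1 : Real.log ((B : ℝ) / A) = Real.log ((B : ℝ) / e) - Real.log ((A : ℝ) / e) := by
    rw [Real.log_div hB0.ne' hA0.ne', Real.log_div hB0.ne' he0.ne', Real.log_div hA0.ne' he0.ne']
    ring
  -- upper bound
  have u1 : Real.log ((B / e : ℕ) : ℝ) ≤ Real.log ((B : ℝ) / e) := Real.log_le_log hb0 hfb'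
  have u2 : Real.log ((A : ℝ) / e) - 2 * t ≤ Real.log ((A / e : ℕ) : ℝ) := by
    have h1 : (0 : ℝ) < (A : ℝ) / e - 1 := by
      rw [hAe, sub_pos, lt_div_iff₀ ht0]
      linarith only [ht0, ht2]
    have h2 := Real.log_le_log h1 hfa.le
    have h3 : (A : ℝ) / e - 1 = (A : ℝ) / e * (1 - t) := by
      rw [hAe]
      field_simp
    have h1t : 0 < 1 - t := by linarith only [ht0, ht2]
    rw [h3, Real.log_mul (by positivity) h1t.ne'] at h2
    have h4 := Real.one_sub_inv_le_log_of_pos h1t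
    have h5 : -(2 * t) ≤ 1 - (1 - t)⁻¹ := by
      have : (1 - t)⁻¹ ≤ 1 + 2 * t := by
        rw [inv_le_iff_one_le_mul₀ h1t]
        nlinarith only [ht0, ht2]
      linarith only [this]
    linarith only [h2, h4, h5]
  -- lower bound
  have l1 : Real.log ((B : ℝ) / e) ≤ Real.log (((B / e : ℕ) : ℝ) + 1) := by
    apply Real.log_le_log (by positivity)
    linarith only [hfb]
  have l2 : Real.log (((A / e : ℕ) : ℝ) + 1) ≤ Real.log ((A : ℝ) / e) + t := by
    have h1 : Real.log (((A / e : ℕ) : ℝ) + 1) ≤ Real.log ((A : ℝ) / e + 1) := by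
      apply Real.log_le_log (by positivity)
      linarith only [hfa']
    have h3 : (A : ℝ) / e + 1 = (A : ℝ) / e * (1 + t) := by
      rw [hAe]
      field_simp
    rw [h3, Real.log_mul (by positivity) (by positivity)] at h1
    have h4 := Real.log_le_sub_one_of_pos (x := 1 + t) (by positivity)
    linarith only [h1, h4]
  have ht' : 2 * (e : ℝ) / A = 2 * t := by rw [ht]; ring
  rw [ht', e1, abs_le]
  constructor <;> linarith

lemma cast_div_eq (m n : ℕ) : ((m / n : ℕ) : ℝ) = (m : ℝ) / n - Int.fract ((m : ℝ) / n) := by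
  have h : ⌊(m : ℝ) / n⌋ = ((m / n : ℕ) : ℤ) := by
    have h1 := Nat.floor_div_eq_div (K := ℝ) m n
    rw [← h1]
    exact (Int.natCast_floor_eq_floor (by positivity)).symm
  have h2 := Int.self_sub_floor ((m : ℝ) / n)
  rw [h, Int.cast_natCast] at h2
  linarith only [h2]

/-- number of triples, for fixed divisors `e`, `d` -/
lemma abs_N_sub_le {X : ℝ} {X₁ : ℝ}
    (hsaw : ∀ X : ℝ, X₁ ≤ X → ∀ Y : ℝ,
      X ^ (0.999 : ℝ) ≤ Y → Y ≤ X ^ (1.001 : ℝ) →
      ∀ A B : ℕ, X ^ (0.499 : ℝ) ≤ A → A ≤ B → (B : ℝ) ≤ X ^ (0.501 : ℝ) →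
        |∑ k ∈ Finset.Ioc A B, (Int.fract (Y / k) - 1 / 2)| ≤ X ^ (0.45 : ℝ))
    (hX₁ : X₁ ≤ X) (hX1 : 1 ≤ X) (hT : (3 : ℝ) ≤ X ^ (0.0001 : ℝ))
    {x l : ℕ} (hx : X ≤ x) (hx2 : (x : ℝ) ≤ 2 * X) (hl : (l : ℝ) ≤ X ^ (1 / 2 : ℝ))
    {e d : ℕ} (he : 1 ≤ e) (hd : 1 ≤ d) (he' : (e : ℝ) ≤ X ^ (0.0002 : ℝ))
    (hd' : (d : ℝ) ≤ X ^ (0.0002 : ℝ))
    {A B : ℕ} (hA : X ^ (0.4995 : ℝ) ≤ A) (hAB : A ≤ B) (hB : (B : ℝ) ≤ X ^ (0.5005 : ℝ)) :
    |∑ k ∈ Ioc (A / e) (B / e), (((Ico x (x + l)).filter (fun n => e * d * k ∣ n)).card : ℝ) -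
      l / (e * d) * Real.log ((B : ℝ) / A)| ≤ 3 * X ^ (0.45 : ℝ) := by
  have hX0 : 0 < X := by linarith only [hX1]
  have he0 : (0 : ℝ) < e := by exact_mod_cast he
  have hd0 : (0 : ℝ) < d := by exact_mod_cast hd
  have he1 : (1 : ℝ) ≤ e := by exact_mod_cast he
  have hd1 : (1 : ℝ) ≤ d := by exact_mod_cast hd
  have hx1 : 1 ≤ x := by
    have : (1 : ℝ) ≤ x := by linarith only [hX1, hx]
    exact_mod_cast this
  -- powers
  have hmono : ∀ {a b : ℝ}, a ≤ b → X ^ a ≤ X ^ b := fun h => Real.rpow_le_rpow_of_exponent_le hX1 h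
  have hTn : ∀ {a : ℝ}, 0.0001 ≤ a → (3 : ℝ) ≤ X ^ a := fun h => le_trans hT (hmono h)
  have hpos : ∀ a : ℝ, 0 < X ^ a := fun a => Real.rpow_pos_of_pos hX0 a
  have hmul : ∀ a b : ℝ, X ^ a * X ^ b = X ^ (a + b) := fun a b => (Real.rpow_add hX0 a b).symm
  have hX1' : X = X ^ (1 : ℝ) := (Real.rpow_one X).symm
  have hX3 : 3 ≤ X := by
    have := hTn (a := 1) (by norm_num)
    rwa [Real.rpow_one] at this
  have hed : (e : ℝ) * d ≤ X ^ (0.0004 : ℝ) := by
    calc (e : ℝ) * d ≤ X ^ (0.0002 : ℝ) * X ^ (0.0002 : ℝ) :=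
          mul_le_mul he' hd' hd0.le (hpos _).le
      _ = X ^ (0.0004 : ℝ) := by rw [hmul]; norm_num
  have hA0 : (0 : ℝ) < A := lt_of_lt_of_le (hpos _) hA
  -- the two values of `Y`
  have hYlow : ∀ z : ℕ, x - 1 ≤ z → X ^ (0.999 : ℝ) ≤ (z : ℝ) / (e * d) := by
    intro z hz
    have hz' : (x : ℝ) - 1 ≤ z := by
      have : x ≤ z + 1 := by omega
      have h2 : (x : ℝ) ≤ (z : ℝ) + 1 := by exact_mod_cast this
      linarith only [h2]
    rw [le_div_iff₀ (by positivity)]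
    have h1 : X ^ (0.999 : ℝ) * (e * d) ≤ X ^ (0.9994 : ℝ) := by
      calc X ^ (0.999 : ℝ) * (e * d) ≤ X ^ (0.999 : ℝ) * X ^ (0.0004 : ℝ) :=
            mul_le_mul_of_nonneg_left hed (hpos _).le
        _ = X ^ (0.9994 : ℝ) := by rw [hmul]; norm_num
    have h2 : 3 * X ^ (0.9994 : ℝ) ≤ X := by
      calc 3 * X ^ (0.9994 : ℝ) ≤ X ^ (0.0006 : ℝ) * X ^ (0.9994 : ℝ) :=
            mul_le_mul_of_nonneg_right (hTn (by norm_num)) (hpos _).le
        _ = X := by rw [hmul]; norm_num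
    have h3 := hpos (0.9994 : ℝ)
    linarith only [hx, hX3, hz', h1, h2]
  have hYup : ∀ z : ℕ, z ≤ x + l → (z : ℝ) / (e * d) ≤ X ^ (1.001 : ℝ) := by
    intro z hz
    have hz' : (z : ℝ) ≤ (x : ℝ) + l := by exact_mod_cast hz
    have h1 : (z : ℝ) / (e * d) ≤ z := by
      apply div_le_self (by positivity)
      nlinarith only [he1, hd1]
    have h2 : X ^ (1 / 2 : ℝ) ≤ X := by
      conv_rhs => rw [hX1']
      exact hmono (by norm_num)
    have h3 : 3 * X ≤ X ^ (1.001 : ℝ) := by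
      calc 3 * X ≤ X ^ (0.001 : ℝ) * X ^ (1 : ℝ) := by
            rw [Real.rpow_one]
            exact mul_le_mul_of_nonneg_right (hTn (by norm_num)) hX0.le
        _ = X ^ (1.001 : ℝ) := by rw [hmul]; norm_num
    linarith only [hx2, hl, hz', h1, h2, h3]
  -- the range of `k`
  have hdivlow : X ^ (0.499 : ℝ) ≤ ((A / e : ℕ) : ℝ) := by
    have h0 : (A : ℝ) / e - 1 < ((A / e : ℕ) : ℝ) := by
      have := Nat.lt_div_mul_add (a := A) he
      have h2 : (A : ℝ) < ((A / e : ℕ) : ℝ) * e + e := by exact_mod_cast this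
      rw [sub_lt_iff_lt_add, div_lt_iff₀ he0]
      linarith only [h2]
    have h1 : X ^ (0.4993 : ℝ) ≤ (A : ℝ) / e := by
      rw [le_div_iff₀ he0]
      calc X ^ (0.4993 : ℝ) * e ≤ X ^ (0.4993 : ℝ) * X ^ (0.0002 : ℝ) :=
            mul_le_mul_of_nonneg_left he' (hpos _).le
        _ = X ^ (0.4995 : ℝ) := by rw [hmul]; norm_num
        _ ≤ A := hA
    have h2 : 3 * X ^ (0.499 : ℝ) ≤ X ^ (0.4993 : ℝ) := by
      calc 3 * X ^ (0.499 : ℝ) ≤ X ^ (0.0003 : ℝ) * X ^ (0.499 : ℝ) :=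
            mul_le_mul_of_nonneg_right (hTn (by norm_num)) (hpos _).le
        _ = X ^ (0.4993 : ℝ) := by rw [hmul]; norm_num
    have h3 : (3 : ℝ) ≤ X ^ (0.499 : ℝ) := hTn (by norm_num)
    linarith only [h0, h1, h2, h3]
  have hdivup : ((B / e : ℕ) : ℝ) ≤ X ^ (0.501 : ℝ) := by
    calc ((B / e : ℕ) : ℝ) ≤ B := by exact_mod_cast Nat.div_le_self B e
      _ ≤ X ^ (0.5005 : ℝ) := hB
      _ ≤ X ^ (0.501 : ℝ) := hmono (by norm_num)
  have hab : A / e ≤ B / e := Nat.div_le_div_right hAB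
  have hAe : 2 * e ≤ A := by
    have h1 : (2 : ℝ) * e ≤ A := by
      calc (2 : ℝ) * e ≤ 3 * X ^ (0.0002 : ℝ) := by nlinarith only [hpos (0.0002 : ℝ), he', he0]
        _ ≤ X ^ (0.4993 : ℝ) * X ^ (0.0002 : ℝ) :=
            mul_le_mul_of_nonneg_right (hTn (by norm_num)) (hpos _).le
        _ = X ^ (0.4995 : ℝ) := by rw [hmul]; norm_num
        _ ≤ A := hA
    exact_mod_cast h1
  have s1 := hsaw X hX₁ (((x + l - 1 : ℕ) : ℝ) / (e * d)) (hYlow _ (by omega))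
    (hYup _ (by omega)) (A / e) (B / e) hdivlow hab hdivup
  have s2 := hsaw X hX₁ (((x - 1 : ℕ) : ℝ) / (e * d)) (hYlow _ (by omega))
    (hYup _ (by omega)) (A / e) (B / e) hdivlow hab hdivup
  have hlog := abs_sum_inv_sub_log_le he hAe hAB
  have hterm : ∀ k ∈ Ioc (A / e) (B / e),
      (((Ico x (x + l)).filter (fun n => e * d * k ∣ n)).card : ℝ) =
      l / (e * d) * (1 / k) - (Int.fract (((x + l - 1 : ℕ) : ℝ) / (e * d) / k) - 1 / 2) +
        (Int.fract (((x - 1 : ℕ) : ℝ) / (e * d) / k) - 1 / 2) := by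
    intro k hk
    rw [mem_Ioc] at hk
    have hk0 : (0 : ℝ) < k := by exact_mod_cast (lt_of_le_of_lt (Nat.zero_le _) hk.1 : 0 < k)
    rw [card_multiples_eq hx1, cast_div_eq, cast_div_eq]
    have e1 : ∀ z : ℝ, z / ((e * d * k : ℕ) : ℝ) = z / (e * d) / k := by
      intro z
      push_cast
      rw [div_div]
    rw [e1, e1]
    have e2 : (((x + l - 1 : ℕ) : ℝ)) = ((x - 1 : ℕ) : ℝ) + l := by
      have : x + l - 1 = (x - 1) + l := by omega
      rw [this]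
      push_cast
      ring
    have e3 : (((x + l - 1 : ℕ) : ℝ)) / (e * d) / k =
        ((x - 1 : ℕ) : ℝ) / (e * d) / k + l / (e * d) * (1 / k) := by
      rw [e2]
      ring
    linarith only [e3, e3]
  rw [Finset.sum_congr rfl hterm, Finset.sum_add_distrib, Finset.sum_sub_distrib,
    ← Finset.mul_sum]
  have hl2 : (l : ℝ) / (e * d) * (2 * e / A) ≤ X ^ (0.45 : ℝ) := by
    have h1 : (l : ℝ) / (e * d) * (2 * e / A) = 2 * l / (d * A) := by
      field_simp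
    rw [h1, div_le_iff₀ (by positivity)]
    calc 2 * (l : ℝ) ≤ 2 * X ^ (1 / 2 : ℝ) := by linarith only [hl]
      _ ≤ X ^ (0.1 : ℝ) * X ^ (1 / 2 : ℝ) := by
          apply mul_le_mul_of_nonneg_right _ (hpos _).le
          have := hTn (a := 0.1) (by norm_num)
          linarith only [this]
      _ = X ^ (0.6 : ℝ) := by rw [hmul]; norm_num
      _ ≤ X ^ (0.45 : ℝ) * X ^ (0.4995 : ℝ) := by
          rw [hmul]
          exact hmono (by norm_num)
      _ ≤ X ^ (0.45 : ℝ) * (d * A) := by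
          apply mul_le_mul_of_nonneg_left _ (hpos _).le
          calc X ^ (0.4995 : ℝ) ≤ A := hA
            _ = 1 * A := (one_mul _).symm
            _ ≤ d * A := mul_le_mul_of_nonneg_right hd1 hA0.le
  have hmain : |(l : ℝ) / (e * d) * ∑ k ∈ Ioc (A / e) (B / e), (1 : ℝ) / k -
      l / (e * d) * Real.log ((B : ℝ) / A)| ≤ X ^ (0.45 : ℝ) := by
    rw [← mul_sub, abs_mul, abs_of_nonneg (by positivity)]
    refine le_trans ?_ hl2
    exact mul_le_mul_of_nonneg_left hlog (by positivity)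
  rw [abs_le] at s1 s2 hmain ⊢
  constructor <;> linarith only [s1.1, s1.2, s2.1, s2.2, hmain.1, hmain.2, s1, s2, hmain]

/-- pairs of divisors and their Selberg coefficients -/
noncomputable def selPair (R : ℕ) (p : ℕ × ℕ) : ℝ := selLam R p.1 * selLam R p.2

lemma selW_eq_pair (R : ℕ) {n : ℕ} (hn : n ≠ 0) :
    selW R n = ∑ p ∈ Icc 1 R ×ˢ Icc 1 R,
      selPair R p * (if Nat.lcm p.1 p.2 ∣ n then 1 else 0) := by
  rw [selW_eq R hn, Finset.sum_product]
  rfl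

lemma quadForm_pair {R : ℕ} (hR : 1 ≤ R) :
    ∑ p ∈ Icc 1 R ×ˢ Icc 1 R, selPair R p / (Nat.lcm p.1 p.2 : ℝ) = 1 / selG R := by
  rw [← selLam_quadForm hR, Finset.sum_product]
  rfl

lemma sum_abs_selPair_le {R : ℕ} (hR : 1 ≤ R) :
    ∑ p ∈ Icc 1 R ×ˢ Icc 1 R, |selPair R p| ≤ (R : ℝ) ^ 2 := by
  rw [Finset.sum_product]
  exact sum_abs_selLam_mul_le hR

lemma card_inner {x l k D : ℕ} (_hx : 1 ≤ x) (hk : 0 < k) :
    (((Finset.range (x + l)).filter (fun m => x ≤ k * m ∧ k * m < x + l)).filter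
      (fun m => D ∣ m)).card = ((Ico x (x + l)).filter (fun n => k * D ∣ n)).card := by
  apply Finset.card_bij (fun m _ => k * m)
  · intro m hm
    simp only [mem_filter, mem_range] at hm
    rw [mem_filter, mem_Ico]
    exact ⟨⟨hm.1.2.1, hm.1.2.2⟩, Nat.mul_dvd_mul_left k hm.2⟩
  · intro a _ b _ h
    exact Nat.eq_of_mul_eq_mul_left hk h
  · intro n hn
    rw [mem_filter, mem_Ico] at hn
    obtain ⟨c, hc⟩ := hn.2
    have hc' : n = k * (D * c) := by rw [hc]; ring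
    refine ⟨D * c, ?_, hc'.symm⟩
    simp only [mem_filter, mem_range]
    refine ⟨⟨?_, ?_, ?_⟩, Dvd.intro c rfl⟩
    · have : D * c ≤ k * (D * c) := Nat.le_mul_of_pos_left _ hk
      omega
    · omega
    · omega

lemma sum_inner_selW {R : ℕ} {x l k : ℕ} (hx : 1 ≤ x) (hk : 0 < k) :
    ∑ m ∈ (Finset.range (x + l)).filter (fun m => x ≤ k * m ∧ k * m < x + l), selW R m =
      ∑ p ∈ Icc 1 R ×ˢ Icc 1 R, selPair R p *
        (((Ico x (x + l)).filter (fun n => k * Nat.lcm p.1 p.2 ∣ n)).card : ℝ) := by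
  have h1 : ∀ m ∈ (Finset.range (x + l)).filter (fun m => x ≤ k * m ∧ k * m < x + l),
      selW R m = ∑ p ∈ Icc 1 R ×ˢ Icc 1 R,
        selPair R p * (if Nat.lcm p.1 p.2 ∣ m then 1 else 0) := by
    intro m hm
    rw [mem_filter] at hm
    apply selW_eq_pair
    rintro rfl
    omega
  rw [Finset.sum_congr rfl h1, Finset.sum_comm]
  apply Finset.sum_congr rfl
  intro p _
  rw [← Finset.mul_sum, Finset.sum_boole, card_inner hx hk]

lemma sum_dvd_reindex {A B e : ℕ} (he : 0 < e) (f : ℕ → ℝ) :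
    ∑ k ∈ Ioc A B, (if e ∣ k then f k else 0) = ∑ k ∈ Ioc (A / e) (B / e), f (e * k) := by
  rw [← Finset.sum_filter]
  symm
  apply Finset.sum_bij (fun k _ => e * k)
  · intro k hk
    rw [mem_Ioc] at hk
    rw [mem_filter, mem_Ioc]
    refine ⟨⟨?_, ?_⟩, Dvd.intro k rfl⟩
    · rw [mul_comm]
      exact (Nat.div_lt_iff_lt_mul he).mp hk.1
    · rw [mul_comm]
      exact (Nat.le_div_iff_mul_le he).mp hk.2
  · intro a _ b _ h
    exact Nat.eq_of_mul_eq_mul_left he h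
  · intro n hn
    rw [mem_filter, mem_Ioc] at hn
    obtain ⟨c, hc⟩ := hn.2
    refine ⟨c, ?_, hc.symm⟩
    rw [mem_Ioc]
    refine ⟨?_, ?_⟩
    · rw [Nat.div_lt_iff_lt_mul he, mul_comm, ← hc]
      exact hn.1.1
    · rw [Nat.le_div_iff_mul_le he, mul_comm, ← hc]
      exact hn.1.2
  · intro k _
    rfl

theorem double_selW_bound : ∃ X₀ : ℝ, ∀ X : ℝ, X₀ ≤ X → ∀ x l : ℕ, X ≤ x → (x : ℝ) ≤ 2 * X →
    (l : ℝ) ≤ X ^ (1 / 2 : ℝ) → ∀ R R' : ℕ, 1 ≤ R → 1 ≤ R' → (R : ℝ) ≤ X ^ (1 / 10000 : ℝ) →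
    (R' : ℝ) ≤ X ^ (1 / 10000 : ℝ) → ∀ A B : ℕ, X ^ (0.4995 : ℝ) ≤ A → A ≤ B →
    (B : ℝ) ≤ X ^ (0.5005 : ℝ) →
    ∑ k ∈ Finset.Ioc A B, selW R' k *
        ∑ m ∈ (Finset.range (x + l)).filter (fun m => x ≤ k * m ∧ k * m < x + l), selW R m
      ≤ l * Real.log ((B : ℝ) / A) / (selG R * selG R') + X ^ (0.46 : ℝ) := by
  classical
  obtain ⟨X₁, hsaw⟩ := sawtooth_sum_bound
  refine ⟨max X₁ ((3 : ℝ) ^ (10000 : ℝ)), ?_⟩
  intro X hX x l hx hx2 hl R R' hR hR' hRX hRX' A B hA hAB hB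
  have hX₁ : X₁ ≤ X := le_trans (le_max_left _ _) hX
  have hXbig : (3 : ℝ) ^ (10000 : ℝ) ≤ X := le_trans (le_max_right _ _) hX
  have hX1 : 1 ≤ X := le_trans (Real.one_le_rpow (by norm_num) (by norm_num)) hXbig
  have hX0 : 0 < X := lt_of_lt_of_le one_pos hX1
  have hT : (3 : ℝ) ≤ X ^ (0.0001 : ℝ) := by
    calc (3 : ℝ) = ((3 : ℝ) ^ (10000 : ℝ)) ^ (0.0001 : ℝ) := by
          rw [← Real.rpow_mul (by norm_num)]
          norm_num
      _ ≤ X ^ (0.0001 : ℝ) := Real.rpow_le_rpow (by positivity) hXbig (by norm_num)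
  clear hXbig hX
  have hpos : ∀ a : ℝ, 0 < X ^ a := fun a => Real.rpow_pos_of_pos hX0 a
  have hmul : ∀ a b : ℝ, X ^ a * X ^ b = X ^ (a + b) := fun a b => (Real.rpow_add hX0 a b).symm
  have hx1 : 1 ≤ x := by
    have : (1 : ℝ) ≤ x := by linarith only [hx, hX1]
    exact_mod_cast this
  have e10 : (1 / 10000 : ℝ) = 0.0001 := by norm_num
  rw [e10] at hRX hRX'
  have hlcm : ∀ {S : ℕ}, (S : ℝ) ≤ X ^ (0.0001 : ℝ) → ∀ p ∈ Icc 1 S ×ˢ Icc 1 S,
      1 ≤ Nat.lcm p.1 p.2 ∧ ((Nat.lcm p.1 p.2 : ℕ) : ℝ) ≤ X ^ (0.0002 : ℝ) := by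
    intro S hS p hp
    rw [mem_product, mem_Icc, mem_Icc] at hp
    refine ⟨Nat.lcm_pos (by omega) (by omega), ?_⟩
    have h1 : Nat.lcm p.1 p.2 ≤ p.1 * p.2 :=
      Nat.le_of_dvd (Nat.mul_pos (by omega) (by omega)) (Nat.lcm_dvd_mul p.1 p.2)
    calc ((Nat.lcm p.1 p.2 : ℕ) : ℝ) ≤ ((p.1 * p.2 : ℕ) : ℝ) := by exact_mod_cast h1
      _ = (p.1 : ℝ) * p.2 := by push_cast; ring
      _ ≤ X ^ (0.0001 : ℝ) * X ^ (0.0001 : ℝ) := by
          apply mul_le_mul _ _ (by positivity) (hpos _).le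
          · exact le_trans (by exact_mod_cast hp.1.2) hS
          · exact le_trans (by exact_mod_cast hp.2.2) hS
      _ = X ^ (0.0002 : ℝ) := by rw [hmul]; norm_num
  set P := Icc 1 R ×ˢ Icc 1 R with hP
  set P' := Icc 1 R' ×ˢ Icc 1 R' with hP'
  -- expand everything
  have hexp : ∑ k ∈ Finset.Ioc A B, selW R' k *
        ∑ m ∈ (Finset.range (x + l)).filter (fun m => x ≤ k * m ∧ k * m < x + l), selW R m =
      ∑ e ∈ P', ∑ d ∈ P, selPair R' e * selPair R d *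
        ∑ k ∈ Ioc (A / Nat.lcm e.1 e.2) (B / Nat.lcm e.1 e.2),
          (((Ico x (x + l)).filter
            (fun n => Nat.lcm e.1 e.2 * Nat.lcm d.1 d.2 * k ∣ n)).card : ℝ) := by
    have h1 : ∀ k ∈ Finset.Ioc A B, selW R' k *
        ∑ m ∈ (Finset.range (x + l)).filter (fun m => x ≤ k * m ∧ k * m < x + l), selW R m =
        ∑ e ∈ P', ∑ d ∈ P, selPair R' e * selPair R d *
          (if Nat.lcm e.1 e.2 ∣ k then
            (((Ico x (x + l)).filter (fun n => k * Nat.lcm d.1 d.2 ∣ n)).card : ℝ) else 0) := by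
      intro k hk
      rw [mem_Ioc] at hk
      have hk0 : 0 < k := by omega
      rw [sum_inner_selW hx1 hk0, selW_eq_pair R' hk0.ne', Finset.sum_mul_sum]
      apply Finset.sum_congr rfl
      intro e _
      apply Finset.sum_congr rfl
      intro d _
      split_ifs <;> ring
    rw [Finset.sum_congr rfl h1, Finset.sum_comm]
    apply Finset.sum_congr rfl
    intro e he
    rw [Finset.sum_comm]
    apply Finset.sum_congr rfl
    intro d _
    rw [← Finset.mul_sum]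
    congr 1
    rw [sum_dvd_reindex (hlcm hRX' e he).1
      (fun k => (((Ico x (x + l)).filter (fun n => k * Nat.lcm d.1 d.2 ∣ n)).card : ℝ))]
    apply Finset.sum_congr rfl
    intro k _
    have : Nat.lcm e.1 e.2 * k * Nat.lcm d.1 d.2 = Nat.lcm e.1 e.2 * Nat.lcm d.1 d.2 * k := by
      ring
    simp only [this]
  have hmain : l * Real.log ((B : ℝ) / A) / (selG R * selG R') =
      ∑ e ∈ P', ∑ d ∈ P, selPair R' e * selPair R d *
        (l / ((Nat.lcm e.1 e.2 : ℕ) * (Nat.lcm d.1 d.2 : ℕ)) * Real.log ((B : ℝ) / A)) := by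
    have h1 : l * Real.log ((B : ℝ) / A) / (selG R * selG R') =
        l * Real.log ((B : ℝ) / A) * ((1 / selG R') * (1 / selG R)) := by
      rw [one_div, one_div, ← mul_inv, mul_comm (selG R') (selG R), div_eq_mul_inv]
    rw [h1, ← quadForm_pair hR, ← quadForm_pair hR', Finset.sum_mul_sum, Finset.mul_sum]
    apply Finset.sum_congr rfl
    intro e _
    rw [Finset.mul_sum]
    apply Finset.sum_congr rfl
    intro d _
    rw [div_mul_div_comm]
    ring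
  have hdiff : |∑ e ∈ P', ∑ d ∈ P, selPair R' e * selPair R d *
        ∑ k ∈ Ioc (A / Nat.lcm e.1 e.2) (B / Nat.lcm e.1 e.2),
          (((Ico x (x + l)).filter
            (fun n => Nat.lcm e.1 e.2 * Nat.lcm d.1 d.2 * k ∣ n)).card : ℝ) -
      ∑ e ∈ P', ∑ d ∈ P, selPair R' e * selPair R d *
        (l / ((Nat.lcm e.1 e.2 : ℕ) * (Nat.lcm d.1 d.2 : ℕ)) * Real.log ((B : ℝ) / A))| ≤
      (R' : ℝ) ^ 2 * (R : ℝ) ^ 2 * (3 * X ^ (0.45 : ℝ)) := by
    rw [← Finset.sum_sub_distrib]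
    refine le_trans (Finset.abs_sum_le_sum_abs _ _) ?_
    have h2 : ∀ e ∈ P', |∑ d ∈ P, selPair R' e * selPair R d *
        ∑ k ∈ Ioc (A / Nat.lcm e.1 e.2) (B / Nat.lcm e.1 e.2),
          (((Ico x (x + l)).filter
            (fun n => Nat.lcm e.1 e.2 * Nat.lcm d.1 d.2 * k ∣ n)).card : ℝ) -
        ∑ d ∈ P, selPair R' e * selPair R d *
        (l / ((Nat.lcm e.1 e.2 : ℕ) * (Nat.lcm d.1 d.2 : ℕ)) * Real.log ((B : ℝ) / A))| ≤
        |selPair R' e| * ((R : ℝ) ^ 2 * (3 * X ^ (0.45 : ℝ))) := by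
      intro e he
      rw [← Finset.sum_sub_distrib]
      refine le_trans (Finset.abs_sum_le_sum_abs _ _) ?_
      have h3 : ∀ d ∈ P, |selPair R' e * selPair R d *
          ∑ k ∈ Ioc (A / Nat.lcm e.1 e.2) (B / Nat.lcm e.1 e.2),
          (((Ico x (x + l)).filter
            (fun n => Nat.lcm e.1 e.2 * Nat.lcm d.1 d.2 * k ∣ n)).card : ℝ) -
          selPair R' e * selPair R d *
          (l / ((Nat.lcm e.1 e.2 : ℕ) * (Nat.lcm d.1 d.2 : ℕ)) * Real.log ((B : ℝ) / A))| ≤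
          |selPair R' e| * (|selPair R d| * (3 * X ^ (0.45 : ℝ))) := by
        intro d hd
        rw [← mul_sub, abs_mul, abs_mul, mul_assoc]
        apply mul_le_mul_of_nonneg_left _ (abs_nonneg _)
        apply mul_le_mul_of_nonneg_left _ (abs_nonneg _)
        obtain ⟨e1, e2⟩ := hlcm hRX' e he
        obtain ⟨d1, d2⟩ := hlcm hRX d hd
        exact abs_N_sub_le hsaw hX₁ hX1 hT hx hx2 hl e1 d1 e2 d2 hA hAB hB
      refine le_trans (Finset.sum_le_sum h3) ?_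
      rw [← Finset.mul_sum, ← Finset.sum_mul]
      apply mul_le_mul_of_nonneg_left _ (abs_nonneg _)
      apply mul_le_mul_of_nonneg_right (sum_abs_selPair_le hR)
      have := hpos (0.45 : ℝ)
      linarith only [this]
    refine le_trans (Finset.sum_le_sum h2) ?_
    rw [← Finset.sum_mul, mul_assoc]
    apply mul_le_mul_of_nonneg_right (sum_abs_selPair_le hR')
    have := hpos (0.45 : ℝ)
    positivity
  have herr : (R' : ℝ) ^ 2 * (R : ℝ) ^ 2 * (3 * X ^ (0.45 : ℝ)) ≤ X ^ (0.46 : ℝ) := by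
    have hR2 : (R : ℝ) ^ 2 ≤ X ^ (0.0002 : ℝ) := by
      calc (R : ℝ) ^ 2 ≤ (X ^ (0.0001 : ℝ)) ^ 2 := by
            apply pow_le_pow_left₀ (by positivity) hRX
        _ = X ^ (0.0002 : ℝ) := by rw [sq, hmul]; norm_num
    have hR2' : (R' : ℝ) ^ 2 ≤ X ^ (0.0002 : ℝ) := by
      calc (R' : ℝ) ^ 2 ≤ (X ^ (0.0001 : ℝ)) ^ 2 := by
            apply pow_le_pow_left₀ (by positivity) hRX'
        _ = X ^ (0.0002 : ℝ) := by rw [sq, hmul]; norm_num
    have h3 : (3 : ℝ) ≤ X ^ (0.0096 : ℝ) :=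
      le_trans hT (Real.rpow_le_rpow_of_exponent_le hX1 (by norm_num))
    calc (R' : ℝ) ^ 2 * (R : ℝ) ^ 2 * (3 * X ^ (0.45 : ℝ))
        ≤ X ^ (0.0002 : ℝ) * X ^ (0.0002 : ℝ) * (X ^ (0.0096 : ℝ) * X ^ (0.45 : ℝ)) := by
          apply mul_le_mul
          · exact mul_le_mul hR2' hR2 (by positivity) (hpos _).le
          · exact mul_le_mul_of_nonneg_right h3 (hpos _).le
          · have := hpos (0.45 : ℝ)
            positivity
          · exact (mul_pos (hpos _) (hpos _)).le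
      _ = X ^ (0.46 : ℝ) := by
          rw [hmul, hmul, hmul]
          norm_num
  rw [hexp, hmain]
  have := (abs_le.mp hdiff).2
  linarith only [herr, this]

end Pool.Agent.MP_a187e6
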