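import Mathlib

open Filter Topology MeasureTheory FourierTransform SchwartzMap
open scoped ContDiff

namespace Pool.Agent.MP_a187e6.MSBessel

/-- Plancherel for a function in `L¹ ∩ L²`. -/
theorem eLpNorm_fourier_eq (f : ℝ → ℂ) (hf1 : Integrable f) (hf2 : MemLp f 2) :
    eLpNorm (𝓕 f) 2 volume = eLpNorm f 2 volume := by
  set F2 : Lp ℂ 2 (volume : Measure ℝ) := hf2.toLp f with hF2
  have hae : (F2 : ℝ → ℂ) =ᵐ[volume] f := hf2.coeFn_toLp
  have hcont : Continuous (𝓕 f) := by
    have := VectorFourier.fourierIntegral_continuous (V := ℝ) (W := ℝ) (μ := volume)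
      Real.continuous_fourierChar (L := innerₗ ℝ) (by exact continuous_inner) hf1
    exact this
  have hbound : ∀ u, ‖𝓕 f u‖ ≤ ∫ x, ‖f x‖ := by
    intro u
    exact VectorFourier.norm_fourierIntegral_le_integral_norm _ _ _ _ _
  have hkey : (𝓕 F2 : Lp ℂ 2 (volume : Measure ℝ)) =ᵐ[volume] 𝓕 f := by
    have hzero : ∀ᵐ u ∂(volume : Measure ℝ), ((𝓕 F2 : Lp ℂ 2 (volume : Measure ℝ)) : ℝ → ℂ) u - 𝓕 f u = 0 := by
      apply ae_eq_zero_of_integral_contDiff_smul_eq_zero
      · apply LocallyIntegrable.sub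
        · exact (Lp.memLp _).locallyIntegrable (by norm_num)
        · exact hcont.locallyIntegrable
      · intro g g_smooth g_cpt
        have hg₁ : HasCompactSupport (Complex.ofRealCLM ∘ g) := g_cpt.comp_left rfl
        have hg₂ : ContDiff ℝ ∞ (Complex.ofRealCLM ∘ g) := by fun_prop
        set φ : 𝓢(ℝ, ℂ) := hg₁.toSchwartzMap hg₂ with hφ
        have hφg : ∀ x, φ x = (g x : ℂ) := fun x => rfl
        have h1 : ∫ x, φ x • ((𝓕 F2 : Lp ℂ 2 (volume : Measure ℝ)) : ℝ → ℂ) x =
            ∫ x, (𝓕 φ) x • (F2 : ℝ → ℂ) x := by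
          have := Lp.fourier_toTemperedDistribution_eq F2
          have h2 := congrArg (fun T : 𝓢'(ℝ, ℂ) => T φ) this
          simp only [TemperedDistribution.fourier_apply, Lp.toTemperedDistribution_apply] at h2
          exact h2.symm
        have h2 : ∫ x, (𝓕 φ) x • (F2 : ℝ → ℂ) x = ∫ x, (𝓕 φ) x • f x := by
          apply integral_congr_ae
          filter_upwards [hae] with x hx
          rw [hx]
        have h3 : ∫ x, (𝓕 φ) x • f x = ∫ x, φ x • 𝓕 f x := by
          have := VectorFourier.integral_fourierIntegral_smul_eq_flip (L := innerₗ ℝ)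
            (μ := (volume : Measure ℝ)) (ν := (volume : Measure ℝ))
            Real.continuous_fourierChar (by exact continuous_inner) φ.integrable hf1
          rw [flip_innerₗ] at this
          exact this
        have hint1 : Integrable (fun x => φ x • ((𝓕 F2 : Lp ℂ 2 (volume : Measure ℝ)) : ℝ → ℂ) x) := by
          have h4 : MemLp (fun x => φ x) 2 (volume : Measure ℝ) := φ.memLp 2 volume
          exact (h4.integrable_mul (Lp.memLp (𝓕 F2 : Lp ℂ 2 (volume : Measure ℝ))))
        have hint2 : Integrable (fun x => φ x • 𝓕 f x) := by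
          have h4 := φ.integrable (μ := (volume : Measure ℝ))
          exact h4.mul_bdd (c := ∫ x, ‖f x‖) hcont.aestronglyMeasurable (Eventually.of_forall hbound)
        have h5 : ∀ x, g x • (((𝓕 F2 : Lp ℂ 2 (volume : Measure ℝ)) : ℝ → ℂ) x - 𝓕 f x) =
            φ x • ((𝓕 F2 : Lp ℂ 2 (volume : Measure ℝ)) : ℝ → ℂ) x - φ x • 𝓕 f x := by
          intro x
          rw [hφg, Complex.real_smul, smul_eq_mul, smul_eq_mul]
          ring
        simp_rw [h5]
        rw [integral_sub hint1 hint2, h1, h2, h3, sub_self]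
    filter_upwards [hzero] with u hu
    exact sub_eq_zero.mp hu
  rw [← eLpNorm_congr_ae hkey, ← eLpNorm_congr_ae hae]
  have hn := Lp.norm_fourier_eq F2
  rw [Lp.norm_def, Lp.norm_def] at hn
  exact (ENNReal.toReal_eq_toReal_iff' (Lp.eLpNorm_ne_top _) (Lp.eLpNorm_ne_top _)).mp hn

end Pool.Agent.MP_a187e6.MSBessel
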