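import Pool.Agent.MP_a187e6.MSShift
import Pool.Agent.MP_a187e6.MSBessel

open Filter Topology MeasureTheory FourierTransform

namespace Pool.Agent.MP_a187e6.MSKernel

/-- Fourier inversion, in the form needed for vertical lines. -/
lemma inversion (g H : ℝ → ℂ) (hg : Continuous g) (hgi : Integrable g) (hH : Integrable H)
    (hF : ∀ ξ : ℝ, ∫ u : ℝ, Complex.exp (-(2 * Real.pi * ξ * Complex.I) * u) * g u =
      H (2 * Real.pi * ξ)) (u : ℝ) :
    ∫ t : ℝ, Complex.exp (t * Complex.I * u) * H t = 2 * Real.pi * g u := by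
  have h2π : (2 * Real.pi) ≠ 0 := by positivity
  have hFg : 𝓕 g = fun ξ => H (2 * Real.pi * ξ) := by
    funext ξ
    rw [← hF ξ, Real.fourier_real_eq_integral_exp_smul]
    congr 1
    funext v
    rw [smul_eq_mul]
    congr 2
    push_cast
    ring
  have hFint : Integrable (𝓕 g) := by
    rw [hFg]
    exact hH.comp_mul_left' h2π
  have hinv := congrFun (hg.fourierInv_fourier_eq hgi hFint) u
  rw [← hinv, Real.fourierInv_eq_fourier_neg, Real.fourier_real_eq_integral_exp_smul, hFg]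
  have h1 : ∫ v : ℝ, Complex.exp (((-2 * Real.pi * v * -u : ℝ) : ℂ) * Complex.I) •
      H (2 * Real.pi * v) = ∫ v : ℝ, (fun t : ℝ => Complex.exp (t * Complex.I * u) * H t)
        (2 * Real.pi * v) := by
    congr 1
    funext v
    simp only [smul_eq_mul]
    congr 2
    push_cast
    ring
  rw [h1, Measure.integral_comp_mul_left (fun t : ℝ => Complex.exp (t * Complex.I * u) * H t)
    (2 * Real.pi)]
  rw [abs_of_pos (by positivity), Complex.real_smul]
  push_cast
  have : (2 * Real.pi : ℂ) ≠ 0 := by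
    have : (Real.pi : ℂ) ≠ 0 := by exact_mod_cast Real.pi_ne_zero
    simp [this]
  rw [← mul_assoc, mul_inv_cancel₀ this, one_mul]

/-- Plancherel, in the form needed for vertical lines. -/
lemma plancherel (H : ℝ → ℂ) (hH : Integrable H) (hH2 : MemLp H 2) :
    ∫⁻ u : ℝ, ‖∫ t : ℝ, Complex.exp (t * Complex.I * u) * H t‖ₑ ^ 2 =
      ENNReal.ofReal (2 * Real.pi) * ∫⁻ t : ℝ, ‖H t‖ₑ ^ 2 := by
  have h2π : (2 * Real.pi) ≠ 0 := by positivity
  have h1 : ∀ u : ℝ, ∫ t : ℝ, Complex.exp (t * Complex.I * u) * H t = 𝓕 H (-(2 * Real.pi)⁻¹ * u) := by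
    intro u
    rw [Real.fourier_real_eq_integral_exp_smul]
    congr 1
    funext v
    rw [smul_eq_mul]
    congr 2
    push_cast
    have : (Real.pi : ℂ) ≠ 0 := by exact_mod_cast Real.pi_ne_zero
    field_simp
  simp_rw [h1]
  have hmeas : Continuous (𝓕 H) := by
    have := VectorFourier.fourierIntegral_continuous (V := ℝ) (W := ℝ) (μ := volume)
      Real.continuous_fourierChar (L := innerₗ ℝ) (by exact continuous_inner) hH
    exact this
  have hne : (-(2 * Real.pi)⁻¹) ≠ 0 := by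
    rw [neg_ne_zero]; exact inv_ne_zero h2π
  have h2 : ∫⁻ u : ℝ, ‖𝓕 H (-(2 * Real.pi)⁻¹ * u)‖ₑ ^ 2 =
      ∫⁻ v, ‖𝓕 H v‖ₑ ^ 2 ∂(Measure.map (fun u : ℝ => -(2 * Real.pi)⁻¹ * u) volume) := by
    rw [lintegral_map (by fun_prop) (by fun_prop)]
  rw [h2, Real.map_volume_mul_left hne, lintegral_smul_measure]
  have h3 : |(-(2 * Real.pi)⁻¹)⁻¹| = 2 * Real.pi := by
    rw [inv_neg, inv_inv, abs_neg, abs_of_pos (by positivity)]
  rw [h3, smul_eq_mul]
  congr 1
  have h4 := MSBessel.eLpNorm_fourier_eq H hH hH2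
  rw [eLpNorm_eq_lintegral_rpow_enorm_toReal (by norm_num) (by norm_num),
    eLpNorm_eq_lintegral_rpow_enorm_toReal (by norm_num) (by norm_num)] at h4
  simp only [ENNReal.toReal_ofNat, ENNReal.rpow_ofNat] at h4
  have h5 : (1 / (2 : ℝ)) ≠ 0 := by norm_num
  exact ENNReal.rpow_left_injective h5 h4

/-- Laplace transform of `u_+` -/
lemma laplace_pos (s : ℂ) (hs : 0 < s.re) :
    IntegrableOn (fun u : ℝ => (u : ℂ) * Complex.exp (-s * u)) (Set.Ioi 0) ∧
    ∫ u in Set.Ioi (0 : ℝ), (u : ℂ) * Complex.exp (-s * u) = 1 / s ^ 2 := by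
  have hs0 : s ≠ 0 := by rintro rfl; simp at hs
  have hint : IntegrableOn (fun u : ℝ => (u : ℂ) * Complex.exp (-s * u)) (Set.Ioi 0) := by
    have h1 := integrableOn_rpow_mul_exp_neg_mul_rpow (p := 1) (s := 1) (b := s.re) (by norm_num)
      (by norm_num) hs
    refine Integrable.mono' h1 (by fun_prop) ?_
    filter_upwards [ae_restrict_mem measurableSet_Ioi] with u hu
    rw [norm_mul, Complex.norm_real, Complex.norm_exp, Real.norm_eq_abs, abs_of_pos hu]
    simp
  refine ⟨hint, ?_⟩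
  have hder : ∀ u ∈ Set.Ici (0 : ℝ), HasDerivAt
      (fun u : ℝ => -((u : ℂ) / s + 1 / s ^ 2) * Complex.exp (-s * u))
      ((u : ℂ) * Complex.exp (-s * u)) u := by
    intro u _
    have h1 : HasDerivAt (fun u : ℝ => (u : ℂ)) 1 u := Complex.ofRealCLM.hasDerivAt
    have h2 : HasDerivAt (fun u : ℝ => Complex.exp (-s * u)) (Complex.exp (-s * u) * (-s * 1)) u :=
      (h1.const_mul (-s)).cexp
    have h3 : HasDerivAt (fun u : ℝ => -((u : ℂ) / s + 1 / s ^ 2)) (-(1 / s)) u :=
      ((h1.div_const s).add_const _).neg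
    have h4 := h3.mul h2
    convert! h4 using 1
    field_simp
    ring
  have hlim : Tendsto (fun u : ℝ => -((u : ℂ) / s + 1 / s ^ 2) * Complex.exp (-s * u)) atTop (𝓝 0) := by
    rw [tendsto_zero_iff_norm_tendsto_zero]
    have h1 := (tendsto_rpow_mul_exp_neg_mul_atTop_nhds_zero 1 s.re hs).const_mul (1 / ‖s‖)
    have h2 := (tendsto_rpow_mul_exp_neg_mul_atTop_nhds_zero 0 s.re hs).const_mul (1 / ‖s‖ ^ 2)
    have h3 := h1.add h2
    simp only [mul_zero, add_zero, Real.rpow_one, Real.rpow_zero, one_mul] at h3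
    refine squeeze_zero' (Eventually.of_forall fun u => norm_nonneg _) ?_ h3
    filter_upwards [eventually_ge_atTop 0] with u hu
    rw [norm_mul, norm_neg, Complex.norm_exp]
    have h4 : ‖(u : ℂ) / s + 1 / s ^ 2‖ ≤ u / ‖s‖ + 1 / ‖s‖ ^ 2 := by
      refine (norm_add_le _ _).trans ?_
      rw [norm_div, norm_div, Complex.norm_real, Real.norm_eq_abs, abs_of_nonneg hu, norm_pow,
        norm_one]
    have h5 : (-s * (u : ℂ)).re = -s.re * u := by simp
    rw [h5]
    calc ‖(u : ℂ) / s + 1 / s ^ 2‖ * Real.exp (-s.re * u)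
        ≤ (u / ‖s‖ + 1 / ‖s‖ ^ 2) * Real.exp (-s.re * u) :=
          mul_le_mul_of_nonneg_right h4 (Real.exp_pos _).le
      _ = _ := by ring
  have := integral_Ioi_of_hasDerivAt_of_tendsto' hder hint hlim
  rw [this]
  simp

/-- Laplace transform of `(e^u - 1)_+` -/
lemma laplace_exp (s : ℂ) (hs : 1 < s.re) :
    IntegrableOn (fun u : ℝ => ((Real.exp u - 1 : ℝ) : ℂ) * Complex.exp (-s * u)) (Set.Ioi 0) ∧
    ∫ u in Set.Ioi (0 : ℝ), ((Real.exp u - 1 : ℝ) : ℂ) * Complex.exp (-s * u) =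
      1 / (s * (s - 1)) := by
  have hs0 : s ≠ 0 := by rintro rfl; simp at hs; linarith
  have hs1 : s - 1 ≠ 0 := by
    intro h
    have : s = 1 := by linear_combination h
    rw [this] at hs; simp at hs
  have ha : ((1 - s) : ℂ).re < 0 := by simp; linarith
  have hb : (-s : ℂ).re < 0 := by simp; linarith
  have hi1 := integrableOn_exp_mul_complex_Ioi ha 0
  have hi2 := integrableOn_exp_mul_complex_Ioi hb 0
  have heq : (fun u : ℝ => ((Real.exp u - 1 : ℝ) : ℂ) * Complex.exp (-s * u)) =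
      fun u : ℝ => Complex.exp ((1 - s) * u) - Complex.exp (-s * u) := by
    funext u
    rw [sub_mul 1 s, Complex.ofReal_sub, Complex.ofReal_exp, sub_mul, one_mul, Complex.ofReal_one,
      one_mul, ← Complex.exp_add]
    congr 2
    ring
  rw [heq]
  refine ⟨hi1.sub hi2, ?_⟩
  rw [integral_sub hi1 hi2, integral_exp_mul_complex_Ioi ha, integral_exp_mul_complex_Ioi hb]
  simp only [Complex.ofReal_zero, mul_zero, Complex.exp_zero]
  have hs1' : 1 - s ≠ 0 := by
    intro h; apply hs1; linear_combination -h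
  field_simp
  ring

lemma sq_lower (σ t : ℝ) (hσ : 1 / 2 ≤ σ) : (1 + |t|) / 4 ≤ ‖(σ + t * Complex.I : ℂ)‖ := by
  have h1 := Complex.abs_re_le_norm (σ + t * Complex.I : ℂ)
  have h2 := Complex.abs_im_le_norm (σ + t * Complex.I : ℂ)
  simp at h1 h2
  have h3 : 1 / 2 ≤ |σ| := by rw [abs_of_nonneg (by linarith)]; exact hσ
  linarith

lemma kernel_general (σ : ℝ) (φ : ℝ → ℝ) (hφ : Continuous φ) (hφ0 : ∀ u ≤ 0, φ u = 0) (L : ℂ → ℂ)
    (hint : IntegrableOn (fun u : ℝ => (φ u : ℂ) * Complex.exp (-(σ : ℂ) * u)) (Set.Ioi 0))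
    (hL : ∀ t : ℝ, ∫ u in Set.Ioi (0 : ℝ), (φ u : ℂ) * Complex.exp (-(σ + t * Complex.I) * u) =
      L (σ + t * Complex.I))
    (hLi : Integrable (fun t : ℝ => L (σ + t * Complex.I))) (u : ℝ) :
    ∫ t : ℝ, Complex.exp ((σ + t * Complex.I) * u) * L (σ + t * Complex.I) =
      2 * Real.pi * (φ u : ℂ) := by
  have hφc : Continuous (fun u : ℝ => (φ u : ℂ)) := Complex.continuous_ofReal.comp hφ
  have h := inversion (fun u : ℝ => (φ u : ℂ) * Complex.exp (-(σ : ℂ) * u))
    (fun t : ℝ => L (σ + t * Complex.I)) (by fun_prop) (by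
      apply IntegrableOn.integrable_of_forall_notMem_eq_zero hint
      intro x hx
      rw [hφ0 x (by simpa using hx)]
      simp) hLi (by
      intro ξ
      rw [← hL (2 * Real.pi * ξ), ← setIntegral_eq_integral_of_forall_compl_eq_zero (s := Set.Ioi 0)]
      · apply setIntegral_congr_fun measurableSet_Ioi
        intro x _
        simp only
        rw [mul_left_comm, ← Complex.exp_add]
        congr 2
        push_cast
        ring
      · intro x hx
        rw [hφ0 x (by simpa using hx)]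
        simp) u
  have h2 : ∀ t : ℝ, Complex.exp ((σ + t * Complex.I) * u) * L (σ + t * Complex.I) =
      Complex.exp (σ * u) * (Complex.exp (t * Complex.I * u) * L (σ + t * Complex.I)) := by
    intro t
    rw [add_mul, Complex.exp_add]
    ring
  simp_rw [h2]
  rw [integral_const_mul, h]
  have h3 : Complex.exp (σ * u) * Complex.exp (-(σ : ℂ) * u) = 1 := by
    rw [← Complex.exp_add]; simp
  linear_combination (2 * Real.pi * (φ u : ℂ)) * h3

lemma integrable_of_decay (F : ℝ → ℂ) (hF : Continuous F) (C p : ℝ) (hp : 1 < p)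
    (hb : ∀ t, ‖F t‖ ≤ C * (1 + |t|) ^ (-p)) : Integrable F :=
  Integrable.mono' ((MSShift.integrable_decay p hp).const_mul C) hF.aestronglyMeasurable
    (Eventually.of_forall hb)

lemma sq_decay (σ t : ℝ) (hσ : 1 / 2 ≤ σ) :
    ‖1 / (σ + t * Complex.I : ℂ) ^ 2‖ ≤ 16 * (1 + |t|) ^ (-2 : ℝ) := by
  have h1 := sq_lower σ t hσ
  have h0 : 0 < (1 + |t|) / 4 := by positivity
  rw [norm_div, norm_one, norm_pow, Real.rpow_neg (by positivity), Real.rpow_two]
  have hpos : 0 < ‖(σ + t * Complex.I : ℂ)‖ ^ 2 := by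
    have := lt_of_lt_of_le h0 h1
    positivity
  rw [div_le_iff₀ hpos]
  have h2 : ((1 + |t|) / 4) ^ 2 ≤ ‖(σ + t * Complex.I : ℂ)‖ ^ 2 := pow_le_pow_left₀ h0.le h1 2
  have h3 : (1 : ℝ) = 16 * ((1 + |t|) ^ 2)⁻¹ * ((1 + |t|) / 4) ^ 2 := by
    have : (1 + |t|) ≠ 0 := by positivity
    field_simp
    norm_num
  calc (1 : ℝ) = 16 * ((1 + |t|) ^ 2)⁻¹ * ((1 + |t|) / 4) ^ 2 := h3
    _ ≤ _ := mul_le_mul_of_nonneg_left h2 (by positivity)

lemma line_ne_zero (σ t : ℝ) (hσ : 0 < σ) : (σ + t * Complex.I : ℂ) ≠ 0 := by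
  intro h
  have := congrArg Complex.re h
  simp at this
  linarith

/-- kernel inversion for `u_+` -/
theorem kernel_pos (σ : ℝ) (hσ : 1 / 2 ≤ σ) (u : ℝ) :
    ∫ t : ℝ, Complex.exp ((σ + t * Complex.I) * u) * (1 / (σ + t * Complex.I) ^ 2) =
      2 * Real.pi * ((max u 0 : ℝ) : ℂ) := by
  have hσ0 : 0 < σ := by linarith
  apply kernel_general σ (fun u => max u 0) (by fun_prop) (fun u hu => max_eq_right hu)
    (fun s => 1 / s ^ 2)
  · have := (laplace_pos σ (by simpa using hσ0)).1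
    refine this.congr_fun ?_ measurableSet_Ioi
    intro u hu
    simp only
    rw [max_eq_left (le_of_lt hu)]
  · intro t
    have := (laplace_pos (σ + t * Complex.I) (by simpa using hσ0)).2
    rw [← this]
    apply setIntegral_congr_fun measurableSet_Ioi
    intro u hu
    simp only
    rw [max_eq_left (le_of_lt hu)]
  · apply integrable_of_decay _ _ 16 2 (by norm_num) (fun t => sq_decay σ t hσ)
    apply Continuous.div continuous_const (by fun_prop)
    intro t
    exact pow_ne_zero 2 (line_ne_zero σ t hσ0)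

lemma mul_decay (σ t : ℝ) (hσ : 3 / 2 ≤ σ) :
    ‖1 / ((σ + t * Complex.I : ℂ) * (σ + t * Complex.I - 1))‖ ≤ 16 * (1 + |t|) ^ (-2 : ℝ) := by
  have h1 := sq_lower σ t (by linarith)
  have h2 := sq_lower (σ - 1) t (by linarith)
  have h0 : 0 < (1 + |t|) / 4 := by positivity
  have h4 : (σ + t * Complex.I - 1 : ℂ) = (((σ - 1 : ℝ) : ℂ) + t * Complex.I) := by
    push_cast; ring
  rw [h4, norm_div, norm_one, norm_mul, Real.rpow_neg (by positivity), Real.rpow_two]
  have h5 : 0 < ‖(σ + t * Complex.I : ℂ)‖ := lt_of_lt_of_le h0 h1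
  have h6 : 0 < ‖(((σ - 1 : ℝ) : ℂ) + t * Complex.I)‖ := lt_of_lt_of_le h0 h2
  rw [div_le_iff₀ (by positivity)]
  have h3 : (1 : ℝ) = 16 * ((1 + |t|) ^ 2)⁻¹ * ((1 + |t|) / 4 * ((1 + |t|) / 4)) := by
    have : (1 + |t|) ≠ 0 := by positivity
    field_simp
    norm_num
  calc (1 : ℝ) = 16 * ((1 + |t|) ^ 2)⁻¹ * ((1 + |t|) / 4 * ((1 + |t|) / 4)) := h3
    _ ≤ _ := mul_le_mul_of_nonneg_left (mul_le_mul h1 h2 h0.le h5.le) (by positivity)

/-- kernel inversion for `(e^u - 1)_+` -/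
theorem kernel_exp (σ : ℝ) (hσ : 3 / 2 ≤ σ) (u : ℝ) :
    ∫ t : ℝ, Complex.exp ((σ + t * Complex.I) * u) *
        (1 / ((σ + t * Complex.I) * (σ + t * Complex.I - 1))) =
      2 * Real.pi * ((max (Real.exp u - 1) 0 : ℝ) : ℂ) := by
  have hσ0 : 0 < σ := by linarith
  apply kernel_general σ (fun u => max (Real.exp u - 1) 0) (by fun_prop)
    (fun u hu => max_eq_right (by
      have := Real.exp_le_one_iff.mpr hu
      linarith))
    (fun s => 1 / (s * (s - 1)))
  · have := (laplace_exp σ (by simp; linarith)).1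
    refine this.congr_fun ?_ measurableSet_Ioi
    intro u hu
    simp only
    rw [max_eq_left (by have := Real.one_le_exp (le_of_lt hu); linarith)]
  · intro t
    have := (laplace_exp (σ + t * Complex.I) (by simp; linarith)).2
    rw [← this]
    apply setIntegral_congr_fun measurableSet_Ioi
    intro u hu
    simp only
    rw [max_eq_left (by have := Real.one_le_exp (le_of_lt hu); linarith)]
  · apply integrable_of_decay _ _ 16 2 (by norm_num) (fun t => mul_decay σ t hσ)
    apply Continuous.div continuous_const (by fun_prop)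
    intro t
    apply mul_ne_zero (line_ne_zero σ t hσ0)
    intro h
    have := congrArg Complex.re h
    simp at this
    linarith

end Pool.Agent.MP_a187e6.MSKernel
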