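import Pool.Agent.MP_a187e6.MSZeta

open Filter Topology Finset

namespace Pool.Agent.MP_a187e6.MSZeta

lemma Z_ne_zero (hRH : RiemannHypothesis) (s : ℂ) (hs : 1 / 2 < s.re) : Z s ≠ 0 := by
  by_cases h1 : s = 1
  · rw [h1, Z_one]; exact one_ne_zero
  · rw [Z_eq s (by linarith) h1]
    intro h
    rcases mul_eq_zero.mp h with h | h
    · exact h1 (by linear_combination h)
    · have := hRH s h (by
        rintro ⟨n, hn⟩
        rw [hn] at hs
        simp only [Complex.mul_re, Complex.neg_re, Complex.add_re, Complex.natCast_re,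
          Complex.one_re] at hs
        norm_num at hs
        have : (0 : ℝ) ≤ n := Nat.cast_nonneg n
        linarith) h1
      linarith

/-- the logarithmic derivative of `(s-1) ζ(s)` -/
noncomputable def G (s : ℂ) : ℂ := deriv Z s / Z s

lemma isOpen_half (a : ℝ) : IsOpen {w : ℂ | a < w.re} :=
  isOpen_lt continuous_const Complex.continuous_re

lemma differentiableOn_G (hRH : RiemannHypothesis) : DifferentiableOn ℂ G {w : ℂ | 1 / 2 < w.re} := by
  have hZ : DifferentiableOn ℂ Z {w : ℂ | 1 / 2 < w.re} := fun w hw =>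
    (differentiableAt_Z w (by simp only [Set.mem_ofPred_eq] at hw; linarith)).differentiableWithinAt
  exact (hZ.deriv (isOpen_half _)).div hZ (fun w hw => Z_ne_zero hRH w hw)

lemma G_bound_aux (hRH : RiemannHypothesis) (δ : ℝ) (hδ : 0 < δ) (hδ1 : δ ≤ 1 / 2) (C : ℝ) (hC : 1 ≤ C)
    (hgr : ∀ s : ℂ, 1 / 2 ≤ s.re → ‖Z s‖ ≤ C * (1 + ‖s‖) ^ 2)
    (s : ℂ) (hs : 1 / 2 + δ ≤ s.re) (hs2 : s.re ≤ 3 / 2) :
    ‖G s‖ ≤ 12 * Real.log (100 * C * (1 + |s.im|) ^ 2) / δ ^ 2 := by
  set s0 : ℂ := 2 + s.im * Complex.I with hs0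
  have hs0re : s0.re = 2 := by simp [hs0]
  have hs0im : s0.im = s.im := by simp [hs0]
  have hball : Metric.ball s0 (3 / 2) ⊆ {w : ℂ | 1 / 2 < w.re} := by
    intro w hw
    rw [Metric.mem_ball, dist_eq_norm] at hw
    have h1 := Complex.abs_re_le_norm (w - s0)
    rw [Complex.sub_re, hs0re] at h1
    have h2 := (abs_le.mp h1).1
    simp only [Set.mem_ofPred_eq]
    linarith
  have hGd : DifferentiableOn ℂ G (Metric.ball s0 (3 / 2)) := (differentiableOn_G hRH).mono hball
  obtain ⟨g, hg0, hg⟩ := hGd.isExactOn_ball.with_val_at s0 0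
  set M : ℝ := Real.log (100 * C * (1 + |s.im|) ^ 2) with hM
  have hone : (1 : ℝ) ≤ (1 + |s.im|) ^ 2 := by nlinarith [abs_nonneg s.im]
  have hbig : (100 : ℝ) ≤ 100 * C * (1 + |s.im|) ^ 2 := by nlinarith
  have hMpos : 0 < M := Real.log_pos (by linarith)
  -- exp g * Z s0 = Z
  have hexp : ∀ z ∈ Metric.ball s0 (3 / 2), Z z * Complex.exp (-g z) = Z s0 := by
    have hder : ∀ z ∈ Metric.ball s0 (3 / 2), HasDerivAt (fun z => Z z * Complex.exp (-g z)) 0 z := by
      intro z hz
      have hzre : 1 / 2 < z.re := hball hz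
      have h1 : HasDerivAt Z (deriv Z z) z := (differentiableAt_Z z (by linarith)).hasDerivAt
      have h2 : HasDerivAt (fun z => Complex.exp (-g z)) (Complex.exp (-g z) * (-(G z))) z :=
        ((hg z hz).neg).cexp
      have h3 := h1.mul h2
      have hz0 := Z_ne_zero hRH z hzre
      convert! h3 using 1
      unfold G
      field_simp
      ring
    intro z hz
    have hconst := (convex_ball s0 (3 / 2 : ℝ)).isPreconnected
    have := IsOpen.is_const_of_deriv_eq_zero (f := fun z => Z z * Complex.exp (-g z))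
      Metric.isOpen_ball hconst
      (fun z hz => (hder z hz).differentiableAt.differentiableWithinAt)
      (fun z hz => (hder z hz).deriv) hz (Metric.mem_ball_self (by norm_num : (0 : ℝ) < 3 / 2))
    rw [this, hg0]
    simp
  have hre : ∀ z ∈ Metric.ball s0 (3 / 2), (g z).re ≤ M := by
    intro z hz
    have hzre : 1 / 2 < z.re := hball hz
    have h1 := hexp z hz
    have h2 : ‖Z z‖ * Real.exp (-(g z).re) = ‖Z s0‖ := by
      rw [← h1, norm_mul, Complex.norm_exp, Complex.neg_re]
    have hZs0 : 1 / 4 ≤ ‖Z s0‖ := Z_lower s.im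
    have hZz := hgr z hzre.le
    have hznorm : 1 + ‖z‖ ≤ 5 * (1 + |s.im|) := by
      rw [Metric.mem_ball, dist_eq_norm] at hz
      have h3 : ‖z‖ ≤ ‖z - s0‖ + ‖s0‖ := by
        have := norm_add_le (z - s0) s0
        simpa using this
      have h4 : ‖s0‖ ≤ 2 + |s.im| := by
        rw [hs0]
        refine (norm_add_le _ _).trans ?_
        rw [norm_mul, Complex.norm_I, mul_one, Complex.norm_real, Real.norm_eq_abs]
        norm_num
      have := abs_nonneg s.im
      linarith
    have h5 : ‖Z z‖ ≤ C * (5 * (1 + |s.im|)) ^ 2 := by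
      refine hZz.trans ?_
      apply mul_le_mul_of_nonneg_left _ (by linarith)
      apply pow_le_pow_left₀ (by positivity) hznorm
    have h6 : Real.exp ((g z).re) ≤ 100 * C * (1 + |s.im|) ^ 2 := by
      have h7 : ‖Z z‖ = ‖Z s0‖ * Real.exp ((g z).re) := by
        rw [← h2, mul_assoc, ← Real.exp_add, neg_add_cancel, Real.exp_zero, mul_one]
      have h8 : 1 / 4 * Real.exp ((g z).re) ≤ ‖Z z‖ := by
        rw [h7]; exact mul_le_mul_of_nonneg_right hZs0 (Real.exp_pos _).le
      nlinarith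
    rw [hM, Real.le_log_iff_exp_le (by linarith)]
    exact h6
  -- Borel-Carathéodory
  have hbc : ∀ z : ℂ, ‖z‖ ≤ 3 / 2 - δ / 2 → ‖g (s0 + z)‖ ≤ 6 * M / δ := by
    intro z hz
    have hmem : ∀ w : ℂ, w ∈ Metric.ball (0 : ℂ) (3 / 2) → s0 + w ∈ Metric.ball s0 (3 / 2) := by
      intro w hw
      rw [mem_ball_zero_iff] at hw
      rw [Metric.mem_ball, dist_eq_norm, add_sub_cancel_left]
      exact hw
    have hz' : z ∈ Metric.ball (0 : ℂ) (3 / 2) := by
      rw [mem_ball_zero_iff]; linarith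
    have := Complex.borelCaratheodory_zero (f := fun z => g (s0 + z)) (M := M) (R := 3 / 2) (z := z)
      hMpos (by
        intro w hw
        have h1 := (hg (s0 + w) (hmem w hw))
        have h2 : HasDerivAt (fun z => g (s0 + z)) (G (s0 + w)) w := by
          have := h1.comp_const_add s0 w
          exact this
        exact h2.differentiableAt.differentiableWithinAt)
      (fun w hw => hre (s0 + w) (hmem w hw)) (by norm_num) hz' (by simp [hg0])
    refine this.trans ?_
    have h1 : δ / 2 ≤ 3 / 2 - ‖z‖ := by linarith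
    have h2 : ‖z‖ ≤ 3 / 2 := by linarith
    calc 2 * M * ‖z‖ / (3 / 2 - ‖z‖) ≤ 2 * M * (3 / 2) / (δ / 2) := by
          apply div_le_div₀ (by positivity) _ (by positivity) h1
          exact mul_le_mul_of_nonneg_left h2 (by positivity)
      _ = 6 * M / δ := by field_simp; ring
  -- Cauchy estimate
  have hss0 : ‖s - s0‖ ≤ 3 / 2 - δ := by
    have : s - s0 = ((s.re - 2 : ℝ) : ℂ) := by
      apply Complex.ext
      · simp [hs0re]
      · simp [hs0im]
    rw [this, Complex.norm_real, Real.norm_eq_abs, abs_of_nonpos (by linarith)]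
    linarith
  have hsub : Metric.closedBall s (δ / 2) ⊆ Metric.ball s0 (3 / 2) := by
    intro w hw
    rw [Metric.mem_closedBall, dist_eq_norm] at hw
    rw [Metric.mem_ball, dist_eq_norm]
    have := norm_add_le (w - s) (s - s0)
    rw [sub_add_sub_cancel] at this
    linarith
  have hcauchy := Complex.norm_deriv_le_of_forall_mem_sphere_norm_le (f := g) (c := s)
    (R := δ / 2) (C := 6 * M / δ) (by positivity) (by
      apply DifferentiableOn.diffContOnCl
      rw [closure_ball s (by positivity : δ / 2 ≠ 0)]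
      intro w hw
      exact (hg w (hsub hw)).differentiableAt.differentiableWithinAt)
    (by
      intro w hw
      have hw' : ‖w - s0‖ ≤ 3 / 2 - δ / 2 := by
        rw [mem_sphere_iff_norm] at hw
        have := norm_add_le (w - s) (s - s0)
        rw [sub_add_sub_cancel] at this
        linarith
      have := hbc (w - s0) hw'
      rwa [add_sub_cancel] at this)
  have hsmem : s ∈ Metric.ball s0 (3 / 2) := hsub (Metric.mem_closedBall_self (by positivity))
  rw [(hg s hsmem).deriv] at hcauchy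
  refine hcauchy.trans (le_of_eq ?_)
  field_simp
  ring

/-- Under RH, the logarithmic derivative of `(s-1)ζ(s)` grows slower than every power on
`σ₀ ≤ Re s ≤ 3/2`, for every `σ₀ > 1/2`. -/
theorem G_bound (hRH : RiemannHypothesis) (σ₀ : ℝ) (h : 1 / 2 < σ₀) (η : ℝ) (hη : 0 < η) :
    ∃ C : ℝ, 0 < C ∧ ∀ s : ℂ, σ₀ ≤ s.re → s.re ≤ 3 / 2 → ‖G s‖ ≤ C * (1 + |s.im|) ^ η := by
  obtain ⟨C, hC, hgr⟩ := Z_growth
  set δ : ℝ := min (σ₀ - 1 / 2) (1 / 2) with hδ
  have hδ0 : 0 < δ := lt_min (by linarith) (by norm_num)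
  have hlog0 : 0 ≤ Real.log (100 * C) := Real.log_nonneg (by linarith)
  refine ⟨12 * (Real.log (100 * C) + 2 / η) / δ ^ 2, by positivity, fun s hs hs2 => ?_⟩
  have h1 : 1 / 2 + δ ≤ s.re := by
    have := min_le_left (σ₀ - 1 / 2) (1 / 2 : ℝ)
    linarith
  refine (G_bound_aux hRH δ hδ0 (min_le_right _ _) C hC hgr s h1 hs2).trans ?_
  have ht : (1 : ℝ) ≤ 1 + |s.im| := by linarith [abs_nonneg s.im]
  have ht1 : (1 : ℝ) ≤ (1 + |s.im|) ^ η := Real.one_le_rpow ht hη.le
  have h2 : Real.log (100 * C * (1 + |s.im|) ^ 2) ≤ (Real.log (100 * C) + 2 / η) * (1 + |s.im|) ^ η := by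
    rw [Real.log_mul (by positivity) (by positivity), Real.log_pow]
    have h3 := Real.log_le_rpow_div (x := 1 + |s.im|) (by linarith) hη
    have h4 : Real.log (100 * C) ≤ Real.log (100 * C) * (1 + |s.im|) ^ η :=
      le_mul_of_one_le_right hlog0 ht1
    push_cast
    calc Real.log (100 * C) + 2 * Real.log (1 + |s.im|) ≤ Real.log (100 * C) * (1 + |s.im|) ^ η +
          2 * ((1 + |s.im|) ^ η / η) := by linarith
      _ = _ := by ring
  have h5 : (0 : ℝ) ≤ δ ^ 2 := by positivity
  calc 12 * Real.log (100 * C * (1 + |s.im|) ^ 2) / δ ^ 2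
      ≤ 12 * ((Real.log (100 * C) + 2 / η) * (1 + |s.im|) ^ η) / δ ^ 2 :=
        div_le_div_of_nonneg_right (mul_le_mul_of_nonneg_left h2 (by norm_num)) h5
    _ = _ := by ring

end Pool.Agent.MP_a187e6.MSZeta
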