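import Pool.Agent.MP_a187e6.MSRepr

open Filter Topology MeasureTheory
open scoped ArithmeticFunction.vonMangoldt

namespace Pool.Agent.MP_a187e6.MSMean

open MSZeta MSKernel MSRepr

/-- second difference of `P` -/
noncomputable def D (h u : ℝ) : ℝ := P (u + 2 * h) - 2 * P (u + h) + P u

lemma ratio_bound (h : ℝ) (hh : 0 < h) (hh1 : h ≤ 1) (s : ℂ) (hs0 : 0 < s.re) (hs1 : s.re ≤ 1)
    (l : ℝ) (hl0 : 0 ≤ l) (hl1 : l ≤ 1) :
    ‖(Complex.exp (h * s) - 1) / s‖ ≤ 4 * (h ^ (1 - l) * ‖s‖ ^ (-l)) := by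
  have hs : s ≠ 0 := by rintro rfl; simp at hs0
  have hsn : 0 < ‖s‖ := norm_pos_iff.mpr hs
  have hprod : 0 ≤ h ^ (1 - l) * ‖s‖ ^ (-l) := by positivity
  rw [norm_div, div_le_iff₀ hsn]
  have hnorm : ‖(h : ℂ) * s‖ = h * ‖s‖ := by
    rw [norm_mul, Complex.norm_real, Real.norm_eq_abs, abs_of_pos hh]
  rcases le_total (h * ‖s‖) 1 with hc | hc
  · -- small
    have h1 : ‖Complex.exp (h * s) - 1‖ ≤ 2 * (h * ‖s‖) := by
      have := Complex.norm_exp_sub_one_le (x := (h : ℂ) * s) (by rw [hnorm]; exact hc)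
      rwa [hnorm] at this
    refine h1.trans ?_
    -- h ≤ h^(1-l) * ‖s‖^(-l)
    have h2 : h ^ l ≤ ‖s‖ ^ (-l) := by
      rw [Real.rpow_neg hsn.le, le_inv_comm₀ (by positivity) (by positivity)]
      have h3 : ‖s‖ ≤ h⁻¹ := by
        rw [le_inv_comm₀ hsn hh]
        rw [← one_div, le_div_iff₀ hsn]; exact hc
      calc ‖s‖ ^ l ≤ (h⁻¹) ^ l := Real.rpow_le_rpow hsn.le h3 hl0
        _ = (h ^ l)⁻¹ := Real.inv_rpow hh.le l
    have h4 : h ≤ h ^ (1 - l) * ‖s‖ ^ (-l) := by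
      calc h = h ^ (1 - l) * h ^ l := by
            rw [← Real.rpow_add hh]; simp
        _ ≤ _ := mul_le_mul_of_nonneg_left h2 (by positivity)
    nlinarith
  · -- large
    have h1 : ‖Complex.exp (h * s) - 1‖ ≤ 4 := by
      refine (norm_sub_le _ _).trans ?_
      rw [norm_one, Complex.norm_exp]
      have h2 : ((h : ℂ) * s).re = h * s.re := by simp
      rw [h2]
      have h3 : Real.exp (h * s.re) ≤ Real.exp 1 := by
        apply Real.exp_le_exp.mpr
        nlinarith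
      have h4 := Real.exp_one_lt_d9
      linarith
    refine h1.trans ?_
    have h2 : ‖s‖⁻¹ ≤ h := by
      rw [inv_le_comm₀ hsn hh, ← one_div, div_le_iff₀ hh]
      linarith
    have h3 : 1 ≤ h ^ (1 - l) * ‖s‖ ^ (-l) * ‖s‖ := by
      have h5 : ‖s‖ ^ (-l) * ‖s‖ = ‖s‖ ^ (1 - l) := by
        nth_rewrite 2 [← Real.rpow_one ‖s‖]
        rw [← Real.rpow_add hsn]; congr 1; ring
      rw [mul_assoc, h5, ← Real.mul_rpow hh.le hsn.le]
      exact Real.one_le_rpow hc (by linarith)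
    nlinarith

/-- the frequency side of the second difference -/
noncomputable def f (σ h t : ℝ) : ℂ :=
  (Complex.exp (h * (σ + t * Complex.I)) - 1) ^ 2 * W (σ + t * Complex.I)

lemma line_re (σ t : ℝ) : (σ + t * Complex.I : ℂ).re = σ := by simp
lemma line_im (σ t : ℝ) : (σ + t * Complex.I : ℂ).im = t := by simp

lemma continuous_f (hRH : RiemannHypothesis) (σ h : ℝ) (hσ : 1 / 2 < σ) : Continuous (f σ h) := by
  unfold f
  apply Continuous.mul (by fun_prop)
  have : ContinuousOn W {w : ℂ | 1 / 2 < w.re} := (differentiableOn_W hRH).continuousOn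
  apply this.comp_continuous (by fun_prop)
  intro t
  simp only [Set.mem_ofPred_eq, line_re]
  exact hσ

theorem f_bounds (hRH : RiemannHypothesis) (σ : ℝ) (hσ : 1 / 2 < σ) (hσ1 : σ ≤ 1) (η : ℝ)
    (hη : 0 < η) (hη1 : η ≤ 1 / 4) :
    ∃ C : ℝ, 0 < C ∧ ∀ h : ℝ, 0 < h → h ≤ 1 → ∀ t : ℝ,
      ‖f σ h t‖ ≤ C * (1 + |t|) ^ (-(3 / 2) : ℝ) ∧
      ‖f σ h t‖ ^ 2 ≤ C * h ^ (3 - 4 * η) * (1 + |t|) ^ (-(1 + 2 * η)) := by
  obtain ⟨C, hC, hb⟩ := W_bound hRH σ hσ η hη
  refine ⟨256 * C + 256 * 4 ^ (1 + 4 * η) * C ^ 2, by positivity, fun h hh hh1 t => ?_⟩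
  set s : ℂ := (σ + t * Complex.I : ℂ) with hs
  have hsre : s.re = σ := line_re σ t
  have hsim : s.im = t := line_im σ t
  have hs0 : s ≠ 0 := line_ne_zero σ t (by linarith)
  have hsn : 0 < ‖s‖ := norm_pos_iff.mpr hs0
  have hlow : (1 + |t|) / 4 ≤ ‖s‖ := sq_lower σ t hσ.le
  have ht0 : (0 : ℝ) < 1 + |t| := by positivity
  have ht1 : (1 : ℝ) ≤ 1 + |t| := by linarith [abs_nonneg t]
  obtain ⟨hG, hW⟩ := hb s (by rw [hsre]) (by rw [hsre]; linarith)
  rw [hsim] at hG hW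
  constructor
  · -- crude
    have h1 : ‖Complex.exp (h * s) - 1‖ ≤ 4 := by
      refine (norm_sub_le _ _).trans ?_
      rw [norm_one, Complex.norm_exp]
      have h2 : ((h : ℂ) * s).re = h * s.re := by simp
      rw [h2, hsre]
      have h3 : Real.exp (h * σ) ≤ Real.exp 1 := by
        apply Real.exp_le_exp.mpr
        nlinarith
      have h4 := Real.exp_one_lt_d9
      linarith
    unfold f
    rw [norm_mul, norm_pow]
    have h5 : ‖Complex.exp (h * s) - 1‖ ^ 2 ≤ 16 := by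
      have := pow_le_pow_left₀ (norm_nonneg _) h1 2
      linarith
    have h6 : (1 + |t|) ^ (η - 2) ≤ (1 + |t|) ^ (-(3 / 2) : ℝ) :=
      Real.rpow_le_rpow_of_exponent_le ht1 (by linarith)
    calc ‖Complex.exp (h * s) - 1‖ ^ 2 * ‖W s‖ ≤ 16 * (16 * C * (1 + |t|) ^ (η - 2)) :=
          mul_le_mul h5 hW (norm_nonneg _) (by norm_num)
      _ ≤ 16 * (16 * C * (1 + |t|) ^ (-(3 / 2) : ℝ)) := by
          apply mul_le_mul_of_nonneg_left _ (by norm_num)
          exact mul_le_mul_of_nonneg_left h6 (by positivity)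
      _ = (256 * C) * (1 + |t|) ^ (-(3 / 2) : ℝ) := by ring
      _ ≤ _ := by
          apply mul_le_mul_of_nonneg_right _ (by positivity)
          have : 0 ≤ 256 * (4 : ℝ) ^ (1 + 4 * η) * C ^ 2 := by positivity
          linarith
  · set l : ℝ := (1 + 4 * η) / 4 with hl
    have hl0 : 0 ≤ l := by rw [hl]; positivity
    have hl1 : l ≤ 1 := by rw [hl]; linarith
    have hr := ratio_bound h hh hh1 s (by rw [hsre]; linarith) (by rw [hsre]; exact hσ1) l hl0 hl1
    have hf : f σ h t = -(((Complex.exp (h * s) - 1) / s) ^ 2 * (1 + G s)) := by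
      unfold f W
      rw [← hs]
      field_simp
    rw [hf, norm_neg, norm_mul, norm_pow, mul_pow, ← pow_mul]
    have h4 : ‖(Complex.exp (h * s) - 1) / s‖ ^ (2 * 2) ≤
        256 * h ^ (3 - 4 * η) * (4 ^ (1 + 4 * η) * (1 + |t|) ^ (-(1 + 4 * η))) := by
      have h5 := pow_le_pow_left₀ (norm_nonneg _) hr (2 * 2)
      refine h5.trans ?_
      rw [mul_pow, mul_pow, ← Real.rpow_mul_natCast hh.le, ← Real.rpow_mul_natCast hsn.le]
      have e1 : (1 - l) * ((2 * 2 : ℕ) : ℝ) = 3 - 4 * η := by rw [hl]; push_cast; ring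
      have e2 : (-l) * ((2 * 2 : ℕ) : ℝ) = -(1 + 4 * η) := by rw [hl]; push_cast; ring
      rw [e1, e2]
      have h6 : ‖s‖ ^ (-(1 + 4 * η)) ≤ 4 ^ (1 + 4 * η) * (1 + |t|) ^ (-(1 + 4 * η)) := by
        have h7 : ‖s‖ ^ (-(1 + 4 * η)) ≤ ((1 + |t|) / 4) ^ (-(1 + 4 * η)) :=
          Real.rpow_le_rpow_of_nonpos (by positivity) hlow (by linarith)
        refine h7.trans (le_of_eq ?_)
        rw [Real.div_rpow ht0.le (by norm_num), Real.rpow_neg (by norm_num : (0 : ℝ) ≤ 4), div_inv_eq_mul]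
        ring
      calc (4 : ℝ) ^ (2 * 2) * (h ^ (3 - 4 * η) * ‖s‖ ^ (-(1 + 4 * η)))
          ≤ (4 : ℝ) ^ (2 * 2) * (h ^ (3 - 4 * η) * (4 ^ (1 + 4 * η) * (1 + |t|) ^ (-(1 + 4 * η)))) := by
            gcongr
        _ = _ := by norm_num; ring
    have h8 : ‖1 + G s‖ ^ 2 ≤ C ^ 2 * (1 + |t|) ^ (2 * η) := by
      have h9 := pow_le_pow_left₀ (norm_nonneg _) hG 2
      refine h9.trans (le_of_eq ?_)
      rw [mul_pow, ← Real.rpow_mul_natCast ht0.le]
      congr 2
      push_cast; ring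
    calc ‖(Complex.exp (h * s) - 1) / s‖ ^ (2 * 2) * ‖1 + G s‖ ^ 2
        ≤ (256 * h ^ (3 - 4 * η) * (4 ^ (1 + 4 * η) * (1 + |t|) ^ (-(1 + 4 * η)))) *
          (C ^ 2 * (1 + |t|) ^ (2 * η)) := mul_le_mul h4 h8 (by positivity) (by positivity)
      _ = (256 * 4 ^ (1 + 4 * η) * C ^ 2) * h ^ (3 - 4 * η) *
          ((1 + |t|) ^ (-(1 + 4 * η)) * (1 + |t|) ^ (2 * η)) := by ring
      _ = (256 * 4 ^ (1 + 4 * η) * C ^ 2) * h ^ (3 - 4 * η) * (1 + |t|) ^ (-(1 + 2 * η)) := by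
          rw [← Real.rpow_add ht0]
          congr 2
          ring
      _ ≤ _ := by
          apply mul_le_mul_of_nonneg_right _ (by positivity)
          apply mul_le_mul_of_nonneg_right _ (by positivity)
          linarith

lemma D_repr (hRH : RiemannHypothesis) (σ : ℝ) (hσ : 1 / 2 < σ) (hσ1 : σ ≤ 1) (h u : ℝ) :
    ∫ t : ℝ, Complex.exp (t * Complex.I * u) * f σ h t =
      2 * Real.pi * ((D h u * Real.exp (-σ * u) : ℝ) : ℂ) := by
  have h0 := P_repr hRH σ hσ (by linarith) u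
  have h1 := P_repr hRH σ hσ (by linarith) (u + h)
  have h2 := P_repr hRH σ hσ (by linarith) (u + 2 * h)
  obtain ⟨C, hC, hb⟩ := W_bound hRH σ hσ (1 / 2) (by norm_num)
  have hWc : Continuous (fun t : ℝ => W (σ + t * Complex.I)) := by
    have : ContinuousOn W {w : ℂ | 1 / 2 < w.re} := (differentiableOn_W hRH).continuousOn
    apply this.comp_continuous (by fun_prop)
    intro t
    simp only [Set.mem_ofPred_eq, line_re]
    exact hσ
  have hint : ∀ v : ℝ, Integrable (fun t : ℝ => Complex.exp ((σ + t * Complex.I) * v) *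
      W (σ + t * Complex.I)) := by
    intro v
    apply integrable_of_decay _ _ (Real.exp (σ * v) * (16 * C)) (3 / 2) (by norm_num)
    · intro t
      rw [norm_mul, Complex.norm_exp, mul_assoc, Complex.re_mul_ofReal, line_re]
      apply mul_le_mul_of_nonneg_left _ (Real.exp_pos _).le
      have := (hb (σ + t * Complex.I) (by rw [line_re]) (by rw [line_re]; linarith)).2
      rw [line_im] at this
      norm_num at this ⊢
      exact this
    · apply Continuous.mul (by fun_prop) hWc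
  have hcomb : ∀ t : ℝ, Complex.exp (t * Complex.I * u) * f σ h t = Complex.exp (-(σ : ℂ) * u) *
      ((Complex.exp ((σ + t * Complex.I) * ((u + 2 * h : ℝ) : ℂ)) * W (σ + t * Complex.I) -
        2 * (Complex.exp ((σ + t * Complex.I) * ((u + h : ℝ) : ℂ)) * W (σ + t * Complex.I))) +
        Complex.exp ((σ + t * Complex.I) * u) * W (σ + t * Complex.I)) := by
    intro t
    unfold f
    have e1 : Complex.exp ((σ + t * Complex.I) * ((u + 2 * h : ℝ) : ℂ)) =
        Complex.exp (σ * u) * Complex.exp (t * Complex.I * u) *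
          Complex.exp (h * (σ + t * Complex.I)) ^ 2 := by
      rw [← Complex.exp_nat_mul, ← Complex.exp_add, ← Complex.exp_add]
      congr 1
      push_cast
      ring
    have e2 : Complex.exp ((σ + t * Complex.I) * ((u + h : ℝ) : ℂ)) =
        Complex.exp (σ * u) * Complex.exp (t * Complex.I * u) *
          Complex.exp (h * (σ + t * Complex.I)) := by
      rw [← Complex.exp_add, ← Complex.exp_add]
      congr 1
      push_cast
      ring
    have e3 : Complex.exp ((σ + t * Complex.I) * u) =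
        Complex.exp (σ * u) * Complex.exp (t * Complex.I * u) := by
      rw [← Complex.exp_add]
      congr 1
      ring
    have e4 : Complex.exp (-(σ : ℂ) * u) * Complex.exp (σ * u) = 1 := by
      rw [← Complex.exp_add]; simp
    rw [e1, e2, e3]
    linear_combination (-(Complex.exp (t * Complex.I * u) * W (σ + t * Complex.I) *
      (Complex.exp (h * (σ + t * Complex.I)) - 1) ^ 2)) * e4
  simp_rw [hcomb]
  have hA : Integrable (fun t : ℝ =>
      Complex.exp ((σ + t * Complex.I) * ((u + 2 * h : ℝ) : ℂ)) * W (σ + t * Complex.I) -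
        2 * (Complex.exp ((σ + t * Complex.I) * ((u + h : ℝ) : ℂ)) * W (σ + t * Complex.I))) :=
    (hint (u + 2 * h)).sub ((hint (u + h)).const_mul 2)
  rw [integral_const_mul, integral_add hA (hint u),
    integral_sub (hint (u + 2 * h)) ((hint (u + h)).const_mul 2), integral_const_mul, h0, h1, h2]
  unfold D
  push_cast
  ring_nf

/-- **Mean square** of the second differences, under RH. -/
theorem mean_square (hRH : RiemannHypothesis) (σ : ℝ) (hσ : 1 / 2 < σ) (hσ1 : σ ≤ 1) (η : ℝ)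
    (hη : 0 < η) (hη1 : η ≤ 1 / 4) :
    ∃ C : ℝ, 0 < C ∧ ∀ h : ℝ, 0 < h → h ≤ 1 →
      ∫⁻ u : ℝ, ENNReal.ofReal ((D h u * Real.exp (-σ * u)) ^ 2) ≤
        ENNReal.ofReal (C * h ^ (3 - 4 * η)) := by
  obtain ⟨C, hC, hb⟩ := f_bounds hRH σ hσ hσ1 η hη hη1
  have hI := MSShift.integrable_decay (1 + 2 * η) (by linarith)
  set I : ℝ := ∫ t : ℝ, (1 + |t|) ^ (-(1 + 2 * η)) with hIdef
  have hI0 : 0 ≤ I := integral_nonneg fun t => by positivity
  refine ⟨C * I + 1, by positivity, fun h hh hh1 => ?_⟩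
  have hfc := continuous_f hRH σ h hσ
  have hfi : Integrable (f σ h) :=
    integrable_of_decay _ hfc C (3 / 2) (by norm_num) (fun t => (hb h hh hh1 t).1)
  have hf2 : MemLp (f σ h) 2 := by
    rw [memLp_two_iff_integrable_sq_norm hfc.aestronglyMeasurable]
    refine Integrable.mono' (hI.const_mul (C * h ^ (3 - 4 * η))) (by fun_prop) ?_
    apply Eventually.of_forall
    intro t
    rw [Real.norm_eq_abs, abs_of_nonneg (by positivity)]
    exact (hb h hh hh1 t).2
  have hpl := plancherel (f σ h) hfi hf2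
  simp_rw [D_repr hRH σ hσ hσ1] at hpl
  have h2π : (0 : ℝ) < 2 * Real.pi := by positivity
  have hl : ∀ u : ℝ, ‖(2 * Real.pi * ((D h u * Real.exp (-σ * u) : ℝ) : ℂ) : ℂ)‖ₑ ^ 2 =
      ENNReal.ofReal ((2 * Real.pi) ^ 2) * ENNReal.ofReal ((D h u * Real.exp (-σ * u)) ^ 2) := by
    intro u
    rw [← ofReal_norm, ← ENNReal.ofReal_pow (norm_nonneg _), norm_mul,
      Complex.norm_real, mul_pow, Real.norm_eq_abs (D h u * Real.exp (-σ * u)), sq_abs,
      ENNReal.ofReal_mul (by positivity)]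
    congr 2
    simp [abs_of_pos Real.pi_pos]
  have hr : ∫⁻ t : ℝ, ‖f σ h t‖ₑ ^ 2 ≤ ENNReal.ofReal (C * h ^ (3 - 4 * η) * I) := by
    rw [hIdef, ← integral_const_mul, ofReal_integral_eq_lintegral_ofReal (hI.const_mul _)
      (Eventually.of_forall fun t => by positivity)]
    apply lintegral_mono
    intro t
    simp only
    rw [← ofReal_norm, ← ENNReal.ofReal_pow (norm_nonneg _)]
    exact ENNReal.ofReal_le_ofReal (hb h hh hh1 t).2
  simp_rw [hl] at hpl
  rw [lintegral_const_mul' _ _ ENNReal.ofReal_ne_top] at hpl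
  have hkey : ENNReal.ofReal ((2 * Real.pi) ^ 2) *
      ∫⁻ u : ℝ, ENNReal.ofReal ((D h u * Real.exp (-σ * u)) ^ 2) ≤
      ENNReal.ofReal ((2 * Real.pi) ^ 2) * ENNReal.ofReal ((C * I + 1) * h ^ (3 - 4 * η)) := by
    rw [hpl, ← ENNReal.ofReal_mul (by positivity)]
    refine (mul_le_mul_right hr _).trans ?_
    rw [← ENNReal.ofReal_mul h2π.le]
    apply ENNReal.ofReal_le_ofReal
    have h5 : 0 < h ^ (3 - 4 * η) := by positivity
    have h6 : (1 : ℝ) ≤ 2 * Real.pi := by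
      have := Real.pi_gt_three; linarith
    have h7 : C * h ^ (3 - 4 * η) * I ≤ (C * I + 1) * h ^ (3 - 4 * η) := by nlinarith
    have h8 : 2 * Real.pi ≤ (2 * Real.pi) ^ 2 := by nlinarith
    have h9 : 0 ≤ (C * I + 1) * h ^ (3 - 4 * η) := by positivity
    calc 2 * Real.pi * (C * h ^ (3 - 4 * η) * I) ≤ 2 * Real.pi * ((C * I + 1) * h ^ (3 - 4 * η)) :=
          mul_le_mul_of_nonneg_left h7 h2π.le
      _ ≤ _ := mul_le_mul_of_nonneg_right h8 h9
  exact (ENNReal.mul_le_mul_iff_right (by simp) ENNReal.ofReal_ne_top).mp hkey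

end Pool.Agent.MP_a187e6.MSMean
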