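import Pool.Agent.MP_a187e6.MSLogDeriv
import Pool.Agent.MP_a187e6.MSKernel

open Filter Topology MeasureTheory
open scoped ArithmeticFunction.vonMangoldt

namespace Pool.Agent.MP_a187e6.MSRepr

open MSZeta MSKernel

lemma G_eq (s : ℂ) (hs : 1 < s.re) : G s = deriv riemannZeta s / riemannZeta s + 1 / (s - 1) := by
  have hs1 : s ≠ 1 := by rintro rfl; simp at hs
  have hs1' : s - 1 ≠ 0 := sub_ne_zero.mpr hs1
  have hz : riemannZeta s ≠ 0 := riemannZeta_ne_zero_of_one_le_re hs.le
  have hZeq : Z =ᶠ[𝓝 s] fun w => (w - 1) * riemannZeta w := by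
    have hopen : IsOpen {w : ℂ | 1 < w.re} := isOpen_half 1
    filter_upwards [hopen.mem_nhds hs] with w hw
    exact Z_eq_of_one_lt_re w hw
  have hd : deriv Z s = riemannZeta s + (s - 1) * deriv riemannZeta s := by
    rw [hZeq.deriv_eq]
    have h1 : HasDerivAt (fun w : ℂ => w - 1) 1 s := (hasDerivAt_id s).sub_const 1
    have h2 := (differentiableAt_riemannZeta hs1).hasDerivAt
    have h3 := h1.mul h2
    have h4 := h3.deriv
    rw [one_mul] at h4
    exact h4
  unfold G
  rw [hd, Z_eq_of_one_lt_re s hs]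
  field_simp
  ring

/-- summation over `n` of the kernel, on the line `Re s = 3/2` -/
lemma hasSum_kernel (u : ℝ) :
    HasSum (fun n : ℕ => (Λ n : ℂ) * (2 * Real.pi * ((max (u - Real.log n) 0 : ℝ) : ℂ)))
      (∫ t : ℝ, Complex.exp ((((3 / 2 : ℝ) : ℂ) + t * Complex.I) * u) *
        ((-G (((3 / 2 : ℝ) : ℂ) + t * Complex.I) + 1 / (((3 / 2 : ℝ) : ℂ) + t * Complex.I - 1)) /
          (((3 / 2 : ℝ) : ℂ) + t * Complex.I) ^ 2)) := by
  set σ : ℝ := 3 / 2 with hσ
  have hσ1 : (1 : ℝ) / 2 ≤ σ := by rw [hσ]; norm_num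
  have hσ0 : (0 : ℝ) < σ := by rw [hσ]; norm_num
  -- the individual terms
  set F : ℕ → ℝ → ℂ := fun n t => (Λ n : ℂ) * (Complex.exp (((σ : ℂ) + t * Complex.I) *
    ((u - Real.log n : ℝ) : ℂ)) * (1 / ((σ : ℂ) + t * Complex.I) ^ 2)) with hF
  have hdec : Integrable (fun t : ℝ => (16 : ℝ) * (1 + |t|) ^ (-2 : ℝ)) :=
    (MSShift.integrable_decay 2 (by norm_num)).const_mul 16
  have hFcont : ∀ n, Continuous (F n) := by
    intro n
    rw [hF]
    apply Continuous.mul continuous_const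
    apply Continuous.mul (by fun_prop)
    apply Continuous.div continuous_const (by fun_prop)
    intro t
    exact pow_ne_zero 2 (line_ne_zero σ t hσ0)
  have hFnorm : ∀ n t, ‖F n t‖ ≤ (Λ n * Real.exp (σ * (u - Real.log n))) *
      (16 * (1 + |t|) ^ (-2 : ℝ)) := by
    intro n t
    simp only [hF]
    rw [norm_mul, norm_mul, Complex.norm_exp, Complex.norm_real, Real.norm_eq_abs,
      abs_of_nonneg ArithmeticFunction.vonMangoldt_nonneg, mul_assoc]
    have h1 : (((σ : ℂ) + t * Complex.I) * ((u - Real.log n : ℝ) : ℂ)).re =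
        σ * (u - Real.log n) := by
      rw [Complex.re_mul_ofReal]; simp
    rw [h1]
    apply mul_le_mul_of_nonneg_left _ ArithmeticFunction.vonMangoldt_nonneg
    exact mul_le_mul_of_nonneg_left (sq_decay σ t hσ1) (Real.exp_pos _).le
  have hFint : ∀ n, Integrable (F n) := by
    intro n
    exact Integrable.mono' (hdec.const_mul _) (hFcont n).aestronglyMeasurable
      (Eventually.of_forall (hFnorm n))
  have hsummΛ : Summable (fun n : ℕ => Λ n * Real.exp (σ * (u - Real.log n))) := by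
    have h1 : LSeriesSummable (fun n => (Λ n : ℂ)) (σ : ℂ) :=
      ArithmeticFunction.LSeriesSummable_vonMangoldt (by simp only [Complex.ofReal_re, hσ]; norm_num)
    have h2 := h1.norm.mul_left (Real.exp (σ * u))
    refine h2.congr (fun n => ?_)
    rcases Nat.eq_zero_or_pos n with rfl | hn
    · simp
    · rw [LSeries.norm_term_eq, if_neg hn.ne', Complex.norm_real, Real.norm_eq_abs,
        abs_of_nonneg ArithmeticFunction.vonMangoldt_nonneg, Complex.ofReal_re]
      rw [Real.rpow_def_of_pos (by exact_mod_cast hn), mul_sub, Real.exp_sub,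
        mul_comm (Real.log n) σ]
      ring
  have hsum : Summable (fun n => ∫ t, ‖F n t‖) := by
    refine Summable.of_nonneg_of_le (fun n => integral_nonneg fun t => norm_nonneg _) (fun n => ?_)
      (hsummΛ.mul_right (∫ t : ℝ, (16 : ℝ) * (1 + |t|) ^ (-2 : ℝ)))
    rw [← integral_const_mul]
    exact integral_mono (hFint n).norm (hdec.const_mul _) (hFnorm n)
  have hmain := hasSum_integral_of_summable_integral_norm hFint hsum
  have hlhs : (fun n : ℕ => ∫ t, F n t) =
      fun n : ℕ => (Λ n : ℂ) * (2 * Real.pi * ((max (u - Real.log n) 0 : ℝ) : ℂ)) := by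
    funext n
    simp only [hF]
    rw [integral_const_mul, kernel_pos σ hσ1]
  rw [hlhs] at hmain
  convert! hmain using 1
  congr 1
  funext t
  set s : ℂ := (σ : ℂ) + t * Complex.I with hs
  have hsre : 1 < s.re := by
    simp only [hs, Complex.add_re, Complex.ofReal_re, Complex.mul_re, Complex.I_re, mul_zero,
      Complex.ofReal_im, Complex.I_im, mul_one, sub_self, add_zero, hσ]
    norm_num
  have h1 : -G s + 1 / (s - 1) = LSeries (fun n => (Λ n : ℂ)) s := by
    rw [ArithmeticFunction.LSeries_vonMangoldt_eq_deriv_riemannZeta_div hsre, G_eq s hsre]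
    ring
  rw [h1, LSeries, ← tsum_div_const, ← tsum_mul_left]
  apply tsum_congr
  intro n
  simp only [hF]
  rcases Nat.eq_zero_or_pos n with rfl | hn
  · simp
  · rw [LSeries.term_of_ne_zero hn.ne']
    have hnc : (n : ℂ) ≠ 0 := by exact_mod_cast hn.ne'
    rw [Complex.cpow_def_of_ne_zero hnc, Complex.ofReal_sub, mul_sub, Complex.exp_sub,
      ← Complex.natCast_log, mul_comm ((Real.log n : ℝ) : ℂ) s, ← hs]
    ring

/-- `P(u) = ∑ Λ(n) (u - log n)_+ - (e^u - 1)_+` -/
noncomputable def P (u : ℝ) : ℝ :=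
  ∑' n : ℕ, Λ n * max (u - Real.log n) 0 - max (Real.exp u - 1) 0

/-- the analytic function `-(1 + G(s))/s²` -/
noncomputable def W (s : ℂ) : ℂ := -(1 + G s) / s ^ 2

lemma W_line (σ t : ℝ) (hσ : 1 < σ) : W (σ + t * Complex.I) =
    (-G (σ + t * Complex.I) + 1 / (σ + t * Complex.I - 1)) / (σ + t * Complex.I) ^ 2 -
      1 / ((σ + t * Complex.I) * (σ + t * Complex.I - 1)) := by
  have h0 : (σ + t * Complex.I : ℂ) ≠ 0 := line_ne_zero σ t (by linarith)
  have h1 : (σ + t * Complex.I - 1 : ℂ) ≠ 0 := by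
    intro h
    have := congrArg Complex.re h
    simp at this
    linarith
  unfold W
  field_simp
  ring

lemma differentiableOn_W (hRH : RiemannHypothesis) :
    DifferentiableOn ℂ W {w : ℂ | 1 / 2 < w.re} := by
  unfold W
  apply DifferentiableOn.div
  · exact ((differentiableOn_G hRH).const_add 1).neg
  · fun_prop
  · intro w hw
    apply pow_ne_zero
    rintro rfl
    simp at hw
    linarith

/-- decay of `W` on vertical lines -/
lemma W_bound (hRH : RiemannHypothesis) (σ₀ : ℝ) (h : 1 / 2 < σ₀) (η : ℝ) (hη : 0 < η) :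
    ∃ C : ℝ, 0 < C ∧ ∀ s : ℂ, σ₀ ≤ s.re → s.re ≤ 3 / 2 → ‖1 + G s‖ ≤ C * (1 + |s.im|) ^ η ∧
      ‖W s‖ ≤ 16 * C * (1 + |s.im|) ^ (η - 2) := by
  obtain ⟨C, hC, hb⟩ := G_bound hRH σ₀ h η hη
  refine ⟨1 + C, by linarith, fun s hs hs2 => ?_⟩
  have h1 : ‖1 + G s‖ ≤ (1 + C) * (1 + |s.im|) ^ η := by
    refine (norm_add_le _ _).trans ?_
    rw [norm_one, add_mul, one_mul]
    have : (1 : ℝ) ≤ (1 + |s.im|) ^ η := Real.one_le_rpow (by linarith [abs_nonneg s.im]) hη.le
    linarith [hb s hs hs2]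
  refine ⟨h1, ?_⟩
  have h2 := sq_decay s.re s.im (by linarith)
  rw [Complex.re_add_im] at h2
  unfold W
  have h3 : -(1 + G s) / s ^ 2 = -((1 + G s) * (1 / s ^ 2)) := by ring
  rw [h3, norm_neg, norm_mul]
  have h4 : (1 + |s.im|) ^ (η - 2) = (1 + |s.im|) ^ η * (1 + |s.im|) ^ (-2 : ℝ) := by
    rw [← Real.rpow_add (by positivity)]
    congr 1
  rw [h4]
  calc ‖1 + G s‖ * ‖1 / s ^ 2‖ ≤ ((1 + C) * (1 + |s.im|) ^ η) * (16 * (1 + |s.im|) ^ (-2 : ℝ)) :=
        mul_le_mul h1 h2 (norm_nonneg _) (by positivity)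
    _ = _ := by ring

/-- **Representation** of `P` on the line `Re s = σ₀`, under RH. -/
theorem P_repr (hRH : RiemannHypothesis) (σ₀ : ℝ) (h1 : 1 / 2 < σ₀) (h2 : σ₀ ≤ 3 / 2) (u : ℝ) :
    ∫ t : ℝ, Complex.exp ((σ₀ + t * Complex.I) * u) * W (σ₀ + t * Complex.I) =
      2 * Real.pi * (P u : ℂ) := by
  obtain ⟨C, hC, hb⟩ := W_bound hRH σ₀ h1 (1 / 2) (by norm_num)
  have hshift := MSShift.vertical_shift σ₀ (3 / 2) h2 (fun s => Complex.exp (s * u) * W s)
    (by
      apply DifferentiableOn.mul (by fun_prop)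
      apply (differentiableOn_W hRH).mono
      intro s hs
      exact lt_of_lt_of_le h1 hs.1)
    (Real.exp (3 / 2 * |u|) * (16 * C)) (3 / 2) (by norm_num) (by
      intro s hs1 hs2
      rw [norm_mul, Complex.norm_exp, mul_assoc]
      apply mul_le_mul _ _ (norm_nonneg _) (Real.exp_pos _).le
      · apply Real.exp_le_exp.mpr
        rw [Complex.re_mul_ofReal]
        calc s.re * u ≤ |s.re * u| := le_abs_self _
          _ = |s.re| * |u| := abs_mul _ _
          _ ≤ 3 / 2 * |u| := by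
            apply mul_le_mul_of_nonneg_right _ (abs_nonneg _)
            rw [abs_of_pos (by linarith)]; exact hs2
      · have := (hb s hs1 hs2).2
        norm_num at this ⊢
        exact this)
  rw [hshift]
  -- split at `Re s = 3/2`
  have hsum := hasSum_kernel u
  have hexp := kernel_exp (3 / 2) le_rfl u
  have hW : ∀ t : ℝ, Complex.exp ((((3 / 2 : ℝ) : ℂ) + t * Complex.I) * u) *
      W (((3 / 2 : ℝ) : ℂ) + t * Complex.I) =
      Complex.exp ((((3 / 2 : ℝ) : ℂ) + t * Complex.I) * u) *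
        ((-G (((3 / 2 : ℝ) : ℂ) + t * Complex.I) + 1 / (((3 / 2 : ℝ) : ℂ) + t * Complex.I - 1)) /
          (((3 / 2 : ℝ) : ℂ) + t * Complex.I) ^ 2) -
      Complex.exp ((((3 / 2 : ℝ) : ℂ) + t * Complex.I) * u) *
        (1 / ((((3 / 2 : ℝ) : ℂ) + t * Complex.I) * (((3 / 2 : ℝ) : ℂ) + t * Complex.I - 1))) := by
    intro t
    rw [W_line (3 / 2) t (by norm_num)]
    ring
  have hcexp : Continuous (fun t : ℝ => Complex.exp ((((3 / 2 : ℝ) : ℂ) + t * Complex.I) * u)) := by
    fun_prop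
  have hexpnorm : ∀ t : ℝ, ‖Complex.exp ((((3 / 2 : ℝ) : ℂ) + t * Complex.I) * u)‖ =
      Real.exp (3 / 2 * u) := by
    intro t
    rw [Complex.norm_exp, Complex.re_mul_ofReal]
    simp
  have hline : Continuous (fun t : ℝ => (((3 / 2 : ℝ) : ℂ) + t * Complex.I)) := by fun_prop
  have hne : ∀ t : ℝ, (((3 / 2 : ℝ) : ℂ) + t * Complex.I) ≠ 0 := fun t =>
    line_ne_zero (3 / 2) t (by norm_num)
  have hne1 : ∀ t : ℝ, (((3 / 2 : ℝ) : ℂ) + t * Complex.I - 1) ≠ 0 := by
    intro t h
    have := congrArg Complex.re h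
    simp at this
    norm_num at this
  have hint2 : Integrable (fun t : ℝ => Complex.exp ((((3 / 2 : ℝ) : ℂ) + t * Complex.I) * u) *
        (1 / ((((3 / 2 : ℝ) : ℂ) + t * Complex.I) * (((3 / 2 : ℝ) : ℂ) + t * Complex.I - 1)))) := by
    apply integrable_of_decay _ _ (Real.exp (3 / 2 * u) * 16) 2 (by norm_num)
    · intro t
      rw [norm_mul, hexpnorm, mul_assoc]
      exact mul_le_mul_of_nonneg_left (mul_decay (3 / 2) t le_rfl) (Real.exp_pos _).le
    · apply hcexp.mul
      apply Continuous.div continuous_const (by fun_prop)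
      intro t
      exact mul_ne_zero (hne t) (hne1 t)
  have hint0 : Integrable (fun t : ℝ => Complex.exp ((((3 / 2 : ℝ) : ℂ) + t * Complex.I) * u) *
      W (((3 / 2 : ℝ) : ℂ) + t * Complex.I)) := by
    apply integrable_of_decay _ _ (Real.exp (3 / 2 * u) * (16 * C)) (3 / 2) (by norm_num)
    · intro t
      rw [norm_mul, hexpnorm, mul_assoc]
      apply mul_le_mul_of_nonneg_left _ (Real.exp_pos _).le
      have := (hb (((3 / 2 : ℝ) : ℂ) + t * Complex.I) (by simp; exact h2) (by simp)).2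
      simp at this
      norm_num at this ⊢
      exact this
    · apply hcexp.mul
      have : ContinuousOn W {w : ℂ | 1 / 2 < w.re} := (differentiableOn_W hRH).continuousOn
      apply this.comp_continuous hline
      intro t
      simp only [Set.mem_ofPred_eq, Complex.add_re, Complex.ofReal_re, Complex.mul_re, Complex.I_re,
        mul_zero, Complex.ofReal_im, Complex.I_im, mul_one, sub_self, add_zero]
      norm_num
  have hint1 : Integrable (fun t : ℝ => Complex.exp ((((3 / 2 : ℝ) : ℂ) + t * Complex.I) * u) *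
        ((-G (((3 / 2 : ℝ) : ℂ) + t * Complex.I) + 1 / (((3 / 2 : ℝ) : ℂ) + t * Complex.I - 1)) /
          (((3 / 2 : ℝ) : ℂ) + t * Complex.I) ^ 2)) := by
    refine (hint0.add hint2).congr (Eventually.of_forall fun t => ?_)
    simp only [Pi.add_apply]
    rw [hW t]; ring
  simp_rw [hW]
  rw [integral_sub hint1 hint2, hexp, ← hsum.tsum_eq]
  unfold P
  have hreal : ∑' n : ℕ, (Λ n : ℂ) * (2 * Real.pi * ((max (u - Real.log n) 0 : ℝ) : ℂ)) =
      2 * Real.pi * ((∑' n : ℕ, Λ n * max (u - Real.log n) 0 : ℝ) : ℂ) := by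
    rw [Complex.ofReal_tsum, ← tsum_mul_left]
    apply tsum_congr
    intro n
    push_cast
    ring
  rw [hreal]
  push_cast
  ring

/-- summability of the series defining `P` -/
lemma summable_P (u : ℝ) : Summable (fun n : ℕ => Λ n * max (u - Real.log n) 0) := by
  apply summable_of_ne_finset_zero (s := Finset.range (⌊Real.exp u⌋₊ + 1))
  intro n hn
  rw [Finset.mem_range, not_lt] at hn
  have hn1 : Real.exp u < n := by
    have := Nat.lt_floor_add_one (Real.exp u)
    have h2 : ((⌊Real.exp u⌋₊ : ℕ) : ℝ) + 1 ≤ n := by exact_mod_cast hn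
    linarith
  have h3 : u < Real.log n := by
    rw [Real.lt_log_iff_exp_lt (lt_trans (Real.exp_pos u) hn1)]
    exact hn1
  rw [max_eq_right (by linarith), mul_zero]

end Pool.Agent.MP_a187e6.MSRepr
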