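import Mathlib

open Filter Topology MeasureTheory

namespace Pool.Agent.MP_a187e6.MSShift

lemma integrable_decay (p : ℝ) (hp : 1 < p) : Integrable (fun t : ℝ => (1 + |t|) ^ (-p)) := by
  have := integrable_one_add_norm (E := ℝ) (μ := volume) (r := p) (by simpa using hp)
  simpa using this

/-- shift of a vertical contour -/
theorem vertical_shift (a b : ℝ) (hab : a ≤ b) (F : ℂ → ℂ)
    (hF : DifferentiableOn ℂ F {s : ℂ | a ≤ s.re ∧ s.re ≤ b}) (C p : ℝ) (hp : 1 < p)
    (hb : ∀ s : ℂ, a ≤ s.re → s.re ≤ b → ‖F s‖ ≤ C * (1 + |s.im|) ^ (-p)) :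
    ∫ t : ℝ, F (a + t * Complex.I) = ∫ t : ℝ, F (b + t * Complex.I) := by
  have hint : ∀ σ : ℝ, a ≤ σ → σ ≤ b → Integrable (fun t : ℝ => F (σ + t * Complex.I)) := by
    intro σ h1 h2
    have hcont : Continuous (fun t : ℝ => F (σ + t * Complex.I)) := by
      have h3 : ContinuousOn F {s : ℂ | a ≤ s.re ∧ s.re ≤ b} := hF.continuousOn
      apply h3.comp_continuous (by fun_prop)
      intro t
      simp [h1, h2]
    refine Integrable.mono' ((integrable_decay p hp).const_mul C) hcont.aestronglyMeasurable ?_
    apply Eventually.of_forall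
    intro t
    have := hb (σ + t * Complex.I) (by simp [h1]) (by simp [h2])
    simpa using this
  have hlimA := intervalIntegral_tendsto_integral (hint a le_rfl hab) tendsto_neg_atTop_atBot
    tendsto_id (μ := volume)
  have hlimB := intervalIntegral_tendsto_integral (hint b hab le_rfl) tendsto_neg_atTop_atBot
    tendsto_id (μ := volume)
  have hsub := hlimB.sub hlimA
  have hzero : Tendsto (fun T : ℝ => (∫ t in (-T)..(id T), F (b + t * Complex.I)) -
      ∫ t in (-T)..(id T), F (a + t * Complex.I)) atTop (𝓝 0) := by
    have hC : 0 ≤ C := by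
      have := (norm_nonneg _).trans (hb a (by simp) (by simpa using hab))
      simpa using this
    have hdecay : Tendsto (fun T : ℝ => 2 * (C * (1 + T) ^ (-p) * |b - a|)) atTop (𝓝 0) := by
      have h1 : Tendsto (fun T : ℝ => (1 + T) ^ (-p)) atTop (𝓝 0) :=
        (tendsto_rpow_neg_atTop (by linarith)).comp (tendsto_atTop_add_const_left _ 1 tendsto_id)
      have h2 := ((h1.const_mul C).mul_const |b - a|).const_mul 2
      simpa using h2
    refine squeeze_zero_norm' ?_ hdecay
    filter_upwards [eventually_ge_atTop 0] with T hT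
    have hrect := Complex.integral_boundary_rect_eq_zero_of_differentiableOn F
      (a + (-T : ℝ) * Complex.I) (b + T * Complex.I) (by
        apply hF.mono
        intro s hs
        rw [Complex.mem_reProdIm] at hs
        have h1 := hs.1
        simp only [Complex.add_re, Complex.ofReal_re, Complex.mul_re, Complex.I_re, mul_zero,
          Complex.ofReal_im, Complex.I_im, mul_one, sub_self, add_zero] at h1
        rw [Set.uIcc_of_le hab] at h1
        exact h1)
    simp only [Complex.add_re, Complex.ofReal_re, Complex.mul_re, Complex.I_re, mul_zero,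
      Complex.ofReal_im, Complex.I_im, mul_one, sub_self, add_zero, Complex.add_im,
      Complex.mul_im, zero_add] at hrect
    have hhor : ∀ y : ℝ, |y| = T → ‖∫ x in a..b, F (x + y * Complex.I)‖ ≤
        C * (1 + T) ^ (-p) * |b - a| := by
      intro y hy
      apply intervalIntegral.norm_integral_le_of_norm_le_const
      intro x hx
      rw [Set.uIoc_of_le hab] at hx
      have := hb (x + y * Complex.I) (by simp [hx.1.le]) (by simp [hx.2])
      simpa [hy] using this
    have h1 := hhor (-T) (by rw [abs_neg, abs_of_nonneg hT])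
    have h2 := hhor T (abs_of_nonneg hT)
    have h3 : (∫ t in (-T)..(id T), F (b + t * Complex.I)) -
        ∫ t in (-T)..(id T), F (a + t * Complex.I) =
        -Complex.I * ((∫ x in a..b, F (x + T * Complex.I)) -
          ∫ x in a..b, F (x + (-T : ℝ) * Complex.I)) := by
      simp only [id, smul_eq_mul] at hrect ⊢
      have hI : Complex.I * Complex.I = -1 := Complex.I_mul_I
      linear_combination (-Complex.I) * hrect + ((∫ t in (-T)..T, F (b + t * Complex.I)) -
        ∫ t in (-T)..T, F (a + t * Complex.I)) * hI
    rw [h3, norm_mul, norm_neg, Complex.norm_I, one_mul]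
    refine (norm_sub_le _ _).trans ?_
    linarith
  have := tendsto_nhds_unique hsub hzero
  exact (sub_eq_zero.mp this).symm

end Pool.Agent.MP_a187e6.MSShift
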