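import Mathlib

open Filter Topology Finset

namespace Pool.Agent.MP_a187e6.MSZeta

/-- local Lipschitz bound for `t ↦ t^(-s)` -/
lemma cpow_sub_bound (a t : ℝ) (ha : 1 ≤ a) (ht : t ∈ Set.Icc a (a + 1)) (s : ℂ) (hs : 0 < s.re) :
    ‖((a : ℝ) : ℂ) ^ (-s) - ((t : ℝ) : ℂ) ^ (-s)‖ ≤ ‖s‖ * a ^ (-s.re - 1) := by
  have hder : ∀ t ∈ Set.Icc a (a + 1), HasDerivWithinAt (fun t : ℝ => (t : ℂ) ^ (-s))
      (-s * (t : ℂ) ^ (-s - 1)) (Set.Icc a (a + 1)) t := by
    intro t ht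
    have ht0 : t ≠ 0 := by
      have := ht.1
      intro h0; rw [h0] at this; linarith
    by_cases hs0 : -s = 0
    · rw [hs0]; simp only [Complex.cpow_zero, zero_mul]
      exact (hasDerivAt_const t (1:ℂ)).hasDerivWithinAt
    · exact (hasDerivAt_ofReal_cpow_const ht0 hs0).hasDerivWithinAt
  have hbound : ∀ t ∈ Set.Icc a (a + 1), ‖-s * (t : ℂ) ^ (-s - 1)‖ ≤ ‖s‖ * a ^ (-s.re - 1) := by
    intro t ht
    have ht0 : 0 < t := by linarith [ht.1]
    rw [norm_mul, norm_neg, Complex.norm_cpow_eq_rpow_re_of_pos ht0]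
    apply mul_le_mul_of_nonneg_left _ (norm_nonneg _)
    simp only [Complex.sub_re, Complex.neg_re, Complex.one_re]
    exact Real.rpow_le_rpow_of_nonpos (by linarith) ht.1 (by linarith)
  have h := (convex_Icc a (a + 1)).norm_image_sub_le_of_norm_hasDerivWithin_le hder hbound
    (Set.left_mem_Icc.mpr (by linarith)) ht
  rw [← norm_neg, neg_sub]
  refine h.trans ?_
  apply mul_le_of_le_one_right (by positivity)
  rw [Real.norm_eq_abs, abs_of_nonneg (by linarith [ht.1])]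
  linarith [ht.2]

/-- terms of the series for `(s-1) ζ(s)` -/
noncomputable def T (n : ℕ) (s : ℂ) : ℂ :=
  (s - 1) * ((n + 1 : ℕ) : ℂ) ^ (-s) + ((n + 2 : ℕ) : ℂ) ^ (1 - s) - ((n + 1 : ℕ) : ℂ) ^ (1 - s)

lemma T_bound (n : ℕ) (s : ℂ) (hs : 0 < s.re) :
    ‖T n s‖ ≤ ‖s - 1‖ * ‖s‖ * ((n + 1 : ℕ) : ℝ) ^ (-s.re - 1) := by
  unfold T
  set a : ℝ := ((n + 1 : ℕ) : ℝ) with ha
  have ha1 : 1 ≤ a := by rw [ha]; exact_mod_cast (by omega : 1 ≤ n + 1)
  have e1 : (((n + 1 : ℕ) : ℂ)) = ((a : ℝ) : ℂ) := by rw [ha]; push_cast; ring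
  have e2 : (((n + 2 : ℕ) : ℂ)) = ((a + 1 : ℝ) : ℂ) := by rw [ha]; push_cast; ring
  rw [e1, e2]
  have hder : ∀ t ∈ Set.Icc a (a + 1), HasDerivWithinAt
      (fun t : ℝ => (s - 1) * ((a : ℝ) : ℂ) ^ (-s) * (t : ℂ) + (t : ℂ) ^ (1 - s))
      ((s - 1) * (((a : ℝ) : ℂ) ^ (-s) - (t : ℂ) ^ (-s))) (Set.Icc a (a + 1)) t := by
    intro t ht
    have ht0 : t ≠ 0 := by
      have := ht.1
      intro h0; rw [h0] at this; linarith
    have h1 : HasDerivAt (fun t : ℝ => (s - 1) * ((a : ℝ) : ℂ) ^ (-s) * (t : ℂ))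
        ((s - 1) * ((a : ℝ) : ℂ) ^ (-s)) t := by
      have := (Complex.ofRealCLM.hasDerivAt (x := t)).const_mul ((s - 1) * ((a : ℝ) : ℂ) ^ (-s))
      simpa using this
    have h2 : HasDerivAt (fun t : ℝ => (t : ℂ) ^ (1 - s)) ((1 - s) * (t : ℂ) ^ (-s)) t := by
      by_cases hs0 : 1 - s = 0
      · rw [hs0]; simp only [Complex.cpow_zero, zero_mul]
        exact hasDerivAt_const t (1:ℂ)
      · have := hasDerivAt_ofReal_cpow_const ht0 hs0
        rwa [show 1 - s - 1 = -s by ring] at this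
    have := (h1.add h2).hasDerivWithinAt (s := Set.Icc a (a + 1))
    convert! this using 1
    ring
  have hbound : ∀ t ∈ Set.Icc a (a + 1), ‖(s - 1) * (((a : ℝ) : ℂ) ^ (-s) - (t : ℂ) ^ (-s))‖ ≤
      ‖s - 1‖ * ‖s‖ * a ^ (-s.re - 1) := by
    intro t ht
    rw [norm_mul, mul_assoc]
    exact mul_le_mul_of_nonneg_left (cpow_sub_bound a t ha1 ht s hs) (norm_nonneg _)
  have h := (convex_Icc a (a + 1)).norm_image_sub_le_of_norm_hasDerivWithin_le hder hbound
    (Set.left_mem_Icc.mpr (by linarith)) (Set.right_mem_Icc.mpr (by linarith))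
  rw [add_sub_cancel_left, norm_one, mul_one] at h
  refine le_trans (le_of_eq ?_) h
  congr 1
  push_cast
  ring

lemma summable_bound (σ : ℝ) (hσ : 0 < σ) :
    Summable (fun k : ℕ => ((k + 1 : ℕ) : ℝ) ^ (-σ - 1)) := by
  have h : Summable (fun n : ℕ => (n : ℝ) ^ (-σ - 1)) := by
    rw [Real.summable_nat_rpow]; linarith
  exact h.comp_injective (i := fun k : ℕ => k + 1) (fun a b hab => by simpa using hab)

lemma summable_T (s : ℂ) (hs : 0 < s.re) : Summable (fun n => T n s) :=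
  Summable.of_norm_bounded ((summable_bound s.re hs).mul_left (‖s - 1‖ * ‖s‖))
    (fun k => T_bound k s hs)

/-- `(s-1) ζ(s)` on the half plane `Re s > 0`, as an analytic function -/
noncomputable def Z (s : ℂ) : ℂ := 1 + ∑' n, T n s

lemma differentiable_T (n : ℕ) : Differentiable ℂ (T n) := by
  unfold T
  intro s
  have h1 : DifferentiableAt ℂ (fun s : ℂ => ((n + 1 : ℕ) : ℂ) ^ (-s)) s := by
    apply DifferentiableAt.const_cpow differentiableAt_id.neg
    left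
    exact_mod_cast (by omega : n + 1 ≠ 0)
  have h2 : DifferentiableAt ℂ (fun s : ℂ => ((n + 2 : ℕ) : ℂ) ^ (1 - s)) s := by
    apply DifferentiableAt.const_cpow (differentiableAt_id.const_sub 1)
    left
    exact_mod_cast (by omega : n + 2 ≠ 0)
  have h3 : DifferentiableAt ℂ (fun s : ℂ => ((n + 1 : ℕ) : ℂ) ^ (1 - s)) s := by
    apply DifferentiableAt.const_cpow (differentiableAt_id.const_sub 1)
    left
    exact_mod_cast (by omega : n + 1 ≠ 0)
  exact (((differentiableAt_id.sub_const 1).mul h1).add h2).sub h3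

lemma differentiableAt_Z (s : ℂ) (hs : 0 < s.re) : DifferentiableAt ℂ Z s := by
  set U : Set ℂ := {w | s.re / 2 < w.re} ∩ Metric.ball 0 (‖s‖ + 1) with hU
  have hUo : IsOpen U := (isOpen_lt continuous_const Complex.continuous_re).inter Metric.isOpen_ball
  have hsU : s ∈ U := ⟨by simp only [Set.mem_ofPred_eq]; linarith, by simp⟩
  have hσ : 0 < s.re / 2 := by linarith
  have hdiff : DifferentiableOn ℂ (fun w => ∑' k, T k w) U := by
    apply Complex.differentiableOn_tsum_of_summable_norm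
      (u := fun k : ℕ => ((‖s‖ + 1 + 1) * (‖s‖ + 1)) * ((k + 1 : ℕ) : ℝ) ^ (-(s.re / 2) - 1))
    · exact (summable_bound _ hσ).mul_left _
    · intro k
      exact (differentiable_T k).differentiableOn
    · exact hUo
    · intro k w hw
      have hw1 : s.re / 2 < w.re := hw.1
      have hw2 : ‖w‖ < ‖s‖ + 1 := by simpa using hw.2
      refine (T_bound k w (by linarith)).trans ?_
      have hw3 : ‖w - 1‖ ≤ ‖s‖ + 1 + 1 := by
        refine (norm_sub_le _ _).trans ?_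
        rw [norm_one]; linarith
      have h4 : ‖w - 1‖ * ‖w‖ ≤ (‖s‖ + 1 + 1) * (‖s‖ + 1) :=
        mul_le_mul hw3 hw2.le (norm_nonneg _) (by positivity)
      apply mul_le_mul h4 _ (by positivity) (by positivity)
      apply Real.rpow_le_rpow_of_exponent_le
      · exact_mod_cast (by omega : 1 ≤ k + 1)
      · linarith
  exact ((differentiableAt_const 1).add ((hdiff s hsU).differentiableAt (hUo.mem_nhds hsU)))

lemma Z_eq_of_one_lt_re (s : ℂ) (hs : 1 < s.re) : Z s = (s - 1) * riemannZeta s := by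
  have hsum : Summable (fun n : ℕ => 1 / (n : ℂ) ^ s) := Complex.summable_one_div_nat_cpow.mpr hs
  have hsum2 : Summable (fun n : ℕ => 1 / ((n + 1 : ℕ) : ℂ) ^ s) :=
    (summable_nat_add_iff (f := fun n : ℕ => 1 / (n : ℂ) ^ s) 1).mpr hsum
  have hz2 : riemannZeta s = ∑' n : ℕ, 1 / ((n + 1 : ℕ) : ℂ) ^ s := by
    have := zeta_eq_tsum_one_div_nat_add_one_cpow hs
    rw [this]
    push_cast
    rfl
  have hS1 : Summable (fun n : ℕ => (s - 1) * ((n + 1 : ℕ) : ℂ) ^ (-s)) := by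
    apply Summable.mul_left
    refine hsum2.congr (fun n => ?_)
    rw [Complex.cpow_neg, one_div]
  have hT := summable_T s (by linarith)
  have hS2 : Summable (fun n : ℕ => ((n + 2 : ℕ) : ℂ) ^ (1 - s) - ((n + 1 : ℕ) : ℂ) ^ (1 - s)) := by
    refine (hT.sub hS1).congr (fun n => ?_)
    unfold T; ring
  have htel : ∑' n : ℕ, (((n + 2 : ℕ) : ℂ) ^ (1 - s) - ((n + 1 : ℕ) : ℂ) ^ (1 - s)) = -1 := by
    have h1 := hS2.hasSum.tendsto_sum_nat
    have h2 : ∀ N : ℕ, ∑ n ∈ range N, (((n + 2 : ℕ) : ℂ) ^ (1 - s) - ((n + 1 : ℕ) : ℂ) ^ (1 - s)) =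
        ((N + 1 : ℕ) : ℂ) ^ (1 - s) - 1 := by
      intro N
      have := Finset.sum_range_sub (fun n : ℕ => ((n + 1 : ℕ) : ℂ) ^ (1 - s)) N
      simp only [zero_add, Nat.cast_one, Complex.one_cpow] at this
      rw [← this]
    simp_rw [h2] at h1
    have h3 : Tendsto (fun N : ℕ => ((N + 1 : ℕ) : ℂ) ^ (1 - s)) atTop (𝓝 0) := by
      rw [tendsto_zero_iff_norm_tendsto_zero]
      have h4 : ∀ N : ℕ, ‖((N + 1 : ℕ) : ℂ) ^ (1 - s)‖ = ((N + 1 : ℕ) : ℝ) ^ (-(s.re - 1)) := by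
        intro N
        rw [Complex.norm_natCast_cpow_of_pos (Nat.succ_pos N)]
        congr 1
        simp
      simp_rw [h4]
      exact ((tendsto_rpow_neg_atTop (by linarith : 0 < s.re - 1)).comp
        tendsto_natCast_atTop_atTop).comp (tendsto_add_atTop_nat 1)
    have h5 : Tendsto (fun N : ℕ => ((N + 1 : ℕ) : ℂ) ^ (1 - s) - 1) atTop (𝓝 (0 - 1)) :=
      h3.sub_const 1
    have := tendsto_nhds_unique h1 h5
    rw [this]; ring
  have hTeq : ∑' n, T n s = (s - 1) * riemannZeta s + -1 := by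
    rw [← htel, hz2, ← tsum_mul_left]
    have : (fun n : ℕ => (s - 1) * (1 / ((n + 1 : ℕ) : ℂ) ^ s)) =
        (fun n : ℕ => (s - 1) * ((n + 1 : ℕ) : ℂ) ^ (-s)) := by
      funext n
      rw [Complex.cpow_neg, one_div]
    rw [this, ← hS1.tsum_add hS2]
    apply tsum_congr
    intro n
    unfold T; ring
  unfold Z
  rw [hTeq]; ring

lemma Z_one : Z 1 = 1 := by
  unfold Z T
  simp

lemma Z_eq (s : ℂ) (hs : 0 < s.re) (hs1 : s ≠ 1) : Z s = (s - 1) * riemannZeta s := by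
  set A : Set ℂ := {w | 1 < w.re} with hA
  set B : Set ℂ := {w | 0 < w.re ∧ 0 < w.im} with hB
  set B' : Set ℂ := {w | 0 < w.re ∧ w.im < 0} with hB'
  set D : Set ℂ := {w | 0 < w.re ∧ w.re < 1} with hD
  have hAo : IsOpen A := isOpen_lt continuous_const Complex.continuous_re
  have hBo : IsOpen B := (isOpen_lt continuous_const Complex.continuous_re).inter
    (isOpen_lt continuous_const Complex.continuous_im)
  have hB'o : IsOpen B' := (isOpen_lt continuous_const Complex.continuous_re).inter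
    (isOpen_lt Complex.continuous_im continuous_const)
  have hDo : IsOpen D := (isOpen_lt continuous_const Complex.continuous_re).inter
    (isOpen_lt Complex.continuous_re continuous_const)
  have hAc : IsPreconnected A := (convex_halfSpace_re_gt 1).isPreconnected
  have hBc : IsPreconnected B :=
    ((convex_halfSpace_re_gt 0).inter (convex_halfSpace_im_gt 0)).isPreconnected
  have hB'c : IsPreconnected B' :=
    ((convex_halfSpace_re_gt 0).inter (convex_halfSpace_im_lt 0)).isPreconnected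
  have hDc : IsPreconnected D :=
    ((convex_halfSpace_re_gt 0).inter (convex_halfSpace_re_lt 1)).isPreconnected
  have hAB : IsPreconnected (A ∪ B) := by
    apply hAc.union (⟨2, 1⟩ : ℂ) _ _ hBc
    · simp [hA]
    · simp [hB]
  have hABB' : IsPreconnected ((A ∪ B) ∪ B') := by
    apply hAB.union (⟨2, -1⟩ : ℂ) _ _ hB'c
    · simp [hA]
    · simp [hB']
  have hABD : IsPreconnected (((A ∪ B) ∪ B') ∪ D) := by
    apply hABB'.union (⟨1/2, 1⟩ : ℂ) _ _ hDc
    · left; right; simp [hB]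
    · simp only [hD, Set.mem_ofPred_eq]; norm_num
  have hopen : IsOpen (((A ∪ B) ∪ B') ∪ D) := ((hAo.union hBo).union hB'o).union hDo
  have hpos : ∀ w ∈ ((A ∪ B) ∪ B') ∪ D, 0 < w.re := by
    rintro w (((hw | hw) | hw) | hw)
    · simp only [hA, Set.mem_ofPred_eq] at hw; linarith
    · exact hw.1
    · exact hw.1
    · exact hw.1
  have hne1 : ∀ w ∈ ((A ∪ B) ∪ B') ∪ D, w ≠ 1 := by
    rintro w (((hw | hw) | hw) | hw) rfl
    · simp [hA] at hw
    · simp [hB] at hw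
    · simp [hB'] at hw
    · simp [hD] at hw
  have han1 : AnalyticOnNhd ℂ Z (((A ∪ B) ∪ B') ∪ D) :=
    DifferentiableOn.analyticOnNhd
      (fun w hw => (differentiableAt_Z w (hpos w hw)).differentiableWithinAt) hopen
  have han2 : AnalyticOnNhd ℂ (fun s => (s - 1) * riemannZeta s) (((A ∪ B) ∪ B') ∪ D) := by
    apply DifferentiableOn.analyticOnNhd _ hopen
    intro w hw
    apply DifferentiableAt.differentiableWithinAt
    apply DifferentiableAt.mul
    · exact differentiableAt_id.sub_const 1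
    · exact differentiableAt_riemannZeta (hne1 w hw)
  have hEq : Set.EqOn Z (fun s => (s - 1) * riemannZeta s) (((A ∪ B) ∪ B') ∪ D) := by
    apply han1.eqOn_of_preconnected_of_eventuallyEq han2 hABD (z₀ := 2)
    · left; left; left; simp [hA]
    · have : A ∈ 𝓝 (2 : ℂ) := hAo.mem_nhds (by simp [hA])
      filter_upwards [this] with w hw
      exact Z_eq_of_one_lt_re w hw
  apply hEq
  rcases lt_trichotomy s.re 1 with h | h | h
  · right; exact ⟨hs, h⟩
  · rcases lt_trichotomy s.im 0 with h' | h' | h'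
    · left; right; exact ⟨hs, h'⟩
    · exact absurd (Complex.ext h h') hs1
    · left; left; right; exact ⟨hs, h'⟩
  · left; left; left; exact h

/-- polynomial growth of `Z` -/
lemma Z_growth : ∃ C : ℝ, 1 ≤ C ∧ ∀ s : ℂ, 1 / 2 ≤ s.re → ‖Z s‖ ≤ C * (1 + ‖s‖) ^ 2 := by
  set B : ℝ := ∑' k : ℕ, ((k + 1 : ℕ) : ℝ) ^ (-(1 / 2 : ℝ) - 1) with hB
  have hB0 : 0 ≤ B := tsum_nonneg (fun k => by positivity)
  refine ⟨1 + B, by linarith, fun s hs => ?_⟩
  have h1 : ‖∑' n, T n s‖ ≤ ‖s - 1‖ * ‖s‖ * B := by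
    rw [hB, ← tsum_mul_left]
    apply tsum_of_norm_bounded ((summable_bound (1/2) (by norm_num)).mul_left _).hasSum
    intro k
    refine (T_bound k s (by linarith)).trans ?_
    apply mul_le_mul_of_nonneg_left _ (by positivity)
    apply Real.rpow_le_rpow_of_exponent_le
    · exact_mod_cast (by omega : 1 ≤ k + 1)
    · linarith
  have h2 : ‖s - 1‖ ≤ 1 + ‖s‖ := by
    refine (norm_sub_le _ _).trans ?_
    rw [norm_one]; linarith
  have h3 : ‖s - 1‖ * ‖s‖ ≤ (1 + ‖s‖) ^ 2 := by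
    rw [sq]
    apply mul_le_mul h2 (by linarith) (norm_nonneg _) (by positivity)
  unfold Z
  calc ‖1 + ∑' n, T n s‖ ≤ ‖(1 : ℂ)‖ + ‖∑' n, T n s‖ := norm_add_le _ _
    _ ≤ 1 + ‖s - 1‖ * ‖s‖ * B := by rw [norm_one]; linarith
    _ ≤ (1 + ‖s‖) ^ 2 + (1 + ‖s‖) ^ 2 * B := by
        have h4 : (1 : ℝ) ≤ (1 + ‖s‖) ^ 2 := by nlinarith [norm_nonneg s]
        have := mul_le_mul_of_nonneg_right h3 hB0
        linarith
    _ = (1 + B) * (1 + ‖s‖) ^ 2 := by ring

lemma Z_lower (t : ℝ) : 1 / 4 ≤ ‖Z (2 + t * Complex.I)‖ := by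
  set s : ℂ := 2 + t * Complex.I with hs
  have hre : s.re = 2 := by simp [hs]
  rw [Z_eq_of_one_lt_re s (by rw [hre]; norm_num), norm_mul]
  have h1 : 1 ≤ ‖s - 1‖ := by
    have := Complex.abs_re_le_norm (s - 1)
    rw [Complex.sub_re, hre, Complex.one_re] at this
    norm_num at this
    exact this
  have h2 : 1 / 4 ≤ ‖riemannZeta s‖ := by
    have hgt : 1 < s.re := by rw [hre]; norm_num
    have hsum : Summable (fun n : ℕ => 1 / (n : ℂ) ^ s) :=
      Complex.summable_one_div_nat_cpow.mpr hgt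
    have hsum2 : Summable (fun n : ℕ => 1 / ((n + 2 : ℕ) : ℂ) ^ s) :=
      (summable_nat_add_iff (f := fun n : ℕ => 1 / (n : ℂ) ^ s) 2).mpr hsum
    have hz : riemannZeta s = 1 + ∑' n : ℕ, 1 / ((n + 2 : ℕ) : ℂ) ^ s := by
      rw [zeta_eq_tsum_one_div_nat_cpow hgt, ← hsum.sum_add_tsum_nat_add 2]
      congr 1
      rw [Finset.sum_range_succ, Finset.sum_range_succ, Finset.sum_range_zero]
      simp only [Nat.cast_zero, Nat.cast_one, Complex.one_cpow, zero_add]
      rw [Complex.zero_cpow (by intro h; rw [h] at hre; norm_num at hre)]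
      norm_num
    have hr : HasSum (fun n : ℕ => 1 / ((n : ℝ)) ^ 2) (Real.pi ^ 2 / 6) := hasSum_zeta_two
    have hr2 : Summable (fun n : ℕ => 1 / (((n + 2 : ℕ) : ℝ)) ^ 2) :=
      (summable_nat_add_iff (f := fun n : ℕ => 1 / ((n : ℝ)) ^ 2) 2).mpr hr.summable
    have hr3 : ∑' n : ℕ, 1 / (((n + 2 : ℕ) : ℝ)) ^ 2 = Real.pi ^ 2 / 6 - 1 := by
      have := hr.summable.sum_add_tsum_nat_add 2
      rw [Finset.sum_range_succ, Finset.sum_range_succ, Finset.sum_range_zero, hr.tsum_eq] at this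
      norm_num at this
      have h' : ∑' n : ℕ, 1 / (((n + 2 : ℕ) : ℝ)) ^ 2 = ∑' i : ℕ, ((↑i + 2 : ℝ) ^ 2)⁻¹ := by
        apply tsum_congr; intro n; push_cast; rw [one_div]
      rw [h']
      linarith
    have h3 : ‖∑' n : ℕ, 1 / ((n + 2 : ℕ) : ℂ) ^ s‖ ≤ Real.pi ^ 2 / 6 - 1 := by
      rw [← hr3]
      apply tsum_of_norm_bounded hr2.hasSum
      intro n
      rw [norm_div, norm_one, Complex.norm_natCast_cpow_of_pos (by omega), hre]
      norm_num
    have hpi : Real.pi ^ 2 / 6 - 1 ≤ 3 / 4 := by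
      have := Real.pi_lt_d2
      have h0 := Real.pi_pos
      nlinarith
    rw [hz]
    have h4 : ‖(1 : ℂ)‖ ≤ ‖1 + ∑' n : ℕ, 1 / ((n + 2 : ℕ) : ℂ) ^ s‖ +
        ‖∑' n : ℕ, 1 / ((n + 2 : ℕ) : ℂ) ^ s‖ := by
      have := norm_sub_le (1 + ∑' n : ℕ, 1 / ((n + 2 : ℕ) : ℂ) ^ s)
        (∑' n : ℕ, 1 / ((n + 2 : ℕ) : ℂ) ^ s)
      simpa using this
    rw [norm_one] at h4
    linarith
  nlinarith [norm_nonneg (riemannZeta s)]

end Pool.Agent.MP_a187e6.MSZeta
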