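import Pool.Agent.MP_a187e6.Params

/-! The construction under RH: a real completely multiplicative function all of whose cell sums
vanish. -/

namespace Pool.Agent.MP_a187e6

open Finset

lemma card_filter_not_spec {β : ℝ} {k₀ : ℕ} (𝒟 : Dead β k₀) (s : Finset ℕ)
    [DecidablePred (fun n : ℕ => n.Prime ∧ ¬ 𝒟.Spec n)] [DecidablePred (fun n : ℕ => n.Prime ∧ 𝒟.Spec n)] :
    (((s.filter Nat.Prime).card : ℕ) : ℝ) - ((s.filter (fun n => n.Prime ∧ 𝒟.Spec n)).card : ℝ) ≤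
      ((s.filter (fun n => n.Prime ∧ ¬ 𝒟.Spec n)).card : ℝ) := by
  classical
  have h1 : s.filter Nat.Prime ⊆ s.filter (fun n => n.Prime ∧ ¬ 𝒟.Spec n) ∪
      s.filter (fun n => n.Prime ∧ 𝒟.Spec n) := by
    intro n hn
    rw [Finset.mem_filter] at hn
    rw [Finset.mem_union, Finset.mem_filter, Finset.mem_filter]
    by_cases h : 𝒟.Spec n
    · exact Or.inr ⟨hn.1, hn.2, h⟩
    · exact Or.inl ⟨hn.1, hn.2, h⟩
  have h2 := (Finset.card_le_card h1).trans (Finset.card_union_le _ _)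
  have h3 : (((s.filter Nat.Prime).card : ℕ) : ℝ) ≤
      (((s.filter (fun n => n.Prime ∧ ¬ 𝒟.Spec n)).card +
        (s.filter (fun n => n.Prime ∧ 𝒟.Spec n)).card : ℕ) : ℝ) := by exact_mod_cast h2
  push_cast at h3
  linarith only [h3]

/-- Under RH there are a completely multiplicative real function and a sequence of cells with
vanishing sums. -/
theorem main_real (hRH : RiemannHypothesis) :
    ∃ β : ℝ, 0 < β ∧ β ≤ 1 / 1000 ∧ ∃ k₀ : ℕ, ∃ f : ℕ → ℝ, ∃ B : ℝ, 0 ≤ B ∧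
      (∀ p : ℕ, p.Prime → |f p| ≤ 1 / 2) ∧
      (∑ n ∈ Finset.Ico 1 (2 ^ (k₀ + 1)), cm f n = 0) ∧
      (∀ k : ℕ, k₀ < k → ∀ j < ncell β k, ∑ n ∈ cell β k j, cm f n = 0 ∧
        ∑ n ∈ cell β k j, |cm f n| ≤ B * (len β k * (2 : ℝ) ^ (-(1 - β / 6) * (k : ℝ)))) := by
  classical
  obtain ⟨β, hβ, hβ', c₁, hc₁, k₂, hD⟩ := many_elig
  obtain ⟨c₀, hc₀, kB, hB⟩ := few_prime_poor_cells hRH hβ hβ'
  set K₀ : ℕ := ⌈1 / (20 * β)⌉₊ with hK₀
  have hK : 1 / (20 * β) ≤ (K₀ : ℝ) := Nat.le_ceil _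
  set Cs : ℝ := 4 * 3 ^ K₀ with hCs
  have hCspos : 0 < Cs := by positivity
  set c : ℝ := min (c₁ / 2) (c₀ / 4) with hc
  have hcpos : 0 < c := by
    rw [hc]
    exact lt_min (by positivity) (by positivity)
  have hcc1 : c ≤ c₁ / 2 := min_le_left _ _
  have hcc0 : c ≤ c₀ / 4 := min_le_right _ _
  set ε : ℝ := c / (64 * 12 ^ K₀) with hε
  have hεpos : 0 < ε := by positivity
  obtain ⟨P₁, hP₁⟩ := closure hβ hβ' K₀ Cs ε hεpos
  obtain ⟨P₂, hP₂⟩ := initial_sum hβ hβ' K₀ Cs ε hεpos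
  set P : ℕ := max (max P₁ P₂) 7 with hP
  have hPP1 : P₁ ≤ P := (le_max_left _ _).trans (le_max_left _ _)
  have hPP2 : P₂ ≤ P := (le_max_right _ _).trans (le_max_left _ _)
  have hP7 : 7 ≤ P := le_max_right _ _
  obtain ⟨ka, hka⟩ := hP₁ P hPP1
  obtain ⟨kb, hkb⟩ := hP₂ P hPP2
  obtain ⟨kc, hkc⟩ := card_K_ge hβ hβ' hc₁ hD
  obtain ⟨kd, hkd⟩ := conf hβ hβ'
  obtain ⟨ke, hke⟩ := sparse hβ hβ'
  obtain ⟨kf, hkf⟩ := alpha_le hβ hβ' K₀ Cs
  have hkg : ∃ kg : ℕ, ∀ k : ℕ, kg ≤ k → (P : ℝ) ≤ (2 : ℝ) ^ (20 * β * (k : ℝ)) := by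
    obtain ⟨kg, hkg⟩ := exists_pow_mul_two_rpow_le 0 (a := 20 * β) (b := 1 / P) (by positivity)
      (by
        have : (0 : ℝ) < P := by
          have : 0 < P := by omega
          exact_mod_cast this
        positivity)
    refine ⟨kg, fun k hk => ?_⟩
    have h1 := hkg k hk
    have hPpos : (0 : ℝ) < P := by
      have : 0 < P := by omega
      exact_mod_cast this
    rw [pow_zero, one_mul, neg_mul, Real.rpow_neg (by norm_num), ← one_div,
      one_div_le_one_div (by positivity) hPpos] at h1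
    exact h1
  obtain ⟨kg, hkg⟩ := hkg
  obtain ⟨kh, hkh⟩ := exists_pow_mul_two_rpow_le 1 (a := β) (b := c₀ / 2) hβ (by positivity)
  obtain ⟨ki, hki⟩ := exists_pow_mul_two_rpow_le 1 (a := 30 * β) (b := c₀ / 8) (by positivity)
    (by positivity)
  obtain ⟨kl, hkl⟩ := exists_pow_mul_two_rpow_le 1 (a := 1 / 4) (b := ε / 8) (by positivity)
    (by positivity)
  obtain ⟨km, hkm⟩ := exists_pow_mul_two_rpow_le 3 (a := β / 6) (b := ε / 2) (by positivity)
    (by positivity)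
  obtain ⟨kn, hkn⟩ := exists_nat_gt (1 / (40 * β))
  obtain ⟨k₀, hk₀⟩ : ∃ k₀ : ℕ, ka ≤ k₀ ∧ kb ≤ k₀ ∧ kc ≤ k₀ ∧ kd ≤ k₀ ∧ ke ≤ k₀ ∧ kf ≤ k₀ ∧
      kg ≤ k₀ ∧ kh ≤ k₀ ∧ ki ≤ k₀ ∧ kl ≤ k₀ ∧ km ≤ k₀ ∧ kn ≤ k₀ ∧ kB ≤ k₀ ∧ 3 ≤ k₀ :=
    ⟨ka + kb + kc + kd + ke + kf + kg + kh + ki + kl + km + kn + kB + 3, by omega, by omega,
      by omega, by omega, by omega, by omega, by omega, by omega, by omega, by omega, by omega,
      by omega, by omega, by omega⟩
  obtain ⟨hka0, hkb0, hkc0, hkd0, hke0, hkf0, hkg0, hkh0, hki0, hkl0, hkm0, hkn0, hkB0, hk3⟩ := hk₀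
  have hk0pos : (0 : ℝ) < k₀ := by
    have : 0 < k₀ := by omega
    exact_mod_cast this
  set 𝒟 : Dead β k₀ := deadData β c₀ k₀ (fun k hk => hB k (by omega)) with h𝒟
  have hPk := hkg k₀ hkg0
  have hk40 : 1 ≤ 40 * β * (k₀ : ℝ) := by
    have h1 : (1 : ℝ) / (40 * β) < k₀ := by
      have : (kn : ℝ) ≤ k₀ := by exact_mod_cast hkn0
      linarith only [hkn, this]
    rw [div_lt_iff₀ (by positivity)] at h1
    linarith only [h1]
  have hP2 : P ≤ 2 ^ k₀ := by
    have h2 : (2 : ℝ) ^ (20 * β * (k₀ : ℝ)) ≤ (2 : ℝ) ^ (k₀ : ℝ) := by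
      apply Real.rpow_le_rpow_of_exponent_le (by norm_num)
      nlinarith only [hβ, hβ', hk40]
    rw [Real.rpow_natCast] at h2
    exact_mod_cast hPk.trans h2
  obtain ⟨sg, hsg1, hsg2, hsg3⟩ := exists_sg 𝒟 hβ hβ' hP7 hP2
  have hα : AlphaData 𝒟 P K₀ Cs (𝒟.maj P sg) :=
    𝒟.alphaData hβ hβ' hK hsg1 (by omega) hPk
  -- special primes in a cell
  have hspec_cell : ∀ k : ℕ, k₀ < k → ∀ j < ncell β k,
      (((cell β k j).filter (fun n => n.Prime ∧ 𝒟.Spec n)).card : ℝ) ≤ c₀ / 2 * len β k / k := by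
    intro k hk j hj
    have hkpos : (0 : ℝ) < k := by
      have : 0 < k := by omega
      exact_mod_cast this
    have hL : (0 : ℝ) < len β k := by exact_mod_cast len_pos β k
    have h1 := hkd k₀ hkd0 𝒟 k hk j hj ((cell β k j).filter (fun n => n.Prime ∧ 𝒟.Spec n))
      (Finset.filter_subset _ _) (by
        intro n hn
        rw [Finset.mem_filter] at hn
        obtain ⟨hmem, hp, k', j', m', hj', hK'⟩ := hn
        refine ⟨n, hp, dvd_rfl, ?_, k', j', m', hj', hK'.1, Or.inr ?_⟩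
        · have h2 := two_pow_le_of_mem_cell hmem
          have h3 : len β k < 2 ^ k := by
            have h4 := len_le hβ' k
            have h5 : (2 : ℝ) ^ ((1 / 2 - β / 3) * (k : ℝ)) < (2 : ℝ) ^ (k : ℝ) := by
              apply Real.rpow_lt_rpow_of_exponent_lt (by norm_num)
              nlinarith only [hkpos, hβ]
            rw [Real.rpow_natCast] at h5
            exact_mod_cast lt_of_le_of_lt h4 h5
          omega
        · rw [Nat.div_self hp.pos]
          intro hdvd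
          have := Nat.le_of_dvd one_pos hdvd
          have := hK'.1.2.2.1
          omega)
    refine h1.trans ?_
    have h2 := hkh k (by omega)
    rw [pow_one] at h2
    rw [le_div_iff₀ hkpos]
    calc len β k * (2 : ℝ) ^ (-β * (k : ℝ)) * k = len β k * (k * (2 : ℝ) ^ (-β * (k : ℝ))) := by ring
      _ ≤ len β k * (c₀ / 2) := mul_le_mul_of_nonneg_left h2 hL.le
      _ = _ := by ring
  have I : 𝒟.Inputs P K₀ sg ε c := by
    refine ⟨hβ, hβ', hK, by omega, hk40, hPk, hsg1, hεpos, hcpos, ?_, ?_, ?_, ?_, ?_, hsg2, hsg3,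
      ?_, ?_⟩
    · rw [hε]
      apply le_of_eq
      field_simp
    · intro k hk j hj s hs hs2
      exact hka k₀ hka0 𝒟 _ hα k hk j hj s hs hs2
    · intro s hs hs2
      exact hkb k₀ hkb0 𝒟 _ hα s hs hs2
    · -- card
      intro kj
      have hk1 : 1 ≤ kj.1.1 := by have := kj.2.1; omega
      have hkpos : (0 : ℝ) < kj.1.1 := by exact_mod_cast hk1
      have hL : (0 : ℝ) < len β kj.1.1 := by exact_mod_cast len_pos β kj.1.1
      by_cases hd : kj.1.2 ∈ 𝒟.D kj.1.1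
      · have h1 := hkc k₀ hkc0 𝒟 kj.1.1 kj.1.2 hd
        have h2 : 𝒟.ctrlOf P (some kj) = 𝒟.K kj.1.1 kj.1.2 := by
          simp only [Dead.ctrlOf, if_pos hd]
        rw [h2]
        refine le_trans ?_ h1
        apply div_le_div_of_nonneg_right _ hkpos.le
        exact mul_le_mul_of_nonneg_right hcc1 hL.le
      · have h2 : 𝒟.ctrlOf P (some kj) = (cell β kj.1.1 kj.1.2).filter
            (fun n => n.Prime ∧ ¬ 𝒟.Spec n) := by
          ext q
          rw [𝒟.mem_ctrl_alive hd, Finset.mem_filter]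
        rw [h2]
        refine le_trans ?_ (card_filter_not_spec 𝒟 _)
        have h3 := hspec_cell kj.1.1 kj.2.1 kj.1.2 kj.2.2
        have h4 : c₀ * len β kj.1.1 / kj.1.1 ≤
            (((cell β kj.1.1 kj.1.2).filter Nat.Prime).card : ℝ) := by
          by_contra hcon
          push Not at hcon
          apply hd
          show kj.1.2 ∈ deadSet β c₀ k₀ kj.1.1
          unfold deadSet
          rw [if_neg (by have := kj.2.1; omega), Finset.mem_filter, Finset.mem_range]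
          exact ⟨kj.2.2, hcon⟩
        have h5 : c * len β kj.1.1 / kj.1.1 ≤ c₀ / 2 * len β kj.1.1 / kj.1.1 := by
          apply div_le_div_of_nonneg_right _ hkpos.le
          apply mul_le_mul_of_nonneg_right _ hL.le
          linarith only [hcpos, hcc0]
        have h6 : c₀ * len β kj.1.1 / kj.1.1 - c₀ / 2 * len β kj.1.1 / kj.1.1 =
          c₀ / 2 * len β kj.1.1 / kj.1.1 := by ring
        linarith only [h3, h4, h5, h6]
    · -- card0
      have h1 := primes_block hβ hβ' hc₀ hk3 (hB k₀ hkB0)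
      have h2 : ((((Finset.Ico (2 ^ k₀) (2 ^ (k₀ + 1))).filter
          (fun n => n.Prime ∧ 𝒟.Spec n)).card : ℕ) : ℝ) ≤ c₀ / 8 * (2 : ℝ) ^ k₀ / k₀ := by
        have h3 := (hke k₀ hke0 𝒟 k₀ ((Finset.Ico (2 ^ k₀) (2 ^ (k₀ + 1))).filter
          (fun n => n.Prime ∧ 𝒟.Spec n)) (Finset.filter_subset _ _) (by
            intro p hp
            rw [Finset.mem_filter] at hp
            obtain ⟨_, hpp, k, j, m, hj, hK'⟩ := hp
            exact ⟨hpp, Or.inl ⟨k, j, m, hj, hK'.1⟩⟩)).1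
        refine h3.trans ?_
        have h4 := hki k₀ hki0
        rw [pow_one] at h4
        rw [le_div_iff₀ hk0pos]
        have h5 : (2 : ℝ) ^ ((1 - 30 * β) * (k₀ : ℝ)) =
            (2 : ℝ) ^ k₀ * (2 : ℝ) ^ (-(30 * β) * (k₀ : ℝ)) := by
          rw [← Real.rpow_natCast, ← Real.rpow_add (by norm_num)]
          congr 1
          ring
        rw [h5]
        calc (2 : ℝ) ^ k₀ * (2 : ℝ) ^ (-(30 * β) * (k₀ : ℝ)) * k₀
            = (2 : ℝ) ^ k₀ * (k₀ * (2 : ℝ) ^ (-(30 * β) * (k₀ : ℝ))) := by ring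
          _ ≤ (2 : ℝ) ^ k₀ * (c₀ / 8) := mul_le_mul_of_nonneg_left h4 (by positivity)
          _ = _ := by ring
      have h3 : 𝒟.ctrlOf P none = (Finset.Ico (2 ^ k₀) (2 ^ (k₀ + 1))).filter
          (fun n => n.Prime ∧ ¬ 𝒟.Spec n) := by
        ext q
        rw [𝒟.mem_ctrl_none, Finset.mem_filter, Finset.mem_Ico]
        constructor
        · rintro ⟨h4, h5⟩
          exact ⟨h4, h5.1, h5.2.2.1⟩
        · rintro ⟨h4, h5, h6⟩
          refine ⟨h4, h5, by omega, h6, ?_⟩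
          rintro ⟨k', j', hj', hmem⟩
          have h7 := pos_of_mem_D 𝒟 hj'
          have h8 := two_pow_le_of_mem_cell hmem
          have h9 : 2 ^ (k₀ + 1) ≤ 2 ^ k' := Nat.pow_le_pow_right (by norm_num) h7
          omega
      rw [h3]
      refine le_trans ?_ (card_filter_not_spec 𝒟 _)
      have h4 : c * (2 : ℝ) ^ k₀ / k₀ ≤ c₀ / 4 * (2 : ℝ) ^ k₀ / k₀ := by
        apply div_le_div_of_nonneg_right _ hk0pos.le
        exact mul_le_mul_of_nonneg_right hcc0 (by positivity)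
      have h5 : c₀ / 2 * (2 : ℝ) ^ k₀ / k₀ - c₀ / 8 * (2 : ℝ) ^ k₀ / k₀ =
        c₀ / 4 * (2 : ℝ) ^ k₀ / k₀ + c₀ / 8 * (2 : ℝ) ^ k₀ / k₀ := by ring
      have h6 : 0 ≤ c₀ / 8 * (2 : ℝ) ^ k₀ / k₀ := by positivity
      linarith only [h1, h2, h4, h5]
    · -- large
      intro k hk
      have hk4 : (4 : ℝ) ≤ k := by
        have : 4 ≤ k := by omega
        exact_mod_cast this
      have h1 := hkl k (by omega)
      rw [pow_one] at h1
      have h2 := le_len (β := β) k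
      have h3 : (2 : ℝ) ^ (1 / 4 * (k : ℝ) - 1) ≤ len β k := by
        refine le_trans ?_ h2
        apply Real.rpow_le_rpow_of_exponent_le (by norm_num)
        nlinarith only [hβ, hβ', hk4]
      have h4 : (2 : ℝ) ^ (1 / 4 * (k : ℝ) - 1) = (2 : ℝ) ^ (1 / 4 * (k : ℝ)) / 2 := by
        rw [Real.rpow_sub (by norm_num), Real.rpow_one]
      have h5 : (k : ℝ) ≤ ε / 8 * (2 : ℝ) ^ (1 / 4 * (k : ℝ)) := by
        have h6 : (k : ℝ) = k * (2 : ℝ) ^ (-(1 / 4) * (k : ℝ)) * (2 : ℝ) ^ (1 / 4 * (k : ℝ)) := by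
          rw [mul_assoc, ← Real.rpow_add (by norm_num)]
          simp
        calc (k : ℝ) = k * (2 : ℝ) ^ (-(1 / 4) * (k : ℝ)) * (2 : ℝ) ^ (1 / 4 * (k : ℝ)) := h6
          _ ≤ ε / 8 * (2 : ℝ) ^ (1 / 4 * (k : ℝ)) := mul_le_mul_of_nonneg_right h1 (by positivity)
      rw [h4] at h3
      have h7 : ε * ((2 : ℝ) ^ (1 / 4 * (k : ℝ)) / 2) ≤ ε * len β k :=
        mul_le_mul_of_nonneg_left h3 hεpos.le
      linarith only [h5, h7]
    · -- large0
      have h1 := hkm k₀ hkm0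
      rw [le_div_iff₀ (by positivity)]
      have h6 : (k₀ : ℝ) ^ 3 = (k₀ : ℝ) ^ 3 * (2 : ℝ) ^ (-(β / 6) * (k₀ : ℝ)) *
          (2 : ℝ) ^ (β / 6 * (k₀ : ℝ)) := by
        rw [mul_assoc, ← Real.rpow_add (by norm_num)]
        have : -(β / 6) * (k₀ : ℝ) + β / 6 * (k₀ : ℝ) = 0 := by ring
        rw [this, Real.rpow_zero, mul_one]
      have h7 : (k₀ : ℝ) ^ 3 ≤ ε / 2 * (2 : ℝ) ^ (β / 6 * (k₀ : ℝ)) := by
        calc (k₀ : ℝ) ^ 3 = (k₀ : ℝ) ^ 3 * (2 : ℝ) ^ (-(β / 6) * (k₀ : ℝ)) *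
              (2 : ℝ) ^ (β / 6 * (k₀ : ℝ)) := h6
          _ ≤ ε / 2 * (2 : ℝ) ^ (β / 6 * (k₀ : ℝ)) := mul_le_mul_of_nonneg_right h1 (by positivity)
      linarith only [h7]
  obtain ⟨f, hf, hsum⟩ := I.exists_balanced
  refine ⟨β, hβ, hβ', k₀, f, ε + (1 + Cs), by positivity, ?_, ?_, ?_⟩
  · intro p hp
    refine (hf.abs_le hp).trans ?_
    have h1 := hkf k₀ hkf0 P hP7 𝒟 _ hα p hp.one_le
    rw [𝒟.maj_prime P sg hp] at h1
    have hp1 : (1 : ℝ) ≤ p := by exact_mod_cast hp.one_le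
    have hp0 : (0 : ℝ) < p := by linarith only [hβ, hβ', hp1]
    have h2 : (p : ℝ) ^ (β / 4) ≤ (p : ℝ) ^ (1 - β / 6) := by
      apply Real.rpow_le_rpow_of_exponent_le hp1
      linarith only [hβ, hβ']
    have h3 : (0 : ℝ) < (p : ℝ) ^ (1 - β / 6) := by positivity
    have h4 : 2 * 𝒟.Ab P sg p * (p : ℝ) ^ (1 - β / 6) ≤ 1 * (p : ℝ) ^ (1 - β / 6) := by linarith only [h1, h2]
    have h5 := le_of_mul_le_mul_right h4 h3
    linarith only [h5]
  · exact hsum none
  · intro k hk j hj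
    refine ⟨hsum (some ⟨(k, j), hk, hj⟩), ?_⟩
    have hkpos : (0 : ℝ) < k := by
      have : 0 < k := by omega
      exact_mod_cast this
    have hk1 : (1 : ℝ) ≤ k := by
      have : 1 ≤ k := by omega
      exact_mod_cast this
    have hL : (0 : ℝ) < len β k := by exact_mod_cast len_pos β k
    set kj : {kj : ℕ × ℕ // k₀ < kj.1 ∧ kj.2 < ncell β kj.1} := ⟨(k, j), hk, hj⟩ with hkj
    set im := (𝒟.ctrlOf P (some kj)).image (fun q => 𝒟.sm q * q) with him
    have hsub : im ⊆ cell β k j := by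
      intro n hn
      rw [him, Finset.mem_image] at hn
      obtain ⟨q, hq, rfl⟩ := hn
      exact (𝒟.ctrl_prime hβ hβ' hP2 hq).2.2
    have hsplit : ∑ n ∈ cell β k j, |cm f n| = ∑ n ∈ cell β k j \ im, |cm f n| + ∑ n ∈ im, |cm f n| :=
      (Finset.sum_sdiff hsub).symm
    rw [hsplit]
    have hT : (0 : ℝ) < (2 : ℝ) ^ (-(1 - β / 6) * (k : ℝ)) := by positivity
    have h1 : ∑ n ∈ cell β k j \ im, |cm f n| ≤
        ε * (len β k * (2 : ℝ) ^ (-(1 - β / 6) * (k : ℝ))) := by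
      have h2 : ∑ n ∈ cell β k j \ im, |cm f n| ≤
          ∑ n ∈ cell β k j \ im, 𝒟.maj P sg n * (n : ℝ) ^ (-(1 - β / 6)) := by
        apply Finset.sum_le_sum
        intro n hn
        exact hf.cm_le (pos_of_mem_cell (Finset.mem_sdiff.mp hn).1)
      refine h2.trans ((I.sum_maj kj).trans ?_)
      show ε * (2 : ℝ) ^ (-(1 - β / 6) * (k : ℝ)) * len β k / (k : ℝ) ^ 3 ≤ _
      rw [div_le_iff₀ (by positivity)]
      have h3 : (1 : ℝ) ≤ (k : ℝ) ^ 3 := one_le_pow₀ hk1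
      have h4 : 0 ≤ ε * (len β k * (2 : ℝ) ^ (-(1 - β / 6) * (k : ℝ))) := by positivity
      calc ε * (2 : ℝ) ^ (-(1 - β / 6) * (k : ℝ)) * len β k
          = ε * (len β k * (2 : ℝ) ^ (-(1 - β / 6) * (k : ℝ))) * 1 := by ring
        _ ≤ ε * (len β k * (2 : ℝ) ^ (-(1 - β / 6) * (k : ℝ))) * (k : ℝ) ^ 3 :=
            mul_le_mul_of_nonneg_left h3 h4
    have h2 : ∑ n ∈ im, |cm f n| ≤ (1 + Cs) * (len β k * (2 : ℝ) ^ (-(1 - β / 6) * (k : ℝ))) := by
      have h3 : ∀ n ∈ im, |cm f n| ≤ (1 + Cs) * (2 : ℝ) ^ (-(1 - β / 6) * (k : ℝ)) := by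
        intro n hn
        have hmem := hsub hn
        have h4 := hf.cm_le (pos_of_mem_cell hmem)
        refine h4.trans ?_
        have h5 : 𝒟.maj P sg n ≤ 1 + Cs := by
          rw [him, Finset.mem_image] at hn
          obtain ⟨q, hq, rfl⟩ := hn
          rcases 𝒟.ctrl_cases hβ hβ' hP2 hq with ⟨g1, g2, g3, g4, g5⟩ | ⟨kj', g1, g2, g3, g4, g5⟩
          · rw [g4, one_mul]
            have h6 := hα.ord q g1.1 g5
            have hq7 : 7 ≤ q := by
              have := g1.2.1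
              omega
            have h7 : Real.log 7 ≤ Real.log q := Real.log_le_log (by norm_num) (by exact_mod_cast hq7)
            have h8 : (19 / 10 : ℝ) ≤ Real.log 7 := by
              have h9 : Real.log 7 = Real.log (7 / 8) + 3 * Real.log 2 := by
                have : Real.log 8 = 3 * Real.log 2 := by
                  rw [show (8 : ℝ) = 2 ^ 3 by norm_num, Real.log_pow]
                  push_cast
                  ring
                rw [Real.log_div (by norm_num) (by norm_num), this]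
                ring
              have h10 : 1 - 1 / (7 / 8 : ℝ) ≤ Real.log (7 / 8) := by
                have := Real.one_sub_inv_le_log_of_pos (show (0 : ℝ) < 7 / 8 by norm_num)
                rw [one_div]
                exact this
              have := Real.log_two_gt_d9
              rw [h9]
              norm_num at h10 ⊢
              linarith only [hβ, hβ', this, h10]
            have h11 : 3 / (Real.log q) ^ 2 ≤ 1 := by
              rw [div_le_one (by nlinarith only [hβ', h7, h8, hβ])]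
              nlinarith only [hβ', h7, h8, hβ]
            linarith only [hCspos, h6, h11]
          · have e : some kj = some kj' := g1
            have e' : kj = kj' := Option.some.inj e
            rw [← e'] at g2 g3
            have h6 := (hα.spec k j (𝒟.sm q) q g2 g3).1
            have h7 : Cs / (k : ℝ) ^ 2 ≤ Cs := by
              apply div_le_self hCspos.le
              exact one_le_pow₀ hk1
            linarith only [hβ, hβ', h6, h7]
        have h6 : (n : ℝ) ^ (-(1 - β / 6)) ≤ (2 : ℝ) ^ (-(1 - β / 6) * (k : ℝ)) := by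
          have h7 : (2 : ℝ) ^ (k : ℝ) ≤ n := by
            rw [Real.rpow_natCast]
            exact_mod_cast two_pow_le_of_mem_cell hmem
          have h8 : (n : ℝ) ^ (-(1 - β / 6)) ≤ ((2 : ℝ) ^ (k : ℝ)) ^ (-(1 - β / 6)) := by
            apply Real.rpow_le_rpow_of_nonpos (by positivity) h7
            linarith only [hβ, hβ']
          refine h8.trans (le_of_eq ?_)
          rw [← Real.rpow_mul (by norm_num)]
          congr 1
          ring
        exact mul_le_mul h5 h6 (by positivity) (by positivity)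
      calc ∑ n ∈ im, |cm f n| ≤ ∑ n ∈ im, (1 + Cs) * (2 : ℝ) ^ (-(1 - β / 6) * (k : ℝ)) :=
            Finset.sum_le_sum h3
        _ = (im.card : ℝ) * ((1 + Cs) * (2 : ℝ) ^ (-(1 - β / 6) * (k : ℝ))) := by
            rw [Finset.sum_const, nsmul_eq_mul]
        _ ≤ (len β k : ℝ) * ((1 + Cs) * (2 : ℝ) ^ (-(1 - β / 6) * (k : ℝ))) := by
            apply mul_le_mul_of_nonneg_right _ (by positivity)
            have := Finset.card_le_card hsub
            rw [card_cell] at this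
            exact_mod_cast this
        _ = _ := by ring
    calc ∑ n ∈ cell β k j \ im, |cm f n| + ∑ n ∈ im, |cm f n|
        ≤ ε * (len β k * (2 : ℝ) ^ (-(1 - β / 6) * (k : ℝ))) +
          (1 + Cs) * (len β k * (2 : ℝ) ^ (-(1 - β / 6) * (k : ℝ))) := add_le_add h1 h2
      _ = _ := by ring

end Pool.Agent.MP_a187e6
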