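import Pool.Agent.MP_a187e6.Setup

/-! The majorant satisfies `AlphaData`. -/

namespace Pool.Agent.MP_a187e6

open Finset

namespace Dead

variable {β : ℝ} {k₀ : ℕ} (𝒟 : Dead β k₀)

lemma maj_one (P : ℕ) (sg : ℕ → ℝ) : 𝒟.maj P sg 1 = 1 := by
  unfold maj
  rw [Cm.one]
  simp

lemma maj_mul (P : ℕ) (sg : ℕ → ℝ) {m n : ℕ} (hm : m ≠ 0) (hn : n ≠ 0) :
    𝒟.maj P sg (m * n) = 𝒟.maj P sg m * 𝒟.maj P sg n := by
  unfold maj
  rw [Cm.mul _ hm hn, Nat.cast_mul, Real.mul_rpow (by positivity) (by positivity)]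
  ring

lemma maj_prime (P : ℕ) (sg : ℕ → ℝ) {p : ℕ} (hp : p.Prime) :
    𝒟.maj P sg p = 2 * 𝒟.Ab P sg p * (p : ℝ) ^ (1 - β / 6) := by
  unfold maj
  rw [Cm.prime _ hp]

lemma rho_mul {p : ℕ} (hp : 2 ≤ p) :
    rho β p * (p : ℝ) ^ (1 - β / 6) = 1 / (Real.log p) ^ 2 := by
  unfold rho
  have h1 : (0 : ℝ) < p := by
    have : 0 < p := by omega
    exact_mod_cast this
  rw [Real.rpow_neg h1.le]
  have h2 : (0 : ℝ) < (p : ℝ) ^ (1 - β / 6) := by positivity
  have h3 : 0 < Real.log p := Real.log_pos (by exact_mod_cast (by omega : 1 < p))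
  field_simp

/-- special primes are large -/
lemma spec_large (hβ : 0 < β) {p : ℕ} (h : 𝒟.Spec p) :
    (2 : ℝ) ^ (20 * β * (k₀ : ℝ)) < p := by
  obtain ⟨k, j, m, hj, h'⟩ := h
  have hk := pos_of_mem_D 𝒟 hj
  have hk' : (k₀ : ℝ) ≤ k := by exact_mod_cast hk.le
  have hk0 : (0 : ℝ) ≤ k₀ := Nat.cast_nonneg _
  refine lt_of_le_of_lt ?_ h'.1.2.1
  apply Real.rpow_le_rpow_of_exponent_le (by norm_num)
  nlinarith

lemma mq_rpow_le (hβ : 0 < β) (hβ' : β ≤ 1 / 1000) {k j m q : ℕ} (hjn : j < ncell β k)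
    (h : Elig β k j m q) :
    (m : ℝ) ^ (1 - β / 6) * (q : ℝ) ^ (1 - β / 6) * (2 : ℝ) ^ (-(1 - β / 6) * (k : ℝ)) ≤ 2 := by
  have hn1 := lt_two_pow_of_mem_cell hβ hβ' hjn h.2.2.2.2
  have h1 : ((m : ℝ) * q) ≤ (2 : ℝ) ^ ((k : ℝ) + 1) := by
    have e4 : (2 : ℝ) ^ ((k : ℝ) + 1) = (2 : ℝ) ^ (k + 1) := by
      rw [← Real.rpow_natCast]
      push_cast
      rfl
    rw [e4]
    exact_mod_cast hn1.le
  rw [← Real.mul_rpow (by positivity) (by positivity)]
  have h2 : ((m : ℝ) * q) ^ (1 - β / 6) ≤ ((2 : ℝ) ^ ((k : ℝ) + 1)) ^ (1 - β / 6) := by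
    apply Real.rpow_le_rpow (by positivity) h1
    linarith
  have h3 : ((2 : ℝ) ^ ((k : ℝ) + 1)) ^ (1 - β / 6) * (2 : ℝ) ^ (-(1 - β / 6) * (k : ℝ)) ≤ 2 := by
    rw [← Real.rpow_mul (by norm_num), ← Real.rpow_add (by norm_num)]
    have : ((k : ℝ) + 1) * (1 - β / 6) + -(1 - β / 6) * (k : ℝ) = 1 - β / 6 := by ring
    rw [this]
    calc (2 : ℝ) ^ (1 - β / 6) ≤ (2 : ℝ) ^ (1 : ℝ) := by
          apply Real.rpow_le_rpow_of_exponent_le (by norm_num)
          linarith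
      _ = 2 := by norm_num
  calc ((m : ℝ) * q) ^ (1 - β / 6) * (2 : ℝ) ^ (-(1 - β / 6) * (k : ℝ))
      ≤ ((2 : ℝ) ^ ((k : ℝ) + 1)) ^ (1 - β / 6) * (2 : ℝ) ^ (-(1 - β / 6) * (k : ℝ)) :=
        mul_le_mul_of_nonneg_right h2 (by positivity)
    _ ≤ 2 := h3

theorem alphaData {K₀ : ℕ} (hβ : 0 < β) (hβ' : β ≤ 1 / 1000) (hK : 1 / (20 * β) ≤ K₀) {P : ℕ}
    {sg : ℕ → ℝ} (hsg : ∀ p, |sg p| = 1) (hk2 : 2 ≤ k₀)
    (hk₀ : (P : ℝ) ≤ (2 : ℝ) ^ (20 * β * (k₀ : ℝ))) :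
    AlphaData 𝒟 P K₀ (4 * 3 ^ K₀) (𝒟.maj P sg) := by
  refine ⟨𝒟.maj_one P sg, fun m n hm hn => 𝒟.maj_mul P sg hm hn, 𝒟.maj_nonneg P sg, ?_, ?_, ?_, ?_⟩
  · intro p hp hpP
    have hns : ¬ 𝒟.Spec p := by
      intro h
      have h1 := 𝒟.spec_large hβ h
      have h2 : (P : ℝ) < p := lt_of_le_of_lt hk₀ h1
      have h3 : P < p := by exact_mod_cast h2
      omega
    have hno : ¬ 𝒟.Ord P p := fun h => by
      have := h.2.1
      omega
    rw [𝒟.maj_prime P sg hp, 𝒟.Ab_of_neither hns hno]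
    simp
  · intro p hp hns
    by_cases ho : 𝒟.Ord P p
    · have h1 := 𝒟.Ab_of_ord hsg ho
      rw [𝒟.maj_prime P sg hp]
      have h2 := rho_mul (β := β) hp.two_le
      have h3 : (0 : ℝ) ≤ (p : ℝ) ^ (1 - β / 6) := by positivity
      calc 2 * 𝒟.Ab P sg p * (p : ℝ) ^ (1 - β / 6) ≤ 2 * (3 / 2 * rho β p) * (p : ℝ) ^ (1 - β / 6) :=
            mul_le_mul_of_nonneg_right (by linarith) h3
        _ = 3 * (rho β p * (p : ℝ) ^ (1 - β / 6)) := by ring
        _ = 3 / (Real.log p) ^ 2 := by rw [h2]; ring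
    · rw [𝒟.maj_prime P sg hp, 𝒟.Ab_of_neither hns ho]
      have : 0 ≤ 3 / (Real.log p) ^ 2 := by positivity
      simpa using this
  · intro p hp hns hd
    have hno : ¬ 𝒟.Ord P p := fun h => h.2.2.2 hd
    rw [𝒟.maj_prime P sg hp, 𝒟.Ab_of_neither hns hno]
    simp
  · intro k j m q hj h
    have hjn := lt_ncell_of_mem_D 𝒟 hj
    have hk := pos_of_mem_D 𝒟 hj
    have hkpos : (0 : ℝ) < k := by
      have : 0 < k := by omega
      exact_mod_cast this
    have hk1 : (1 : ℝ) ≤ k := by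
      have : 1 ≤ k := by omega
      exact_mod_cast this
    obtain ⟨e1, e2, e3⟩ := 𝒟.data_eq hβ hβ' hj h
    have hspec : 𝒟.Spec q := ⟨k, j, m, hj, h⟩
    have hm0 : m ≠ 0 := by
      have := h.1.2.2.1
      omega
    have hq0 : q ≠ 0 := h.1.1.ne_zero
    have hlen := Dead.length_le hβ hβ' hK hjn h.1 (by omega)
    have hrm := 𝒟.cm_rho_pos h
    have hPk : (P : ℝ) ≤ (2 : ℝ) ^ (20 * β * (k : ℝ)) := by
      refine hk₀.trans ?_
      apply Real.rpow_le_rpow_of_exponent_le (by norm_num)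
      have : (k₀ : ℝ) ≤ k := by exact_mod_cast hk.le
      nlinarith
    have hmq := mq_rpow_le hβ hβ' hjn h.1
    have hq : 𝒟.maj P sg q = 2 * ((2 : ℝ) ^ (-(1 - β / 6) * (k : ℝ)) /
        ((k : ℝ) ^ 2 * cm (rho β) m)) * (q : ℝ) ^ (1 - β / 6) := by
      rw [𝒟.maj_prime P sg h.1.1, 𝒟.Ab_of_spec hspec, e1, e3]
    have hm : 𝒟.maj P sg m ≤ 3 ^ K₀ * (cm (rho β) m * (m : ℝ) ^ (1 - β / 6)) := by
      unfold maj
      have h1 : cm (fun p => 2 * 𝒟.Ab P sg p) m ≤ cm (fun p => 3 * rho β p) m := by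
        apply Cm.mono
        · intro p hp hpm
          have := 𝒟.Ab_nonneg P sg p
          linarith
        · intro p hp hpm
          have ho := 𝒟.inK_prime_ord h hPk hp hpm
          have := 𝒟.Ab_of_ord hsg ho
          linarith
      rw [Cm.smul 3 (rho β) m] at h1
      have h2 : (3 : ℝ) ^ m.primeFactorsList.length ≤ 3 ^ K₀ :=
        pow_le_pow_right₀ (by norm_num) hlen
      have h3 : (0 : ℝ) ≤ (m : ℝ) ^ (1 - β / 6) := by positivity
      calc cm (fun p => 2 * 𝒟.Ab P sg p) m * (m : ℝ) ^ (1 - β / 6)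
          ≤ (3 ^ m.primeFactorsList.length * cm (rho β) m) * (m : ℝ) ^ (1 - β / 6) :=
            mul_le_mul_of_nonneg_right h1 h3
        _ ≤ (3 ^ K₀ * cm (rho β) m) * (m : ℝ) ^ (1 - β / 6) := by
            apply mul_le_mul_of_nonneg_right _ h3
            exact mul_le_mul_of_nonneg_right h2 hrm.le
        _ = _ := by ring
    constructor
    · rw [𝒟.maj_mul P sg hm0 hq0]
      have hqn := 𝒟.maj_nonneg P sg q
      calc 𝒟.maj P sg m * 𝒟.maj P sg q
          ≤ 3 ^ K₀ * (cm (rho β) m * (m : ℝ) ^ (1 - β / 6)) * 𝒟.maj P sg q :=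
            mul_le_mul_of_nonneg_right hm hqn
        _ = 2 * 3 ^ K₀ / (k : ℝ) ^ 2 * ((m : ℝ) ^ (1 - β / 6) * (q : ℝ) ^ (1 - β / 6) *
              (2 : ℝ) ^ (-(1 - β / 6) * (k : ℝ))) := by
            rw [hq]
            field_simp
        _ ≤ 2 * 3 ^ K₀ / (k : ℝ) ^ 2 * 2 := mul_le_mul_of_nonneg_left hmq (by positivity)
        _ = 4 * 3 ^ K₀ / (k : ℝ) ^ 2 := by ring
    · -- bound for maj q
      have hinv : 1 / cm (rho β) m ≤ (m : ℝ) ^ (1 - β / 6) * ((k : ℝ) + 1) ^ (2 * K₀) := by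
        rw [div_le_iff₀ hrm]
        have h1 : cm (fun p => rho β p * (p : ℝ) ^ (1 - β / 6) * (Real.log p) ^ 2) m = 1 := by
          have : cm (fun p => rho β p * (p : ℝ) ^ (1 - β / 6) * (Real.log p) ^ 2) m =
              cm (fun _ => (1 : ℝ)) m := by
            apply Cm.congr
            intro p hp hpm
            rw [rho_mul hp.two_le]
            have : 0 < Real.log p := Real.log_pos (by exact_mod_cast hp.one_lt)
            field_simp
          rw [this]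
          unfold cm
          simp
        rw [Cm.fmul, Cm.fmul, Cm.rpow _ hm0] at h1
        have h2 : cm (fun p => (Real.log p) ^ 2) m ≤ (((k : ℝ) + 1) ^ 2) ^ K₀ := by
          have h3 : cm (fun p => (Real.log p) ^ 2) m ≤
              (((k : ℝ) + 1) ^ 2) ^ m.primeFactorsList.length := by
            apply Cm.le_pow
            · intro p hp hpm
              positivity
            · intro p hp hpm
              have hn1 := lt_two_pow_of_mem_cell hβ hβ' hjn h.1.2.2.2.2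
              have hpm' : p ≤ m := Nat.le_of_dvd (Nat.pos_of_ne_zero hm0) hpm
              have hp1 : p ≤ 2 ^ (k + 1) := by
                have : m * 1 ≤ m * q := Nat.mul_le_mul_left m h.1.1.pos
                omega
              have h4 : Real.log p ≤ (k : ℝ) + 1 := by
                have h5 : Real.log p ≤ Real.log ((2 : ℝ) ^ (k + 1)) := by
                  apply Real.log_le_log
                  · exact_mod_cast hp.pos
                  · exact_mod_cast hp1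
                rw [Real.log_pow] at h5
                have h6 : Real.log 2 ≤ 1 := by
                  have := Real.log_two_lt_d9
                  linarith
                push_cast at h5
                nlinarith
              have h7 : 0 ≤ Real.log p := Real.log_natCast_nonneg p
              exact pow_le_pow_left₀ h7 h4 2
          refine h3.trans ?_
          apply pow_le_pow_right₀ _ hlen
          nlinarith
        rw [← pow_mul] at h2
        have h8 : 0 ≤ cm (rho β) m * (m : ℝ) ^ (1 - β / 6) := by positivity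
        calc (1 : ℝ) = cm (rho β) m * (m : ℝ) ^ (1 - β / 6) * cm (fun p => (Real.log p) ^ 2) m :=
              h1.symm
          _ ≤ cm (rho β) m * (m : ℝ) ^ (1 - β / 6) * ((k : ℝ) + 1) ^ (2 * K₀) :=
              mul_le_mul_of_nonneg_left h2 h8
          _ = _ := by ring
      rw [hq]
      have h9 : (0 : ℝ) ≤ 2 * (2 : ℝ) ^ (-(1 - β / 6) * (k : ℝ)) / (k : ℝ) ^ 2 *
          (q : ℝ) ^ (1 - β / 6) := by positivity
      have h10 : (1 : ℝ) ≤ 3 ^ K₀ := one_le_pow₀ (by norm_num)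
      have h11 : (0 : ℝ) ≤ ((k : ℝ) + 1) ^ (2 * K₀) := by positivity
      calc 2 * ((2 : ℝ) ^ (-(1 - β / 6) * (k : ℝ)) / ((k : ℝ) ^ 2 * cm (rho β) m)) *
            (q : ℝ) ^ (1 - β / 6)
          = 2 * (2 : ℝ) ^ (-(1 - β / 6) * (k : ℝ)) / (k : ℝ) ^ 2 *
              (q : ℝ) ^ (1 - β / 6) * (1 / cm (rho β) m) := by
            field_simp
        _ ≤ 2 * (2 : ℝ) ^ (-(1 - β / 6) * (k : ℝ)) / (k : ℝ) ^ 2 *
              (q : ℝ) ^ (1 - β / 6) * ((m : ℝ) ^ (1 - β / 6) * ((k : ℝ) + 1) ^ (2 * K₀)) :=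
            mul_le_mul_of_nonneg_left hinv h9
        _ = 2 * ((k : ℝ) + 1) ^ (2 * K₀) / (k : ℝ) ^ 2 * ((m : ℝ) ^ (1 - β / 6) *
              (q : ℝ) ^ (1 - β / 6) * (2 : ℝ) ^ (-(1 - β / 6) * (k : ℝ))) := by
            ring
        _ ≤ 2 * ((k : ℝ) + 1) ^ (2 * K₀) / (k : ℝ) ^ 2 * 2 :=
            mul_le_mul_of_nonneg_left hmq (by positivity)
        _ = 4 * ((k : ℝ) + 1) ^ (2 * K₀) / (k : ℝ) ^ 2 := by ring
        _ ≤ 4 * ((k : ℝ) + 1) ^ (2 * K₀) := by
            apply div_le_self (by positivity)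
            nlinarith
        _ ≤ 4 * 3 ^ K₀ * ((k : ℝ) + 1) ^ (2 * K₀) := by nlinarith

end Dead

end Pool.Agent.MP_a187e6
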