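import Mathlib

/-! Module M: upper bounds for sums over primes. -/

namespace Pool.Agent.MP_a187e6

open Finset

theorem sum_log_primes_le (N : ℕ) :
    ∑ p ∈ (Finset.Icc 1 N).filter Nat.Prime, Real.log p ≤ 2 * N := by
  have h1 := Chebyshev.theta_le_log4_mul_x (x := (N : ℝ)) (Nat.cast_nonneg N)
  rw [Chebyshev.theta_eq_sum_Icc] at h1
  have h2 : ∑ p ∈ (Finset.Icc 1 N).filter Nat.Prime, Real.log p ≤
      ∑ p ∈ (Finset.Icc 0 ⌊(N : ℝ)⌋₊).filter Nat.Prime, Real.log p := by
    rw [Nat.floor_natCast]
    apply Finset.sum_le_sum_of_subset_of_nonneg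
    · apply Finset.filter_subset_filter
      apply Finset.Icc_subset_Icc (by norm_num) le_rfl
    · intro p _ _
      exact Real.log_natCast_nonneg p
  have h3 : Real.log 4 ≤ 2 := by
    have : Real.log 4 = 2 * Real.log 2 := by
      rw [show (4 : ℝ) = 2 ^ 2 by norm_num, Real.log_pow]; norm_num
    rw [this]
    have := Real.log_two_lt_d9
    linarith
  have h4 := mul_le_mul_of_nonneg_right h3 (Nat.cast_nonneg (α := ℝ) N)
  linarith

theorem sum_log_primes_le' (N : ℕ) :
    ∑ p ∈ (Finset.Icc 1 N).filter Nat.Prime, Real.log p ≤ Real.log 4 * N := by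
  have h1 := Chebyshev.theta_le_log4_mul_x (x := (N : ℝ)) (Nat.cast_nonneg N)
  rw [Chebyshev.theta_eq_sum_Icc] at h1
  have h2 : ∑ p ∈ (Finset.Icc 1 N).filter Nat.Prime, Real.log p ≤
      ∑ p ∈ (Finset.Icc 0 ⌊(N : ℝ)⌋₊).filter Nat.Prime, Real.log p := by
    rw [Nat.floor_natCast]
    apply Finset.sum_le_sum_of_subset_of_nonneg
    · apply Finset.filter_subset_filter
      apply Finset.Icc_subset_Icc (by norm_num) le_rfl
    · intro p _ _
      exact Real.log_natCast_nonneg p
  linarith

theorem sum_log_div_le (N : ℕ) (hN : 1 ≤ N) :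
    ∑ p ∈ (Finset.Icc 1 N).filter Nat.Prime, Real.log p / p ≤ Real.log N + 2 := by
  classical
  have hN0 : (0 : ℝ) < N := by exact_mod_cast hN
  -- sum over n ≤ N of the logs of the prime divisors
  have h1 : ∑ p ∈ (Finset.Icc 1 N).filter Nat.Prime, ((N / p : ℕ) : ℝ) * Real.log p ≤
      N * Real.log N := by
    have h2 : ∀ p ∈ (Finset.Icc 1 N).filter Nat.Prime, ((N / p : ℕ) : ℝ) * Real.log p =
        ∑ n ∈ Finset.Icc 1 N, if p ∣ n then Real.log p else 0 := by
      intro p hp
      rw [Finset.mem_filter, Finset.mem_Icc] at hp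
      rw [← Finset.sum_filter, Finset.sum_const, nsmul_eq_mul]
      congr 1
      have h3 := Nat.card_multiples N p
      have h4 : (Finset.Icc 1 N).filter (fun n => p ∣ n) =
          ((Finset.range N).filter (fun e => p ∣ e + 1)).map ⟨fun e => e + 1, fun a b h => by simpa using h⟩ := by
        ext n
        simp only [Finset.mem_filter, Finset.mem_Icc, Finset.mem_map, Finset.mem_range]
        constructor
        · rintro ⟨⟨h5, h6⟩, h7⟩
          exact ⟨n - 1, ⟨by omega, by rwa [Nat.sub_add_cancel h5]⟩, Nat.sub_add_cancel h5⟩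
        · rintro ⟨e, ⟨h5, h6⟩, h8⟩
          have h9 : e + 1 = n := h8
          rw [← h9]
          exact ⟨⟨by omega, by omega⟩, h6⟩
      rw [h4, Finset.card_map, h3]
    rw [Finset.sum_congr rfl h2, Finset.sum_comm]
    have h5 : ∀ n ∈ Finset.Icc 1 N,
        ∑ p ∈ (Finset.Icc 1 N).filter Nat.Prime, (if p ∣ n then Real.log p else 0) ≤ Real.log N := by
      intro n hn
      rw [Finset.mem_Icc] at hn
      rw [← Finset.sum_filter]
      have h6 : ∑ p ∈ ((Finset.Icc 1 N).filter Nat.Prime).filter (fun p => p ∣ n), Real.log p ≤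
          ∑ d ∈ n.divisors, ArithmeticFunction.vonMangoldt d := by
        have h7 : ∑ p ∈ ((Finset.Icc 1 N).filter Nat.Prime).filter (fun p => p ∣ n), Real.log p =
            ∑ p ∈ ((Finset.Icc 1 N).filter Nat.Prime).filter (fun p => p ∣ n),
              ArithmeticFunction.vonMangoldt p := by
          apply Finset.sum_congr rfl
          intro p hp
          rw [Finset.mem_filter, Finset.mem_filter] at hp
          rw [ArithmeticFunction.vonMangoldt_apply_prime hp.1.2]
        rw [h7]
        apply Finset.sum_le_sum_of_subset_of_nonneg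
        · intro p hp
          rw [Finset.mem_filter, Finset.mem_filter] at hp
          rw [Nat.mem_divisors]
          exact ⟨hp.2, by omega⟩
        · intro p _ _
          exact ArithmeticFunction.vonMangoldt_nonneg
      rw [ArithmeticFunction.vonMangoldt_sum] at h6
      refine h6.trans ?_
      exact Real.log_le_log (by exact_mod_cast hn.1) (by exact_mod_cast hn.2)
    calc ∑ n ∈ Finset.Icc 1 N,
          ∑ p ∈ (Finset.Icc 1 N).filter Nat.Prime, (if p ∣ n then Real.log p else 0)
        ≤ ∑ n ∈ Finset.Icc 1 N, Real.log N := Finset.sum_le_sum h5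
      _ = N * Real.log N := by rw [Finset.sum_const, Nat.card_Icc, nsmul_eq_mul]; simp
  have h2 : ∑ p ∈ (Finset.Icc 1 N).filter Nat.Prime, ((N : ℝ) / p - 1) * Real.log p ≤
      ∑ p ∈ (Finset.Icc 1 N).filter Nat.Prime, ((N / p : ℕ) : ℝ) * Real.log p := by
    apply Finset.sum_le_sum
    intro p hp
    rw [Finset.mem_filter, Finset.mem_Icc] at hp
    apply mul_le_mul_of_nonneg_right _ (Real.log_natCast_nonneg p)
    have hp0 : 0 < p := hp.2.pos
    have h3 : (N : ℝ) < ((N / p : ℕ) + 1 : ℝ) * p := by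
      have := Nat.lt_div_mul_add (a := N) hp0
      have h4 : N < (N / p + 1) * p := by
        calc N < N / p * p + p := this
          _ = (N / p + 1) * p := by ring
      exact_mod_cast h4
    rw [sub_le_iff_le_add, div_le_iff₀ (by exact_mod_cast hp0)]
    exact h3.le
  have h3 : ∑ p ∈ (Finset.Icc 1 N).filter Nat.Prime, ((N : ℝ) / p - 1) * Real.log p =
      N * ∑ p ∈ (Finset.Icc 1 N).filter Nat.Prime, Real.log p / p -
        ∑ p ∈ (Finset.Icc 1 N).filter Nat.Prime, Real.log p := by
    rw [Finset.mul_sum, ← Finset.sum_sub_distrib]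
    apply Finset.sum_congr rfl
    intro p _
    ring
  have h4 := sum_log_primes_le N
  have h5 : N * ∑ p ∈ (Finset.Icc 1 N).filter Nat.Prime, Real.log p / p ≤ N * (Real.log N + 2) := by
    linarith
  exact le_of_mul_le_mul_left h5 hN0

end Pool.Agent.MP_a187e6
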