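import Mathlib
import Pool.Agent.MP_a187e6.LargePart
import Pool.Agent.MP_a187e6.Mertens

/-!
Module D, step (4): Selberg weight of the squarefree numbers of a short interval all of whose prime
factors are `≤ X^(1/2+η)`.
-/

namespace Pool.Agent.MP_a187e6

open Finset Real

lemma selG_le_self (R : ℕ) : selG R ≤ R := by
  unfold selG
  calc ∑ l ∈ sqf R, (1 : ℝ) / (Nat.totient l) ≤ ∑ l ∈ sqf R, (1 : ℝ) := by
        apply Finset.sum_le_sum
        intro l hl
        have h1 := (mem_sqf.mp hl).1.1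
        have h2 : (1 : ℝ) ≤ Nat.totient l := by exact_mod_cast Nat.totient_pos.mpr h1
        rw [div_le_one (by linarith only [h2])]
        exact h2
    _ = ((sqf R).card : ℝ) := by simp
    _ ≤ R := by
        have : (sqf R).card ≤ (Icc 1 R).card := Finset.card_filter_le _ _
        rw [Nat.card_Icc] at this
        exact_mod_cast (by omega : (sqf R).card ≤ R)

/-- a prime larger than the level does not change the weight -/
lemma selW_mul_prime {R p m : ℕ} (hp : p.Prime) (hpR : R < p) (hm : m ≠ 0) :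
    selW R (p * m) = selW R m := by
  unfold selW
  rw [sum_divisors_selLam R (Nat.mul_ne_zero hp.ne_zero hm), sum_divisors_selLam R hm]
  congr 1
  apply Finset.sum_congr rfl
  intro d hd
  rw [mem_Icc] at hd
  have hcop : Nat.Coprime d p := by
    rw [Nat.coprime_comm, Nat.Prime.coprime_iff_not_dvd hp]
    intro h
    have := Nat.le_of_dvd (by omega) h
    omega
  have : d ∣ p * m ↔ d ∣ m := Nat.Coprime.dvd_mul_left hcop
  by_cases h : d ∣ m
  · rw [if_pos h, if_pos (this.mpr h)]
  · rw [if_neg h, if_neg (fun h' => h (this.mp h'))]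

lemma selW_prime {R p : ℕ} (hR : 1 ≤ R) (hp : p.Prime) (hpR : R < p) : selW R p = 1 := by
  have := selW_mul_prime hp hpR (m := 1) one_ne_zero
  rw [mul_one] at this
  rw [this]
  unfold selW
  simp [selLam_one hR]

/-- the multiples of a large prime -/
lemma sum_multiples_eq {R p x l : ℕ} (hp : p.Prime) (hpR : R < p) (hx : 1 ≤ x) :
    ∑ n ∈ (Ico x (x + l)).filter (fun n => p ∣ n), selW R n =
      ∑ m ∈ (Finset.range (x + l)).filter (fun m => x ≤ p * m ∧ p * m < x + l), selW R m := by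
  symm
  apply Finset.sum_bij (fun m _ => p * m)
  · intro m hm
    rw [mem_filter] at hm
    rw [mem_filter, mem_Ico]
    exact ⟨hm.2, Dvd.intro m rfl⟩
  · intro a _ b _ h
    exact Nat.eq_of_mul_eq_mul_left hp.pos h
  · intro n hn
    rw [mem_filter, mem_Ico] at hn
    obtain ⟨c, hc⟩ := hn.2
    refine ⟨c, ?_, hc.symm⟩
    rw [mem_filter, mem_range]
    have : c ≤ p * c := Nat.le_mul_of_pos_left _ hp.pos
    refine ⟨by omega, by omega, by omega⟩
  · intro m hm
    rw [mem_filter] at hm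
    symm
    apply selW_mul_prime hp hpR
    rintro rfl
    omega

/-- combinatorial part: splitting at `A` -/
lemma smooth_split {R R' A B x l : ℕ} (hR : 1 ≤ R) (hR' : 1 ≤ R') (hx : 1 ≤ x)
    (hRA : R ≤ A) (hRA' : R' ≤ A) (hA : 1 ≤ A) (hAB : A ≤ B)
    (s : Finset ℕ) (hs : s ⊆ Ico x (x + l))
    (h : ∀ n ∈ s, Squarefree n ∧ ∀ p : ℕ, p.Prime → p ∣ n → p ≤ B) :
    Real.log x * ∑ n ∈ s, selW R n ≤
      l / selG R * (Real.log A + 2) + 2 * (R : ℝ) ^ 2 * A +
      Real.log B * ∑ k ∈ Finset.Ioc A B, selW R' k *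
        ∑ m ∈ (Finset.range (x + l)).filter (fun m => x ≤ k * m ∧ k * m < x + l), selW R m := by
  classical
  have hG := selG_pos hR
  have hx0 : (0 : ℝ) < x := by exact_mod_cast hx
  -- step (a), (b)
  have h1 : Real.log x * ∑ n ∈ s, selW R n ≤
      ∑ p ∈ (Icc 1 B).filter Nat.Prime, Real.log p *
        ∑ n ∈ (Ico x (x + l)).filter (fun n => p ∣ n), selW R n := by
    have h2 : ∀ n ∈ s, Real.log x * selW R n ≤
        ∑ p ∈ (Icc 1 B).filter Nat.Prime, Real.log p * (if p ∣ n then selW R n else 0) := by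
      intro n hn
      obtain ⟨hsq, hpB⟩ := h n hn
      have hnx := (mem_Ico.mp (hs hn)).1
      have hn0 : n ≠ 0 := by omega
      have hlog : Real.log n = ∑ p ∈ n.primeFactors, Real.log p := by
        conv_lhs => rw [← Nat.prod_primeFactors_of_squarefree hsq]
        push_cast
        rw [Real.log_prod]
        intro p hp
        exact_mod_cast (Nat.prime_of_mem_primeFactors hp).ne_zero
      have h3 : Real.log x ≤ Real.log n := Real.log_le_log hx0 (by exact_mod_cast hnx)
      calc Real.log x * selW R n ≤ Real.log n * selW R n :=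
            mul_le_mul_of_nonneg_right h3 (selW_nonneg R n)
        _ = ∑ p ∈ n.primeFactors, Real.log p * (if p ∣ n then selW R n else 0) := by
            rw [hlog, Finset.sum_mul]
            apply Finset.sum_congr rfl
            intro p hp
            rw [if_pos (Nat.dvd_of_mem_primeFactors hp)]
        _ ≤ _ := by
            apply Finset.sum_le_sum_of_subset_of_nonneg
            · intro p hp
              have hpp := Nat.prime_of_mem_primeFactors hp
              rw [mem_filter, mem_Icc]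
              exact ⟨⟨hpp.one_lt.le, hpB p hpp (Nat.dvd_of_mem_primeFactors hp)⟩, hpp⟩
            · intro p hp _
              rw [mem_filter, mem_Icc] at hp
              apply mul_nonneg (Real.log_nonneg (by exact_mod_cast hp.1.1))
              split_ifs
              · exact selW_nonneg R n
              · exact le_rfl
    rw [Finset.mul_sum]
    refine le_trans (Finset.sum_le_sum h2) ?_
    rw [Finset.sum_comm]
    apply Finset.sum_le_sum
    intro p hp
    rw [mem_filter, mem_Icc] at hp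
    rw [← Finset.mul_sum]
    apply mul_le_mul_of_nonneg_left _ (Real.log_nonneg (by exact_mod_cast hp.1.1))
    rw [← Finset.sum_filter]
    apply Finset.sum_le_sum_of_subset_of_nonneg
    · exact Finset.filter_subset_filter _ hs
    · intro n _ _
      exact selW_nonneg R n
  refine le_trans h1 ?_
  -- step (c)
  have hsplit : (Icc 1 B).filter Nat.Prime =
      (Icc 1 A).filter Nat.Prime ∪ (Ioc A B).filter Nat.Prime := by
    rw [← Finset.filter_union]
    congr 1
    ext n
    simp only [mem_Icc, mem_union, mem_Ioc]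
    omega
  have hdisj : Disjoint ((Icc 1 A).filter Nat.Prime) ((Ioc A B).filter Nat.Prime) := by
    apply Finset.disjoint_filter_filter
    rw [Finset.disjoint_left]
    intro n hn hn'
    rw [mem_Icc] at hn
    rw [mem_Ioc] at hn'
    omega
  rw [hsplit, Finset.sum_union hdisj]
  apply add_le_add
  · -- step (d)
    have h2 : ∀ p ∈ (Icc 1 A).filter Nat.Prime, Real.log p *
        ∑ n ∈ (Ico x (x + l)).filter (fun n => p ∣ n), selW R n ≤
        l / selG R * (Real.log p / p) + (R : ℝ) ^ 2 * Real.log p := by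
      intro p hp
      rw [mem_filter, mem_Icc] at hp
      have hp0 : (0 : ℝ) < p := by exact_mod_cast hp.2.pos
      have hlogp : 0 ≤ Real.log p := Real.log_nonneg (by exact_mod_cast hp.1.1)
      have h3 := sum_selW_dvd_le hR x l p hx hp.2
      have h4 : (∑ r ∈ (sqf R).filter (fun r => R < p * r), (1 : ℝ) / (Nat.totient r)) ≤ selG R :=
        Finset.sum_le_sum_of_subset_of_nonneg (Finset.filter_subset _ _)
          (fun r _ _ => by positivity)
      have h5 : (l : ℝ) / (p * (selG R) ^ 2) *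
          (∑ r ∈ (sqf R).filter (fun r => R < p * r), (1 : ℝ) / (Nat.totient r)) ≤
          l / (p * (selG R) ^ 2) * selG R := mul_le_mul_of_nonneg_left h4 (by positivity)
      have h6 : (l : ℝ) / (p * (selG R) ^ 2) * selG R = l / selG R / p := by
        field_simp
      calc Real.log p * ∑ n ∈ (Ico x (x + l)).filter (fun n => p ∣ n), selW R n
          ≤ Real.log p * (l / selG R / p + (R : ℝ) ^ 2) :=
            mul_le_mul_of_nonneg_left (by linarith only [h3, h5, h6]) hlogp
        _ = _ := by ring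
    refine le_trans (Finset.sum_le_sum h2) ?_
    rw [Finset.sum_add_distrib, ← Finset.mul_sum, ← Finset.mul_sum]
    have h7 := sum_log_div_le A hA
    have h8 := sum_log_primes_le A
    have h9 : (l : ℝ) / selG R * ∑ p ∈ (Icc 1 A).filter Nat.Prime, Real.log p / p ≤
        l / selG R * (Real.log A + 2) := mul_le_mul_of_nonneg_left h7 (by positivity)
    have h10 : (R : ℝ) ^ 2 * ∑ p ∈ (Icc 1 A).filter Nat.Prime, Real.log p ≤
        (R : ℝ) ^ 2 * (2 * A) := mul_le_mul_of_nonneg_left h8 (by positivity)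
    linarith only [h9, h10]
  · -- step (e)
    rw [Finset.mul_sum]
    have hB1 : (1 : ℝ) ≤ B := by exact_mod_cast hA.trans hAB
    have hlogB : 0 ≤ Real.log B := Real.log_nonneg hB1
    have h2 : ∀ p ∈ (Ioc A B).filter Nat.Prime, Real.log p *
        ∑ n ∈ (Ico x (x + l)).filter (fun n => p ∣ n), selW R n ≤
        Real.log B * (selW R' p *
          ∑ m ∈ (Finset.range (x + l)).filter (fun m => x ≤ p * m ∧ p * m < x + l), selW R m) := by
      intro p hp
      rw [mem_filter, mem_Ioc] at hp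
      rw [sum_multiples_eq hp.2 (by omega) hx, selW_prime hR' hp.2 (by omega), one_mul]
      apply mul_le_mul_of_nonneg_right
      · apply Real.log_le_log (by exact_mod_cast hp.2.pos)
        exact_mod_cast hp.1.2
      · exact Finset.sum_nonneg (fun m _ => selW_nonneg R m)
    refine le_trans (Finset.sum_le_sum h2) ?_
    apply Finset.sum_le_sum_of_subset_of_nonneg (Finset.filter_subset _ _)
    intro k _ _
    apply mul_nonneg hlogB
    apply mul_nonneg (selW_nonneg R' k)
    exact Finset.sum_nonneg (fun m _ => selW_nonneg R m)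

theorem smooth_part_le {η : ℝ} (hη : 0 < η) (hη' : η ≤ 1 / 10 ^ 8) :
    ∃ X₀ : ℝ, ∀ X : ℝ, X₀ ≤ X → ∀ x l : ℕ, X ≤ x → (x : ℝ) ≤ 2 * X →
      X ^ (1 / 2 - η) ≤ l → (l : ℝ) ≤ X ^ (1 / 2 : ℝ) → ∀ s : Finset ℕ, s ⊆ Ico x (x + l) →
      (∀ n ∈ s, Squarefree n ∧ ∀ p : ℕ, p.Prime → p ∣ n → (p : ℝ) ≤ X ^ (1 / 2 + η)) →
      ∑ n ∈ s, selW ⌊X ^ η⌋₊ n ≤ 0.52 * (l / selG ⌊X ^ η⌋₊) := by
  obtain ⟨X₁, hLP⟩ := double_selW_bound
  refine ⟨max X₁ (Real.exp (10 ^ 8)), ?_⟩
  intro X hX x l hx hx2 hl1 hl2 s hs h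
  have hX₁ : X₁ ≤ X := le_trans (le_max_left _ _) hX
  have hXe : Real.exp (10 ^ 8) ≤ X := le_trans (le_max_right _ _) hX
  have hX0 : 0 < X := lt_of_lt_of_le (Real.exp_pos _) hXe
  set L := Real.log X with hL
  have hL8 : (10 : ℝ) ^ 8 ≤ L := by
    rw [hL, Real.le_log_iff_exp_le hX0]
    exact hXe
  clear hX hXe
  have hL0 : 0 < L := lt_of_lt_of_le (by norm_num) hL8
  have hX1 : 1 ≤ X := by
    have : Real.log 1 ≤ Real.log X := by rw [Real.log_one, ← hL]; exact hL0.le
    exact (Real.log_le_log_iff one_pos hX0).mp this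
  have hη8 : η ≤ 0.00000001 := by
    have : (1 : ℝ) / 10 ^ 8 = 0.00000001 := by norm_num
    linarith only [hη']
  have hpos : ∀ a : ℝ, 0 < X ^ a := fun a => Real.rpow_pos_of_pos hX0 a
  have hmul : ∀ a b : ℝ, X ^ a * X ^ b = X ^ (a + b) := fun a b => (Real.rpow_add hX0 a b).symm
  have hmono : ∀ {a b : ℝ}, a ≤ b → X ^ a ≤ X ^ b := fun h => Real.rpow_le_rpow_of_exponent_le hX1 h
  have hone : ∀ {a : ℝ}, 0 ≤ a → 1 ≤ X ^ a := fun h => Real.one_le_rpow hX1 h
  have hT : (10000 : ℝ) ≤ X ^ (0.0001 : ℝ) := by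
    have h1 : X ^ (0.0001 : ℝ) = Real.exp (L * 0.0001) := by
      rw [Real.rpow_def_of_pos hX0]
    have h2 := Real.add_one_le_exp (L * 0.0001)
    rw [h1]
    linarith only [hη, hη', hL8, h2]
  have hlogX : ∀ a : ℝ, Real.log (X ^ a) = a * L := fun a => Real.log_rpow hX0 a
  set R := ⌊X ^ η⌋₊ with hR
  set R' := ⌊X ^ (1 / 10000 : ℝ)⌋₊ with hR'
  set B := ⌊X ^ (1 / 2 + η)⌋₊ with hB
  set A := ⌊(l : ℝ) / (R : ℝ) ^ 5⌋₊ with hA
  have e10 : (1 / 10000 : ℝ) = 0.0001 := by norm_num
  have hR1 : 1 ≤ R := Nat.le_floor (by simpa using hone hη.le)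
  have hR1' : 1 ≤ R' := Nat.le_floor (by simpa using hone (by norm_num : (0 : ℝ) ≤ 1 / 10000))
  have hRX : (R : ℝ) ≤ X ^ η := Nat.floor_le (hpos _).le
  have hRX' : (R' : ℝ) ≤ X ^ (1 / 10000 : ℝ) := Nat.floor_le (hpos _).le
  have hRX2 : (R : ℝ) ≤ X ^ (1 / 10000 : ℝ) := hRX.trans (hmono (by rw [e10]; linarith only [hη, hη']))
  have hR0 : (0 : ℝ) < R := by exact_mod_cast hR1
  have hR1r : (1 : ℝ) ≤ R := by exact_mod_cast hR1
  have hBX : (B : ℝ) ≤ X ^ (1 / 2 + η) := Nat.floor_le (hpos _).le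
  have hAl : (A : ℝ) ≤ l / (R : ℝ) ^ 5 := Nat.floor_le (by positivity)
  have hAX : (A : ℝ) ≤ X ^ (1 / 2 : ℝ) := by
    refine hAl.trans (le_trans ?_ hl2)
    apply div_le_self (by positivity)
    exact one_le_pow₀ hR1r
  have hAlow : X ^ (1 / 2 - 6 * η) / 2 ≤ A := by
    have h1 : X ^ (1 / 2 - 6 * η) ≤ l / (R : ℝ) ^ 5 := by
      rw [le_div_iff₀ (by positivity)]
      have h5 : (R : ℝ) ^ 5 ≤ X ^ (5 * η) := by
        calc (R : ℝ) ^ 5 ≤ (X ^ η) ^ 5 := pow_le_pow_left₀ hR0.le hRX 5
          _ = X ^ (5 * η) := by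
            rw [← Real.rpow_natCast (X ^ η) 5, ← Real.rpow_mul hX0.le]
            congr 1
            push_cast
            ring
      calc X ^ (1 / 2 - 6 * η) * (R : ℝ) ^ 5 ≤ X ^ (1 / 2 - 6 * η) * X ^ (5 * η) :=
            mul_le_mul_of_nonneg_left h5 (hpos _).le
        _ = X ^ (1 / 2 - η) := by
            rw [hmul]
            congr 1
            ring
        _ ≤ l := hl1
    have h2 : (l : ℝ) / (R : ℝ) ^ 5 < A + 1 := Nat.lt_floor_add_one _
    have h3 : 2 ≤ X ^ (1 / 2 - 6 * η) := by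
      have : X ^ (0.0001 : ℝ) ≤ X ^ (1 / 2 - 6 * η) := hmono (by linarith only [hη, hη'])
      linarith only [hη, hη', hT, this]
    linarith only [h1, h2, h3]
  have hA4995 : X ^ (0.4995 : ℝ) ≤ A := by
    refine le_trans ?_ hAlow
    rw [le_div_iff₀ (by norm_num)]
    calc X ^ (0.4995 : ℝ) * 2 ≤ X ^ (0.4995 : ℝ) * X ^ (0.0001 : ℝ) :=
          mul_le_mul_of_nonneg_left (by linarith only [hη, hη', hT]) (hpos _).le
      _ = X ^ (0.4996 : ℝ) := by rw [hmul]; norm_num
      _ ≤ X ^ (1 / 2 - 6 * η) := hmono (by linarith only [hη, hη'])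
  have hA0 : (0 : ℝ) < A := lt_of_lt_of_le (hpos _) hA4995
  have hA1 : 1 ≤ A := by
    have : (0 : ℝ) < A := hA0
    exact_mod_cast this
  have hAB : A ≤ B := Nat.le_floor (hAX.trans (hmono (by linarith only [hη])))
  have hB0 : (0 : ℝ) < B := by exact_mod_cast (by omega : 0 < B)
  have hBX2 : (B : ℝ) ≤ X ^ (0.5005 : ℝ) := hBX.trans (hmono (by linarith only [hη, hη']))
  have hRA : R ≤ A := by
    have : (R : ℝ) ≤ A := hRX2.trans ((hmono (by norm_num)).trans hA4995)
    exact_mod_cast this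
  have hRA' : R' ≤ A := by
    have : (R' : ℝ) ≤ A := hRX'.trans ((hmono (by norm_num)).trans hA4995)
    exact_mod_cast this
  have hx1 : 1 ≤ x := by
    have : (1 : ℝ) ≤ x := hX1.trans hx
    exact_mod_cast this
  have hh : ∀ n ∈ s, Squarefree n ∧ ∀ p : ℕ, p.Prime → p ∣ n → p ≤ B := by
    intro n hn
    exact ⟨(h n hn).1, fun p hp hpn => Nat.le_floor ((h n hn).2 p hp hpn)⟩
  have key := smooth_split hR1 hR1' hx1 hRA hRA' hA1 hAB s hs hh
  have hRXlow : X ^ (0.0001 : ℝ) / 2 ≤ R' := by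
    have h2 : X ^ (1 / 10000 : ℝ) < R' + 1 := Nat.lt_floor_add_one _
    rw [e10] at h2
    linarith only [hη, hη', hT, h2]
  clear_value R R' A B
  have hLP1 := hLP X hX₁ x l hx hx2 hl2 R R' hR1 hR1' hRX2 hRX' A B hA4995 hAB hBX2
  -- logarithms
  have hG := selG_pos hR1
  have hG' := selG_pos hR1'
  set Q := (l : ℝ) / selG R with hQ
  have hl0 : (0 : ℝ) < l := lt_of_lt_of_le (hpos _) hl1
  have hQ0 : 0 < Q := by positivity
  have hlA : Real.log A ≤ L / 2 := by
    have := Real.log_le_log hA0 hAX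
    rw [hlogX] at this
    linarith only [this]
  have hlB : Real.log B ≤ (1 / 2 + η) * L := by
    have := Real.log_le_log hB0 hBX
    rwa [hlogX] at this
  have hlB0 : 0 ≤ Real.log B := Real.log_nonneg (by exact_mod_cast hA1.trans hAB)
  have hlB2 : Real.log B ≤ 0.51 * L := by nlinarith only [hη', hL8, hlB, hη]
  have hlA2 : (1 / 2 - 6 * η) * L - Real.log 2 ≤ Real.log A := by
    have := Real.log_le_log (by have := hpos (1 / 2 - 6 * η); positivity) hAlow
    rwa [Real.log_div (hpos _).ne' (by norm_num), hlogX] at this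
  have hlog2 : Real.log 2 ≤ 0.7 := by
    have := Real.log_two_lt_d9
    linarith only [hη, hη', this]
  have hU : Real.log ((B : ℝ) / A) ≤ 7 * η * L + 1 := by
    rw [Real.log_div hB0.ne' hA0.ne']
    linarith only [hη, hη', hlB, hlA2, hlog2]
  have hU0 : 0 ≤ Real.log ((B : ℝ) / A) := by
    apply Real.log_nonneg
    rw [le_div_iff₀ hA0, one_mul]
    exact_mod_cast hAB
  have hSp : L / 10001 ≤ selG R' := by
    have h3 := Real.log_le_log (by have := hpos (0.0001 : ℝ); positivity) hRXlow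
    rw [Real.log_div (hpos _).ne' (by norm_num), hlogX] at h3
    have h4 := selG_ge_log hR1'
    linarith only [hη, hη', hL8, hlog2, h3, h4]
  have hSR := selG_le_self R
  have hlR : (l : ℝ) / R ≤ Q := div_le_div_of_nonneg_left hl0.le hG hSR
  -- second term
  have hT2 : 2 * (R : ℝ) ^ 2 * A ≤ 2 * Q := by
    calc 2 * (R : ℝ) ^ 2 * A ≤ 2 * (R : ℝ) ^ 2 * (l / (R : ℝ) ^ 5) :=
          mul_le_mul_of_nonneg_left hAl (by positivity)
      _ = 2 * (l / (R : ℝ) ^ 3) := by field_simp
      _ ≤ 2 * (l / R) := by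
          apply mul_le_mul_of_nonneg_left _ (by norm_num)
          apply div_le_div_of_nonneg_left hl0.le hR0
          calc (R : ℝ) = (R : ℝ) ^ 1 := (pow_one _).symm
            _ ≤ (R : ℝ) ^ 3 := pow_le_pow_right₀ hR1r (by norm_num)
      _ ≤ 2 * Q := by linarith only [hlR]
  -- third term
  have hT3a : l * Real.log ((B : ℝ) / A) / (selG R * selG R') ≤
      Q * ((7 * η * L + 1) * (10001 / L)) := by
    have e1 : l * Real.log ((B : ℝ) / A) / (selG R * selG R') =
        Q * (Real.log ((B : ℝ) / A) * (1 / selG R')) := by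
      rw [hQ]
      ring
    rw [e1]
    apply mul_le_mul_of_nonneg_left _ hQ0.le
    apply mul_le_mul hU _ (by positivity) (by positivity)
    rw [div_le_div_iff₀ hG' hL0]
    linarith only [hSp]
  have hT3b : X ^ (0.46 : ℝ) ≤ 0.001 * Q := by
    have h1 : X ^ (0.49 : ℝ) ≤ Q := by
      refine le_trans ?_ hlR
      rw [le_div_iff₀ hR0]
      calc X ^ (0.49 : ℝ) * R ≤ X ^ (0.49 : ℝ) * X ^ η :=
            mul_le_mul_of_nonneg_left hRX (hpos _).le
        _ = X ^ (0.49 + η) := by rw [hmul]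
        _ ≤ X ^ (1 / 2 - η) := hmono (by linarith only [hη, hη'])
        _ ≤ l := hl1
    have h2 : 1000 * X ^ (0.46 : ℝ) ≤ X ^ (0.49 : ℝ) := by
      calc 1000 * X ^ (0.46 : ℝ) ≤ X ^ (0.03 : ℝ) * X ^ (0.46 : ℝ) := by
            apply mul_le_mul_of_nonneg_right _ (hpos _).le
            have : X ^ (0.0001 : ℝ) ≤ X ^ (0.03 : ℝ) := hmono (by norm_num)
            linarith only [hη, hη', hT, this]
        _ = X ^ (0.49 : ℝ) := by rw [hmul]; norm_num
    linarith only [h1, h2]
  have hT3 : Real.log B * ∑ k ∈ Finset.Ioc A B, selW R' k *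
        ∑ m ∈ (Finset.range (x + l)).filter (fun m => x ≤ k * m ∧ k * m < x + l), selW R m ≤
      Q * (0.0014 * L + 5101) := by
    have h1 : ∑ k ∈ Finset.Ioc A B, selW R' k *
        ∑ m ∈ (Finset.range (x + l)).filter (fun m => x ≤ k * m ∧ k * m < x + l), selW R m ≤
        Q * ((7 * η * L + 1) * (10001 / L) + 0.001) := by linarith only [hLP1, hT3a, hT3b]
    have h2 : 0 ≤ Q * ((7 * η * L + 1) * (10001 / L) + 0.001) := by positivity
    calc Real.log B * _ ≤ Real.log B * (Q * ((7 * η * L + 1) * (10001 / L) + 0.001)) :=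
          mul_le_mul_of_nonneg_left h1 hlB0
      _ ≤ 0.51 * L * (Q * ((7 * η * L + 1) * (10001 / L) + 0.001)) :=
          mul_le_mul_of_nonneg_right hlB2 h2
      _ = Q * (0.51 * 10001 * (7 * η * L + 1) * (L / L) + 0.51 * 0.001 * L) := by
          ring
      _ = Q * (0.51 * 10001 * (7 * η * L + 1) + 0.51 * 0.001 * L) := by
          rw [div_self hL0.ne', mul_one]
      _ ≤ Q * (0.0014 * L + 5101) := by
          apply mul_le_mul_of_nonneg_left _ hQ0.le
          nlinarith only [hη', hL8, hη]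
  have hT1 : Q * (Real.log A + 2) ≤ Q * (L / 2 + 2) :=
    mul_le_mul_of_nonneg_left (by linarith only [hlA]) hQ0.le
  have hW0 : 0 ≤ ∑ n ∈ s, selW R n := Finset.sum_nonneg (fun n _ => selW_nonneg R n)
  have hlx : L ≤ Real.log x := Real.log_le_log hX0 hx
  have hfin : L * ∑ n ∈ s, selW R n ≤ L * (0.52 * Q) := by
    calc L * ∑ n ∈ s, selW R n ≤ Real.log x * ∑ n ∈ s, selW R n :=
          mul_le_mul_of_nonneg_right hlx hW0
      _ ≤ Q * (Real.log A + 2) + 2 * (R : ℝ) ^ 2 * A +
          Real.log B * ∑ k ∈ Finset.Ioc A B, selW R' k *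
            ∑ m ∈ (Finset.range (x + l)).filter (fun m => x ≤ k * m ∧ k * m < x + l),
              selW R m := key
      _ ≤ Q * (L / 2 + 2) + 2 * Q + Q * (0.0014 * L + 5101) := by linarith only [hT2, hT3, hT1]
      _ = Q * (0.5014 * L + 5105) := by ring
      _ ≤ Q * (0.52 * L) := by
          apply mul_le_mul_of_nonneg_left _ hQ0.le
          linarith only [hη, hη', hL8]
      _ = L * (0.52 * Q) := by ring
  exact le_of_mul_le_mul_left hfin hL0

end Pool.Agent.MP_a187e6
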