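import Pool.Agent.MP_a187e6.CellLemmas

/-!
# Module D, step (3) : numbers of a short interval divisible by the square of a large prime
-/

namespace Pool.Agent.MP_a187e6

open Finset

lemma sum_inv_sq_le (M N : ℕ) (hM : 2 ≤ M) :
    ∑ n ∈ Finset.Ico M N, 1 / ((n : ℝ) ^ 2) ≤ 1 / ((M : ℝ) - 1) := by
  have hM2 : (2 : ℝ) ≤ M := by exact_mod_cast hM
  rcases le_or_gt N M with h | h
  · rw [Finset.Ico_eq_empty (by omega), Finset.sum_empty]
    apply div_nonneg <;> linarith
  · have hgen : ∀ K : ℕ, M ≤ K → ∑ n ∈ Finset.Ico M K, 1 / ((n : ℝ) ^ 2)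
        ≤ 1 / ((M : ℝ) - 1) - 1 / ((K : ℝ) - 1) := by
      intro K hK
      induction K, hK using Nat.le_induction with
      | base => simp
      | succ K hK ih =>
        rw [Finset.sum_Ico_succ_top hK]
        have hK2 : (2 : ℝ) ≤ K := by exact_mod_cast (by omega : 2 ≤ K)
        have h1 : 1 / ((K : ℝ) ^ 2) ≤ 1 / ((K : ℝ) - 1) - 1 / K := by
          rw [div_sub_div _ _ (by linarith) (by linarith),
            div_le_div_iff₀ (by positivity) (by nlinarith)]
          nlinarith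
        push_cast
        rw [add_sub_cancel_right]
        linarith
    have h1 := hgen N h.le
    have hN2 : (2 : ℝ) ≤ N := by exact_mod_cast (by omega : 2 ≤ N)
    have h3 : 0 < 1 / ((N : ℝ) - 1) := by apply div_pos <;> linarith
    linarith

theorem sq_part_card_le {a : ℝ} (ha : 0 < a) (ha' : a ≤ 1 / 10) : ∃ X₀ : ℝ, ∀ X : ℝ, X₀ ≤ X →
    ∀ x l : ℕ, X ≤ x → (x : ℝ) ≤ 2 * X → (l : ℝ) ≤ X ^ (1 / 2 : ℝ) →
    ∀ s : Finset ℕ, s ⊆ Finset.Ico x (x + l) →
      (∀ n ∈ s, ∃ p : ℕ, p.Prime ∧ X ^ a ≤ p ∧ p ^ 2 ∣ n) →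
      (s.card : ℝ) ≤ 3 * l * X ^ (-a) + X ^ (1 / 2 - a / 3) := by
  classical
  refine ⟨(8 : ℝ) ^ (6 / a), ?_⟩
  intro X hX x l hx1 hx2 hl s hs hsp
  have hX1 : (1 : ℝ) ≤ X := le_trans (Real.one_le_rpow (by norm_num) (by positivity)) hX
  have hX0 : (0 : ℝ) < X := by linarith
  have hbig : (8 : ℝ) ≤ X ^ (a / 6) := by
    calc (8 : ℝ) = (8 : ℝ) ^ ((6 / a) * (a / 6)) := by
          rw [show (6 / a) * (a / 6) = 1 by field_simp, Real.rpow_one]
      _ = ((8 : ℝ) ^ (6 / a)) ^ (a / 6) := by rw [Real.rpow_mul (by norm_num)]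
      _ ≤ X ^ (a / 6) := Real.rpow_le_rpow (by positivity) hX (by positivity)
  have hmono : ∀ {u v : ℝ}, u ≤ v → X ^ u ≤ X ^ v := fun h => Real.rpow_le_rpow_of_exponent_le hX1 h
  set z : ℝ := X ^ a with hz
  set y : ℝ := X ^ (1 / 2 - a / 2) with hy
  have hz8 : 8 ≤ z := hbig.trans (hmono (by linarith))
  have hy0 : 0 < y := by positivity
  have hl2 : (l : ℝ) ^ 2 ≤ X := by
    calc (l : ℝ) ^ 2 ≤ (X ^ (1 / 2 : ℝ)) ^ 2 := pow_le_pow_left₀ (Nat.cast_nonneg _) hl 2
      _ = X := by rw [← Real.rpow_natCast, ← Real.rpow_mul hX0.le]; norm_num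
  choose! p hpp hpz hpd using hsp
  rw [← Finset.card_filter_add_card_filter_not (s := s) (fun n => (p n : ℝ) ≤ y)]
  push_cast
  -- small primes
  have h1 : ((s.filter (fun n => (p n : ℝ) ≤ y)).card : ℝ) ≤ 2 * l * X ^ (-a) + y := by
    set M : ℕ := ⌈z⌉₊ with hM
    set N : ℕ := ⌊y⌋₊ + 1 with hN
    have hMz : z ≤ M := Nat.le_ceil _
    have hM2 : 2 ≤ M := by
      have : (2 : ℝ) ≤ M := by linarith
      exact_mod_cast this
    have hcover : s.filter (fun n => (p n : ℝ) ≤ y) ⊆ (Finset.Ico M N).biUnion (fun q =>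
        (Finset.Ico x (x + l)).filter (fun n => q ^ 2 ∣ n)) := by
      intro n hn
      rw [Finset.mem_filter] at hn
      rw [Finset.mem_biUnion]
      refine ⟨p n, ?_, Finset.mem_filter.2 ⟨hs hn.1, hpd n hn.1⟩⟩
      rw [Finset.mem_Ico]
      refine ⟨Nat.ceil_le.2 (hpz n hn.1), ?_⟩
      have := Nat.le_floor hn.2
      omega
    have h2 : ((s.filter (fun n => (p n : ℝ) ≤ y)).card : ℝ) ≤ ∑ q ∈ Finset.Ico M N,
        (((Finset.Ico x (x + l)).filter (fun n => q ^ 2 ∣ n)).card : ℝ) := by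
      exact_mod_cast (Finset.card_le_card hcover).trans Finset.card_biUnion_le
    have h3 : ∑ q ∈ Finset.Ico M N, (((Finset.Ico x (x + l)).filter (fun n => q ^ 2 ∣ n)).card : ℝ)
        ≤ ∑ q ∈ Finset.Ico M N, ((l : ℝ) * (1 / (q : ℝ) ^ 2) + 1) := by
      apply Finset.sum_le_sum
      intro q hq
      rw [Finset.mem_Ico] at hq
      have hq0 : 0 < q := by omega
      have h4 := card_multiples_le x l (q ^ 2) (by positivity)
      push_cast at h4
      refine h4.trans (le_of_eq ?_)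
      ring
    rw [Finset.sum_add_distrib, ← Finset.mul_sum, Finset.sum_const, Nat.card_Ico, nsmul_eq_mul,
      mul_one] at h3
    have h5 := sum_inv_sq_le M N hM2
    have h6 : ((N - M : ℕ) : ℝ) ≤ y := by
      have h7 : N - M ≤ ⌊y⌋₊ := by omega
      calc ((N - M : ℕ) : ℝ) ≤ (⌊y⌋₊ : ℝ) := by exact_mod_cast h7
        _ ≤ y := Nat.floor_le hy0.le
    have h8 : 1 / ((M : ℝ) - 1) ≤ 2 * X ^ (-a) := by
      rw [Real.rpow_neg hX0.le, ← hz, div_le_iff₀ (by linarith)]
      have h9 : z⁻¹ * z = 1 := inv_mul_cancel₀ (by linarith)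
      have h10 : z / 2 ≤ (M : ℝ) - 1 := by linarith
      have h11 : 0 < z⁻¹ := by positivity
      nlinarith
    have h12 : (l : ℝ) * ∑ q ∈ Finset.Ico M N, 1 / (q : ℝ) ^ 2 ≤ l * (2 * X ^ (-a)) :=
      mul_le_mul_of_nonneg_left (h5.trans h8) (Nat.cast_nonneg _)
    linarith
  -- large primes
  have h2 : ((s.filter (fun n => ¬ (p n : ℝ) ≤ y)).card : ℝ) ≤ 4 * z := by
    have hinj : Set.InjOn (fun n => n / (p n) ^ 2)
        (s.filter (fun n => ¬ (p n : ℝ) ≤ y) : Set ℕ) := by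
      intro n1 hn1 n2 hn2 h12
      have hn1' : n1 ∈ s.filter (fun n => ¬ (p n : ℝ) ≤ y) := hn1
      have hn2' : n2 ∈ s.filter (fun n => ¬ (p n : ℝ) ≤ y) := hn2
      rw [Finset.mem_filter] at hn1' hn2'
      simp only at h12
      have e1 := Nat.mul_div_cancel' (hpd n1 hn1'.1)
      have e2 := Nat.mul_div_cancel' (hpd n2 hn2'.1)
      have m1 := Finset.mem_Ico.1 (hs hn1'.1)
      have m2 := Finset.mem_Ico.1 (hs hn2'.1)
      set K := n1 / p n1 ^ 2 with hK
      rw [← h12] at e2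
      -- general claim
      have claim : ∀ u v : ℕ, x ≤ u ^ 2 * K → u ^ 2 * K < x + l → x ≤ v ^ 2 * K →
          v ^ 2 * K < x + l → ¬ u < v := by
        intro u v hu1 hu2 hv1 hv2 huv
        have h3 : u ^ 2 * K + 2 * u * K ≤ v ^ 2 * K := by
          have : u ^ 2 + 2 * u ≤ v ^ 2 := by nlinarith
          calc u ^ 2 * K + 2 * u * K = (u ^ 2 + 2 * u) * K := by ring
            _ ≤ v ^ 2 * K := Nat.mul_le_mul_right _ this
        have h4 : 2 * u * K < l := by omega
        have h5 : ((2 * u * K : ℕ) : ℝ) < l := by exact_mod_cast h4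
        have hK1 : 1 ≤ K := by
          rcases Nat.eq_zero_or_pos K with h0 | h0
          · rw [h0, mul_zero] at hu1
            have : (x : ℝ) ≤ 0 := by exact_mod_cast hu1
            linarith
          · exact h0
        have hK1' : (1 : ℝ) ≤ K := by exact_mod_cast hK1
        have h6 : X ≤ (u : ℝ) ^ 2 * K := by
          have : (x : ℝ) ≤ ((u ^ 2 * K : ℕ) : ℝ) := by exact_mod_cast hu1
          push_cast at this
          linarith
        have h7 : ((2 * u * K : ℕ) : ℝ) ^ 2 < (l : ℝ) ^ 2 :=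
          pow_lt_pow_left₀ h5 (Nat.cast_nonneg _) (by norm_num)
        push_cast at h7
        have h8 : (u : ℝ) ^ 2 * K ≤ (2 * u * K) ^ 2 := by
          have h9 : (0 : ℝ) ≤ (u : ℝ) ^ 2 * K := by positivity
          have h10 : (2 * (u : ℝ) * K) ^ 2 = 4 * K * ((u : ℝ) ^ 2 * K) := by ring
          rw [h10]
          nlinarith
        linarith
      have hx1 : x ≤ p n1 ^ 2 * K := by rw [e1]; exact m1.1
      have hx2 : p n1 ^ 2 * K < x + l := by rw [e1]; exact m1.2
      have hy1 : x ≤ p n2 ^ 2 * K := by rw [e2]; exact m2.1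
      have hy2 : p n2 ^ 2 * K < x + l := by rw [e2]; exact m2.2
      have c1 := claim (p n1) (p n2) hx1 hx2 hy1 hy2
      have c2 := claim (p n2) (p n1) hy1 hy2 hx1 hx2
      have hpe : p n1 = p n2 := by omega
      rw [← e1, ← e2, hpe]
    have hmaps : ∀ n ∈ s.filter (fun n => ¬ (p n : ℝ) ≤ y),
        (fun n => n / (p n) ^ 2) n ∈ range (⌊3 * z⌋₊ + 1) := by
      intro n hn
      rw [Finset.mem_filter] at hn
      have m1 := Finset.mem_Ico.1 (hs hn.1)
      have hyp : y < p n := not_le.1 hn.2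
      rw [Finset.mem_range]
      apply Nat.lt_succ_of_le
      apply Nat.le_floor
      have hp0 : (0 : ℝ) < p n := by linarith
      calc ((n / (p n) ^ 2 : ℕ) : ℝ) ≤ (n : ℝ) / ((p n) ^ 2 : ℕ) := Nat.cast_div_le
        _ ≤ 3 * z := by
          push_cast
          rw [div_le_iff₀ (by positivity)]
          have h3 : (n : ℝ) ≤ 3 * X := by
            have h4 : (n : ℝ) ≤ ((x + l : ℕ) : ℝ) := by exact_mod_cast m1.2.le
            push_cast at h4
            have h5 : (l : ℝ) ≤ X := by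
              refine hl.trans ?_
              calc X ^ (1 / 2 : ℝ) ≤ X ^ (1 : ℝ) := hmono (by norm_num)
                _ = X := Real.rpow_one X
            linarith
          have h6 : y ^ 2 = X ^ (1 - a) := by
            rw [hy, ← Real.rpow_natCast, ← Real.rpow_mul hX0.le]
            congr 1
            push_cast
            ring
          have h7 : z * y ^ 2 = X := by
            rw [h6, hz, ← Real.rpow_add hX0]
            rw [show a + (1 - a) = 1 by ring, Real.rpow_one]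
          have h8 : y ^ 2 ≤ (p n : ℝ) ^ 2 := pow_le_pow_left₀ hy0.le hyp.le 2
          have h9 : z * y ^ 2 ≤ z * (p n : ℝ) ^ 2 := mul_le_mul_of_nonneg_left h8 (by positivity)
          rw [h7] at h9
          linarith
    have h3 := Finset.card_le_card_of_injOn _ hmaps hinj
    rw [Finset.card_range] at h3
    have h4 : ((s.filter (fun n => ¬ (p n : ℝ) ≤ y)).card : ℝ) ≤ (⌊3 * z⌋₊ : ℝ) + 1 := by
      exact_mod_cast h3
    have h5 : (⌊3 * z⌋₊ : ℝ) ≤ 3 * z := Nat.floor_le (by positivity)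
    linarith
  have h3 : y ≤ 1 / 8 * X ^ (1 / 2 - a / 3) := by
    have h4 : X ^ (1 / 2 - a / 3) = y * X ^ (a / 6) := by
      rw [hy, ← Real.rpow_add hX0]; congr 1; ring
    rw [h4]
    nlinarith
  have h4 : 4 * z ≤ 1 / 2 * X ^ (1 / 2 - a / 3) := by
    have h5 : z * X ^ (a / 6) ≤ X ^ (1 / 2 - a / 3) := by
      rw [hz, ← Real.rpow_add hX0]
      exact hmono (by linarith)
    nlinarith
  have h5 : (0 : ℝ) ≤ l * X ^ (-a) := by positivity
  have h6 : 0 < X ^ (1 / 2 - a / 3) := by positivity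
  linarith

end Pool.Agent.MP_a187e6
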