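import Mathlib
import Pool.Agent.MP_a187e6.SmoothPart
import Pool.Agent.MP_a187e6.SquarePart
import Pool.Agent.MP_a187e6.CellLemmas

/-!
Module D: every cell contains many eligible numbers `m q` (Selberg weights of small level).
-/

namespace Pool.Agent.MP_a187e6

open Finset Real

/-- trivial pointwise bound of the weight -/
lemma selW_le_pow {R : ℕ} (hR : 1 ≤ R) {n : ℕ} (hn : n ≠ 0) :
    selW R n ≤ 4 ^ n.primeFactors.card := by
  classical
  have h1 : |∑ d ∈ n.divisors, selLam R d| ≤ 2 ^ n.primeFactors.card := by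
    have h2 : ∑ d ∈ n.divisors, selLam R d = ∑ d ∈ n.divisors.filter Squarefree, selLam R d := by
      rw [Finset.sum_filter]
      apply Finset.sum_congr rfl
      intro d _
      split_ifs with h
      · rfl
      · exact selLam_eq_zero_of_not_squarefree h
    rw [h2]
    refine le_trans (Finset.abs_sum_le_sum_abs _ _) ?_
    have h3 : ∑ d ∈ n.divisors.filter Squarefree, |selLam R d| ≤
        ∑ d ∈ n.divisors.filter Squarefree, (1 : ℝ) :=
      Finset.sum_le_sum (fun d _ => abs_selLam_le hR d)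
    refine le_trans h3 ?_
    rw [Finset.sum_const, nsmul_eq_mul, mul_one]
    have h4 : (n.divisors.filter Squarefree).card ≤ (n.primeFactors.powerset).card := by
      apply Finset.card_le_card_of_injOn Nat.primeFactors
      · intro d hd
        rw [Finset.mem_coe, mem_filter, Nat.mem_divisors] at hd
        rw [Finset.mem_coe, mem_powerset]
        exact Nat.primeFactors_mono hd.1.1 hn
      · intro a ha b hb hab
        rw [Finset.mem_coe, mem_filter] at ha hb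
        rw [← Nat.prod_primeFactors_of_squarefree ha.2,
          ← Nat.prod_primeFactors_of_squarefree hb.2, hab]
    rw [Finset.card_powerset] at h4
    exact_mod_cast h4
  unfold selW
  calc (∑ d ∈ n.divisors, selLam R d) ^ 2 = |∑ d ∈ n.divisors, selLam R d| ^ 2 := (sq_abs _).symm
    _ ≤ (2 ^ n.primeFactors.card) ^ 2 := pow_le_pow_left₀ (abs_nonneg _) h1 2
    _ = 4 ^ n.primeFactors.card := by
        rw [← pow_mul, mul_comm, pow_mul]
        norm_num

lemma pow_card_primeFactors_le {z : ℝ} (hz : 0 ≤ z) {n : ℕ} (hn : n ≠ 0)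
    (h : ∀ p : ℕ, p.Prime → p ∣ n → z ≤ p) : z ^ n.primeFactors.card ≤ n := by
  have h1 : ∏ p ∈ n.primeFactors, p ≤ n :=
    Nat.le_of_dvd (Nat.pos_of_ne_zero hn) (Nat.prod_primeFactors_dvd n)
  calc z ^ n.primeFactors.card = ∏ _p ∈ n.primeFactors, z := by rw [Finset.prod_const]
    _ ≤ ∏ p ∈ n.primeFactors, (p : ℝ) := by
        apply Finset.prod_le_prod
        · intro _ _; exact hz
        · intro p hp
          exact h p (Nat.prime_of_mem_primeFactors hp) (Nat.dvd_of_mem_primeFactors hp)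
    _ = ((∏ p ∈ n.primeFactors, p : ℕ) : ℝ) := by push_cast; rfl
    _ ≤ n := by exact_mod_cast h1

/-- weight of the numbers with a small prime factor -/
lemma small_part_le {R Z x l : ℕ} (hR : 1 ≤ R) (hZ : 1 ≤ Z) (hx : 1 ≤ x) (s : Finset ℕ)
    (hs : s ⊆ Ico x (x + l)) (h : ∀ n ∈ s, ∃ p : ℕ, p.Prime ∧ p ≤ Z ∧ p ∣ n) :
    ∑ n ∈ s, selW R n ≤ l / selG R * (2.5 * Real.exp 1 * (Real.log Z + 2) / selG R) +
      (R : ℝ) ^ 2 * Z := by
  classical
  have hG := selG_pos hR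
  have h1 : ∑ n ∈ s, selW R n ≤ ∑ p ∈ (Icc 1 Z).filter Nat.Prime,
      ∑ n ∈ (Ico x (x + l)).filter (fun n => p ∣ n), selW R n := by
    have h2 : ∀ n ∈ s, selW R n ≤
        ∑ p ∈ (Icc 1 Z).filter Nat.Prime, (if p ∣ n then selW R n else 0) := by
      intro n hn
      obtain ⟨p, hp, hpZ, hpn⟩ := h n hn
      have h3 : (if p ∣ n then selW R n else 0) ≤
          ∑ p ∈ (Icc 1 Z).filter Nat.Prime, (if p ∣ n then selW R n else 0) := by
        apply Finset.single_le_sum (f := fun p => if p ∣ n then selW R n else 0)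
        · intro q _
          split_ifs
          · exact selW_nonneg R n
          · exact le_rfl
        · rw [mem_filter, mem_Icc]
          exact ⟨⟨hp.one_lt.le, hpZ⟩, hp⟩
      rwa [if_pos hpn] at h3
    refine le_trans (Finset.sum_le_sum h2) ?_
    rw [Finset.sum_comm]
    apply Finset.sum_le_sum
    intro p _
    rw [← Finset.sum_filter]
    apply Finset.sum_le_sum_of_subset_of_nonneg (Finset.filter_subset_filter _ hs)
    intro n _ _
    exact selW_nonneg R n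
  refine le_trans h1 ?_
  have hlog2 : (0.6931 : ℝ) < Real.log 2 := by
    have := Real.log_two_gt_d9
    linarith only [this]
  have h2 : ∀ p ∈ (Icc 1 Z).filter Nat.Prime,
      ∑ n ∈ (Ico x (x + l)).filter (fun n => p ∣ n), selW R n ≤
      l / selG R * (2.5 * Real.exp 1 / selG R) * (Real.log p / p) + (R : ℝ) ^ 2 := by
    intro p hp
    rw [mem_filter, mem_Icc] at hp
    have hp0 : (0 : ℝ) < p := by exact_mod_cast hp.2.pos
    have hp2 : (2 : ℝ) ≤ p := by exact_mod_cast hp.2.two_le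
    have hlogp : Real.log 2 ≤ Real.log p := Real.log_le_log (by norm_num) hp2
    have h3 := sum_selW_dvd_le hR x l p hx hp.2
    have h4 := sum_totient_le R p hp.1.1
    have h5 : Real.exp 1 * (1 + Real.log p) ≤ Real.exp 1 * (2.5 * Real.log p) := by
      apply mul_le_mul_of_nonneg_left _ (Real.exp_pos 1).le
      linarith only [hlog2, hlogp]
    have h6 : (l : ℝ) / (p * (selG R) ^ 2) *
        (∑ r ∈ (sqf R).filter (fun r => R < p * r), (1 : ℝ) / (Nat.totient r)) ≤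
        (l : ℝ) / (p * (selG R) ^ 2) * (Real.exp 1 * (2.5 * Real.log p)) :=
      mul_le_mul_of_nonneg_left (h4.trans h5) (by positivity)
    have h7 : (l : ℝ) / (p * (selG R) ^ 2) * (Real.exp 1 * (2.5 * Real.log p)) =
        l / selG R * (2.5 * Real.exp 1 / selG R) * (Real.log p / p) := by
      field_simp
    linarith only [h3, h6, h7]
  refine le_trans (Finset.sum_le_sum h2) ?_
  rw [Finset.sum_add_distrib, ← Finset.mul_sum, Finset.sum_const, nsmul_eq_mul]
  have h3 := sum_log_div_le Z hZ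
  have h4 : (((Icc 1 Z).filter Nat.Prime).card : ℝ) ≤ Z := by
    have : ((Icc 1 Z).filter Nat.Prime).card ≤ (Icc 1 Z).card := Finset.card_filter_le _ _
    rw [Nat.card_Icc] at this
    exact_mod_cast (by omega : ((Icc 1 Z).filter Nat.Prime).card ≤ Z)
  have h5 : (l : ℝ) / selG R * (2.5 * Real.exp 1 / selG R) *
      ∑ p ∈ (Icc 1 Z).filter Nat.Prime, Real.log p / p ≤
      l / selG R * (2.5 * Real.exp 1 / selG R) * (Real.log Z + 2) :=
    mul_le_mul_of_nonneg_left h3 (by positivity)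
  have h6 : (((Icc 1 Z).filter Nat.Prime).card : ℝ) * (R : ℝ) ^ 2 ≤ Z * (R : ℝ) ^ 2 :=
    mul_le_mul_of_nonneg_right h4 (by positivity)
  have h7 : (l : ℝ) / selG R * (2.5 * Real.exp 1 / selG R) * (Real.log Z + 2) =
      l / selG R * (2.5 * Real.exp 1 * (Real.log Z + 2) / selG R) := by ring
  linarith only [h5, h6, h7]

lemma exists_log_rpow_small {b ε : ℝ} (hb : 0 < b) (hε : 0 < ε) :
    ∃ X₀ : ℝ, ∀ X : ℝ, X₀ ≤ X → (2 + Real.log X) * X ^ (-b) ≤ ε := by
  have h1 : Filter.Tendsto (fun X : ℝ => (2 + Real.log X) * X ^ (-b)) Filter.atTop (nhds 0) := by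
    have h2 : Filter.Tendsto (fun X : ℝ => 2 * X ^ (-b)) Filter.atTop (nhds (2 * 0)) :=
      (tendsto_rpow_neg_atTop hb).const_mul 2
    have h3 : Filter.Tendsto (fun X : ℝ => Real.log X * X ^ (-b)) Filter.atTop (nhds 0) := by
      have h4 := (isLittleO_log_rpow_atTop hb).tendsto_div_nhds_zero
      refine h4.congr' ?_
      filter_upwards [Filter.eventually_gt_atTop 0] with X hX
      rw [Real.rpow_neg hX.le, div_eq_mul_inv]
    have h5 := h2.add h3
    simp only [mul_zero, add_zero] at h5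
    refine h5.congr (fun X => by ring)
  have h2 := h1.eventually_le_const hε
  rw [Filter.eventually_atTop] at h2
  exact h2

lemma half_le_floor {y : ℝ} (hy : 1 ≤ y) : y / 2 ≤ (⌊y⌋₊ : ℝ) := by
  have h1 : (1 : ℝ) ≤ ⌊y⌋₊ := by
    exact_mod_cast Nat.le_floor (by simpa using hy)
  have h2 : y < ⌊y⌋₊ + 1 := Nat.lt_floor_add_one _
  linarith only [h1, h2]

/-- numbers without small prime factors have bounded weight -/
lemma selW_le_const {a : ℝ} (ha : 0 < a) : ∃ M : ℝ, 1 ≤ M ∧ ∀ X : ℝ, 2 ≤ X → ∀ R : ℕ, 1 ≤ R →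
    ∀ n : ℕ, n ≠ 0 → (n : ℝ) ≤ 2 * X → (∀ p : ℕ, p.Prime → p ∣ n → X ^ a ≤ p) →
    selW R n ≤ M := by
  refine ⟨4 ^ ⌊2 / a⌋₊, one_le_pow₀ (by norm_num), fun X hX R hR n hn hnX h => ?_⟩
  refine le_trans (selW_le_pow hR hn) ?_
  apply pow_le_pow_right₀ (by norm_num)
  apply Nat.le_floor
  have hX0 : (0 : ℝ) < X := by linarith only [hX]
  have h1 := pow_card_primeFactors_le (Real.rpow_nonneg hX0.le a) hn h
  rw [← Real.rpow_natCast, ← Real.rpow_mul hX0.le] at h1
  have h2 : X ^ (a * (n.primeFactors.card : ℝ)) ≤ X ^ (2 : ℝ) := by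
    refine h1.trans (hnX.trans ?_)
    rw [Real.rpow_two]
    nlinarith only [hX]
  have h3 := (Real.rpow_le_rpow_left_iff (by linarith only [hX] : (1 : ℝ) < X)).mp h2
  rw [le_div_iff₀ ha]
  linarith only [h3]

lemma selG_le_log {R : ℕ} (hR : 1 ≤ R) : selG R ≤ Real.exp 1 * (1 + Real.log (R + 1)) := by
  have h1 := sum_totient_le R (R + 1) (by omega)
  have h2 : (sqf R).filter (fun r => R < (R + 1) * r) = sqf R := by
    apply Finset.filter_true_of_mem
    intro r hr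
    rw [mem_sqf] at hr
    nlinarith only [hr.1.1, hr]
  rw [h2] at h1
  unfold selG
  push_cast at h1
  exact h1

theorem elig_aux {η a : ℝ} (hη : 0 < η) (hη' : η ≤ 1 / 10 ^ 8) (ha : a = η / 1000) :
    ∃ c : ℝ, 0 < c ∧ ∃ X₀ : ℝ, ∀ X : ℝ, X₀ ≤ X → ∀ x l : ℕ, X ≤ x → (x : ℝ) + l ≤ 2 * X →
      X ^ (1 / 2 - a / 10) ≤ l → (l : ℝ) ≤ X ^ (1 / 2 : ℝ) →
      ∃ s : Finset ℕ, s ⊆ Ico x (x + l) ∧
        (∀ n ∈ s, ∃ m q : ℕ, n = m * q ∧ q.Prime ∧ X ^ (1 / 2 + a) < q ∧ 1 < m ∧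
          ∀ p : ℕ, p.Prime → p ∣ m → X ^ a ≤ p) ∧
        c * l / Real.log X ≤ (s.card : ℝ) := by
  classical
  have ha0 : 0 < a := by rw [ha]; positivity
  have hη1 : η ≤ 1 / 100000000 := by norm_num at hη' ⊢; exact hη'
  have ha1 : a ≤ 1 / 10 := by rw [ha]; linarith only [hη']
  obtain ⟨M, hM1, hM⟩ := selW_le_const ha0
  have hM0 : 0 < M := by linarith only [hM1]
  obtain ⟨X₁, hX₁⟩ := smooth_part_le hη hη'
  obtain ⟨X₂, hX₂⟩ := sq_part_card_le ha0 ha1
  obtain ⟨X₃, hX₃⟩ := exists_log_rpow_small (b := a / 5) (ε := 1 / (1000 * M))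
    (by positivity) (by positivity)
  obtain ⟨X₄, hX₄⟩ := exists_log_rpow_small (b := 1 / 4) (ε := 1 / 1000) (by norm_num) (by norm_num)
  refine ⟨2 / (5 * M), by positivity, max (max (max X₁ X₂) (max X₃ X₄)) (Real.exp (10 ^ 5 / η)), ?_⟩
  intro X hX x l hx hxl hl hl'
  have hXe : Real.exp (10 ^ 5 / η) ≤ X := le_trans (le_max_right _ _) hX
  have hX1 : X₁ ≤ X := le_trans (le_trans (le_trans (le_max_left _ _) (le_max_left _ _))
    (le_max_left _ _)) hX
  have hX2 : X₂ ≤ X := le_trans (le_trans (le_trans (le_max_right _ _) (le_max_left _ _))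
    (le_max_left _ _)) hX
  have hX3 : X₃ ≤ X := le_trans (le_trans (le_trans (le_max_left _ _) (le_max_right _ _))
    (le_max_left _ _)) hX
  have hX4 : X₄ ≤ X := le_trans (le_trans (le_trans (le_max_right _ _) (le_max_right _ _))
    (le_max_left _ _)) hX
  have hX0 : 0 < X := lt_of_lt_of_le (Real.exp_pos _) hXe
  set L := Real.log X with hLdef
  have hL1 : 10 ^ 5 / η ≤ L := by
    rw [hLdef, Real.le_log_iff_exp_le hX0]; exact hXe
  have hL2 : 10 ^ 5 ≤ η * L := by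
    rw [div_le_iff₀ hη] at hL1
    linarith only [hL1]
  have hL3 : (10 ^ 13 : ℝ) ≤ L := by
    have : (10 ^ 13 : ℝ) ≤ 10 ^ 5 / η := by
      rw [le_div_iff₀ hη]
      nlinarith only [hη']
    linarith only [hL1, this]
  have hL0 : 0 < L := by linarith only [hL3]
  have hXL : X = Real.exp L := (Real.exp_log hX0).symm
  have hX2' : 2 ≤ X := by
    have := Real.add_one_le_exp L
    rw [← hXL] at this
    linarith only [hη', ha, ha0, hL3, this]
  have hpos : ∀ t : ℝ, 0 < X ^ t := fun t => Real.rpow_pos_of_pos hX0 t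
  have hmono : ∀ {s t : ℝ}, s ≤ t → X ^ s ≤ X ^ t := fun h =>
    Real.rpow_le_rpow_of_exponent_le (by linarith only [hη', ha, ha0, hX2']) h
  have hone : ∀ {t : ℝ}, 0 ≤ t → 1 ≤ X ^ t := fun h => Real.one_le_rpow (by linarith only [hη', ha, ha0, hX2']) h
  have hadd : ∀ s t : ℝ, X ^ s * X ^ t = X ^ (s + t) := fun s t => (Real.rpow_add hX0 s t).symm
  have hlogr : ∀ t : ℝ, Real.log (X ^ t) = t * L := fun t => Real.log_rpow hX0 t
  -- parameters
  set R := ⌊X ^ η⌋₊ with hRdef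
  set Z := ⌊X ^ a⌋₊ with hZdef
  set R' := ⌊X ^ (1 / 10 : ℝ)⌋₊ with hR'def
  have hR1 : 1 ≤ R := Nat.le_floor (by simpa using hone hη.le)
  have hZ1 : 1 ≤ Z := Nat.le_floor (by simpa using hone ha0.le)
  have hRX : (R : ℝ) ≤ X ^ η := Nat.floor_le (hpos _).le
  have hZX : (Z : ℝ) ≤ X ^ a := Nat.floor_le (hpos _).le
  have hR'X : (R' : ℝ) ≤ X ^ (1 / 10 : ℝ) := Nat.floor_le (hpos _).le
  have hRh : X ^ η / 2 ≤ R := half_le_floor (hone hη.le)
  have hR'h : X ^ (1 / 10 : ℝ) / 2 ≤ R' := half_le_floor (hone (by norm_num))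
  have hlog2 : Real.log 2 < 0.7 := by
    have := Real.log_two_lt_d9
    linarith only [hη', ha, ha0, this]
  have hlog2' : 0 < Real.log 2 := Real.log_pos (by norm_num)
  have hR0 : (0 : ℝ) < R := by exact_mod_cast hR1
  have hlogR : η * L - 0.7 ≤ Real.log R := by
    have h1 : Real.log (X ^ η / 2) ≤ Real.log R := Real.log_le_log (by positivity) hRh
    rw [Real.log_div (hpos _).ne' (by norm_num), hlogr] at h1
    linarith only [hlog2, h1]
  have hlogR' : L / 10 - 0.7 ≤ Real.log R' := by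
    have h1 : Real.log (X ^ (1 / 10 : ℝ) / 2) ≤ Real.log R' :=
      Real.log_le_log (by positivity) hR'h
    rw [Real.log_div (hpos _).ne' (by norm_num), hlogr] at h1
    linarith only [hlog2, h1]
  have hlogZ : Real.log Z ≤ a * L := by
    have h1 : Real.log Z ≤ Real.log (X ^ a) :=
      Real.log_le_log (by exact_mod_cast hZ1) hZX
    rwa [hlogr] at h1
  set S := selG R with hSdef
  have hS0 : 0 < S := selG_pos hR1
  have hS1 : η * L - 0.7 ≤ S := hlogR.trans (selG_ge_log hR1)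
  have hS2 : S ≤ Real.exp 1 * (1.7 + η * L) := by
    refine le_trans (selG_le_log hR1) ?_
    apply mul_le_mul_of_nonneg_left _ (Real.exp_pos 1).le
    have h1 : Real.log ((R : ℝ) + 1) ≤ Real.log (X ^ η * 2) := by
      apply Real.log_le_log (by positivity)
      have := hone hη.le
      linarith only [hRX, this]
    rw [Real.log_mul (hpos _).ne' (by norm_num), hlogr] at h1
    linarith only [hlog2, h1]
  have hexp : Real.exp 1 < 2.7182818286 := Real.exp_one_lt_d9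
  have hexp0 : 0 < Real.exp 1 := Real.exp_pos 1
  have hηL : η * L ≤ L / 100000000 := by
    have := mul_le_mul_of_nonneg_right hη1 hL0.le
    linarith only [this]
  have hS3 : S ≤ L / 10000 := by
    refine hS2.trans ?_
    nlinarith only [hL3, hηL, hη', hexp, ha, ha0, hL2]
  have hSX : S ≤ X ^ η := (selG_le_self R).trans hRX
  have hl0 : (0 : ℝ) < l := lt_of_lt_of_le (hpos _) hl
  have hlS : 0 < (l : ℝ) / S := by positivity
  have hx1 : 1 ≤ x := by
    have : (1 : ℝ) ≤ x := by linarith only [hη', ha, ha0, hx, hX2']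
    exact_mod_cast this
  have hx2X : (x : ℝ) ≤ 2 * X := by linarith only [hxl, hl0]
  -- small quantities
  have hq1 : X ^ (-(1 / 4) : ℝ) ≤ 1 / 1000 := by
    have h1 := hX₄ X hX4
    rw [← hLdef] at h1
    have h2 : 1 * X ^ (-(1 / 4) : ℝ) ≤ (2 + L) * X ^ (-(1 / 4) : ℝ) :=
      mul_le_mul_of_nonneg_right (by linarith only [hη', ha, ha0, hL3]) (hpos _).le
    linarith only [h1, h2]
  have hsmall : ∀ y : ℝ, y * S ≤ X ^ (1 / 4 - a / 10) → y ≤ 1 / 1000 * (l / S) := by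
    intro y hy
    have h1 : X ^ (1 / 4 - a / 10) = X ^ (1 / 2 - a / 10) * X ^ (-(1 / 4) : ℝ) := by
      rw [hadd]; congr 1; ring
    have h2 : X ^ (1 / 2 - a / 10) * X ^ (-(1 / 4) : ℝ) ≤ l * (1 / 1000) :=
      mul_le_mul hl hq1 (hpos _).le hl0.le
    rw [← mul_div_assoc, le_div_iff₀ hS0]
    linarith only [hy, h1, h2]
  have hR2 : (R : ℝ) ^ 2 ≤ 1 / 1000 * (l / S) := by
    apply hsmall
    calc (R : ℝ) ^ 2 * S ≤ (X ^ η) ^ 2 * X ^ η := by gcongr
      _ = X ^ (η + η + η) := by rw [pow_two, hadd, hadd]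
      _ ≤ X ^ (1 / 4 - a / 10) := hmono (by linarith only [hη', ha, ha0])
  have hR2Z : (R : ℝ) ^ 2 * Z ≤ 1 / 1000 * (l / S) := by
    apply hsmall
    calc (R : ℝ) ^ 2 * Z * S ≤ (X ^ η) ^ 2 * X ^ a * X ^ η := by gcongr
      _ = X ^ (η + η + a + η) := by rw [pow_two, hadd, hadd, hadd]
      _ ≤ X ^ (1 / 4 - a / 10) := hmono (by linarith only [hη', ha, ha0])
  have hR'2 : (R' : ℝ) ^ 2 ≤ 1 / 1000 * (l / S) := by
    apply hsmall
    calc (R' : ℝ) ^ 2 * S ≤ (X ^ (1 / 10 : ℝ)) ^ 2 * X ^ η := by gcongr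
      _ = X ^ (1 / 10 + 1 / 10 + η) := by rw [pow_two, hadd, hadd]
      _ ≤ X ^ (1 / 4 - a / 10) := hmono (by linarith only [hη', ha, ha0])
  -- the parts
  have hnX : ∀ n ∈ Ico x (x + l), n ≠ 0 ∧ X ≤ (n : ℝ) ∧ (n : ℝ) ≤ 2 * X := by
    intro n hn
    rw [mem_Ico] at hn
    have h1 : (x : ℝ) ≤ n := by exact_mod_cast hn.1
    have h2 : (n : ℝ) ≤ x + l := by exact_mod_cast hn.2.le
    exact ⟨by omega, by linarith only [hx, h1], by linarith only [hxl, h2]⟩
  -- total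
  have htot : (l : ℝ) / S - R ^ 2 ≤ ∑ n ∈ Ico x (x + l), selW R n := by
    have h1 := abs_sum_selW_sub_le hR1 x l hx1
    rw [abs_le] at h1
    linarith only [h1.1, h1]
  -- numbers with a small prime factor
  have h1 : ∑ n ∈ (Ico x (x + l)).filter (fun n => ∃ p : ℕ, p.Prime ∧ p ≤ Z ∧ p ∣ n), selW R n ≤
      0.02 * (l / S) := by
    have h2 := small_part_le hR1 hZ1 hx1 ((Ico x (x + l)).filter
      (fun n => ∃ p : ℕ, p.Prime ∧ p ≤ Z ∧ p ∣ n)) (Finset.filter_subset _ _)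
      (fun n hn => (mem_filter.mp hn).2)
    rw [← hSdef] at h2
    have h3 : 2.5 * Real.exp 1 * (Real.log Z + 2) / S ≤ 0.01 := by
      rw [div_le_iff₀ hS0]
      have h4 : Real.log Z + 2 ≤ η * L / 1000 + 2 := by
        have : a * L = η * L / 1000 := by rw [ha]; ring
        linarith only [hlogZ, this]
      have h5 : 0 ≤ Real.log Z + 2 := by
        have := Real.log_nonneg (by exact_mod_cast hZ1 : (1 : ℝ) ≤ Z)
        linarith only [hη', ha, ha0, this]
      nlinarith only [hη', hL2, hS1, h4, hη, ha, ha0, hexp, h5]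
    have h4 : (l : ℝ) / S * (2.5 * Real.exp 1 * (Real.log Z + 2) / S) ≤ l / S * 0.01 :=
      mul_le_mul_of_nonneg_left h3 hlS.le
    linarith only [hlS, hR2Z, h2, h4]
  -- numbers with a square factor
  have h2 : ∑ n ∈ (Ico x (x + l)).filter
      (fun n => (∀ p : ℕ, p.Prime → p ∣ n → X ^ a ≤ p) ∧ ¬ Squarefree n), selW R n ≤
      0.02 * (l / S) := by
    set T := (Ico x (x + l)).filter
      (fun n => (∀ p : ℕ, p.Prime → p ∣ n → X ^ a ≤ p) ∧ ¬ Squarefree n) with hT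
    have h3 : ∑ n ∈ T, selW R n ≤ T.card * M := by
      rw [← nsmul_eq_mul]
      apply Finset.sum_le_card_nsmul
      intro n hn
      rw [hT, mem_filter] at hn
      obtain ⟨hn0, _, hn2⟩ := hnX n hn.1
      exact hM X hX2' R hR1 n hn0 hn2 hn.2.1
    have h4 := hX₂ X hX2 x l hx hx2X hl' T (Finset.filter_subset _ _) (by
      intro n hn
      rw [hT, mem_filter] at hn
      have h5 := hn.2.2
      rw [Nat.squarefree_iff_prime_squarefree] at h5
      push Not at h5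
      obtain ⟨p, hp, hpn⟩ := h5
      exact ⟨p, hp, hn.2.1 p hp (dvd_trans (Dvd.intro _ rfl) hpn), by rwa [pow_two]⟩)
    have h5 : X ^ (1 / 2 - a / 3) ≤ l * X ^ (-(a / 5)) := by
      calc X ^ (1 / 2 - a / 3) ≤ X ^ ((1 / 2 - a / 10) + -(a / 5)) := hmono (by linarith only [ha0])
        _ = X ^ (1 / 2 - a / 10) * X ^ (-(a / 5)) := (hadd _ _).symm
        _ ≤ l * X ^ (-(a / 5)) := mul_le_mul_of_nonneg_right hl (hpos _).le
    have h6 : X ^ (-a) ≤ X ^ (-(a / 5)) := hmono (by linarith only [ha0])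
    have h7 : 3 * (l : ℝ) * X ^ (-a) ≤ 3 * l * X ^ (-(a / 5)) :=
      mul_le_mul_of_nonneg_left h6 (by positivity)
    have h8 : (T.card : ℝ) ≤ 4 * (l * X ^ (-(a / 5))) := by linarith only [h4, h5, h7]
    have h9 := hX₃ X hX3
    rw [← hLdef] at h9
    have h10 : S * X ^ (-(a / 5)) ≤ 1 / (1000 * M) := by
      refine le_trans (mul_le_mul_of_nonneg_right (by linarith only [hη', ha, ha0, hL3, hS3] : S ≤ 2 + L) (hpos _).le) h9
    have h11 : (T.card : ℝ) * M * S ≤ 0.02 * l := by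
      calc (T.card : ℝ) * M * S ≤ 4 * (l * X ^ (-(a / 5))) * M * S := by gcongr
        _ = 4 * l * M * (S * X ^ (-(a / 5))) := by ring
        _ ≤ 4 * l * M * (1 / (1000 * M)) := mul_le_mul_of_nonneg_left h10 (by positivity)
        _ = 0.004 * l := by field_simp; norm_num
        _ ≤ 0.02 * l := by linarith only [hl0]
    rw [← mul_div_assoc, le_div_iff₀ hS0]
    calc (∑ n ∈ T, selW R n) * S ≤ T.card * M * S := mul_le_mul_of_nonneg_right h3 hS0.le
      _ ≤ 0.02 * l := h11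
  -- smooth numbers
  have h3 : ∑ n ∈ (Ico x (x + l)).filter
      (fun n => Squarefree n ∧ ∀ p : ℕ, p.Prime → p ∣ n → (p : ℝ) ≤ X ^ (1 / 2 + a)), selW R n ≤
      0.52 * (l / S) := by
    apply hX₁ X hX1 x l hx hx2X (le_trans (hmono (by linarith only [ha, ha0])) hl) hl' _
      (Finset.filter_subset _ _)
    intro n hn
    rw [mem_filter] at hn
    exact ⟨hn.2.1, fun p hp hpn => (hn.2.2 p hp hpn).trans (hmono (by linarith only [ha, ha0]))⟩
  -- primes
  have h4 : ∑ n ∈ (Ico x (x + l)).filter Nat.Prime, selW R n ≤ 0.02 * (l / S) := by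
    have hX10 : X ^ (1 / 10 : ℝ) < X := by
      conv_rhs => rw [← Real.rpow_one X]
      exact Real.rpow_lt_rpow_of_exponent_lt (by linarith only [hη', ha, ha0, hX2']) (by norm_num)
    have hXη : X ^ η < X := by
      conv_rhs => rw [← Real.rpow_one X]
      exact Real.rpow_lt_rpow_of_exponent_lt (by linarith only [hη', ha, ha0, hX2']) (by linarith only [hη', ha, ha0])
    have h5 : ∑ n ∈ (Ico x (x + l)).filter Nat.Prime, selW R n =
        ((Ico x (x + l)).filter Nat.Prime).card := by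
      rw [← nsmul_one ((Ico x (x + l)).filter Nat.Prime).card, ← Finset.sum_const]
      apply Finset.sum_congr rfl
      intro n hn
      rw [mem_filter] at hn
      obtain ⟨_, hn1, _⟩ := hnX n hn.1
      apply selW_prime hR1 hn.2
      exact_mod_cast (by linarith only [hRX, hXη, hn1] : (R : ℝ) < n)
    rw [h5]
    have hlogR'0 : 0 < Real.log R' := by linarith only [hη', ha, ha0, hL3, hlogR']
    have hR'2' : 2 ≤ R' := by
      by_contra hcon
      have h6 : (R' : ℝ) ≤ 1 := by exact_mod_cast (by omega : R' ≤ 1)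
      have h7 := Real.log_nonpos (Nat.cast_nonneg R') h6
      linarith only [hη', ha, ha0, hL3, hlogR', h7]
    have h6 := sieve_bound hR'2' x l hx1 ((Ico x (x + l)).filter Nat.Prime)
      (Finset.filter_subset _ _) (by
        intro n hn p hp hpR hpn
        rw [mem_filter] at hn
        obtain ⟨_, hn1, _⟩ := hnX n hn.1
        have h7 : p = n := (Nat.prime_dvd_prime_iff_eq hp hn.2).mp hpn
        have h8 : (p : ℝ) ≤ R' := by exact_mod_cast hpR
        rw [h7] at h8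
        linarith only [hR'X, hX10, hn1, h8])
    have h7 : (l : ℝ) / Real.log R' ≤ 0.01 * (l / S) := by
      rw [div_le_iff₀ hlogR'0]
      have h8 : 1 ≤ 0.01 / S * Real.log R' := by
        rw [div_mul_eq_mul_div, le_div_iff₀ hS0]
        linarith only [hη', ha, ha0, hL3, hlogR', hS3]
      calc (l : ℝ) = l * 1 := by ring
        _ ≤ l * (0.01 / S * Real.log R') := mul_le_mul_of_nonneg_left h8 hl0.le
        _ = 0.01 * (l / S) * Real.log R' := by ring
    linarith only [hlS, hR'2, h6, h7]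
  -- the remaining numbers
  set G := (Ico x (x + l)).filter (fun n => (∀ p : ℕ, p.Prime → p ∣ n → X ^ a ≤ p) ∧
    Squarefree n ∧ ¬ n.Prime ∧ ∃ p : ℕ, p.Prime ∧ p ∣ n ∧ X ^ (1 / 2 + a) < p) with hG
  have h5 : ∑ n ∈ Ico x (x + l), selW R n ≤
      (∑ n ∈ (Ico x (x + l)).filter (fun n => ∃ p : ℕ, p.Prime ∧ p ≤ Z ∧ p ∣ n), selW R n) +
      (∑ n ∈ (Ico x (x + l)).filter
        (fun n => (∀ p : ℕ, p.Prime → p ∣ n → X ^ a ≤ p) ∧ ¬ Squarefree n), selW R n) +
      (∑ n ∈ (Ico x (x + l)).filter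
        (fun n => Squarefree n ∧ ∀ p : ℕ, p.Prime → p ∣ n → (p : ℝ) ≤ X ^ (1 / 2 + a)),
          selW R n) +
      (∑ n ∈ (Ico x (x + l)).filter Nat.Prime, selW R n) + ∑ n ∈ G, selW R n := by
    rw [hG]
    simp only [Finset.sum_filter]
    rw [← Finset.sum_add_distrib, ← Finset.sum_add_distrib, ← Finset.sum_add_distrib,
      ← Finset.sum_add_distrib]
    apply Finset.sum_le_sum
    intro n hn
    have hW := selW_nonneg R n
    have hite : ∀ (P : Prop) [Decidable P], 0 ≤ (if P then selW R n else 0) := by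
      intro P _
      split_ifs
      · exact hW
      · exact le_rfl
    by_cases c1 : ∃ p : ℕ, p.Prime ∧ p ≤ Z ∧ p ∣ n
    · rw [if_pos c1]
      have e2 := hite ((∀ p : ℕ, p.Prime → p ∣ n → X ^ a ≤ p) ∧ ¬ Squarefree n)
      have e3 := hite (Squarefree n ∧ ∀ p : ℕ, p.Prime → p ∣ n → (p : ℝ) ≤ X ^ (1 / 2 + a))
      have e4 := hite (Nat.Prime n)
      have e5 := hite ((∀ p : ℕ, p.Prime → p ∣ n → X ^ a ≤ p) ∧
        Squarefree n ∧ ¬ n.Prime ∧ ∃ p : ℕ, p.Prime ∧ p ∣ n ∧ X ^ (1 / 2 + a) < p)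
      linarith only [e2, e3, e4, e5]
    · have c1' : ∀ p : ℕ, p.Prime → p ∣ n → X ^ a ≤ p := by
        intro p hp hpn
        by_contra hcon
        push Not at hcon
        exact c1 ⟨p, hp, Nat.le_floor hcon.le, hpn⟩
      rw [if_neg c1]
      by_cases c2 : Squarefree n
      · by_cases c3 : ∀ p : ℕ, p.Prime → p ∣ n → (p : ℝ) ≤ X ^ (1 / 2 + a)
        · rw [if_pos (⟨c2, c3⟩ : Squarefree n ∧ ∀ p : ℕ, p.Prime → p ∣ n →
            (p : ℝ) ≤ X ^ (1 / 2 + a))]
          have e2 := hite ((∀ p : ℕ, p.Prime → p ∣ n → X ^ a ≤ p) ∧ ¬ Squarefree n)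
          have e4 := hite (Nat.Prime n)
          have e5 := hite ((∀ p : ℕ, p.Prime → p ∣ n → X ^ a ≤ p) ∧
            Squarefree n ∧ ¬ n.Prime ∧ ∃ p : ℕ, p.Prime ∧ p ∣ n ∧ X ^ (1 / 2 + a) < p)
          linarith only [e2, e4, e5]
        · have e2 := hite ((∀ p : ℕ, p.Prime → p ∣ n → X ^ a ≤ p) ∧ ¬ Squarefree n)
          have e3 := hite (Squarefree n ∧ ∀ p : ℕ, p.Prime → p ∣ n → (p : ℝ) ≤ X ^ (1 / 2 + a))
          by_cases c4 : n.Prime
          · rw [if_pos c4]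
            have e5 := hite ((∀ p : ℕ, p.Prime → p ∣ n → X ^ a ≤ p) ∧
              Squarefree n ∧ ¬ n.Prime ∧ ∃ p : ℕ, p.Prime ∧ p ∣ n ∧ X ^ (1 / 2 + a) < p)
            linarith only [e2, e3, e5]
          · have e4 := hite (Nat.Prime n)
            have e5 : (∀ p : ℕ, p.Prime → p ∣ n → X ^ a ≤ p) ∧
              Squarefree n ∧ ¬ n.Prime ∧ ∃ p : ℕ, p.Prime ∧ p ∣ n ∧ X ^ (1 / 2 + a) < p := by
              push Not at c3
              exact ⟨c1', c2, c4, c3⟩
            rw [if_pos e5]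
            linarith only [e2, e3, e4]
      · rw [if_pos (⟨c1', c2⟩ : (∀ p : ℕ, p.Prime → p ∣ n → X ^ a ≤ p) ∧ ¬ Squarefree n)]
        have e3 := hite (Squarefree n ∧ ∀ p : ℕ, p.Prime → p ∣ n → (p : ℝ) ≤ X ^ (1 / 2 + a))
        have e4 := hite (Nat.Prime n)
        have e5 := hite ((∀ p : ℕ, p.Prime → p ∣ n → X ^ a ≤ p) ∧
          Squarefree n ∧ ¬ n.Prime ∧ ∃ p : ℕ, p.Prime ∧ p ∣ n ∧ X ^ (1 / 2 + a) < p)
        linarith only [e3, e4, e5]
  have h6 : ∑ n ∈ G, selW R n ≤ G.card * M := by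
    rw [← nsmul_eq_mul]
    apply Finset.sum_le_card_nsmul
    intro n hn
    rw [hG, mem_filter] at hn
    obtain ⟨hn0, _, hn2⟩ := hnX n hn.1
    exact hM X hX2' R hR1 n hn0 hn2 hn.2.1
  refine ⟨G, Finset.filter_subset _ _, ?_, ?_⟩
  · intro n hn
    rw [hG, mem_filter] at hn
    obtain ⟨hn1, hn2, hn3, hn4, q, hq, hqn, hqX⟩ := hn
    obtain ⟨hn0, _, _⟩ := hnX n hn1
    obtain ⟨m, rfl⟩ := hqn
    refine ⟨m, q, mul_comm _ _, hq, hqX, ?_, fun p hp hpm => hn2 p hp (hpm.mul_left q)⟩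
    have hm0 : m ≠ 0 := by
      rintro rfl
      exact hn0 (mul_zero q)
    have hm1 : m ≠ 1 := by
      rintro rfl
      rw [mul_one] at hn4
      exact hn4 hq
    omega
  · have h7 : 0.4 * ((l : ℝ) / S) ≤ G.card * M := by linarith only [hlS, hR2, htot, h1, h2, h3, h4, h5, h6]
    have h8 : (l : ℝ) / L ≤ l / S := by
      apply div_le_div_of_nonneg_left hl0.le hS0
      linarith only [hη', ha, ha0, hL3, hS3]
    have h9 : 2 / (5 * M) * (l : ℝ) / L = 0.4 * ((l : ℝ) / L) / M := by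
      field_simp
      norm_num
    rw [h9, div_le_iff₀ hM0]
    linarith only [hlS, hR2, htot, h1, h2, h3, h4, h5, h6, h8]

theorem many_elig : ∃ β : ℝ, 0 < β ∧ β ≤ 1 / 1000 ∧ ∃ c : ℝ, 0 < c ∧ ∃ k₁ : ℕ, ∀ k : ℕ, k₁ ≤ k →
    ∀ j < ncell β k, ∃ s : Finset ℕ, s ⊆ cell β k j ∧ (∀ n ∈ s, ∃ m q, n = m * q ∧ Elig β k j m q) ∧
      c * len β k / k ≤ (s.card : ℝ) := by
  obtain ⟨η, hη⟩ : ∃ η : ℝ, η = 1 / 10 ^ 8 := ⟨_, rfl⟩
  have hη0 : 0 < η := by rw [hη]; positivity
  have hη1 : η ≤ 1 / 100000000 := by rw [hη]; norm_num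
  obtain ⟨a, ha⟩ : ∃ a : ℝ, a = η / 1000 := ⟨_, rfl⟩
  have ha0 : 0 < a := by rw [ha]; positivity
  have ha1 : a ≤ 1 / 1000 := by rw [ha]; linarith only [hη]
  obtain ⟨β, hβ⟩ : ∃ β : ℝ, β = a / 20 := ⟨_, rfl⟩
  have hβ0 : 0 < β := by rw [hβ]; positivity
  have hβ1 : β ≤ 1 / 1000 := by rw [hβ]; linarith only [hη, hη0, ha]
  obtain ⟨c, hc, X₀, hX₀⟩ := elig_aux hη0 hη.le ha
  refine ⟨β, hβ0, hβ1, c / Real.log 2, div_pos hc (Real.log_pos (by norm_num)),
    max ⌈X₀⌉₊ ⌈2 / β⌉₊, ?_⟩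
  intro k hk j hj
  have hkX : (k : ℝ) ≤ (2 : ℝ) ^ k := by exact_mod_cast Nat.lt_two_pow_self.le
  have hk1 : X₀ ≤ (2 : ℝ) ^ k := by
    have h1 : X₀ ≤ ⌈X₀⌉₊ := Nat.le_ceil _
    have h2 : (⌈X₀⌉₊ : ℝ) ≤ k := by exact_mod_cast le_trans (le_max_left _ _) hk
    linarith only [hkX, h1, h2]
  have hk2 : 2 / β ≤ k := by
    have h1 : 2 / β ≤ ⌈2 / β⌉₊ := Nat.le_ceil _
    have h2 : (⌈2 / β⌉₊ : ℝ) ≤ k := by exact_mod_cast le_trans (le_max_right _ _) hk
    linarith only [h1, h2]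
  have hk3 : 2 ≤ β * k := by
    rw [div_le_iff₀ hβ0] at hk2
    linarith only [hk2]
  have hpow : ∀ t : ℝ, ((2 : ℝ) ^ k) ^ t = (2 : ℝ) ^ (t * (k : ℝ)) := by
    intro t
    rw [← Real.rpow_natCast, ← Real.rpow_mul (by norm_num)]
    congr 1
    ring
  obtain ⟨s, hs, hs1, hs2⟩ := hX₀ ((2 : ℝ) ^ k) hk1 (2 ^ k + j * len β k) (len β k)
    (by push_cast; have : (0 : ℝ) ≤ j * len β k := by positivity
        linarith only [this])
    (by
      have h1 := cell_end_le hβ0 hβ1 hj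
      have h2 : ((2 ^ k + (j + 1) * len β k : ℕ) : ℝ) ≤ ((2 ^ (k + 1) : ℕ) : ℝ) := by
        exact_mod_cast h1
      push_cast at h2 ⊢
      rw [pow_succ] at h2
      linarith only [h2])
    (by
      rw [hpow]
      refine le_trans ?_ (le_len (β := β) k)
      apply Real.rpow_le_rpow_of_exponent_le (by norm_num)
      rw [hβ] at hk3 ⊢
      nlinarith only [hk3])
    (by
      rw [hpow]
      refine le_trans (len_le hβ1 k) ?_
      apply Real.rpow_le_rpow_of_exponent_le (by norm_num)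
      nlinarith only [hk3])
  rw [← cell_eq] at hs
  refine ⟨s, hs, ?_, ?_⟩
  · intro n hn
    obtain ⟨m, q, hnmq, hq, hqX, hm, hmp⟩ := hs1 n hn
    refine ⟨m, q, hnmq, hq, ?_, hm, ?_, ?_⟩
    · have h20 : (20 : ℝ) * β = a := by rw [hβ]; ring
      rw [h20, ← hpow]
      exact hqX
    · have h20 : (20 : ℝ) * β = a := by rw [hβ]; ring
      rw [h20, ← hpow]
      exact hmp
    · rw [← hnmq]
      exact hs hn
  · rw [Real.log_pow] at hs2
    refine le_trans (le_of_eq ?_) hs2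
    have hk0 : (k : ℝ) ≠ 0 := by
      intro h
      rw [h] at hk3
      linarith only [hk3]
    have hl2 : Real.log 2 ≠ 0 := (Real.log_pos (by norm_num)).ne'
    field_simp

end Pool.Agent.MP_a187e6
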