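import Pool.Agent.MP_a187e6.SmallSpec

/-!
# Module E2a : the majorant at numbers composed of ordinary primes
-/

namespace Pool.Agent.MP_a187e6

open Finset

lemma twelve_le_log_sq {x : ℝ} (hx : 32 ≤ x) : 12 ≤ (Real.log x) ^ 2 := by
  have h1 : 5 * Real.log 2 ≤ Real.log x := by
    have h2 : Real.log ((2 : ℝ) ^ 5) ≤ Real.log x := Real.log_le_log (by norm_num) (by linarith)
    rw [Real.log_pow] at h2
    push_cast at h2
    exact h2
  have h3 := Real.log_two_gt_d9
  nlinarith

/-- `α n ≤ 3 / log² n` for `n > 1` without special prime factors -/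
lemma alpha_ord_le {β : ℝ} {k₀ : ℕ} {𝒟 : Dead β k₀} {P K₀ : ℕ} {Cs : ℝ} {α : ℕ → ℝ}
    (hα : AlphaData 𝒟 P K₀ Cs α) (hP : 33 ≤ P) :
    ∀ n : ℕ, 1 < n → (∀ p : ℕ, p.Prime → p ∣ n → ¬ 𝒟.Spec p) →
      α n ≤ 3 / (Real.log n) ^ 2 := by
  intro n
  induction n using Nat.strong_induction_on with
  | _ n ih =>
    intro hn hns
    have hp : n.minFac.Prime := Nat.minFac_prime (by omega)
    have hpn := Nat.minFac_dvd n
    have hle : n.minFac ≤ n := Nat.minFac_le (by omega)
    have h3 : 1 ≤ n / n.minFac := Nat.div_pos hle hp.pos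
    have h4 : n / n.minFac < n := Nat.div_lt_self (by omega) hp.one_lt
    have hmul := Nat.mul_div_cancel' hpn
    have h5 : α n = α n.minFac * α (n / n.minFac) := by
      conv_lhs => rw [← hmul]
      exact hα.mul _ _ hp.ne_zero (by omega)
    have hrhs : 0 ≤ 3 / (Real.log n) ^ 2 := by positivity
    rcases Nat.lt_or_ge n.minFac P with h6 | h6
    · rw [h5, hα.small _ hp h6, zero_mul]
      exact hrhs
    rcases Nat.eq_or_lt_of_le h3 with h7 | h7
    · -- n is prime
      have h8 : n = n.minFac := by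
        rw [← h7, mul_one] at hmul
        exact hmul.symm
      have h9 : n.Prime := by rw [h8]; exact hp
      exact hα.ord n h9 (hns n h9 dvd_rfl)
    · set m := n / n.minFac with hm
      have hmn : m ∣ n := ⟨n.minFac, by rw [mul_comm]; exact hmul.symm⟩
      have hmp : m.minFac.Prime := Nat.minFac_prime (by omega)
      rcases Nat.lt_or_ge m.minFac P with h8 | h8
      · have h9 : α m = 0 := by
          have h10 := Nat.mul_div_cancel' (Nat.minFac_dvd m)
          have h11 : 1 ≤ m / m.minFac := Nat.div_pos (Nat.minFac_le (by omega)) hmp.pos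
          rw [← h10, hα.mul _ _ hmp.ne_zero (by omega), hα.small _ hmp h8, zero_mul]
        rw [h5, h9, mul_zero]
        exact hrhs
      · have hm33 : 33 ≤ m := le_trans (le_trans hP h8) (Nat.minFac_le (by omega))
        have hp33 : 33 ≤ n.minFac := le_trans hP h6
        have hm' : (32 : ℝ) ≤ m := by exact_mod_cast (by omega : 32 ≤ m)
        have hp' : (32 : ℝ) ≤ n.minFac := by exact_mod_cast (by omega : 32 ≤ n.minFac)
        have e1 := hα.ord _ hp (hns _ hp hpn)
        have e2 := ih m h4 h7 (fun p hpp hpd => hns p hpp (hpd.trans hmn))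
        have e3 : Real.log n = Real.log n.minFac + Real.log m := by
          rw [← Real.log_mul (by linarith) (by linarith)]
          congr 1
          exact_mod_cast hmul.symm
        have f1 := twelve_le_log_sq hm'
        have f2 := twelve_le_log_sq hp'
        have g1 : 0 < Real.log m := Real.log_pos (by linarith)
        have g2 : 0 < Real.log n.minFac := Real.log_pos (by linarith)
        rw [h5]
        calc α n.minFac * α m ≤ 3 / (Real.log n.minFac) ^ 2 * (3 / (Real.log m) ^ 2) :=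
              mul_le_mul e1 e2 (hα.nonneg _) (by positivity)
          _ ≤ 3 / (Real.log n) ^ 2 := by
              rw [e3, div_mul_div_comm, div_le_div_iff₀ (by positivity) (by positivity)]
              generalize Real.log n.minFac = u at *
              generalize Real.log m = v at *
              nlinarith [mul_nonneg (sub_nonneg.2 f1) (sq_nonneg u),
                mul_nonneg (sub_nonneg.2 f2) (sq_nonneg v), sq_nonneg (u - v)]

/-- splitting a number `o` without large prime factors -/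
lemma exists_split {k o : ℕ} (hk : 1 ≤ k) (ho : (2 : ℝ) ^ (15 / 16 * (k : ℝ)) ≤ o)
    (hsm : ∀ p : ℕ, p.Prime → p ∣ o → (p : ℝ) ≤ (2 : ℝ) ^ (7 / 8 * (k : ℝ))) :
    ∃ a b : ℕ, o = a * b ∧ (2 : ℝ) ^ ((k : ℝ) / 32) ≤ a ∧ (2 : ℝ) ^ ((k : ℝ) / 32) ≤ b := by
  classical
  have hk1 : (1 : ℝ) ≤ k := by exact_mod_cast hk
  set x : ℝ := (2 : ℝ) ^ ((k : ℝ) / 32) with hx
  have hx0 : 0 < x := by positivity
  have hx1 : 1 < x := Real.one_lt_rpow (by norm_num) (by positivity)
  have ho0 : 0 < o := by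
    have : (0 : ℝ) < o := lt_of_lt_of_le (by positivity) ho
    exact_mod_cast this
  have hxo : x ≤ o := le_trans
    (Real.rpow_le_rpow_of_exponent_le (by norm_num) (by linarith)) ho
  have hex : ∃ d : ℕ, d ∣ o ∧ x ≤ d := ⟨o, dvd_rfl, hxo⟩
  set d := Nat.find hex with hd
  obtain ⟨h1, h2⟩ := Nat.find_spec hex
  rw [← hd] at h1 h2
  have hmin : ∀ e : ℕ, e < d → e ∣ o → (e : ℝ) < x := by
    intro e he heo
    by_contra hcon
    push Not at hcon
    exact Nat.find_min hex he ⟨heo, hcon⟩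
  have hd0 : 0 < d := Nat.pos_of_dvd_of_pos h1 ho0
  have hd0' : (0 : ℝ) < d := by exact_mod_cast hd0
  -- upper bound for d
  have hdub : (d : ℝ) ≤ (2 : ℝ) ^ (7 / 8 * (k : ℝ)) := by
    by_cases hdp : d.Prime
    · exact hsm d hdp h1
    · have hd1 : d ≠ 1 := by
        intro h0
        rw [h0] at h2
        push_cast at h2
        linarith
      set p := d.minFac with hp
      have hpp : p.Prime := Nat.minFac_prime hd1
      have hpd' : p ∣ d := Nat.minFac_dvd d
      obtain ⟨e, he⟩ := hpd'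
      have hpd' : p ∣ d := Nat.minFac_dvd d
      have hp2 := hpp.two_le
      have he0 : e ≠ 0 := by
        rintro rfl
        rw [mul_zero] at he
        omega
      have he1 : e ≠ 1 := by
        intro h0
        rw [h0, mul_one] at he
        exact hdp (he ▸ hpp)
      have hed : e ∣ d := ⟨p, by rw [he]; ring⟩
      have hplt : p < d := by
        rw [he]
        have : 2 ≤ e := by omega
        calc p < p * 2 := by omega
          _ ≤ p * e := Nat.mul_le_mul_left _ this
      have helt : e < d := by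
        rw [he]
        calc e < 2 * e := by omega
          _ ≤ p * e := Nat.mul_le_mul_right _ hp2
      have hpx := hmin p hplt (hpd'.trans h1)
      have hex' := hmin e helt (hed.trans h1)
      calc (d : ℝ) = p * e := by exact_mod_cast he
        _ ≤ x * x := mul_le_mul hpx.le hex'.le (Nat.cast_nonneg _) hx0.le
        _ ≤ _ := by
            rw [hx, ← Real.rpow_add (by norm_num)]
            exact Real.rpow_le_rpow_of_exponent_le (by norm_num) (by linarith)
  refine ⟨d, o / d, (Nat.mul_div_cancel' h1).symm, h2, ?_⟩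
  have h3 : ((o / d : ℕ) : ℝ) = (o : ℝ) / d := by
    rw [Nat.cast_div h1 hd0'.ne']
  rw [h3, le_div_iff₀ hd0']
  calc x * d ≤ x * (2 : ℝ) ^ (7 / 8 * (k : ℝ)) := mul_le_mul_of_nonneg_left hdub hx0.le
    _ ≤ (2 : ℝ) ^ (15 / 16 * (k : ℝ)) := by
        rw [hx, ← Real.rpow_add (by norm_num)]
        exact Real.rpow_le_rpow_of_exponent_le (by norm_num) (by linarith)
    _ ≤ o := ho

/-- E2a (T3): greedy splitting -/
theorem alpha_ord_split {β : ℝ} {k₀ : ℕ} {𝒟 : Dead β k₀} {P K₀ : ℕ} {Cs : ℝ} {α : ℕ → ℝ}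
    (hα : AlphaData 𝒟 P K₀ Cs α) (hP : 33 ≤ P) {k o : ℕ} (hk : 1 ≤ k)
    (ho : (2 : ℝ) ^ (15 / 16 * (k : ℝ)) ≤ o)
    (hns : ∀ p : ℕ, p.Prime → p ∣ o → ¬ 𝒟.Spec p)
    (hsm : ∀ p : ℕ, p.Prime → p ∣ o → (p : ℝ) ≤ (2 : ℝ) ^ (7 / 8 * (k : ℝ))) :
    α o ≤ 10 ^ 8 / (k : ℝ) ^ 4 := by
  have hk1 : (1 : ℝ) ≤ k := by exact_mod_cast hk
  obtain ⟨a, b, hab, ha, hb⟩ := exists_split hk ho hsm
  have hx1 : 1 < (2 : ℝ) ^ ((k : ℝ) / 32) := Real.one_lt_rpow (by norm_num) (by positivity)
  have ha1 : (1 : ℝ) < a := lt_of_lt_of_le hx1 ha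
  have hb1 : (1 : ℝ) < b := lt_of_lt_of_le hx1 hb
  have ha1' : 1 < a := by exact_mod_cast ha1
  have hb1' : 1 < b := by exact_mod_cast hb1
  have e1 := alpha_ord_le hα hP a ha1' (fun p hp hpd => hns p hp (by rw [hab]; exact hpd.mul_right b))
  have e2 := alpha_ord_le hα hP b hb1' (fun p hp hpd => hns p hp (by rw [hab]; exact hpd.mul_left a))
  have hlog2 := Real.log_two_gt_d9
  have key : ∀ c : ℕ, (2 : ℝ) ^ ((k : ℝ) / 32) ≤ c → 0.48 / 1024 * (k : ℝ) ^ 2 ≤ (Real.log c) ^ 2 := by
    intro c hc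
    have f1 : Real.log ((2 : ℝ) ^ ((k : ℝ) / 32)) ≤ Real.log c := Real.log_le_log (by positivity) hc
    rw [Real.log_rpow (by norm_num)] at f1
    have f2 : 0.693 / 32 * (k : ℝ) ≤ Real.log c := by nlinarith
    have f3 : (0.693 / 32 * (k : ℝ)) ^ 2 ≤ (Real.log c) ^ 2 :=
      pow_le_pow_left₀ (by positivity) f2 2
    refine le_trans ?_ f3
    have f4 : (0.693 / 32 * (k : ℝ)) ^ 2 = 0.480249 / 1024 * (k : ℝ) ^ 2 := by ring
    rw [f4]
    have : 0 ≤ (k : ℝ) ^ 2 := by positivity
    nlinarith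
  have k1 := key a ha
  have k2 := key b hb
  have hk2 : 0 < (k : ℝ) ^ 2 := by positivity
  rw [hab, hα.mul a b (by omega) (by omega)]
  calc α a * α b ≤ 3 / (Real.log a) ^ 2 * (3 / (Real.log b) ^ 2) :=
        mul_le_mul e1 e2 (hα.nonneg _) (by positivity)
    _ ≤ 3 / (0.48 / 1024 * (k : ℝ) ^ 2) * (3 / (0.48 / 1024 * (k : ℝ) ^ 2)) := by
        apply mul_le_mul _ _ (by positivity) (by positivity)
        · exact div_le_div_of_nonneg_left (by norm_num) (by positivity) k1
        · exact div_le_div_of_nonneg_left (by norm_num) (by positivity) k2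
    _ ≤ 10 ^ 8 / (k : ℝ) ^ 4 := by
        rw [div_mul_div_comm, div_le_div_iff₀ (by positivity) (by positivity)]
        have : (0.48 / 1024 * (k : ℝ) ^ 2 * (0.48 / 1024 * (k : ℝ) ^ 2))
          = (0.48 / 1024) ^ 2 * (k : ℝ) ^ 4 := by ring
        rw [this]
        have h4 : 0 < (k : ℝ) ^ 4 := by positivity
        nlinarith

end Pool.Agent.MP_a187e6
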