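import Pool.Agent.MP_a187e6.OrdSplit
import Pool.Agent.MP_a187e6.BigPrime
import Pool.Agent.MP_a187e6.AlphaBasic

/-! Module E2: numbers with small special part. -/

namespace Pool.Agent.MP_a187e6

open Finset

/-- splitting a number according to a set of primes -/
lemma split_by_primes (S : ℕ → Prop) {n : ℕ} (hn : n ≠ 0) :
    ∃ d o : ℕ, n = d * o ∧ (∀ p : ℕ, p.Prime → p ∣ d → S p) ∧ (∀ p : ℕ, p.Prime → p ∣ o → ¬ S p) := by
  induction n using Nat.recOnMul with
  | zero => exact absurd rfl hn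
  | one =>
    refine ⟨1, 1, rfl, fun p hp h => ?_, fun p hp h => ?_⟩
    · exact absurd (Nat.dvd_one.mp h) hp.ne_one
    · exact absurd (Nat.dvd_one.mp h) hp.ne_one
  | prime p hp =>
    by_cases h : S p
    · refine ⟨p, 1, (mul_one p).symm, fun q hq hqp => ?_, fun q hq hq1 => ?_⟩
      · rw [(Nat.prime_dvd_prime_iff_eq hq hp).mp hqp]
        exact h
      · exact absurd (Nat.dvd_one.mp hq1) hq.ne_one
    · refine ⟨1, p, (one_mul p).symm, fun q hq hq1 => ?_, fun q hq hqp => ?_⟩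
      · exact absurd (Nat.dvd_one.mp hq1) hq.ne_one
      · rw [(Nat.prime_dvd_prime_iff_eq hq hp).mp hqp]
        exact h
  | mul a b ha hb =>
    have ha0 : a ≠ 0 := fun h => hn (by simp [h])
    have hb0 : b ≠ 0 := fun h => hn (by simp [h])
    obtain ⟨d, o, h1, h2, h3⟩ := ha ha0
    obtain ⟨d', o', h1', h2', h3'⟩ := hb hb0
    refine ⟨d * d', o * o', by rw [h1, h1']; ring, fun p hp h => ?_, fun p hp h => ?_⟩
    · rcases (Nat.Prime.dvd_mul hp).mp h with h | h
      · exact h2 p hp h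
      · exact h2' p hp h
    · rcases (Nat.Prime.dvd_mul hp).mp h with h | h
      · exact h3 p hp h
      · exact h3' p hp h

theorem ordinary_sum {β : ℝ} (hβ : 0 < β) (hβ' : β ≤ 1 / 1000) (K₀ : ℕ) (Cs : ℝ) :
    ∀ ε : ℝ, 0 < ε → ∃ P₀ : ℕ, ∀ P : ℕ, P₀ ≤ P → ∃ k₁ : ℕ, ∀ k₀ : ℕ, k₁ ≤ k₀ →
      ∀ 𝒟 : Dead β k₀, ∀ α : ℕ → ℝ, AlphaData 𝒟 P K₀ Cs α →
        ∀ k : ℕ, k₁ ≤ k → ∀ a N : ℕ, 2 ^ k ≤ a → a + N ≤ 2 ^ (k + 1) →
          (2 : ℝ) ^ ((k : ℝ) / 3) ≤ N → ∀ s : Finset ℕ, s ⊆ Finset.Ico a (a + N) →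
            (∀ n ∈ s, ¬ n.Prime ∧ SmallSpec 𝒟 k n) →
            ∑ n ∈ s, α n ≤ ε * N / (k : ℝ) ^ 3 := by
  classical
  intro ε hε
  obtain ⟨C, hC, kb, hbig⟩ := big_prime_sum
  set σ : ℝ := min 1 (ε / (2 * C)) with hσ
  have hσpos : 0 < σ := lt_min one_pos (by positivity)
  have hσ1 : σ ≤ 1 := min_le_left _ _
  have hσ2 : σ ≤ ε / (2 * C) := min_le_right _ _
  obtain ⟨P₀, hP₀⟩ := sigma_small hβ hβ' K₀ Cs σ hσpos
  refine ⟨max P₀ 33, fun P hP => ?_⟩
  simp only [max_le_iff] at hP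
  obtain ⟨hP1, hP33⟩ := hP
  obtain ⟨ka, hka⟩ := hP₀ P hP1
  obtain ⟨kc, hkc⟩ := exists_nat_gt (8 * 10 ^ 8 / ε)
  refine ⟨max (max ka kb) (max kc 1), fun k₀ hk₀ 𝒟 α hα k hk a N ha haN hN s hs hprop => ?_⟩
  simp only [max_le_iff] at hk₀ hk
  obtain ⟨⟨hka0, _⟩, _, _⟩ := hk₀
  obtain ⟨⟨_, hkb'⟩, hkc', hk1⟩ := hk
  have hkpos : (0 : ℝ) < k := by exact_mod_cast hk1
  have hsig := hka k₀ hka0 𝒟 α hα
  have hNpos : (0 : ℝ) < N := lt_of_lt_of_le (by positivity) hN
  set sA := s.filter (fun n => ∃ p : ℕ, p.Prime ∧ p ∣ n ∧ ¬ 𝒟.Spec p ∧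
    (2 : ℝ) ^ (7 / 8 * (k : ℝ)) < p) with hsA
  set sB := s.filter (fun n => ¬ ∃ p : ℕ, p.Prime ∧ p ∣ n ∧ ¬ 𝒟.Spec p ∧
    (2 : ℝ) ^ (7 / 8 * (k : ℝ)) < p) with hsB
  have hsum : ∑ n ∈ s, α n = ∑ n ∈ sA, α n + ∑ n ∈ sB, α n := by
    rw [hsA, hsB, Finset.sum_filter_add_sum_filter_not]
  have hA : ∑ n ∈ sA, α n ≤ ε / 2 * N / (k : ℝ) ^ 3 := by
    have h1 := hbig β k₀ 𝒟 P K₀ Cs α hα k hkb' a N ha haN hN σ hsig sA
      ((Finset.filter_subset _ _).trans hs) (by
        intro n hn
        rw [hsA, Finset.mem_filter] at hn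
        obtain ⟨hns, p, hp, ⟨m, rfl⟩, hpS, hpl⟩ := hn
        refine ⟨m, p, mul_comm p m, ?_, hp, hpS, hpl⟩
        have h2 := hs hns
        rw [Finset.mem_Ico] at h2
        have hm0 : m ≠ 0 := by
          rintro rfl
          have : 0 < 2 ^ k := by positivity
          omega
        have hm1 : m ≠ 1 := by
          rintro rfl
          rw [mul_one] at hns
          exact (hprop p hns).1 hp
        omega)
    refine h1.trans ?_
    apply div_le_div_of_nonneg_right _ (by positivity)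
    apply mul_le_mul_of_nonneg_right _ hNpos.le
    calc C * σ ≤ C * (ε / (2 * C)) := mul_le_mul_of_nonneg_left hσ2 hC.le
      _ = ε / 2 := by field_simp
  have hB : ∑ n ∈ sB, α n ≤ ε / 2 * N / (k : ℝ) ^ 3 := by
    -- special part
    have hsp : ∀ n ∈ sB, ∃ d o : ℕ, n = d * o ∧ (∀ p : ℕ, p.Prime → p ∣ d → 𝒟.Spec p) ∧
        (∀ p : ℕ, p.Prime → p ∣ o → ¬ 𝒟.Spec p) := by
      intro n hn
      have h2 := hs (Finset.mem_filter.mp hn).1
      rw [Finset.mem_Ico] at h2
      apply split_by_primes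
      have : 0 < 2 ^ k := by positivity
      omega
    choose! dd oo h1 h2 h3 using hsp
    set Dm : ℕ := ⌊(2 : ℝ) ^ ((k : ℝ) / 16)⌋₊ with hDm
    have hdle : ∀ n ∈ sB, (dd n : ℝ) ≤ (2 : ℝ) ^ ((k : ℝ) / 16) := by
      intro n hn
      have hns := (Finset.mem_filter.mp hn).1
      apply (hprop n hns).2 (dd n) _ (h2 n hn)
      conv_rhs => rw [h1 n hn]
      exact dvd_mul_right _ _
    have hn0 : ∀ n ∈ sB, 0 < n := by
      intro n hn
      have h2 := hs (Finset.mem_filter.mp hn).1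
      rw [Finset.mem_Ico] at h2
      have : 0 < 2 ^ k := by positivity
      omega
    have hd0 : ∀ n ∈ sB, 0 < dd n := by
      intro n hn
      apply Nat.pos_of_ne_zero
      intro h
      have h4 := h1 n hn
      rw [h, zero_mul] at h4
      have := hn0 n hn
      omega
    have ho0 : ∀ n ∈ sB, 0 < oo n := by
      intro n hn
      apply Nat.pos_of_ne_zero
      intro h
      have h4 := h1 n hn
      rw [h, mul_zero] at h4
      have := hn0 n hn
      omega
    have hdm : ∀ n ∈ sB, dd n ∈ Finset.Icc 1 Dm := by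
      intro n hn
      rw [Finset.mem_Icc]
      exact ⟨hd0 n hn, Nat.le_floor (hdle n hn)⟩
    have hαn : ∀ n ∈ sB, α n ≤ α (dd n) * (10 ^ 8 / (k : ℝ) ^ 4) := by
      intro n hn
      have h4 : α n = α (dd n) * α (oo n) := by
        conv_lhs => rw [h1 n hn]
        exact hα.mul _ _ (hd0 n hn).ne' (ho0 n hn).ne'
      rw [h4]
      apply mul_le_mul_of_nonneg_left _ (hα.nonneg _)
      apply alpha_ord_split hα hP33 hk1 _ (h3 n hn)
      · intro p hp hpo
        by_contra hcon
        push Not at hcon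
        have h5 := (Finset.mem_filter.mp hn).2
        apply h5
        refine ⟨p, hp, ?_, h3 n hn p hp hpo, hcon⟩
        rw [h1 n hn]
        exact dvd_mul_of_dvd_right hpo _
      · -- o large
        have h5 := hs (Finset.mem_filter.mp hn).1
        rw [Finset.mem_Ico] at h5
        have h6 : (2 : ℝ) ^ (k : ℝ) ≤ (dd n : ℝ) * oo n := by
          rw [Real.rpow_natCast]
          have h7 : 2 ^ k ≤ dd n * oo n := by
            rw [← h1 n hn]
            omega
          exact_mod_cast h7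
        have h8 : (2 : ℝ) ^ (k : ℝ) = (2 : ℝ) ^ ((k : ℝ) / 16) * (2 : ℝ) ^ (15 / 16 * (k : ℝ)) := by
          rw [← Real.rpow_add (by norm_num)]
          congr 1
          ring
        rw [h8] at h6
        have h9 : (dd n : ℝ) * oo n ≤ (2 : ℝ) ^ ((k : ℝ) / 16) * oo n :=
          mul_le_mul_of_nonneg_right (hdle n hn) (by positivity)
        have h10 := h6.trans h9
        exact le_of_mul_le_mul_left h10 (by positivity)
    have hc : (0 : ℝ) ≤ 10 ^ 8 / (k : ℝ) ^ 4 := by positivity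
    have hDN : ∀ d ∈ Finset.Icc 1 Dm, (d : ℝ) ≤ N := by
      intro d hd
      rw [Finset.mem_Icc] at hd
      have h4 : (d : ℝ) ≤ (2 : ℝ) ^ ((k : ℝ) / 16) := by
        have h5 : (Dm : ℝ) ≤ (2 : ℝ) ^ ((k : ℝ) / 16) := Nat.floor_le (by positivity)
        have h6 : (d : ℝ) ≤ Dm := by exact_mod_cast hd.2
        linarith
      refine h4.trans (le_trans ?_ hN)
      apply Real.rpow_le_rpow_of_exponent_le (by norm_num)
      linarith
    calc ∑ n ∈ sB, α n ≤ ∑ n ∈ sB, α (dd n) * (10 ^ 8 / (k : ℝ) ^ 4) := Finset.sum_le_sum hαn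
      _ = ∑ d ∈ Finset.Icc 1 Dm, ∑ n ∈ sB with dd n = d, α (dd n) * (10 ^ 8 / (k : ℝ) ^ 4) :=
          (Finset.sum_fiberwise_of_maps_to hdm _).symm
      _ ≤ ∑ d ∈ Finset.Icc 1 Dm, (2 * N / d) * (α d * (10 ^ 8 / (k : ℝ) ^ 4)) := by
          apply Finset.sum_le_sum
          intro d hd
          have h4 : ∑ n ∈ sB with dd n = d, α (dd n) * (10 ^ 8 / (k : ℝ) ^ 4) =
              ((sB.filter (fun n => dd n = d)).card : ℝ) * (α d * (10 ^ 8 / (k : ℝ) ^ 4)) := by
            rw [← nsmul_eq_mul, ← Finset.sum_const]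
            apply Finset.sum_congr rfl
            intro n hn
            rw [(Finset.mem_filter.mp hn).2]
          rw [h4]
          apply mul_le_mul_of_nonneg_right _ (mul_nonneg (hα.nonneg d) hc)
          have hd1 : 0 < d := (Finset.mem_Icc.mp hd).1
          have hdr : (0 : ℝ) < d := by exact_mod_cast hd1
          have h5 : (sB.filter (fun n => dd n = d)) ⊆
              (Finset.Ico a (a + N)).filter (fun n => d ∣ n) := by
            intro n hn
            rw [Finset.mem_filter] at hn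
            rw [Finset.mem_filter]
            refine ⟨hs (Finset.mem_filter.mp hn.1).1, ?_⟩
            rw [h1 n hn.1, hn.2]
            exact dvd_mul_right _ _
          have h6 : ((sB.filter (fun n => dd n = d)).card : ℝ) ≤ (N : ℝ) / d + 1 := by
            refine le_trans ?_ (card_multiples_le a N d hd1)
            exact_mod_cast Finset.card_le_card h5
          refine h6.trans ?_
          have h7 : 1 ≤ (N : ℝ) / d := by
            rw [le_div_iff₀ hdr, one_mul]
            exact hDN d hd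
          have h8 : (2 * N / d : ℝ) = N / d + N / d := by ring
          rw [h8]
          linarith
      _ = 2 * N * (10 ^ 8 / (k : ℝ) ^ 4) * ∑ d ∈ Finset.Icc 1 Dm, α d / d := by
          rw [Finset.mul_sum]
          apply Finset.sum_congr rfl
          intro d _
          ring
      _ ≤ 2 * N * (10 ^ 8 / (k : ℝ) ^ 4) * 2 := by
          apply mul_le_mul_of_nonneg_left _ (by positivity)
          have h4 := hsig (Dm + 1)
          have h5 : ∑ d ∈ Finset.Icc 1 Dm, α d / d ≤ α 1 / ((1 : ℕ) : ℝ) +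
              ∑ d ∈ Finset.Ico 2 (Dm + 1), α d / d := by
            have h6 : Finset.Icc 1 Dm ⊆ insert 1 (Finset.Ico 2 (Dm + 1)) := by
              intro d hd
              rw [Finset.mem_Icc] at hd
              rw [Finset.mem_insert, Finset.mem_Ico]
              omega
            have h7 : (1 : ℕ) ∉ Finset.Ico 2 (Dm + 1) := by
              rw [Finset.mem_Ico]
              omega
            have h8 : α 1 / ((1 : ℕ) : ℝ) + ∑ d ∈ Finset.Ico 2 (Dm + 1), α d / d =
                ∑ d ∈ insert 1 (Finset.Ico 2 (Dm + 1)), α d / d :=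
              (Finset.sum_insert (f := fun d : ℕ => α d / (d : ℝ)) h7).symm
            rw [h8]
            apply Finset.sum_le_sum_of_subset_of_nonneg h6
            intro d _ _
            exact div_nonneg (hα.nonneg d) (by positivity)
          rw [hα.one] at h5
          push_cast at h5
          linarith
      _ = 4 * 10 ^ 8 / k * N / (k : ℝ) ^ 3 := by
          field_simp
          ring
      _ ≤ ε / 2 * N / (k : ℝ) ^ 3 := by
          apply div_le_div_of_nonneg_right _ (by positivity)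
          apply mul_le_mul_of_nonneg_right _ hNpos.le
          have h4 : 8 * 10 ^ 8 / ε < k := by
            have : (kc : ℝ) ≤ k := by exact_mod_cast hkc'
            linarith
          rw [div_lt_iff₀ hε] at h4
          rw [div_le_iff₀ hkpos]
          linarith
  rw [hsum]
  have : ε * N / (k : ℝ) ^ 3 = ε / 2 * N / (k : ℝ) ^ 3 + ε / 2 * N / (k : ℝ) ^ 3 := by ring
  rw [this]
  exact add_le_add hA hB

end Pool.Agent.MP_a187e6
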