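import Pool.Agent.MP_a187e6.Solve2
import Pool.Agent.MP_a187e6.Closure
import Pool.Agent.MP_a187e6.ControlK
import Pool.Agent.MP_a187e6.AlphaBasic
import Pool.Agent.MP_a187e6.FewDead
import Pool.Agent.MP_a187e6.ManyElig
import Pool.Agent.MP_a187e6.Initial

/-! Choice of the parameters. -/

namespace Pool.Agent.MP_a187e6

open Finset

lemma cell_index {β : ℝ} (hβ : 0 < β) (hβ' : β ≤ 1 / 1000) {k j n : ℕ} (hj : j < ncell β k)
    (h : n ∈ cell β k j) : Nat.log 2 n = k ∧ (n - 2 ^ k) / len β k = j := by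
  have h1 := two_pow_le_of_mem_cell h
  have h2 := lt_two_pow_of_mem_cell hβ hβ' hj h
  have hlog : Nat.log 2 n = k := (Nat.log_eq_iff (Or.inr ⟨by norm_num, by
    have : 0 < 2 ^ k := by positivity
    omega⟩)).mpr ⟨h1, h2⟩
  refine ⟨hlog, ?_⟩
  rw [mem_cell] at h
  have hL := len_pos β k
  have e : (j + 1) * len β k = j * len β k + len β k := by ring
  rw [e] at h
  apply Nat.div_eq_of_lt_le
  · omega
  · rw [e]
    omega

/-- the union of the cells of a block -/
lemma exists_cell {β : ℝ} (hβ : 0 < β) (hβ' : β ≤ 1 / 1000) {k n : ℕ} (h1 : 2 ^ k ≤ n)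
    (h2 : n < 2 ^ (k + 1)) : ∃ j < ncell β k, n ∈ cell β k j := by
  have hL := len_pos β k
  refine ⟨(n - 2 ^ k) / len β k, ?_, ?_⟩
  · rw [Nat.div_lt_iff_lt_mul hL, ncell_mul_len hβ hβ']
    rw [pow_succ] at h2
    omega
  · rw [mem_cell]
    have h3 := Nat.div_add_mod (n - 2 ^ k) (len β k)
    have h4 := Nat.mod_lt (n - 2 ^ k) hL
    have e : ((n - 2 ^ k) / len β k + 1) * len β k = len β k * ((n - 2 ^ k) / len β k) + len β k := by
      ring
    rw [e, mul_comm ((n - 2 ^ k) / len β k) (len β k)]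
    omega

/-- primes of a block, from the prime-rich cells -/
lemma primes_block {β : ℝ} (hβ : 0 < β) (hβ' : β ≤ 1 / 1000) {c₀ : ℝ} (hc₀ : 0 < c₀) {k : ℕ}
    (hk : 3 ≤ k)
    (hB : (((Finset.range (ncell β k)).filter (fun j =>
        (((cell β k j).filter Nat.Prime).card : ℝ) < c₀ * len β k / k)).card : ℝ)
        ≤ (2 : ℝ) ^ (β * (k : ℝ))) :
    c₀ / 2 * (2 : ℝ) ^ k / k ≤ (((Finset.Ico (2 ^ k) (2 ^ (k + 1))).filter Nat.Prime).card : ℝ) := by
  classical
  set bad := (Finset.range (ncell β k)).filter (fun j =>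
        (((cell β k j).filter Nat.Prime).card : ℝ) < c₀ * len β k / k) with hbad
  set good := (Finset.range (ncell β k)).filter (fun j =>
        ¬ (((cell β k j).filter Nat.Prime).card : ℝ) < c₀ * len β k / k) with hgood
  have hkpos : (0 : ℝ) < k := by
    have : 0 < k := by omega
    exact_mod_cast this
  have hL : (0 : ℝ) < len β k := by exact_mod_cast len_pos β k
  have hcard : (good.card : ℝ) = ncell β k - bad.card := by
    have h1 := Finset.card_filter_add_card_filter_not (s := Finset.range (ncell β k))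
      (fun j => (((cell β k j).filter Nat.Prime).card : ℝ) < c₀ * len β k / k)
    rw [Finset.card_range] at h1
    have h2 : ((bad.card + good.card : ℕ) : ℝ) = ncell β k := by exact_mod_cast h1
    push_cast at h2
    linarith
  have hnc : (ncell β k : ℝ) * len β k = (2 : ℝ) ^ k := by
    have := ncell_mul_len hβ hβ' k
    exact_mod_cast this
  have hnc2 : 2 * (2 : ℝ) ^ (β * (k : ℝ)) ≤ ncell β k := by
    have h1 := len_le hβ' k
    have h2 : 2 * (2 : ℝ) ^ (β * (k : ℝ)) * len β k ≤ (2 : ℝ) ^ (k : ℝ) := by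
      calc 2 * (2 : ℝ) ^ (β * (k : ℝ)) * len β k
          ≤ 2 * (2 : ℝ) ^ (β * (k : ℝ)) * (2 : ℝ) ^ ((1 / 2 - β / 3) * (k : ℝ)) :=
            mul_le_mul_of_nonneg_left h1 (by positivity)
        _ = (2 : ℝ) ^ (1 + (β * (k : ℝ) + (1 / 2 - β / 3) * (k : ℝ))) := by
            rw [Real.rpow_add (by norm_num) 1, Real.rpow_add (by norm_num) (β * (k : ℝ)),
              Real.rpow_one]
            ring
        _ ≤ (2 : ℝ) ^ (k : ℝ) := by
            apply Real.rpow_le_rpow_of_exponent_le (by norm_num)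
            have : (3 : ℝ) ≤ k := by exact_mod_cast hk
            nlinarith
    rw [Real.rpow_natCast, ← hnc] at h2
    exact le_of_mul_le_mul_right h2 hL
  have hgc : (ncell β k : ℝ) / 2 ≤ good.card := by
    rw [hcard]
    linarith
  have hU : good.biUnion (fun j => (cell β k j).filter Nat.Prime) ⊆
      (Finset.Ico (2 ^ k) (2 ^ (k + 1))).filter Nat.Prime := by
    intro n hn
    rw [Finset.mem_biUnion] at hn
    obtain ⟨j, hj, hn⟩ := hn
    rw [Finset.mem_filter] at hn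
    rw [hgood, Finset.mem_filter, Finset.mem_range] at hj
    rw [Finset.mem_filter, Finset.mem_Ico]
    exact ⟨⟨two_pow_le_of_mem_cell hn.1, lt_two_pow_of_mem_cell hβ hβ' hj.1 hn.1⟩, hn.2⟩
  have hdisj : ∀ j ∈ good, ∀ j' ∈ good, j ≠ j' →
      Disjoint ((cell β k j).filter Nat.Prime) ((cell β k j').filter Nat.Prime) := by
    intro j hj j' hj' hne
    rw [Finset.disjoint_left]
    intro n hn hn'
    rw [Finset.mem_filter] at hn hn'
    rw [hgood, Finset.mem_filter, Finset.mem_range] at hj hj'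
    exact hne (cell_unique hβ hβ' hj.1 hj'.1 hn.1 hn'.1).2.symm
  have h1 : (good.card : ℝ) * (c₀ * len β k / k) ≤
      (((Finset.Ico (2 ^ k) (2 ^ (k + 1))).filter Nat.Prime).card : ℝ) := by
    calc (good.card : ℝ) * (c₀ * len β k / k) = ∑ j ∈ good, c₀ * len β k / k := by
          rw [Finset.sum_const, nsmul_eq_mul]
      _ ≤ ∑ j ∈ good, (((cell β k j).filter Nat.Prime).card : ℝ) := by
          apply Finset.sum_le_sum
          intro j hj
          rw [hgood, Finset.mem_filter] at hj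
          exact not_lt.mp hj.2
      _ = ((good.biUnion (fun j => (cell β k j).filter Nat.Prime)).card : ℝ) := by
          rw [Finset.card_biUnion hdisj]
          push_cast
          rfl
      _ ≤ _ := by exact_mod_cast Finset.card_le_card hU
  refine le_trans ?_ h1
  calc c₀ / 2 * (2 : ℝ) ^ k / k = (ncell β k : ℝ) / 2 * (c₀ * len β k / k) := by
        rw [← hnc]
        ring
    _ ≤ _ := mul_le_mul_of_nonneg_right hgc (by positivity)

lemma rho_le {β : ℝ} (hβ' : β ≤ 1 / 1000) {k q : ℕ} (hk : 1 ≤ k) (hq : 2 ^ k ≤ q) :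
    rho β q ≤ 4 * (2 : ℝ) ^ (-(1 - β / 6) * (k : ℝ)) / (k : ℝ) ^ 2 := by
  have hk' : (1 : ℝ) ≤ k := by exact_mod_cast hk
  have hq' : (2 : ℝ) ^ (k : ℝ) ≤ q := by
    rw [Real.rpow_natCast]
    exact_mod_cast hq
  have hq0 : (0 : ℝ) < q := lt_of_lt_of_le (by positivity) hq'
  have h1 : (k : ℝ) / 2 ≤ Real.log q := by
    have h2 : Real.log ((2 : ℝ) ^ (k : ℝ)) ≤ Real.log q := Real.log_le_log (by positivity) hq'
    rw [Real.log_rpow (by norm_num)] at h2
    have := Real.log_two_gt_d9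
    nlinarith
  have h2 : (k : ℝ) ^ 2 / 4 ≤ (Real.log q) ^ 2 := by nlinarith
  have h3 : (q : ℝ) ^ (-(1 - β / 6)) ≤ (2 : ℝ) ^ (-(1 - β / 6) * (k : ℝ)) := by
    have h4 : (q : ℝ) ^ (-(1 - β / 6)) ≤ ((2 : ℝ) ^ (k : ℝ)) ^ (-(1 - β / 6)) := by
      apply Real.rpow_le_rpow_of_nonpos (by positivity) hq'
      linarith
    refine h4.trans (le_of_eq ?_)
    rw [← Real.rpow_mul (by norm_num)]
    congr 1
    ring
  unfold rho
  calc (q : ℝ) ^ (-(1 - β / 6)) / (Real.log q) ^ 2 ≤ (2 : ℝ) ^ (-(1 - β / 6) * (k : ℝ)) / ((k : ℝ) ^ 2 / 4) := by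
        apply div_le_div₀ (by positivity) h3 (by positivity) h2
    _ = _ := by
        field_simp

lemma rho_le_one {β : ℝ} (hβ' : β ≤ 1 / 1000) {q : ℕ} (hq : 7 ≤ q) : rho β q ≤ 1 := by
  have h := rho_le (β := β) hβ' (k := 2) (q := q) (by norm_num) (by omega)
  refine h.trans ?_
  have h1 : (2 : ℝ) ^ (-(1 - β / 6) * ((2 : ℕ) : ℝ)) ≤ 1 := by
    apply Real.rpow_le_one_of_one_le_of_nonpos (by norm_num)
    push_cast
    linarith
  push_cast
  push_cast at h1
  linarith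

open Classical in
/-- the dead set -/
noncomputable def deadSet (β c₀ : ℝ) (k₀ : ℕ) (k : ℕ) : Finset ℕ :=
  if k ≤ k₀ then ∅ else (Finset.range (ncell β k)).filter (fun j =>
        (((cell β k j).filter Nat.Prime).card : ℝ) < c₀ * len β k / k)

/-- the dead data -/
noncomputable def deadData (β c₀ : ℝ) (k₀ : ℕ) (hB : ∀ k : ℕ, k₀ ≤ k →
      (((Finset.range (ncell β k)).filter (fun j =>
        (((cell β k j).filter Nat.Prime).card : ℝ) < c₀ * len β k / k)).card : ℝ)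
        ≤ (2 : ℝ) ^ (β * (k : ℝ))) : Dead β k₀ where
  D := deadSet β c₀ k₀
  sub := by
    intro k
    unfold deadSet
    split_ifs
    · exact Finset.empty_subset _
    · exact Finset.filter_subset _ _
  card := by
    intro k
    unfold deadSet
    split_ifs with h
    · rw [Finset.card_empty]
      have : (0 : ℝ) ≤ (2 : ℝ) ^ (β * (k : ℝ)) := by positivity
      simpa using this
    · have h1 := hB k (by omega)
      refine le_trans (le_of_eq ?_) h1
      congr 2
  small := by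
    intro k hk
    unfold deadSet
    rw [if_pos hk]

open Classical in
/-- signs -/
lemma exists_sg {β : ℝ} {k₀ : ℕ} (𝒟 : Dead β k₀) (hβ : 0 < β) (hβ' : β ≤ 1 / 1000) {P : ℕ}
    (hP7 : 7 ≤ P) (hP : P ≤ 2 ^ k₀) :
    ∃ sg : ℕ → ℝ, (∀ p, |sg p| = 1) ∧
      (∀ kj : {kj : ℕ × ℕ // k₀ < kj.1 ∧ kj.2 < ncell β kj.1},
        |∑ q ∈ 𝒟.ctrlOf P (some kj), 𝒟.bas P sg q| ≤
          4 * (2 : ℝ) ^ (-(1 - β / 6) * (kj.1.1 : ℝ)) / (kj.1.1 : ℝ) ^ 2) ∧
      (∀ s : Finset ℕ, (∀ q, q ∈ s ↔ q < 2 ^ (k₀ + 1) ∧ 𝒟.Ord P q) →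
        |∑ q ∈ s, 𝒟.bas P sg q| ≤ 1) := by
  have hcell : ∀ k j : ℕ, ∃ sg : ℕ → ℝ, (∀ p, |sg p| = 1) ∧ (1 ≤ k →
      |∑ p ∈ (cell β k j).filter (fun n => n.Prime ∧ ¬ 𝒟.Spec n), sg p * rho β p| ≤
        4 * (2 : ℝ) ^ (-(1 - β / 6) * (k : ℝ)) / (k : ℝ) ^ 2) := by
    intro k j
    by_cases hk : 1 ≤ k
    · have hkpos : (0 : ℝ) < k := by exact_mod_cast hk
      obtain ⟨sg, h1, h2⟩ := exists_signs (rho β)
        (4 * (2 : ℝ) ^ (-(1 - β / 6) * (k : ℝ)) / (k : ℝ) ^ 2) (by positivity)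
        ((cell β k j).filter (fun n => n.Prime ∧ ¬ 𝒟.Spec n)) (by
          intro p hp
          rw [Finset.mem_filter] at hp
          exact ⟨(rho_pos hp.2.1.two_le).le, rho_le hβ' hk (two_pow_le_of_mem_cell hp.1)⟩)
      exact ⟨sg, h1, fun _ => h2⟩
    · exact ⟨fun _ => 1, fun _ => abs_one, fun h => absurd h hk⟩
  choose sgc hsgc1 hsgc2 using hcell
  obtain ⟨sg0, hsg01, hsg02⟩ := exists_signs (rho β) 1 zero_le_one
    ((Finset.range (2 ^ (k₀ + 1))).filter (fun p => 𝒟.Ord P p)) (by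
      intro p hp
      rw [Finset.mem_filter] at hp
      refine ⟨(rho_pos hp.2.1.two_le).le, rho_le_one hβ' ?_⟩
      have := hp.2.2.1
      omega)
  refine ⟨fun p => if p < 2 ^ (k₀ + 1) then sg0 p else
    sgc (Nat.log 2 p) ((p - 2 ^ (Nat.log 2 p)) / len β (Nat.log 2 p)) p, ?_, ?_, ?_⟩
  · intro p
    dsimp only
    split_ifs
    · exact hsg01 p
    · exact hsgc1 _ _ p
  · intro kj
    have hk1 : 1 ≤ kj.1.1 := by have := kj.2.1; omega
    by_cases hd : kj.1.2 ∈ 𝒟.D kj.1.1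
    · have h0 : ∑ q ∈ 𝒟.ctrlOf P (some kj), 𝒟.bas P (fun p => if p < 2 ^ (k₀ + 1) then sg0 p else
          sgc (Nat.log 2 p) ((p - 2 ^ (Nat.log 2 p)) / len β (Nat.log 2 p)) p) q = 0 := by
        apply Finset.sum_eq_zero
        intro q hq
        obtain ⟨m, hm⟩ := 𝒟.mem_ctrl_dead hd hq
        exact 𝒟.bas_of_spec ⟨_, _, m, hd, hm⟩
      rw [h0, abs_zero]
      positivity
    · have h1 : ∑ q ∈ 𝒟.ctrlOf P (some kj), 𝒟.bas P (fun p => if p < 2 ^ (k₀ + 1) then sg0 p else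
          sgc (Nat.log 2 p) ((p - 2 ^ (Nat.log 2 p)) / len β (Nat.log 2 p)) p) q =
          ∑ p ∈ (cell β kj.1.1 kj.1.2).filter (fun n => n.Prime ∧ ¬ 𝒟.Spec n),
            sgc kj.1.1 kj.1.2 p * rho β p := by
        apply Finset.sum_congr
        · ext q
          rw [𝒟.mem_ctrl_alive hd, Finset.mem_filter]
        · intro q hq
          rw [Finset.mem_filter] at hq
          have hq' : q ∈ 𝒟.ctrlOf P (some kj) := (𝒟.mem_ctrl_alive hd).mpr hq
          obtain ⟨ho, hq2⟩ := 𝒟.ord_of_alive hβ hβ' hP hd hq'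
          obtain ⟨e1, e2⟩ := cell_index hβ hβ' kj.2.2 hq.1
          have hge : ¬ q < 2 ^ (k₀ + 1) := by
            have h6 := two_pow_le_of_mem_cell hq.1
            have h7 : 2 ^ (k₀ + 1) ≤ 2 ^ kj.1.1 := Nat.pow_le_pow_right (by norm_num) kj.2.1
            omega
          unfold Dead.bas
          rw [if_pos ho]
          dsimp only
          rw [if_neg hge, e1, e2]
      rw [h1]
      exact hsgc2 _ _ hk1
  · intro s hs
    have h1 : ∑ q ∈ s, 𝒟.bas P (fun p => if p < 2 ^ (k₀ + 1) then sg0 p else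
          sgc (Nat.log 2 p) ((p - 2 ^ (Nat.log 2 p)) / len β (Nat.log 2 p)) p) q =
          ∑ p ∈ (Finset.range (2 ^ (k₀ + 1))).filter (fun p => 𝒟.Ord P p), sg0 p * rho β p := by
      apply Finset.sum_congr
      · ext q
        rw [hs, Finset.mem_filter, Finset.mem_range]
      · intro q hq
        rw [Finset.mem_filter, Finset.mem_range] at hq
        unfold Dead.bas
        rw [if_pos hq.2]
        dsimp only
        rw [if_pos hq.1]
    rw [h1]
    exact hsg02

end Pool.Agent.MP_a187e6
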