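import Pool.Agent.MP_a187e6.CmLemmas

/-! The base values, radii and the majorant of the construction. -/

namespace Pool.Agent.MP_a187e6

open Finset

/-- `ρ(p) = p^(-κ) / log² p`, `κ = 1 - β/6` -/
noncomputable def rho (β : ℝ) (p : ℕ) : ℝ := (p : ℝ) ^ (-(1 - β / 6)) / (Real.log p) ^ 2

lemma rho_pos {β : ℝ} {p : ℕ} (hp : 2 ≤ p) : 0 < rho β p := by
  unfold rho
  have h1 : (0 : ℝ) < p := by
    have : 0 < p := by omega
    exact_mod_cast this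
  have h2 : 0 < Real.log p := Real.log_pos (by exact_mod_cast (by omega : 1 < p))
  positivity

namespace Dead

variable {β : ℝ} {k₀ : ℕ} (𝒟 : Dead β k₀)

/-- a special prime has unique data -/
lemma inK_unique (hβ : 0 < β) (hβ' : β ≤ 1 / 1000) {k j m k' j' m' q : ℕ} (hj : j ∈ 𝒟.D k)
    (h : 𝒟.InK k j m q) (hj' : j' ∈ 𝒟.D k') (h' : 𝒟.InK k' j' m' q) :
    k' = k ∧ j' = j ∧ m' = m := by
  obtain ⟨h1, h2⟩ := h.2.1 k' j' m' hj' h'.1
  subst h1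
  subst h2
  refine ⟨rfl, rfl, ?_⟩
  have h3 : m * q = m' * q := by
    apply multiple_unique (h.1.len_lt hβ hβ').le h.1.2.2.2.2 h'.1.2.2.2.2 (dvd_mul_left _ _)
      (dvd_mul_left _ _)
  exact (Nat.eq_of_mul_eq_mul_right h.1.1.pos h3).symm

open Classical in
/-- the block of the dead cell controlled by `q` -/
noncomputable def sk (q : ℕ) : ℕ := if h : 𝒟.Spec q then h.choose else 0

open Classical in
/-- the dead cell controlled by `q` -/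
noncomputable def sj (q : ℕ) : ℕ := if h : 𝒟.Spec q then h.choose_spec.choose else 0

open Classical in
/-- the cofactor of `q` -/
noncomputable def sm (q : ℕ) : ℕ := if h : 𝒟.Spec q then h.choose_spec.choose_spec.choose else 1

lemma spec_data {q : ℕ} (h : 𝒟.Spec q) :
    𝒟.sj q ∈ 𝒟.D (𝒟.sk q) ∧ 𝒟.InK (𝒟.sk q) (𝒟.sj q) (𝒟.sm q) q := by
  unfold sk sj sm
  rw [dif_pos h, dif_pos h, dif_pos h]
  exact h.choose_spec.choose_spec.choose_spec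

lemma sm_of_not_spec {q : ℕ} (h : ¬ 𝒟.Spec q) : 𝒟.sm q = 1 := by
  unfold sm
  rw [dif_neg h]

lemma data_eq (hβ : 0 < β) (hβ' : β ≤ 1 / 1000) {k j m q : ℕ} (hj : j ∈ 𝒟.D k)
    (h : 𝒟.InK k j m q) : 𝒟.sk q = k ∧ 𝒟.sj q = j ∧ 𝒟.sm q = m := by
  have hs : 𝒟.Spec q := ⟨k, j, m, hj, h⟩
  obtain ⟨h1, h2⟩ := 𝒟.spec_data hs
  exact 𝒟.inK_unique hβ hβ' hj h h1 h2

/-- ordinary primes -/
def Ord (P : ℕ) (p : ℕ) : Prop := p.Prime ∧ P ≤ p ∧ ¬ 𝒟.Spec p ∧ ¬ 𝒟.InDead p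

open Classical in
/-- base value -/
noncomputable def bas (P : ℕ) (sg : ℕ → ℝ) (p : ℕ) : ℝ := if 𝒟.Ord P p then sg p * rho β p else 0

open Classical in
/-- radius -/
noncomputable def rad (P : ℕ) (p : ℕ) : ℝ :=
  if 𝒟.Spec p then
    (2 : ℝ) ^ (-(1 - β / 6) * (𝒟.sk p : ℝ)) / ((𝒟.sk p : ℝ) ^ 2 * cm (rho β) (𝒟.sm p))
  else if 𝒟.Ord P p ∧ 2 ^ k₀ ≤ p then rho β p / 2 else 0

/-- bound for the absolute value -/
noncomputable def Ab (P : ℕ) (sg : ℕ → ℝ) (p : ℕ) : ℝ := |𝒟.bas P sg p| + 𝒟.rad P p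

/-- the majorant -/
noncomputable def maj (P : ℕ) (sg : ℕ → ℝ) (n : ℕ) : ℝ :=
  cm (fun p => 2 * 𝒟.Ab P sg p) n * (n : ℝ) ^ (1 - β / 6)

lemma inK_prime_ord {P : ℕ} {k j m q : ℕ} (h : 𝒟.InK k j m q)
    (hP : (P : ℝ) ≤ (2 : ℝ) ^ (20 * β * (k : ℝ))) {p : ℕ} (hp : p.Prime) (hpm : p ∣ m) :
    𝒟.Ord P p := by
  refine ⟨hp, ?_, ?_, (h.2.2 p hp hpm).2⟩
  · have := h.1.2.2.2.1 p hp hpm
    exact_mod_cast (hP.trans this)
  · rintro ⟨k', j', m', hj', h'⟩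
    exact (h.2.2 p hp hpm).1 ⟨k', j', m', hj', h'.1⟩

lemma cm_rho_pos {k j m q : ℕ} (_h : 𝒟.InK k j m q) : 0 < cm (rho β) m :=
  Cm.pos (fun _ hp _ => rho_pos hp.two_le)

lemma rad_nonneg (P : ℕ) (p : ℕ) : 0 ≤ 𝒟.rad P p := by
  unfold rad
  split_ifs with h h'
  · have := 𝒟.cm_rho_pos (𝒟.spec_data h).2
    positivity
  · have := rho_pos (β := β) h'.1.1.two_le
    linarith
  · exact le_refl _

lemma Ab_nonneg (P : ℕ) (sg : ℕ → ℝ) (p : ℕ) : 0 ≤ 𝒟.Ab P sg p :=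
  add_nonneg (abs_nonneg _) (𝒟.rad_nonneg P p)

lemma maj_nonneg (P : ℕ) (sg : ℕ → ℝ) (n : ℕ) : 0 ≤ 𝒟.maj P sg n := by
  unfold maj
  apply mul_nonneg _ (by positivity)
  apply Cm.nonneg
  intro p hp hpn
  have := 𝒟.Ab_nonneg P sg p
  linarith

lemma Ab_of_ord {P : ℕ} {sg : ℕ → ℝ} (hsg : ∀ p, |sg p| = 1) {p : ℕ} (h : 𝒟.Ord P p) :
    𝒟.Ab P sg p ≤ 3 / 2 * rho β p := by
  have hr := rho_pos (β := β) h.1.two_le
  unfold Ab bas rad
  rw [if_pos h, abs_mul, hsg, one_mul, abs_of_pos hr, if_neg h.2.2.1]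
  split_ifs <;> linarith

lemma Ab_of_spec {P : ℕ} {sg : ℕ → ℝ} {p : ℕ} (h : 𝒟.Spec p) :
    𝒟.Ab P sg p = (2 : ℝ) ^ (-(1 - β / 6) * (𝒟.sk p : ℝ)) /
      ((𝒟.sk p : ℝ) ^ 2 * cm (rho β) (𝒟.sm p)) := by
  have hno : ¬ 𝒟.Ord P p := fun ho => ho.2.2.1 h
  unfold Ab bas rad
  rw [if_neg hno, if_pos h, abs_zero, zero_add]

lemma Ab_of_neither {P : ℕ} {sg : ℕ → ℝ} {p : ℕ} (h : ¬ 𝒟.Spec p) (h' : ¬ 𝒟.Ord P p) :
    𝒟.Ab P sg p = 0 := by
  unfold Ab bas rad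
  rw [if_neg h', if_neg h, if_neg (fun hh => h' hh.1), abs_zero, add_zero]

/-- number of prime factors of a cofactor -/
lemma length_le {K₀ : ℕ} (hβ : 0 < β) (hβ' : β ≤ 1 / 1000) (hK : 1 / (20 * β) ≤ K₀)
    {k j m q : ℕ} (hjn : j < ncell β k) (h : Elig β k j m q) (hk : 2 ≤ k) :
    m.primeFactorsList.length ≤ K₀ := by
  have hkpos : (0 : ℝ) < k := by
    have : 0 < k := by omega
    exact_mod_cast this
  have hm0 : m ≠ 0 := by
    have := h.2.2.1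
    omega
  have hz : (1 : ℝ) ≤ (2 : ℝ) ^ (20 * β * (k : ℝ)) := by
    apply Real.one_le_rpow (by norm_num)
    positivity
  have h1 := length_le_of_rough hz hm0 h.2.2.2.1
  have h2 : (m : ℝ) ≤ (2 : ℝ) ^ (k : ℝ) := by
    have hn1 := lt_two_pow_of_mem_cell hβ hβ' hjn h.2.2.2.2
    have hq2 : 2 ≤ q := h.1.two_le
    have h3 : m * 2 ≤ m * q := Nat.mul_le_mul_left m hq2
    have h4 : m ≤ 2 ^ k := by
      rw [pow_succ] at hn1
      omega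
    rw [Real.rpow_natCast]
    exact_mod_cast h4
  have h3 : ((2 : ℝ) ^ (20 * β * (k : ℝ))) ^ m.primeFactorsList.length =
      (2 : ℝ) ^ (20 * β * (k : ℝ) * (m.primeFactorsList.length : ℝ)) := by
    rw [← Real.rpow_natCast, ← Real.rpow_mul (by norm_num)]
  rw [h3] at h1
  have h4 := h1.trans h2
  rw [Real.rpow_le_rpow_left_iff (by norm_num)] at h4
  have h5 : 20 * β * (m.primeFactorsList.length : ℝ) ≤ 1 := by
    by_contra hcon
    push Not at hcon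
    have : (k : ℝ) < 20 * β * (m.primeFactorsList.length : ℝ) * k := by nlinarith
    nlinarith
  have h6 : (m.primeFactorsList.length : ℝ) ≤ K₀ := by
    refine le_trans ?_ hK
    rw [le_div_iff₀ (by positivity)]
    linarith
  exact_mod_cast h6

end Dead

end Pool.Agent.MP_a187e6
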