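import Pool.Agent.MP_a187e6.Balance

/-! Solving the balancing equations. -/

namespace Pool.Agent.MP_a187e6

open Finset

namespace Dead

variable {β : ℝ} {k₀ : ℕ} (𝒟 : Dead β k₀)

open Classical in
/-- weights `1/#(control set)` -/
noncomputable def wt (P : ℕ) (q : ℕ) : ℝ :=
  if h : ∃ i : Idx β k₀, q ∈ 𝒟.ctrlOf P i then 1 / ((𝒟.ctrlOf P h.choose).card : ℝ) else 0

lemma wt_eq {P : ℕ} (hβ : 0 < β) (hβ' : β ≤ 1 / 1000) (hP : P ≤ 2 ^ k₀) {i : Idx β k₀} {q : ℕ}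
    (hq : q ∈ 𝒟.ctrlOf P i) : 𝒟.wt P q = 1 / ((𝒟.ctrlOf P i).card : ℝ) := by
  have h : ∃ i : Idx β k₀, q ∈ 𝒟.ctrlOf P i := ⟨i, hq⟩
  unfold wt
  rw [dif_pos h, 𝒟.ctrl_disj hβ hβ' hP i h.choose q hq h.choose_spec]

lemma wt_nonneg (P : ℕ) (q : ℕ) : 0 ≤ 𝒟.wt P q := by
  unfold wt
  split_ifs
  · positivity
  · exact le_refl _

open Classical in
noncomputable def lamq (K₀ : ℕ) (q : ℕ) : ℝ :=
  if 𝒟.Spec q then (1 / 2) ^ K₀ * cm (rho β) (𝒟.sm q) else 1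

open Classical in
noncomputable def Mq (K₀ : ℕ) (q : ℕ) : ℝ :=
  if 𝒟.Spec q then 3 ^ K₀ * cm (rho β) (𝒟.sm q) else 0

/-- error bounds for the cells -/
noncomputable def Ei (β : ℝ) (k₀ : ℕ) (ε : ℝ) : Idx β k₀ → ℝ
  | none => 2 * ε * (2 : ℝ) ^ (β / 6 * (k₀ : ℝ)) / (k₀ : ℝ) ^ 3
  | some kj => 2 * ε * (2 : ℝ) ^ (-(1 - β / 6) * (kj.1.1 : ℝ)) * len β kj.1.1 / (kj.1.1 : ℝ) ^ 3

lemma maj_mul_rpow {P : ℕ} {sg : ℕ → ℝ} {n : ℕ} (hn : 1 ≤ n) :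
    𝒟.maj P sg n * (n : ℝ) ^ (-(1 - β / 6)) = cm (fun p => 2 * 𝒟.Ab P sg p) n := by
  unfold maj
  have h1 : (0 : ℝ) < n := by exact_mod_cast hn
  rw [mul_assoc, ← Real.rpow_add h1]
  simp

lemma Ball.cm_le {𝒟 : Dead β k₀} {P : ℕ} {sg : ℕ → ℝ} {f : ℕ → ℝ} (h : 𝒟.Ball P sg f) {n : ℕ}
    (hn : 1 ≤ n) : |cm f n| ≤ 𝒟.maj P sg n * (n : ℝ) ^ (-(1 - β / 6)) := by
  rw [𝒟.maj_mul_rpow hn]
  refine (Cm.abs_le (fun p hp _ => h.abs_le hp)).trans ?_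
  apply Cm.mono
  · intro p hp _
    exact 𝒟.Ab_nonneg P sg p
  · intro p hp _
    have := 𝒟.Ab_nonneg P sg p
    linarith

lemma Ball.cm_sub_le {𝒟 : Dead β k₀} {P : ℕ} {sg : ℕ → ℝ} {f g : ℕ → ℝ} (hf : 𝒟.Ball P sg f)
    (hg : 𝒟.Ball P sg g) {D : ℝ} (hD : 0 ≤ D)
    (hfg : ∀ p : ℕ, p.Prime → |f p - g p| ≤ D * 𝒟.rad P p) {n : ℕ} (hn : 1 ≤ n) :
    |cm f n - cm g n| ≤ D * (𝒟.maj P sg n * (n : ℝ) ^ (-(1 - β / 6))) := by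
  rw [𝒟.maj_mul_rpow hn]
  apply abs_cm_sub_cm_le f g (𝒟.Ab P sg) D hD n (by omega) (fun p hp => hf.abs_le hp)
    (fun p hp => hg.abs_le hp)
  intro p hp
  refine (hfg p hp).trans ?_
  apply mul_le_mul_of_nonneg_left _ hD
  unfold Ab
  have := abs_nonneg (𝒟.bas P sg p)
  linarith

/-- all numerical inputs of the construction -/
structure Inputs (P K₀ : ℕ) (sg : ℕ → ℝ) (ε c : ℝ) : Prop where
  hβ : 0 < β
  hβ' : β ≤ 1 / 1000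
  hK : 1 / (20 * β) ≤ K₀
  hk2 : 2 ≤ k₀
  hk : 1 ≤ 40 * β * (k₀ : ℝ)
  hPk : (P : ℝ) ≤ (2 : ℝ) ^ (20 * β * (k₀ : ℝ))
  hsg : ∀ p, |sg p| = 1
  hε : 0 < ε
  hc : 0 < c
  hεc : 64 * 12 ^ K₀ * ε ≤ c
  clos : ∀ k : ℕ, k₀ < k → ∀ j < ncell β k, ∀ s : Finset ℕ, s ⊆ cell β k j →
    (∀ n ∈ s, ¬ 𝒟.Ctrl k j n) → ∑ n ∈ s, 𝒟.maj P sg n ≤ ε * len β k / (k : ℝ) ^ 3
  init : ∀ s : Finset ℕ, s ⊆ Finset.Ico 2 (2 ^ (k₀ + 1)) → (∀ n ∈ s, ¬ n.Prime ∨ 𝒟.Spec n) →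
    ∑ n ∈ s, 𝒟.maj P sg n * (n : ℝ) ^ (-(1 - β / 6)) ≤ ε * (2 : ℝ) ^ (β / 6 * (k₀ : ℝ)) / (k₀ : ℝ) ^ 3
  card : ∀ kj : {kj : ℕ × ℕ // k₀ < kj.1 ∧ kj.2 < ncell β kj.1},
    c * len β kj.1.1 / (kj.1.1 : ℝ) ≤ ((𝒟.ctrlOf P (some kj)).card : ℝ)
  card0 : c * (2 : ℝ) ^ k₀ / (k₀ : ℝ) ≤ ((𝒟.ctrlOf P none).card : ℝ)
  sign : ∀ kj : {kj : ℕ × ℕ // k₀ < kj.1 ∧ kj.2 < ncell β kj.1},
    |∑ q ∈ 𝒟.ctrlOf P (some kj), 𝒟.bas P sg q| ≤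
      4 * (2 : ℝ) ^ (-(1 - β / 6) * (kj.1.1 : ℝ)) / (kj.1.1 : ℝ) ^ 2
  sign0 : ∀ s : Finset ℕ, (∀ q, q ∈ s ↔ q < 2 ^ (k₀ + 1) ∧ 𝒟.Ord P q) →
    |∑ q ∈ s, 𝒟.bas P sg q| ≤ 1
  large : ∀ k : ℕ, k₀ < k → 4 * (k : ℝ) ≤ ε * len β k
  large0 : 2 ≤ ε * (2 : ℝ) ^ (β / 6 * (k₀ : ℝ)) / (k₀ : ℝ) ^ 3

lemma Inputs.hP {𝒟 : Dead β k₀} {P K₀ : ℕ} {sg : ℕ → ℝ} {ε c : ℝ} (I : 𝒟.Inputs P K₀ sg ε c) :
    P ≤ 2 ^ k₀ := by
  have h1 := I.hPk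
  have h2 : (2 : ℝ) ^ (20 * β * (k₀ : ℝ)) ≤ (2 : ℝ) ^ (k₀ : ℝ) := by
    apply Real.rpow_le_rpow_of_exponent_le (by norm_num)
    have h3 : (0 : ℝ) ≤ k₀ := Nat.cast_nonneg _
    have := I.hβ'
    nlinarith
  rw [Real.rpow_natCast] at h2
  exact_mod_cast h1.trans h2

/-- radius of an ordinary control prime in block `k` -/
lemma rho_ge {k q : ℕ} (hβ : 0 < β) (hβ' : β ≤ 1 / 1000) (hk : 1 ≤ k) (hq2 : 2 ≤ q)
    (hq : q < 2 ^ (k + 1)) :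
    (2 : ℝ) ^ (-(1 - β / 6) * (k : ℝ)) / (8 * (k : ℝ) ^ 2) ≤ rho β q := by
  have hk' : (1 : ℝ) ≤ k := by exact_mod_cast hk
  have hq0 : (0 : ℝ) < q := by
    have : 0 < q := by omega
    exact_mod_cast this
  have hlog : 0 < Real.log q := Real.log_pos (by exact_mod_cast (by omega : 1 < q))
  have hq3 : (q : ℝ) ≤ (2 : ℝ) ^ ((k : ℝ) + 1) := by
    have e4 : (2 : ℝ) ^ ((k : ℝ) + 1) = (2 : ℝ) ^ (k + 1) := by
      rw [← Real.rpow_natCast]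
      push_cast
      rfl
    rw [e4]
    exact_mod_cast hq.le
  have h1 : Real.log q ≤ 2 * k := by
    have h2 : Real.log q ≤ Real.log ((2 : ℝ) ^ ((k : ℝ) + 1)) := Real.log_le_log hq0 hq3
    rw [Real.log_rpow (by norm_num)] at h2
    have := Real.log_two_lt_d9
    nlinarith
  have h2 : (Real.log q) ^ 2 ≤ 4 * (k : ℝ) ^ 2 := by nlinarith
  have h3 : (2 : ℝ) ^ (-(1 - β / 6) * (k : ℝ)) / 2 ≤ (q : ℝ) ^ (-(1 - β / 6)) := by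
    have h4 : ((2 : ℝ) ^ ((k : ℝ) + 1)) ^ (-(1 - β / 6)) ≤ (q : ℝ) ^ (-(1 - β / 6)) := by
      apply Real.rpow_le_rpow_of_nonpos hq0 hq3
      linarith
    refine le_trans ?_ h4
    rw [← Real.rpow_mul (by norm_num)]
    have h5 : (2 : ℝ) ^ (-(1 - β / 6) * (k : ℝ)) / 2 = (2 : ℝ) ^ (-(1 - β / 6) * (k : ℝ) - 1) := by
      rw [Real.rpow_sub (by norm_num), Real.rpow_one]
    rw [h5]
    apply Real.rpow_le_rpow_of_exponent_le (by norm_num)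
    linarith
  unfold rho
  rw [le_div_iff₀ (by positivity)]
  have h6 : (0 : ℝ) < (2 : ℝ) ^ (-(1 - β / 6) * (k : ℝ)) := by positivity
  calc (2 : ℝ) ^ (-(1 - β / 6) * (k : ℝ)) / (8 * (k : ℝ) ^ 2) * (Real.log q) ^ 2
      ≤ (2 : ℝ) ^ (-(1 - β / 6) * (k : ℝ)) / (8 * (k : ℝ) ^ 2) * (4 * (k : ℝ) ^ 2) :=
        mul_le_mul_of_nonneg_left h2 (by positivity)
    _ = (2 : ℝ) ^ (-(1 - β / 6) * (k : ℝ)) / 2 := by
        field_simp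
        ring
    _ ≤ _ := h3

lemma rad_of_ord {P : ℕ} {q : ℕ} (h : 𝒟.Ord P q) (hq : 2 ^ k₀ ≤ q) : 𝒟.rad P q = rho β q / 2 := by
  unfold rad
  rw [if_neg h.2.2.1, if_pos ⟨h, hq⟩]

lemma rad_of_spec {P : ℕ} {q : ℕ} (h : 𝒟.Spec q) : 𝒟.rad P q =
    (2 : ℝ) ^ (-(1 - β / 6) * (𝒟.sk q : ℝ)) / ((𝒟.sk q : ℝ) ^ 2 * cm (rho β) (𝒟.sm q)) := by
  unfold rad
  rw [if_pos h]

lemma bas_of_spec {P : ℕ} {sg : ℕ → ℝ} {q : ℕ} (h : 𝒟.Spec q) : 𝒟.bas P sg q = 0 := by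
  unfold bas
  rw [if_neg (fun ho => ho.2.2.1 h)]

/-- the weight times the error, in a dyadic block `k` -/
lemma Inputs.wE {𝒟 : Dead β k₀} {P K₀ : ℕ} {sg : ℕ → ℝ} {ε c : ℝ} (I : 𝒟.Inputs P K₀ sg ε c)
    {i : Idx β k₀} {q : ℕ} (hq : q ∈ 𝒟.ctrlOf P i) :
    ∃ k : ℕ, (i = none ∧ k = k₀ ∨ ∃ kj, i = some kj ∧ k = kj.1.1) ∧ 1 ≤ k ∧
      𝒟.wt P q * Ei β k₀ ε i ≤ 2 * ε / c * ((2 : ℝ) ^ (-(1 - β / 6) * (k : ℝ)) / (k : ℝ) ^ 2) := by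
  have hc := I.hc
  have hε := I.hε
  rw [𝒟.wt_eq I.hβ I.hβ' I.hP hq]
  match i with
  | none =>
    have hk1 : 1 ≤ k₀ := by have := I.hk2; omega
    refine ⟨k₀, Or.inl ⟨rfl, rfl⟩, hk1, ?_⟩
    have hkpos : (0 : ℝ) < k₀ := by exact_mod_cast hk1
    have h1 := I.card0
    have h2 : 0 < c * (2 : ℝ) ^ k₀ / (k₀ : ℝ) := by positivity
    have h3 : 1 / ((𝒟.ctrlOf P none).card : ℝ) ≤ 1 / (c * (2 : ℝ) ^ k₀ / (k₀ : ℝ)) :=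
      one_div_le_one_div_of_le h2 h1
    unfold Ei
    calc 1 / ((𝒟.ctrlOf P none).card : ℝ) * (2 * ε * (2 : ℝ) ^ (β / 6 * (k₀ : ℝ)) / (k₀ : ℝ) ^ 3)
        ≤ 1 / (c * (2 : ℝ) ^ k₀ / (k₀ : ℝ)) * (2 * ε * (2 : ℝ) ^ (β / 6 * (k₀ : ℝ)) / (k₀ : ℝ) ^ 3) :=
          mul_le_mul_of_nonneg_right h3 (by positivity)
      _ = 2 * ε / c * ((2 : ℝ) ^ (β / 6 * (k₀ : ℝ)) / (2 : ℝ) ^ k₀ / (k₀ : ℝ) ^ 2) := by
          field_simp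
      _ = 2 * ε / c * ((2 : ℝ) ^ (-(1 - β / 6) * (k₀ : ℝ)) / (k₀ : ℝ) ^ 2) := by
          congr 2
          rw [← Real.rpow_natCast, ← Real.rpow_sub (by norm_num)]
          congr 1
          ring
  | some kj =>
    have hk1 : 1 ≤ kj.1.1 := by have := kj.2.1; omega
    refine ⟨kj.1.1, Or.inr ⟨kj, rfl, rfl⟩, hk1, ?_⟩
    have hkpos : (0 : ℝ) < kj.1.1 := by exact_mod_cast hk1
    have hL : (0 : ℝ) < len β kj.1.1 := by exact_mod_cast len_pos β kj.1.1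
    have h1 := I.card kj
    have h2 : 0 < c * len β kj.1.1 / (kj.1.1 : ℝ) := by positivity
    have h3 : 1 / ((𝒟.ctrlOf P (some kj)).card : ℝ) ≤ 1 / (c * len β kj.1.1 / (kj.1.1 : ℝ)) :=
      one_div_le_one_div_of_le h2 h1
    unfold Ei
    calc 1 / ((𝒟.ctrlOf P (some kj)).card : ℝ) * (2 * ε * (2 : ℝ) ^ (-(1 - β / 6) * (kj.1.1 : ℝ)) *
          len β kj.1.1 / (kj.1.1 : ℝ) ^ 3)
        ≤ 1 / (c * len β kj.1.1 / (kj.1.1 : ℝ)) * (2 * ε * (2 : ℝ) ^ (-(1 - β / 6) * (kj.1.1 : ℝ)) *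
          len β kj.1.1 / (kj.1.1 : ℝ) ^ 3) :=
          mul_le_mul_of_nonneg_right h3 (by positivity)
      _ = _ := by
          field_simp

lemma Inputs.small {𝒟 : Dead β k₀} {P K₀ : ℕ} {sg : ℕ → ℝ} {ε c : ℝ} (I : 𝒟.Inputs P K₀ sg ε c) :
    2 * ε / c * 12 ^ K₀ ≤ 1 / 32 := by
  have hc := I.hc
  have := I.hεc
  rw [div_mul_eq_mul_div, div_le_iff₀ hc]
  linarith

lemma Inputs.hw {𝒟 : Dead β k₀} {P K₀ : ℕ} {sg : ℕ → ℝ} {ε c : ℝ} (I : 𝒟.Inputs P K₀ sg ε c)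
    (i : Idx β k₀) : ∑ q ∈ 𝒟.ctrlOf P i, 𝒟.wt P q = 1 := by
  have h1 : ∑ q ∈ 𝒟.ctrlOf P i, 𝒟.wt P q = ∑ q ∈ 𝒟.ctrlOf P i, 1 / ((𝒟.ctrlOf P i).card : ℝ) :=
    Finset.sum_congr rfl (fun q hq => 𝒟.wt_eq I.hβ I.hβ' I.hP hq)
  rw [h1, Finset.sum_const, nsmul_eq_mul]
  have hc := I.hc
  have hpos : 0 < ((𝒟.ctrlOf P i).card : ℝ) := by
    match i with
    | none =>
      have hk1 : 1 ≤ k₀ := by have := I.hk2; omega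
      have hkpos : (0 : ℝ) < k₀ := by exact_mod_cast hk1
      refine lt_of_lt_of_le ?_ I.card0
      positivity
    | some kj =>
      have hk1 : 1 ≤ kj.1.1 := by have := kj.2.1; omega
      have hkpos : (0 : ℝ) < kj.1.1 := by exact_mod_cast hk1
      have hL : (0 : ℝ) < len β kj.1.1 := by exact_mod_cast len_pos β kj.1.1
      refine lt_of_lt_of_le ?_ (I.card kj)
      positivity
  field_simp

/-- conditions (h1) and (h2) -/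
lemma Inputs.h12 {𝒟 : Dead β k₀} {P K₀ : ℕ} {sg : ℕ → ℝ} {ε c : ℝ} (I : 𝒟.Inputs P K₀ sg ε c)
    {i : Idx β k₀} {q : ℕ} (hq : q ∈ 𝒟.ctrlOf P i) :
    𝒟.wt P q * Ei β k₀ ε i ≤ 𝒟.rad P q * 𝒟.lamq K₀ q ∧
      𝒟.wt P q * Ei β k₀ ε i * (1 / 𝒟.lamq K₀ q + 𝒟.Mq K₀ q / (𝒟.lamq K₀ q) ^ 2) ≤
        𝒟.rad P q / 2 := by
  obtain ⟨k, hik, hk1, hwE⟩ := I.wE hq
  have hsm := I.small
  have hc := I.hc
  have hε := I.hε
  have hkpos : (0 : ℝ) < k := by exact_mod_cast hk1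
  set T : ℝ := (2 : ℝ) ^ (-(1 - β / 6) * (k : ℝ)) / (k : ℝ) ^ 2 with hT
  have hTpos : 0 < T := by positivity
  have h12 : (1 : ℝ) ≤ 12 ^ K₀ := one_le_pow₀ (by norm_num)
  have hec : 0 < 2 * ε / c := by positivity
  rcases 𝒟.ctrl_cases I.hβ I.hβ' I.hP hq with ⟨h1, h2, h3, h4, h5⟩ | ⟨kj, h1, h2, h3, h4, h5⟩
  · -- ordinary
    have hqk : q < 2 ^ (k + 1) := by
      rcases hik with ⟨rfl, rfl⟩ | ⟨kj, rfl, rfl⟩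
      · unfold cellOf at h3
        rw [Finset.mem_Ico] at h3
        exact h3.2
      · exact lt_two_pow_of_mem_cell I.hβ I.hβ' kj.2.2 h3
    have hr := rho_ge I.hβ I.hβ' hk1 h1.1.two_le hqk
    have hr' : T / 8 ≤ rho β q := by
      have : T / 8 = (2 : ℝ) ^ (-(1 - β / 6) * (k : ℝ)) / (8 * (k : ℝ) ^ 2) := by
        rw [hT]
        field_simp
      rw [this]
      exact hr
    have hl : 𝒟.lamq K₀ q = 1 := by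
      unfold lamq
      rw [if_neg h5]
    have hM : 𝒟.Mq K₀ q = 0 := by
      unfold Mq
      rw [if_neg h5]
    rw [hl, hM, 𝒟.rad_of_ord h1 h2]
    have h6 : 2 * ε / c ≤ 1 / 32 := by
      calc 2 * ε / c = 2 * ε / c * 1 := (mul_one _).symm
        _ ≤ 2 * ε / c * 12 ^ K₀ := mul_le_mul_of_nonneg_left h12 hec.le
        _ ≤ 1 / 32 := hsm
    have h7 : 𝒟.wt P q * Ei β k₀ ε i ≤ T / 32 := by
      refine hwE.trans ?_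
      calc 2 * ε / c * T ≤ 1 / 32 * T := mul_le_mul_of_nonneg_right h6 hTpos.le
        _ = T / 32 := by ring
    constructor
    · linarith
    · simp only [div_one, zero_div, add_zero, mul_one]
      linarith
  · -- special
    have hkk : k = 𝒟.sk q := by
      rcases hik with ⟨rfl, rfl⟩ | ⟨kj', rfl, rfl⟩
      · exact absurd h1 (by simp)
      · rw [h4, Option.some.inj h1]
    have hrm := 𝒟.cm_rho_pos h3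
    have hl : 𝒟.lamq K₀ q = (1 / 2) ^ K₀ * cm (rho β) (𝒟.sm q) := by
      unfold lamq
      rw [if_pos h5]
    have hM : 𝒟.Mq K₀ q = 3 ^ K₀ * cm (rho β) (𝒟.sm q) := by
      unfold Mq
      rw [if_pos h5]
    have hrad : 𝒟.rad P q = T / cm (rho β) (𝒟.sm q) := by
      rw [𝒟.rad_of_spec h5, hT, hkk]
      field_simp
    rw [hl, hM, hrad]
    have e1 : (1 / 2 : ℝ) ^ K₀ * 12 ^ K₀ = 6 ^ K₀ := by
      rw [← mul_pow]; norm_num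
    have e6 : (1 : ℝ) ≤ 6 ^ K₀ := one_le_pow₀ (by norm_num)
    have e2 : (2 : ℝ) ^ K₀ ≤ 12 ^ K₀ := pow_le_pow_left₀ (by norm_num) (by norm_num) _
    constructor
    · have h6 : 2 * ε / c ≤ (1 / 2) ^ K₀ := by
        have h7 : (2 * ε / c) * 12 ^ K₀ ≤ (1 / 2) ^ K₀ * 12 ^ K₀ := by
          rw [e1]
          linarith
        exact le_of_mul_le_mul_right h7 (by positivity)
      calc 𝒟.wt P q * Ei β k₀ ε i ≤ 2 * ε / c * T := hwE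
        _ ≤ (1 / 2) ^ K₀ * T := mul_le_mul_of_nonneg_right h6 hTpos.le
        _ = T / cm (rho β) (𝒟.sm q) * ((1 / 2) ^ K₀ * cm (rho β) (𝒟.sm q)) := by
            field_simp
    · have e3 : 1 / ((1 / 2 : ℝ) ^ K₀ * cm (rho β) (𝒟.sm q)) + 3 ^ K₀ * cm (rho β) (𝒟.sm q) /
          ((1 / 2 : ℝ) ^ K₀ * cm (rho β) (𝒟.sm q)) ^ 2 =
          (2 ^ K₀ + 12 ^ K₀) / cm (rho β) (𝒟.sm q) := by
        have a1 : (1 / 2 : ℝ) ^ K₀ = (2 ^ K₀)⁻¹ := by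
          rw [one_div, inv_pow]
        have a2 : (12 : ℝ) ^ K₀ = 3 ^ K₀ * 2 ^ K₀ * 2 ^ K₀ := by
          rw [← mul_pow, ← mul_pow]; norm_num
        rw [a1, a2]
        field_simp
      rw [e3]
      have h8 : 0 ≤ (2 ^ K₀ + 12 ^ K₀) / cm (rho β) (𝒟.sm q) := by positivity
      calc 𝒟.wt P q * Ei β k₀ ε i * ((2 ^ K₀ + 12 ^ K₀) / cm (rho β) (𝒟.sm q))
          ≤ 2 * ε / c * T * ((2 ^ K₀ + 12 ^ K₀) / cm (rho β) (𝒟.sm q)) :=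
            mul_le_mul_of_nonneg_right hwE h8
        _ ≤ 2 * ε / c * T * ((12 ^ K₀ + 12 ^ K₀) / cm (rho β) (𝒟.sm q)) := by
            apply mul_le_mul_of_nonneg_left _ (by positivity)
            apply div_le_div_of_nonneg_right _ hrm.le
            linarith
        _ = 2 * (2 * ε / c * 12 ^ K₀) * (T / cm (rho β) (𝒟.sm q)) := by ring
        _ ≤ 2 * (1 / 32) * (T / cm (rho β) (𝒟.sm q)) := by
            apply mul_le_mul_of_nonneg_right _ (by positivity)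
            linarith
        _ ≤ T / cm (rho β) (𝒟.sm q) / 2 := by
            have : 0 ≤ T / cm (rho β) (𝒟.sm q) := by positivity
            linarith

end Dead

end Pool.Agent.MP_a187e6
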