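import Pool.Agent.MP_a187e6.Solve

/-! Applying the fixed point theorem. -/

namespace Pool.Agent.MP_a187e6

open Finset

namespace Dead

variable {β : ℝ} {k₀ : ℕ} (𝒟 : Dead β k₀)

/-- numbers outside the image of the control set are not control numbers -/
lemma not_ctrl {P : ℕ} (hβ : 0 < β) (hβ' : β ≤ 1 / 1000)
    {kj : {kj : ℕ × ℕ // k₀ < kj.1 ∧ kj.2 < ncell β kj.1}} {n : ℕ}
    (hn : n ∈ cellOf β k₀ (some kj) \ (𝒟.ctrlOf P (some kj)).image (fun q => 𝒟.sm q * q)) :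
    ¬ 𝒟.Ctrl kj.1.1 kj.1.2 n := by
  rw [Finset.mem_sdiff] at hn
  obtain ⟨h1, h2⟩ := hn
  intro hc
  apply h2
  rw [Finset.mem_image]
  rcases hc with ⟨hd, m, q, rfl, hK⟩ | ⟨hd, hp, hs⟩
  · refine ⟨q, 𝒟.mem_ctrl_dead_of hβ hβ' hd hK, ?_⟩
    rw [(𝒟.data_eq hβ hβ' hd hK).2.2]
  · refine ⟨n, (𝒟.mem_ctrl_alive hd).mpr ⟨h1, hp, hs⟩, ?_⟩
    rw [𝒟.sm_of_not_spec hs, one_mul]

/-- sum of the majorant over a cell minus the control numbers -/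
lemma Inputs.sum_maj {𝒟 : Dead β k₀} {P K₀ : ℕ} {sg : ℕ → ℝ} {ε c : ℝ} (I : 𝒟.Inputs P K₀ sg ε c)
    (kj : {kj : ℕ × ℕ // k₀ < kj.1 ∧ kj.2 < ncell β kj.1}) :
    ∑ n ∈ cellOf β k₀ (some kj) \ (𝒟.ctrlOf P (some kj)).image (fun q => 𝒟.sm q * q),
      𝒟.maj P sg n * (n : ℝ) ^ (-(1 - β / 6)) ≤
      ε * (2 : ℝ) ^ (-(1 - β / 6) * (kj.1.1 : ℝ)) * len β kj.1.1 / (kj.1.1 : ℝ) ^ 3 := by
  have h1 : ∀ n ∈ cellOf β k₀ (some kj) \ (𝒟.ctrlOf P (some kj)).image (fun q => 𝒟.sm q * q),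
      𝒟.maj P sg n * (n : ℝ) ^ (-(1 - β / 6)) ≤
        (2 : ℝ) ^ (-(1 - β / 6) * (kj.1.1 : ℝ)) * 𝒟.maj P sg n := by
    intro n hn
    have hmem : n ∈ cell β kj.1.1 kj.1.2 := (Finset.mem_sdiff.mp hn).1
    have h2 : (2 : ℝ) ^ (kj.1.1 : ℝ) ≤ n := by
      rw [Real.rpow_natCast]
      exact_mod_cast two_pow_le_of_mem_cell hmem
    have h3 : (n : ℝ) ^ (-(1 - β / 6)) ≤ (2 : ℝ) ^ (-(1 - β / 6) * (kj.1.1 : ℝ)) := by
      have h4 : (n : ℝ) ^ (-(1 - β / 6)) ≤ ((2 : ℝ) ^ (kj.1.1 : ℝ)) ^ (-(1 - β / 6)) := by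
        apply Real.rpow_le_rpow_of_nonpos (by positivity) h2
        have := I.hβ'
        linarith
      refine h4.trans (le_of_eq ?_)
      rw [← Real.rpow_mul (by norm_num)]
      congr 1
      ring
    rw [mul_comm]
    exact mul_le_mul_of_nonneg_right h3 (𝒟.maj_nonneg P sg n)
  refine (Finset.sum_le_sum h1).trans ?_
  rw [← Finset.mul_sum]
  have h5 := I.clos kj.1.1 kj.2.1 kj.1.2 kj.2.2
    (cellOf β k₀ (some kj) \ (𝒟.ctrlOf P (some kj)).image (fun q => 𝒟.sm q * q))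
    Finset.sdiff_subset (fun n hn => 𝒟.not_ctrl I.hβ I.hβ' hn)
  calc (2 : ℝ) ^ (-(1 - β / 6) * (kj.1.1 : ℝ)) * _
      ≤ (2 : ℝ) ^ (-(1 - β / 6) * (kj.1.1 : ℝ)) * (ε * len β kj.1.1 / (kj.1.1 : ℝ) ^ 3) :=
        mul_le_mul_of_nonneg_left h5 (by positivity)
    _ = _ := by ring

lemma one_le_of_mem_cellOf {i : Idx β k₀} {n : ℕ} (h : n ∈ cellOf β k₀ i) : 1 ≤ n := by
  match i with
  | none =>
    unfold cellOf at h
    rw [Finset.mem_Ico] at h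
    exact h.1
  | some kj => exact pos_of_mem_cell h

open Classical in
/-- the decomposition of the initial cell -/
lemma Inputs.initial_split {𝒟 : Dead β k₀} {P K₀ : ℕ} {sg : ℕ → ℝ} {ε c : ℝ}
    (I : 𝒟.Inputs P K₀ sg ε c) (F : ℕ → ℝ) :
    ∑ n ∈ cellOf β k₀ none \ (𝒟.ctrlOf P none).image (fun q => 𝒟.sm q * q), F n =
      F 1 + ∑ n ∈ (Finset.range (2 ^ k₀)).filter (fun n => 𝒟.Ord P n), F n +
      (∑ n ∈ (Finset.Ico 2 (2 ^ (k₀ + 1))).filter (fun n => ¬ n.Prime ∨ 𝒟.Spec n), F n +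
       ∑ n ∈ (Finset.Ico 2 (2 ^ (k₀ + 1))).filter (fun n => n.Prime ∧ ¬ 𝒟.Spec n ∧ ¬ 𝒟.Ord P n), F n) := by
  set S0 : Finset ℕ := cellOf β k₀ none \ (𝒟.ctrlOf P none).image (fun q => 𝒟.sm q * q) with hS0
  set S1 : Finset ℕ := (Finset.range (2 ^ k₀)).filter (fun n => 𝒟.Ord P n) with hS1
  set S2 : Finset ℕ := (Finset.Ico 2 (2 ^ (k₀ + 1))).filter (fun n => ¬ n.Prime ∨ 𝒟.Spec n) with hS2
  set S3 : Finset ℕ := (Finset.Ico 2 (2 ^ (k₀ + 1))).filter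
    (fun n => n.Prime ∧ ¬ 𝒟.Spec n ∧ ¬ 𝒟.Ord P n) with hS3
  have hmem0 : ∀ n, n ∈ S0 ↔ (1 ≤ n ∧ n < 2 ^ (k₀ + 1)) ∧ ¬ (2 ^ k₀ ≤ n ∧ 𝒟.Ord P n) := by
    intro n
    rw [hS0, Finset.mem_sdiff]
    unfold cellOf
    rw [Finset.mem_Ico]
    constructor
    · rintro ⟨h1, h2⟩
      refine ⟨h1, fun h3 => h2 ?_⟩
      rw [Finset.mem_image]
      refine ⟨n, 𝒟.mem_ctrl_none.mpr ⟨⟨h3.1, h1.2⟩, h3.2⟩, ?_⟩
      rw [𝒟.sm_of_not_spec h3.2.2.2.1, one_mul]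
    · rintro ⟨h1, h2⟩
      refine ⟨h1, fun h3 => h2 ?_⟩
      rw [Finset.mem_image] at h3
      obtain ⟨q, hq, rfl⟩ := h3
      rw [𝒟.mem_ctrl_none] at hq
      rw [𝒟.sm_of_not_spec hq.2.2.2.1, one_mul]
      exact ⟨hq.1.1, hq.2⟩
  have hpow : 2 ^ k₀ < 2 ^ (k₀ + 1) := Nat.pow_lt_pow_right (by norm_num) (by omega)
  have hpow1 : 1 < 2 ^ (k₀ + 1) := Nat.one_lt_pow (by omega) (by norm_num)
  have hunion : S0 = {1} ∪ S1 ∪ (S2 ∪ S3) := by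
    ext n
    rw [hmem0]
    simp only [Finset.mem_union, Finset.mem_singleton, hS1, hS2, hS3, Finset.mem_filter,
      Finset.mem_range, Finset.mem_Ico]
    constructor
    · rintro ⟨⟨h1, h2⟩, h3⟩
      by_cases hn1 : n = 1
      · exact Or.inl (Or.inl hn1)
      · by_cases ho : 𝒟.Ord P n
        · left; right
          refine ⟨?_, ho⟩
          by_contra hcon
          push Not at hcon
          exact h3 ⟨hcon, ho⟩
        · right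
          by_cases hp : n.Prime ∧ ¬ 𝒟.Spec n
          · exact Or.inr ⟨⟨by omega, h2⟩, hp.1, hp.2, ho⟩
          · left
            refine ⟨⟨by omega, h2⟩, ?_⟩
            rw [not_and_or, not_not] at hp
            exact hp
    · rintro ((rfl | ⟨h1, h2⟩) | (⟨h1, h2⟩ | ⟨h1, h2⟩))
      · exact ⟨⟨le_refl _, hpow1⟩, fun h => Nat.not_prime_one h.2.1⟩
      · exact ⟨⟨h2.1.pos, by omega⟩, fun h => by omega⟩
      · refine ⟨⟨by omega, h1.2⟩, fun h => ?_⟩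
        rcases h2 with h2 | h2
        · exact h2 h.2.1
        · exact h.2.2.2.1 h2
      · exact ⟨⟨by omega, h1.2⟩, fun h => h2.2.2 h.2⟩
  have hd1 : Disjoint ({1} : Finset ℕ) S1 := by
    rw [Finset.disjoint_left]
    intro n hn hn1
    rw [Finset.mem_singleton] at hn
    rw [hS1, Finset.mem_filter] at hn1
    rw [hn] at hn1
    exact Nat.not_prime_one hn1.2.1
  have hd2 : Disjoint S2 S3 := by
    rw [Finset.disjoint_left]
    intro n hn hn1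
    rw [hS2, Finset.mem_filter] at hn
    rw [hS3, Finset.mem_filter] at hn1
    rcases hn.2 with h | h
    · exact h hn1.2.1
    · exact hn1.2.2.1 h
  have hd3 : Disjoint ({1} ∪ S1) (S2 ∪ S3) := by
    rw [Finset.disjoint_left]
    intro n hn hn1
    simp only [Finset.mem_union, Finset.mem_singleton, hS1, hS2, hS3, Finset.mem_filter,
      Finset.mem_range, Finset.mem_Ico] at hn hn1
    rcases hn with rfl | ⟨h1, h2⟩
    · rcases hn1 with h | h <;> omega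
    · rcases hn1 with ⟨h3, h4⟩ | ⟨h3, h4⟩
      · rcases h4 with h4 | h4
        · exact h4 h2.1
        · exact h2.2.2.1 h4
      · exact h4.2.2 h2
  rw [hunion, Finset.sum_union hd3, Finset.sum_union hd1, Finset.sum_union hd2,
    Finset.sum_singleton]

lemma Inputs.hE {𝒟 : Dead β k₀} {P K₀ : ℕ} {sg : ℕ → ℝ} {ε c : ℝ}
    (I : 𝒟.Inputs P K₀ sg ε c) (i : Idx β k₀) (f : ℕ → ℝ) (hf : 𝒟.Ball P sg f) :
    |∑ n ∈ cellOf β k₀ i \ (𝒟.ctrlOf P i).image (fun q => 𝒟.sm q * q), cm f n +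
      ∑ q ∈ 𝒟.ctrlOf P i, 𝒟.bas P sg q| ≤ Ei β k₀ ε i := by
  classical
  match i with
  | none =>
    rw [I.initial_split (cm f)]
    set S1 : Finset ℕ := (Finset.range (2 ^ k₀)).filter (fun n => 𝒟.Ord P n) with hS1
    set S2 : Finset ℕ := (Finset.Ico 2 (2 ^ (k₀ + 1))).filter (fun n => ¬ n.Prime ∨ 𝒟.Spec n) with hS2
    set S3 : Finset ℕ := (Finset.Ico 2 (2 ^ (k₀ + 1))).filter
      (fun n => n.Prime ∧ ¬ 𝒟.Spec n ∧ ¬ 𝒟.Ord P n) with hS3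
    have e1 : cm f 1 = 1 := Cm.one f
    have e2 : ∑ n ∈ S1, cm f n = ∑ n ∈ S1, 𝒟.bas P sg n := by
      apply Finset.sum_congr rfl
      intro n hn
      rw [hS1, Finset.mem_filter, Finset.mem_range] at hn
      rw [Cm.prime f hn.2.1]
      have h1 := hf n hn.2.1
      have h2 : 𝒟.rad P n = 0 := by
        unfold rad
        rw [if_neg hn.2.2.2.1, if_neg (fun h => by omega)]
      rw [h2] at h1
      have := abs_nonpos_iff.mp h1
      linarith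
    have e3 : ∑ n ∈ S3, cm f n = 0 := by
      apply Finset.sum_eq_zero
      intro n hn
      rw [hS3, Finset.mem_filter] at hn
      rw [Cm.prime f hn.2.1]
      have h1 := hf.abs_le hn.2.1
      rw [𝒟.Ab_of_neither hn.2.2.1 hn.2.2.2] at h1
      exact abs_nonpos_iff.mp h1
    have e4 : |∑ n ∈ S2, cm f n| ≤ ε * (2 : ℝ) ^ (β / 6 * (k₀ : ℝ)) / (k₀ : ℝ) ^ 3 := by
      refine (Finset.abs_sum_le_sum_abs _ _).trans ?_
      refine (Finset.sum_le_sum (fun n hn => ?_)).trans (I.init S2 (Finset.filter_subset _ _) ?_)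
      · rw [hS2, Finset.mem_filter, Finset.mem_Ico] at hn
        exact hf.cm_le (by omega)
      · intro n hn
        rw [hS2, Finset.mem_filter] at hn
        exact hn.2
    have e5 : |∑ n ∈ S1, 𝒟.bas P sg n + ∑ q ∈ 𝒟.ctrlOf P none, 𝒟.bas P sg q| ≤ 1 := by
      have hdis : Disjoint S1 (𝒟.ctrlOf P none) := by
        rw [Finset.disjoint_left]
        intro n hn hn1
        rw [hS1, Finset.mem_filter, Finset.mem_range] at hn
        rw [𝒟.mem_ctrl_none] at hn1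
        omega
      rw [← Finset.sum_union hdis]
      apply I.sign0
      intro q
      rw [Finset.mem_union, hS1, Finset.mem_filter, Finset.mem_range, 𝒟.mem_ctrl_none]
      have hpow : 2 ^ k₀ < 2 ^ (k₀ + 1) := Nat.pow_lt_pow_right (by norm_num) (by omega)
      constructor
      · rintro (⟨h1, h2⟩ | ⟨⟨h1, h2⟩, h3⟩)
        · exact ⟨by omega, h2⟩
        · exact ⟨h2, h3⟩
      · rintro ⟨h1, h2⟩
        by_cases h3 : q < 2 ^ k₀
        · exact Or.inl ⟨h3, h2⟩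
        · exact Or.inr ⟨⟨by omega, h1⟩, h2⟩
    have hl := I.large0
    rw [e1, e2, e3, add_zero]
    unfold Ei
    have h6 : 1 + ∑ n ∈ S1, 𝒟.bas P sg n + ∑ n ∈ S2, cm f n + ∑ q ∈ 𝒟.ctrlOf P none, 𝒟.bas P sg q =
      1 + (∑ n ∈ S1, 𝒟.bas P sg n + ∑ q ∈ 𝒟.ctrlOf P none, 𝒟.bas P sg q) + ∑ n ∈ S2, cm f n := by
      ring
    rw [h6]
    have h7 : 2 * ε * (2 : ℝ) ^ (β / 6 * (k₀ : ℝ)) / (k₀ : ℝ) ^ 3 =
      ε * (2 : ℝ) ^ (β / 6 * (k₀ : ℝ)) / (k₀ : ℝ) ^ 3 +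
        ε * (2 : ℝ) ^ (β / 6 * (k₀ : ℝ)) / (k₀ : ℝ) ^ 3 := by ring
    rw [h7]
    calc |1 + (∑ n ∈ S1, 𝒟.bas P sg n + ∑ q ∈ 𝒟.ctrlOf P none, 𝒟.bas P sg q) + ∑ n ∈ S2, cm f n|
        ≤ |(1 : ℝ)| + |∑ n ∈ S1, 𝒟.bas P sg n + ∑ q ∈ 𝒟.ctrlOf P none, 𝒟.bas P sg q| +
            |∑ n ∈ S2, cm f n| := abs_add_three _ _ _
      _ ≤ 1 + 1 + ε * (2 : ℝ) ^ (β / 6 * (k₀ : ℝ)) / (k₀ : ℝ) ^ 3 := by
          rw [abs_one]
          linarith
      _ ≤ _ := by linarith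
  | some kj =>
    have hk1 : 1 ≤ kj.1.1 := by have := kj.2.1; omega
    have hkpos : (0 : ℝ) < kj.1.1 := by exact_mod_cast hk1
    have h1 : |∑ n ∈ cellOf β k₀ (some kj) \ (𝒟.ctrlOf P (some kj)).image (fun q => 𝒟.sm q * q),
        cm f n| ≤ ε * (2 : ℝ) ^ (-(1 - β / 6) * (kj.1.1 : ℝ)) * len β kj.1.1 / (kj.1.1 : ℝ) ^ 3 := by
      refine (Finset.abs_sum_le_sum_abs _ _).trans ?_
      refine (Finset.sum_le_sum (fun n hn => ?_)).trans (I.sum_maj kj)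
      exact hf.cm_le (one_le_of_mem_cellOf (Finset.mem_sdiff.mp hn).1)
    have h2 := I.sign kj
    have h3 : 4 * (2 : ℝ) ^ (-(1 - β / 6) * (kj.1.1 : ℝ)) / (kj.1.1 : ℝ) ^ 2 ≤
        ε * (2 : ℝ) ^ (-(1 - β / 6) * (kj.1.1 : ℝ)) * len β kj.1.1 / (kj.1.1 : ℝ) ^ 3 := by
      have h4 := I.large kj.1.1 kj.2.1
      rw [div_le_div_iff₀ (by positivity) (by positivity)]
      have h5 : (0 : ℝ) < (2 : ℝ) ^ (-(1 - β / 6) * (kj.1.1 : ℝ)) := by positivity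
      calc 4 * (2 : ℝ) ^ (-(1 - β / 6) * (kj.1.1 : ℝ)) * (kj.1.1 : ℝ) ^ 3
          = (4 * (kj.1.1 : ℝ)) * ((2 : ℝ) ^ (-(1 - β / 6) * (kj.1.1 : ℝ)) * (kj.1.1 : ℝ) ^ 2) := by
            ring
        _ ≤ (ε * len β kj.1.1) * ((2 : ℝ) ^ (-(1 - β / 6) * (kj.1.1 : ℝ)) * (kj.1.1 : ℝ) ^ 2) :=
            mul_le_mul_of_nonneg_right h4 (by positivity)
        _ = _ := by ring
    simp only [Ei]
    have h7 : 2 * ε * (2 : ℝ) ^ (-(1 - β / 6) * (kj.1.1 : ℝ)) * len β kj.1.1 / (kj.1.1 : ℝ) ^ 3 =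
      ε * (2 : ℝ) ^ (-(1 - β / 6) * (kj.1.1 : ℝ)) * len β kj.1.1 / (kj.1.1 : ℝ) ^ 3 +
      ε * (2 : ℝ) ^ (-(1 - β / 6) * (kj.1.1 : ℝ)) * len β kj.1.1 / (kj.1.1 : ℝ) ^ 3 := by ring
    rw [h7]
    refine (abs_add_le _ _).trans ?_
    linarith

lemma Inputs.hE' {𝒟 : Dead β k₀} {P K₀ : ℕ} {sg : ℕ → ℝ} {ε c : ℝ}
    (I : 𝒟.Inputs P K₀ sg ε c) (i : Idx β k₀) (f g : ℕ → ℝ) (D : ℝ) (hD : 0 ≤ D)
    (hf : 𝒟.Ball P sg f) (hg : 𝒟.Ball P sg g)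
    (hfg : ∀ p : ℕ, p.Prime → |f p - g p| ≤ D * 𝒟.rad P p) :
    |∑ n ∈ cellOf β k₀ i \ (𝒟.ctrlOf P i).image (fun q => 𝒟.sm q * q), cm f n -
      ∑ n ∈ cellOf β k₀ i \ (𝒟.ctrlOf P i).image (fun q => 𝒟.sm q * q), cm g n| ≤
        D * Ei β k₀ ε i := by
  classical
  rw [← Finset.sum_sub_distrib]
  have hε := I.hε
  match i with
  | none =>
    rw [I.initial_split (fun n => cm f n - cm g n)]
    set S1 : Finset ℕ := (Finset.range (2 ^ k₀)).filter (fun n => 𝒟.Ord P n) with hS1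
    set S2 : Finset ℕ := (Finset.Ico 2 (2 ^ (k₀ + 1))).filter (fun n => ¬ n.Prime ∨ 𝒟.Spec n) with hS2
    set S3 : Finset ℕ := (Finset.Ico 2 (2 ^ (k₀ + 1))).filter
      (fun n => n.Prime ∧ ¬ 𝒟.Spec n ∧ ¬ 𝒟.Ord P n) with hS3
    have e1 : cm f 1 - cm g 1 = 0 := by rw [Cm.one, Cm.one, sub_self]
    have e2 : ∑ n ∈ S1, (cm f n - cm g n) = 0 := by
      apply Finset.sum_eq_zero
      intro n hn
      rw [hS1, Finset.mem_filter, Finset.mem_range] at hn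
      rw [Cm.prime f hn.2.1, Cm.prime g hn.2.1]
      have h1 := hfg n hn.2.1
      have h2 : 𝒟.rad P n = 0 := by
        unfold rad
        rw [if_neg hn.2.2.2.1, if_neg (fun h => by omega)]
      rw [h2, mul_zero] at h1
      exact abs_nonpos_iff.mp h1
    have e3 : ∑ n ∈ S3, (cm f n - cm g n) = 0 := by
      apply Finset.sum_eq_zero
      intro n hn
      rw [hS3, Finset.mem_filter] at hn
      rw [Cm.prime f hn.2.1, Cm.prime g hn.2.1]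
      have h1 := hf.abs_le hn.2.1
      rw [𝒟.Ab_of_neither hn.2.2.1 hn.2.2.2] at h1
      have h2 := hg.abs_le hn.2.1
      rw [𝒟.Ab_of_neither hn.2.2.1 hn.2.2.2] at h2
      rw [abs_nonpos_iff.mp h1, abs_nonpos_iff.mp h2, sub_self]
    have e4 : |∑ n ∈ S2, (cm f n - cm g n)| ≤
        D * (ε * (2 : ℝ) ^ (β / 6 * (k₀ : ℝ)) / (k₀ : ℝ) ^ 3) := by
      refine (Finset.abs_sum_le_sum_abs _ _).trans ?_
      have h1 : ∑ n ∈ S2, |cm f n - cm g n| ≤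
          ∑ n ∈ S2, D * (𝒟.maj P sg n * (n : ℝ) ^ (-(1 - β / 6))) := by
        apply Finset.sum_le_sum
        intro n hn
        rw [hS2, Finset.mem_filter, Finset.mem_Ico] at hn
        exact hf.cm_sub_le hg hD hfg (by omega)
      refine h1.trans ?_
      rw [← Finset.mul_sum]
      apply mul_le_mul_of_nonneg_left _ hD
      apply I.init S2 (Finset.filter_subset _ _)
      intro n hn
      rw [hS2, Finset.mem_filter] at hn
      exact hn.2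
    rw [e1, e2, e3, add_zero, add_zero, zero_add]
    refine e4.trans ?_
    apply mul_le_mul_of_nonneg_left _ hD
    unfold Ei
    have h7 : 2 * ε * (2 : ℝ) ^ (β / 6 * (k₀ : ℝ)) / (k₀ : ℝ) ^ 3 =
      ε * (2 : ℝ) ^ (β / 6 * (k₀ : ℝ)) / (k₀ : ℝ) ^ 3 +
        ε * (2 : ℝ) ^ (β / 6 * (k₀ : ℝ)) / (k₀ : ℝ) ^ 3 := by ring
    rw [h7]
    have : 0 ≤ ε * (2 : ℝ) ^ (β / 6 * (k₀ : ℝ)) / (k₀ : ℝ) ^ 3 := by positivity
    linarith
  | some kj =>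
    have hk1 : 1 ≤ kj.1.1 := by have := kj.2.1; omega
    have hkpos : (0 : ℝ) < kj.1.1 := by exact_mod_cast hk1
    refine (Finset.abs_sum_le_sum_abs _ _).trans ?_
    have h1 : ∑ n ∈ cellOf β k₀ (some kj) \ (𝒟.ctrlOf P (some kj)).image (fun q => 𝒟.sm q * q),
        |cm f n - cm g n| ≤
        ∑ n ∈ cellOf β k₀ (some kj) \ (𝒟.ctrlOf P (some kj)).image (fun q => 𝒟.sm q * q),
          D * (𝒟.maj P sg n * (n : ℝ) ^ (-(1 - β / 6))) := by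
      apply Finset.sum_le_sum
      intro n hn
      exact hf.cm_sub_le hg hD hfg (one_le_of_mem_cellOf (Finset.mem_sdiff.mp hn).1)
    refine h1.trans ?_
    rw [← Finset.mul_sum]
    apply mul_le_mul_of_nonneg_left _ hD
    refine (I.sum_maj kj).trans ?_
    simp only [Ei]
    have h7 : 2 * ε * (2 : ℝ) ^ (-(1 - β / 6) * (kj.1.1 : ℝ)) * len β kj.1.1 / (kj.1.1 : ℝ) ^ 3 =
      ε * (2 : ℝ) ^ (-(1 - β / 6) * (kj.1.1 : ℝ)) * len β kj.1.1 / (kj.1.1 : ℝ) ^ 3 +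
      ε * (2 : ℝ) ^ (-(1 - β / 6) * (kj.1.1 : ℝ)) * len β kj.1.1 / (kj.1.1 : ℝ) ^ 3 := by ring
    rw [h7]
    have : 0 ≤ ε * (2 : ℝ) ^ (-(1 - β / 6) * (kj.1.1 : ℝ)) * len β kj.1.1 / (kj.1.1 : ℝ) ^ 3 := by
      positivity
    linarith

/-- all cell sums can be made zero -/
theorem Inputs.exists_balanced {𝒟 : Dead β k₀} {P K₀ : ℕ} {sg : ℕ → ℝ} {ε c : ℝ}
    (I : 𝒟.Inputs P K₀ sg ε c) :
    ∃ f : ℕ → ℝ, 𝒟.Ball P sg f ∧ ∀ i : Idx β k₀, ∑ n ∈ cellOf β k₀ i, cm f n = 0 := by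
  classical
  apply exists_fixed_point (cellOf β k₀) (𝒟.ctrlOf P) (𝒟.bas P sg) (𝒟.rad P) (𝒟.Ab P sg) (𝒟.wt P)
    𝒟.sm (Ei β k₀ ε) (𝒟.lamq K₀) (𝒟.Mq K₀)
  · intro i n hn
    exact one_le_of_mem_cellOf hn
  · exact 𝒟.rad_nonneg P
  · intro p _
    exact le_refl _
  · exact 𝒟.ctrl_disj I.hβ I.hβ' I.hP
  · intro i q hq
    exact 𝒟.ctrl_prime I.hβ I.hβ' I.hP hq
  · exact 𝒟.ctrl_inj I.hβ I.hβ' I.hP I.hk
  · exact I.hw
  · exact 𝒟.wt_nonneg P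
  · intro i
    match i with
    | none =>
      left
      intro q hq
      rw [𝒟.mem_ctrl_none] at hq
      exact 𝒟.sm_of_not_spec hq.2.2.2.1
    | some kj =>
      by_cases hd : kj.1.2 ∈ 𝒟.D kj.1.1
      · right
        intro q hq
        obtain ⟨m, hm⟩ := 𝒟.mem_ctrl_dead hd hq
        exact 𝒟.bas_of_spec ⟨_, _, m, hd, hm⟩
      · left
        intro q hq
        rw [𝒟.mem_ctrl_alive hd] at hq
        exact 𝒟.sm_of_not_spec hq.2.2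
  · intro i q hq
    by_cases hs : 𝒟.Spec q
    · have hrm := 𝒟.cm_rho_pos (𝒟.spec_data hs).2
      unfold lamq
      rw [if_pos hs]
      refine ⟨by positivity, fun f hf => ?_⟩
      exact Ball.cm_ge I.hsg I.hβ I.hβ' I.hK I.hk2 I.hPk hf hs
    · unfold lamq
      rw [if_neg hs]
      refine ⟨one_pos, fun f _ => ?_⟩
      rw [𝒟.sm_of_not_spec hs, Cm.one, abs_one]
  · intro i q hq
    by_cases hs : 𝒟.Spec q
    · have hrm := 𝒟.cm_rho_pos (𝒟.spec_data hs).2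
      have hsm1 : 1 ≤ 𝒟.sm q := (𝒟.spec_data hs).2.1.2.2.1.le
      unfold Mq
      rw [if_pos hs]
      refine ⟨by positivity, fun f g D hD hf hg hfg => ?_⟩
      have h1 := Ball.cm_sub_le (𝒟 := 𝒟) (P := P) (sg := sg) hf hg hD hfg hsm1
      rw [𝒟.maj_mul_rpow hsm1] at h1
      refine h1.trans ?_
      exact mul_le_mul_of_nonneg_left
        (𝒟.cm_two_Ab_le I.hsg I.hβ I.hβ' I.hK I.hk2 I.hPk hs) hD
    · unfold Mq
      rw [if_neg hs]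
      refine ⟨le_refl _, fun f g D hD hf hg hfg => ?_⟩
      rw [𝒟.sm_of_not_spec hs, Cm.one, Cm.one]
      simp
  · intro i f hf
    exact I.hE i f hf
  · intro i f g D hD hf hg hfg
    exact I.hE' i f g D hD hf hg hfg
  · intro i q hq
    exact (I.h12 hq).1
  · intro i q hq
    exact (I.h12 hq).2

end Dead

end Pool.Agent.MP_a187e6
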